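import Pool.Agent.P.MP_dfe42f_co.Basic

namespace GTur
open Finset SimpleGraph

/-- Adjacency of the uniform family: two cocktail party graphs joined by a signed order. -/
def adjU {x : ℕ} (u v : Bool × Bool × Fin x) : Prop :=
  if u.1 = v.1 then u.2.2 ≠ v.2.2
  else if u.1 = false then (u.2.2 ≤ v.2.2 ↔ u.2.1 = v.2.1) else (v.2.2 ≤ u.2.2 ↔ u.2.1 = v.2.1)

instance {x : ℕ} : DecidableRel (adjU (x := x)) := fun u v => by unfold adjU; infer_instance

def GU (x : ℕ) : SimpleGraph (Bool × Bool × Fin x) where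
  Adj := adjU
  symm := ⟨by
    rintro ⟨a, s, p⟩ ⟨b, t, q⟩
    cases a <;> cases b <;> simp [adjU, eq_comm]⟩
  loopless := ⟨by rintro ⟨a, s, p⟩; simp [adjU]⟩

theorem GU_adj {x : ℕ} {u v} : (GU x).Adj u v ↔ adjU u v := Iff.rfl

theorem GU_clique (x : ℕ) : (GU x).CliqueFree (x + 2) := by
  intro s hs
  let A := s.filter (fun v => v.1 = false)
  let B := s.filter (fun v => ¬ v.1 = false)
  have hc : A.card + B.card = x + 2 := by rw [card_filter_add_card_filter_not, hs.2]
  have inj : ∀ u ∈ s, ∀ v ∈ s, u.1 = v.1 → u.2.2 = v.2.2 → u = v := by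
    intro u hu v hv h1 h2
    by_contra hne
    have := hs.1 hu hv hne
    simp [GU_adj, adjU, h1, h2] at this
  have hA : (A.image fun v => v.2.2).card = A.card := card_image_of_injOn fun u hu v hv h => by
    have hu := mem_filter.1 hu
    have hv := mem_filter.1 hv
    exact inj u hu.1 v hv.1 (hu.2.trans hv.2.symm) h
  have hB : (B.image fun v => v.2.2).card = B.card := card_image_of_injOn fun u hu v hv h => by
    have hu := mem_filter.1 hu
    have hv := mem_filter.1 hv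
    exact inj u hu.1 v hv.1 (by simp_all) h
  have hU : ((A.image fun v => v.2.2) ∪ (B.image fun v => v.2.2)).card ≤ x := by
    simpa using card_le_univ ((A.image fun v => v.2.2) ∪ (B.image fun v => v.2.2))
  have cross : ∀ u ∈ A, ∀ v ∈ B, (u.2.2 ≤ v.2.2 ↔ u.2.1 = v.2.1) := by
    intro u hu v hv
    have hu := mem_filter.1 hu
    have hv := mem_filter.1 hv
    have hne : u.1 ≠ v.1 := fun h => hv.2 (h ▸ hu.2)
    have := hs.1 hu.1 hv.1 (fun h => hne (by rw [h]))
    rw [GU_adj, adjU, if_neg hne, if_pos hu.2] at this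
    exact this
  have hI : ((A.image fun v => v.2.2) ∩ (B.image fun v => v.2.2)).card ≤ 1 := by
    refine card_le_one.2 fun p hp q hq => ?_
    simp only [mem_inter, mem_image] at hp hq
    obtain ⟨⟨a, ha, rfl⟩, b, hb, hab⟩ := hp
    obtain ⟨⟨a', ha', rfl⟩, b', hb', hab'⟩ := hq
    have h1 := (cross a ha b hb).1 hab.ge
    have h2 := (cross a' ha' b' hb').1 hab'.ge
    have h3 := cross a ha b' hb'
    have h4 := cross a' ha' b hb
    rw [hab'] at h3
    rw [hab] at h4
    have h5 : a.2.2 ≤ a'.2.2 ↔ a'.2.2 ≤ a.2.2 := by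
      rw [h3, h4, h1, h2, eq_comm]
    rcases le_total a.2.2 a'.2.2 with h | h
    · exact le_antisymm h (h5.1 h)
    · exact le_antisymm (h5.2 h) h
  have := card_union_add_card_inter (A.image fun v => v.2.2) (B.image fun v => v.2.2)
  omega

theorem ncard_nbr {U : Type} [Fintype U] (K : SimpleGraph U) [DecidableRel K.Adj] (u : U) :
    (K.neighborSet u).ncard = ∑ w, if K.Adj u w then 1 else 0 := by
  rw [← card_filter, ← Set.ncard_coe_finset]
  congr 1
  ext w
  simp

instance (x : ℕ) : DecidableRel (GU x).Adj := fun u v => by unfold GU; infer_instance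

theorem GU_deg (x : ℕ) (v) : ((GU (x + 1)).neighborSet v).ncard ≤ 3 * x + 1 := by
  obtain ⟨a, s, p⟩ := v
  have h : ∀ q : Fin (x + 1), (∑ b : Bool, ∑ t : Bool,
      if (GU (x + 1)).Adj (a, s, p) (b, t, q) then 1 else 0) = 2 * (if p ≠ q then 1 else 0) + 1 := by
    intro q
    simp only [GU_adj, adjU, Fintype.sum_bool]
    cases a <;> cases s <;> by_cases h1 : p ≤ q <;> by_cases h2 : q ≤ p <;> by_cases h3 : p = q <;>
      simp [h1, h2, h3]
  rw [ncard_nbr]
  simp only [Fintype.sum_prod_type]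
  rw [sum_congr rfl fun b _ => sum_comm, sum_comm]
  simp only [h, sum_add_distrib, ← mul_sum, sum_ne]
  simp
  omega

theorem ord_dec {V : Type} [Fintype V] (G : SimpleGraph V) [DecidableRel G.Adj] :
    ord G = ∑ u, ∑ v, ∑ w, if G.Adj u v ∧ G.Adj u w ∧ G.Adj v w then 1 else 0 := by
  unfold ord
  convert rfl

theorem GU_ord (x : ℕ) :
    ord (GU (x + 2)) = 16 * ((x + 2) * (x + 1) * x) + 12 * ((x + 2) * (x + 2) * (x + 1)) := by
  have h : ∀ p q r : Fin (x + 2), (∑ a : Bool × Bool, ∑ b : Bool × Bool, ∑ c : Bool × Bool,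
      if (GU (x + 2)).Adj (a.1, a.2, p) (b.1, b.2, q) ∧ (GU (x + 2)).Adj (a.1, a.2, p) (c.1, c.2, r) ∧
        (GU (x + 2)).Adj (b.1, b.2, q) (c.1, c.2, r) then 1 else 0) =
      16 * (if p ≠ q ∧ p ≠ r ∧ q ≠ r then 1 else 0) + 4 * (if p ≠ q then 1 else 0) +
        4 * (if p ≠ r then 1 else 0) + 4 * (if q ≠ r then 1 else 0) := by
    intro p q r
    simp only [GU_adj, adjU, Fintype.sum_prod_type, Fintype.sum_bool]
    by_cases h1 : p = q <;> by_cases h2 : p = r <;> by_cases h3 : q = r <;>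
    by_cases h4 : p ≤ q <;> by_cases h5 : q ≤ p <;> by_cases h6 : p ≤ r <;> by_cases h7 : r ≤ p <;>
      by_cases h8 : q ≤ r <;> by_cases h9 : r ≤ q <;>
      simp only [h1, h2, h3, h4, h5, h6, h7, h8, h9, ne_eq, not_true_eq_false, not_false_eq_true,
        eq_self, le_refl] <;> first | rfl | (exfalso; omega) | simp [Ne.symm h3]
  have e : ∀ f : Bool × Bool × Fin (x + 2) → ℕ,
      ∑ v, f v = ∑ p, ∑ a : Bool × Bool, f (a.1, a.2, p) := by
    intro f
    rw [sum_comm]
    simp only [Fintype.sum_prod_type]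
  rw [ord_dec]
  simp only [e]
  have e2 : ∀ f : Fin (x + 2) → Bool × Bool → Fin (x + 2) → Bool × Bool → Fin (x + 2) →
      Bool × Bool → ℕ, ∑ p, ∑ a, ∑ q, ∑ b, ∑ r, ∑ c, f p a q b r c =
        ∑ p, ∑ q, ∑ r, ∑ a, ∑ b, ∑ c, f p a q b r c := by
    intro f
    refine sum_congr rfl fun p _ => ?_
    rw [sum_comm]
    refine sum_congr rfl fun q _ => ?_
    rw [sum_congr rfl fun a _ => sum_comm, sum_comm]
  rw [e2]
  have s1 : ∑ p : Fin (x + 2), ∑ q : Fin (x + 2), ∑ _r : Fin (x + 2),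
      (if p ≠ q then 1 else 0) = (x + 2) * (x + 2) * (x + 1) := by
    simp only [sum_const, card_univ, Fintype.card_fin, smul_eq_mul, ← mul_sum, sum_ne (x + 1)]
    ring
  have s2 : ∑ p : Fin (x + 2), ∑ _q : Fin (x + 2), ∑ r : Fin (x + 2),
      (if p ≠ r then 1 else 0) = (x + 2) * (x + 2) * (x + 1) := by
    simp only [sum_const, card_univ, Fintype.card_fin, smul_eq_mul, sum_ne (x + 1)]
    ring
  have s3 : ∑ _p : Fin (x + 2), ∑ q : Fin (x + 2), ∑ r : Fin (x + 2),
      (if q ≠ r then 1 else 0) = (x + 2) * (x + 2) * (x + 1) := by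
    simp only [sum_const, card_univ, Fintype.card_fin, smul_eq_mul, sum_ne (x + 1)]
    ring
  simp only [h, sum_add_distrib, ← mul_sum]
  rw [sum_ne3, s1, s2, s3]
  ring

theorem good_U (x : ℕ) : Good (4 * (x + 2)) (3 * x + 4) (x + 3)
    (16 * ((x + 2) * (x + 1) * x) + 12 * ((x + 2) * (x + 2) * (x + 1))) :=
  ⟨_, inferInstance, GU (x + 2), by simp; ring, GU_clique _, GU_deg (x + 1), (GU_ord x).ge⟩

end GTur
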