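import Mathlib

namespace GTur
open Finset SimpleGraph

open Classical in
/-- Number of ordered triangles. -/
noncomputable def ord {V : Type} [Fintype V] (G : SimpleGraph V) : ℕ :=
  ∑ u, ∑ v, ∑ w, if G.Adj u v ∧ G.Adj u w ∧ G.Adj v w then 1 else 0

theorem ord_eq {V : Type} [Fintype V] (G : SimpleGraph V) :
    ord G = 6 * (G.cliqueSet 3).ncard := by
  classical
  have h1 : ord G = ((univ : Finset (V × V × V)).filter
      (fun t => G.Adj t.1 t.2.1 ∧ G.Adj t.1 t.2.2 ∧ G.Adj t.2.1 t.2.2)).card := by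
    rw [card_filter, ord]
    simp only [Fintype.sum_prod_type]
  rw [h1, ← coe_cliqueFinset, Set.ncard_coe_finset,
    card_eq_sum_card_fiberwise (f := fun t : V × V × V => ({t.1, t.2.1, t.2.2} : Finset V))
      (t := G.cliqueFinset 3)]
  · rw [mul_comm, ← smul_eq_mul, ← sum_const]
    refine sum_congr rfl fun s hs => ?_
    obtain ⟨a, b, c, hab, hac, hbc, rfl⟩ := is3Clique_iff.1 (mem_cliqueFinset_iff.1 hs)
    have nab := hab.ne
    have nac := hac.ne
    have nbc := hbc.ne
    have : (((univ : Finset (V × V × V)).filter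
        (fun t => G.Adj t.1 t.2.1 ∧ G.Adj t.1 t.2.2 ∧ G.Adj t.2.1 t.2.2)).filter
        (fun t => ({t.1, t.2.1, t.2.2} : Finset V) = {a, b, c})) =
        {(a, b, c), (a, c, b), (b, a, c), (b, c, a), (c, a, b), (c, b, a)} := by
      ext ⟨x, y, z⟩
      simp only [mem_filter, mem_univ, true_and, mem_insert, mem_singleton, Prod.mk.injEq]
      constructor
      · rintro ⟨⟨h1, h2, h3⟩, h⟩
        have hx : x ∈ ({a, b, c} : Finset V) := by rw [← h]; simp
        have hy : y ∈ ({a, b, c} : Finset V) := by rw [← h]; simp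
        have hz : z ∈ ({a, b, c} : Finset V) := by rw [← h]; simp
        have n1 := h1.ne
        have n2 := h2.ne
        have n3 := h3.ne
        simp only [mem_insert, mem_singleton] at hx hy hz
        rcases hx with rfl | rfl | rfl <;> rcases hy with rfl | rfl | rfl <;>
          rcases hz with rfl | rfl | rfl <;> simp_all
      · rintro (⟨rfl, rfl, rfl⟩ | ⟨rfl, rfl, rfl⟩ | ⟨rfl, rfl, rfl⟩ | ⟨rfl, rfl, rfl⟩ |
          ⟨rfl, rfl, rfl⟩ | ⟨rfl, rfl, rfl⟩) <;>
        refine ⟨⟨by first | assumption | (symm; assumption), by first | assumption | (symm; assumption),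
          by first | assumption | (symm; assumption)⟩, ?_⟩ <;>
        (ext t; simp only [mem_insert, mem_singleton]; try tauto)
    rw [this]
    rw [card_insert_of_notMem, card_insert_of_notMem, card_insert_of_notMem,
      card_insert_of_notMem, card_insert_of_notMem, card_singleton] <;>
      simp [nab, nac, nbc, nab.symm, nac.symm, nbc.symm]
  · intro t ht
    simp only [coe_filter, mem_univ, true_and, Set.mem_ofPred_eq] at ht
    simp only [mem_coe, mem_cliqueFinset_iff]
    exact is3Clique_triple_iff.2 ht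

theorem sum_comp_fib {V W : Type} [Fintype V] [Fintype W] [DecidableEq W] (f : V → W) (q : ℕ)
    (hf : ∀ y, (univ.filter (fun x => f x = y)).card = q) (g : W → ℕ) :
    ∑ x, g (f x) = q * ∑ y, g y := by
  rw [← sum_fiberwise_of_maps_to (s := univ) (t := univ) (g := f) (fun _ _ => mem_univ _),
    mul_sum]
  refine sum_congr rfl fun y _ => ?_
  rw [sum_congr rfl (g := fun _ => g y) (fun x hx => by rw [(mem_filter.1 hx).2]), sum_const,
    hf, smul_eq_mul]

theorem ord_comap {V W : Type} [Fintype V] [Fintype W] [DecidableEq W] (f : V → W) (q : ℕ)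
    (hf : ∀ y, (univ.filter (fun x => f x = y)).card = q) (H : SimpleGraph W) :
    ord (H.comap f) = q ^ 3 * ord H := by
  classical
  unfold ord
  simp only [comap_adj]
  have e1 : ∀ a b : W, ∑ w, (if H.Adj a b ∧ H.Adj a (f w) ∧ H.Adj b (f w) then 1 else 0) =
      q * ∑ c, (if H.Adj a b ∧ H.Adj a c ∧ H.Adj b c then 1 else 0) := fun a b =>
    sum_comp_fib f q hf (fun c => if H.Adj a b ∧ H.Adj a c ∧ H.Adj b c then 1 else 0)
  simp only [e1]
  have e2 : ∀ a : W, ∑ v, q * ∑ c, (if H.Adj a (f v) ∧ H.Adj a c ∧ H.Adj (f v) c then 1 else 0) =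
      q * ∑ b, q * ∑ c, (if H.Adj a b ∧ H.Adj a c ∧ H.Adj b c then 1 else 0) := fun a =>
    sum_comp_fib f q hf (fun b => q * ∑ c, if H.Adj a b ∧ H.Adj a c ∧ H.Adj b c then 1 else 0)
  simp only [e2]
  rw [sum_comp_fib f q hf (fun a => q * ∑ b, q * ∑ c,
    if H.Adj a b ∧ H.Adj a c ∧ H.Adj b c then 1 else 0)]
  simp only [← mul_sum]
  ring

theorem cliqueFree_comap {V W : Type} (f : V → W) (H : SimpleGraph W) {k : ℕ}
    (h : H.CliqueFree k) : (H.comap f).CliqueFree k := by
  classical
  intro s hs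
  refine h (s.image f) ⟨?_, ?_⟩
  · intro a ha b hb hab
    obtain ⟨x, hx, rfl⟩ := mem_image.1 ha
    obtain ⟨y, hy, rfl⟩ := mem_image.1 hb
    exact hs.1 hx hy (fun e => hab (by rw [e]))
  · rw [card_image_of_injOn, hs.2]
    intro x hx y hy hxy
    by_contra hne
    exact (show H.Adj (f x) (f y) from hs.1 hx hy hne).ne hxy

theorem deg_comap {V W : Type} [Fintype V] [Fintype W] [DecidableEq W] (f : V → W) (q : ℕ)
    (hf : ∀ y, (univ.filter (fun x => f x = y)).card = q) (H : SimpleGraph W) (v : V) :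
    ((H.comap f).neighborSet v).ncard = q * (H.neighborSet (f v)).ncard := by
  classical
  have e : ∀ {U : Type} [Fintype U] (K : SimpleGraph U) (u : U),
      (K.neighborSet u).ncard = ∑ w, if K.Adj u w then 1 else 0 := by
    intro U _ K u
    rw [← card_filter, ← Set.ncard_coe_finset]
    congr 1
    ext w
    simp
  rw [e, e]
  exact sum_comp_fib f q hf (fun c => if H.Adj (f v) c then 1 else 0)

/-- A graph with the given order, degree bound, clique bound and many ordered triangles. -/
def Good (n d w o : ℕ) : Prop :=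
  ∃ (V : Type) (_ : Fintype V) (G : SimpleGraph V), Fintype.card V = n ∧ G.CliqueFree (w + 1) ∧
    (∀ v, (G.neighborSet v).ncard ≤ d) ∧ o ≤ ord G

theorem Good.blow {n d w o : ℕ} (h : Good n d w o) (s : ℕ) :
    Good (n * s) (s * d) w (s ^ 3 * o) := by
  classical
  obtain ⟨V, _, G, h1, h2, h3, h4⟩ := h
  have hf : ∀ y : V, (univ.filter (fun x : V × Fin s => x.1 = y)).card = s := by
    intro y
    have : univ.filter (fun x : V × Fin s => x.1 = y) = ({y} : Finset V) ×ˢ univ := by
      ext ⟨a, b⟩; simp [eq_comm]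
    rw [this]; simp
  refine ⟨V × Fin s, inferInstance, G.comap Prod.fst, by simp [h1], cliqueFree_comap _ _ h2,
    fun v => ?_, ?_⟩
  · rw [deg_comap _ s hf]; exact Nat.mul_le_mul_left _ (h3 _)
  · rw [ord_comap _ s hf]; exact Nat.mul_le_mul_left _ h4

theorem Good.add {n n' d w o o' : ℕ} (h : Good n d w o) (h' : Good n' d w o') :
    Good (n + n') d w (o + o') := by
  classical
  obtain ⟨V, _, G, h1, h2, h3, h4⟩ := h
  obtain ⟨V', _, G', h1', h2', h3', h4'⟩ := h'
  refine ⟨V ⊕ V', inferInstance, G ⊕g G', by simp [h1, h1'], ?_, ?_, ?_⟩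
  · intro s hs
    have hc := hs.2
    by_cases hl : ∃ a, Sum.inl a ∈ s
    · obtain ⟨a, ha⟩ := hl
      have hr : ∀ b, Sum.inr b ∉ s := fun b hb => by
        have := hs.1 ha hb (by simp)
        simp at this
      refine h2 s.toLeft ⟨?_, ?_⟩
      · intro x hx y hy hxy
        have := hs.1 (mem_toLeft.1 hx) (mem_toLeft.1 hy) (by simpa using hxy)
        simpa using this
      · have e : s.toRight = ∅ := by ext b; simp [hr b]
        have := card_toLeft_add_card_toRight (u := s)
        rw [e] at this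
        simpa [hc] using this
    · refine h2' s.toRight ⟨?_, ?_⟩
      · intro x hx y hy hxy
        have := hs.1 (mem_toRight.1 hx) (mem_toRight.1 hy) (by simpa using hxy)
        simpa using this
      · have e : s.toLeft = ∅ := by
          ext b; simp only [mem_toLeft, notMem_empty, iff_false]; exact fun hb => hl ⟨b, hb⟩
        have := card_toLeft_add_card_toRight (u := s)
        rw [e] at this
        simpa [hc] using this
  · rintro (v | v)
    · have : (G ⊕g G').neighborSet (Sum.inl v) = Sum.inl '' G.neighborSet v := by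
        ext (x | x) <;> simp
      rw [this, Set.ncard_image_of_injective _ Sum.inl_injective]; exact h3 v
    · have : (G ⊕g G').neighborSet (Sum.inr v) = Sum.inr '' G'.neighborSet v := by
        ext (x | x) <;> simp
      rw [this, Set.ncard_image_of_injective _ Sum.inr_injective]; exact h3' v
  · have : ord (G ⊕g G') = ord G + ord G' := by
      unfold ord
      simp only [Fintype.sum_sum_type]
      simp only [sum_adj, and_false, false_and, if_false, sum_const_zero, add_zero, zero_add]
    omega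

theorem Good.toFin {n d w o : ℕ} (h : Good n d w o) :
    ∃ G : SimpleGraph (Fin n), G.CliqueFree (w + 1) ∧ (∀ v, (G.neighborSet v).ncard ≤ d) ∧
      o ≤ 6 * (G.cliqueSet 3).ncard := by
  classical
  obtain ⟨V, _, G, h1, h2, h3, h4⟩ := h
  let e : Fin n ≃ V := (Fintype.equivFinOfCardEq h1).symm
  have hf : ∀ y : V, (univ.filter (fun x => e x = y)).card = 1 := by
    intro y
    have : univ.filter (fun x => e x = y) = {e.symm y} := by
      ext a; simp [Equiv.eq_symm_apply]
    rw [this]; simp
  refine ⟨G.comap e, cliqueFree_comap _ _ h2, fun v => ?_, ?_⟩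
  · rw [deg_comap _ 1 hf, one_mul]; exact h3 _
  · rw [← ord_eq, ord_comap _ 1 hf]; simpa using h4

theorem sum_ne (x : ℕ) (p : Fin (x + 1)) : ∑ q, (if p ≠ q then 1 else 0) = x := by
  rw [← card_filter, filter_ne, card_erase_of_mem (mem_univ _)]; simp

theorem sum_ne3 (x : ℕ) : ∑ p : Fin (x + 2), ∑ q, ∑ r,
    (if p ≠ q ∧ p ≠ r ∧ q ≠ r then 1 else 0) = (x + 2) * (x + 1) * x := by
  have h : ∀ p q : Fin (x + 2), ∑ r, (if p ≠ q ∧ p ≠ r ∧ q ≠ r then 1 else 0) =
      x * if p ≠ q then 1 else 0 := by
    intro p q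
    by_cases hpq : p = q
    · simp [hpq]
    · have : univ.filter (fun r => p ≠ q ∧ p ≠ r ∧ q ≠ r) = (univ.erase p).erase q := by
        ext r; simp [hpq, eq_comm, and_comm]
      rw [← card_filter, this, card_erase_of_mem (by simp [Ne.symm hpq]),
        card_erase_of_mem (mem_univ _)]
      simp [hpq]
  simp only [h, ← mul_sum, sum_ne (x + 1)]
  simp
  ring

theorem ord_top (x : ℕ) : ord (⊤ : SimpleGraph (Fin (x + 2))) = (x + 2) * (x + 1) * x := by
  rw [← sum_ne3, ord]
  simp only [top_adj]

theorem good_top (x : ℕ) : Good (x + 2) (x + 1) (x + 2) ((x + 2) * (x + 1) * x) := by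
  refine ⟨Fin (x + 2), inferInstance, ⊤, by simp, cliqueFree_of_card_lt (by simp), fun v => ?_,
    (ord_top x).ge⟩
  have : (⊤ : SimpleGraph (Fin (x + 2))).neighborSet v = ((univ.erase v : Finset _) : Set _) := by
    ext w; simp [eq_comm]
  rw [this, Set.ncard_coe_finset, card_erase_of_mem (mem_univ _)]; simp

theorem turan_count (x q : ℕ) :
    6 * ((turanGraph ((x + 2) * q) (x + 2)).cliqueSet 3).ncard = q ^ 3 * ((x + 2) * (x + 1) * x) := by
  let f : Fin ((x + 2) * q) → Fin (x + 2) := fun v => ⟨v % (x + 2), Nat.mod_lt _ (by omega)⟩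
  have e : turanGraph ((x + 2) * q) (x + 2) = (⊤ : SimpleGraph (Fin (x + 2))).comap f := by
    ext v w; simp [turanGraph_adj, f, Fin.ext_iff]
  rw [← ord_eq, e, ord_comap f q, ord_top]
  intro y
  have : (univ.filter (fun v => f v = y)).card =
      ((range ((x + 2) * q)).filter (fun v => v % (x + 2) = y)).card := by
    rw [← card_map Fin.valEmbedding]
    congr 1
    ext v
    simp only [mem_map, mem_filter, mem_univ, true_and, Fin.valEmbedding_apply, mem_range, f,
      Fin.ext_iff]
    exact ⟨fun ⟨a, h1, h2⟩ => h2 ▸ ⟨a.2, h1⟩, fun ⟨h1, h2⟩ => ⟨⟨v, h1⟩, h2, rfl⟩⟩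
  rw [this]
  have h2 : (range ((x + 2) * q)).filter (fun v => v % (x + 2) = y) =
      (range q).image (fun j => (x + 2) * j + y) := by
    ext v
    simp only [mem_filter, mem_range, mem_image]
    constructor
    · rintro ⟨h1, h2⟩
      refine ⟨v / (x + 2), Nat.div_lt_of_lt_mul h1, ?_⟩
      rw [← h2]; exact Nat.div_add_mod v _
    · rintro ⟨j, hj, rfl⟩
      have := y.2
      refine ⟨by nlinarith, ?_⟩
      rw [Nat.mul_add_mod, Nat.mod_eq_of_lt this]
  rw [h2, card_image_of_injective _ (fun a b h => by simpa using h), card_range]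

end GTur
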