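import Mathlib

/-! Weighted clique sums. -/

namespace Pool.Agent.GLT
open Finset

variable {V : Type}

open Classical in
/-- neighbours of `v` inside `B` -/
noncomputable def nb (G : SimpleGraph V) (B : Finset V) (v : V) : Finset V :=
  B.filter (fun u => G.Adj v u)

open Classical in
/-- cliques with `j` vertices inside `B` -/
noncomputable def cl (G : SimpleGraph V) (j : ℕ) (B : Finset V) : Finset (Finset V) :=
  (B.powersetCard j).filter (fun K => G.IsClique (K : Set V))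

/-- weighted clique sum -/
noncomputable def P (G : SimpleGraph V) (j : ℕ) (B : Finset V) (x : V → ℝ) : ℝ :=
  ∑ K ∈ cl G j B, ∏ v ∈ K, x v

variable {G : SimpleGraph V}

@[simp] theorem mem_nb {B : Finset V} {v u : V} : u ∈ nb G B v ↔ u ∈ B ∧ G.Adj v u := by
  simp [nb]

theorem mem_cl {j : ℕ} {B K : Finset V} :
    K ∈ cl G j B ↔ K ⊆ B ∧ K.card = j ∧ G.IsClique (K : Set V) := by
  simp [cl, mem_powersetCard, and_assoc]

theorem nb_subset (B : Finset V) (v : V) : nb G B v ⊆ B := fun _ h => (mem_nb.1 h).1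

theorem nb_mono {A B : Finset V} (h : A ⊆ B) (v : V) : nb G A v ⊆ nb G B v := fun _ hu =>
  mem_nb.2 ⟨h (mem_nb.1 hu).1, (mem_nb.1 hu).2⟩

theorem not_mem_nb_self (B : Finset V) (v : V) : v ∉ nb G B v := fun h => (mem_nb.1 h).2.ne rfl

theorem cl_mono {A B : Finset V} (h : A ⊆ B) (j : ℕ) : cl G j A ⊆ cl G j B := fun _ hK =>
  mem_cl.2 ⟨(mem_cl.1 hK).1.trans h, (mem_cl.1 hK).2⟩

theorem cl_zero (B : Finset V) : cl G 0 B = {∅} := by
  ext K
  simp only [mem_cl, card_eq_zero, mem_singleton]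
  constructor
  · exact fun h => h.2.1
  · rintro rfl
    simp

@[simp] theorem P_zero (B : Finset V) (x : V → ℝ) : P G 0 B x = 1 := by
  simp [P, cl_zero]

theorem P_empty (j : ℕ) (x : V → ℝ) : P G (j + 1) ∅ x = 0 := by
  have : cl G (j + 1) (∅ : Finset V) = ∅ := by
    ext K
    simp only [mem_cl, subset_empty, notMem_empty, iff_false]
    rintro ⟨rfl, h, -⟩
    simp at h
  simp [P, this]

theorem P_card (j : ℕ) (B : Finset V) : P G j B (fun _ => 1) = (cl G j B).card := by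
  simp [P]

theorem P_nonneg {x : V → ℝ} {B : Finset V} (hx : ∀ v ∈ B, 0 ≤ x v) (j : ℕ) : 0 ≤ P G j B x :=
  sum_nonneg fun _ hK => prod_nonneg fun v hv => hx v ((mem_cl.1 hK).1 hv)

theorem P_congr {x y : V → ℝ} {B : Finset V} (h : ∀ v ∈ B, x v = y v) (j : ℕ) :
    P G j B x = P G j B y :=
  sum_congr rfl fun _ hK => prod_congr rfl fun v hv => h v ((mem_cl.1 hK).1 hv)

theorem P_mono {x : V → ℝ} {A B : Finset V} (h : A ⊆ B) (hx : ∀ v ∈ B, 0 ≤ x v) (j : ℕ) :
    P G j A x ≤ P G j B x :=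
  sum_le_sum_of_subset_of_nonneg (cl_mono h j) fun _ hK _ =>
    prod_nonneg fun v hv => hx v ((mem_cl.1 hK).1 hv)

variable [DecidableEq V]

theorem insert_mem_cl {j : ℕ} {B K : Finset V} {v : V} (hv : v ∈ B) (hK : K ∈ cl G j (nb G B v)) :
    insert v K ∈ cl G (j + 1) B := by
  obtain ⟨h1, h2, h3⟩ := mem_cl.1 hK
  have hvK : v ∉ K := fun h => not_mem_nb_self B v (h1 h)
  refine mem_cl.2 ⟨insert_subset hv (h1.trans (nb_subset _ _)), by rw [card_insert_of_notMem hvK, h2],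
    ?_⟩
  rw [coe_insert]
  exact h3.insert fun u hu _ => (mem_nb.1 (h1 hu)).2

theorem erase_mem_cl {j : ℕ} {B K : Finset V} {v : V} (hv : v ∈ K) (hK : K ∈ cl G (j + 1) B) :
    K.erase v ∈ cl G j (nb G B v) := by
  obtain ⟨h1, h2, h3⟩ := mem_cl.1 hK
  refine mem_cl.2 ⟨fun u hu => mem_nb.2 ⟨h1 (mem_of_mem_erase hu), ?_⟩, by
    rw [card_erase_of_mem hv, h2]; rfl, h3.subset (by simp)⟩
  exact h3 hv (mem_of_mem_erase hu) (ne_of_mem_erase hu).symm

/-- the cliques through `v` -/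
theorem sum_cl_mem {j : ℕ} {B : Finset V} {v : V} (hv : v ∈ B) (f : Finset V → ℝ) :
    ∑ K ∈ (cl G (j + 1) B).filter (fun K => v ∈ K), f K =
      ∑ K ∈ cl G j (nb G B v), f (insert v K) := by
  symm
  refine sum_bij' (fun K _ => insert v K) (fun K _ => K.erase v) ?_ ?_ ?_ ?_ ?_
  · intro K hK
    exact mem_filter.2 ⟨insert_mem_cl hv hK, mem_insert_self _ _⟩
  · intro K hK
    exact erase_mem_cl (mem_filter.1 hK).2 (mem_filter.1 hK).1
  · intro K hK
    exact erase_insert fun h => not_mem_nb_self B v ((mem_cl.1 hK).1 h)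
  · intro K hK
    exact insert_erase (mem_filter.1 hK).2
  · intro K _
    rfl

theorem sum_prod_mem {j : ℕ} {B : Finset V} {v : V} (hv : v ∈ B) (x : V → ℝ) :
    ∑ K ∈ (cl G (j + 1) B).filter (fun K => v ∈ K), ∏ u ∈ K, x u =
      x v * P G j (nb G B v) x := by
  rw [sum_cl_mem hv, P, mul_sum]
  refine sum_congr rfl fun K hK => ?_
  rw [prod_insert fun h => not_mem_nb_self B v ((mem_cl.1 hK).1 h)]

theorem nb_insert_self {B : Finset V} {v : V} : nb G (insert v B) v = nb G B v := by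
  ext u
  simp only [mem_nb, mem_insert]
  constructor
  · rintro ⟨rfl | h, h2⟩
    · exact absurd rfl h2.ne
    · exact ⟨h, h2⟩
  · exact fun h => ⟨Or.inr h.1, h.2⟩

theorem P_insert {j : ℕ} {B : Finset V} {v : V} (hv : v ∉ B) (x : V → ℝ) :
    P G (j + 1) (insert v B) x = P G (j + 1) B x + x v * P G j (nb G B v) x := by
  have h1 := sum_prod_mem (G := G) (j := j) (mem_insert_self v B) x
  rw [nb_insert_self] at h1
  rw [← h1, P, ← sum_filter_add_sum_filter_not (cl G (j + 1) (insert v B)) (fun K => v ∈ K),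
    add_comm]
  congr 1
  rw [P]
  refine sum_congr ?_ fun _ _ => rfl
  ext K
  simp only [mem_filter, mem_cl]
  constructor
  · rintro ⟨⟨h1, h2, h3⟩, h4⟩
    exact ⟨(subset_insert_iff_of_notMem h4).1 h1, h2, h3⟩
  · rintro ⟨h1, h2, h3⟩
    exact ⟨⟨h1.trans (subset_insert _ _), h2, h3⟩, fun h => hv (h1 h)⟩

theorem P_succ (j : ℕ) (B : Finset V) (x : V → ℝ) :
    ((j : ℝ) + 1) * P G (j + 1) B x = ∑ b ∈ B, x b * P G j (nb G B b) x := by
  rw [← sum_congr rfl fun b hb => sum_prod_mem (G := G) (j := j) hb x]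
  simp only [sum_filter]
  rw [sum_comm, P, mul_sum]
  refine sum_congr rfl fun K hK => ?_
  obtain ⟨h1, h2, -⟩ := mem_cl.1 hK
  rw [← sum_filter, sum_const, filter_mem_eq_inter, inter_eq_right.2 h1, h2]
  simp

theorem P_one (B : Finset V) (x : V → ℝ) : P G 1 B x = ∑ b ∈ B, x b := by
  have := P_succ (G := G) 0 B x
  simpa using this

theorem P_upper {x : V → ℝ} (j : ℕ) : ∀ B : Finset V, (∀ v ∈ B, 0 ≤ x v) →
    (j.factorial : ℝ) * P G j B x ≤ (∑ b ∈ B, x b) ^ j := by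
  induction j with
  | zero => intro B _; simp
  | succ j ih =>
    intro B hx
    have h0 : 0 ≤ ∑ b ∈ B, x b := sum_nonneg hx
    rw [Nat.factorial_succ, Nat.cast_mul, Nat.cast_succ, mul_right_comm, P_succ, sum_mul, pow_succ,
      mul_sum]
    refine sum_le_sum fun b hb => ?_
    have h1 := ih (nb G B b) fun v hv => hx v (nb_subset _ _ hv)
    have h2 : ∑ u ∈ nb G B b, x u ≤ ∑ u ∈ B, x u :=
      sum_le_sum_of_subset_of_nonneg (nb_subset _ _) fun v hv _ => hx v hv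
    have h3 : (∑ u ∈ nb G B b, x u) ^ j ≤ (∑ u ∈ B, x u) ^ j :=
      pow_le_pow_left₀ (sum_nonneg fun v hv => hx v (nb_subset _ _ hv)) h2 j
    have := mul_le_mul_of_nonneg_left (h1.trans h3) (hx b hb)
    linarith

/-- every vertex of `B` has non-neighbour weight (itself included) at most `a` -/
def Nd (G : SimpleGraph V) (B : Finset V) (x : V → ℝ) (a : ℝ) : Prop :=
  ∀ b ∈ B, ∑ u ∈ B \ nb G B b, x u ≤ a

theorem sum_nb_add (B : Finset V) (x : V → ℝ) (b : V) :
    ∑ u ∈ B \ nb G B b, x u + ∑ u ∈ nb G B b, x u = ∑ u ∈ B, x u :=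
  sum_sdiff (nb_subset _ _)

theorem sdiff_nb_mono {A B : Finset V} (h : A ⊆ B) (b : V) : A \ nb G A b ⊆ B \ nb G B b := by
  intro u hu
  simp only [mem_sdiff, mem_nb, not_and] at hu ⊢
  exact ⟨h hu.1, fun _ => hu.2 hu.1⟩

theorem Nd.mono {A B : Finset V} {x : V → ℝ} {a : ℝ} (h : Nd G B x a) (hA : A ⊆ B)
    (hx : ∀ v ∈ B, 0 ≤ x v) : Nd G A x a := fun b hb =>
  (sum_le_sum_of_subset_of_nonneg (sdiff_nb_mono hA b) fun v hv _ =>
    hx v (mem_sdiff.1 hv).1).trans (h b (hA hb))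

theorem P_lower {x : V → ℝ} {a : ℝ} (ha : 0 ≤ a) (j : ℕ) : ∀ B : Finset V, (∀ v ∈ B, 0 ≤ x v) →
    Nd G B x a → j * a ≤ ∑ b ∈ B, x b →
    (∑ b ∈ B, x b - j * a) ^ j ≤ (j.factorial : ℝ) * P G j B x := by
  induction j with
  | zero => intro B _ _ _; simp
  | succ j ih =>
    intro B hx hN hs
    push_cast at hs ⊢
    have h0 : 0 ≤ ∑ b ∈ B, x b - (j + 1) * a := by linarith
    have hj : (0 : ℝ) ≤ (j + 1) * a := by positivity
    rw [Nat.factorial_succ, Nat.cast_mul, Nat.cast_succ, mul_right_comm, P_succ, sum_mul, pow_succ]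
    refine (mul_le_mul_of_nonneg_left (show _ ≤ ∑ b ∈ B, x b by linarith)
      (pow_nonneg h0 j)).trans ?_
    rw [mul_sum]
    refine sum_le_sum fun b hb => ?_
    have h1 := sum_nb_add (G := G) B x b
    have h2 := hN b hb
    have h3 := ih (nb G B b) (fun v hv => hx v (nb_subset _ _ hv)) (hN.mono (nb_subset _ _) hx)
      (by linarith)
    have h4 : (∑ b ∈ B, x b - (j + 1) * a) ^ j ≤ (∑ u ∈ nb G B b, x u - j * a) ^ j :=
      pow_le_pow_left₀ h0 (by linarith) j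
    have := mul_le_mul_of_nonneg_left (h4.trans h3) (hx b hb)
    linarith

end Pool.Agent.GLT
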