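import Pool.Agent.P.MP_dfe42f_co.GlA

/-! Weighted symmetrisation with an edge penalty. -/

namespace Pool.Agent.GLT
open Finset

variable {V : Type} [DecidableEq V] {G : SimpleGraph V}

/-- cliques of size `j+2` minus `β` times edges -/
noncomputable def Fp (G : SimpleGraph V) (j : ℕ) (β : ℝ) (B : Finset V) (x : V → ℝ) : ℝ :=
  P G (j + 2) B x - β * P G 2 B x

/-- the derivative of `Fp` at `u` -/
noncomputable def mu (G : SimpleGraph V) (j : ℕ) (β : ℝ) (B : Finset V) (x : V → ℝ) (u : V) : ℝ :=
  P G (j + 1) (nb G B u) x - β * ∑ b ∈ nb G B u, x b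

theorem Fp_insert {j : ℕ} {β : ℝ} {B : Finset V} {v : V} (hv : v ∉ B) (x : V → ℝ) :
    Fp G j β (insert v B) x = Fp G j β B x + x v * mu G j β B x v := by
  unfold Fp mu
  rw [P_insert (j := j + 1) hv, P_insert (j := 1) hv, P_one]
  ring

theorem sum_nb_ge {A B : Finset V} {x : V → ℝ} {a : ℝ} (hN : Nd G B x a) (hA : A ⊆ B)
    (hx : ∀ v ∈ B, 0 ≤ x v) {b : V} (hb : b ∈ B) :
    ∑ u ∈ A, x u - a ≤ ∑ u ∈ nb G A b, x u := by
  have h1 := sum_nb_add (G := G) A x b
  have h2 : ∑ u ∈ A \ nb G A b, x u ≤ ∑ u ∈ B \ nb G B b, x u :=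
    sum_le_sum_of_subset_of_nonneg (sdiff_nb_mono hA b) fun v hv _ => hx v (mem_sdiff.1 hv).1
  have := hN b hb
  linarith

/-- the penalty is below every sum of `j`-cliques that can occur -/
def Hb (G : SimpleGraph V) (j : ℕ) (β a s : ℝ) : Prop :=
  ∀ (A : Finset V) (y : V → ℝ), (∀ v ∈ A, 0 ≤ y v) → Nd G A y a → s - 3 * a ≤ ∑ v ∈ A, y v →
    β ≤ P G j A y

theorem mu_mono {j : ℕ} {β a s : ℝ} (H : Hb G j β a s) {A B : Finset V} {x : V → ℝ}
    (hN : Nd G B x a) (hx : ∀ v ∈ B, 0 ≤ x v) (hA : A ⊆ B) (hs : s - a ≤ ∑ v ∈ A, x v) {u : V}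
    (hu : u ∈ B) : mu G j β A x u ≤ mu G j β B x u := by
  have key : ∀ E : Finset V, E ⊆ B → mu G j β A x u ≤ mu G j β (A ∪ E) x u := by
    intro E
    induction E using Finset.induction_on with
    | empty => intro _; simp
    | insert z E hz ih =>
      intro hE
      have hEB : E ⊆ B := (subset_insert _ _).trans hE
      have hzB : z ∈ B := hE (mem_insert_self _ _)
      refine (ih hEB).trans ?_
      rw [union_insert]
      set A' := A ∪ E with hA'
      have hA'B : A' ⊆ B := union_subset hA hEB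
      by_cases hzA : z ∈ A'
      · rw [insert_eq_of_mem hzA]
      by_cases hadj : G.Adj u z
      · have e : nb G (insert z A') u = insert z (nb G A' u) := by
          ext w
          simp only [mem_nb, mem_insert]
          constructor
          · rintro ⟨rfl | h, h2⟩
            · exact Or.inl rfl
            · exact Or.inr ⟨h, h2⟩
          · rintro (rfl | h)
            · exact ⟨Or.inl rfl, hadj⟩
            · exact ⟨Or.inr h.1, h.2⟩
        have hz' : z ∉ nb G A' u := fun h => hzA (nb_subset _ _ h)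
        unfold mu
        rw [e, P_insert hz', sum_insert hz']
        have s1 : nb G A' u ⊆ B := (nb_subset _ _).trans hA'B
        have s2 : nb G (nb G A' u) z ⊆ B := (nb_subset _ _).trans s1
        have h1 := sum_nb_ge hN hA'B hx hu
        have h2 := sum_nb_ge hN s1 hx hzB
        have h3 : ∑ v ∈ A, x v ≤ ∑ v ∈ A', x v :=
          sum_le_sum_of_subset_of_nonneg subset_union_left fun v hv _ => hx v (hA'B hv)
        have h4 := H _ x (fun v hv => hx v (s2 hv)) (hN.mono s2 hx) (by linarith)
        have := mul_le_mul_of_nonneg_left h4 (hx z hzB)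
        linarith
      · have e : nb G (insert z A') u = nb G A' u := by
          ext w
          simp only [mem_nb, mem_insert]
          constructor
          · rintro ⟨rfl | h, h2⟩
            · exact absurd h2 hadj
            · exact ⟨h, h2⟩
          · exact fun h => ⟨Or.inr h.1, h.2⟩
        unfold mu
        rw [e]
  have := key B Subset.rfl
  rwa [union_eq_right.2 hA] at this

theorem Fp_remove {j : ℕ} {β a s : ℝ} (H : Hb G j β a s) {B B0 : Finset V} {x : V → ℝ}
    (hN : Nd G B x a) (hx : ∀ v ∈ B, 0 ≤ x v) (h0 : B0 ⊆ B) (hs : s - a ≤ ∑ v ∈ B0, x v) {M : ℝ}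
    (hM : ∀ u ∈ B \ B0, mu G j β B x u ≤ M) :
    Fp G j β B x ≤ Fp G j β B0 x + (∑ v ∈ B \ B0, x v) * M := by
  have key : ∀ E : Finset V, E ⊆ B \ B0 →
      Fp G j β (B0 ∪ E) x ≤ Fp G j β B0 x + (∑ v ∈ E, x v) * M := by
    intro E
    induction E using Finset.induction_on with
    | empty => intro _; simp
    | insert z E hz ih =>
      intro hE
      have hEB : E ⊆ B \ B0 := (subset_insert _ _).trans hE
      have hzB := hE (mem_insert_self _ _)
      have hz' : z ∉ B0 ∪ E := by
        rw [mem_union, not_or]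
        exact ⟨(mem_sdiff.1 hzB).2, hz⟩
      have hsub : B0 ∪ E ⊆ B := union_subset h0 (hEB.trans sdiff_subset)
      have h3 : ∑ v ∈ B0, x v ≤ ∑ v ∈ B0 ∪ E, x v :=
        sum_le_sum_of_subset_of_nonneg subset_union_left fun v hv _ => hx v (hsub hv)
      have h4 := mu_mono H hN hx hsub (by linarith) (mem_sdiff.1 hzB).1
      have h5 := mul_le_mul_of_nonneg_left (h4.trans (hM z hzB)) (hx z (mem_sdiff.1 hzB).1)
      rw [union_insert, Fp_insert hz', sum_insert hz]
      have := ih hEB
      linarith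
  have := key _ Subset.rfl
  rwa [union_sdiff_of_subset h0] at this

theorem sym {j : ℕ} {β a s : ℝ} (H : Hb G j β a s) (S : AddSubmonoid ℝ) (n : ℕ) :
    ∀ (B : Finset V) (x : V → ℝ), B.card ≤ n → (∀ v ∈ B, 0 ≤ x v) → (∀ v ∈ B, x v ∈ S) →
      Nd G B x a → ∑ v ∈ B, x v = s →
      ∃ (B' : Finset V) (y : V → ℝ), B' ⊆ B ∧ G.IsClique (B' : Set V) ∧
        (∀ v ∈ B', 0 ≤ y v ∧ y v ≤ a ∧ y v ∈ S) ∧ ∑ v ∈ B', y v = s ∧
        Fp G j β B x ≤ Fp G j β B' y := by
  classical
  induction n with
  | zero =>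
    intro B x hB _ _ _ hs
    obtain rfl : B = ∅ := card_eq_zero.1 (Nat.le_zero.1 hB)
    exact ⟨∅, x, Subset.rfl, by simp, by simp, hs, le_rfl⟩
  | succ n ih =>
    intro B x hB hx hS hN hs
    set U := B.filter (fun b => ∃ u ∈ B, u ≠ b ∧ ¬ G.Adj b u) with hU
    rcases U.eq_empty_or_nonempty with hUe | hUe
    · refine ⟨B, x, Subset.rfl, ?_, fun v hv => ⟨hx v hv, ?_, hS v hv⟩, hs, le_rfl⟩
      · intro p hp q hq hpq
        by_contra hn
        have : p ∈ U := mem_filter.2 ⟨hp, q, hq, hpq.symm, hn⟩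
        rw [hUe] at this
        simp at this
      · refine le_trans ?_ (hN v hv)
        exact single_le_sum (f := x) (fun u hu => hx u (mem_sdiff.1 hu).1)
          (mem_sdiff.2 ⟨hv, not_mem_nb_self _ _⟩)
    obtain ⟨v, hvU, hmax⟩ := exists_max_image U (mu G j β B x) hUe
    obtain ⟨hvB, u0, hu0, hu0v, hu0n⟩ := mem_filter.1 hvU
    set B0 := nb G B v with hB0
    have hv0 : v ∉ B0 := not_mem_nb_self _ _
    have h0 : B0 ⊆ B := nb_subset _ _
    set c := ∑ u ∈ B \ B0, x u with hc
    have hca : c ≤ a := hN v hvB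
    have hc0 : 0 ≤ c := sum_nonneg fun u hu => hx u (mem_sdiff.1 hu).1
    have hsum : c + ∑ u ∈ B0, x u = s := by rw [← hs]; exact sum_nb_add B x v
    set y := Function.update x v c with hy
    have hyv : y v = c := by simp [hy]
    have hy0 : ∀ u ∈ B0, y u = x u := fun u hu =>
      Function.update_of_ne (fun h : u = v => hv0 (h ▸ hu)) _ _
    have hsub : insert v B0 ⊆ B := insert_subset hvB h0
    have hcard : (insert v B0).card ≤ n := by
      have : (insert v B0).card < B.card := by
        refine card_lt_card ⟨hsub, fun h => ?_⟩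
        rcases mem_insert.1 (h hu0) with h | h
        · exact hu0v h
        · exact hu0n (mem_nb.1 h).2
      omega
    have hM : ∀ u ∈ B \ B0, mu G j β B x u ≤ mu G j β B x v := by
      intro u hu
      by_cases huv : u = v
      · rw [huv]
      refine hmax u (mem_filter.2 ⟨(mem_sdiff.1 hu).1, v, hvB, fun h => huv h.symm, fun h => ?_⟩)
      exact (mem_sdiff.1 hu).2 (mem_nb.2 ⟨(mem_sdiff.1 hu).1, h.symm⟩)
    have hrem := Fp_remove H hN hx h0 (by linarith) hM
    have hnn : nb G B0 v = B0 := by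
      ext w
      simp only [hB0, mem_nb]
      tauto
    have hF : Fp G j β (insert v B0) y = Fp G j β B0 x + c * mu G j β B x v := by
      rw [Fp_insert hv0, hyv]
      unfold Fp mu
      rw [hnn, P_congr hy0, P_congr hy0, P_congr hy0, sum_congr rfl hy0]
    refine (ih (insert v B0) y hcard ?_ ?_ ?_ ?_).elim fun B' hh => ?_
    rotate_right
    · obtain ⟨z, h1, h2, h3, h4, h5⟩ := hh
      exact ⟨B', z, h1.trans hsub, h2, h3, h4, by linarith⟩
    · intro u hu
      rcases mem_insert.1 hu with rfl | hu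
      · rwa [hyv]
      · rw [hy0 u hu]; exact hx u (h0 hu)
    · intro u hu
      rcases mem_insert.1 hu with rfl | hu
      · rw [hyv]; exact S.sum_mem fun w hw => hS w (mem_sdiff.1 hw).1
      · rw [hy0 u hu]; exact hS u (h0 hu)
    · intro u hu
      rcases mem_insert.1 hu with rfl | hu
      · have : insert u B0 \ nb G (insert u B0) u = {u} := by
          rw [nb_insert_self, hnn]
          ext w
          simp only [mem_sdiff, mem_insert, mem_singleton]
          constructor
          · rintro ⟨h | h, h2⟩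
            · exact h
            · exact absurd h h2
          · rintro rfl
            exact ⟨Or.inl rfl, hv0⟩
        rw [this, sum_singleton, hyv]
        exact hca
      · have hsb : insert v B0 \ nb G (insert v B0) u ⊆ B0 := by
          intro w hw
          obtain ⟨hw1, hw2⟩ := mem_sdiff.1 hw
          rcases mem_insert.1 hw1 with rfl | h
          · exact absurd (mem_nb.2 ⟨hw1, (mem_nb.1 hu).2.symm⟩) hw2
          · exact h
        rw [sum_congr rfl fun w hw => hy0 w (hsb hw)]
        refine le_trans ?_ (hN u (h0 hu))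
        exact sum_le_sum_of_subset_of_nonneg (sdiff_nb_mono hsub u) fun w hw _ =>
          hx w (mem_sdiff.1 hw).1
    · rw [sum_insert hv0, hyv, sum_congr rfl hy0, hsum]

end Pool.Agent.GLT
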