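import Pool.Agent.P.MP_dfe42f_co.GlB

/-! Complete multipartite graphs, smoothing, weighted Zykov bound with a penalty. -/

namespace Pool.Agent.GLT
open Finset

variable {V ι : Type} [DecidableEq V] [DecidableEq ι] {G : SimpleGraph V}

theorem nb_top (I : Finset ι) (i : ι) : nb ⊤ I i = I.erase i := by
  ext u
  simp only [mem_nb, SimpleGraph.top_adj, mem_erase]
  tauto

/-- total weight of a colour class -/
def fib (c : V → ι) (B : Finset V) (x : V → ℝ) (i : ι) : ℝ := ∑ b ∈ B.filter (fun b => c b = i), x b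

theorem P_blow (c : V → ι) (x : V → ℝ) (j : ℕ) : ∀ (B : Finset V) (I : Finset ι),
    (∀ b ∈ B, c b ∈ I) → P (SimpleGraph.comap c ⊤) j B x = P ⊤ j I (fib c B x) := by
  induction j with
  | zero => intro B I _; simp
  | succ j ih =>
    intro B I hI
    have hj : ((j : ℝ) + 1) ≠ 0 := by positivity
    apply mul_left_cancel₀ hj
    rw [P_succ, P_succ, ← sum_fiberwise_of_maps_to hI]
    refine sum_congr rfl fun i _ => ?_
    rw [fib, sum_mul]
    refine sum_congr rfl fun b hb => ?_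
    obtain ⟨-, rfl⟩ := mem_filter.1 hb
    rw [nb_top, ih _ (I.erase (c b))]
    · congr 1
      refine P_congr (fun k hk => ?_) j
      unfold fib
      refine sum_congr ?_ fun _ _ => rfl
      ext u
      simp only [mem_filter, mem_nb, SimpleGraph.comap_adj, SimpleGraph.top_adj]
      constructor
      · exact fun h => ⟨h.1.1, h.2⟩
      · rintro ⟨h1, rfl⟩
        exact ⟨⟨h1, (ne_of_mem_erase hk).symm⟩, rfl⟩
    · intro u hu
      have := mem_nb.1 hu
      simp only [SimpleGraph.comap_adj, SimpleGraph.top_adj] at this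
      exact mem_erase.2 ⟨this.2.symm, hI u this.1⟩

omit [DecidableEq V] in
theorem cl_of_clique {B : Finset V} (h : G.IsClique (B : Set V)) (j : ℕ) :
    cl G j B = B.powersetCard j := by
  ext K
  rw [mem_cl, mem_powersetCard]
  exact ⟨fun h => ⟨h.1, h.2.1⟩, fun h' => ⟨h'.1, h'.2, h.subset (coe_subset.2 h'.1)⟩⟩

omit [DecidableEq ι] in
theorem top_clique (I : Finset ι) : (⊤ : SimpleGraph ι).IsClique (I : Set ι) :=
  fun _ _ _ _ h => h

omit [DecidableEq ι] in
theorem P_top_const (I : Finset ι) (c : ℝ) (j : ℕ) :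
    P ⊤ j I (fun _ => c) = (I.card.choose j : ℝ) * c ^ j := by
  rw [P, cl_of_clique (top_clique I),
    sum_congr rfl (g := fun _ => c ^ j) fun K hK => by
      rw [prod_const, (mem_powersetCard.1 hK).2]]
  simp

theorem P_top_erase {I : Finset ι} {p : ι} (hp : p ∈ I) (y : ι → ℝ) (j : ℕ) :
    P ⊤ (j + 1) I y = P ⊤ (j + 1) (I.erase p) y + y p * P ⊤ j (I.erase p) y := by
  have := P_insert (G := ⊤) (j := j) (notMem_erase p I) y
  rwa [insert_erase hp, nb_top, erase_idem] at this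

theorem P_top_two {I : Finset ι} {p q : ι} (hp : p ∈ I) (hq : q ∈ I.erase p) (y : ι → ℝ) (j : ℕ) :
    P ⊤ (j + 2) I y = P ⊤ (j + 2) ((I.erase p).erase q) y +
      (y p + y q) * P ⊤ (j + 1) ((I.erase p).erase q) y +
      y p * y q * P ⊤ j ((I.erase p).erase q) y := by
  rw [P_top_erase hp y (j + 1), P_top_erase hq y (j + 1), P_top_erase hq y j]
  ring

theorem two_var {I : Finset ι} {p q : ι} (hp : p ∈ I) (hq : q ∈ I.erase p) {y z : ι → ℝ} {j : ℕ}
    {β : ℝ} (h1 : ∀ i ∈ (I.erase p).erase q, z i = y i) (h2 : z p + z q = y p + y q)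
    (h3 : y p * y q ≤ z p * z q) (h4 : β ≤ P ⊤ j ((I.erase p).erase q) y) :
    Fp ⊤ j β I y ≤ Fp ⊤ j β I z := by
  unfold Fp
  rw [P_top_two hp hq y j, P_top_two hp hq z j, P_top_two hp hq y 0, P_top_two hp hq z 0,
    P_congr h1, P_congr h1, P_congr h1, P_congr h1, P_congr h1, h2, P_zero, P_zero]
  nlinarith [mul_le_mul_of_nonneg_right h3 (sub_nonneg.2 h4)]

theorem sum_two {I : Finset ι} {p q : ι} (hp : p ∈ I) (hq : q ∈ I.erase p) (y : ι → ℝ) :
    ∑ i ∈ I, y i = y p + y q + ∑ i ∈ (I.erase p).erase q, y i := by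
  rw [← add_sum_erase _ _ hp, ← add_sum_erase _ _ hq, add_assoc]

theorem Nd_top {I : Finset ι} {y : ι → ℝ} {a : ℝ} (h : ∀ i ∈ I, y i ≤ a) : Nd ⊤ I y a := by
  intro b hb
  rw [nb_top, sdiff_erase hb, sdiff_self]
  simpa using h b hb

theorem smooth {I : Finset ι} {j : ℕ} {β a s c : ℝ} (H : Hb (⊤ : SimpleGraph ι) j β a s)
    (hc : s = I.card * c) (n : ℕ) : ∀ y : ι → ℝ, (I.filter fun i => y i ≠ c).card ≤ n →
    (∀ i ∈ I, 0 ≤ y i ∧ y i ≤ a) → ∑ i ∈ I, y i = s → Fp ⊤ j β I y ≤ Fp ⊤ j β I (fun _ => c) := by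
  have hall : ∀ y : ι → ℝ, (∀ i ∈ I, y i = c) → Fp ⊤ j β I y ≤ Fp ⊤ j β I (fun _ => c) := by
    intro y hy
    unfold Fp
    rw [P_congr hy, P_congr hy]
  induction n with
  | zero =>
    intro y h0 _ _
    refine hall y fun i hi => ?_
    by_contra hn
    have : i ∈ I.filter fun i => y i ≠ c := mem_filter.2 ⟨hi, hn⟩
    rw [card_eq_zero.1 (Nat.le_zero.1 h0)] at this
    simp at this
  | succ n ih =>
    intro y hn hy hs
    by_cases h : ∀ i ∈ I, y i = c
    · exact hall y h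
    push Not at h
    obtain ⟨i0, hi0, hne⟩ := h
    have hsc : ∑ i ∈ I, y i = ∑ _i ∈ I, c := by rw [hs, hc]; simp
    obtain ⟨p, hp, hpc⟩ : ∃ p ∈ I, y p < c := by
      by_contra hh
      push Not at hh
      exact hne ((sum_eq_sum_iff_of_le hh).1 hsc.symm i0 hi0).symm
    obtain ⟨q, hq, hqc⟩ : ∃ q ∈ I, c < y q := by
      by_contra hh
      push Not at hh
      exact hne ((sum_eq_sum_iff_of_le hh).1 hsc i0 hi0)
    have hqp : q ≠ p := by rintro rfl; linarith
    have hq' : q ∈ I.erase p := mem_erase.2 ⟨hqp, hq⟩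
    set z := Function.update (Function.update y q (y p + y q - c)) p c with hz
    have zp : z p = c := by simp [hz]
    have zq : z q = y p + y q - c := by simp [hz, Function.update_of_ne hqp]
    have zo : ∀ i ∈ (I.erase p).erase q, z i = y i := by
      intro i hi
      have h1 := ne_of_mem_erase hi
      have h2 := ne_of_mem_erase (mem_of_mem_erase hi)
      simp [hz, Function.update_of_ne h1, Function.update_of_ne h2]
    have hsub : (I.erase p).erase q ⊆ I := (erase_subset _ _).trans (erase_subset _ _)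
    have e1 := sum_two hp hq' y
    have e2 := sum_two hp hq' z
    have hyp := hy p hp
    have hyq := hy q hq
    refine (two_var hp hq' zo (by rw [zp, zq]; ring) (by rw [zp, zq]; nlinarith) ?_).trans
      (ih z ?_ ?_ ?_)
    · exact H _ y (fun i hi => (hy i (hsub hi)).1) (Nd_top fun i hi => (hy i (hsub hi)).2)
        (by linarith)
    · have : (I.filter fun i => z i ≠ c) ⊆ (I.filter fun i => y i ≠ c).erase p := by
        intro i hi
        obtain ⟨h1, h2⟩ := mem_filter.1 hi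
        have hip : i ≠ p := by rintro rfl; exact h2 zp
        refine mem_erase.2 ⟨hip, mem_filter.2 ⟨h1, ?_⟩⟩
        by_cases hiq : i = q
        · rw [hiq]; exact hqc.ne'
        · rwa [← zo i (mem_erase.2 ⟨hiq, mem_erase.2 ⟨hip, h1⟩⟩)]
      have h2 := card_le_card this
      rw [card_erase_of_mem (mem_filter.2 ⟨hp, hpc.ne⟩)] at h2
      omega
    · intro i hi
      by_cases hip : i = p
      · rw [hip, zp]; constructor <;> linarith
      by_cases hiq : i = q
      · rw [hiq, zq]; constructor <;> linarith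
      rw [zo i (mem_erase.2 ⟨hiq, mem_erase.2 ⟨hip, hi⟩⟩)]
      exact hy i hi
    · rw [e2, zp, zq, sum_congr rfl zo]
      linarith

/-- the admissible penalties -/
def Pen (j : ℕ) (β a s : ℝ) : Prop :=
  β = 0 ∨ (0 ≤ a ∧ (j + 3) * a ≤ s ∧ j.factorial * β ≤ (s - (j + 3) * a) ^ j)

theorem Pen.hb {j : ℕ} {β a s : ℝ} (h : Pen j β a s) (G : SimpleGraph V) : Hb G j β a s := by
  intro A y hy hN hs
  rcases h with rfl | ⟨ha, h1, h2⟩
  · exact P_nonneg hy j
  · have h3 := P_lower ha j A hy hN (by linarith)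
    have h4 : (s - (j + 3) * a) ^ j ≤ (∑ b ∈ A, y b - j * a) ^ j :=
      pow_le_pow_left₀ (by linarith) (by linarith) j
    have : (0 : ℝ) < j.factorial := by positivity
    exact le_of_mul_le_mul_left (h2.trans (h4.trans h3)) this

/-- symmetrise and pad by zeros -/
theorem to_top {j r : ℕ} {β a s : ℝ} (H : Pen j β a s) (S : AddSubmonoid ℝ) (ha : 0 ≤ a)
    {B : Finset V} {x : V → ℝ} (hr : ∀ K ⊆ B, G.IsClique (K : Set V) → K.card ≤ r) (hr0 : 0 < r)
    (hx : ∀ v ∈ B, 0 ≤ x v) (hS : ∀ v ∈ B, x v ∈ S) (hN : Nd G B x a) (hs : ∑ v ∈ B, x v = s) :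
    ∃ z : Fin r → ℝ, (∀ i, 0 ≤ z i ∧ z i ≤ a ∧ z i ∈ S) ∧ ∑ i, z i = s ∧
      Fp G j β B x ≤ Fp ⊤ j β univ z := by
  obtain ⟨B', y, h1, h2, h3, h4, h5⟩ := sym (H.hb G) S B.card B x le_rfl hx hS hN hs
  have : Nonempty (Fin r) := ⟨⟨0, hr0⟩⟩
  obtain ⟨c, -, hc⟩ := (B'.finite_toSet).exists_injOn_of_encard_le
    (t := ((univ : Finset (Fin r)) : Set (Fin r))) (by
      rw [Set.encard_coe_eq_coe_finsetCard, Set.encard_coe_eq_coe_finsetCard]
      simpa using hr B' h1 h2)
  have hcl : (SimpleGraph.comap c ⊤).IsClique (B' : Set V) := fun p hp q hq hpq h =>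
    hpq (hc hp hq h)
  have e : ∀ k, P G k B' y = P ⊤ k univ (fib c B' y) := fun k => by
    rw [← P_blow c y k B' univ fun _ _ => mem_univ _, P, P, cl_of_clique h2, cl_of_clique hcl]
  refine ⟨fib c B' y, fun i => ⟨?_, ?_, ?_⟩, ?_, ?_⟩
  · exact sum_nonneg fun b hb => (h3 b (mem_filter.1 hb).1).1
  · rcases (B'.filter fun b => c b = i).eq_empty_or_nonempty with h | ⟨b, hb⟩
    · rw [fib, h]; simpa using ha
    · have : (B'.filter fun b => c b = i) = {b} := by
        refine eq_singleton_iff_unique_mem.2 ⟨hb, fun u hu => ?_⟩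
        exact hc (mem_filter.1 hu).1 (mem_filter.1 hb).1
          ((mem_filter.1 hu).2.trans (mem_filter.1 hb).2.symm)
      rw [fib, this, sum_singleton]
      exact (h3 b (mem_filter.1 hb).1).2.1
  · exact S.sum_mem fun b hb => (h3 b (mem_filter.1 hb).1).2.2
  · rw [← h4]
    exact sum_fiberwise_of_maps_to (fun _ _ => mem_univ _) y
  · refine h5.trans (le_of_eq ?_)
    unfold Fp
    rw [e, e]

theorem zyk_pen {j r : ℕ} {β a s : ℝ} (H : Pen j β a s) (ha : 0 ≤ a)
    {B : Finset V} {x : V → ℝ} (hr : ∀ K ⊆ B, G.IsClique (K : Set V) → K.card ≤ r) (hr0 : 0 < r)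
    (hx : ∀ v ∈ B, 0 ≤ x v) (hN : Nd G B x a) (hs : ∑ v ∈ B, x v = s) :
    P G (j + 2) B x - β * P G 2 B x ≤
      r.choose (j + 2) * (s / r) ^ (j + 2) - β * (r.choose 2 * (s / r) ^ 2) := by
  obtain ⟨z, h1, h2, h3⟩ := to_top H ⊤ ha hr hr0 hx (fun _ _ => AddSubmonoid.mem_top _) hN hs
  have hr' : (r : ℝ) ≠ 0 := by positivity
  have h4 := smooth (I := (univ : Finset (Fin r))) (c := s / r) (H.hb ⊤)
    (by simp only [card_univ, Fintype.card_fin]; field_simp) _ z le_rfl
    (fun i _ => ⟨(h1 i).1, (h1 i).2.1⟩) h2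
  have := h3.trans h4
  unfold Fp at this
  rw [P_top_const, P_top_const] at this
  simpa using this

theorem Nd_total {B : Finset V} {x : V → ℝ} (hx : ∀ v ∈ B, 0 ≤ x v) : Nd G B x (∑ v ∈ B, x v) :=
  fun _ _ => sum_le_sum_of_subset_of_nonneg sdiff_subset fun v hv _ => hx v hv

theorem zyk {j r : ℕ} {B : Finset V} {x : V → ℝ}
    (hr : ∀ K ⊆ B, G.IsClique (K : Set V) → K.card ≤ r) (hr0 : 0 < r) (hx : ∀ v ∈ B, 0 ≤ x v) :
    P G (j + 2) B x ≤ r.choose (j + 2) * ((∑ v ∈ B, x v) / r) ^ (j + 2) := by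
  have := zyk_pen (j := j) (β := 0) (Or.inl rfl) (sum_nonneg hx) hr hr0 hx (Nd_total hx) rfl
  simpa using this

end Pool.Agent.GLT
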