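import Pool.Agent.P.MP_dfe42f_co.GlC

/-! Clique counts of Turán graphs and the exact Zykov bound. -/

namespace Pool.Agent.GLT
open Finset

variable {V : Type} [DecidableEq V] {G : SimpleGraph V}

/-- part sizes of the Turán graph -/
def ps (w n : ℕ) (i : Fin w) : ℕ := n / w + if i.val < n % w then 1 else 0

/-- number of `t`-cliques of the Turán graph -/
noncomputable def tc (w t n : ℕ) : ℕ := (cl (SimpleGraph.turanGraph n w) t univ).card

theorem fib_mod {w : ℕ} (hw : 0 < w) (n : ℕ) (i : Fin w) :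
    fib (fun v : Fin n => (⟨v.val % w, Nat.mod_lt _ hw⟩ : Fin w)) univ (fun _ => 1) i =
      (ps w n i : ℝ) := by
  have h := Nat.count_modEq_card n hw i.val
  rw [Nat.mod_eq_of_lt i.2, Nat.count_eq_card_filter_range] at h
  rw [fib, sum_const, nsmul_eq_mul, mul_one, ps, ← h]
  congr 1
  refine card_bij (fun v _ => v.val) ?_ ?_ ?_
  · intro v hv
    have := congrArg Fin.val (mem_filter.1 hv).2
    refine mem_filter.2 ⟨mem_range.2 v.2, ?_⟩
    simp only at this
    rw [Nat.ModEq, this, Nat.mod_eq_of_lt i.2]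
  · intro a _ b _ h
    exact Fin.ext h
  · intro b hb
    obtain ⟨h1, h2⟩ := mem_filter.1 hb
    refine ⟨⟨b, mem_range.1 h1⟩, mem_filter.2 ⟨mem_univ _, Fin.ext ?_⟩, rfl⟩
    rw [Nat.ModEq, Nat.mod_eq_of_lt i.2] at h2
    exact h2

theorem tc_eq {w : ℕ} (hw : 0 < w) (t n : ℕ) :
    (tc w t n : ℝ) = P ⊤ t univ (fun i : Fin w => (ps w n i : ℝ)) := by
  have e : SimpleGraph.turanGraph n w = SimpleGraph.comap
      (fun v : Fin n => (⟨v.val % w, Nat.mod_lt _ hw⟩ : Fin w)) ⊤ := by
    ext u v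
    simp [SimpleGraph.turanGraph_adj, Fin.ext_iff]
  rw [tc, ← P_card, e, P_blow _ _ t univ univ fun _ _ => mem_univ _]
  exact P_congr (fun i _ => fib_mod hw n i) t

theorem sum_ps {w : ℕ} (hw : 0 < w) (n : ℕ) : ∑ i, ps w n i = n := by
  have h := sum_fiberwise_of_maps_to (s := (univ : Finset (Fin n))) (t := univ)
    (g := fun v : Fin n => (⟨v.val % w, Nat.mod_lt _ hw⟩ : Fin w)) (fun _ _ => mem_univ _)
    (fun _ => (1 : ℝ))
  have h2 : ∑ i, (ps w n i : ℝ) = n := by
    rw [← sum_congr rfl fun i _ => fib_mod hw n i]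
    simpa [fib] using h
  exact_mod_cast h2

theorem P_two_val {w : ℕ} (S : Finset (Fin w)) (a b : ℝ) (y : Fin w → ℝ) (h1 : ∀ i ∈ S, y i = a)
    (h2 : ∀ i ∉ S, y i = b) (t : ℕ) : P ⊤ t univ y =
      (Multiset.replicate S.card a + Multiset.replicate (w - S.card) b).esymm t := by
  rw [P, cl_of_clique (top_clique _), ← esymm_map_val]
  congr 1
  have e : (univ : Finset (Fin w)).val = S.val + (Sᶜ).val := by
    rw [← disjUnion_val S Sᶜ disjoint_compl_right]
    congr 1
    ext i
    simp [em]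
  rw [e, Multiset.map_add]
  congr 1
  · rw [Multiset.eq_replicate]
    refine ⟨by simp, fun x hx => ?_⟩
    obtain ⟨i, hi, rfl⟩ := Multiset.mem_map.1 hx
    exact h1 i hi
  · rw [Multiset.eq_replicate]
    refine ⟨by simp [card_compl], fun x hx => ?_⟩
    obtain ⟨i, hi, rfl⟩ := Multiset.mem_map.1 hx
    exact h2 i (mem_compl.1 hi)

theorem bal_val {w : ℕ} (hw : 0 < w) (z : Fin w → ℕ) (hz : ∀ i j, z i ≤ z j + 1) (t : ℕ) :
    P ⊤ t univ (fun i => (z i : ℝ)) =
      (Multiset.replicate ((∑ i, z i) % w) ((((∑ i, z i) / w : ℕ) : ℝ) + 1) +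
        Multiset.replicate (w - (∑ i, z i) % w) (((∑ i, z i) / w : ℕ) : ℝ)).esymm t := by
  have : Nonempty (Fin w) := ⟨⟨0, hw⟩⟩
  obtain ⟨k, -, hk⟩ := exists_min_image univ z univ_nonempty
  set S := univ.filter fun i => z i = z k + 1 with hS
  have h1 : ∀ i ∈ S, z i = z k + 1 := fun i hi => (mem_filter.1 hi).2
  have h2 : ∀ i ∉ S, z i = z k := by
    intro i hi
    have := hk i (mem_univ _)
    have := hz i k
    have : z i ≠ z k + 1 := fun h => hi (mem_filter.2 ⟨mem_univ _, h⟩)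
    omega
  have hlt : S.card < w := by
    have : S.card < (univ : Finset (Fin w)).card :=
      card_lt_card ⟨subset_univ _, fun h => by have := h1 k (h (mem_univ k)); omega⟩
    simpa using this
  have hsum : ∑ i, z i = S.card + w * z k := by
    have : ∀ i, z i = (if i ∈ S then 1 else 0) + z k := by
      intro i
      split_ifs with h
      · rw [h1 i h, add_comm]
      · rw [h2 i h, zero_add]
    rw [sum_congr rfl fun i _ => this i, sum_add_distrib]
    simp
  rw [hsum, Nat.add_mul_mod_self_left, Nat.add_mul_div_left _ _ hw, Nat.mod_eq_of_lt hlt,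
    Nat.div_eq_of_lt hlt, zero_add]
  exact P_two_val S _ _ _ (fun i hi => by rw [h1 i hi]; simp) (fun i hi => by rw [h2 i hi]) t

theorem bal_eq {w : ℕ} (hw : 0 < w) (z : Fin w → ℕ) (hz : ∀ i j, z i ≤ z j + 1) (t : ℕ) :
    P ⊤ t univ (fun i => (z i : ℝ)) = tc w t (∑ i, z i) := by
  rw [tc_eq hw, bal_val hw z hz, bal_val hw (ps w _), sum_ps hw]
  intro i j
  unfold ps
  split_ifs <;> omega

theorem balance {w : ℕ} (hw : 0 < w) (j M : ℕ) : ∀ z : Fin w → ℕ, ∑ i, z i ^ 2 ≤ M →
    P ⊤ (j + 2) univ (fun i => (z i : ℝ)) ≤ tc w (j + 2) (∑ i, z i) := by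
  induction M using Nat.strong_induction_on with
  | _ M ih =>
  intro z hM
  by_cases hz : ∀ i j, z i ≤ z j + 1
  · exact (bal_eq hw z hz _).le
  push Not at hz
  obtain ⟨p, q, hpq⟩ := hz
  have hqp : q ≠ p := by rintro rfl; omega
  have hp : p ∈ (univ : Finset (Fin w)) := mem_univ _
  have hq : q ∈ (univ : Finset (Fin w)).erase p := mem_erase.2 ⟨hqp, mem_univ _⟩
  obtain ⟨u, hu⟩ : ∃ u, z p = u + 1 := ⟨z p - 1, by omega⟩
  set y := Function.update (Function.update z q (z q + 1)) p u with hy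
  have yp : y p = u := by simp [hy]
  have yq : y q = z q + 1 := by simp [hy, Function.update_of_ne hqp]
  have yo : ∀ i ∈ (univ.erase p).erase q, y i = z i := by
    intro i hi
    have h1 := ne_of_mem_erase hi
    have h2 := ne_of_mem_erase (mem_of_mem_erase hi)
    simp [hy, Function.update_of_ne h1, Function.update_of_ne h2]
  have s1 : ∑ i, y i = ∑ i, z i := by
    rw [← add_sum_erase _ _ hp, ← add_sum_erase _ _ hq, ← add_sum_erase _ z hp,
      ← add_sum_erase _ z hq, sum_congr rfl yo, yp, yq, hu]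
    ring
  have s2 : ∑ i, y i ^ 2 < ∑ i, z i ^ 2 := by
    rw [← add_sum_erase _ _ hp, ← add_sum_erase _ _ hq, ← add_sum_erase _ (fun i => z i ^ 2) hp,
      ← add_sum_erase _ (fun i => z i ^ 2) hq,
      sum_congr rfl fun i hi => congrArg (· ^ 2) (yo i hi), yp, yq, hu]
    have : z q < u := by omega
    nlinarith
  have h1 := ih _ (lt_of_lt_of_le s2 hM) y le_rfl
  have h2 := two_var (j := j) (β := 0) hp hq (y := fun i => (z i : ℝ)) (z := fun i => (y i : ℝ))
    (fun i hi => by rw [yo i hi]) (by rw [yp, yq, hu]; push_cast; ring)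
    (by
      rw [yp, yq, hu]
      have : (z q : ℝ) ≤ u := by exact_mod_cast (by omega : z q ≤ u)
      push_cast
      nlinarith) (P_nonneg (fun i _ => Nat.cast_nonneg _) j)
  unfold Fp at h2
  rw [s1] at h1
  linarith

theorem zykov {j w : ℕ} {B : Finset V} (hr : ∀ K ⊆ B, G.IsClique (K : Set V) → K.card ≤ w)
    (hw : 0 < w) : (cl G (j + 2) B).card ≤ tc w (j + 2) B.card := by
  obtain ⟨z, h1, h2, h3⟩ := to_top (j := j) (β := 0) (x := fun _ => 1) (Or.inl rfl)
    (AddMonoidHom.mrange (Nat.castAddMonoidHom ℝ)) (sum_nonneg fun _ _ => zero_le_one) hr hw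
    (fun _ _ => zero_le_one) (fun _ _ => ⟨1, by simp⟩) (Nd_total fun _ _ => zero_le_one) rfl
  choose y hy using fun i => (h1 i).2.2
  obtain rfl : z = fun i => (y i : ℝ) := funext fun i => (hy i).symm
  have h4 := balance hw j _ y le_rfl
  have h5 : ∑ i, y i = B.card := by
    have : ((∑ i, y i : ℕ) : ℝ) = B.card := by simpa using h2
    exact_mod_cast this
  unfold Fp at h3
  rw [P_card] at h3
  rw [h5] at h4
  have : ((cl G (j + 2) B).card : ℝ) ≤ tc w (j + 2) B.card := by linarith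
  exact_mod_cast this

theorem tc_full {w : ℕ} (hw : 0 < w) (t m : ℕ) :
    (tc w t (w * m) : ℝ) = w.choose t * (m : ℝ) ^ t := by
  rw [tc_eq hw, P_congr (y := fun _ => (m : ℝ)), P_top_const]
  · simp
  · intro i _
    simp [ps, Nat.mul_div_cancel_left _ hw]

theorem tc_lower {w m b : ℕ} (hw : 0 < w) (hb : b ≤ w * m) (j : ℕ) :
    (b : ℝ) ^ (j + 1) - ((j : ℝ) + 1) ^ 2 * m * ((w : ℝ) * m) ^ j ≤
      (j + 1).factorial * (tc w (j + 1) b : ℝ) := by
  have hbN : (b : ℝ) ≤ w * m := by exact_mod_cast hb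
  have hp : (b : ℝ) ^ j ≤ ((w : ℝ) * m) ^ j := pow_le_pow_left₀ (by positivity) hbN j
  have hj : (0 : ℝ) ≤ j := by positivity
  have hm : (0 : ℝ) ≤ m := by positivity
  have hb0 : (0 : ℝ) ≤ b := by positivity
  have hbj : (0 : ℝ) ≤ (b : ℝ) ^ j := by positivity
  rcases le_or_gt (((j : ℝ) + 1) * m) b with h | h
  · have hs : ∑ i : Fin w, (ps w b i : ℝ) = b := by exact_mod_cast sum_ps hw b
    have hle : ∀ i ∈ (univ : Finset (Fin w)), (ps w b i : ℝ) ≤ m := by
      intro i _
      have : ps w b i ≤ m := by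
        unfold ps
        have h1 := Nat.div_add_mod b w
        split_ifs with h2
        · have : w * (b / w) < w * m := by omega
          exact Nat.lt_of_mul_lt_mul_left this
        · exact Nat.div_le_of_le_mul hb
      exact_mod_cast this
    have h1 := P_lower (G := ⊤) hm (j + 1) univ (fun i _ => Nat.cast_nonneg (ps w b i))
      (Nd_top hle) (by rw [hs]; push_cast; exact h)
    rw [hs, ← tc_eq hw] at h1
    refine le_trans ?_ h1
    push_cast
    have h2 := one_add_mul_le_pow (a := -(((j : ℝ) + 1) * m / b)) (n := j + 1)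
    rcases hb0.eq_or_lt with h0 | h0
    · rw [← h0] at h ⊢
      have : ((j : ℝ) + 1) * m = 0 := le_antisymm h (by positivity)
      rw [this]
      have : (0 : ℝ) ≤ ((j : ℝ) + 1) ^ 2 * m * ((w : ℝ) * m) ^ j := by positivity
      simp only [sub_zero]
      linarith
    have h3 : ((j : ℝ) + 1) * m / b ≤ 1 := (div_le_one h0).2 h
    have h4 := mul_le_mul_of_nonneg_left (h2 (by linarith)) (pow_nonneg hb0 (j + 1))
    rw [← mul_pow] at h4
    have e1 : (b : ℝ) * (1 + -((j + 1) * m / b)) = b - (j + 1) * m := by field_simp; ring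
    have e2 : (b : ℝ) ^ (j + 1) * (1 + ((j + 1 : ℕ) : ℝ) * -((j + 1) * m / b)) =
        b ^ (j + 1) - (j + 1) ^ 2 * m * b ^ j := by push_cast; field_simp; ring
    rw [e1, e2] at h4
    have h5 := mul_le_mul_of_nonneg_left hp (show (0 : ℝ) ≤ (j + 1) ^ 2 * m by positivity)
    linarith
  · have h1 : (b : ℝ) ^ (j + 1) ≤ ((j : ℝ) + 1) ^ 2 * m * ((w : ℝ) * m) ^ j := by
      rw [pow_succ, mul_comm]
      refine mul_le_mul (h.le.trans ?_) hp hbj (by positivity)
      nlinarith [mul_nonneg hj hm, mul_nonneg hj (mul_nonneg hj hm)]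
    have : (0 : ℝ) ≤ (j + 1).factorial * (tc w (j + 1) b : ℝ) := by positivity
    linarith

end Pool.Agent.GLT
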