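import Pool.Agent.P.MP_dfe42f_co.GlD

/-! The Chao-Dong averaging inequality. -/

namespace Pool.Agent.GLT
open Finset

variable {V : Type} [DecidableEq V] {G : SimpleGraph V}

/-- cliques of `W` meeting `S` -/
noncomputable def mt (G : SimpleGraph V) (t : ℕ) (W S : Finset V) : Finset (Finset V) :=
  (cl G t W).filter fun K => ¬ Disjoint K S

theorem cl_split (t : ℕ) (W S : Finset V) :
    (cl G t W).card = (cl G t (W \ S)).card + (mt G t W S).card := by
  rw [← card_filter_add_card_filter_not (s := cl G t W) (fun K => Disjoint K S), mt]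
  congr 2
  ext K
  simp only [mem_filter, mem_cl, subset_sdiff]
  tauto

theorem mt_mono (t : ℕ) (W : Finset V) {S S' : Finset V} (h : S ⊆ S') :
    mt G t W S ⊆ mt G t W S' := fun _ hK =>
  mem_filter.2 ⟨(mem_filter.1 hK).1, fun hd => (mem_filter.1 hK).2 (hd.mono_right h)⟩

theorem card_cl_mem {j : ℕ} {B : Finset V} {v : V} (hv : v ∈ B) :
    ((cl G (j + 1) B).filter (fun K => v ∈ K)).card = (cl G j (nb G B v)).card := by
  have := sum_cl_mem (G := G) (j := j) hv (fun _ => 1)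
  simpa using this

open Classical in
/-- vertices whose removal leaves a clique -/
noncomputable def rr (G : SimpleGraph V) (A : Finset V) : Finset V :=
  A.filter fun v => G.IsClique ((A.erase v : Finset V) : Set V)

theorem mem_rr {A : Finset V} {v : V} :
    v ∈ rr G A ↔ v ∈ A ∧ G.IsClique ((A.erase v : Finset V) : Set V) := by
  classical
  exact mem_filter

/-- `t`-subsets that become cliques after removing one vertex -/
noncomputable def ac (G : SimpleGraph V) (t : ℕ) (X : Finset V) : Finset (Finset V) :=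
  (X.powersetCard t).filter fun A => (rr G A).Nonempty

theorem rr_card {A : Finset V} (hA : 3 ≤ A.card) {v : V} (hv : v ∈ rr G A) :
    (rr G A).card ≤ (nb G A v).card + 1 := by
  obtain ⟨hvA, -⟩ := mem_rr.1 hv
  rw [← card_erase_add_one hv]
  refine Nat.succ_le_succ ?_
  by_cases h : ∀ u ∈ (rr G A).erase v, G.Adj v u
  · exact card_le_card fun u hu => mem_nb.2 ⟨(mem_rr.1 (mem_of_mem_erase hu)).1, h u hu⟩
  push Not at h
  obtain ⟨u, hu, hn⟩ := h
  have huv := ne_of_mem_erase hu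
  obtain ⟨huA, huc⟩ := mem_rr.1 (mem_of_mem_erase hu)
  have h1 : (rr G A).erase v ⊆ {u} := by
    intro z hz
    by_contra hzu
    rw [mem_singleton] at hzu
    have := (mem_rr.1 (mem_of_mem_erase hz)).2
    exact hn (this (mem_coe.2 (mem_erase.2 ⟨(ne_of_mem_erase hz).symm, hvA⟩))
      (mem_coe.2 (mem_erase.2 ⟨fun h => hzu h.symm, huA⟩)) huv.symm)
  have hv' : v ∈ A.erase u := mem_erase.2 ⟨huv.symm, hvA⟩
  have h2 : ((A.erase u).erase v).Nonempty := by
    rw [← card_pos, card_erase_of_mem hv', card_erase_of_mem huA]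
    omega
  obtain ⟨z, hz⟩ := h2
  have h3 : z ∈ nb G A v := mem_nb.2 ⟨mem_of_mem_erase (mem_of_mem_erase hz),
    huc (mem_coe.2 hv') (mem_coe.2 (mem_of_mem_erase hz)) (ne_of_mem_erase hz).symm⟩
  have := card_le_card h1
  have := card_pos.2 ⟨z, h3⟩
  simp only [card_singleton] at *
  omega

theorem rr_wt {A : Finset V} (hA : 3 ≤ A.card) :
    ∑ v ∈ rr G A, (1 : ℝ) / ((nb G A v).card + 1) ≤ 1 := by
  rcases (rr G A).eq_empty_or_nonempty with h | h
  · simp [h]
  have hp : (0 : ℝ) < (rr G A).card := by exact_mod_cast card_pos.2 h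
  refine (sum_le_sum (g := fun _ => (1 : ℝ) / (rr G A).card) fun v hv => ?_).trans (le_of_eq ?_)
  · exact one_div_le_one_div_of_le hp (by exact_mod_cast rr_card hA hv)
  · rw [sum_const, nsmul_eq_mul]
    field_simp

theorem chao_dong {j : ℕ} (hj : 2 ≤ j) (W : Finset V) :
    ∑ v ∈ W, ((mt G (j + 1) W (insert v (nb G W v))).card : ℝ) ≤
      ∑ y ∈ W, (((cl G j (nb G W y)).card : ℝ) + (ac G (j + 1) (nb G W y)).card) := by
  set R : V → Finset (Finset V) := fun v =>
    (cl G (j + 1) W).filter fun K => v ∉ K ∧ (nb G K v).Nonempty with hR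
  have h1 : ∀ v ∈ W, ((mt G (j + 1) W (insert v (nb G W v))).card : ℝ) ≤
      (cl G j (nb G W v)).card + (R v).card := by
    intro v hv
    rw [← card_cl_mem hv]
    have : mt G (j + 1) W (insert v (nb G W v)) ⊆
        (cl G (j + 1) W).filter (fun K => v ∈ K) ∪ R v := by
      intro K hK
      obtain ⟨hK1, hK2⟩ := mem_filter.1 hK
      by_cases hvK : v ∈ K
      · exact mem_union_left _ (mem_filter.2 ⟨hK1, hvK⟩)
      refine mem_union_right _ (mem_filter.2 ⟨hK1, hvK, ?_⟩)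
      obtain ⟨u, hu1, hu2⟩ := not_disjoint_iff.1 hK2
      rcases mem_insert.1 hu2 with rfl | h
      · exact absurd hu1 hvK
      · exact ⟨u, mem_nb.2 ⟨hu1, (mem_nb.1 h).2⟩⟩
    exact_mod_cast (card_le_card this).trans (card_union_le _ _)
  refine (sum_le_sum h1).trans ?_
  rw [sum_add_distrib, sum_add_distrib]
  refine add_le_add le_rfl ?_
  have e1 : ∑ v ∈ W, ((R v).card : ℝ) =
      ∑ p ∈ W.sigma (fun v => (R v).sigma fun K => nb G K v),
        (1 : ℝ) / (nb G p.2.1 p.1).card := by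
    rw [sum_sigma]
    refine sum_congr rfl fun v _ => ?_
    rw [sum_sigma, card_eq_sum_ones, Nat.cast_sum]
    refine sum_congr rfl fun K hK => ?_
    have : (0 : ℝ) < (nb G K v).card := by exact_mod_cast card_pos.2 (mem_filter.1 hK).2.2
    simp only [sum_const, nsmul_eq_mul]
    field_simp
    simp
  have e2 : ∑ p ∈ W.sigma (fun y => (ac G (j + 1) (nb G W y)).sigma fun A => rr G A),
        (1 : ℝ) / ((nb G p.2.1 p.2.2).card + 1) ≤ ∑ y ∈ W, ((ac G (j + 1) (nb G W y)).card : ℝ) := by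
    rw [sum_sigma]
    refine sum_le_sum fun y _ => ?_
    rw [sum_sigma, card_eq_sum_ones, Nat.cast_sum]
    refine sum_le_sum fun A hA => ?_
    have := (mem_powersetCard.1 (mem_filter.1 hA).1).2
    simpa using rr_wt (G := G) (A := A) (by omega)
  rw [e1]
  refine le_trans ?_ e2
  set φ : (Σ _ : V, Σ _ : Finset V, V) → (Σ _ : V, Σ _ : Finset V, V) :=
    fun p => ⟨p.2.2, insert p.1 (p.2.1.erase p.2.2), p.1⟩ with hφ
  have hmem : ∀ p ∈ W.sigma (fun v => (R v).sigma fun K => nb G K v),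
      p.1 ∈ W ∧ p.2.1 ∈ cl G (j + 1) W ∧ p.1 ∉ p.2.1 ∧ p.2.2 ∈ p.2.1 ∧ G.Adj p.1 p.2.2 := by
    intro p hp
    obtain ⟨a1, a2⟩ := mem_sigma.1 hp
    obtain ⟨a3, a4⟩ := mem_sigma.1 a2
    exact ⟨a1, (mem_filter.1 a3).1, (mem_filter.1 a3).2.1, (mem_nb.1 a4).1, (mem_nb.1 a4).2⟩
  have hinj : Set.InjOn φ (W.sigma (fun v => (R v).sigma fun K => nb G K v) : Finset _) := by
    refine Set.LeftInvOn.injOn (f₁' := φ) fun p hp => ?_
    obtain ⟨-, -, a3, a4, -⟩ := hmem p hp
    obtain ⟨v, K, y⟩ := p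
    simp only [hφ] at a3 a4 ⊢
    rw [erase_insert (fun h => a3 (mem_of_mem_erase h)), insert_erase a4]
  have e3 : ∀ p ∈ W.sigma (fun v => (R v).sigma fun K => nb G K v),
      (1 : ℝ) / (nb G p.2.1 p.1).card = 1 / ((nb G (φ p).2.1 (φ p).2.2).card + 1) := by
    intro p hp
    obtain ⟨-, -, a3, a4, a5⟩ := hmem p hp
    obtain ⟨v, K, y⟩ := p
    simp only [hφ] at a3 a4 a5 ⊢
    have : nb G (K.erase y) v = (nb G K v).erase y := by
      ext u
      simp only [mem_nb, mem_erase]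
      tauto
    rw [nb_insert_self, this, ← card_erase_add_one (mem_nb.2 ⟨a4, a5⟩)]
    simp
  rw [sum_congr rfl e3, ← sum_image (f := fun p : (Σ _ : V, Σ _ : Finset V, V) =>
    (1 : ℝ) / ((nb G p.2.1 p.2.2).card + 1)) hinj]
  refine sum_le_sum_of_subset_of_nonneg ?_ fun _ _ _ => by positivity
  intro p' hp'
  obtain ⟨p, hp, rfl⟩ := mem_image.1 hp'
  obtain ⟨a1, a2, a3, a4, a5⟩ := hmem p hp
  obtain ⟨v, K, y⟩ := p
  simp only [hφ] at a1 a2 a3 a4 a5 ⊢
  have hv : v ∉ K.erase y := fun h => a3 (mem_of_mem_erase h)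
  obtain ⟨b1, b2, b3⟩ := mem_cl.1 (erase_mem_cl a4 a2)
  have hr : v ∈ rr G (insert v (K.erase y)) :=
    mem_rr.2 ⟨mem_insert_self _ _, by rwa [erase_insert hv]⟩
  refine mem_sigma.2 ⟨(mem_cl.1 a2).1 a4, mem_sigma.2 ⟨mem_filter.2 ⟨mem_powersetCard.2
    ⟨insert_subset (mem_nb.2 ⟨a1, a5.symm⟩) b1, ?_⟩, v, hr⟩, hr⟩⟩
  rw [card_insert_of_notMem hv, b2]

end Pool.Agent.GLT
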