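import Pool.Agent.P.MP_dfe42f_co.GlE

/-! Almost cliques in a set with many non-edges, and a discrete convex majorant. -/

namespace Pool.Agent.GLT
open Finset

variable {V : Type} [DecidableEq V] {G : SimpleGraph V}

/-- members of `F` containing `S` -/
def cnt (F : Finset (Finset V)) (S : Finset V) : ℕ := (F.filter fun A => S ⊆ A).card

theorem cnt_pick {F : Finset (Finset V)} {X : Finset V} {t : ℕ} (hF : F ⊆ X.powersetCard t)
    (S : Finset V) : ((t : ℝ) - S.card) * cnt F S = ∑ x ∈ X \ S, (cnt F (insert x S) : ℝ) := by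
  unfold cnt
  simp only [card_filter, Nat.cast_sum]
  rw [sum_comm, mul_sum]
  refine sum_congr rfl fun A hA => ?_
  obtain ⟨h1, h2⟩ := mem_powersetCard.1 (hF hA)
  by_cases h : S ⊆ A
  · simp only [insert_subset_iff, h, and_true, if_true]
    rw [← Nat.cast_sum, ← card_filter]
    have : (X \ S).filter (fun x => x ∈ A) = A \ S := by
      ext x
      simp only [mem_filter, mem_sdiff]
      exact ⟨fun h => ⟨h.2, h.1.2⟩, fun h => ⟨⟨h1 h.1, h.2⟩, h.1⟩⟩
    rw [this, ← h2, ← card_sdiff_add_card_eq_card h]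
    simp
  · simp [insert_subset_iff, h]

theorem cnt_le {F : Finset (Finset V)} {X S : Finset V} {j : ℕ}
    (hF : ∀ A ∈ F, S ⊆ A → A \ S ⊆ X ∧ A.card = j + S.card) : cnt F S ≤ X.card.choose j := by
  rw [← card_powersetCard]
  refine card_le_card_of_injOn (fun A => A \ S) (fun A hA => ?_) fun A hA B hB h => ?_
  · obtain ⟨h1, h2⟩ := mem_filter.1 (mem_coe.1 hA)
    obtain ⟨h3, h4⟩ := hF A h1 h2
    have := card_sdiff_add_card_eq_card h2
    exact mem_coe.2 (mem_powersetCard.2 ⟨h3, show (A \ S).card = j by omega⟩)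
  · have h1 := (mem_filter.1 (mem_coe.1 hA)).2
    have h2 := (mem_filter.1 (mem_coe.1 hB)).2
    rw [← sdiff_union_of_subset h1, ← sdiff_union_of_subset h2]
    exact congrArg (· ∪ S) h

theorem sum_sdiff_le {X S : Finset V} {f g : V → ℝ} (h1 : ∀ x ∈ X \ S, f x ≤ g x)
    (h2 : ∀ x ∈ X, 0 ≤ g x) : ∑ x ∈ X \ S, f x ≤ ∑ x ∈ X, g x :=
  (sum_le_sum h1).trans (sum_le_sum_of_subset_of_nonneg sdiff_subset fun x hx _ => h2 x hx)

/-- number of ordered non-adjacent pairs, equal pairs included -/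
noncomputable def Mx (G : SimpleGraph V) (X : Finset V) : ℝ :=
  ∑ x ∈ X, ((X \ nb G X x).card : ℝ)

theorem fact_choose_le (d j : ℕ) : (j.factorial : ℝ) * d.choose j ≤ (d : ℝ) ^ j := by
  have := Nat.descFactorial_le_pow d j
  rw [Nat.descFactorial_eq_factorial_mul_choose] at this
  exact_mod_cast this

theorem Mx_le (X : Finset V) : Mx G X ≤ (X.card : ℝ) ^ 2 := by
  refine (sum_le_sum (g := fun _ => (X.card : ℝ)) fun x _ => ?_).trans (by simp [sq])
  exact_mod_cast card_le_card sdiff_subset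

theorem Mx_nonneg (X : Finset V) : 0 ≤ Mx G X := sum_nonneg fun _ _ => Nat.cast_nonneg _

theorem ac_bound (j : ℕ) (X : Finset V) : ((j + 4).factorial : ℝ) * (ac G (j + 4) X).card ≤
    ((X.card : ℝ) ^ 4 - Mx G X ^ 2) * (X.card : ℝ) ^ j := by
  classical
  set F := ac G (j + 4) X with hFd
  have hF : F ⊆ X.powersetCard (j + 4) := filter_subset _ _
  set n : V → V → ℝ := fun a b => if G.Adj a b then 0 else 1 with hn
  set C : ℝ := (X.card.choose j : ℝ) with hC
  have hC0 : 0 ≤ C := Nat.cast_nonneg _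
  have hnn : ∀ a b c d, 0 ≤ (1 - n a b * n c d) * C := by
    intro a b c d
    refine mul_nonneg ?_ hC0
    simp only [hn]
    split_ifs <;> norm_num
  have hM : ∑ a ∈ X, ∑ b ∈ X, n a b = Mx G X := by
    refine sum_congr rfl fun a _ => ?_
    simp only [hn]
    rw [sum_ite, sum_const_zero, zero_add, sum_const, nsmul_eq_mul, mul_one]
    congr 2
    ext u
    simp only [mem_filter, mem_sdiff, mem_nb]
    tauto
  have key : ((j : ℝ) + 1) * ((j + 2) * ((j + 3) * ((j + 4) * cnt F ∅))) ≤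
      ∑ a ∈ X, ∑ b ∈ X, ∑ c ∈ X, ∑ d ∈ X, (1 - n a b * n c d) * C := by
    have p0 := cnt_pick hF ∅
    simp only [card_empty, Nat.cast_zero, sub_zero, Nat.cast_add, Nat.cast_ofNat] at p0
    rw [p0, mul_sum, mul_sum, mul_sum]
    refine sum_sdiff_le (fun a _ => ?_) fun a _ => sum_nonneg fun b _ => sum_nonneg fun c _ =>
      sum_nonneg fun d _ => hnn _ _ _ _
    have c1 : (insert a (∅ : Finset V)).card = 1 := by simp
    have p1 := cnt_pick hF (insert a ∅)
    rw [c1, show ((j + 4 : ℕ) : ℝ) - (1 : ℕ) = j + 3 by push_cast; ring] at p1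
    rw [p1, mul_sum, mul_sum]
    refine sum_sdiff_le (fun b hb => ?_) fun b _ => sum_nonneg fun c _ =>
      sum_nonneg fun d _ => hnn _ _ _ _
    have hb' := (mem_sdiff.1 hb).2
    have c2 : (insert b (insert a (∅ : Finset V))).card = 2 := by
      rw [card_insert_of_notMem hb', c1]
    have p2 := cnt_pick hF (insert b (insert a ∅))
    rw [c2, show ((j + 4 : ℕ) : ℝ) - (2 : ℕ) = j + 2 by push_cast; ring] at p2
    rw [p2, mul_sum]
    refine sum_sdiff_le (fun c hc => ?_) fun c _ => sum_nonneg fun d _ => hnn _ _ _ _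
    have hc' := (mem_sdiff.1 hc).2
    have c3 : (insert c (insert b (insert a (∅ : Finset V)))).card = 3 := by
      rw [card_insert_of_notMem hc', c2]
    have p3 := cnt_pick hF (insert c (insert b (insert a ∅)))
    rw [c3, show ((j + 4 : ℕ) : ℝ) - (3 : ℕ) = j + 1 by push_cast; ring] at p3
    rw [p3]
    refine sum_sdiff_le (fun d hd => ?_) fun d _ => hnn _ _ _ _
    have hd' := (mem_sdiff.1 hd).2
    have c4 : (insert d (insert c (insert b (insert a (∅ : Finset V))))).card = 4 := by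
      rw [card_insert_of_notMem hd', c3]
    have hle : (cnt F (insert d (insert c (insert b (insert a ∅)))) : ℝ) ≤ C := by
      rw [hC]
      exact_mod_cast cnt_le fun A hA _ => ⟨sdiff_subset.trans (mem_powersetCard.1 (hF hA)).1,
        by rw [c4]; exact (mem_powersetCard.1 (hF hA)).2⟩
    by_cases h1 : G.Adj a b
    · simpa [hn, h1] using hle
    by_cases h2 : G.Adj c d
    · simpa [hn, h2] using hle
    have : cnt F (insert d (insert c (insert b (insert a ∅)))) = 0 := by
      rw [cnt, card_eq_zero, filter_eq_empty_iff]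
      intro A hA hs
      obtain ⟨v, hv⟩ := (mem_filter.1 hA).2
      have hcl := (mem_rr.1 hv).2
      simp only [insert_subset_iff, mem_insert, notMem_empty, or_false, not_or] at hs hb' hc' hd'
      obtain ⟨sd, sc, sb, sa, -⟩ := hs
      by_cases hv1 : v = a ∨ v = b
      · refine h2 (hcl (mem_coe.2 (mem_erase.2 ⟨?_, sc⟩)) (mem_coe.2 (mem_erase.2 ⟨?_, sd⟩))
          fun h => hd'.1 h.symm)
        · rcases hv1 with rfl | rfl
          exacts [hc'.2, hc'.1]
        · rcases hv1 with rfl | rfl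
          exacts [hd'.2.2, hd'.2.1]
      · rw [not_or] at hv1
        exact h1 (hcl (mem_coe.2 (mem_erase.2 ⟨fun h => hv1.1 h.symm, sa⟩))
          (mem_coe.2 (mem_erase.2 ⟨fun h => hv1.2 h.symm, sb⟩)) fun h => hb' h.symm)
    rw [this]
    simpa using hnn a b c d
  have e : ∑ a ∈ X, ∑ b ∈ X, ∑ c ∈ X, ∑ d ∈ X, (1 - n a b * n c d) * C =
      ((X.card : ℝ) ^ 4 - Mx G X ^ 2) * C := by
    simp only [← sum_mul, sum_sub_distrib, ← mul_sum, hM, sum_const, nsmul_eq_mul]
    ring
  have h0 : cnt F ∅ = F.card := by simp [cnt]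
  have h1 : 0 ≤ (X.card : ℝ) ^ 4 - Mx G X ^ 2 := by
    have := pow_le_pow_left₀ (Mx_nonneg (G := G) X) (Mx_le X) 2
    nlinarith
  rw [e, h0] at key
  have h2 := mul_le_mul_of_nonneg_left (fact_choose_le X.card j) h1
  have h3 := mul_le_mul_of_nonneg_left key (Nat.cast_nonneg (α := ℝ) j.factorial)
  simp only [Nat.factorial_succ, Nat.cast_mul]
  push_cast
  nlinarith

theorem dpow_mono {a b : ℝ} (ha : 0 ≤ a) (h : a ≤ b) (t : ℕ) :
    0 ≤ (a + 1) ^ t - a ^ t ∧ (a + 1) ^ t - a ^ t ≤ (b + 1) ^ t - b ^ t := by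
  induction t with
  | zero => simp
  | succ t ih =>
    have h1 : a ^ t ≤ b ^ t := pow_le_pow_left₀ ha h t
    have h2 : 0 ≤ a ^ t := pow_nonneg ha t
    have h3 := mul_le_mul (show a + 1 ≤ b + 1 by linarith) ih.2 ih.1 (by linarith)
    have h4 := mul_nonneg (show 0 ≤ a + 1 by linarith) ih.1
    rw [pow_succ, pow_succ, pow_succ, pow_succ]
    constructor <;> nlinarith

theorem dpow_le {a : ℝ} (ha : 0 ≤ a) (k : ℕ) :
    (a + 1) ^ (k + 1) - a ^ (k + 1) ≤ (k + 1) * (a + 1) ^ k := by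
  induction k with
  | zero => simp
  | succ k ih =>
    have h1 : a ^ (k + 1) ≤ (a + 1) ^ (k + 1) := pow_le_pow_left₀ ha (by linarith) _
    have h2 := mul_le_mul_of_nonneg_left ih (show 0 ≤ a + 1 by linarith)
    push_cast
    rw [pow_succ (a + 1) (k + 1), pow_succ a (k + 1)]
    rw [pow_succ (a + 1) k] at *
    nlinarith

/-- increments of the majorant -/
noncomputable def inc (k s0 i : ℕ) : ℝ :=
  min (((i : ℝ) + 1) ^ (k + 1) - (i : ℝ) ^ (k + 1)) ((k + 1) * (s0 : ℝ) ^ k)

/-- the majorant -/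
noncomputable def Bf (k s0 s : ℕ) : ℝ := ∑ i ∈ range s, inc k s0 i

theorem inc_mono (k s0 : ℕ) {i i' : ℕ} (h : i ≤ i') : inc k s0 i ≤ inc k s0 i' :=
  min_le_min (dpow_mono (Nat.cast_nonneg _) (by exact_mod_cast h) _).2 le_rfl

theorem inc_nonneg (k s0 i : ℕ) : 0 ≤ inc k s0 i :=
  le_min (dpow_mono (Nat.cast_nonneg _) le_rfl _).1 (by positivity)

theorem Bf_le (k s0 s : ℕ) : Bf k s0 s ≤ (s : ℝ) ^ (k + 1) := by
  induction s with
  | zero => simp [Bf]
  | succ s ih =>
    rw [Bf, sum_range_succ]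
    have : inc k s0 s ≤ _ := min_le_left _ _
    rw [Bf] at ih
    push_cast
    linarith

theorem Bf_eq (k s0 s : ℕ) (h : s ≤ s0) : Bf k s0 s = (s : ℝ) ^ (k + 1) := by
  induction s with
  | zero => simp [Bf]
  | succ s ih =>
    have h1 : ((s : ℝ) + 1) ^ k ≤ (s0 : ℝ) ^ k :=
      pow_le_pow_left₀ (by positivity) (by exact_mod_cast h) k
    have h2 := mul_le_mul_of_nonneg_left h1 (show (0 : ℝ) ≤ k + 1 by positivity)
    have h3 : inc k s0 s = _ := min_eq_left ((dpow_le (Nat.cast_nonneg s) k).trans h2)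
    have := ih (by omega)
    rw [Bf] at this
    rw [Bf, sum_range_succ, this, h3]
    push_cast
    ring

theorem Bf_ge (k s0 s : ℕ) (h : s0 ≤ s) : (s0 : ℝ) ^ (k + 1) ≤ Bf k s0 s := by
  rw [← Bf_eq k s0 s0 le_rfl]
  exact sum_le_sum_of_subset_of_nonneg (range_subset_range.2 h) fun i _ _ => inc_nonneg _ _ _

theorem Bf_top (k s0 r : ℕ) :
    Bf k s0 (s0 + r) ≤ (s0 : ℝ) ^ (k + 1) + r * ((k + 1) * (s0 : ℝ) ^ k) := by
  induction r with
  | zero => simp [Bf_le]
  | succ r ih =>
    rw [← add_assoc, Bf, sum_range_succ]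
    have : inc k s0 (s0 + r) ≤ _ := min_le_right _ _
    rw [Bf] at ih
    push_cast
    linarith

theorem Bf_card (k s0 : ℕ) (S : Finset ℕ) : Bf k s0 S.card ≤ ∑ i ∈ S, inc k s0 i := by
  induction S using Finset.induction_on_max with
  | empty => simp [Bf]
  | insert a S ha ih =>
    have hn : a ∉ S := fun h => lt_irrefl _ (ha a h)
    have hc : S.card ≤ a := by
      have : S ⊆ range a := fun x hx => mem_range.2 (ha x hx)
      simpa using card_le_card this
    rw [card_insert_of_notMem hn, sum_insert hn, Bf, sum_range_succ]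
    have := inc_mono k s0 hc
    rw [Bf] at ih
    linarith

/-- periodic sum of increments -/
noncomputable def Ff (k s0 N n : ℕ) : ℝ := ∑ i ∈ range n, inc k s0 (i % N)

theorem Ff_add (k s0 N n s : ℕ) (h : s ≤ N) : Ff k s0 N n + Bf k s0 s ≤ Ff k s0 N (n + s) := by
  have hinj : Set.InjOn (· % N) (Ico n (n + s) : Finset ℕ) :=
    (Nat.mod_injOn_Ico n N).mono (coe_subset.2 (Ico_subset_Ico le_rfl (by omega)))
  have h1 := Bf_card k s0 ((Ico n (n + s)).image (· % N))
  rw [card_image_of_injOn hinj, sum_image hinj, Nat.card_Ico, Nat.add_sub_cancel_left] at h1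
  rw [Ff, Ff, ← sum_range_add_sum_Ico _ (Nat.le_add_right n s)]
  linarith

theorem Ff_eq (k s0 N a : ℕ) : ∀ b ≤ N, Ff k s0 N (N * a + b) = a * Bf k s0 N + Bf k s0 b := by
  have h : ∀ a b, b ≤ N → Ff k s0 N (N * a + b) = Ff k s0 N (N * a) + Bf k s0 b := by
    intro a b hb
    rw [Ff, sum_range_add, Ff, Bf]
    congr 1
    refine sum_congr rfl fun i hi => ?_
    rw [Nat.mul_add_mod, Nat.mod_eq_of_lt (by have := mem_range.1 hi; omega)]
  induction a with
  | zero => intro b hb; rw [h 0 b hb]; simp [Ff]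
  | succ a ih =>
    intro b hb
    rw [h _ b hb, Nat.mul_succ, ih N le_rfl]
    push_cast
    ring

end Pool.Agent.GLT
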