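import Pool.Agent.P.MP_dfe42f_co.GlF

/-! The direct bound for graphs without a dense spot. -/

namespace Pool.Agent.GLT
open Finset

variable {V : Type} [DecidableEq V] {G : SimpleGraph V}

/-- a dense spot -/
def Spot (G : SimpleGraph V) (N e : ℝ) (X : Finset V) : Prop :=
  (1 - e) * N ≤ X.card ∧ (X.card : ℝ) ≤ N ∧ Mx G X ≤ e * N ^ 2

omit [DecidableEq V] in
theorem card_cl_le (j : ℕ) (X : Finset V) : (cl G j X).card ≤ X.card.choose j := by
  rw [← card_powersetCard]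
  exact card_le_card fun K hK => mem_powersetCard.2 ⟨(mem_cl.1 hK).1, (mem_cl.1 hK).2.1⟩

theorem link_bound {j s0 : ℕ} {N e : ℝ} (he : 0 ≤ e) (h1 : (1 - e) * N ≤ s0)
    (h2 : (1 - e ^ 2) * N ^ (j + 4) + (j + 4) * N ^ (j + 3) ≤ (s0 : ℝ) ^ (j + 4)) {X : Finset V}
    (hX : (X.card : ℝ) ≤ N) (hs : ¬ Spot G N e X) :
    ((j + 4).factorial : ℝ) * (((cl G (j + 3) X).card : ℝ) + (ac G (j + 4) X).card) ≤
      Bf (j + 3) s0 (X.card + 1) := by
  have a1 : ((cl G (j + 3) X).card : ℝ) ≤ X.card.choose (j + 3) := by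
    exact_mod_cast card_cl_le _ _
  rcases le_or_gt (X.card + 1) s0 with h | h
  · rw [Bf_eq _ _ _ h]
    refine le_trans ?_ (fact_choose_le (X.card + 1) (j + 4))
    refine mul_le_mul_of_nonneg_left ?_ (Nat.cast_nonneg _)
    have a2 : (ac G (j + 4) X).card ≤ X.card.choose (j + 4) := by
      rw [← card_powersetCard]
      exact card_le_card (filter_subset _ _)
    have a3 : ((ac G (j + 4) X).card : ℝ) ≤ X.card.choose (j + 4) := by exact_mod_cast a2
    rw [Nat.choose_succ_succ' X.card (j + 3)]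
    push_cast
    linarith
  · refine le_trans ?_ (h2.trans (Bf_ge _ _ _ h.le))
    have hd : (s0 : ℝ) ≤ X.card := by exact_mod_cast (by omega : s0 ≤ X.card)
    have hM : e * N ^ 2 < Mx G X := by
      by_contra hh
      exact hs ⟨h1.trans hd, hX, not_lt.1 hh⟩
    have hd0 : (0 : ℝ) ≤ X.card := Nat.cast_nonneg _
    have b1 := ac_bound (G := G) j X
    have b2 := fact_choose_le X.card (j + 3)
    have b3 : (X.card : ℝ) ^ (j + 3) ≤ N ^ (j + 3) := pow_le_pow_left₀ hd0 hX _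
    have b4 : (X.card : ℝ) ^ 4 ≤ N ^ 4 := pow_le_pow_left₀ hd0 hX _
    have b5 : (X.card : ℝ) ^ j ≤ N ^ j := pow_le_pow_left₀ hd0 hX _
    have b6 : (e * N ^ 2) ^ 2 ≤ Mx G X ^ 2 := pow_le_pow_left₀ (by positivity) hM.le 2
    have b7 : 0 ≤ (X.card : ℝ) ^ 4 - Mx G X ^ 2 := by
      have := pow_le_pow_left₀ (Mx_nonneg (G := G) X) (Mx_le X) 2
      nlinarith
    have b8 : ((X.card : ℝ) ^ 4 - Mx G X ^ 2) * (X.card : ℝ) ^ j ≤
        ((1 - e ^ 2) * N ^ 4) * N ^ j :=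
      mul_le_mul (by nlinarith) b5 (by positivity) (by nlinarith)
    have b9 : ((j + 4).factorial : ℝ) * (cl G (j + 3) X).card ≤ (j + 4) * N ^ (j + 3) := by
      rw [Nat.factorial_succ, Nat.cast_mul, mul_assoc]
      have := mul_le_mul_of_nonneg_left a1 (Nat.cast_nonneg (α := ℝ) (j + 3).factorial)
      have := mul_le_mul_of_nonneg_left (this.trans (b2.trans b3))
        (show (0 : ℝ) ≤ j + 4 by positivity)
      push_cast
      linarith
    have : (1 - e ^ 2) * N ^ 4 * N ^ j = (1 - e ^ 2) * N ^ (j + 4) := by ring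
    linarith

theorem nospot {j s0 N : ℕ} {e : ℝ} (he : 0 ≤ e) (h1 : (1 - e) * N ≤ s0)
    (h2 : (1 - e ^ 2) * (N : ℝ) ^ (j + 4) + (j + 4) * (N : ℝ) ^ (j + 3) ≤ (s0 : ℝ) ^ (j + 4))
    (hD : ∀ B v, (nb G B v).card + 1 ≤ N) (n : ℕ) : ∀ W : Finset V, W.card = n →
    (∀ X ⊆ W, ¬ Spot G N e X) →
    ((j + 4).factorial : ℝ) * (cl G (j + 4) W).card ≤ Ff (j + 3) s0 N n := by
  induction n using Nat.strong_induction_on with
  | _ n ih =>
  intro W hW hs
  rcases W.eq_empty_or_nonempty with rfl | hne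
  · rw [← P_card, P_empty, mul_zero]
    exact sum_nonneg fun _ _ => inc_nonneg _ _ _
  have c1 := mul_le_mul_of_nonneg_left (chao_dong (G := G) (j := j + 3) (by omega) W)
    (Nat.cast_nonneg (α := ℝ) (j + 4).factorial)
  rw [mul_sum, mul_sum] at c1
  have c2 := c1.trans (sum_le_sum (g := fun y => Bf (j + 3) s0 ((nb G W y).card + 1))
    fun y _ => link_bound he h1 h2 (by exact_mod_cast (by have := hD W y; omega))
      (hs _ (nb_subset _ _)))
  obtain ⟨v, hv, c3⟩ := exists_le_of_sum_le hne c2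
  set S := insert v (nb G W v) with hS
  have hSW : S ⊆ W := insert_subset hv (nb_subset _ _)
  have hSc : S.card = (nb G W v).card + 1 := card_insert_of_notMem (not_mem_nb_self _ _)
  have c4 := card_sdiff_add_card_eq_card hSW
  have c5 := ih (W \ S).card (by omega) (W \ S) rfl fun X hX => hs X (hX.trans sdiff_subset)
  have c6 := Ff_add (j + 3) s0 N (W \ S).card S.card (by rw [hSc]; exact hD W v)
  rw [c4, hW] at c6
  rw [← hSc] at c3
  change _ * ((mt G (j + 4) W S).card : ℝ) ≤ _ at c3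
  rw [cl_split (j + 4) W S]
  push_cast
  linarith

theorem pow_sq_le {e : ℝ} (h0 : 0 ≤ e) (h1 : e ≤ 1) (k : ℕ) :
    (1 - e) ^ (k + 1) * (1 + (k + 1) * e) ≤ 1 - e ^ 2 := by
  induction k with
  | zero => simp; nlinarith
  | succ k ih =>
    have h2 : (1 - e) * (1 + (k + 1 + 1) * e) ≤ 1 + (k + 1) * e := by
      have : (0 : ℝ) ≤ k := Nat.cast_nonneg _
      nlinarith [mul_nonneg this (sq_nonneg e), sq_nonneg e]
    have := mul_le_mul_of_nonneg_left h2 (pow_nonneg (sub_nonneg.2 h1) (k + 1))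
    push_cast
    rw [pow_succ (1 - e) (k + 1)]
    nlinarith

theorem Bf_N {k s0 N : ℕ} {e : ℝ} (he : 0 ≤ e) (hN : 0 < N) (h : (s0 : ℝ) ≤ (1 - e) * N) :
    Bf (k + 1) s0 N ≤ (1 - e ^ 2) * (N : ℝ) ^ (k + 2) := by
  have hN' : (0 : ℝ) < N := by exact_mod_cast hN
  have hs : s0 ≤ N := by exact_mod_cast (show (s0 : ℝ) ≤ N by nlinarith)
  obtain ⟨r, rfl⟩ := Nat.exists_eq_add_of_le hs
  refine (Bf_top _ _ _).trans ?_
  set N : ℝ := ((s0 + r : ℕ) : ℝ) with hNd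
  have hr : (r : ℝ) = r / N * N := by field_simp
  have hs0 : (s0 : ℝ) = (1 - r / N) * N := by rw [sub_mul, ← hr, hNd]; push_cast; ring
  have h3 : e ≤ r / N := by
    rw [hs0] at h
    have := le_of_mul_le_mul_right h hN'
    linarith
  have h4 : r / N ≤ 1 := by
    rw [div_le_one hN', hNd]
    exact_mod_cast Nat.le_add_left _ _
  have h5 := pow_sq_le (he.trans h3) h4 k
  have h6 : e ^ 2 ≤ (r / N) ^ 2 := pow_le_pow_left₀ he h3 2
  have h7 := mul_le_mul_of_nonneg_right (h5.trans (show _ ≤ 1 - e ^ 2 by linarith))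
    (pow_nonneg hN'.le (k + 2))
  refine le_trans (le_of_eq ?_) h7
  generalize (r : ℝ) / N = u at *
  rw [hr, hs0, mul_pow, mul_pow]
  push_cast
  ring

/-- the spot-free case, final form -/
theorem nospot_final {j w m : ℕ} {e0 e2 : ℝ} (hm : 1 ≤ m) (h0 : 0 < e0) (h1 : e0 ≤ 1)
    (h2 : 2 * (j + 4) * e2 = e0 ^ 2) (hw : 8 * ((j : ℝ) + 4) ^ 2 ≤ w * e2 ^ 2)
    (hD : ∀ B v, (nb G B v).card ≤ (w - 1) * m) (W : Finset V) (hW : w * m ≤ W.card)
    (hs : ∀ X ⊆ W, ¬ Spot G (w * m) e0 X) :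
    (cl G (j + 4) W).card ≤
      W.card / (w * m) * tc w (j + 4) (w * m) + tc w (j + 4) (W.card % (w * m)) := by
  have hj : (0 : ℝ) ≤ j := Nat.cast_nonneg _
  have hm' : (1 : ℝ) ≤ m := by exact_mod_cast hm
  have e2p : 0 < e2 := by
    by_contra hh
    have : 0 ≤ (j + 4) * -e2 := mul_nonneg (by linarith) (by linarith)
    nlinarith
  have e20 : e2 ≤ e0 := by nlinarith
  have e21 : e2 ≤ 1 := e20.trans h1
  have hw0 : (0 : ℝ) ≤ w := Nat.cast_nonneg _
  have hwe : 8 * ((j : ℝ) + 4) ^ 2 ≤ w * e2 := by nlinarith [mul_nonneg hw0 e2p.le]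
  have hwp : 0 < w := by
    rcases Nat.eq_zero_or_pos w with rfl | h
    · simp at hwe; nlinarith
    · exact h
  set N : ℕ := w * m with hN
  have hNr : (N : ℝ) = w * m := by rw [hN]; push_cast; ring
  have hNp : 0 < N := Nat.mul_pos hwp hm
  have hNp' : (0 : ℝ) < N := by exact_mod_cast hNp
  have hNw : (w : ℝ) ≤ N := by rw [hNr]; nlinarith
  have hNe : 8 * ((j : ℝ) + 4) ^ 2 ≤ N * e2 := by nlinarith
  set s0 : ℕ := ⌈(1 - e2) * N⌉₊ with hs0
  have s1 : (1 - e2) * N ≤ s0 := Nat.le_ceil _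
  have s2 : (s0 : ℝ) ≤ (1 - e2 / 2) * N := by
    have := Nat.ceil_lt_add_one (show 0 ≤ (1 - e2) * N by nlinarith)
    nlinarith
  have p3 : (0 : ℝ) < (N : ℝ) ^ (j + 3) := by positivity
  have s3 : (1 - e0 ^ 2) * (N : ℝ) ^ (j + 4) + (j + 4) * (N : ℝ) ^ (j + 3) ≤
      (s0 : ℝ) ^ (j + 4) := by
    have a1 : ((1 - e2) * N) ^ (j + 4) ≤ (s0 : ℝ) ^ (j + 4) :=
      pow_le_pow_left₀ (by nlinarith) s1 _
    have a2 := one_add_mul_le_pow (a := -e2) (by linarith) (j + 4)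
    have a3 := mul_le_mul_of_nonneg_right a2 (pow_nonneg hNp'.le (j + 4))
    rw [mul_pow] at a1
    have a4 : (j + 4 : ℝ) ≤ (j + 4) * e2 * N := by nlinarith
    have a5 := mul_le_mul_of_nonneg_right a4 p3.le
    rw [← h2, ← sub_eq_add_neg] at *
    push_cast at a3
    rw [pow_succ (N : ℝ) (j + 3)] at *
    nlinarith
  have c1 := nospot (G := G) (N := N) h0.le (by nlinarith) s3 (fun B v => by
    have := hD B v
    obtain ⟨u, rfl⟩ : ∃ u, w = u + 1 := ⟨w - 1, by omega⟩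
    rw [hN, Nat.succ_mul]
    simp only [Nat.add_sub_cancel] at this
    omega) _ W rfl (by rw [hNr]; exact hs)
  have hb := Nat.mod_lt W.card hNp
  have c2 := Ff_eq (j + 3) s0 N (W.card / N) _ hb.le
  rw [Nat.div_add_mod] at c2
  have c3 := Bf_N (k := j + 2) (by linarith : 0 ≤ e2 / 2) hNp s2
  have c4 := Bf_le (j + 3) s0 (W.card % N)
  have c5 := tc_lower hwp (le_refl (w * m)) (j + 3)
  have c6 := tc_lower hwp hb.le (j + 3)
  rw [← hNr, ← hN] at c5
  rw [← hNr] at c6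
  have ha : (1 : ℝ) ≤ (W.card / N : ℕ) := by exact_mod_cast Nat.div_pos hW hNp
  have c7 : 2 * ((((j + 3 : ℕ) : ℝ) + 1) ^ 2 * m * (N : ℝ) ^ (j + 3)) ≤
      (e2 / 2) ^ 2 * (N : ℝ) ^ (j + 3 + 1) := by
    have : 8 * ((j : ℝ) + 4) ^ 2 * m ≤ e2 ^ 2 * N := by rw [hNr]; nlinarith
    have := mul_le_mul_of_nonneg_right this p3.le
    rw [pow_succ (N : ℝ) (j + 3)]
    push_cast
    nlinarith
  have c8 : (0 : ℝ) ≤ (((j + 3 : ℕ) : ℝ) + 1) ^ 2 * m * (N : ℝ) ^ (j + 3) := by positivity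
  have c9 : Bf (j + 3) s0 N + (((j + 3 : ℕ) : ℝ) + 1) ^ 2 * m * (N : ℝ) ^ (j + 3) ≤
      (j + 3 + 1).factorial * (tc w (j + 3 + 1) N : ℝ) := by
    change Bf (j + 3) s0 N ≤ (1 - (e2 / 2) ^ 2) * (N : ℝ) ^ (j + 3 + 1) at c3
    linarith
  have c10 := mul_le_mul_of_nonneg_left c9 (zero_le_one.trans ha)
  have c11 := mul_le_mul_of_nonneg_right ha c8
  have hf : (0 : ℝ) < (j + 4).factorial := by positivity
  have : ((cl G (j + 4) W).card : ℝ) ≤
      (W.card / N : ℕ) * (tc w (j + 4) N : ℝ) + tc w (j + 4) (W.card % N) := by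
    refine le_of_mul_le_mul_left ?_ hf
    change _ ≤ ((j + 3 + 1).factorial : ℝ) * ((W.card / N : ℕ) * (tc w (j + 3 + 1) N : ℝ) +
      tc w (j + 3 + 1) (W.card % N))
    change ((j + 3 + 1).factorial : ℝ) * _ ≤ _ at c1
    linarith
  exact_mod_cast this

end Pool.Agent.GLT
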