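import Pool.Agent.P.MP_dfe42f_co.GlG

/-! Parameters and their numerical consequences. -/

namespace Pool.Agent.GLT
open Finset

/-- the numerical setting -/
structure Par (j w m : ℕ) (N D h g C δ K η e : ℝ) : Prop where
  hN : N = w * m
  hD : D = (w - 1) * m
  hh : h = (w - 1).choose (j + 3) * (m : ℝ) ^ (j + 3)
  hg : g = w.choose (j + 4) * (m : ℝ) ^ (j + 4)
  hC : C = (j + 4).factorial
  m1 : 1 ≤ m
  d0 : 0 < δ
  d1 : ((j : ℝ) + 4) ^ 2 * δ ≤ 1 / 100
  d2 : C * δ ≤ 1 / 200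
  hK : K * δ = 2 * (j + 4)
  n0 : 0 < η
  n1 : 100 * C * K ^ 2 * η ≤ 1
  he : 6 * e = δ * η
  w1 : ((j : ℝ) + 4) ^ 2 ≤ w * e

namespace Par
variable {j w m : ℕ} {N D h g C δ K η e : ℝ} (p : Par j w m N D h g C δ K η e)
include p

theorem C1 : 1 ≤ C := by
  rw [p.hC]
  exact_mod_cast Nat.factorial_pos _

theorem dt : ((j : ℝ) + 4) * δ ≤ 1 / 400 := by
  have := p.d1
  have := p.d0
  have hj : (0 : ℝ) ≤ j := Nat.cast_nonneg _
  nlinarith [mul_nonneg hj p.d0.le, mul_nonneg hj (mul_nonneg hj p.d0.le)]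

theorem d3 : δ ≤ 1 / 1600 := by
  have := p.dt
  have hj : (0 : ℝ) ≤ j := Nat.cast_nonneg _
  nlinarith [mul_nonneg hj p.d0.le]

theorem Kt : 100 * ((j : ℝ) + 4) ≤ K := by
  have h1 := p.hK
  have h2 := p.d3
  have hj : (0 : ℝ) ≤ j := Nat.cast_nonneg _
  by_contra hh
  have := mul_lt_mul_of_pos_right (not_le.1 hh) p.d0
  nlinarith [mul_nonneg hj p.d0.le]

theorem K4 : 400 ≤ K := by
  have := p.Kt
  have hj : (0 : ℝ) ≤ j := Nat.cast_nonneg _
  linarith

theorem nCK : 40000 * (C * K * η) ≤ 1 := by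
  have h1 := p.n1
  have h2 : 0 ≤ C * K * η := by have := p.C1; have := p.K4; have := p.n0; positivity
  nlinarith [mul_le_mul_of_nonneg_right p.K4 h2]

theorem nC : 16000000 * (C * η) ≤ 1 := by
  have h1 := p.nCK
  have h2 : 0 ≤ C * η := by have := p.C1; have := p.n0; positivity
  nlinarith [mul_le_mul_of_nonneg_right p.K4 h2]

theorem nKK : 100 * (K ^ 2 * η) ≤ 1 := by
  have h1 := p.n1
  have h2 : 0 ≤ K ^ 2 * η := by have := p.n0; positivity
  nlinarith [mul_le_mul_of_nonneg_right p.C1 h2]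

theorem nK : 40000 * (K * η) ≤ 1 := by
  have h1 := p.nCK
  have h2 : 0 ≤ K * η := by have := p.K4; have := p.n0; positivity
  nlinarith [mul_le_mul_of_nonneg_right p.C1 h2]

theorem nCd : 16 * (C * η) ≤ δ := by
  have h1 := mul_le_mul_of_nonneg_right p.nCK p.d0.le
  have h2 : 0 ≤ C * η := by have := p.C1; have := p.n0; positivity
  have h3 := p.hK
  have hj : (0 : ℝ) ≤ j := Nat.cast_nonneg _
  have : C * K * η * δ = C * η * (2 * (j + 4)) := by rw [← h3]; ring
  nlinarith [mul_nonneg h2 hj]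

theorem nd : 16 * η ≤ δ := by
  have := p.nCd
  nlinarith [mul_le_mul_of_nonneg_right p.C1 p.n0.le]

theorem e0 : 0 < e := by
  have := mul_pos p.d0 p.n0
  have := p.he
  linarith

theorem ed : 96 * e ≤ δ ^ 2 := by
  have := mul_le_mul_of_nonneg_left p.nd p.d0.le
  have := p.he
  nlinarith

theorem e1 : 1600 * e ≤ δ := by
  have := p.ed
  have := p.d3
  have := p.d0
  have := p.e0
  nlinarith

theorem we : 16 ≤ w * e := by
  have := p.w1
  have hj : (0 : ℝ) ≤ j := Nat.cast_nonneg _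
  nlinarith

theorem w2 : (1000 : ℝ) ≤ w := by
  have := p.we
  have := p.e1
  have := p.d3
  have hw : (0 : ℝ) ≤ w := Nat.cast_nonneg _
  nlinarith

theorem wt : ((j : ℝ) + 4) ^ 2 ≤ w := by
  have := p.w1
  have := p.e1
  have := p.d3
  have hw : (0 : ℝ) ≤ w := Nat.cast_nonneg _
  nlinarith

theorem m0 : (1 : ℝ) ≤ m := by exact_mod_cast p.m1

theorem ND : N = D + m := by rw [p.hN, p.hD]; ring

theorem D0 : 0 < D := by
  rw [p.hD]
  have := p.w2
  have := p.m0
  nlinarith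

theorem DN : D ≤ N := by have := p.ND; have := p.m0; linarith

theorem N0 : 0 < N := p.D0.trans_le p.DN

theorem mN : 16 * (m : ℝ) ≤ e * N := by
  rw [p.hN]
  have := p.we
  have := p.m0
  nlinarith

theorem ND1 : N ≤ 1.01 * D := by
  have := p.ND
  have := p.mN
  have := p.e1
  have := p.d3
  have := p.N0
  nlinarith

theorem wn : j + 4 ≤ w - 1 := by
  have h1 := p.wt
  have hj : (0 : ℝ) ≤ j := Nat.cast_nonneg _
  have : ((j + 5 : ℕ) : ℝ) ≤ w := by push_cast; nlinarith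
  have : j + 5 ≤ w := by exact_mod_cast this
  omega

theorem w1c : ((w - 1 : ℕ) : ℝ) = w - 1 := by
  have := p.wn
  rw [Nat.cast_sub (by omega)]
  simp

theorem h0 : 0 < h := by
  rw [p.hh]
  have : 0 < (w - 1).choose (j + 3) := Nat.choose_pos (by have := p.wn; omega)
  have := p.m0
  positivity

theorem gh : (j + 4) * g = N * h := by
  have h1 := Nat.add_one_mul_choose_eq (w - 1) (j + 3)
  have h2 : w - 1 + 1 = w := by have := p.wn; omega
  rw [h2] at h1
  have h3 : (w : ℝ) * (w - 1).choose (j + 3) = w.choose (j + 4) * (j + 4) := by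
    exact_mod_cast h1
  rw [p.hg, p.hN, p.hh]
  linear_combination (-(m : ℝ) ^ (j + 4)) * h3

theorem g0 : 0 < g := by
  have h1 := mul_pos p.N0 p.h0
  rw [← p.gh] at h1
  exact (mul_pos_iff_of_pos_left (by positivity)).1 h1

theorem hup : ((j + 3).factorial : ℝ) * h ≤ N ^ (j + 3) := by
  have h1 := fact_choose_le (w - 1) (j + 3)
  have h2 : ((w - 1 : ℕ) : ℝ) ^ (j + 3) ≤ (w : ℝ) ^ (j + 3) :=
    pow_le_pow_left₀ (Nat.cast_nonneg _) (by exact_mod_cast Nat.sub_le _ _) _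
  rw [p.hh, p.hN, mul_pow, ← mul_assoc]
  exact mul_le_mul_of_nonneg_right (h1.trans h2) (by positivity)

theorem hlo : (1 - e) * N ^ (j + 3) ≤ ((j + 3).factorial : ℝ) * h := by
  have h1 := Nat.pow_sub_le_descFactorial (w - 1) (j + 3)
  rw [Nat.descFactorial_eq_factorial_mul_choose] at h1
  have hw := p.wn
  have hw2 := p.w2
  have hj : (0 : ℝ) ≤ j := Nat.cast_nonneg _
  have h2 : ((w : ℝ) - (j + 3)) ^ (j + 3) ≤ (j + 3).factorial * ((w - 1).choose (j + 3) : ℝ) := by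
    have : ((w - 1 + 1 - (j + 3) : ℕ) : ℝ) = w - (j + 3) := by
      rw [show w - 1 + 1 = w by omega, Nat.cast_sub (by omega)]
      push_cast
      ring
    rw [← this]
    exact_mod_cast h1
  have hwp : (0 : ℝ) < w := by linarith
  have h3 : ((j : ℝ) + 3) / w ≤ 1 := by
    rw [div_le_one hwp]
    have := p.wt
    nlinarith
  have h4 := one_add_mul_le_pow (a := -(((j : ℝ) + 3) / w)) (by linarith) (j + 3)
  have h5 : 1 - e ≤ 1 + ((j + 3 : ℕ) : ℝ) * -(((j : ℝ) + 3) / w) := by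
    have : ((j : ℝ) + 3) * (j + 3) / w ≤ e := by
      rw [div_le_iff₀ hwp]
      have := p.w1
      nlinarith
    push_cast
    rw [mul_neg, ← mul_div_assoc]
    linarith
  have h6 := mul_le_mul_of_nonneg_right (h5.trans h4) (pow_nonneg hwp.le (j + 3))
  rw [← mul_pow, show (1 + -(((j : ℝ) + 3) / w)) * w = w - (j + 3) by field_simp; ring] at h6
  rw [p.hh, p.hN, mul_pow, ← mul_assoc, ← mul_assoc]
  exact mul_le_mul_of_nonneg_right (h6.trans h2) (by positivity)

theorem hC' : N ^ (j + 3) ≤ C * h := by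
  have h1 := p.hlo
  have h2 := p.e1
  have h3 := p.d3
  have h4 : 0 < N ^ (j + 3) := pow_pos p.N0 _
  have h5 : 0 ≤ ((j + 3).factorial : ℝ) * h := mul_nonneg (Nat.cast_nonneg _) p.h0.le
  have hj : (0 : ℝ) ≤ j := Nat.cast_nonneg _
  rw [p.hC, Nat.factorial_succ]
  push_cast
  nlinarith [mul_nonneg hj h5]

theorem gam (s : ℝ) : w.choose (j + 4) * (s / w) ^ (j + 4) = (s / N) ^ (j + 4) * g := by
  have := p.m0
  have := p.w2
  rw [p.hg, p.hN, mul_left_comm, ← mul_pow]
  congr 2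
  field_simp

end Par

theorem pow_second {x : ℝ} (h0 : 0 ≤ x) (h1 : x ≤ 1) (k : ℕ) :
    (1 - x) ^ k ≤ 1 - k * x + k * (k - 1) / 2 * x ^ 2 := by
  induction k with
  | zero => simp
  | succ k ih =>
    have h2 := mul_le_mul_of_nonneg_right ih (sub_nonneg.2 h1)
    have h3 : (0 : ℝ) ≤ k * (k - 1) := by
      rcases k with _ | k
      · simp
      · push_cast
        have : (0 : ℝ) ≤ k := Nat.cast_nonneg _
        nlinarith
    have := mul_nonneg h3 (pow_nonneg h0 3)
    rw [pow_succ]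
    push_cast
    nlinarith

theorem pow_up {x : ℝ} (h0 : 0 ≤ x) (k : ℕ) (h1 : k * x ≤ 1 / 20) :
    (1 + x) ^ k ≤ 1 + 1.1 * k * x := by
  induction k with
  | zero => simp
  | succ k ih =>
    push_cast at h1 ⊢
    have h2 := mul_le_mul_of_nonneg_right (ih (by linarith)) (show 0 ≤ 1 + x by linarith)
    rw [pow_succ]
    nlinarith [mul_le_mul_of_nonneg_right (show (k : ℝ) * x ≤ 1 / 20 by linarith) h0]

end Pool.Agent.GLT
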