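import Pool.Agent.P.MP_dfe42f_co.GlH

/-! Links, spots, clusters, and the cost of missing edges in a cluster. -/

namespace Pool.Agent.GLT
open Finset

variable {V : Type} [DecidableEq V] {G : SimpleGraph V}

/-- clique number at most `w`, degrees at most `D` -/
structure Gd (G : SimpleGraph V) (w : ℕ) (D : ℝ) : Prop where
  clq : ∀ K : Finset V, G.IsClique (K : Set V) → K.card ≤ w
  deg : ∀ B v, ((nb G B v).card : ℝ) ≤ D

/-- a cluster inside `W` -/
structure Clu (G : SimpleGraph V) (N D δ η : ℝ) (W Y : Finset V) : Prop where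
  sub : Y ⊆ W
  lo : (1 - η) * N ≤ Y.card
  up : (Y.card : ℝ) ≤ (1 + δ) * N
  inn : ∀ y ∈ Y, (1 - 2 * δ) * N ≤ (nb G Y y).card
  out : ∀ z ∈ W \ Y, ((nb G Y z).card : ℝ) ≤ (1 - δ / 4) * D

/-- excess of the non-degree -/
noncomputable def xx (G : SimpleGraph V) (w : ℕ) (Y : Finset V) (y : V) : ℝ :=
  ((Y \ nb G Y y).card : ℝ) - Y.card / w

theorem card_nn (Y : Finset V) (y : V) :
    ((Y \ nb G Y y).card : ℝ) + (nb G Y y).card = Y.card := by
  exact_mod_cast card_sdiff_add_card_eq_card (nb_subset Y y)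

theorem nn_symm (Y : Finset V) (f : V → ℝ) :
    ∑ b ∈ Y, ∑ c ∈ Y \ nb G Y b, f c = ∑ c ∈ Y, ((Y \ nb G Y c).card : ℝ) * f c := by
  rw [sum_comm' (t' := Y) (s' := fun c => Y \ nb G Y c)]
  · simp
  · intro b c
    simp only [mem_sdiff, mem_nb, G.adj_comm b c]
    tauto

omit [DecidableEq V] in
theorem nb_symm (X Y : Finset V) (f : V → ℝ) :
    ∑ b ∈ X, ∑ c ∈ nb G Y b, f c = ∑ c ∈ Y, ((nb G X c).card : ℝ) * f c := by
  rw [sum_comm' (t' := Y) (s' := fun c => nb G X c)]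
  · simp
  · intro b c
    simp only [mem_nb, G.adj_comm b c]
    tauto

theorem two_P2 (Y : Finset V) (u : V → ℝ) :
    2 * P G 2 Y u = (∑ b ∈ Y, u b) ^ 2 - ∑ b ∈ Y, u b * ∑ c ∈ Y \ nb G Y b, u c := by
  have := P_succ (G := G) 1 Y u
  rw [sq, sum_mul, ← sum_sub_distrib]
  norm_num at this
  rw [this]
  refine sum_congr rfl fun b _ => ?_
  rw [P_one, ← sum_nb_add (G := G) Y u b]
  ring

theorem choose_two_sq {w : ℕ} (hw : 0 < w) (s : ℝ) :
    2 * (w.choose 2 * (s / w) ^ 2) = s ^ 2 - s ^ 2 / w := by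
  have : (w : ℝ) ≠ 0 := by positivity
  rw [Nat.cast_choose_two]
  field_simp

theorem quad {w : ℕ} {D : ℝ} (q : Gd G w D) (hw : 0 < w) {Y : Finset V} {u : V → ℝ}
    (hu : ∀ b ∈ Y, 0 ≤ u b) :
    (∑ b ∈ Y, u b) ^ 2 / w ≤ ∑ b ∈ Y, u b * ∑ c ∈ Y \ nb G Y b, u c := by
  have h1 := zyk (j := 0) (fun K _ hK => q.clq K hK) hw hu
  have h2 := two_P2 (G := G) Y u
  have h3 := choose_two_sq hw (∑ b ∈ Y, u b)
  simp only [zero_add] at h1
  linarith

theorem sum_xx (w : ℕ) (Y : Finset V) : ∑ y ∈ Y, xx G w Y y = Mx G Y - (Y.card : ℝ) ^ 2 / w := by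
  simp only [xx, sum_sub_distrib, sum_const, nsmul_eq_mul, Mx]
  ring

theorem xx_nonneg {w : ℕ} {D : ℝ} (q : Gd G w D) (hw : 0 < w) (Y : Finset V) :
    0 ≤ ∑ y ∈ Y, xx G w Y y := by
  have := quad q hw (Y := Y) (u := fun _ => 1) fun _ _ => zero_le_one
  rw [sum_xx, Mx]
  simpa using this

theorem lemV {w : ℕ} {D a : ℝ} (q : Gd G w D) (hw : 0 < w) (ha : 0 < a) {Y : Finset V}
    (hY : ∀ y ∈ Y, ((Y \ nb G Y y).card : ℝ) ≤ a) :
    ∑ y ∈ Y, max (xx G w Y y) 0 ^ 2 ≤ a * ∑ y ∈ Y, xx G w Y y := by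
  set p : V → ℝ := fun y => max (xx G w Y y) 0 / a with hp
  set ν : V → ℝ := fun y => ((Y \ nb G Y y).card : ℝ) with hν
  set s : ℝ := (Y.card : ℝ) with hs
  set S := ∑ y ∈ Y, p y ^ 2 with hS
  have hw' : (0 : ℝ) < w := by exact_mod_cast hw
  have p1 : ∀ y ∈ Y, 0 ≤ 1 - p y := by
    intro y hy
    have : 0 ≤ s / w := by positivity
    have h2 := hY y hy
    rw [sub_nonneg, hp, div_le_one ha]
    exact max_le (by rw [xx]; linarith) ha.le
  have h1 := quad q hw p1
  have e1 : ∑ b ∈ Y, (1 - p b) = s - ∑ b ∈ Y, p b := by simp [sum_sub_distrib, hs]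
  have e2 : ∑ b ∈ Y, (1 - p b) * ∑ c ∈ Y \ nb G Y b, (1 - p c) ≤
      ∑ b ∈ Y, ν b - 2 * ∑ b ∈ Y, ν b * p b + ∑ b ∈ Y, ν b * p b ^ 2 := by
    have a1 := nn_symm (G := G) Y p
    have a2 := nn_symm (G := G) Y fun c => p c ^ 2
    have a3 : ∑ b ∈ Y, (1 - p b) * ∑ c ∈ Y \ nb G Y b, (1 - p c) ≤
        ∑ b ∈ Y, (ν b - ν b * p b + ν b * p b ^ 2 / 2 - ∑ c ∈ Y \ nb G Y b, p c +
          (∑ c ∈ Y \ nb G Y b, p c ^ 2) / 2) := by
      refine sum_le_sum fun b _ => ?_
      rw [mul_sum]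
      refine (sum_le_sum (g := fun c => (1 - p b + p b ^ 2 / 2) - p c + p c ^ 2 / 2)
        fun c _ => by nlinarith [sq_nonneg (p b - p c)]).trans (le_of_eq ?_)
      rw [sum_add_distrib, sum_sub_distrib, sum_const, nsmul_eq_mul,
        ← sum_div _ (fun c => p c ^ 2)]
      simp only [hν]
      ring
    refine a3.trans (le_of_eq ?_)
    simp only [sum_add_distrib, sum_sub_distrib, ← sum_div]
    rw [a1, a2]
    simp only [hν]
    ring
  have e3 : ∑ b ∈ Y, ν b * p b ^ 2 ≤ a * S := by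
    rw [hS, mul_sum]
    exact sum_le_sum fun b hb => mul_le_mul_of_nonneg_right (hY b hb) (sq_nonneg _)
  have e4 : ∑ b ∈ Y, ν b * p b - s / w * ∑ b ∈ Y, p b = a * S := by
    rw [hS, mul_sum, mul_sum, ← sum_sub_distrib]
    refine sum_congr rfl fun b _ => ?_
    have : ν b - s / w = xx G w Y b := rfl
    rw [← sub_mul, this]
    simp only [hp]
    rcases le_total (xx G w Y b) 0 with h | h
    · simp [max_eq_right h]
    · rw [max_eq_left h]; field_simp
  have e5 : ∑ y ∈ Y, max (xx G w Y y) 0 ^ 2 = a * (a * S) := by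
    rw [hS, mul_sum, mul_sum]
    refine sum_congr rfl fun b _ => ?_
    simp only [hp]
    field_simp
  have e6 : ∑ y ∈ Y, xx G w Y y = ∑ b ∈ Y, ν b - s ^ 2 / w := sum_xx w Y
  have e7 : s ^ 2 / w - 2 * (s / w * ∑ b ∈ Y, p b) ≤ (s - ∑ b ∈ Y, p b) ^ 2 / w := by
    have : 0 ≤ (∑ b ∈ Y, p b) ^ 2 / w := by positivity
    have h : (s - ∑ b ∈ Y, p b) ^ 2 / w =
        s ^ 2 / w - 2 * (s / w * ∑ b ∈ Y, p b) + (∑ b ∈ Y, p b) ^ 2 / w := by ring
    linarith
  rw [e1] at h1
  rw [e5]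
  exact mul_le_mul_of_nonneg_left (by linarith) ha.le

variable {j w m : ℕ} {N D h g C δ K η e : ℝ}

theorem Par.wp (p : Par j w m N D h g C δ K η e) : 0 < w := by have := p.wn; omega

theorem Clu.nn {η' : ℝ} {W Y : Finset V} (c : Clu G N D δ η' W Y) {y : V} (hy : y ∈ Y) :
    ((Y \ nb G Y y).card : ℝ) ≤ 3 * δ * N := by
  have := card_nn (G := G) Y y
  have := c.inn y hy
  have := c.up
  linarith

theorem lemC (p : Par j w m N D h g C δ K η e) (q : Gd G w D) {W Y : Finset V}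
    (c : Clu G N D δ η W Y) : ((cl G (j + 4) Y).card : ℝ) ≤
      (Y.card / N) ^ (j + 4) * g - 1.4 * h * ((∑ y ∈ Y, xx G w Y y) / N) := by
  set s : ℝ := (Y.card : ℝ) with hs
  set a := 3 * δ * N with ha
  set β := (s - ((j + 2 : ℕ) + 3) * a) ^ (j + 2) / (j + 2).factorial with hβ
  have hN := p.N0
  have hd := p.d0
  have hj : (0 : ℝ) ≤ j := Nat.cast_nonneg _
  have hf : (0 : ℝ) < (j + 2).factorial := by positivity
  set u := η + 3 * (j + 5) * δ with hu
  have hu1 : (j + 2) * u ≤ 1 / 20 := by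
    have := p.d1
    have := mul_le_mul_of_nonneg_left p.nd (show (0 : ℝ) ≤ j + 2 by linarith)
    have := mul_nonneg hj hd.le
    rw [hu]
    nlinarith
  have hu0 : 0 ≤ u := by have := p.n0; positivity
  have hu2 : u ≤ 1 / 20 := by nlinarith
  have hsu : (1 - u) * N ≤ s - ((j + 2 : ℕ) + 3) * a := by
    have := c.lo
    rw [hu, ha]
    push_cast
    linarith
  have h0 : 0 ≤ (1 - u) * N := mul_nonneg (by linarith) hN.le
  have pen : Pen (j + 2) β a s :=
    Or.inr ⟨by positivity, by linarith, by rw [hβ, mul_div_cancel₀ _ hf.ne']⟩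
  have h1 := zyk_pen (G := G) (B := Y) (x := fun _ => 1) pen (by positivity)
    (fun K _ hK => q.clq K hK) p.wp (fun _ _ => zero_le_one)
    (fun b hb => by simpa using c.nn hb) (by simp [hs])
  have h2 := two_P2 (G := G) Y fun _ => 1
  have h3 := choose_two_sq p.wp s
  have h4 := sum_xx (G := G) w Y
  have h5 := xx_nonneg q p.wp Y
  simp only [sum_const, nsmul_eq_mul, mul_one, one_mul] at h2
  change _ = s ^ 2 - Mx G Y at h2
  change P G (j + 4) _ _ - _ ≤ w.choose (j + 4) * (s / w) ^ (j + 4) - _ at h1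
  rw [P_card, p.gam] at h1
  have h6 : 2.8 * h / N ≤ β := by
    rw [hβ, div_le_div_iff₀ hN hf]
    have a1 : ((1 - u) * N) ^ (j + 2) ≤ _ := pow_le_pow_left₀ h0 hsu (j + 2)
    have a2 := one_add_mul_le_pow (a := -u) (by linarith) (j + 2)
    have a3 := p.hup
    have a4 : 0 < N ^ (j + 2) := pow_pos hN _
    have a5 : 0.95 * N ^ (j + 2) ≤ ((1 - u) * N) ^ (j + 2) := by
      rw [mul_pow]
      refine mul_le_mul_of_nonneg_right ?_ a4.le
      push_cast at a2
      rw [← sub_eq_add_neg] at a2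
      linarith
    have a6 := mul_le_mul_of_nonneg_right (a5.trans a1) hN.le
    rw [Nat.factorial_succ, pow_succ] at a3
    push_cast at a3
    have a7 := mul_pos hf p.h0
    nlinarith [mul_nonneg hj a7.le]
  have h7 := mul_le_mul_of_nonneg_right h6 h5
  have h8 : β * ∑ y ∈ Y, xx G w Y y = β * (2 * (w.choose 2 * (s / w) ^ 2)) -
      β * (2 * P G 2 Y fun _ => 1) := by rw [h2, h3, h4]; ring
  have h9 : 2.8 * h / N * ∑ y ∈ Y, xx G w Y y = 2 * (1.4 * h * ((∑ y ∈ Y, xx G w Y y) / N)) := by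
    ring
  linarith

theorem link (p : Par j w m N D h g C δ K η e) (q : Gd G w D) {A : Finset V} {v : V}
    (hA : ∀ u ∈ A, G.Adj v u) : ((cl G (j + 3) A).card : ℝ) ≤ h * (A.card / D) ^ (j + 3) := by
  have hw := p.wn
  have h1 := zyk (G := G) (j := j + 1) (r := w - 1) (B := A) (x := fun _ => 1) (fun K hK hc => by
    have hv : v ∉ K := fun h => (hA v (hK h)).ne rfl
    have := q.clq (insert v K) (by
      rw [coe_insert]
      exact hc.insert fun u hu _ => hA u (hK hu))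
    rw [card_insert_of_notMem hv] at this
    omega) (by omega) fun _ _ => zero_le_one
  rw [P_card] at h1
  refine h1.trans (le_of_eq ?_)
  have := p.m0
  have := p.w2
  have h2 : (w : ℝ) - 1 ≠ 0 := by linarith
  rw [p.hh, p.hD, p.w1c, mul_assoc, ← mul_pow]
  simp only [sum_const, nsmul_eq_mul, mul_one]
  congr 2
  field_simp

theorem link_nb (p : Par j w m N D h g C δ K η e) (q : Gd G w D) (B : Finset V) (v : V) :
    ((cl G (j + 3) (nb G B v)).card : ℝ) ≤ h * ((nb G B v).card / D) ^ (j + 3) :=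
  link p q fun _ hu => (mem_nb.1 hu).2

theorem rho_le (p : Par j w m N D h g C δ K η e) (q : Gd G w D) (B : Finset V) (v : V) :
    0 ≤ ((nb G B v).card : ℝ) / D ∧ ((nb G B v).card : ℝ) / D ≤ 1 :=
  ⟨div_nonneg (Nat.cast_nonneg _) p.D0.le, (div_le_one p.D0).2 (q.deg B v)⟩

theorem q_le (p : Par j w m N D h g C δ K η e) (q : Gd G w D) (B : Finset V) (v : V) :
    ((cl G (j + 3) (nb G B v)).card : ℝ) ≤ h :=
  (link_nb p q B v).trans (mul_le_of_le_one_right p.h0.le
    (pow_le_one₀ (rho_le p q B v).1 (rho_le p q B v).2))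

theorem high_spot (p : Par j w m N D h g C δ K η e) (q : Gd G w D) {W : Finset V} {v : V}
    (hq : (1 - e) * h < (cl G (j + 3) (nb G W v)).card) : Spot G N (2 * e) (nb G W v) := by
  set X := nb G W v with hX
  have hN := p.N0
  have hXD : (X.card : ℝ) ≤ D := q.deg W v
  have hXN := hXD.trans p.DN
  have he := p.e0
  refine ⟨?_, hXN, ?_⟩
  · have h1 := link_nb p q W v
    have h2 := rho_le p q W v
    have h3 : ((X.card : ℝ) / D) ^ (j + 3) ≤ X.card / D := pow_le_of_le_one h2.1 h2.2 (by omega)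
    have h4 := hq.trans_le (h1.trans (mul_le_mul_of_nonneg_left h3 p.h0.le))
    rw [mul_comm, mul_lt_mul_iff_right₀ p.h0, lt_div_iff₀ p.D0] at h4
    have := p.ND
    have := p.mN
    have := p.m0
    nlinarith
  · have h1 := P_succ (G := G) (j + 2) X fun _ => 1
    have hf : (0 : ℝ) < (j + 2).factorial := by positivity
    have h2 : ((j + 3).factorial : ℝ) * (cl G (j + 3) X).card ≤
        N ^ (j + 1) * ((X.card : ℝ) ^ 2 - Mx G X) := by
      rw [Nat.factorial_succ, Nat.cast_mul, mul_right_comm, ← P_card, Nat.cast_succ, h1, sum_mul]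
      have : (X.card : ℝ) ^ 2 - Mx G X = ∑ x ∈ X, ((nb G X x).card : ℝ) := by
        rw [Mx, sub_eq_iff_eq_add, ← sum_add_distrib,
          sum_congr rfl fun x _ => (add_comm _ _).trans (card_nn (G := G) X x)]
        simp [sq]
      rw [this, mul_sum]
      refine sum_le_sum fun x _ => ?_
      have a1 := P_upper (G := G) (x := fun _ => 1) (j + 2) (nb G X x) fun _ _ => zero_le_one
      simp only [sum_const, nsmul_eq_mul, mul_one] at a1
      have a2 : ((nb G X x).card : ℝ) ^ (j + 1) ≤ N ^ (j + 1) :=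
        pow_le_pow_left₀ (Nat.cast_nonneg _) ((q.deg X x).trans p.DN) _
      have a3 := mul_le_mul_of_nonneg_right a2 (Nat.cast_nonneg (α := ℝ) (nb G X x).card)
      rw [pow_succ] at a1
      linarith
    have h3 := p.hlo
    have h4 : (X.card : ℝ) ^ 2 ≤ N ^ 2 := pow_le_pow_left₀ (Nat.cast_nonneg _) hXN 2
    have h5 := mul_le_mul_of_nonneg_left hq.le (Nat.cast_nonneg (α := ℝ) (j + 3).factorial)
    have h6 : 0 ≤ 1 - e := by have := p.e1; have := p.d3; linarith
    have h7 := mul_le_mul_of_nonneg_left h3 h6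
    have h8 : 0 < N ^ (j + 1) := pow_pos hN _
    have h9 : N ^ (j + 1) * ((1 - e) * (1 - e) * N ^ 2) ≤ N ^ (j + 1) * (N ^ 2 - Mx G X) := by
      have := mul_le_mul_of_nonneg_left (show (X.card : ℝ) ^ 2 - Mx G X ≤ N ^ 2 - Mx G X by
        linarith) h8.le
      have e : N ^ (j + 3) = N ^ (j + 1) * N ^ 2 := by ring
      rw [e] at h7
      linarith
    have := le_of_mul_le_mul_left h9 h8
    nlinarith [mul_nonneg (sq_nonneg e) (sq_nonneg N)]

theorem spot_clu (p : Par j w m N D h g C δ K η e) (q : Gd G w D) {W X : Finset V} (hX : X ⊆ W)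
    {ε η' : ℝ} (h0 : 0 ≤ ε) (h1 : 4 * ε ≤ δ ^ 2) (h2 : 3 * ε ≤ δ * η') (hs : Spot G N ε X) :
    ∃ Y, Clu G N D δ η' W Y ∧ ∀ y ∈ Y, (1 - δ) * N ≤ (nb G X y).card := by
  classical
  obtain ⟨s1, s2, s3⟩ := hs
  set Y := W.filter fun u => (1 - δ) * N ≤ (nb G X u).card with hY
  have hN := p.N0
  have hd := p.d0
  have hd3 := p.d3
  have hεδ : 2 * ε ≤ δ := by nlinarith
  have a1 : δ * ((X \ Y).card : ℝ) ≤ 2 * ε * N := by
    have b1 : ∑ x ∈ X \ Y, δ * N / 2 ≤ Mx G X := by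
      refine sum_sdiff_le (fun x hx => ?_) fun _ _ => Nat.cast_nonneg _
      obtain ⟨x1, x2⟩ := mem_sdiff.1 hx
      have : ((nb G X x).card : ℝ) < (1 - δ) * N :=
        not_le.1 fun h => x2 (mem_filter.2 ⟨hX x1, h⟩)
      have := card_nn (G := G) X x
      nlinarith
    rw [sum_const, nsmul_eq_mul] at b1
    refine le_of_mul_le_mul_right ?_ hN
    nlinarith
  have a2 : δ * ((Y \ X).card : ℝ) ≤ 2 * ε * N := by
    have b1 : ∑ u ∈ Y \ X, δ * N ≤ ∑ u ∈ Y \ X, ((nb G X u).card : ℝ) * 1 := by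
      refine sum_le_sum fun u hu => ?_
      have := (mem_filter.1 (mem_sdiff.1 hu).1).2
      nlinarith
    rw [← nb_symm, sum_const, nsmul_eq_mul] at b1
    have b2 : ∑ b ∈ X, ∑ _c ∈ nb G (Y \ X) b, (1 : ℝ) ≤
        ∑ b ∈ X, (ε * N + ((X \ nb G X b).card : ℝ)) := by
      refine sum_le_sum fun b _ => ?_
      have c1 := q.deg (X ∪ Y \ X) b
      have c2 : nb G (X ∪ Y \ X) b = nb G X b ∪ nb G (Y \ X) b := by
        ext u
        simp only [mem_nb, mem_union]
        tauto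
      rw [c2, card_union_of_disjoint (disjoint_sdiff.mono (nb_subset _ _) (nb_subset _ _))] at c1
      have := card_nn (G := G) X b
      have := p.DN
      push_cast at c1
      simp only [sum_const, nsmul_eq_mul, mul_one]
      linarith
    rw [sum_add_distrib, sum_const, nsmul_eq_mul] at b2
    change _ ≤ _ + Mx G X at b2
    have := mul_le_mul_of_nonneg_right s2 (mul_nonneg h0 hN.le)
    refine le_of_mul_le_mul_right ?_ hN
    nlinarith
  have a3 : ((X \ Y).card : ℝ) ≤ δ / 2 * N := le_of_mul_le_mul_left (by nlinarith) hd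
  have a4 : ((Y \ X).card : ℝ) ≤ δ / 2 * N := le_of_mul_le_mul_left (by nlinarith) hd
  have key : ∀ (A B : Finset V) (u : V),
      ((nb G A u).card : ℝ) ≤ (nb G B u).card + (A \ B).card := by
    intro A B u
    have : nb G A u ⊆ nb G B u ∪ A \ B := by
      intro z hz
      simp only [mem_nb, mem_union, mem_sdiff] at hz ⊢
      tauto
    exact_mod_cast (card_le_card this).trans (card_union_le _ _)
  refine ⟨Y, ⟨filter_subset _ _, ?_, ?_, fun y hy => ?_, fun z hz => ?_⟩,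
    fun y hy => (mem_filter.1 hy).2⟩
  · have b1 : (X.card : ℝ) ≤ (X \ Y).card + Y.card := by exact_mod_cast card_le_card_sdiff_add_card
    refine le_of_mul_le_mul_left ?_ hd
    have := mul_le_mul_of_nonneg_left (s1.trans b1) hd.le
    have := mul_le_mul_of_nonneg_right h2 hN.le
    have := mul_nonneg h0 hN.le
    nlinarith
  · have b1 : (Y.card : ℝ) ≤ (Y \ X).card + X.card := by exact_mod_cast card_le_card_sdiff_add_card
    nlinarith
  · have := (mem_filter.1 hy).2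
    have := key X Y y
    nlinarith
  · obtain ⟨z1, z2⟩ := mem_sdiff.1 hz
    have : ((nb G X z).card : ℝ) < (1 - δ) * N := not_le.1 fun h => z2 (mem_filter.2 ⟨z1, h⟩)
    have := key Y X z
    have := p.ND
    have := p.mN
    have := p.m0
    have := mul_le_mul_of_nonneg_right p.e1 hN.le
    nlinarith

end Pool.Agent.GLT
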