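import Pool.Agent.P.MP_dfe42f_co.GlI

/-! Cliques meeting a padded cluster. -/

namespace Pool.Agent.GLT
open Finset

variable {V : Type} [DecidableEq V] {G : SimpleGraph V}

/-- cliques with a vertex in `Y` and two vertices outside -/
noncomputable def Js (G : SimpleGraph V) (t : ℕ) (W Y : Finset V) : Finset (Finset V) :=
  (cl G t W).filter fun K => ¬ Disjoint K Y ∧ 2 ≤ (K \ Y).card

theorem mt_decomp (j : ℕ) {W Y Z : Finset V} (hZ : Z ⊆ W \ Y) :
    ((mt G (j + 1) W (Y ∪ Z)).card : ℝ) ≤ (cl G (j + 1) Y).card +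
      ∑ z ∈ W \ Y, ((cl G j (nb G Y z)).card : ℝ) + (Js G (j + 1) W Y).card +
      ∑ z ∈ Z, ((cl G j (nb G (W \ Y) z)).card : ℝ) := by
  have hsub : mt G (j + 1) W (Y ∪ Z) ⊆ cl G (j + 1) Y ∪
      ((W \ Y).biUnion fun z => (cl G (j + 1) (insert z Y)).filter fun K => z ∈ K) ∪
      Js G (j + 1) W Y ∪ Z.biUnion fun z => (cl G (j + 1) (W \ Y)).filter fun K => z ∈ K := by
    intro K hK
    obtain ⟨hK1, hK2⟩ := mem_filter.1 hK
    obtain ⟨k1, k2, k3⟩ := mem_cl.1 hK1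
    simp only [mem_union, mem_biUnion]
    by_cases h1 : Disjoint K Y
    · rw [disjoint_union_right, not_and] at hK2
      obtain ⟨z, z1, z2⟩ := not_disjoint_iff.1 (hK2 h1)
      exact Or.inr ⟨z, z2, mem_filter.2 ⟨mem_cl.2 ⟨subset_sdiff.2 ⟨k1, h1⟩, k2, k3⟩, z1⟩⟩
    by_cases h2 : 2 ≤ (K \ Y).card
    · exact Or.inl (Or.inr (mem_filter.2 ⟨hK1, h1, h2⟩))
    refine Or.inl (Or.inl ?_)
    rcases (K \ Y).eq_empty_or_nonempty with h | ⟨z, hz⟩
    · exact Or.inl (mem_cl.2 ⟨sdiff_eq_empty_iff_subset.1 h, k2, k3⟩)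
    · refine Or.inr ⟨z, mem_sdiff.2 ⟨k1 (mem_sdiff.1 hz).1, (mem_sdiff.1 hz).2⟩,
        mem_filter.2 ⟨mem_cl.2 ⟨fun u hu => ?_, k2, k3⟩, (mem_sdiff.1 hz).1⟩⟩
      by_cases huY : u ∈ Y
      · exact mem_insert_of_mem huY
      · rw [card_le_one.1 (by omega : (K \ Y).card ≤ 1) u (mem_sdiff.2 ⟨hu, huY⟩) z hz]
        exact mem_insert_self _ _
  have h1 := (card_le_card hsub).trans ((card_union_le _ _).trans (Nat.add_le_add
    ((card_union_le _ _).trans (Nat.add_le_add ((card_union_le _ _).trans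
      (Nat.add_le_add le_rfl card_biUnion_le)) le_rfl)) card_biUnion_le))
  rw [sum_congr rfl fun z _ => card_cl_mem (mem_insert_self z Y),
    sum_congr rfl fun z hz => card_cl_mem (hZ hz)] at h1
  simp only [nb_insert_self] at h1
  exact_mod_cast h1

theorem cr_le {j : ℕ} {W Y : Finset V} (hY : Y ⊆ W) (z : V) :
    ((cl G (j + 1) (nb G Y z)).card : ℝ) + (cl G (j + 1) (nb G (W \ Y) z)).card ≤
      (cl G (j + 1) (nb G W z)).card := by
  have hd : Disjoint (cl G (j + 1) (nb G Y z)) (cl G (j + 1) (nb G (W \ Y) z)) := by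
    rw [disjoint_left]
    intro K h1 h2
    obtain ⟨u, hu⟩ : K.Nonempty := by rw [← card_pos, (mem_cl.1 h1).2.1]; omega
    exact (mem_sdiff.1 (nb_subset _ _ ((mem_cl.1 h2).1 hu))).2 (nb_subset _ _ ((mem_cl.1 h1).1 hu))
  have := card_le_card (union_subset (cl_mono (G := G) (nb_mono (G := G) hY z) (j + 1))
    (cl_mono (nb_mono (G := G) (sdiff_subset (s := W) (t := Y)) z) (j + 1)))
  rw [card_union_of_disjoint hd] at this
  exact_mod_cast this

theorem nb_split {W Y : Finset V} (hY : Y ⊆ W) (z : V) :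
    ((nb G Y z).card : ℝ) + (nb G (W \ Y) z).card = (nb G W z).card := by
  have : nb G W z = nb G Y z ∪ nb G (W \ Y) z := by
    ext u
    simp only [mem_nb, mem_union, mem_sdiff]
    have := @hY u
    tauto
  rw [this, card_union_of_disjoint (disjoint_sdiff.mono (nb_subset _ _) (nb_subset _ _))]
  simp

theorem sum_q_le (j : ℕ) {W Y : Finset V} (hY : Y ⊆ W) :
    ∑ y ∈ Y, ((cl G j (nb G W y)).card : ℝ) ≤ (j + 1) * (mt G (j + 1) W Y).card := by
  have : ∑ y ∈ Y, (cl G j (nb G W y)).card ≤ (mt G (j + 1) W Y).card * (j + 1) := by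
    rw [← sum_congr rfl fun y hy => card_cl_mem (hY hy)]
    simp only [card_filter]
    rw [sum_comm, mt, card_filter, sum_mul]
    refine sum_le_sum fun K hK => ?_
    rw [← card_filter]
    split_ifs with h
    · rw [zero_mul, Nat.le_zero, card_eq_zero, filter_eq_empty_iff]
      exact fun y hy hk => disjoint_left.1 h hk hy
    · rw [one_mul, ← (mem_cl.1 hK).2.1]
      exact card_le_card fun y hy => (mem_filter.1 hy).2
  rw [mul_comm]
  exact_mod_cast this

theorem Js_le (j : ℕ) {W Y : Finset V} {N : ℝ} (hY : Y ⊆ W)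
    (hN : ∀ y, ((nb G W y).card : ℝ) ≤ N) : ((Js G (j + 4) W Y).card : ℝ) ≤
      N ^ j * ∑ y ∈ Y, ((nb G (W \ Y) y).card : ℝ) *
        ∑ z ∈ nb G (W \ Y) y, ((nb G (nb G W y) z).card : ℝ) := by
  set F : Finset V → Finset (Finset V) := fun S =>
    ((cl G (j + 4) W).filter fun _ => S.card = 4).filter fun A => S ⊆ A with hF
  have hsub : Js G (j + 4) W Y ⊆ Y.biUnion fun y => (nb G (W \ Y) y).biUnion fun z =>
      (nb G (W \ Y) y).biUnion fun z' => (nb G (nb G W y) z).biUnion fun u =>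
        F (insert u {y, z, z'}) := by
    intro K hK
    obtain ⟨hK1, hK2, hK3⟩ := mem_filter.1 hK
    obtain ⟨k1, k2, k3⟩ := mem_cl.1 hK1
    obtain ⟨y, y1, y2⟩ := not_disjoint_iff.1 hK2
    obtain ⟨z, hz, z', hz', hzz⟩ := one_lt_card.1 hK3
    obtain ⟨z1, z2⟩ := mem_sdiff.1 hz
    obtain ⟨z3, z4⟩ := mem_sdiff.1 hz'
    have yz : y ≠ z := fun h => z2 (h ▸ y2)
    have yz' : y ≠ z' := fun h => z4 (h ▸ y2)
    have c3 : ({y, z, z'} : Finset V).card = 3 := card_eq_three.2 ⟨y, z, z', yz, yz', hzz, rfl⟩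
    obtain ⟨u, u1, u2⟩ : ∃ u ∈ K, u ∉ ({y, z, z'} : Finset V) :=
      exists_mem_notMem_of_card_lt_card (by omega)
    have u3 := u2
    simp only [mem_insert, mem_singleton, not_or] at u3
    simp only [mem_biUnion]
    refine ⟨y, y2, z, mem_nb.2 ⟨mem_sdiff.2 ⟨k1 z1, z2⟩, k3 y1 z1 yz⟩, z',
      mem_nb.2 ⟨mem_sdiff.2 ⟨k1 z3, z4⟩, k3 y1 z3 yz'⟩, u,
      mem_nb.2 ⟨mem_nb.2 ⟨k1 u1, k3 y1 u1 (Ne.symm u3.1)⟩, k3 z1 u1 (Ne.symm u3.2.1)⟩,
      mem_filter.2 ⟨mem_filter.2 ⟨hK1, by rw [card_insert_of_notMem u2, c3]⟩, ?_⟩⟩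
    simp [insert_subset_iff, y1, z1, z3, u1]
  have hc : ∀ y z z' u, ((F (insert u {y, z, z'})).card : ℝ) ≤ N ^ j := by
    intro y z z' u
    have h1 : cnt ((cl G (j + 4) W).filter fun _ => (insert u {y, z, z'} : Finset V).card = 4)
        (insert u {y, z, z'}) ≤ (nb G W y).card.choose j := by
      refine cnt_le fun A hA hS => ?_
      obtain ⟨a1, a2⟩ := mem_filter.1 hA
      obtain ⟨k1, k2, k3⟩ := mem_cl.1 a1
      refine ⟨fun v hv => ?_, by rw [a2, k2]⟩
      obtain ⟨v1, v2⟩ := mem_sdiff.1 hv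
      refine mem_nb.2 ⟨k1 v1, k3 (hS (by simp)) v1 ?_⟩
      rintro rfl
      simp at v2
    have h2 : ((F (insert u {y, z, z'})).card : ℝ) ≤ ((nb G W y).card : ℝ) ^ j := by
      exact_mod_cast h1.trans (Nat.choose_le_pow _ _)
    exact h2.trans (pow_le_pow_left₀ (Nat.cast_nonneg _) (hN y) j)
  have cb : ∀ (s : Finset V) (f : V → Finset (Finset V)),
      ((s.biUnion f).card : ℝ) ≤ ∑ a ∈ s, ((f a).card : ℝ) := fun s f => by
    exact_mod_cast card_biUnion_le
  refine le_trans (Nat.cast_le.2 (card_le_card hsub)) ((cb _ _).trans ?_)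
  rw [mul_sum]
  refine sum_le_sum fun y _ => (cb _ _).trans ?_
  rw [mul_sum, mul_sum]
  refine sum_le_sum fun z _ => (cb _ _).trans ?_
  refine (sum_le_sum (g := fun _ => ((nb G (nb G W y) z).card : ℝ) * N ^ j) fun z' _ =>
    (cb _ _).trans ((sum_le_sum fun u _ => hc y z z' u).trans (by simp))).trans (le_of_eq ?_)
  rw [sum_const, nsmul_eq_mul]
  ring

variable {j w m : ℕ} {N D h g C δ K η e : ℝ}

theorem o_le (p : Par j w m N D h g C δ K η e) (q : Gd G w D) {W Y : Finset V} (hY : Y ⊆ W)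
    (y : V) : ((nb G (W \ Y) y).card : ℝ) ≤ (N - Y.card) * (D / N) + xx G w Y y := by
  have h1 := nb_split (G := G) hY y
  have h2 := q.deg W y
  have h3 := card_nn (G := G) Y y
  have h4 : (N - Y.card) * (D / N) = D - Y.card + Y.card / w := by
    have := p.m0
    have := p.w2
    rw [p.hN, p.hD]
    field_simp
    ring
  rw [xx]
  linarith

theorem sum_rho (p : Par j w m N D h g C δ K η e) (q : Gd G w D) {W Y : Finset V} (hY : Y ⊆ W) :
    ∑ z ∈ W \ Y, ((nb G Y z).card : ℝ) / D ≤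
      Y.card / N * (N - Y.card) + 1.01 * ((∑ y ∈ Y, xx G w Y y) / N) := by
  have h1 := nb_symm (G := G) Y (W \ Y) fun _ => 1
  simp only [sum_const, nsmul_eq_mul, mul_one] at h1
  have h2 := sum_le_sum fun y (_ : y ∈ Y) => o_le p q hY y
  rw [h1, sum_add_distrib, sum_const, nsmul_eq_mul] at h2
  have h3 := xx_nonneg q p.wp Y
  have hD := p.D0
  have hN := p.N0
  rw [← sum_div, div_le_iff₀ hD]
  have h4 : ∑ y ∈ Y, xx G w Y y ≤ 1.01 * ((∑ y ∈ Y, xx G w Y y) / N) * D := by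
    rw [← mul_div_assoc, div_mul_eq_mul_div, le_div_iff₀ hN]
    nlinarith [mul_le_mul_of_nonneg_left p.ND1 h3]
  have h5 : (Y.card : ℝ) * ((N - Y.card) * (D / N)) = Y.card / N * (N - Y.card) * D := by ring
  linarith

theorem J_bound (p : Par j w m N D h g C δ K η e) (q : Gd G w D) {W Y : Finset V}
    (c : Clu G N D δ η W Y) {k : ℝ} (k0 : 0 ≤ k) (k1 : N - Y.card ≤ k) (k2 : Y.card * k ≤ N * k) :
    ((Js G (j + 4) W Y).card : ℝ) ≤ C * h * (8 * k * (k / N) ^ 2 +
      2 * (k / N) * ∑ z ∈ W \ Y, (((nb G Y z).card : ℝ) / D) ^ 2 +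
      12 * δ * ((∑ y ∈ Y, xx G w Y y) / N)) := by
  have hN := p.N0
  have hD := p.D0
  have hd := p.d0
  have h1 := Js_le (G := G) j c.sub fun y => (q.deg W y).trans p.DN
  have h2 : ∀ y ∈ Y, ((nb G (W \ Y) y).card : ℝ) *
      ∑ z ∈ nb G (W \ Y) y, ((nb G (nb G W y) z).card : ℝ) ≤ 8 * k ^ 3 +
        2 * k * ∑ z ∈ nb G (W \ Y) y, ((nb G Y z).card : ℝ) + 4 * N * max (xx G w Y y) 0 ^ 2 := by
    intro y _
    set o : ℝ := ((nb G (W \ Y) y).card : ℝ) with ho
    have o0 : 0 ≤ o := Nat.cast_nonneg _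
    have e0 : 0 ≤ ∑ z ∈ nb G (W \ Y) y, ((nb G Y z).card : ℝ) :=
      sum_nonneg fun _ _ => Nat.cast_nonneg _
    have x0 : 0 ≤ max (xx G w Y y) 0 := le_max_right _ _
    have a1 : o ≤ k + max (xx G w Y y) 0 := by
      have b1 := o_le p q c.sub y
      have b2 := le_max_left (xx G w Y y) 0
      have b3 := mul_le_mul_of_nonneg_right k1 (div_pos hD hN).le
      have b4 := mul_le_mul_of_nonneg_left ((div_le_one hN).2 p.DN) k0
      linarith
    rcases le_total o (2 * k) with hc | hc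
    · have b1 : ∑ z ∈ nb G (W \ Y) y, ((nb G (nb G W y) z).card : ℝ) ≤
          ∑ z ∈ nb G (W \ Y) y, (o + ((nb G Y z).card : ℝ)) := by
        refine sum_le_sum fun z _ => ?_
        have : nb G (nb G W y) z ⊆ nb G (W \ Y) y ∪ nb G Y z := by
          intro u hu
          simp only [mem_nb, mem_union, mem_sdiff] at hu ⊢
          tauto
        rw [ho]
        exact_mod_cast (card_le_card this).trans (card_union_le _ _)
      rw [sum_add_distrib, sum_const, nsmul_eq_mul, ← ho] at b1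
      have b2 : o * o ≤ 2 * k * (2 * k) := mul_le_mul hc hc o0 (by linarith)
      have b3 := mul_le_mul hc (b1.trans (add_le_add b2 le_rfl))
        (sum_nonneg fun _ _ => Nat.cast_nonneg _) (by linarith)
      have : 0 ≤ 4 * N * max (xx G w Y y) 0 ^ 2 := by positivity
      nlinarith
    · have b1 : ∑ z ∈ nb G (W \ Y) y, ((nb G (nb G W y) z).card : ℝ) ≤ o * N := by
        refine (sum_le_sum (g := fun _ => N) fun z _ => (q.deg _ z).trans p.DN).trans ?_
        simp [ho]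
      have b2 : o ≤ 2 * max (xx G w Y y) 0 := by linarith
      have b3 := mul_le_mul_of_nonneg_right (mul_le_mul b2 b2 o0 (by linarith)) hN.le
      have b4 := mul_le_mul_of_nonneg_left b1 o0
      have : 0 ≤ 8 * k ^ 3 := by positivity
      have := mul_nonneg k0 e0
      nlinarith
  have h3 := sum_le_sum h2
  rw [sum_add_distrib, sum_add_distrib, sum_const, nsmul_eq_mul, ← mul_sum, ← mul_sum,
    nb_symm] at h3
  have h4 := lemV q p.wp (by positivity) fun y hy => c.nn hy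
  set R := ∑ z ∈ W \ Y, (((nb G Y z).card : ℝ) / D) ^ 2 with hR
  set X := ∑ y ∈ Y, xx G w Y y with hX
  have X0 : 0 ≤ X := xx_nonneg q p.wp Y
  have R0 : 0 ≤ R := sum_nonneg fun _ _ => sq_nonneg _
  have h5 : ∑ z ∈ W \ Y, ((nb G Y z).card : ℝ) * (nb G Y z).card ≤ N ^ 2 * R := by
    rw [hR, mul_sum]
    refine sum_le_sum fun z _ => ?_
    have : D ^ 2 ≤ N ^ 2 := pow_le_pow_left₀ hD.le p.DN 2
    have := mul_le_mul_of_nonneg_right this (sq_nonneg (((nb G Y z).card : ℝ) / D))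
    refine le_trans (le_of_eq ?_) this
    field_simp
  have h6 := mul_le_mul_of_nonneg_left h5 (show 0 ≤ 2 * k by linarith)
  have h7 := mul_le_mul_of_nonneg_left h4 (show 0 ≤ 4 * N by linarith)
  have h8 := mul_le_mul_of_nonneg_right k2 (show 0 ≤ 8 * k ^ 2 by positivity)
  have h9 : N ^ 3 * (8 * k * (k / N) ^ 2 + 2 * (k / N) * R + 12 * δ * (X / N)) =
      N * k * (8 * k ^ 2) + 2 * k * (N ^ 2 * R) + 4 * N * (3 * δ * N * X) := by
    field_simp
    ring
  have h10 := mul_le_mul_of_nonneg_left (h3.trans (show _ ≤ N ^ 3 * (8 * k * (k / N) ^ 2 +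
    2 * (k / N) * R + 12 * δ * (X / N)) by rw [h9]; nlinarith)) (pow_pos hN j).le
  refine h1.trans (h10.trans ?_)
  rw [← mul_assoc, ← pow_add]
  exact mul_le_mul_of_nonneg_right p.hC' (add_nonneg (add_nonneg (by positivity)
    (mul_nonneg (by positivity) R0)) (mul_nonneg (by positivity) (div_nonneg X0 hN.le)))

end Pool.Agent.GLT
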