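import Pool.Agent.P.MP_dfe42f_co.GlJ

/-! The estimates for a padded cluster. -/

namespace Pool.Agent.GLT
open Finset

variable {V : Type} [DecidableEq V] {G : SimpleGraph V}

theorem exists_top (U : Finset V) (f : V → ℝ) (k : ℕ) (hk : k ≤ U.card) :
    ∃ Z ⊆ U, Z.card = k ∧ ∀ a ∈ Z, ∀ b ∈ U \ Z, f b ≤ f a := by
  induction k with
  | zero => exact ⟨∅, empty_subset _, rfl, by simp⟩
  | succ k ih =>
    obtain ⟨Z, h1, h2, h3⟩ := ih (by omega)
    have hne : (U \ Z).Nonempty := by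
      rw [← card_pos]
      have := card_sdiff_add_card_eq_card h1
      omega
    obtain ⟨v, hv, hmax⟩ := exists_max_image _ f hne
    refine ⟨insert v Z, insert_subset (mem_sdiff.1 hv).1 h1,
      by rw [card_insert_of_notMem (mem_sdiff.1 hv).2, h2], fun a ha b hb => ?_⟩
    have hb' : b ∈ U \ Z :=
      mem_sdiff.2 ⟨(mem_sdiff.1 hb).1, fun h => (mem_sdiff.1 hb).2 (mem_insert_of_mem h)⟩
    rcases mem_insert.1 ha with rfl | ha
    · exact hmax b hb'
    · exact h3 a ha b hb'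

theorem exists_avg (U : Finset V) (f : V → ℝ) (k : ℕ) (hk : k ≤ U.card) :
    ∃ Z ⊆ U, Z.card = k ∧ k * ∑ a ∈ U, f a ≤ U.card * ∑ a ∈ Z, f a := by
  obtain ⟨Z, h1, h2, h3⟩ := exists_top U f k hk
  refine ⟨Z, h1, h2, ?_⟩
  have h4 : ∑ _a ∈ Z, ∑ b ∈ U \ Z, f b ≤ ∑ a ∈ Z, ∑ _b ∈ U \ Z, f a :=
    sum_le_sum fun a ha => sum_le_sum fun b hb => h3 a ha b hb
  simp only [sum_const, nsmul_eq_mul, ← mul_sum, h2] at h4
  have h5 : ((U \ Z).card : ℝ) + k = U.card := by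
    rw [← h2]
    exact_mod_cast card_sdiff_add_card_eq_card h1
  rw [← sum_sdiff h1, ← h5]
  linarith

/-- share of the degree sent into `Y` -/
noncomputable def rho (G : SimpleGraph V) (D : ℝ) (Y : Finset V) (z : V) : ℝ :=
  ((nb G Y z).card : ℝ) / D

/-- cliques through `z` with all other vertices in `B` -/
noncomputable def qq (G : SimpleGraph V) (j : ℕ) (B : Finset V) (z : V) : ℝ :=
  ((cl G (j + 3) (nb G B z)).card : ℝ)

/-- normalised number of missing edges -/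
noncomputable def Xn (G : SimpleGraph V) (w : ℕ) (N : ℝ) (Y : Finset V) : ℝ :=
  (∑ y ∈ Y, xx G w Y y) / N

/-- a set of `N` vertices meeting few cliques -/
def Done (G : SimpleGraph V) (j n : ℕ) (g : ℝ) (W : Finset V) : Prop :=
  ∃ S ⊆ W, S.card = n ∧ ((mt G (j + 4) W S).card : ℝ) ≤ g

variable {j w m : ℕ} {N D h g C δ K η e : ℝ} {W Y Z : Finset V}

theorem Xn_nonneg (p : Par j w m N D h g C δ K η e) (q : Gd G w D) (Y : Finset V) :
    0 ≤ Xn G w N Y := div_nonneg (xx_nonneg q p.wp Y) p.N0.le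

theorem master (p : Par j w m N D h g C δ K η e) (q : Gd G w D) (c : Clu G N D δ η W Y)
    (hZ : Z ⊆ W \ Y) {k : ℝ} (k0 : 0 ≤ k) (k1 : N - Y.card ≤ k) (k2 : Y.card * k ≤ N * k) :
    ((mt G (j + 4) W (Y ∪ Z)).card : ℝ) ≤ (Y.card / N) ^ (j + 4) * g +
      ∑ z ∈ W \ Y, qq G j Y z + ∑ z ∈ Z, qq G j (W \ Y) z + h * (C * (8 * k * (k / N) ^ 2 +
        2 * (k / N) * ∑ z ∈ W \ Y, rho G D Y z ^ 2) - 1.34 * Xn G w N Y) := by
  have h1 := mt_decomp (G := G) (j + 3) hZ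
  have h2 := lemC p q c
  have h3 := J_bound p q c k0 k1 k2
  have h4 := mul_le_mul_of_nonneg_right p.d2 (mul_nonneg p.h0.le (Xn_nonneg p q Y))
  unfold qq rho Xn at *
  change ((mt G (j + 4) W (Y ∪ Z)).card : ℝ) ≤ (cl G (j + 4) Y).card + _ +
    (Js G (j + 4) W Y).card + _ at h1
  nlinarith

theorem qq_le (p : Par j w m N D h g C δ K η e) (q : Gd G w D) (B : Finset V) (z : V) {i : ℕ}
    (hi : i ≤ 3) : qq G j B z ≤ h * rho G D B z ^ i :=
  (link_nb p q B z).trans (mul_le_mul_of_nonneg_left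
    (pow_le_pow_of_le_one (rho_le p q B z).1 (rho_le p q B z).2 (by omega)) p.h0.le)

theorem qq_out (p : Par j w m N D h g C δ K η e) (q : Gd G w D) (hY : Y ⊆ W) (z : V) :
    qq G j (W \ Y) z ≤ h * (1 - rho G D Y z) ^ 3 := by
  refine (qq_le p q _ z le_rfl).trans (mul_le_mul_of_nonneg_left
    (pow_le_pow_left₀ (rho_le p q _ z).1 ?_ 3) p.h0.le)
  have h1 := nb_split (G := G) hY z
  have h2 := q.deg W z
  rw [rho, le_sub_iff_add_le, ← add_div, div_le_one p.D0]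
  linarith

theorem cube_le {r δ : ℝ} (h0 : 0 ≤ r) (hd : 0 ≤ δ) (h1 : r ≤ 1 - δ / 4) :
    r ^ 2 + (1 - r) ^ 3 ≤ 1 - δ / 2 * r := by
  nlinarith [mul_nonneg h0 (sq_nonneg (1 - r)), mul_nonneg h0 (sub_nonneg.2 h1)]

theorem Clu.rho_le {η' : ℝ} (p : Par j w m N D h g C δ K η e) (c : Clu G N D δ η' W Y) {z : V}
    (hz : z ∈ W \ Y) : rho G D Y z ≤ 1 - δ / 4 := (div_le_iff₀ p.D0).2 (c.out z hz)

theorem big_case (p : Par j w m N D h g C δ K η e) (q : Gd G w D) (c : Clu G N D δ η W Y)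
    (hs : w * m ≤ Y.card) : Done G j (w * m) g W := by
  obtain ⟨S, h1, h2⟩ := exists_subset_card_eq hs
  refine ⟨S, h1.trans c.sub, h2, le_trans (Nat.cast_le.2 (card_le_card (mt_mono _ _ h1))) ?_⟩
  have hN := p.N0
  have hh := p.h0
  have hs' : N ≤ Y.card := by rw [p.hN]; exact_mod_cast hs
  have a1 := master p q c (empty_subset _) le_rfl (by linarith) (by simp)
  have a2 : ∑ z ∈ W \ Y, qq G j Y z ≤ h * ∑ z ∈ W \ Y, rho G D Y z := by
    rw [mul_sum]
    exact sum_le_sum fun z _ => by simpa using qq_le p q Y z (i := 1) (by omega)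
  have a3 : ∑ z ∈ W \ Y, rho G D Y z ≤ Y.card / N * (N - Y.card) + 1.01 * Xn G w N Y :=
    sum_rho p q c.sub
  have a4 : 0 ≤ ∑ z ∈ W \ Y, rho G D Y z := sum_nonneg fun z _ => (rho_le p q Y z).1
  set x := (Y.card - N) / N with hx
  have x0 : 0 ≤ x := div_nonneg (by linarith) hN.le
  have x1 : x ≤ δ := by rw [hx, div_le_iff₀ hN]; have := c.up; linarith
  have x2 : (Y.card : ℝ) / N = 1 + x := by rw [hx]; field_simp; ring
  have x3 : (Y.card : ℝ) - N = x * N := by rw [hx]; field_simp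
  have a5 := pow_up x0 (j + 4) (by
    have := mul_le_mul_of_nonneg_left x1 (show (0 : ℝ) ≤ j + 4 by positivity)
    have := p.dt
    push_cast
    linarith)
  have a6 := mul_le_mul_of_nonneg_right a5 p.g0.le
  have a7 : (1 + 1.1 * ((j + 4 : ℕ) : ℝ) * x) * g = g + 1.1 * (h * (x * N)) := by
    push_cast
    linear_combination 1.1 * x * p.gh
  have a8 : (Y.card : ℝ) / N * (N - Y.card) ≤ -(x * N) := by
    rw [x2]
    nlinarith [mul_nonneg x0 (mul_nonneg x0 hN.le)]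
  have a9 := mul_le_mul_of_nonneg_left (a3.trans (add_le_add a8 le_rfl)) hh.le
  have a10 := mul_le_mul_of_nonneg_left (a4.trans (a3.trans (add_le_add a8 le_rfl))) hh.le
  have a11 := mul_nonneg hh.le (Xn_nonneg p q Y)
  rw [union_empty, x2] at a1
  simp only [sum_empty, zero_div, mul_zero, zero_mul, add_zero] at a1
  linarith

/-- the data of a cluster smaller than `N` -/
structure Sm (n : ℕ) (N η : ℝ) (s k : ℕ) (x : ℝ) : Prop where
  add : s + k = n
  k0 : 0 < k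
  sk : (s : ℝ) + k = N
  kx : (k : ℝ) = x * N
  x0 : 0 < x
  x1 : x ≤ η

theorem Clu.sm (p : Par j w m N D h g C δ K η e) (c : Clu G N D δ η W Y) (hs : Y.card < w * m) :
    ∃ k x, Sm (w * m) N η Y.card k x := by
  obtain ⟨k, hk⟩ := Nat.exists_eq_add_of_le hs.le
  have hN := p.N0
  have h1 : (Y.card : ℝ) + k = N := by rw [p.hN]; exact_mod_cast hk.symm
  have h2 : (0 : ℝ) < k := by exact_mod_cast (by omega : 0 < k)
  refine ⟨k, k / N, hk.symm, by omega, h1, by field_simp, by positivity, ?_⟩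
  rw [div_le_iff₀ hN]
  have := c.lo
  linarith

variable {k : ℕ} {x : ℝ}

theorem master' (p : Par j w m N D h g C δ K η e) (q : Gd G w D) (c : Clu G N D δ η W Y)
    (s : Sm (w * m) N η Y.card k x) (hZ : Z ⊆ W \ Y) :
    ((mt G (j + 4) W (Y ∪ Z)).card : ℝ) ≤ (1 - x) ^ (j + 4) * g +
      ∑ z ∈ W \ Y, qq G j Y z + ∑ z ∈ Z, qq G j (W \ Y) z + h * (C * (8 * k * x ^ 2 +
        2 * x * ∑ z ∈ W \ Y, rho G D Y z ^ 2) - 1.34 * Xn G w N Y) := by
  have hN := p.N0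
  have h1 := s.sk
  have k0 : (0 : ℝ) ≤ k := Nat.cast_nonneg _
  have := master p q c hZ k0 (by linarith) (mul_le_mul_of_nonneg_right (by linarith) k0)
  have e1 : (k : ℝ) / N = x := by rw [s.kx]; field_simp
  have e2 : (Y.card : ℝ) / N = 1 - x := by
    rw [div_eq_iff hN.ne', sub_mul, ← s.kx]
    linarith
  rwa [e1, e2] at this

theorem Sm.x2 {s : ℕ} (p : Par j w m N D h g C δ K η e) (a : Sm (w * m) N η s k x) :
    x ≤ 1 / 1000 := by
  have := a.x1
  have := p.nd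
  have := p.d3
  linarith

theorem gam_le {s : ℕ} (p : Par j w m N D h g C δ K η e) (a : Sm (w * m) N η s k x) :
    (1 - x) ^ (j + 4) * g ≤ g + h * (-k + (j + 3) / 2 * (k * x)) := by
  have h1 := pow_second a.x0.le (by have := a.x2 p; linarith) (j + 4)
  refine (mul_le_mul_of_nonneg_right h1 p.g0.le).trans (le_of_eq ?_)
  rw [a.kx]
  push_cast
  linear_combination (-x + (j + 3) / 2 * x ^ 2) * p.gh

theorem sum_rho' (p : Par j w m N D h g C δ K η e) (q : Gd G w D) (hY : Y ⊆ W)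
    (s : Sm (w * m) N η Y.card k x) : ∑ z ∈ W \ Y, rho G D Y z ≤ k + 1.01 * Xn G w N Y := by
  refine (sum_rho p q hY).trans (add_le_add ?_ le_rfl)
  have h1 := s.sk
  have k0 : (0 : ℝ) ≤ k := Nat.cast_nonneg _
  rw [show N - Y.card = k by linarith]
  exact mul_le_of_le_one_left k0 ((div_le_one p.N0).2 (by linarith))

theorem done_of (hY : Y ⊆ W) (s : Sm (w * m) N η Y.card k x) (hZ : Z ⊆ W \ Y) (hk : Z.card = k)
    (hT : ((mt G (j + 4) W (Y ∪ Z)).card : ℝ) ≤ g) : Done G j (w * m) g W :=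
  ⟨Y ∪ Z, union_subset hY (hZ.trans sdiff_subset),
    by rw [card_union_of_disjoint (disjoint_sdiff.mono_right hZ), hk, s.add], hT⟩

theorem testA (p : Par j w m N D h g C δ K η e) (q : Gd G w D) (c : Clu G N D δ η W Y)
    (s : Sm (w * m) N η Y.card k x) (hW : w * m ≤ W.card) : Done G j (w * m) g W ∨
      (((W \ Y).filter fun z => K * x < rho G D Y z).card ≤ k ∧
        ∑ z ∈ W \ Y, rho G D Y z ^ 2 ≤ 3 * K * (k * x)) := by
  obtain ⟨Z, hZ, hk, htop⟩ := exists_top (W \ Y) (rho G D Y) k (by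
    have := card_sdiff_add_card_eq_card c.sub
    have := s.add
    omega)
  obtain ⟨a0, ha0, hmin⟩ := exists_min_image Z (rho G D Y) (by rw [← card_pos, hk]; exact s.k0)
  set r := rho G D Y a0 with hr
  have r0 : 0 ≤ r := (rho_le p q Y a0).1
  have r1 : r ≤ 1 := (rho_le p q Y a0).2
  have ρ0 : ∀ z, 0 ≤ rho G D Y z := fun z => (rho_le p q Y z).1
  have ρ1 : ∀ z, rho G D Y z ≤ 1 := fun z => (rho_le p q Y z).2
  have hO : ∀ b ∈ (W \ Y) \ Z, rho G D Y b ≤ r := htop a0 ha0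
  set RZ := ∑ z ∈ Z, rho G D Y z with hRZ
  set RO := ∑ z ∈ (W \ Y) \ Z, rho G D Y z with hRO
  set X := Xn G w N Y with hX
  have X0 : 0 ≤ X := Xn_nonneg p q Y
  have RZ0 : 0 ≤ RZ := sum_nonneg fun z _ => ρ0 z
  have hh := p.h0
  have kp : (0 : ℝ) < k := by exact_mod_cast s.k0
  have a1 : RO + RZ ≤ k + 1.01 * X := by
    rw [hRO, hRZ, sum_sdiff hZ]
    exact sum_rho' p q c.sub s
  have a2 : r * k ≤ RZ := by
    have := sum_le_sum hmin
    rwa [sum_const, nsmul_eq_mul, hk, mul_comm] at this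
  have a3 : ∑ z ∈ W \ Y, rho G D Y z ^ 2 ≤ 2 * RZ + 1.01 * X := by
    rw [← sum_sdiff hZ]
    have b1 : ∑ z ∈ (W \ Y) \ Z, rho G D Y z ^ 2 ≤ r * RO := by
      rw [hRO, mul_sum]
      exact sum_le_sum fun z hz => by rw [sq]; exact mul_le_mul_of_nonneg_right (hO z hz) (ρ0 z)
    have b2 : ∑ z ∈ Z, rho G D Y z ^ 2 ≤ RZ :=
      sum_le_sum fun z _ => pow_le_of_le_one (ρ0 z) (ρ1 z) (by omega)
    have b3 := mul_le_mul_of_nonneg_left (show RO ≤ k + 1.01 * X by linarith) r0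
    have b4 := mul_le_mul_of_nonneg_right r1 X0
    linarith
  have kx : 0 < k * x := mul_pos kp s.x0
  by_cases hcl : RZ < K * (k * x) ∧ X < 2 * (j + 4) * (k * x)
  · refine Or.inr ⟨?_, ?_⟩
    · rw [← hk]
      refine card_le_card fun z hz => ?_
      by_contra hn
      have b1 := hO z (mem_sdiff.2 ⟨(mem_filter.1 hz).1, hn⟩)
      have b2 := mul_lt_mul_of_pos_right ((mem_filter.1 hz).2.trans_le b1) kp
      linarith [hcl.1]
    · have := mul_le_mul_of_nonneg_right p.Kt kx.le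
      have : 0 ≤ ((j : ℝ) + 4) * (k * x) := by positivity
      linarith [hcl.1, hcl.2]
  refine Or.inl (done_of c.sub s hZ hk ?_)
  have a4 : ∑ z ∈ W \ Y, qq G j Y z + ∑ z ∈ Z, qq G j (W \ Y) z ≤
      h * (k - δ / 2 * RZ + 1.01 * X) := by
    have b1 : ∑ z ∈ (W \ Y) \ Z, qq G j Y z ≤ h * (r ^ 2 * RO) := by
      rw [hRO, mul_sum, mul_sum]
      refine sum_le_sum fun z hz => (qq_le p q Y z le_rfl).trans
        (mul_le_mul_of_nonneg_left ?_ hh.le)
      rw [pow_succ]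
      exact mul_le_mul_of_nonneg_right (pow_le_pow_left₀ (ρ0 z) (hO z hz) 2) (ρ0 z)
    have b2 : ∑ z ∈ Z, (qq G j Y z + qq G j (W \ Y) z + h * (r ^ 2 * (1 - rho G D Y z))) ≤
        ∑ z ∈ Z, h * (1 - δ / 2 * rho G D Y z) := by
      refine sum_le_sum fun z hz => ?_
      have c1 := qq_le p q Y z (j := j) le_rfl
      have c2 := qq_out p q c.sub z
      have c3 := cube_le (ρ0 z) p.d0.le (c.rho_le p (hZ hz))
      have c4 := mul_le_mul_of_nonneg_right (pow_le_pow_left₀ r0 (hmin z hz) 2)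
        (sub_nonneg.2 (ρ1 z))
      have c5 : rho G D Y z ^ 3 + (1 - rho G D Y z) ^ 3 + r ^ 2 * (1 - rho G D Y z) ≤
          1 - δ / 2 * rho G D Y z := by linarith
      have := mul_le_mul_of_nonneg_left c5 hh.le
      linarith
    simp only [sum_add_distrib, ← mul_sum, sum_sub_distrib, sum_const, nsmul_eq_mul, hk,
      ← hRZ] at b2
    have b3 := mul_le_mul_of_nonneg_left (show RO ≤ k - RZ + 1.01 * X by linarith) (sq_nonneg r)
    have b4 := mul_le_mul_of_nonneg_right (pow_le_one₀ (n := 2) r0 r1) X0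
    have b5 := mul_le_mul_of_nonneg_left
      (show r ^ 2 * RO ≤ r ^ 2 * (k - RZ) + 1.01 * X by linarith) hh.le
    rw [← sum_sdiff hZ]
    linarith
  have a5 := master' p q c s hZ
  have a6 := gam_le p s
  have C0 : 0 ≤ C := zero_le_one.trans p.C1
  have cx : C * x ≤ C * η := mul_le_mul_of_nonneg_left s.x1 C0
  have cx0 : 0 ≤ C * x := mul_nonneg C0 s.x0.le
  have a7 := mul_le_mul_of_nonneg_left a3 cx0
  have a8 := mul_le_mul_of_nonneg_right (show 16 * (C * x) ≤ δ by linarith [p.nCd]) RZ0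
  have a9 := mul_le_mul_of_nonneg_right (show 16000000 * (C * x) ≤ 1 by linarith [p.nC]) X0
  have a10 := mul_le_mul_of_nonneg_right (show 16000000 * (C * x) ≤ 1 by linarith [p.nC]) kx.le
  have a11 : 0 ≤ δ * RZ := mul_nonneg p.d0.le RZ0
  have a12 : ((j : ℝ) + 4) / 2 * (k * x) ≤ δ / 4 * RZ + 0.3 * X := by
    rw [not_and_or, not_lt, not_lt] at hcl
    have : 0 ≤ ((j : ℝ) + 4) * (k * x) := by positivity
    rcases hcl with b | b
    · have b1 := mul_le_mul_of_nonneg_left b p.d0.le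
      have b2 : δ * (K * (k * x)) = 2 * (j + 4) * (k * x) := by rw [← p.hK]; ring
      linarith
    · linarith
  have a13 : -(k : ℝ) + (j + 3) / 2 * (k * x) + (k - δ / 2 * RZ + 1.01 * X) +
      (C * (8 * k * x ^ 2 + 2 * x * ∑ z ∈ W \ Y, rho G D Y z ^ 2) - 1.34 * X) ≤ 0 := by
    linarith
  have := mul_le_mul_of_nonneg_left a13 hh.le
  linarith

theorem clean_J (p : Par j w m N D h g C δ K η e) {s : ℕ} (a : Sm (w * m) N η s k x) {R : ℝ}
    (hR : R ≤ 3 * K * (k * x)) : C * (8 * k * x ^ 2 + 2 * x * R) ≤ 0.01 * (k * x) := by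
  have C0 : 0 ≤ C := zero_le_one.trans p.C1
  have K0 : 0 ≤ K := by linarith [p.K4]
  have kx : 0 ≤ k * x := mul_nonneg (Nat.cast_nonneg _) a.x0.le
  have a1 := mul_le_mul_of_nonneg_left hR (mul_nonneg C0 a.x0.le)
  have a2 := mul_le_mul_of_nonneg_right ((mul_le_mul_of_nonneg_left a.x1 C0).trans
    (show C * η ≤ 1 / 16000000 by linarith [p.nC])) kx
  have a3 := mul_le_mul_of_nonneg_right ((mul_le_mul_of_nonneg_left a.x1 (mul_nonneg C0 K0)).trans
    (show C * K * η ≤ 1 / 40000 by linarith [p.nCK])) kx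
  linarith

theorem clean_q (p : Par j w m N D h g C δ K η e) (q : Gd G w D) (c : Clu G N D δ η W Y)
    (s : Sm (w * m) N η Y.card k x) (hR : ∑ z ∈ W \ Y, rho G D Y z ^ 2 ≤ 3 * K * (k * x)) :
    0.9 * (j + 3) * x * h * Y.card ≤ ∑ y ∈ Y, (h - qq G j W y) := by
  have hh := p.h0
  have hN := p.N0
  have hj : (0 : ℝ) ≤ j := Nat.cast_nonneg _
  have a1 := master' p q c s (empty_subset _)
  have a2 : ∑ z ∈ W \ Y, qq G j Y z ≤ h * ∑ z ∈ W \ Y, rho G D Y z ^ 2 := by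
    rw [mul_sum]
    exact sum_le_sum fun z _ => qq_le p q Y z (by omega)
  have a3 := clean_J p s hR
  have a4 := sum_q_le (G := G) (j + 3) c.sub
  have X0 := Xn_nonneg p q Y
  have kx : 0 ≤ k * x := mul_nonneg (Nat.cast_nonneg _) s.x0.le
  have K4 := mul_le_mul_of_nonneg_right p.K4 kx
  have a5 := mul_le_mul_of_nonneg_left (show ∑ z ∈ W \ Y, rho G D Y z ^ 2 +
    (C * (8 * k * x ^ 2 + 2 * x * ∑ z ∈ W \ Y, rho G D Y z ^ 2) - 1.34 * Xn G w N Y) ≤
      4 * K * (k * x) by linarith) hh.le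
  rw [union_empty, sum_empty] at a1
  have a6 : ((mt G (j + 4) W Y).card : ℝ) ≤ (1 - x) ^ (j + 4) * g + h * (4 * K * (k * x)) := by
    linarith
  have a7 := mul_le_mul_of_nonneg_left a6 (show (0 : ℝ) ≤ j + 4 by linarith)
  have hs : (Y.card : ℝ) = (1 - x) * N := by have := s.sk; have := s.kx; linarith
  have a8 : (j + 4) * ((1 - x) ^ (j + 4) * g) = (1 - x) ^ (j + 3) * (h * Y.card) := by
    rw [hs]
    linear_combination (1 - x) ^ (j + 4) * p.gh
  have x2 := s.x2 p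
  have x0 := s.x0
  have a9 := mul_le_mul_of_nonneg_right (pow_second x0.le (by linarith) (j + 3))
    (mul_nonneg hh.le (Nat.cast_nonneg (α := ℝ) Y.card))
  have Kx : 40000 * (K * x) ≤ 1 := by
    have := mul_le_mul_of_nonneg_left s.x1 (show 0 ≤ K by linarith [p.K4])
    linarith [p.nK]
  have jx : (j + 2) * x ≤ 1 / 10 := by
    have := mul_le_mul_of_nonneg_right p.Kt x0.le
    linarith
  have u0 : 0 ≤ (j + 3) * x * (h * Y.card) := by positivity
  have b1 := mul_le_mul_of_nonneg_right jx u0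
  have b2 : (k : ℝ) ≤ 2 * x * Y.card := by
    rw [s.kx, hs]
    nlinarith [mul_pos x0 hN]
  have b3 : (j + 4) * (h * (4 * K * (k * x))) ≤ 0.05 * ((j + 3) * x * (h * Y.card)) := by
    have c1 := mul_le_mul Kx b2 (Nat.cast_nonneg _) zero_le_one
    have c2 := mul_le_mul_of_nonneg_left c1 (show 0 ≤ (j + 4) * h by positivity)
    have c3 : 0 ≤ x * (h * Y.card) := by positivity
    nlinarith [mul_nonneg hj c3]
  rw [sum_sub_distrib, sum_const, nsmul_eq_mul]
  unfold qq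
  push_cast at a4 a9
  change _ ≤ _ * ((mt G (j + 4) W Y).card : ℝ) at a4
  linarith

theorem testB (p : Par j w m N D h g C δ K η e) (q : Gd G w D) (c : Clu G N D δ η W Y)
    (s : Sm (w * m) N η Y.card k x) (hR : ∑ z ∈ W \ Y, rho G D Y z ^ 2 ≤ 3 * K * (k * x))
    (hZ : Z ⊆ W \ Y) (hk : Z.card = k) (h1 : ∀ z ∈ (W \ Y) \ Z, rho G D Y z ≤ K * x)
    (h2 : 0.6 * (j + 3) * x * h * k ≤ ∑ z ∈ Z, (h - qq G j Y z - qq G j (W \ Y) z)) :
    Done G j (w * m) g W := by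
  refine done_of c.sub s hZ hk ?_
  have hh := p.h0
  have hj : (0 : ℝ) ≤ j := Nat.cast_nonneg _
  have ρ0 : ∀ z, 0 ≤ rho G D Y z := fun z => (rho_le p q Y z).1
  have a1 := master' p q c s hZ
  have a2 := gam_le p s
  have a3 := clean_J p s hR
  have X0 := Xn_nonneg p q Y
  have kx : 0 ≤ k * x := mul_nonneg (Nat.cast_nonneg _) s.x0.le
  have a4 : ∑ z ∈ (W \ Y) \ Z, qq G j Y z ≤
      h * ((K * x) ^ 2 * ∑ z ∈ (W \ Y) \ Z, rho G D Y z) := by
    rw [mul_sum, mul_sum]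
    refine sum_le_sum fun z hz => (qq_le p q Y z le_rfl).trans
      (mul_le_mul_of_nonneg_left ?_ hh.le)
    rw [pow_succ]
    exact mul_le_mul_of_nonneg_right (pow_le_pow_left₀ (ρ0 z) (h1 z hz) 2) (ρ0 z)
  have a5 : ∑ z ∈ (W \ Y) \ Z, rho G D Y z ≤ k + 1.01 * Xn G w N Y :=
    (sum_le_sum_of_subset_of_nonneg sdiff_subset fun z _ _ => ρ0 z).trans (sum_rho' p q c.sub s)
  have a6 := mul_le_mul_of_nonneg_left a5 (sq_nonneg (K * x))
  have KK : K ^ 2 * x ≤ 1 / 100 := by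
    have := mul_le_mul_of_nonneg_left s.x1 (sq_nonneg K)
    linarith [p.nKK]
  have a7 := mul_le_mul_of_nonneg_right KK kx
  have a8 : (K * x) ^ 2 ≤ 1 / 100 := by
    have := mul_le_mul KK (show x ≤ 1 by linarith [s.x2 p]) s.x0.le (by norm_num)
    linarith
  have a9 := mul_le_mul_of_nonneg_right a8 X0
  have a10 := mul_nonneg hj kx
  have a11 : -(k : ℝ) + (j + 3) / 2 * (k * x) + (K * x) ^ 2 * ∑ z ∈ (W \ Y) \ Z, rho G D Y z +
      (k - 0.6 * (j + 3) * x * k) + (C * (8 * k * x ^ 2 + 2 * x * ∑ z ∈ W \ Y, rho G D Y z ^ 2) -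
        1.34 * Xn G w N Y) ≤ 0 := by linarith
  have a12 := mul_le_mul_of_nonneg_left a11 hh.le
  rw [sum_sub_distrib, sum_sub_distrib, sum_const, nsmul_eq_mul, hk] at h2
  rw [← sum_sdiff (f := fun z => qq G j Y z) hZ] at a1
  linarith

end Pool.Agent.GLT
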