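import Pool.Agent.P.MP_dfe42f_co.GlK

/-! The removal lemma and the upper bound. -/

namespace Pool.Agent.GLT
open Finset

variable {V : Type} [DecidableEq V] {G : SimpleGraph V}
variable {j w m : ℕ} {N D h g C δ K η e : ℝ} {W Y : Finset V} {k : ℕ} {x : ℝ}

theorem Clu.mono {η1 η2 : ℝ} (c : Clu G N D δ η1 W Y) (hN : 0 ≤ N) (h : η1 ≤ η2) :
    Clu G N D δ η2 W Y :=
  ⟨c.sub, le_trans (mul_le_mul_of_nonneg_right (by linarith) hN) c.lo, c.up, c.inn, c.out⟩

theorem def_ge (p : Par j w m N D h g C δ K η e) (q : Gd G w D) (c : Clu G N D δ η W Y)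
    {z : V} (hz : z ∈ W \ Y) (h1 : K * x < rho G D Y z) :
    (j + 4) * x * h ≤ h - qq G j Y z - qq G j (W \ Y) z := by
  have c1 := qq_le p q Y z (j := j) (i := 2) (by omega)
  have c2 := qq_out p q c.sub z
  have c3 := cube_le (r := rho G D Y z) (rho_le p q Y z).1 p.d0.le (c.rho_le p hz)
  have c4 := mul_le_mul_of_nonneg_left h1.le p.d0.le
  have c5 : δ * (K * x) = 2 * ((j + 4) * x) := by linear_combination x * p.hK
  have := mul_le_mul_of_nonneg_left (show rho G D Y z ^ 2 + (1 - rho G D Y z) ^ 3 ≤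
    1 - (j + 4) * x by linarith) p.h0.le
  linarith

theorem clu_disj (p : Par j w m N D h g C δ K η e) (q : Gd G w D) (c : Clu G N D δ η W Y)
    (x1 : x ≤ η) {v : V} (hv : rho G D Y v ≤ K * x) {Y' : Finset V}
    (h' : ∀ y ∈ Y', (1 - δ) * N ≤ (nb G (nb G W v) y).card) : Disjoint Y' Y := by
  rw [disjoint_left]
  intro u u1 u2
  have a1 := h' u u1
  have a2 := c.inn u u2
  have a3 : ((nb G Y u ∪ nb G (nb G W v) u).card : ℝ) ≤ D := by
    refine le_trans (Nat.cast_le.2 (card_le_card ?_)) (q.deg (Y ∪ nb G W v) u)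
    exact union_subset (nb_mono subset_union_left _) (nb_mono subset_union_right _)
  have a4 : ((nb G Y u ∩ nb G (nb G W v) u).card : ℝ) ≤ (nb G Y v).card := by
    refine Nat.cast_le.2 (card_le_card fun z hz => ?_)
    simp only [mem_inter, mem_nb] at hz ⊢
    tauto
  have a5 : ((nb G Y u ∪ nb G (nb G W v) u).card : ℝ) + (nb G Y u ∩ nb G (nb G W v) u).card =
      (nb G Y u).card + (nb G (nb G W v) u).card := by
    exact_mod_cast card_union_add_card_inter _ _
  rw [rho, div_le_iff₀ p.D0] at hv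
  have Kx : K * x ≤ 1 / 40000 := by
    have := mul_le_mul_of_nonneg_left x1 (show 0 ≤ K by linarith [p.K4])
    linarith [p.nK]
  have a6 := mul_le_mul_of_nonneg_right Kx p.D0.le
  have a7 := mul_le_mul_of_nonneg_right p.d3 p.N0.le
  have := p.DN
  have := p.N0
  linarith

theorem lemB (p : Par j w m N D h g C δ K η e) (q : Gd G w D) (hW : w * m ≤ W.card) {e0 : ℝ}
    (h0 : 0 ≤ e0) (he : 3 * (j + 4) * e0 = δ * e) {X : Finset V} (hX : X ⊆ W)
    (hs : Spot G N e0 X) : Done G j (w * m) g W := by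
  classical
  have hj : (0 : ℝ) ≤ j := Nat.cast_nonneg _
  have hN := p.N0
  have hh := p.h0
  have hd := p.d0
  have ep := p.e0
  have hη0 : e / (j + 4) ≤ η := by
    rw [div_le_iff₀ (by linarith)]
    have := p.he
    have := mul_le_mul_of_nonneg_right p.d3 p.n0.le
    nlinarith [mul_nonneg hj p.n0.le, p.n0]
  obtain ⟨Y0, c0, -⟩ := spot_clu p q hX h0 (η' := e / (j + 4)) (by
    have := mul_le_mul_of_nonneg_left p.e1 hd.le
    nlinarith [mul_nonneg hj h0]) (by
    rw [← mul_div_assoc, le_div_iff₀ (by linarith)]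
    linarith) hs
  obtain ⟨Y, hY, hmax⟩ := exists_max_image (W.powerset.filter fun Y => Clu G N D δ η W Y) card
    ⟨Y0, mem_filter.2 ⟨mem_powerset.2 c0.sub, c0.mono hN.le hη0⟩⟩
  have c := (mem_filter.1 hY).2
  have hmax' : ∀ Y', Clu G N D δ η W Y' → Y'.card ≤ Y.card := fun Y' c' =>
    hmax Y' (mem_filter.2 ⟨mem_powerset.2 c'.sub, c'⟩)
  rcases le_or_gt (w * m) Y.card with hb | hb
  · exact big_case p q c hb
  obtain ⟨k, x, s⟩ := c.sm p hb
  have x0 := s.x0
  have hxe : (j + 4) * x ≤ e := by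
    have a1 : (Y0.card : ℝ) ≤ Y.card := by exact_mod_cast hmax' Y0 (c0.mono hN.le hη0)
    have a2 := c0.lo
    have a3 : x * N ≤ e / (j + 4) * N := by have := s.sk; have := s.kx; linarith
    have a4 := le_of_mul_le_mul_right a3 hN
    rwa [le_div_iff₀ (by linarith), mul_comm] at a4
  rcases testA p q c s hW with hd | ⟨t1, t2⟩
  · exact hd
  set Z1 := (W \ Y).filter fun z => K * x < rho G D Y z with hZ1
  have z1 : Z1 ⊆ W \ Y := filter_subset _ _
  obtain ⟨k2, hk2⟩ := Nat.exists_eq_add_of_le t1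
  have hk2' : (k : ℝ) = Z1.card + k2 := by exact_mod_cast hk2
  set df : V → ℝ := fun z => h - qq G j Y z - qq G j (W \ Y) z with hdf
  have d1 : ∀ z, h - qq G j W z ≤ df z := fun z => by
    have := cr_le (G := G) (j := j + 2) c.sub z
    simp only [hdf, qq]
    linarith
  have d0 : ∀ z, 0 ≤ h - qq G j W z := fun z => sub_nonneg.2 (q_le p q W z)
  have xh : 0 < x * h := mul_pos x0 hh
  have d2 : 0.6 * (j + 3) * x * h * Z1.card ≤ ∑ z ∈ Z1, df z := by
    rw [mul_comm, ← nsmul_eq_mul, ← sum_const]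
    refine sum_le_sum fun z hz => le_trans ?_ (def_ge p q c (z1 hz) (mem_filter.1 hz).2)
    nlinarith [mul_nonneg hj xh.le]
  have hrest : ∀ z ∈ (W \ Y) \ Z1, rho G D Y z ≤ K * x := fun z hz =>
    not_lt.1 fun h => (mem_sdiff.1 hz).2 (mem_filter.2 ⟨(mem_sdiff.1 hz).1, h⟩)
  have pad : ∀ Z2 ⊆ (W \ Y) \ Z1, Z2.card = k2 →
      0.6 * (j + 3) * x * h * k ≤ ∑ z ∈ Z1, df z + ∑ z ∈ Z2, df z → Done G j (w * m) g W := by
    intro Z2 a1 a2 a3
    have hdis : Disjoint Z1 Z2 := disjoint_sdiff.mono_right a1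
    refine testB p q c s t2 (union_subset z1 (a1.trans sdiff_subset))
      (by rw [card_union_of_disjoint hdis, a2, hk2]) (fun z hz => hrest z ?_)
      (by rwa [sum_union hdis])
    exact mem_sdiff.2 ⟨(mem_sdiff.1 hz).1, fun h => (mem_sdiff.1 hz).2 (mem_union_left _ h)⟩
  by_cases hlow : ∀ v ∈ (W \ Y) \ Z1, qq G j W v ≤ (1 - e) * h
  · obtain ⟨Z2, a1, a2⟩ := exists_subset_card_eq (s := (W \ Y) \ Z1) (n := k2) (by
      have := card_sdiff_add_card_eq_card c.sub
      have := card_sdiff_add_card_eq_card z1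
      have := s.add
      omega)
    refine pad Z2 a1 a2 ?_
    have : 0.6 * (j + 3) * x * h * k2 ≤ ∑ z ∈ Z2, df z := by
      rw [mul_comm, ← a2, ← nsmul_eq_mul, ← sum_const]
      refine sum_le_sum fun z hz => le_trans ?_ (d1 z)
      have := hlow z (a1 hz)
      have := mul_le_mul_of_nonneg_right hxe hh.le
      nlinarith [mul_nonneg hj xh.le]
    rw [hk2']
    linarith
  push Not at hlow
  obtain ⟨v, hv, hq⟩ := hlow
  obtain ⟨Y', c', hY'⟩ := spot_clu p q (nb_subset W v) (η' := η) (by linarith)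
    (by linarith [p.ed]) (by linarith [p.he]) (high_spot p q hq)
  have hdis := clu_disj p q c s.x1 (hrest v hv) hY'
  have hle := hmax' Y' c'
  obtain ⟨k', x', s'⟩ := c'.sm p (by omega)
  have hxx : x ≤ x' := by
    have a1 : (k : ℝ) ≤ k' := by
      exact_mod_cast (by have := s.add; have := s'.add; omega : k ≤ k')
    rw [s.kx, s'.kx] at a1
    exact le_of_mul_le_mul_right a1 hN
  rcases testA p q c' s' hW with hd | ⟨-, t2'⟩
  · exact hd
  have b1 := clean_q p q c' s' t2'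
  have b2 : 0.9 * (j + 3) * x * h * Y'.card ≤ 0.9 * (j + 3) * x' * h * Y'.card := by gcongr
  have b3 : 2 * (k : ℝ) ≤ Y'.card := by
    have := mul_le_mul_of_nonneg_right (s.x2 p) hN.le
    have := mul_le_mul_of_nonneg_right (s'.x2 p) hN.le
    have := s'.sk
    have := s'.kx
    have := s.kx
    linarith
  have b4 : 2 * k ≤ Y'.card := by exact_mod_cast b3
  have b5 := card_le_card_sdiff_add_card (s := Y') (t := Z1)
  obtain ⟨Z2, a1, a2, a3⟩ := exists_avg (Y' \ Z1) (fun z => h - qq G j W z) k2 (by omega)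
  have hU : Y' \ Z1 ⊆ (W \ Y) \ Z1 := sdiff_subset_sdiff (subset_sdiff.2 ⟨c'.sub, hdis⟩) Subset.rfl
  refine pad Z2 (a1.trans hU) a2 ?_
  have b6 : ∑ z ∈ Z2, (h - qq G j W z) ≤ ∑ z ∈ Z2, df z := sum_le_sum fun z _ => d1 z
  have b7 : 0 ≤ ∑ z ∈ Z2, (h - qq G j W z) := sum_nonneg fun z _ => d0 z
  have b8 : ∑ z ∈ Y' ∩ Z1, (h - qq G j W z) ≤ ∑ z ∈ Z1, df z :=
    (sum_le_sum_of_subset_of_nonneg inter_subset_right fun z _ _ => d0 z).trans
      (sum_le_sum fun z _ => d1 z)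
  have b9 := sum_inter_add_sum_sdiff Y' Z1 fun z => h - qq G j W z
  rcases le_total (0.6 * (j + 3) * x * h * k) (∑ z ∈ Y' ∩ Z1, (h - qq G j W z)) with hc | hc
  · linarith
  have u0 : 0 ≤ (j + 3) * x * h := by positivity
  have b10 : ((Y' \ Z1).card : ℝ) ≤ Y'.card := Nat.cast_le.2 (card_le_card sdiff_subset)
  have b11 := mul_le_mul_of_nonneg_left b3 u0
  have b12 := mul_le_mul_of_nonneg_left b10 u0
  have b13 : 0.6 * (j + 3) * x * h * (Y' \ Z1).card ≤ ∑ z ∈ Y' \ Z1, (h - qq G j W z) := by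
    linarith
  have b14 := (mul_le_mul_of_nonneg_left b13 (Nat.cast_nonneg (α := ℝ) k2)).trans a3
  have b15 : (0 : ℝ) < (Y' \ Z1).card := by
    exact_mod_cast (by have := s.k0; omega : 0 < (Y' \ Z1).card)
  have b16 : 0.6 * (j + 3) * x * h * k2 ≤ ∑ z ∈ Z2, (h - qq G j W z) :=
    le_of_mul_le_mul_left (by linarith) b15
  rw [hk2']
  linarith

theorem upper (p : Par j w m N D h g C δ K η e) (q : Gd G w D) {e0 e2 : ℝ} (h0 : 0 < e0)
    (he : 3 * (j + 4) * e0 = δ * e) (h2 : 2 * (j + 4) * e2 = e0 ^ 2)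
    (hw : 8 * ((j : ℝ) + 4) ^ 2 ≤ w * e2 ^ 2) (n : ℕ) : ∀ W : Finset V, W.card = n →
    (cl G (j + 4) W).card ≤ n / (w * m) * tc w (j + 4) (w * m) + tc w (j + 4) (n % (w * m)) := by
  induction n using Nat.strong_induction_on with
  | _ n ih =>
  intro W hW
  have hN : 0 < w * m := Nat.mul_pos p.wp p.m1
  rcases lt_or_ge n (w * m) with hn | hn
  · rw [Nat.div_eq_of_lt hn, Nat.mod_eq_of_lt hn, zero_mul, zero_add, ← hW]
    exact zykov (j := j + 2) (fun K _ hK => q.clq K hK) p.wp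
  by_cases hs : ∃ X ⊆ W, Spot G N e0 X
  · obtain ⟨X, hX, hs⟩ := hs
    obtain ⟨S, s1, s2, s3⟩ := lemB p q (hW ▸ hn) h0.le he hX hs
    have a1 := card_sdiff_add_card_eq_card s1
    have a2 := ih (n - w * m) (by omega) (W \ S) (by omega)
    have a3 : (mt G (j + 4) W S).card ≤ tc w (j + 4) (w * m) := by
      rw [p.hg, ← tc_full p.wp] at s3
      exact_mod_cast s3
    rw [cl_split (j + 4) W S, Nat.div_eq_sub_div hN hn, Nat.mod_eq_sub_mod hn, add_mul]
    omega
  · push Not at hs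
    rw [← hW]
    refine nospot_final p.m1 h0 ?_ h2 hw (fun B v => ?_) W (hW ▸ hn) (by rw [← p.hN]; exact hs)
    · have hj : (0 : ℝ) ≤ j := Nat.cast_nonneg _
      have := p.e1
      have := p.d3
      have := p.e0
      nlinarith [mul_nonneg hj h0.le]
    · have := q.deg B v
      rw [p.hD, ← p.w1c] at this
      exact_mod_cast this

end Pool.Agent.GLT
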