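import Pool.Agent.P.MP_dfe42f_co.GlL

/-! Choice of the parameters, the construction, and the main theorem. -/

namespace Pool.Agent.GLT
open Finset

theorem exists_par (j : ℕ) : ∃ w0 : ℕ, ∀ w ≥ w0, ∀ m ≥ 1, ∃ N D h g C δ K η e e0 e2 : ℝ,
    Par j w m N D h g C δ K η e ∧ 0 < e0 ∧ 3 * (j + 4) * e0 = δ * e ∧
      2 * (j + 4) * e2 = e0 ^ 2 ∧ 8 * ((j : ℝ) + 4) ^ 2 ≤ w * e2 ^ 2 := by
  have hj : (0 : ℝ) ≤ j := Nat.cast_nonneg _
  set t : ℝ := j + 4 with ht
  have t4 : 4 ≤ t := by linarith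
  have t0 : 0 < t := by linarith
  set C : ℝ := ((j + 4).factorial : ℝ) with hC
  have C1 : 1 ≤ C := by rw [hC]; exact_mod_cast Nat.factorial_pos _
  have C0 : 0 < C := by linarith
  clear_value t
  set δ := 1 / (200 * C * t ^ 2) with hδ
  have d0 : 0 < δ := by positivity
  set K := 2 * t / δ with hK
  have K0 : 0 < K := by positivity
  set η := 1 / (100 * C * K ^ 2) with hη
  have n0 : 0 < η := by positivity
  set e := δ * η / 6 with he
  have e0 : 0 < e := by positivity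
  set f := δ * e / (3 * t) with hf
  have f0 : 0 < f := by positivity
  set f2 := f ^ 2 / (2 * t) with hf2
  have f20 : 0 < f2 := by positivity
  refine ⟨⌈t ^ 2 / e⌉₊ + ⌈8 * t ^ 2 / f2 ^ 2⌉₊, fun w hw m hm => ?_⟩
  have w1 : t ^ 2 / e ≤ w := (Nat.le_ceil _).trans (Nat.cast_le.2 (by omega))
  have w2 : 8 * t ^ 2 / f2 ^ 2 ≤ w := (Nat.le_ceil _).trans (Nat.cast_le.2 (by omega))
  have d1 : 200 * C * t ^ 2 * δ = 1 := by rw [hδ]; field_simp
  have tt : 1 ≤ t ^ 2 := by nlinarith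
  refine ⟨_, _, _, _, C, δ, K, η, e, f, f2, ⟨rfl, rfl, rfl, rfl, rfl, hm, d0, ?_, ?_, ?_, n0, ?_,
    ?_, ?_⟩, f0, ?_, ?_, ?_⟩
  · rw [← ht]
    nlinarith [mul_le_mul_of_nonneg_right C1 (show 0 ≤ t ^ 2 * δ by positivity)]
  · nlinarith [mul_le_mul_of_nonneg_right tt (show 0 ≤ C * δ by positivity)]
  · rw [← ht, hK]; field_simp
  · rw [hη]; exact le_of_eq (by field_simp)
  · rw [he]; ring
  · rw [← ht]; exact (div_le_iff₀ e0).1 w1
  · rw [hf]; field_simp
  · rw [hf2]; field_simp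
  · exact (div_le_iff₀ (by positivity)).1 w2

theorem ncard_cl {V : Type} [Fintype V] (G : SimpleGraph V) (t : ℕ) :
    (G.cliqueSet t).ncard = (cl G t univ).card := by
  rw [← Set.ncard_coe_finset]
  congr 1
  ext K
  simp only [SimpleGraph.mem_cliqueSet_iff, SimpleGraph.isNClique_iff, mem_coe, mem_cl,
    subset_univ, true_and]
  tauto

theorem cl_map {U V : Type} [Fintype U] {H : SimpleGraph U} {G : SimpleGraph V} (f : U ↪ V)
    {B : Finset V} (hB : ∀ u, f u ∈ B) (hf : ∀ a b, H.Adj a b → G.Adj (f a) (f b)) (t : ℕ) :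
    (cl H t univ).card ≤ (cl G t B).card := by
  refine card_le_card_of_injOn (fun K => K.map f) (fun K hK => ?_)
    fun _ _ _ _ h => map_injective f h
  obtain ⟨-, h2, h3⟩ := mem_cl.1 (mem_coe.1 hK)
  refine mem_coe.2 (mem_cl.2 ⟨fun v hv => ?_, by simpa using h2, fun a ha b hb hab => ?_⟩)
  · obtain ⟨u, -, rfl⟩ := mem_map.1 hv
    exact hB u
  · obtain ⟨a, ha', rfl⟩ := mem_map.1 (mem_coe.1 ha)
    obtain ⟨b, hb', rfl⟩ := mem_map.1 (mem_coe.1 hb)
    exact hf a b (h3 ha' hb' fun h => hab (congrArg f h))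

/-- disjoint Turán graphs on consecutive blocks of `N` vertices -/
def blocks (n N w : ℕ) : SimpleGraph (Fin n) where
  Adj u v := u.val / N = v.val / N ∧ u.val % w ≠ v.val % w
  symm := ⟨fun _ _ h => ⟨h.1.symm, h.2.symm⟩⟩
  loopless := ⟨fun _ h => h.2 rfl⟩

theorem blocks_free {w : ℕ} (hw : 0 < w) (n N : ℕ) : (blocks n N w).CliqueFree (w + 1) :=
  (SimpleGraph.turanGraph_cliqueFree hw).anti fun _ _ h => h.2

theorem blocks_deg {w m : ℕ} (hw : 0 < w) (hm : 0 < m) (n : ℕ) (v : Fin n) :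
    ((blocks n (w * m) w).neighborSet v).ncard ≤ (w - 1) * m := by
  have hN : 0 < w * m := Nat.mul_pos hw hm
  have h1 := Nat.count_modEq_card (w * m) hw v.val
  rw [Nat.mul_div_cancel_left _ hw, Nat.mul_mod_right, Nat.count_eq_card_filter_range] at h1
  have h2 := card_filter_add_card_filter_not (s := range (w * m)) (fun r => r ≡ v.val [MOD w])
  have h3 : ((range (w * m)).filter fun r => ¬ r ≡ v.val [MOD w]).card = (w - 1) * m := by
    rw [h1, card_range] at h2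
    rw [Nat.sub_mul]
    simp at h2
    omega
  rw [← h3, ← Set.ncard_coe_finset]
  refine Set.ncard_le_ncard_of_injOn (fun u => u.val % (w * m)) (fun u hu => ?_)
    (fun a ha b hb h => ?_) (finite_toSet _)
  · refine mem_coe.2 (mem_filter.2 ⟨mem_range.2 (Nat.mod_lt _ hN), fun h => hu.2 ?_⟩)
    rw [Nat.ModEq, Nat.mod_mul_right_mod] at h
    exact h.symm
  · refine Fin.ext ?_
    have h' : a.val % (w * m) = b.val % (w * m) := h
    rw [← Nat.div_add_mod a.val (w * m), ← Nat.div_add_mod b.val (w * m), ← ha.1, ← hb.1, h']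

theorem blocks_count {w m : ℕ} (hw : 0 < w) (hm : 0 < m) (n t : ℕ) :
    n / (w * m) * tc w (t + 1) (w * m) + tc w (t + 1) (n % (w * m)) ≤
      (cl (blocks n (w * m) w) (t + 1) univ).card := by
  set N := w * m with hNd
  have hN : 0 < N := Nat.mul_pos hw hm
  set B : ℕ → Finset (Fin n) := fun i => univ.filter fun v => v.val / N = i with hB
  have key : ∀ i s, s ≤ N → N * i + s ≤ n →
      tc w (t + 1) s ≤ (cl (blocks n N w) (t + 1) (B i)).card := by
    intro i s hs hn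
    have hdiv : ∀ v : Fin s, (N * i + v.val) / N = i := fun v => by
      rw [Nat.mul_add_div hN, Nat.div_eq_of_lt (by omega), add_zero]
    refine cl_map (G := blocks n N w) (H := SimpleGraph.turanGraph s w)
      ⟨fun v => ⟨N * i + v.val, by omega⟩, fun a b h => Fin.ext ?_⟩
      (fun u => mem_filter.2 ⟨mem_univ _, hdiv u⟩) (fun a b h => And.intro ?_ ?_) _
    · have := congrArg Fin.val h
      simp only at this
      omega
    · exact (hdiv a).trans (hdiv b).symm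
    · change (N * i + a.val) % w ≠ (N * i + b.val) % w
      rw [hNd, mul_assoc, Nat.mul_add_mod, Nat.mul_add_mod]
      exact h
  have hdis : ((range (n / N + 1) : Finset ℕ) : Set ℕ).PairwiseDisjoint
      fun i => cl (blocks n N w) (t + 1) (B i) := by
    intro a _ b _ hab
    refine disjoint_left.2 fun K h1 h2 => hab ?_
    obtain ⟨u, hu⟩ : K.Nonempty := by rw [← card_pos, (mem_cl.1 h1).2.1]; omega
    exact (mem_filter.1 ((mem_cl.1 h1).1 hu)).2.symm.trans (mem_filter.1 ((mem_cl.1 h2).1 hu)).2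
  refine le_trans ?_ (card_le_card (biUnion_subset.2 fun i (_ : i ∈ range (n / N + 1)) =>
    cl_mono (subset_univ (B i)) (t + 1)))
  rw [card_biUnion hdis, sum_range_succ]
  refine Nat.add_le_add ?_ (key _ _ (Nat.mod_lt _ hN).le (Nat.div_add_mod n N).le)
  refine le_trans (by simp) (sum_le_sum (f := fun _ => tc w (t + 1) N) fun i hi =>
    key i N le_rfl ?_)
  have h1 : N * (i + 1) ≤ N * (n / N) := Nat.mul_le_mul_left _ (mem_range.1 hi)
  exact h1.trans (Nat.mul_div_le n N)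

theorem main_upper (j : ℕ) : ∃ w0 : ℕ, ∀ w ≥ w0, 0 < w ∧ ∀ m ≥ 1, ∀ (n : ℕ)
    (G : SimpleGraph (Fin n)), G.CliqueFree (w + 1) →
    (∀ v, (G.neighborSet v).ncard ≤ (w - 1) * m) → (cl G (j + 4) univ).card ≤
      n / (w * m) * tc w (j + 4) (w * m) + tc w (j + 4) (n % (w * m)) := by
  obtain ⟨w0, h⟩ := exists_par j
  refine ⟨w0 + 1, fun w hw => ⟨by omega, fun m hm n G h1 h2 => ?_⟩⟩
  obtain ⟨N, D, h, g, C, δ, K, η, e, e0, e2, p, a1, a2, a3, a4⟩ := h w (by omega) m hm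
  refine upper p ⟨fun S hS => ?_, fun B v => ?_⟩ a1 a2 a3 a4 n univ (by simp)
  · by_contra hn
    obtain ⟨T, t1, t2⟩ := exists_subset_card_eq (not_le.1 hn)
    exact h1 T ⟨hS.subset (coe_subset.2 t1), t2⟩
  · have : (nb G B v).card ≤ (w - 1) * m := by
      refine le_trans ?_ (h2 v)
      rw [← Set.ncard_coe_finset]
      exact Set.ncard_le_ncard (fun u hu => (mem_nb.1 hu).2) (Set.toFinite _)
    rw [p.hD, ← p.w1c]
    exact_mod_cast this

theorem main (t : ℕ) (ht : 4 ≤ t) : ∃ w0 : ℕ, ∀ w ≥ w0, ∀ m ≥ 1, ∀ n : ℕ,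
    IsGreatest {k | ∃ G : SimpleGraph (Fin n), G.CliqueFree (w + 1) ∧
        (∀ v, (G.neighborSet v).ncard ≤ (w - 1) * m) ∧ (G.cliqueSet t).ncard = k}
      (n / (w * m) * ((SimpleGraph.turanGraph (w * m) w).cliqueSet t).ncard +
        ((SimpleGraph.turanGraph (n % (w * m)) w).cliqueSet t).ncard) := by
  obtain ⟨j, rfl⟩ : ∃ j, t = j + 4 := ⟨t - 4, by omega⟩
  obtain ⟨w0, h⟩ := main_upper j
  refine ⟨w0, fun w hw m hm n => ?_⟩
  obtain ⟨hw0, h⟩ := h w hw
  rw [ncard_cl, ncard_cl]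
  refine ⟨⟨blocks n (w * m) w, blocks_free hw0 _ _, blocks_deg hw0 hm n, ?_⟩, ?_⟩
  · rw [ncard_cl]
    exact le_antisymm (h m hm n _ (blocks_free hw0 _ _) (blocks_deg hw0 hm n))
      (blocks_count hw0 hm n (j + 3))
  · rintro k ⟨G, h1, h2, rfl⟩
    rw [ncard_cl]
    exact h m hm n G h1 h2

end Pool.Agent.GLT
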