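import Pool.Agent.P.MP_dfe42f_co.GlM

/-! Labelled copies of a graph: counting tools. -/

namespace Pool.Agent.GL2
open Finset Pool.Agent.GLT Function

set_option linter.unusedSectionVars false

variable {α V V' : Type} [Fintype α] [DecidableEq α]

open Classical in
/-- labelled copies of `H` inside `S` -/
noncomputable def emb (H : SimpleGraph α) (G : SimpleGraph V) (S : Finset V) : Finset (α → V) :=
  (Fintype.piFinset fun _ => S).filter fun φ =>
    Injective φ ∧ ∀ i j, H.Adj i j → G.Adj (φ i) (φ j)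

open Classical in
/-- labelled copies inside `W` that meet `S` -/
noncomputable def hit (H : SimpleGraph α) (G : SimpleGraph V) (W S : Finset V) : Finset (α → V) :=
  (emb H G W).filter fun φ => ∃ i, φ i ∈ S

variable {H : SimpleGraph α} {G : SimpleGraph V} [DecidableEq V] [DecidableEq V']

omit [DecidableEq V] in
theorem mem_emb {S : Finset V} {φ : α → V} : φ ∈ emb H G S ↔
    (∀ i, φ i ∈ S) ∧ Injective φ ∧ ∀ i j, H.Adj i j → G.Adj (φ i) (φ j) := by
  simp [emb]

omit [DecidableEq V] in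
theorem mem_hit {W S : Finset V} {φ : α → V} :
    φ ∈ hit H G W S ↔ φ ∈ emb H G W ∧ ∃ i, φ i ∈ S := by
  simp [hit]

omit [DecidableEq V] in
theorem emb_mono {A B : Finset V} (h : A ⊆ B) : emb H G A ⊆ emb H G B := fun _ hφ =>
  mem_emb.2 ⟨fun i => h ((mem_emb.1 hφ).1 i), (mem_emb.1 hφ).2⟩

omit [DecidableEq V] in
theorem hit_mono {W A B : Finset V} (h : A ⊆ B) : hit H G W A ⊆ hit H G W B := fun _ hφ => by
  obtain ⟨h1, i, hi⟩ := mem_hit.1 hφ
  exact mem_hit.2 ⟨h1, i, h hi⟩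

theorem emb_split (W S : Finset V) :
    (emb H G W).card = (emb H G (W \ S)).card + (hit H G W S).card := by
  classical
  rw [← card_filter_add_card_filter_not (s := emb H G W) (fun φ => ∃ i, φ i ∈ S), add_comm]
  congr 2
  · ext φ
    simp only [mem_filter, mem_emb, mem_sdiff, not_exists]
    exact ⟨fun h => ⟨fun i => ⟨h.1.1 i, h.2 i⟩, h.1.2⟩,
      fun h => ⟨⟨fun i => (h.1 i).1, h.2⟩, fun i => (h.1 i).2⟩⟩
  · ext φ
    simp only [mem_filter, mem_hit]

omit [DecidableEq V] [DecidableEq V'] in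
theorem emb_map {G' : SimpleGraph V'} {S : Finset V} {S' : Finset V'} (f : V → V')
    (h1 : Set.InjOn f S) (h2 : ∀ x ∈ S, f x ∈ S')
    (h3 : ∀ x ∈ S, ∀ y ∈ S, G.Adj x y → G'.Adj (f x) (f y)) :
    (emb H G S).card ≤ (emb H G' S').card := by
  refine card_le_card_of_injOn (fun φ => f ∘ φ) (fun φ hφ => ?_) fun φ hφ ψ hψ h => ?_
  · obtain ⟨a, b, c⟩ := mem_emb.1 (mem_coe.1 hφ)
    exact mem_coe.2 (mem_emb.2 ⟨fun i => h2 _ (a i), fun i j h => b (h1 (a i) (a j) h),
      fun i j h => h3 _ (a i) _ (a j) (c i j h)⟩)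
  · funext i
    exact h1 ((mem_emb.1 (mem_coe.1 hφ)).1 i) ((mem_emb.1 (mem_coe.1 hψ)).1 i) (congrFun h i)

omit [DecidableEq V] in
theorem ub {F : Finset (α → V)} (J : Finset α) (T : α → Finset V) {B : Finset V} {N : ℝ}
    (hB : (B.card : ℝ) ≤ N) (h1 : ∀ φ ∈ F, ∀ i ∈ J, φ i ∈ T i)
    (h2 : ∀ φ ∈ F, ∀ i ∉ J, φ i ∈ B) :
    (F.card : ℝ) ≤ (∏ i ∈ J, ((T i).card : ℝ)) * N ^ (Fintype.card α - J.card) := by
  have hs : F ⊆ Fintype.piFinset fun i => if i ∈ J then T i else B := by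
    intro φ hφ
    rw [Fintype.mem_piFinset]
    intro i
    split_ifs with h
    exacts [h1 φ hφ i h, h2 φ hφ i h]
  have h3 := card_le_card hs
  rw [Fintype.card_piFinset] at h3
  refine (Nat.cast_le.2 h3).trans ?_
  rw [Nat.cast_prod, ← prod_mul_prod_compl J]
  refine mul_le_mul (le_of_eq (prod_congr rfl fun i hi => by rw [if_pos hi])) ?_
    (prod_nonneg fun _ _ => Nat.cast_nonneg _) (prod_nonneg fun _ _ => Nat.cast_nonneg _)
  rw [← card_compl, ← prod_const]
  exact prod_le_prod (fun _ _ => Nat.cast_nonneg _) fun i hi => by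
    rw [if_neg (mem_compl.1 hi)]; exact hB

section
variable {F : Finset (α → V)} {B : Finset V} {N : ℝ} {j : ℕ}

omit [DecidableEq V] in
theorem ub0 (hB : (B.card : ℝ) ≤ N) (h2 : ∀ φ ∈ F, ∀ i, φ i ∈ B) :
    (F.card : ℝ) ≤ N ^ Fintype.card α := by
  simpa using ub ∅ (fun _ => B) hB (by simp) fun φ hφ i _ => h2 φ hφ i

omit [DecidableEq V] in
theorem ub1 (hc : Fintype.card α = j + 1) (a : α) (A : Finset V) (hB : (B.card : ℝ) ≤ N)
    (h1 : ∀ φ ∈ F, φ a ∈ A) (h2 : ∀ φ ∈ F, ∀ i, i ≠ a → φ i ∈ B) :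
    (F.card : ℝ) ≤ A.card * N ^ j := by
  have := ub {a} (fun _ => A) hB (by simpa using h1) (by simpa using h2)
  simpa [hc] using this

omit [DecidableEq V] in
theorem ub2 (hc : Fintype.card α = j + 2) {a b : α} (hab : a ≠ b) (A1 A2 : Finset V)
    (hB : (B.card : ℝ) ≤ N) (h1 : ∀ φ ∈ F, φ a ∈ A1 ∧ φ b ∈ A2)
    (h2 : ∀ φ ∈ F, ∀ i, i ≠ a → i ≠ b → φ i ∈ B) :
    (F.card : ℝ) ≤ A1.card * A2.card * N ^ j := by
  have := ub (F := F) {a, b} (fun i => if i = a then A1 else A2) hB (by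
    intro φ hφ i hi
    have := h1 φ hφ
    rcases mem_insert.1 hi with rfl | hi
    · simpa using this.1
    · rw [mem_singleton.1 hi]
      simpa [hab.symm] using this.2) (by
    intro φ hφ i hi
    simp only [mem_insert, mem_singleton, not_or] at hi
    exact h2 φ hφ i hi.1 hi.2)
  rw [prod_pair hab, card_pair hab, hc] at this
  simpa [hab.symm] using this

omit [DecidableEq V] in
theorem ub3 (hc : Fintype.card α = j + 3) {a b c : α} (hab : a ≠ b) (hac : a ≠ c) (hbc : b ≠ c)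
    (A1 A2 A3 : Finset V) (hB : (B.card : ℝ) ≤ N)
    (h1 : ∀ φ ∈ F, φ a ∈ A1 ∧ φ b ∈ A2 ∧ φ c ∈ A3)
    (h2 : ∀ φ ∈ F, ∀ i, i ≠ a → i ≠ b → i ≠ c → φ i ∈ B) :
    (F.card : ℝ) ≤ A1.card * A2.card * A3.card * N ^ j := by
  have := ub (F := F) {a, b, c} (fun i => if i = a then A1 else if i = b then A2 else A3) hB (by
    intro φ hφ i hi
    have := h1 φ hφ
    simp only [mem_insert, mem_singleton] at hi
    rcases hi with rfl | rfl | rfl
    · simpa using this.1
    · simpa [hab.symm] using this.2.1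
    · simpa [hac.symm, hbc.symm] using this.2.2) (by
    intro φ hφ i hi
    simp only [mem_insert, mem_singleton, not_or] at hi
    exact h2 φ hφ i hi.1 hi.2.1 hi.2.2)
  have ha : a ∉ ({b, c} : Finset α) := by simp [hab, hac]
  rw [prod_insert ha, card_insert_of_notMem ha, prod_pair hbc, card_pair hbc, hc] at this
  simpa [hab.symm, hac.symm, hbc.symm, mul_assoc] using this

omit [DecidableEq V] in
theorem ub4 (hc : Fintype.card α = j + 4) {a b c d : α} (hab : a ≠ b) (hac : a ≠ c) (had : a ≠ d)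
    (hbc : b ≠ c) (hbd : b ≠ d) (hcd : c ≠ d) (A1 A2 A3 A4 : Finset V) (hB : (B.card : ℝ) ≤ N)
    (h1 : ∀ φ ∈ F, φ a ∈ A1 ∧ φ b ∈ A2 ∧ φ c ∈ A3 ∧ φ d ∈ A4)
    (h2 : ∀ φ ∈ F, ∀ i, i ≠ a → i ≠ b → i ≠ c → i ≠ d → φ i ∈ B) :
    (F.card : ℝ) ≤ A1.card * A2.card * A3.card * A4.card * N ^ j := by
  have := ub (F := F) {a, b, c, d}
    (fun i => if i = a then A1 else if i = b then A2 else if i = c then A3 else A4) hB (by
    intro φ hφ i hi
    have := h1 φ hφ
    simp only [mem_insert, mem_singleton] at hi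
    rcases hi with rfl | rfl | rfl | rfl
    · simpa using this.1
    · simpa [hab.symm] using this.2.1
    · simpa [hac.symm, hbc.symm] using this.2.2.1
    · simpa [had.symm, hbd.symm, hcd.symm] using this.2.2.2) (by
    intro φ hφ i hi
    simp only [mem_insert, mem_singleton, not_or] at hi
    exact h2 φ hφ i hi.1 hi.2.1 hi.2.2.1 hi.2.2.2)
  have ha : a ∉ ({b, c, d} : Finset α) := by simp [hab, hac, had]
  have hb : b ∉ ({c, d} : Finset α) := by simp [hbc, hbd]
  rw [prod_insert ha, card_insert_of_notMem ha, prod_insert hb, card_insert_of_notMem hb,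
    prod_pair hcd, card_pair hcd, hc] at this
  simpa [hab.symm, hac.symm, had.symm, hbc.symm, hbd.symm, hcd.symm, mul_assoc] using this

end

section
variable {ι β : Type} [DecidableEq β]

theorem dc_eq (T : Finset ι) (U : Finset β) (R : ι → β → Prop) [∀ t φ, Decidable (R t φ)] :
    ∑ t ∈ T, (U.filter fun φ => R t φ).card = ∑ φ ∈ U, (T.filter fun t => R t φ).card := by
  simp only [card_filter]
  exact sum_comm

theorem dc_le {T : Finset ι} {U : Finset β} (F : ι → Finset β) (k : ℕ) (h1 : ∀ t ∈ T, F t ⊆ U)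
    (h2 : ∀ φ ∈ U, (T.filter fun t => φ ∈ F t).card ≤ k) :
    ∑ t ∈ T, ((F t).card : ℝ) ≤ k * U.card := by
  have h3 : ∑ t ∈ T, (F t).card = ∑ t ∈ T, (U.filter fun φ => φ ∈ F t).card :=
    sum_congr rfl fun t ht => by rw [filter_mem_eq_inter, inter_eq_right.2 (h1 t ht)]
  have h4 := sum_le_card_nsmul _ _ _ h2
  rw [← dc_eq, ← h3, smul_eq_mul, mul_comm] at h4
  exact_mod_cast h4

theorem dc_ge {T : Finset ι} {U : Finset β} (R : ι → β → Prop) [∀ t φ, Decidable (R t φ)]
    (k : ℕ) (b : ι → ℝ) (h2 : ∀ φ ∈ U, k ≤ (T.filter fun t => R t φ).card)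
    (h3 : ∀ t ∈ T, ((U.filter fun φ => R t φ).card : ℝ) ≤ b t) :
    (k : ℝ) * U.card ≤ ∑ t ∈ T, b t := by
  have h4 := card_nsmul_le_sum _ _ _ h2
  rw [← dc_eq, smul_eq_mul, mul_comm] at h4
  refine le_trans ?_ (sum_le_sum h3)
  exact_mod_cast h4

theorem cover {T : Finset ι} {U : Finset β} (R : ι → β → Prop) [∀ t φ, Decidable (R t φ)]
    (b : ι → ℝ) (h2 : ∀ φ ∈ U, ∃ t ∈ T, R t φ)
    (h3 : ∀ t ∈ T, ((U.filter fun φ => R t φ).card : ℝ) ≤ b t) :
    (U.card : ℝ) ≤ ∑ t ∈ T, b t := by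
  have := dc_ge R 1 b (fun φ hφ => by
    obtain ⟨t, a, b⟩ := h2 φ hφ
    exact card_pos.2 ⟨t, mem_filter.2 ⟨a, b⟩⟩) h3
  simpa using this

end

open Classical in
/-- extensions of `ψ` on `J` whose free vertices are joined to all other vertices -/
noncomputable def xt (Γ : SimpleGraph V) (S : Finset V) (J A : Finset α) (ψ : α → V) :
    Finset (α → V) :=
  (Fintype.piFinset fun i => if i ∈ A then S else {ψ i}).filter fun φ =>
    ∀ i ∈ A, ∀ i' ∈ A ∪ J, i' ≠ i → Γ.Adj (φ i) (φ i')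

omit [DecidableEq V] in
theorem mem_xt {Γ : SimpleGraph V} {S : Finset V} {J A : Finset α} {ψ φ : α → V} :
    φ ∈ xt Γ S J A ψ ↔ (∀ i ∈ A, φ i ∈ S) ∧ (∀ i ∉ A, φ i = ψ i) ∧
      ∀ i ∈ A, ∀ i' ∈ A ∪ J, i' ≠ i → Γ.Adj (φ i) (φ i') := by
  simp only [xt, mem_filter, Fintype.mem_piFinset, ← and_assoc]
  refine and_congr_left' ⟨fun h => ⟨fun i hi => ?_, fun i hi => ?_⟩, fun h i => ?_⟩
  · simpa [hi] using h i
  · simpa [hi] using h i
  · split_ifs with hi
    exacts [h.1 i hi, mem_singleton.2 (h.2 i hi)]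

theorem common {Γ : SimpleGraph V} {S : Finset V} {a : ℝ}
    (ha : ∀ y ∈ S, ((S \ nb Γ S y).card : ℝ) ≤ a) (I : Finset α) (φ : α → V)
    (hφ : ∀ i ∈ I, φ i ∈ S) [DecidablePred fun y => ∀ i ∈ I, Γ.Adj (φ i) y] :
    S.card - I.card * a ≤ ((S.filter fun y => ∀ i ∈ I, Γ.Adj (φ i) y).card : ℝ) := by
  classical
  have h1 := card_filter_add_card_filter_not (s := S) (fun y => ∀ i ∈ I, Γ.Adj (φ i) y)
  have h2 := cover (T := I) (U := S.filter fun y => ¬ ∀ i ∈ I, Γ.Adj (φ i) y)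
    (fun i y => ¬ Γ.Adj (φ i) y) (fun _ => a) (fun y hy => by
      have := (mem_filter.1 hy).2
      push Not at this
      exact this) fun i hi => le_trans (Nat.cast_le.2 (card_le_card fun y hy => by
        simp only [mem_filter, mem_sdiff, mem_nb] at hy ⊢
        tauto)) (ha _ (hφ i hi))
  rw [sum_const, nsmul_eq_mul] at h2
  have h3 : ((S.filter fun y => ∀ i ∈ I, Γ.Adj (φ i) y).card : ℝ) +
      (S.filter fun y => ¬ ∀ i ∈ I, Γ.Adj (φ i) y).card = S.card := by exact_mod_cast h1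
  linarith

theorem lb_aux {Γ : SimpleGraph V} {S : Finset V} {a : ℝ} (a0 : 0 ≤ a)
    (ha : ∀ y ∈ S, ((S \ nb Γ S y).card : ℝ) ≤ a) (J : Finset α) (ψ : α → V)
    (hψ : ∀ i ∈ J, ψ i ∈ S) (hs : Fintype.card α * a ≤ S.card) (A : Finset α) :
    Disjoint A J → (S.card - Fintype.card α * a) ^ A.card ≤ ((xt Γ S J A ψ).card : ℝ) := by
  classical
  induction A using Finset.induction_on with
  | empty =>
    intro _
    have : 0 < (xt Γ S J ∅ ψ).card := card_pos.2 ⟨ψ, mem_xt.2 (by simp)⟩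
    simpa using this
  | insert x A hx ih =>
    intro hd
    rw [disjoint_insert_left] at hd
    have h1 := ih hd.2
    set L := (S.card : ℝ) - Fintype.card α * a with hL
    have L0 : 0 ≤ L := by linarith
    set C : (α → V) → Finset V := fun φ => S.filter fun y => ∀ i ∈ A ∪ J, Γ.Adj (φ i) y with hC
    have h2 : ∀ φ ∈ xt Γ S J A ψ, L ≤ (C φ).card := by
      intro φ hφ
      obtain ⟨p1, p2, -⟩ := mem_xt.1 hφ
      refine le_trans ?_ (common ha (A ∪ J) φ fun i hi => ?_)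
      · have : ((A ∪ J).card : ℝ) ≤ Fintype.card α := by exact_mod_cast card_le_univ _
        have := mul_le_mul_of_nonneg_right this a0
        linarith
      · by_cases h : i ∈ A
        · exact p1 i h
        · rw [p2 i h]
          exact hψ i ((mem_union.1 hi).resolve_left h)
    have h3 : ((xt Γ S J A ψ).sigma C).card ≤ (xt Γ S J (insert x A) ψ).card := by
      refine card_le_card_of_injOn (fun p => update p.1 x p.2) (fun p hp => ?_)
        fun p hp q hq h => ?_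
      · obtain ⟨hp1, hp2⟩ := mem_sigma.1 (mem_coe.1 hp)
        obtain ⟨p1, p2, p3⟩ := mem_xt.1 hp1
        obtain ⟨p4, p5⟩ := mem_filter.1 hp2
        have hne : ∀ i ∈ A ∪ J, i ≠ x := fun i hi h => by
          rcases mem_union.1 hi with hi | hi
          exacts [hx (h ▸ hi), hd.1 (h ▸ hi)]
        refine mem_coe.2 (mem_xt.2 ⟨fun i hi => ?_, fun i hi => ?_, fun i hi i' hi' hii => ?_⟩)
        · rcases mem_insert.1 hi with rfl | hi
          · simpa using p4
          · simpa [hne i (mem_union_left _ hi)] using p1 i hi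
        · rw [mem_insert, not_or] at hi
          simpa [hi.1] using p2 i hi.2
        · rw [insert_union, mem_insert] at hi'
          rcases mem_insert.1 hi with rfl | hi
          · have := hi'.resolve_left hii
            simpa [hii] using (p5 i' this).symm
          · have hi2 := mem_union_left J hi
            rcases hi' with rfl | hi'
            · simpa [hne i hi2] using p5 i hi2
            · simpa [hne i hi2, hne i' hi'] using p3 i hi i' hi' hii
      · obtain ⟨p1, p2⟩ := p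
        obtain ⟨q1, q2⟩ := q
        have e1 := (mem_xt.1 (mem_sigma.1 (mem_coe.1 hp)).1).2.1 x hx
        have e2 := (mem_xt.1 (mem_sigma.1 (mem_coe.1 hq)).1).2.1 x hx
        have e3 : p2 = q2 := by simpa using congrFun h x
        have e4 : p1 = q1 := by
          funext i
          by_cases hi : i = x
          · rw [hi]; exact e1.trans e2.symm
          · simpa [hi] using congrFun h i
        rw [e3, e4]
    rw [card_sigma] at h3
    have h4 := card_nsmul_le_sum _ _ _ h2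
    rw [nsmul_eq_mul, ← Nat.cast_sum] at h4
    rw [card_insert_of_notMem hx, pow_succ]
    exact (mul_le_mul_of_nonneg_right h1 L0).trans (h4.trans (Nat.cast_le.2 h3))

/-- greedy extension -/
theorem lb {Γ : SimpleGraph V} {S : Finset V} {a : ℝ} (a0 : 0 ≤ a)
    (ha : ∀ y ∈ S, ((S \ nb Γ S y).card : ℝ) ≤ a) (J : Finset α) (ψ : α → V)
    (hψ : ∀ i ∈ J, ψ i ∈ S) (hs : Fintype.card α * a ≤ S.card) :
    ∃ F : Finset (α → V), (S.card - Fintype.card α * a) ^ (Fintype.card α - J.card) ≤ F.card ∧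
      ∀ φ ∈ F, (∀ i, φ i ∈ S) ∧ (∀ i ∈ J, φ i = ψ i) ∧
        ∀ i i', i ≠ i' → (i ∉ J ∨ i' ∉ J) → Γ.Adj (φ i) (φ i') := by
  refine ⟨xt Γ S J Jᶜ ψ, ?_, fun φ hφ => ?_⟩
  · rw [← card_compl]
    exact lb_aux a0 ha J ψ hψ hs _ disjoint_compl_left
  · obtain ⟨p1, p2, p3⟩ := mem_xt.1 hφ
    have p4 : ∀ i ∈ J, φ i = ψ i := fun i hi => p2 i (by simpa using hi)
    have p5 : ∀ i, i ∈ Jᶜ ∪ J := fun i => by simp [em']
    refine ⟨fun i => ?_, p4, fun i i' h h' => ?_⟩
    · by_cases hi : i ∈ J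
      · rw [p4 i hi]; exact hψ i hi
      · exact p1 i (mem_compl.2 hi)
    · rcases h' with h' | h'
      · exact p3 i (mem_compl.2 h') i' (p5 _) h.symm
      · exact (p3 i' (mem_compl.2 h') i (p5 _) h).symm

end Pool.Agent.GL2
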