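import Pool.Agent.P.MP_dfe42f_co.HfA

/-! Copies through one or two vertices; increments of the count in Turán graphs. -/

namespace Pool.Agent.GL2
open Finset Pool.Agent.GLT Function

set_option linter.unusedSectionVars false

variable {α V : Type} [Fintype α] [DecidableEq α]

open Classical in
/-- copies through two given vertices -/
noncomputable def th2 (H : SimpleGraph α) (G : SimpleGraph V) (S : Finset V) (x y : V) :
    Finset (α → V) :=
  (emb H G S).filter fun φ => (∃ i, φ i = x) ∧ ∃ i, φ i = y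

/-- complete multipartite graph of a colouring -/
def Kc (col : V → ℕ) : SimpleGraph V := SimpleGraph.comap col ⊤

/-- labelled copies in the Turán graph -/
noncomputable def gg (H : SimpleGraph α) (w i : ℕ) : ℝ :=
  ((emb H (Kc fun x => x % w) (range i)).card : ℝ)

@[simp] theorem Kc_adj {col : V → ℕ} {x y : V} : (Kc col).Adj x y ↔ col x ≠ col y := Iff.rfl

variable {H : SimpleGraph α} {G : SimpleGraph V} [DecidableEq V] {j : ℕ}

theorem mem_th2 {S : Finset V} {x y : V} {φ : α → V} :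
    φ ∈ th2 H G S x y ↔ φ ∈ emb H G S ∧ (∃ i, φ i = x) ∧ ∃ i, φ i = y := by
  simp [th2]

theorem emb_of_adj {S : Finset V} {φ : α → V} (h1 : ∀ i, φ i ∈ S)
    (h2 : ∀ i i', i ≠ i' → G.Adj (φ i) (φ i')) : φ ∈ emb H G S :=
  mem_emb.2 ⟨h1, fun i i' h => by_contra fun hn => (h2 i i' hn).ne h, fun i i' h => h2 i i' h.ne⟩

theorem emb_ge {S : Finset V} {a : ℝ} (a0 : 0 ≤ a)
    (ha : ∀ y ∈ S, ((S \ nb G S y).card : ℝ) ≤ a) (hs : Fintype.card α * a ≤ S.card)
    [Inhabited V] :
    (S.card - Fintype.card α * a) ^ Fintype.card α ≤ ((emb H G S).card : ℝ) := by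
  obtain ⟨F, h1, h2⟩ := lb a0 ha (∅ : Finset α) (fun _ => default) (by simp) hs
  refine le_trans (by simpa using h1) (Nat.cast_le.2 (card_le_card fun φ hφ => ?_))
  exact emb_of_adj (h2 φ hφ).1 fun i i' h => (h2 φ hφ).2.2 i i' h (by simp)

theorem hit1_ge (hc : Fintype.card α = j + 1) {S : Finset V} {a : ℝ} (a0 : 0 ≤ a)
    (ha : ∀ y ∈ S, ((S \ nb G S y).card : ℝ) ≤ a) (hs : (j + 1) * a ≤ S.card) {x : V}
    (hx : x ∈ S) : (j + 1) * (S.card - (j + 1) * a) ^ j ≤ ((hit H G S {x}).card : ℝ) := by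
  have hs' : Fintype.card α * a ≤ S.card := by rw [hc]; push_cast; exact hs
  choose F h1 h2 using fun v : α => lb a0 ha {v} (fun _ => x) (fun _ _ => hx) hs'
  have h3 := dc_le (T := univ) (U := hit H G S {x}) F 1 (fun v _ φ hφ => by
    obtain ⟨p1, p2, p3⟩ := h2 v φ hφ
    refine mem_hit.2 ⟨emb_of_adj p1 fun i i' h => p3 i i' h ?_, v, by simpa using p2⟩
    simp only [mem_singleton]
    by_contra hh
    push Not at hh
    exact h (hh.1.trans hh.2.symm)) fun φ hφ => card_le_one.2 fun u hu v hv => by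
      have e1 := (h2 u φ (mem_filter.1 hu).2).2.1 u (mem_singleton_self _)
      have e2 := (h2 v φ (mem_filter.1 hv).2).2.1 v (mem_singleton_self _)
      exact (mem_emb.1 (mem_hit.1 hφ).1).2.1 (e1.trans e2.symm)
  have h4 := card_nsmul_le_sum univ _ ((S.card - (j + 1) * a) ^ j) fun v _ =>
    (show _ ≤ ((F v).card : ℝ) by simpa [hc] using h1 v)
  rw [card_univ, hc, nsmul_eq_mul] at h4
  push_cast at h3 h4
  linarith

theorem hit1_le (hc : Fintype.card α = j + 1) (S : Finset V) {N : ℝ} (hN : (S.card : ℝ) ≤ N)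
    (x : V) : ((hit H G S {x}).card : ℝ) ≤ (j + 1) * N ^ j := by
  have := cover (T := univ) (U := hit H G S {x}) (fun v φ => φ v = x) (fun _ => N ^ j)
    (fun φ hφ => by simpa using (mem_hit.1 hφ).2) fun v _ => by
      simpa using ub1 (F := (hit H G S {x}).filter fun φ => φ v = x) hc v {x} hN
        (fun φ hφ => mem_singleton.2 (mem_filter.1 hφ).2)
        fun φ hφ i _ => (mem_emb.1 (mem_hit.1 (mem_filter.1 hφ).1).1).1 i
  simpa [hc] using this

theorem th2_ge (hc : Fintype.card α = j + 2) {S : Finset V} {a : ℝ} (a0 : 0 ≤ a)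
    (ha : ∀ y ∈ S, ((S \ nb G S y).card : ℝ) ≤ a) (hs : (j + 2) * a ≤ S.card) {x y : V}
    (hx : x ∈ S) (hy : y ∈ S) (hxy : G.Adj x y) :
    (j + 2) * (j + 1) * (S.card - (j + 2) * a) ^ j ≤ ((th2 H G S x y).card : ℝ) := by
  have hs' : Fintype.card α * a ≤ S.card := by rw [hc]; push_cast; exact hs
  choose F h1 h2 using fun v : α × α => lb a0 ha {v.1, v.2} (fun i => if i = v.1 then x else y)
    (fun i _ => by split_ifs <;> assumption) hs'
  have e : ∀ v ∈ (univ : Finset α).offDiag, ∀ φ ∈ F v, φ v.1 = x ∧ φ v.2 = y := by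
    intro v hv φ hφ
    have := (h2 v φ hφ).2.1
    exact ⟨by simpa using this v.1 (by simp), by
      simpa [(mem_offDiag.1 hv).2.2.symm] using this v.2 (by simp)⟩
  have h3 := dc_le (T := (univ : Finset α).offDiag) (U := th2 H G S x y) F 1
    (fun v hv φ hφ => by
      obtain ⟨p1, -, p3⟩ := h2 v φ hφ
      obtain ⟨e1, e2⟩ := e v hv φ hφ
      refine mem_th2.2 ⟨emb_of_adj p1 fun i i' h => ?_, ⟨_, e1⟩, _, e2⟩
      by_cases hh : i ∉ ({v.1, v.2} : Finset α) ∨ i' ∉ ({v.1, v.2} : Finset α)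
      · exact p3 i i' h hh
      · rw [not_or, not_not, not_not] at hh
        simp only [mem_insert, mem_singleton] at hh
        rcases hh with ⟨rfl | rfl, rfl | rfl⟩
        · exact absurd rfl h
        · rw [e1, e2]; exact hxy
        · rw [e1, e2]; exact hxy.symm
        · exact absurd rfl h) fun φ hφ => card_le_one.2 fun u hu v hv => by
      have e1 := e u (mem_filter.1 hu).1 φ (mem_filter.1 hu).2
      have e2 := e v (mem_filter.1 hv).1 φ (mem_filter.1 hv).2
      have hi := (mem_emb.1 (mem_th2.1 hφ).1).2.1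
      exact Prod.ext (hi (e1.1.trans e2.1.symm)) (hi (e1.2.trans e2.2.symm))
  have h4 := card_nsmul_le_sum (univ : Finset α).offDiag _ ((S.card - (j + 2) * a) ^ j)
    fun v hv => (show _ ≤ ((F v).card : ℝ) by
      simpa [hc, card_pair (mem_offDiag.1 hv).2.2] using h1 v)
  rw [offDiag_card, card_univ, hc, nsmul_eq_mul,
    show (j + 2) * (j + 2) - (j + 2) = (j + 2) * (j + 1) from
      Nat.sub_eq_of_eq_add (by ring)] at h4
  push_cast at h3 h4
  linarith

theorem th2_le (hc : Fintype.card α = j + 2) (S : Finset V) {N : ℝ} (hN : (S.card : ℝ) ≤ N)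
    {x y : V} (hxy : x ≠ y) : ((th2 H G S x y).card : ℝ) ≤ (j + 2) ^ 2 * N ^ j := by
  have N0 : 0 ≤ N := (Nat.cast_nonneg _).trans hN
  have := cover (T := univ) (U := th2 H G S x y) (fun v : α × α => fun φ => φ v.1 = x ∧ φ v.2 = y)
    (fun _ => N ^ j) (fun φ hφ => by
      obtain ⟨-, ⟨a, ha⟩, b, hb⟩ := mem_th2.1 hφ
      exact ⟨(a, b), mem_univ _, ha, hb⟩) fun v _ => by
      by_cases hv : v.1 = v.2
      · rw [filter_false_of_mem fun φ _ h => hxy (h.1.symm.trans (hv ▸ h.2))]
        simpa using pow_nonneg N0 j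
      simpa using ub2 (F := (th2 H G S x y).filter fun φ => φ v.1 = x ∧ φ v.2 = y) hc hv {x} {y}
        hN (fun φ hφ => by simpa using (mem_filter.1 hφ).2)
        fun φ hφ i _ _ => (mem_emb.1 (mem_th2.1 (mem_filter.1 hφ).1).1).1 i
  simpa [hc, sq] using this

theorem nn_Kc (col : V → ℕ) (S : Finset V) (y : V) :
    S \ nb (Kc col) S y = S.filter fun x => col x = col y := by
  ext x
  simp only [mem_sdiff, mem_nb, Kc_adj, mem_filter]
  tauto

theorem cls_card {w : ℕ} (hw : 0 < w) (n y : ℕ) :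
    ((range n).filter fun x => x % w = y % w).card = n / w + if y % w < n % w then 1 else 0 := by
  have h := Nat.count_modEq_card n hw y
  rw [Nat.count_eq_card_filter_range] at h
  exact h

theorem cls_le {w m n : ℕ} (hw : 0 < w) (hn : n ≤ w * m) (y : ℕ) :
    ((range n \ nb (Kc fun x => x % w) (range n) y).card : ℝ) ≤ m := by
  rw [nn_Kc]
  have h1 := cls_card hw (w * m) y
  rw [Nat.mul_div_cancel_left _ hw, Nat.mul_mod_right] at h1
  have h2 := card_le_card (filter_subset_filter (fun x => x % w = y % w) (range_subset_range.2 hn))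
  rw [h1] at h2
  simpa using h2

theorem gg_nonneg (w i : ℕ) : 0 ≤ gg H w i := Nat.cast_nonneg _

theorem gg_le (w i : ℕ) : gg H w i ≤ (i : ℝ) ^ Fintype.card α :=
  ub0 (B := range i) (by simp) fun _ hφ => (mem_emb.1 hφ).1

theorem gg_succ (w t : ℕ) : gg H w (t + 1) - gg H w t =
    (hit H (Kc fun x => x % w) (range (t + 1)) {t}).card := by
  have := emb_split (H := H) (G := Kc fun x => x % w) (range (t + 1)) {t}
  rw [show range (t + 1) \ {t} = range t by
    ext x; simp only [mem_sdiff, mem_range, mem_singleton]; omega] at this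
  rw [gg, gg, this]
  push_cast
  ring

theorem gg_ge (hc : Fintype.card α = j + 1) {w m i : ℕ} (hw : 0 < w) (hi : i ≤ w * m) {N : ℝ}
    (hN : (i : ℝ) ≤ N) : (i : ℝ) ^ (j + 1) - (j + 1) ^ 2 * m * N ^ j ≤ gg H w i := by
  have i0 : (0 : ℝ) ≤ i := Nat.cast_nonneg _
  have j0 : (0 : ℝ) ≤ j := Nat.cast_nonneg _
  have m0 : (0 : ℝ) ≤ m := Nat.cast_nonneg _
  have h1 : (i : ℝ) ^ j ≤ N ^ j := pow_le_pow_left₀ i0 hN _
  have h2 : (0 : ℝ) ≤ (i : ℝ) ^ j := by positivity
  have h5 := mul_le_mul_of_nonneg_left h1 (show (0 : ℝ) ≤ (j + 1) ^ 2 * m by positivity)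
  rcases le_total ((j + 1) * (m : ℝ)) i with h | h
  · have h3 := emb_ge (H := H) m0 (fun y _ => cls_le hw hi y) (by simpa [hc] using h)
    rw [card_range, hc] at h3
    push_cast at h3
    refine le_trans ?_ h3
    have key : ∀ k : ℕ, (i : ℝ) ^ (k + 1) - (k + 1) * ((j + 1) * m) * (i : ℝ) ^ k ≤
        (i - (j + 1) * m) ^ (k + 1) := by
      intro k
      induction k with
      | zero => simp
      | succ k ih =>
        have := mul_le_mul_of_nonneg_right ih (sub_nonneg.2 h)
        have h4 : 0 ≤ (k + 1 : ℝ) * ((j + 1) * m) ^ 2 * (i : ℝ) ^ k := by positivity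
        rw [pow_succ _ (k + 1), pow_succ _ (k + 1), pow_succ (i : ℝ) k] at *
        push_cast
        nlinarith
    have := key j
    nlinarith
  · have := gg_nonneg (H := H) w i
    have h3 := mul_le_mul_of_nonneg_right h h2
    rw [pow_succ]
    nlinarith [mul_nonneg (mul_nonneg j0 (show (0 : ℝ) ≤ (j + 1) * m by positivity)) h2]

theorem gg_add_ge (hc : Fintype.card α = j + 1) {w m a : ℕ} (hw : 0 < w) {L : ℝ} (L0 : 0 ≤ L)
    (hL : L + (j + 1) * m ≤ a) (u : ℕ) (hu : a + u ≤ w * m) :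
    gg H w a + u * ((j + 1) * L ^ j) ≤ gg H w (a + u) := by
  induction u with
  | zero => simp
  | succ u ih =>
    have h1 := ih (by omega)
    have h2 := gg_succ (H := H) w (a + u)
    have u0 : (0 : ℝ) ≤ u := Nat.cast_nonneg _
    have h3 := hit1_ge (H := H) hc (S := range (a + u + 1)) (Nat.cast_nonneg m)
      (fun y _ => cls_le hw hu y) (by rw [card_range]; push_cast; linarith)
      (self_mem_range_succ (a + u))
    have h4 : L ^ j ≤ (((range (a + u + 1)).card : ℝ) - (j + 1) * m) ^ j :=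
      pow_le_pow_left₀ L0 (by rw [card_range]; push_cast; linarith) _
    have h5 := mul_le_mul_of_nonneg_left h4 (show (0 : ℝ) ≤ j + 1 by positivity)
    rw [← add_assoc]
    push_cast
    linarith

theorem gg_add_le (hc : Fintype.card α = j + 1) (w a u : ℕ) {L : ℝ} (hL : (a : ℝ) + u ≤ L) :
    gg H w (a + u) ≤ gg H w a + u * ((j + 1) * L ^ j) := by
  induction u with
  | zero => simp
  | succ u ih =>
    push_cast at hL
    have h1 := ih (by linarith)
    have h2 := gg_succ (H := H) w (a + u)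
    have h3 := hit1_le (H := H) (G := Kc fun x => x % w) hc (range (a + u + 1)) (N := L)
      (by rw [card_range]; push_cast; linarith) (a + u)
    rw [← add_assoc]
    push_cast
    linarith

theorem gg_shift (w t : ℕ) : gg H w (t + 1) - gg H w t +
    (th2 H (Kc fun x => x % w) (range (t + 2)) 0 (t + 1)).card ≤
      gg H w (t + 2) - gg H w (t + 1) := by
  classical
  rw [gg_succ, gg_succ]
  set U := hit H (Kc fun x => x % w) (range (t + 1 + 1)) {t + 1} with hU
  have h1 := card_filter_add_card_filter_not (s := U) (fun φ => ∃ i, φ i = 0)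
  have h2 : (th2 H (Kc fun x => x % w) (range (t + 2)) 0 (t + 1)).card ≤
      (U.filter fun φ => ∃ i, φ i = 0).card := card_le_card fun φ hφ => by
    obtain ⟨a, b, c⟩ := mem_th2.1 hφ
    exact mem_filter.2 ⟨mem_hit.2 ⟨a, by simpa using c⟩, b⟩
  have h3 : (hit H (Kc fun x => x % w) (range (t + 1)) {t}).card ≤
      (U.filter fun φ => ¬ ∃ i, φ i = 0).card := by
    refine card_le_card_of_injOn (fun φ i => φ i + 1) (fun φ hφ => ?_) fun φ _ ψ _ h => ?_
    · obtain ⟨a, i, hi⟩ := mem_hit.1 (mem_coe.1 hφ)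
      obtain ⟨a1, a2, a3⟩ := mem_emb.1 a
      refine mem_coe.2 (mem_filter.2 ⟨mem_hit.2 ⟨mem_emb.2 ⟨fun i => ?_, fun i i' h => a2 ?_,
        fun i i' h h' => a3 i i' h ?_⟩, i, by simpa using hi⟩, by simp⟩)
      · simpa using a1 i
      · simpa using h
      · exact Nat.ModEq.add_right_cancel' 1 h'
    · funext i
      simpa using congrFun h i
  have : (hit H (Kc fun x => x % w) (range (t + 1)) {t}).card +
      (th2 H (Kc fun x => x % w) (range (t + 2)) 0 (t + 1)).card ≤ U.card := by omega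
  exact_mod_cast this

theorem gg_second (hc : Fintype.card α = j + 2) {w m t : ℕ} (hw : 0 < w) {L : ℝ} (L0 : 0 ≤ L)
    (hL : L + (j + 2) * m ≤ t) (ht : t + 2 ≤ w * m) (hd : ¬ w ∣ t + 1) :
    gg H w (t + 1) - gg H w t + (j + 2) * (j + 1) * L ^ j ≤ gg H w (t + 2) - gg H w (t + 1) := by
  refine le_trans ?_ (gg_shift w t)
  have h3 := th2_ge (H := H) hc (S := range (t + 2)) (Nat.cast_nonneg m)
    (fun y _ => cls_le hw ht y) (by rw [card_range]; push_cast; linarith) (x := 0) (y := t + 1)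
    (by simp) (by simp) (by
      rw [Kc_adj, Nat.zero_mod]
      exact fun h => hd (Nat.dvd_of_mod_eq_zero h.symm))
  have h4 : L ^ j ≤ (((range (t + 2)).card : ℝ) - (j + 2) * m) ^ j :=
    pow_le_pow_left₀ L0 (by rw [card_range]; push_cast; linarith) _
  have h5 := mul_le_mul_of_nonneg_left h4 (show (0 : ℝ) ≤ (j + 2) * (j + 1) by positivity)
  linarith

section
variable {g : ℕ → ℝ} {N w t0 : ℕ} {D : ℝ}

theorem cv_mono (h1 : ∀ t, g (t + 1) - g t ≤ g (t + 2) - g (t + 1)) (t v : ℕ) :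
    g (t + 1) - g t ≤ g (t + v + 1) - g (t + v) := by
  induction v with
  | zero => simp
  | succ v ih => exact ih.trans (h1 (t + v))

theorem cv_block (h1 : ∀ t, g (t + 1) - g t ≤ g (t + 2) - g (t + 1)) (t v u : ℕ) :
    g (t + u) - g t ≤ g (t + v + u) - g (t + v) := by
  induction u with
  | zero => simp
  | succ u ih =>
    have := cv_mono h1 (t + u) v
    rw [show t + u + v = t + v + u by ring] at this
    rw [← add_assoc, ← add_assoc]
    linarith

theorem cv_gap (h1 : ∀ t, g (t + 1) - g t ≤ g (t + 2) - g (t + 1)) (hw : 2 ≤ w) (D0 : 0 ≤ D)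
    (h2 : ∀ t, t0 ≤ t → t + 2 ≤ N → ¬ w ∣ t + 1 →
      g (t + 1) - g t + 3 * D ≤ g (t + 2) - g (t + 1)) {t : ℕ} (ht : t0 ≤ t) (v : ℕ) :
    t + (v + 2) + 1 ≤ N → g (t + 1) - g t + (v + 2 : ℕ) * D ≤
      g (t + (v + 2) + 1) - g (t + (v + 2)) := by
  have two : ∀ t, t0 ≤ t → t + 3 ≤ N →
      g (t + 1) - g t + 3 * D ≤ g (t + 3) - g (t + 2) := by
    intro t a b
    by_cases hd : w ∣ t + 1
    · have := h2 (t + 1) (by omega) (by omega) fun h => by
        have := (Nat.dvd_add_right hd).1 h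
        have := Nat.le_of_dvd one_pos this
        omega
      linarith [h1 t]
    · linarith [h2 t a (by omega) hd, h1 (t + 1)]
  induction v using Nat.twoStepInduction with
  | zero =>
    intro h
    have := two t ht h
    push_cast
    linarith
  | one =>
    intro h
    have := two t ht (by omega)
    have := h1 (t + 2)
    push_cast
    linarith
  | more v ih _ =>
    intro h
    have := ih (by omega)
    have := two (t + (v + 2)) (by omega) (by omega)
    push_cast at *
    rw [show t + (v + 2 + 2) + 1 = t + (v + 2) + 3 by ring,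
      show t + (v + 2 + 2) = t + (v + 2) + 2 by ring]
    linarith

theorem cv_pair (h1 : ∀ t, g (t + 1) - g t ≤ g (t + 2) - g (t + 1)) (hw : 2 ≤ w) (D0 : 0 ≤ D)
    (h2 : ∀ t, t0 ≤ t → t + 2 ≤ N → ¬ w ∣ t + 1 →
      g (t + 1) - g t + 3 * D ≤ g (t + 2) - g (t + 1)) (hN : w ∣ N) {t u v : ℕ} (ht : t0 ≤ t)
    (u1 : 1 ≤ u) (uv : u ≤ v) (e : t + v + u = N) :
    g (t + u) - g t + u * v * D ≤ g N - g (t + v) := by
  rcases eq_or_lt_of_le (u1.trans uv) with rfl | hv
  · obtain rfl : u = 1 := by omega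
    have := h2 t ht (by omega) fun h => by
      rw [← e] at hN
      have := Nat.le_of_dvd one_pos ((Nat.dvd_add_right h).1 hN)
      omega
    rw [← e]
    push_cast
    linarith
  obtain ⟨v, rfl⟩ : ∃ v', v = v' + 2 := ⟨v - 2, by omega⟩
  have key : ∀ i, t + (v + 2) + i ≤ N →
      g (t + i) - g t + i * (v + 2 : ℕ) * D ≤ g (t + (v + 2) + i) - g (t + (v + 2)) := by
    intro i
    induction i with
    | zero => simp
    | succ i ih =>
      intro h
      have a1 := ih (by omega)
      have a2 := cv_gap h1 hw D0 h2 (t := t + i) (by omega) v (by omega)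
      rw [show t + i + (v + 2) = t + (v + 2) + i by ring] at a2
      rw [← add_assoc, ← add_assoc]
      push_cast at *
      linarith
  rw [← e]
  exact key u e.le

theorem cv_many {ι : Type} [DecidableEq ι]
    (h1 : ∀ t, g (t + 1) - g t ≤ g (t + 2) - g (t + 1)) (hw : 2 ≤ w) (D0 : 0 ≤ D)
    (h2 : ∀ t, t0 ≤ t → t + 2 ≤ N → ¬ w ∣ t + 1 →
      g (t + 1) - g t + 3 * D ≤ g (t + 2) - g (t + 1)) (hN : w ∣ N) (κ : ι → ℕ) {v : ℕ}
    (hv : t0 + 2 * v ≤ N) (A : Finset ι) : (∀ i ∈ A, 1 ≤ κ i ∧ κ i ≤ v) → v + ∑ i ∈ A, κ i ≤ N →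
    ∑ i ∈ A, g (N - κ i) + g (N - v) + v * (∑ i ∈ A, κ i : ℕ) * D ≤
      A.card * g N + g (N - (v + ∑ i ∈ A, κ i)) := by
  induction A using Finset.induction_on with
  | empty => simp
  | insert x A hx ih =>
    intro a b
    rw [sum_insert hx] at b
    have a1 := ih (fun i hi => a i (mem_insert_of_mem hi)) (by omega)
    obtain ⟨a2, a3⟩ := a x (mem_insert_self _ _)
    have a4 := cv_pair h1 hw D0 h2 hN (t := N - κ x - v) (by omega) a2 a3 (by omega)
    have a5 := cv_block h1 (N - (v + (κ x + ∑ i ∈ A, κ i))) (∑ i ∈ A, κ i) (κ x)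
    rw [show N - κ x - v + κ x = N - v by omega, show N - κ x - v + v = N - κ x by omega] at a4
    rw [show N - (v + (κ x + ∑ i ∈ A, κ i)) + κ x = N - (v + ∑ i ∈ A, κ i) by omega,
      show N - (v + (κ x + ∑ i ∈ A, κ i)) + ∑ i ∈ A, κ i + κ x = N - v by omega,
      show N - (v + (κ x + ∑ i ∈ A, κ i)) + ∑ i ∈ A, κ i = N - κ x - v by omega] at a5
    rw [sum_insert hx, sum_insert hx, card_insert_of_notMem hx]
    push_cast at *
    linarith

end

end Pool.Agent.GL2
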