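import Pool.Agent.P.MP_dfe42f_co.HfB

/-! The Erdős partition and the comparison with a complete multipartite graph. -/

namespace Pool.Agent.GL2
open Finset Pool.Agent.GLT Function

set_option linter.unusedSectionVars false

variable {α V V' : Type} [Fintype α] [DecidableEq α]

open Classical in
/-- ordered edges of `H` -/
noncomputable def eH (H : SimpleGraph α) : Finset (α × α) := univ.filter fun e => H.Adj e.1 e.2

open Classical in
/-- ordered edges inside a colour class -/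
noncomputable def ins (G : SimpleGraph V) (col : V → ℕ) (A : Finset V) : Finset (V × V) :=
  (A ×ˢ A).filter fun p => G.Adj p.1 p.2 ∧ col p.1 = col p.2

open Classical in
/-- ordered missing pairs between colour classes -/
noncomputable def mis (G : SimpleGraph V) (col : V → ℕ) (A : Finset V) : Finset (V × V) :=
  (A ×ˢ A).filter fun p => ¬ G.Adj p.1 p.2 ∧ col p.1 ≠ col p.2

/-- a colour class -/
def fb (col : V → ℕ) (A : Finset V) (c : ℕ) : Finset V := A.filter fun x => col x = c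

variable {H : SimpleGraph α} {G : SimpleGraph V} [DecidableEq V] [DecidableEq V'] {j : ℕ}

theorem mem_eH {e : α × α} : e ∈ eH H ↔ H.Adj e.1 e.2 := by simp [eH]

theorem mem_ins {col : V → ℕ} {A : Finset V} {p : V × V} :
    p ∈ ins G col A ↔ (p.1 ∈ A ∧ p.2 ∈ A) ∧ G.Adj p.1 p.2 ∧ col p.1 = col p.2 := by simp [ins]

theorem mem_mis {col : V → ℕ} {A : Finset V} {p : V × V} :
    p ∈ mis G col A ↔ (p.1 ∈ A ∧ p.2 ∈ A) ∧ ¬ G.Adj p.1 p.2 ∧ col p.1 ≠ col p.2 := by simp [mis]

theorem mem_fb {col : V → ℕ} {A : Finset V} {c : ℕ} {x : V} :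
    x ∈ fb col A c ↔ x ∈ A ∧ col x = c := by simp [fb]

theorem erd {a : ℝ} (a0 : 0 ≤ a) (w : ℕ) : ∀ A : Finset V,
    (∀ K ⊆ A, G.IsClique (K : Set V) → K.card ≤ w) →
    (∀ y ∈ A, ((A \ nb G A y).card : ℝ) ≤ a) → ∃ col : V → ℕ, (∀ v ∈ A, col v < w) ∧
      (∀ c, ((fb col A c).card : ℝ) ≤ a) ∧ 2 * (ins G col A).card ≤ (mis G col A).card := by
  classical
  have nil : ∀ w, ∃ col : V → ℕ, (∀ v ∈ (∅ : Finset V), col v < w) ∧
      (∀ c, ((fb col ∅ c).card : ℝ) ≤ a) ∧ 2 * (ins G col ∅).card ≤ (mis G col ∅).card :=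
    fun w => ⟨fun _ => 0, by simp, fun c => by simpa [fb] using a0, by simp [ins]⟩
  induction w with
  | zero =>
    intro A hA _
    rcases A.eq_empty_or_nonempty with rfl | ⟨v, hv⟩
    · exact nil 0
    · simpa using hA {v} (singleton_subset_iff.2 hv) (by simp)
  | succ w ih =>
    intro A hA ha
    rcases A.eq_empty_or_nonempty with rfl | hne
    · exact nil _
    obtain ⟨x, hx, hmax⟩ := A.exists_max_image (fun x => (nb G A x).card) hne
    set B := nb G A x with hB
    have hBA : B ⊆ A := nb_subset _ _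
    obtain ⟨col, c1, c2, c3⟩ := ih B (fun K hK hc => by
      have hv : x ∉ K := fun h => not_mem_nb_self A x (hK h)
      have := hA (insert x K) (insert_subset hx (hK.trans hBA)) (by
        rw [coe_insert]
        exact hc.insert fun u hu _ => (mem_nb.1 (hK hu)).2)
      rw [card_insert_of_notMem hv] at this
      omega) fun y hy => (Nat.cast_le.2 (card_le_card (sdiff_nb_mono hBA y))).trans
        (ha y (hBA hy))
    set col' : V → ℕ := fun u => if u ∈ B then col u else w with hcol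
    have e1 : ∀ u ∈ B, col' u = col u := fun u hu => if_pos hu
    have e2 : ∀ u ∉ B, col' u = w := fun u hu => if_neg hu
    refine ⟨col', fun v hv => ?_, fun c => ?_, ?_⟩
    · by_cases h : v ∈ B
      · rw [e1 v h]; exact (c1 v h).trans (Nat.lt_succ_self _)
      · rw [e2 v h]; exact Nat.lt_succ_self _
    · by_cases h : c = w
      · refine le_trans (Nat.cast_le.2 (card_le_card fun u hu => ?_)) (ha x hx)
        obtain ⟨u1, u2⟩ := mem_fb.1 hu
        refine mem_sdiff.2 ⟨u1, fun hu => ?_⟩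
        have := c1 u hu
        rw [e1 u hu] at u2
        omega
      · refine le_trans (Nat.cast_le.2 (card_le_card fun u hu => ?_)) (c2 c)
        obtain ⟨u1, u2⟩ := mem_fb.1 hu
        have hu : u ∈ B := by_contra fun hu => h (u2.symm.trans (e2 u hu))
        exact mem_fb.2 ⟨hu, (e1 u hu).symm.trans u2⟩
    set P := A \ B with hP
    set I := (P ×ˢ P).filter fun p => G.Adj p.1 p.2 with hI
    set M := (P ×ˢ B).filter fun p => ¬ G.Adj p.1 p.2 with hM
    have i1 : ins G col' A ⊆ ins G col B ∪ I := by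
      intro p hp
      obtain ⟨⟨p1, p2⟩, p3, p4⟩ := mem_ins.1 hp
      rw [mem_union, mem_ins, hI, mem_filter, mem_product, hP, mem_sdiff, mem_sdiff]
      by_cases h1 : p.1 ∈ B <;> by_cases h2 : p.2 ∈ B
      · exact Or.inl ⟨⟨h1, h2⟩, p3, by rwa [e1 _ h1, e1 _ h2] at p4⟩
      · rw [e1 _ h1, e2 _ h2] at p4
        exact absurd p4 (c1 _ h1).ne
      · rw [e2 _ h1, e1 _ h2] at p4
        exact absurd p4 (c1 _ h2).ne'
      · exact Or.inr ⟨⟨⟨p1, h1⟩, p2, h2⟩, p3⟩
    have i2 : I.card ≤ M.card := by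
      rw [hI, hM, card_filter, card_filter, sum_product, sum_product]
      refine sum_le_sum fun u hu => ?_
      rw [← card_filter, ← card_filter]
      have k1 := card_filter_add_card_filter_not (s := B) (fun y => G.Adj u y)
      have k2 : (P.filter fun y => G.Adj u y).card + (B.filter fun y => G.Adj u y).card ≤
          (nb G A u).card := by
        rw [← card_union_of_disjoint (disjoint_filter_filter sdiff_disjoint)]
        refine card_le_card fun y hy => ?_
        simp only [mem_union, mem_filter, mem_sdiff, mem_nb] at hy ⊢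
        rcases hy with h | h
        exacts [⟨h.1.1, h.2⟩, ⟨hBA h.1, h.2⟩]
      have k3 : (nb G A u).card ≤ B.card := hmax u (mem_sdiff.1 hu).1
      simp only at k1 k2 ⊢
      omega
    have m0 : ∀ p ∈ M, (p.1 ∈ A ∧ p.1 ∉ B) ∧ p.2 ∈ B ∧ ¬ G.Adj p.1 p.2 := fun p hp => by
      simpa only [hM, hP, mem_filter, mem_product, mem_sdiff, and_assoc] using hp
    have i3 : mis G col B ∪ (M ∪ M.image Prod.swap) ⊆ mis G col' A := by
      refine union_subset (fun p hp => ?_) (union_subset (fun p hp => ?_) fun p hp => ?_)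
      · obtain ⟨⟨p1, p2⟩, p3, p4⟩ := mem_mis.1 hp
        exact mem_mis.2 ⟨⟨hBA p1, hBA p2⟩, p3, by rwa [e1 _ p1, e1 _ p2]⟩
      · obtain ⟨⟨p1, p2⟩, p3, p4⟩ := m0 p hp
        exact mem_mis.2 ⟨⟨p1, hBA p3⟩, p4, by rw [e2 _ p2, e1 _ p3]; exact (c1 _ p3).ne'⟩
      · obtain ⟨q, hq, rfl⟩ := mem_image.1 hp
        obtain ⟨⟨p1, p2⟩, p3, p4⟩ := m0 q hq
        exact mem_mis.2 ⟨⟨hBA p3, p1⟩, fun h => p4 h.symm, by
          rw [Prod.fst_swap, Prod.snd_swap, e2 _ p2, e1 _ p3]; exact (c1 _ p3).ne⟩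
    have i4 := card_le_card i3
    rw [card_union_of_disjoint, card_union_of_disjoint,
      card_image_of_injective _ Prod.swap_injective] at i4
    · have := (card_le_card i1).trans (card_union_le _ _)
      omega
    · refine disjoint_left.2 fun p hp hq => ?_
      obtain ⟨q, hq', rfl⟩ := mem_image.1 hq
      exact (m0 _ hp).1.2 (m0 q hq').2.1
    · refine disjoint_left.2 fun p hp hq => ?_
      rcases mem_union.1 hq with hq | hq
      · exact (m0 _ hq).1.2 (mem_mis.1 hp).1.1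
      · obtain ⟨q, hq', rfl⟩ := mem_image.1 hq
        exact (m0 _ hq').1.2 (mem_mis.1 hp).1.2

theorem Mx_diff (col : V → ℕ) (S : Finset V) :
    Mx G S + (ins G col S).card = Mx (Kc col) S + (mis G col S).card := by
  classical
  have e : ∀ Γ : SimpleGraph V, Mx Γ S = ∑ x ∈ S, ∑ y ∈ S, if Γ.Adj x y then (0 : ℝ) else 1 := by
    intro Γ
    refine sum_congr rfl fun x _ => ?_
    rw [sum_ite, sum_const_zero, zero_add, sum_const, nsmul_eq_mul, mul_one]
    congr 2
    ext u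
    simp only [mem_filter, mem_sdiff, mem_nb]
    tauto
  rw [e, e, ins, mis, card_filter, card_filter, sum_product, sum_product]
  push_cast
  simp only [← sum_add_distrib]
  refine sum_congr rfl fun x _ => sum_congr rfl fun y _ => ?_
  by_cases h1 : G.Adj x y <;> by_cases h2 : col x = col y <;> simp [h1, h2]

theorem nn_fb (col : V → ℕ) (S : Finset V) (y : V) :
    S \ nb (Kc col) S y = fb col S (col y) := nn_Kc col S y

theorem gain_le (hc : Fintype.card α = j + 2) (col : V → ℕ) (S : Finset V) :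
    2 * ((emb H G S \ emb H (Kc col) S).card : ℝ) ≤
      (eH H).card * (ins G col S).card * (S.card : ℝ) ^ j := by
  classical
  have := dc_ge (T := eH H ×ˢ ins G col S) (U := emb H G S \ emb H (Kc col) S)
    (fun t φ => φ t.1.1 = t.2.1 ∧ φ t.1.2 = t.2.2) 2 (fun _ => (S.card : ℝ) ^ j)
    (fun φ hφ => ?_) fun t ht => ?_
  · simpa [mul_assoc] using this
  · obtain ⟨h1, h2⟩ := mem_sdiff.1 hφ
    obtain ⟨a1, a2, a3⟩ := mem_emb.1 h1
    have : ∃ i i', H.Adj i i' ∧ col (φ i) = col (φ i') := by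
      by_contra hh
      push Not at hh
      exact h2 (mem_emb.2 ⟨a1, a2, hh⟩)
    obtain ⟨i, i', b1, b2⟩ := this
    refine one_lt_card.2 ⟨((i, i'), (φ i, φ i')), ?_, ((i', i), (φ i', φ i)), ?_, fun h => ?_⟩
    · exact mem_filter.2 ⟨mem_product.2 ⟨mem_eH.2 b1, mem_ins.2 ⟨⟨a1 _, a1 _⟩, a3 _ _ b1, b2⟩⟩,
        rfl, rfl⟩
    · exact mem_filter.2 ⟨mem_product.2 ⟨mem_eH.2 b1.symm,
        mem_ins.2 ⟨⟨a1 _, a1 _⟩, a3 _ _ b1.symm, b2.symm⟩⟩, rfl, rfl⟩
    · exact b1.ne (congrArg (fun t => t.1.1) h)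
  · simpa using ub2 (F := (emb H G S \ emb H (Kc col) S).filter fun φ =>
      φ t.1.1 = t.2.1 ∧ φ t.1.2 = t.2.2) hc (mem_eH.1 (mem_product.1 ht).1).ne {t.2.1} {t.2.2}
      le_rfl (fun φ hφ => by simpa using (mem_filter.1 hφ).2)
      fun φ hφ i _ _ => (mem_emb.1 (mem_sdiff.1 (mem_filter.1 hφ).1).1).1 i

/-- extensions of a prescribed pair -/
theorem lb2 (hc : Fintype.card α = j + 2) {Γ : SimpleGraph V} {S : Finset V} {a : ℝ} (a0 : 0 ≤ a)
    (ha : ∀ y ∈ S, ((S \ nb Γ S y).card : ℝ) ≤ a) (hs : (j + 2) * a ≤ S.card)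
    (t : (α × α) × V × V) : ∃ F : Finset (α → V), t.1.1 ≠ t.1.2 → t.2.1 ∈ S → t.2.2 ∈ S →
      (S.card - (j + 2) * a) ^ j ≤ F.card ∧ ∀ φ ∈ F, (∀ i, φ i ∈ S) ∧ φ t.1.1 = t.2.1 ∧
        φ t.1.2 = t.2.2 ∧ ∀ i i', i ≠ i' → Γ.Adj (φ i) (φ i') ∨ (i, i') = t.1 ∨ (i', i) = t.1 := by
  by_cases h : t.1.1 ≠ t.1.2 ∧ t.2.1 ∈ S ∧ t.2.2 ∈ S
  swap
  · exact ⟨∅, fun a b c => absurd ⟨a, b, c⟩ h⟩
  obtain ⟨h1, h2, h3⟩ := h
  obtain ⟨F, f1, f2⟩ := lb a0 ha {t.1.1, t.1.2} (fun i => if i = t.1.1 then t.2.1 else t.2.2)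
    (fun i _ => by split_ifs <;> assumption) (by rw [hc]; push_cast; exact hs)
  refine ⟨F, fun _ _ _ => ⟨by simpa [hc, card_pair h1] using f1, fun φ hφ => ?_⟩⟩
  obtain ⟨p1, p2, p3⟩ := f2 φ hφ
  refine ⟨p1, by simpa using p2 t.1.1 (by simp), by simpa [h1.symm] using p2 t.1.2 (by simp),
    fun i i' h => ?_⟩
  by_cases hh : i ∉ ({t.1.1, t.1.2} : Finset α) ∨ i' ∉ ({t.1.1, t.1.2} : Finset α)
  · exact Or.inl (p3 i i' h hh)
  · rw [not_or, not_not, not_not] at hh
    simp only [mem_insert, mem_singleton] at hh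
    rcases hh with ⟨rfl | rfl, rfl | rfl⟩
    · exact absurd rfl h
    · exact Or.inr (Or.inl rfl)
    · exact Or.inr (Or.inr rfl)
    · exact absurd rfl h

theorem loss_ge (hc : Fintype.card α = j + 2) (col : V → ℕ) {S : Finset V} {a : ℝ} (a0 : 0 ≤ a)
    (ha : ∀ y ∈ S, ((S \ nb G S y).card : ℝ) ≤ a) (hb : ∀ c, ((fb col S c).card : ℝ) ≤ a)
    (hs : (j + 2) * (2 * a) ≤ S.card) :
    (eH H).card * (mis G col S).card * ((S.card : ℝ) - (j + 2) * (2 * a)) ^ j ≤
      2 * ((emb H (Kc col) S \ emb H G S).card : ℝ) := by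
  classical
  choose F hF using lb2 hc (Γ := G ⊓ Kc col) (S := S) (a := 2 * a) (by linarith) (fun y hy => by
    have h1 : S \ nb (G ⊓ Kc col) S y ⊆ S \ nb G S y ∪ S \ nb (Kc col) S y := by
      intro u hu
      simp only [mem_sdiff, mem_nb, mem_union, SimpleGraph.inf_adj] at hu ⊢
      tauto
    have h2 : ((S \ nb (G ⊓ Kc col) S y).card : ℝ) ≤
        (S \ nb G S y).card + (S \ nb (Kc col) S y).card := by
      exact_mod_cast (card_le_card h1).trans (card_union_le _ _)
    rw [nn_fb] at h2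
    linarith [ha y hy, hb (col y)]) hs
  have hF' := fun t (ht : t ∈ eH H ×ˢ mis G col S) => hF t (mem_eH.1 (mem_product.1 ht).1).ne
    (mem_mis.1 (mem_product.1 ht).2).1.1 (mem_mis.1 (mem_product.1 ht).2).1.2
  have h3 := dc_le (T := eH H ×ˢ mis G col S) (U := emb H (Kc col) S \ emb H G S) F 2
    (fun t ht φ hφ => ?_) fun φ _ => ?_
  · have h4 := card_nsmul_le_sum _ _ _ fun t ht => (hF' t ht).1
    rw [card_product, nsmul_eq_mul] at h4
    push_cast at h3 h4
    linarith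
  · obtain ⟨p1, p2, p3, p4⟩ := (hF' t ht).2 φ hφ
    obtain ⟨-, q1, q2⟩ := mem_mis.1 (mem_product.1 ht).2
    rw [← p2, ← p3] at q1 q2
    refine mem_sdiff.2 ⟨emb_of_adj p1 fun i i' h => ?_, fun h =>
      q1 ((mem_emb.1 h).2.2 _ _ (mem_eH.1 (mem_product.1 ht).1))⟩
    rcases p4 i i' h with h | h | h
    · exact h.2
    · rw [← h] at q2; exact q2
    · rw [← h] at q2; exact q2.symm
  · rcases ((eH H ×ˢ mis G col S).filter fun t => φ ∈ F t).eq_empty_or_nonempty with h | ⟨t, ht⟩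
    · simp [h]
    obtain ⟨p1, p2, p3, p4⟩ := (hF' t (mem_filter.1 ht).1).2 φ (mem_filter.1 ht).2
    refine le_trans (card_le_card (t := {t, (t.1.swap, t.2.swap)}) fun u hu => ?_) card_le_two
    obtain ⟨u1, u2⟩ := mem_filter.1 hu
    obtain ⟨-, q2, q3, -⟩ := (hF' u u1).2 φ u2
    have q1 := (mem_mis.1 (mem_product.1 u1).2).2.1
    rw [← q2, ← q3] at q1
    rw [mem_insert, mem_singleton]
    rcases p4 _ _ (mem_eH.1 (mem_product.1 u1).1).ne with h | h | h
    · exact absurd h.1 q1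
    · rw [← h] at p2 p3
      exact Or.inl (Prod.ext h (Prod.ext (q2.symm.trans p2) (q3.symm.trans p3)))
    · refine Or.inr (Prod.ext (by rw [← h]; rfl) ?_)
      rw [← h] at p2 p3
      exact Prod.ext (q2.symm.trans p3) (q3.symm.trans p2)

theorem card_diff {β : Type} [DecidableEq β] (A B : Finset β) :
    (A.card : ℝ) + (B \ A).card = B.card + (A \ B).card := by
  have h1 := card_sdiff_add_card_inter A B
  have h2 := card_sdiff_add_card_inter B A
  rw [inter_comm] at h2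
  exact_mod_cast (by omega : A.card + (B \ A).card = B.card + (A \ B).card)

theorem emb_fib [Nonempty V'] {col : V → ℕ} {col' : V' → ℕ} {S : Finset V} {S' : Finset V'}
    (h : ∀ c, (fb col S c).card ≤ (fb col' S' c).card) :
    (emb H (Kc col) S).card ≤ (emb H (Kc col') S').card := by
  choose f h1 h2 using fun c => (fb col S c).finite_toSet.exists_injOn_of_encard_le
    (t := ((fb col' S' c : Finset V') : Set V')) (by
      rw [Set.encard_coe_eq_coe_finsetCard, Set.encard_coe_eq_coe_finsetCard]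
      exact_mod_cast h c)
  have h3 : ∀ x ∈ S, f (col x) x ∈ S' ∧ col' (f (col x) x) = col x := fun x hx =>
    mem_fb.1 (mem_coe.1 (h1 (col x) (mem_coe.2 (mem_fb.2 ⟨hx, rfl⟩))))
  refine emb_map (fun x => f (col x) x) (fun x hx y hy e => ?_) (fun x hx => (h3 x hx).1)
    fun x hx y hy e => ?_
  · have e1 : col x = col y := by
      rw [← (h3 x hx).2, ← (h3 y hy).2]
      exact congrArg col' e
    refine h2 (col x) (mem_coe.2 (mem_fb.2 ⟨hx, rfl⟩)) (mem_coe.2 (mem_fb.2 ⟨hy, e1.symm⟩)) ?_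
    have e2 : f (col x) x = f (col y) y := e
    rwa [← e1] at e2
  · rw [Kc_adj, (h3 x hx).2, (h3 y hy).2]
    exact e

theorem Mx_Kc {col : V → ℕ} {S : Finset V} {w : ℕ} (h : ∀ v ∈ S, col v < w) :
    Mx (Kc col) S = ∑ c ∈ range w, ((fb col S c).card : ℝ) ^ 2 := by
  rw [Mx, ← sum_fiberwise_of_maps_to (g := col) (t := range w) fun v hv => mem_range.2 (h v hv)]
  refine sum_congr rfl fun c _ => ?_
  rw [sum_congr rfl (g := fun _ => ((fb col S c).card : ℝ)) fun x hx => by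
    rw [nn_fb, (mem_filter.1 hx).2], sum_const, nsmul_eq_mul, sq, fb]

theorem sum_fb {col : V → ℕ} {S : Finset V} {w : ℕ} (h : ∀ v ∈ S, col v < w) :
    ∑ c ∈ range w, (fb col S c).card = S.card :=
  (card_eq_sum_card_fiberwise fun v hv => mem_coe.2 (mem_range.2 (h v hv))).symm

end Pool.Agent.GL2
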