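import Pool.Agent.P.MP_dfe42f_co.HfC

/-! Balancing the colour classes, the edge penalty, and the bound by the Turán graph. -/

namespace Pool.Agent.GL2
open Finset Pool.Agent.GLT Function

set_option linter.unusedSectionVars false

variable {α V : Type} [Fintype α] [DecidableEq α]
variable {H : SimpleGraph α} {G : SimpleGraph V} [DecidableEq V] {j : ℕ}

theorem fb_upd {col : V → ℕ} {S : Finset V} {x : V} (hx : x ∈ S) {B : ℕ} (hB : col x ≠ B) (c : ℕ) :
    (fb (update col x B) S c).card + (if c = col x then 1 else 0) =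
      (fb col S c).card + if c = B then 1 else 0 := by
  have e : ∀ f : V → ℕ, (fb f S c).card = (fb f (S.erase x) c).card + if c = f x then 1 else 0 := by
    intro f
    conv_lhs => rw [← insert_erase hx, fb, filter_insert]
    split_ifs with h1 h2 h2
    · rw [card_insert_of_notMem (by simp), fb]
    · exact absurd h1.symm h2
    · exact absurd h2.symm h1
    · rfl
  have e2 : fb (update col x B) (S.erase x) c = fb col (S.erase x) c :=
    filter_congr fun y hy => by rw [update_of_ne (ne_of_mem_erase hy)]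
  rw [e, e col, e2, update_self]
  omega

theorem move (hc : Fintype.card α = j + 3) {col : V → ℕ} {S : Finset V} {a : ℝ} (a0 : 0 ≤ a)
    {x : V} (hx : x ∈ S) {B ρ : ℕ} (hB : col x ≠ B)
    (hρ : (fb col S (col x)).card = (fb col S B).card + 1 + ρ)
    (hb : ∀ c, ((fb col S c).card : ℝ) ≤ a)
    (hb' : ∀ c, ((fb (update col x B) S c).card : ℝ) ≤ a) (hs : (j + 3) * a ≤ S.card) :
    ((emb H (Kc col) S).card : ℝ) + ρ * ((eH H).card * ((S.card : ℝ) - (j + 3) * a) ^ (j + 1) -
      (j + 3) ^ 3 * a * (S.card : ℝ) ^ j) ≤ (emb H (Kc (update col x B)) S).card := by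
  classical
  have : Nonempty V := ⟨x⟩
  set col' := update col x B with hcol
  have e0 : col' x = B := update_self _ _ _
  have e1 : ∀ y, y ≠ x → col' y = col y := fun y hy => update_of_ne hy _ _
  obtain ⟨R, r1, r2⟩ := exists_subset_card_eq (s := (fb col S (col x)).erase x) (n := ρ) (by
    rw [card_erase_of_mem (mem_fb.2 ⟨hx, rfl⟩)]; omega)
  have r3 : ∀ y ∈ R, y ≠ x ∧ y ∈ S ∧ col y = col x := fun y hy =>
    ⟨ne_of_mem_erase (r1 hy), mem_fb.1 (mem_of_mem_erase (r1 hy))⟩
  have hx0 : x ∈ S \ R := mem_sdiff.2 ⟨hx, fun h => (r3 x h).1 rfl⟩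
  have f1 : (fb col (S \ R) (col x)).card = (fb col (S \ R) B).card + 1 := by
    have a1 : fb col (S \ R) (col x) = fb col S (col x) \ R := by
      ext y; simp only [mem_fb, mem_sdiff]; tauto
    have a2 : fb col (S \ R) B = fb col S B := by
      ext y
      simp only [mem_fb, mem_sdiff]
      exact ⟨fun h => ⟨h.1.1, h.2⟩, fun h => ⟨⟨h.1, fun hy => hB ((r3 y hy).2.2.symm.trans h.2)⟩,
        h.2⟩⟩
    have := card_sdiff_add_card_eq_card (r1.trans (erase_subset _ _))
    rw [a1, a2]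
    omega
  have f2 : (emb H (Kc col) (S \ R)).card ≤ (emb H (Kc col') (S \ R)).card := by
    have a1 : Kc col' = Kc fun y => Equiv.swap (col x) B (col' y) := by
      ext y z
      simp
    rw [a1]
    refine emb_fib fun c => ?_
    have a2 : fb (fun y => Equiv.swap (col x) B (col' y)) (S \ R) c =
        fb col' (S \ R) (Equiv.swap (col x) B c) :=
      filter_congr fun y _ => by rw [Equiv.swap_apply_eq_iff]
    have a3 := fb_upd hx0 hB (Equiv.swap (col x) B c)
    rw [a2]
    by_cases c1 : c = col x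
    · rw [c1, Equiv.swap_apply_left] at a3 ⊢
      rw [if_neg hB.symm, if_pos rfl, ← hcol] at a3
      omega
    by_cases c2 : c = B
    · rw [c2, Equiv.swap_apply_right] at a3 ⊢
      rw [if_neg hB, if_pos rfl, ← hcol] at a3
      omega
    · rw [Equiv.swap_apply_of_ne_of_ne c1 c2] at a3 ⊢
      rw [if_neg c1, if_neg c2, ← hcol] at a3
      omega
  have f3 : ((hit H (Kc col) S R \ hit H (Kc col') S R).card : ℝ) ≤
      ρ * ((j + 3) ^ 3 * a * (S.card : ℝ) ^ j) := by
    have := cover (T := (univ : Finset (α × α × α)))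
      (U := hit H (Kc col) S R \ hit H (Kc col') S R)
      (fun t φ => φ t.1 = x ∧ φ t.2.1 ∈ fb col S B ∧ φ t.2.2 ∈ R)
      (fun _ => ρ * a * (S.card : ℝ) ^ j) (fun φ hφ => ?_) fun t _ => ?_
    · simp only [sum_const, card_univ, Fintype.card_prod, hc, nsmul_eq_mul] at this
      push_cast at this
      linarith
    · obtain ⟨h1, h2⟩ := mem_sdiff.1 hφ
      obtain ⟨h3, i3, h4⟩ := mem_hit.1 h1
      obtain ⟨a1, a2, a3⟩ := mem_emb.1 h3
      have : ∃ i i', H.Adj i i' ∧ col' (φ i) = col' (φ i') := by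
        by_contra hh
        push Not at hh
        exact h2 (mem_hit.2 ⟨mem_emb.2 ⟨a1, a2, hh⟩, i3, h4⟩)
      obtain ⟨i, i', b1, b2⟩ := this
      by_cases c1 : φ i = x
      · have c2 : φ i' ≠ x := fun h => b1.ne (a2 (c1.trans h.symm))
        rw [c1, e0, e1 _ c2] at b2
        exact ⟨(i, i', i3), mem_univ _, c1, mem_fb.2 ⟨a1 _, b2.symm⟩, h4⟩
      by_cases c2 : φ i' = x
      · rw [c2, e0, e1 _ c1] at b2
        exact ⟨(i', i, i3), mem_univ _, c2, mem_fb.2 ⟨a1 _, b2⟩, h4⟩
      · rw [e1 _ c1, e1 _ c2] at b2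
        exact absurd b2 (a3 _ _ b1)
    · set F := (hit H (Kc col) S R \ hit H (Kc col') S R).filter fun φ =>
        φ t.1 = x ∧ φ t.2.1 ∈ fb col S B ∧ φ t.2.2 ∈ R with hF
      rcases F.eq_empty_or_nonempty with h | ⟨ψ, hψ⟩
      · rw [h, card_empty, Nat.cast_zero]; positivity
      obtain ⟨p1, p2, p3⟩ := (mem_filter.1 hψ).2
      have := ub3 (F := F) hc (a := t.1) (b := t.2.1) (c := t.2.2)
        (fun h => hB (by rw [← p1, h]; exact (mem_fb.1 p2).2))
        (fun h => (r3 _ p3).1 (by rw [← h]; exact p1))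
        (fun h => hB (by rw [← (r3 _ p3).2.2, ← h]; exact (mem_fb.1 p2).2)) {x} (fb col S B) R
        le_rfl (fun φ hφ => by simpa using (mem_filter.1 hφ).2)
        fun φ hφ i _ _ _ => (mem_emb.1 (mem_hit.1 (mem_sdiff.1 (mem_filter.1 hφ).1).1).1).1 i
      rw [card_singleton, r2] at this
      have h2 := mul_le_mul_of_nonneg_right (hb B)
        (show (0 : ℝ) ≤ ρ * (S.card : ℝ) ^ j by positivity)
      push_cast at this
      linarith
  have f4 : ρ * ((eH H).card * ((S.card : ℝ) - (j + 3) * a) ^ (j + 1)) ≤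
      ((hit H (Kc col') S R \ hit H (Kc col) S R).card : ℝ) := by
    choose F hF using lb2 (j := j + 1) hc (Γ := Kc col') (S := S) a0
      (fun y _ => by rw [nn_fb]; exact hb' _) (by push_cast; linarith)
    have hF' := fun t (ht : t ∈ eH H ×ˢ ({x} ×ˢ R)) => hF t (mem_eH.1 (mem_product.1 ht).1).ne
      (by rw [mem_singleton.1 (mem_product.1 (mem_product.1 ht).2).1]; exact hx)
      (r3 _ (mem_product.1 (mem_product.1 ht).2).2).2.1
    have g1 : ∀ t ∈ eH H ×ˢ ({x} ×ˢ R), ∀ φ ∈ F t, φ t.1.1 = x ∧ φ t.1.2 ∈ R ∧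
        ∀ i i', i ≠ i' → (Kc col').Adj (φ i) (φ i') := by
      intro t ht φ hφ
      obtain ⟨p1, p2, p3, p4⟩ := (hF' t ht).2 φ hφ
      obtain ⟨q1, q2⟩ := mem_product.1 (mem_product.1 ht).2
      rw [mem_singleton.1 q1] at p2
      rw [← p3] at q2
      have q3 : col' (φ t.1.1) ≠ col' (φ t.1.2) := by
        rw [p2, e0, e1 _ (r3 _ q2).1, (r3 _ q2).2.2]; exact hB.symm
      refine ⟨p2, q2, fun i i' h => ?_⟩
      rcases p4 i i' h with h | h | h
      · exact h
      · rw [← h] at q3; exact q3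
      · rw [← h] at q3; exact q3.symm
    have h3 := dc_le (T := eH H ×ˢ ({x} ×ˢ R)) (U := hit H (Kc col') S R \ hit H (Kc col) S R) F 1
      (fun t ht φ hφ => ?_) fun φ hφ => card_le_one.2 fun t ht u hu => ?_
    · have h4 := card_nsmul_le_sum _ _ _ fun t ht => (hF' t ht).1
      rw [card_product, card_product, card_singleton, r2, nsmul_eq_mul] at h4
      push_cast at h3 h4
      rw [show (j : ℝ) + 1 + 2 = j + 3 by ring] at h4
      linarith
    · obtain ⟨p1, p2, p3⟩ := g1 t ht φ hφ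
      refine mem_sdiff.2 ⟨mem_hit.2 ⟨emb_of_adj ((hF' t ht).2 φ hφ).1 p3, _, p2⟩, fun h => ?_⟩
      refine (mem_emb.1 (mem_hit.1 h).1).2.2 _ _ (mem_eH.1 (mem_product.1 ht).1) ?_
      rw [p1, (r3 _ p2).2.2]
    · obtain ⟨t1, t2⟩ := mem_filter.1 ht
      obtain ⟨u1, u2⟩ := mem_filter.1 hu
      obtain ⟨p1, p2, p3⟩ := g1 t t1 φ t2
      obtain ⟨q1, q2, -⟩ := g1 u u1 φ u2
      have k1 : t.1.1 = u.1.1 := by_contra fun h => (p3 _ _ h).ne (p1.trans q1.symm)
      have k2 : t.1.2 = u.1.2 := by_contra fun h => p3 _ _ h (by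
        rw [e1 _ (r3 _ p2).1, e1 _ (r3 _ q2).1, (r3 _ p2).2.2, (r3 _ q2).2.2])
      obtain ⟨-, a1, a2, -⟩ := (hF' t t1).2 φ t2
      obtain ⟨-, b1, b2, -⟩ := (hF' u u1).2 φ u2
      exact Prod.ext (Prod.ext k1 k2) (Prod.ext (by rw [← a1, ← b1, k1]) (by rw [← a2, ← b2, k2]))
  have f5 := card_diff (hit H (Kc col) S R) (hit H (Kc col') S R)
  have f6 : ((emb H (Kc col) (S \ R)).card : ℝ) ≤ (emb H (Kc col') (S \ R)).card := by
    exact_mod_cast f2
  rw [emb_split S R, emb_split S R]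
  push_cast
  linarith

/-- non-adjacent ordered pairs in the Turán graph -/
noncomputable def MT (w s : ℕ) : ℝ := Mx (Kc fun x => x % w) (range s)

theorem fb_mod {w : ℕ} (hw : 0 < w) (s : ℕ) {c : ℕ} (hc : c < w) :
    (fb (fun x => x % w) (range s) c).card = s / w + if c < s % w then 1 else 0 := by
  have := cls_card hw s c
  rwa [Nat.mod_eq_of_lt hc] at this

theorem balance (hc : Fintype.card α = j + 3) {w : ℕ} (hw : 0 < w) {S : Finset V} {a β : ℝ}
    (a0 : 0 ≤ a) (hs : (j + 3) * a ≤ S.card)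
    (hβ : β ≤ (eH H).card * ((S.card : ℝ) - (j + 3) * a) ^ (j + 1) -
      (j + 3) ^ 3 * a * (S.card : ℝ) ^ j) (n : ℕ) : ∀ col : V → ℕ, (∀ v ∈ S, col v < w) →
    (∀ c, ((fb col S c).card : ℝ) ≤ a) →
    ∑ c ∈ range w, ((fb col S c).card - (fb (fun x => x % w) (range S.card) c).card) = n →
    MT w S.card ≤ Mx (Kc col) S ∧ 2 * ((emb H (Kc col) S).card : ℝ) +
      β * (Mx (Kc col) S - MT w S.card) ≤ 2 * gg H w S.card := by
  set t : ℕ → ℕ := fun c => (fb (fun x => x % w) (range S.card) c).card with ht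
  have t1 : ∀ v ∈ range S.card, (fun x => x % w) v < w := fun v _ => Nat.mod_lt _ hw
  have t2 : ∑ c ∈ range w, t c = S.card := by rw [sum_fb t1, card_range]
  induction n with
  | zero =>
    intro col c1 _ c3
    have h1 : ∀ c ∈ range w, (fb col S c).card ≤ t c := fun c hc =>
      Nat.sub_eq_zero_iff_le.1 (sum_eq_zero_iff.1 c3 c hc)
    have h2 := (sum_eq_sum_iff_of_le h1).1 (by rw [sum_fb c1, t2])
    have h3 : Mx (Kc col) S = MT w S.card := by
      rw [MT, Mx_Kc c1, Mx_Kc t1]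
      exact sum_congr rfl fun c hc => by rw [h2 c hc]
    have h4 : (emb H (Kc col) S).card ≤ (emb H (Kc fun x => x % w) (range S.card)).card :=
      emb_fib fun c => by
        by_cases h : c < w
        · exact h1 c (mem_range.2 h)
        · rw [fb, filter_false_of_mem fun v hv (e : col v = c) => h (e ▸ c1 v hv)]
          exact Nat.zero_le _
    have h5 : ((emb H (Kc col) S).card : ℝ) ≤ gg H w S.card := Nat.cast_le.2 h4
    rw [h3]
    exact ⟨le_rfl, by linarith⟩
  | succ n ih =>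
    intro col c1 c2 c3
    obtain ⟨A, hA, h0⟩ := exists_ne_zero_of_sum_ne_zero (c3 ▸ n.succ_ne_zero :
      ∑ c ∈ range w, ((fb col S c).card - t c) ≠ 0)
    have h1 : t A < (fb col S A).card := Nat.sub_ne_zero_iff_lt.1 h0
    obtain ⟨B, hB, h2⟩ : ∃ B ∈ range w, (fb col S B).card < t B := by
      by_contra hh
      push Not at hh
      have := (sum_eq_sum_iff_of_le hh).1 (by rw [sum_fb c1, t2]) A hA
      omega
    obtain ⟨x, hx⟩ : (fb col S A).Nonempty := card_pos.1 (by omega)
    obtain ⟨x1, rfl⟩ := mem_fb.1 hx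
    have hne : col x ≠ B := fun h => by rw [h] at h1; omega
    have a1 := fb_mod hw S.card (mem_range.1 hA)
    have a2 := fb_mod hw S.card (mem_range.1 hB)
    obtain ⟨ρ, hρ⟩ : ∃ ρ, (fb col S (col x)).card = (fb col S B).card + 1 + ρ :=
      Nat.exists_eq_add_of_le (by
        change t _ = _ at a1 a2
        split_ifs at a1 a2 <;> omega)
    have u := fb_upd x1 hne
    have u1 := u (col x)
    have u2 := u B
    rw [if_pos rfl, if_neg hne] at u1
    rw [if_neg hne.symm, if_pos rfl, add_zero] at u2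
    have u3 : ∀ c, c ≠ col x → c ≠ B → (fb (update col x B) S c).card = (fb col S c).card :=
      fun c k1 k2 => by simpa [k1, k2] using u c
    have c1' : ∀ v ∈ S, update col x B v < w := fun v hv => by
      by_cases h : v = x
      · rw [h, update_self]; exact mem_range.1 hB
      · rw [update_of_ne h]; exact c1 v hv
    have c2' : ∀ c, ((fb (update col x B) S c).card : ℝ) ≤ a := fun c => by
      by_cases k1 : c = col x
      · exact le_trans (Nat.cast_le.2 (by rw [k1]; omega)) (c2 (col x))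
      by_cases k2 : c = B
      · exact le_trans (Nat.cast_le.2 (by rw [k2]; omega)) (c2 (col x))
      · rw [u3 c k1 k2]; exact c2 c
    have sp : ∀ {M : Type} [AddCommMonoid M] (f : ℕ → M), ∑ c ∈ range w, f c =
        f (col x) + (f B + ∑ c ∈ ((range w).erase (col x)).erase B, f c) := fun f => by
      rw [add_sum_erase _ _ (mem_erase.2 ⟨hne.symm, hB⟩), add_sum_erase _ _ hA]
    have u4 : ∀ c ∈ ((range w).erase (col x)).erase B,
        (fb (update col x B) S c).card = (fb col S c).card := fun c hc =>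
      u3 c (ne_of_mem_erase (mem_of_mem_erase hc)) (ne_of_mem_erase hc)
    obtain ⟨i1, i2⟩ := ih _ c1' c2' (by
      rw [sp] at c3 ⊢
      rw [sum_congr rfl fun c hc => by rw [u4 c hc]]
      change _ - t _ + (_ - t _ + _) = _ at c3 ⊢
      omega)
    have m1 : Mx (Kc col) S = Mx (Kc (update col x B)) S + 2 * ρ := by
      rw [Mx_Kc c1, Mx_Kc c1', sp, sp (fun c => ((fb (update col x B) S c).card : ℝ) ^ 2),
        sum_congr rfl fun c hc => by rw [← u4 c hc], u2, hρ,
        show (fb (update col x B) S (col x)).card = (fb col S B).card + ρ by omega]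
      push_cast
      ring
    have m2 := move (H := H) hc a0 x1 hne hρ c2 c2' hs
    have m3 := mul_le_mul_of_nonneg_left hβ (Nat.cast_nonneg (α := ℝ) ρ)
    have m4 : (0 : ℝ) ≤ ρ := Nat.cast_nonneg _
    rw [m1]
    exact ⟨by linarith, by linarith⟩

theorem pow_lo {s y ε : ℝ} (hs : 0 ≤ s) (he : 0 ≤ ε) (hy : y ≤ s) (k : ℕ) (h : k * y ≤ ε * s) :
    (1 - ε) * s ^ k ≤ (s - y) ^ k := by
  rcases hs.eq_or_lt with rfl | hs
  · rcases k with _ | k
    · simpa using he
    · simpa using pow_nonneg (by linarith : 0 ≤ -y) (k + 1)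
  have h1 := one_add_mul_le_pow (a := -(y / s)) (by
    have := (div_le_one hs).2 hy
    linarith) k
  have h2 : 1 - ε ≤ 1 + k * -(y / s) := by
    have := (div_le_iff₀ hs).2 h
    rw [mul_div_assoc] at this
    linarith
  have h3 := mul_le_mul_of_nonneg_right (h2.trans h1) (pow_nonneg hs.le k)
  rwa [← mul_pow, show (1 + -(y / s)) * s = s - y by field_simp; ring] at h3

/-- the edge penalty -/
theorem lemC (hc : Fintype.card α = j + 4) (hE : 4 * (j + 3) ≤ (eH H).card) {w : ℕ} (hw : 0 < w)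
    {S : Finset V} {a : ℝ} (a0 : 0 ≤ a) (hq : ∀ K ⊆ S, G.IsClique (K : Set V) → K.card ≤ w)
    (ha : ∀ y ∈ S, ((S \ nb G S y).card : ℝ) ≤ a) (hs : 100 * (j + 4) ^ 2 * a ≤ S.card) :
    MT w S.card ≤ Mx G S ∧ ((emb H G S).card : ℝ) +
      1.92 * (j + 3) * (S.card : ℝ) ^ (j + 2) * (Mx G S - MT w S.card) ≤ gg H w S.card := by
  obtain ⟨col, c1, c2, c3⟩ := erd a0 w S hq ha
  have hj : (0 : ℝ) ≤ j := Nat.cast_nonneg _
  have s0 : (0 : ℝ) ≤ S.card := Nat.cast_nonneg _
  have hE' : 4 * ((j : ℝ) + 3) ≤ (eH H).card := by exact_mod_cast hE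
  have ja := mul_nonneg hj a0
  have jja := mul_nonneg hj ja
  have P0 : (0 : ℝ) ≤ (S.card : ℝ) ^ (j + 2) := by positivity
  have l1 := pow_lo s0 (ε := 0.02) (by norm_num) (y := (j + 4) * (2 * a)) (by nlinarith) (j + 2)
    (by push_cast; nlinarith)
  have l2 := pow_lo s0 (ε := 0.01) (by norm_num) (y := (j + 4) * a) (by nlinarith) (j + 2)
    (by push_cast; nlinarith)
  obtain ⟨b1, b2⟩ := balance (H := H) (j := j + 1) hc hw (S := S) a0
    (β := 3.84 * (j + 3) * (S.card : ℝ) ^ (j + 2)) (by push_cast; nlinarith) (by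
      have k1 := mul_le_mul hE' l2 (by positivity) (Nat.cast_nonneg _)
      have k2 := mul_le_mul_of_nonneg_right hs
        (show (0 : ℝ) ≤ (j + 4) * (S.card : ℝ) ^ (j + 1) by positivity)
      push_cast
      rw [show (j : ℝ) + 1 + 3 = j + 4 by ring]
      rw [pow_succ (S.card : ℝ) (j + 1)] at *
      nlinarith [mul_nonneg hj P0]) _ col c1 c2 rfl
  have g1 := gain_le (H := H) (G := G) (j := j + 2) hc col S
  have g2 := loss_ge (H := H) (G := G) (j := j + 2) hc col a0 ha c2 (by push_cast; nlinarith)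
  have g3 := card_diff (emb H G S) (emb H (Kc col) S)
  have g4 := Mx_diff (G := G) col S
  have g5 : 2 * ((ins G col S).card : ℝ) ≤ (mis G col S).card := by exact_mod_cast c3
  have g6 : (0 : ℝ) ≤ (ins G col S).card := Nat.cast_nonneg _
  push_cast at g2
  rw [show (j : ℝ) + 2 + 2 = j + 4 by ring] at g2
  refine ⟨by linarith, ?_⟩
  have g7 := mul_le_mul_of_nonneg_left l1
    (show (0 : ℝ) ≤ (eH H).card * (mis G col S).card by positivity)
  have g8 := mul_le_mul_of_nonneg_right hE' (mul_nonneg P0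
    (show (0 : ℝ) ≤ 0.98 * (mis G col S).card - (ins G col S).card by linarith))
  have g9 := mul_nonneg (mul_nonneg (show (0 : ℝ) ≤ j + 3 by linarith) P0)
    (show (0 : ℝ) ≤ (mis G col S).card - 2 * (ins G col S).card by linarith)
  rw [show Mx G S = Mx (Kc col) S + (mis G col S).card - (ins G col S).card by linarith]
  linarith

theorem MT_le {w m : ℕ} (hw : 0 < w) (s : ℕ) :
    MT w s ≤ (s : ℝ) ^ 2 / w + |(w : ℝ) * m - s| := by
  have t1 : ∀ v ∈ range s, (fun x => x % w) v < w := fun v _ => Nat.mod_lt _ hw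
  have hr := Nat.mod_lt s hw
  have e := Nat.div_add_mod s w
  rw [MT, Mx_Kc t1, sum_congr rfl fun c hc => by rw [fb_mod hw s (mem_range.1 hc)],
    ← sum_range_add_sum_Ico _ hr.le,
    sum_congr rfl fun c hc => by rw [if_pos (mem_range.1 hc)],
    sum_congr (s₁ := Ico _ _) rfl fun c hc => by rw [if_neg (not_lt.2 (mem_Ico.1 hc).1)],
    sum_const, sum_const, card_range, Nat.card_Ico, nsmul_eq_mul, nsmul_eq_mul,
    Nat.cast_sub hr.le]
  generalize s / w = q at *
  generalize s % w = r at *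
  subst e
  have w0 : (0 : ℝ) < w := by exact_mod_cast hw
  have r0 : (0 : ℝ) ≤ r := Nat.cast_nonneg _
  have r1 : (r : ℝ) ≤ w := by exact_mod_cast hr.le
  push_cast
  rw [show ((w : ℝ) * q + r) ^ 2 / w = w * q ^ 2 + 2 * q * r + r ^ 2 / w by field_simp; ring]
  have k0 : 0 ≤ (r : ℝ) ^ 2 / w := by positivity
  have k1 : 2 * (r : ℝ) - w ≤ (r : ℝ) ^ 2 / w := by
    rw [le_div_iff₀ w0]
    nlinarith [sq_nonneg ((w : ℝ) - r)]
  rcases le_or_gt m q with h | h
  · have : (m : ℝ) ≤ q := by exact_mod_cast h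
    have := neg_le_abs ((w : ℝ) * m - (w * q + r))
    nlinarith
  · have : (q : ℝ) + 1 ≤ m := by exact_mod_cast h
    have := le_abs_self ((w : ℝ) * m - (w * q + r))
    nlinarith

end Pool.Agent.GL2
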