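import Pool.Agent.P.MP_dfe42f_co.HfD

/-! The Turán graph is extremal without the degree bound; shared definitions. -/

namespace Pool.Agent.GL2
open Finset Pool.Agent.GLT Function

set_option linter.unusedSectionVars false

variable {α V : Type} [Fintype α] [DecidableEq α]

/-- a dominating vertex and an oriented two-factor on the other vertices -/
structure Fac (H : SimpleGraph α) (c : α) (s : Equiv.Perm α) : Prop where
  dom : ∀ v, v ≠ c → H.Adj c v
  fix : s c = c
  adj : ∀ v, v ≠ c → H.Adj v (s v)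
  two : ∀ v, v ≠ c → s (s v) ≠ v

/-- the extremal value for labelled copies -/
noncomputable def FF (H : SimpleGraph α) (w m n : ℕ) : ℝ :=
  (n / (w * m) : ℕ) * gg H w (w * m) + gg H w (n % (w * m))

variable {H : SimpleGraph α} {G : SimpleGraph V} [DecidableEq V] {j : ℕ} {c : α}
  {s : Equiv.Perm α}

namespace Fac
variable (f : Fac H c s) {v : α} (hv : v ≠ c)
include f hv

theorem sc : s v ≠ c := fun h => hv (s.injective (h.trans f.fix.symm))

theorem pc : s.symm v ≠ c := fun h => hv (by rw [← s.apply_symm_apply v, h, f.fix])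

theorem sv : v ≠ s v := (f.adj v hv).ne

theorem adjp : H.Adj v (s.symm v) := by
  simpa using (f.adj _ (f.pc hv)).symm

theorem pv : v ≠ s.symm v := (f.adjp hv).ne

theorem sp : s v ≠ s.symm v := fun h => f.two v hv (by rw [h, s.apply_symm_apply])

end Fac

theorem Fac.edges (f : Fac H c s) (hc : Fintype.card α = j + 4) : 4 * (j + 3) ≤ (eH H).card := by
  classical
  have h1 : (eH H).card = ∑ v, (univ.filter fun u => H.Adj v u).card := by
    rw [eH, card_filter, ← univ_product_univ, sum_product]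
    simp only [card_filter]
  have h2 : (univ.erase c).card = j + 3 := by rw [card_erase_of_mem (mem_univ _), card_univ, hc]; rfl
  have h3 : j + 3 ≤ (univ.filter fun u => H.Adj c u).card := by
    rw [← h2]
    exact card_le_card fun u hu => mem_filter.2 ⟨mem_univ _, f.dom u (ne_of_mem_erase hu)⟩
  have h4 := card_nsmul_le_sum (univ.erase c) (fun v => (univ.filter fun u => H.Adj v u).card) 3
    fun v hv => by
      have hv := ne_of_mem_erase hv
      refine le_trans (card_eq_three.2 ⟨c, s v, s.symm v, (f.sc hv).symm, (f.pc hv).symm,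
        f.sp hv, rfl⟩).ge (card_le_card fun u hu => mem_filter.2 ⟨mem_univ _, ?_⟩)
      simp only [mem_insert, mem_singleton] at hu
      rcases hu with rfl | rfl | rfl
      exacts [(f.dom v hv).symm, f.adj v hv, f.adjp hv]
  rw [h1, ← add_sum_erase _ _ (mem_univ c)]
  rw [h2, smul_eq_mul] at h4
  omega

theorem clq_of_free {w : ℕ} (h : G.CliqueFree (w + 1)) (S : Finset V)
    (hS : G.IsClique (S : Set V)) : S.card ≤ w := by
  by_contra hn
  obtain ⟨T, t1, t2⟩ := exists_subset_card_eq (not_le.1 hn)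
  exact h T ⟨hS.subset (coe_subset.2 t1), t2⟩

theorem sum_hit (S : Finset V) : (Fintype.card α : ℝ) * (emb H G S).card ≤
    ∑ v ∈ S, ((hit H G S {v}).card : ℝ) := by
  classical
  refine dc_ge (fun v φ => ∃ i, φ i = v) _ _ (fun φ hφ => ?_) fun v _ =>
    Nat.cast_le.2 (card_le_card fun φ hφ => mem_hit.2 (by simpa using hφ))
  obtain ⟨a, b, -⟩ := mem_emb.1 hφ
  rw [← card_univ, ← card_image_of_injective _ b]
  refine card_le_card fun v hv => ?_
  obtain ⟨i, -, rfl⟩ := mem_image.1 hv
  exact mem_filter.2 ⟨a i, i, rfl⟩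

theorem hit_deg (f : Fac H c s) (hc : Fintype.card α = j + 4) (S : Finset V) (u : V) :
    ((hit H G S {u}).card : ℝ) ≤ (j + 4) * ((nb G S u).card * (S.card : ℝ) ^ (j + 2)) := by
  obtain ⟨v0, hv0⟩ : ∃ v, v ≠ c := by
    have : Nontrivial α := Fintype.one_lt_card_iff_nontrivial.1 (by omega)
    exact exists_ne c
  have := cover (T := univ) (U := hit H G S {u}) (fun v φ => φ v = u)
    (fun _ => (nb G S u).card * (S.card : ℝ) ^ (j + 2))
    (fun φ hφ => by simpa using (mem_hit.1 hφ).2) fun v _ => by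
      obtain ⟨v', hv'⟩ : ∃ v', H.Adj v v' := by
        by_cases h : v = c
        · exact ⟨v0, h ▸ f.dom v0 hv0⟩
        · exact ⟨_, f.adj v h⟩
      simpa using ub2 (j := j + 2) (F := (hit H G S {u}).filter fun φ => φ v = u) hc hv'.ne {u}
        (nb G S u) le_rfl (fun φ hφ => by
          obtain ⟨a, b⟩ := mem_filter.1 hφ
          obtain ⟨a1, -, a3⟩ := mem_emb.1 (mem_hit.1 a).1
          exact ⟨mem_singleton.2 b, mem_nb.2 ⟨a1 _, b ▸ a3 _ _ hv'⟩⟩)
        fun φ hφ i _ _ => (mem_emb.1 (mem_hit.1 (mem_filter.1 hφ).1).1).1 i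
  simpa [hc] using this

theorem clone {S : Finset V} {u v : V} (hu : u ∈ S) (huv : v ≠ u) :
    (emb H G S).card + (hit H G S {v}).card ≤ (emb H (G.replaceVertex v u) S).card +
      (hit H G S {u}).card + (th2 H G S v u).card := by
  classical
  have h1 : (emb H G (S \ {u})).card ≤ (emb H (G.replaceVertex v u) (S \ {u})).card :=
    emb_map id (Set.injOn_id _) (fun _ h => h) fun x hx y hy h =>
      (G.adj_replaceVertex_iff_of_ne v (by simpa using (mem_sdiff.1 hx).2)
        (by simpa using (mem_sdiff.1 hy).2)).2 h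
  have h2 := card_filter_add_card_filter_not (s := hit H G S {v}) (fun φ => ∃ i, φ i = u)
  have h3 : ((hit H G S {v}).filter fun φ => ∃ i, φ i = u).card ≤ (th2 H G S v u).card :=
    card_le_card fun φ hφ => by
      obtain ⟨a, b⟩ := mem_filter.1 hφ
      exact mem_th2.2 ⟨(mem_hit.1 a).1, by simpa using (mem_hit.1 a).2, b⟩
  have h4 : ((hit H G S {v}).filter fun φ => ¬ ∃ i, φ i = u).card ≤
      (hit H (G.replaceVertex v u) S {u}).card := by
    refine card_le_card_of_injOn (fun φ => Equiv.swap v u ∘ φ) (fun φ hφ => ?_)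
      fun φ _ ψ _ h => (Equiv.swap v u).injective.comp_left h
    obtain ⟨a, b⟩ := mem_filter.1 (mem_coe.1 hφ)
    obtain ⟨a0, i0, a4⟩ := mem_hit.1 a
    obtain ⟨a1, a2, a3⟩ := mem_emb.1 a0
    push Not at b
    have e : ∀ i, φ i ≠ v → Equiv.swap v u (φ i) = φ i := fun i h =>
      Equiv.swap_apply_of_ne_of_ne h (b i)
    refine mem_coe.2 (mem_hit.2 ⟨mem_emb.2 ⟨fun i => ?_, (Equiv.swap v u).injective.comp a2,
      fun i i' h => ?_⟩, i0, by simp [mem_singleton.1 a4]⟩)
    · by_cases h : φ i = v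
      · simpa [h] using hu
      · simpa [e i h] using a1 i
    · have k := a3 i i' h
      simp only [comp_apply]
      by_cases h1 : φ i = v
      · have h2 : φ i' ≠ v := fun h2 => k.ne (h1.trans h2.symm)
        rw [e i' h2, h1, Equiv.swap_apply_left, G.adj_replaceVertex_iff_of_ne_right v (b i')]
        exact h1 ▸ k
      by_cases h2 : φ i' = v
      · rw [e i h1, h2, Equiv.swap_apply_left, SimpleGraph.adj_comm,
          G.adj_replaceVertex_iff_of_ne_right v (b i)]
        exact h2 ▸ k.symm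
      · rw [e i h1, e i' h2, G.adj_replaceVertex_iff_of_ne v (b i) (b i')]
        exact k
  rw [emb_split S {u}, emb_split (G := G.replaceVertex v u) S {u}]
  omega

/-- the Turán graph maximises the number of copies -/
theorem zyk1 (f : Fac H c s) (hc : Fintype.card α = j + 4) {w : ℕ} (hw : 300 * (j + 4) ^ 4 ≤ w)
    (S : Finset V) (G : SimpleGraph V) (hG : G.CliqueFree (w + 1)) :
    ((emb H G S).card : ℝ) ≤ gg H w S.card := by
  classical
  have w0 : 0 < w := lt_of_lt_of_le (by positivity) hw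
  rcases le_or_gt S.card w with hn | hn
  · obtain ⟨φ, h1, h2⟩ := S.finite_toSet.exists_injOn_of_encard_le
      (t := ((range S.card : Finset ℕ) : Set ℕ)) (by
        rw [Set.encard_coe_eq_coe_finsetCard, Set.encard_coe_eq_coe_finsetCard, card_range])
    have h3 : ∀ x ∈ S, φ x < S.card := fun x hx => mem_range.1 (mem_coe.1 (h1 hx))
    refine Nat.cast_le.2 (emb_map φ h2 (fun x hx => mem_range.2 (h3 x hx)) fun x hx y hy h => ?_)
    rw [Kc_adj, Nat.mod_eq_of_lt ((h3 x hx).trans_le hn), Nat.mod_eq_of_lt ((h3 y hy).trans_le hn)]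
    exact fun e => h.ne (h2 hx hy e)
  obtain ⟨G0, hG0, hmax⟩ : ∃ G0 : SimpleGraph V, G0.CliqueFree (w + 1) ∧
      ∀ G' : SimpleGraph V, G'.CliqueFree (w + 1) → (emb H G' S).card ≤ (emb H G0 S).card := by
    have hb : BddAbove {k | ∃ G' : SimpleGraph V, G'.CliqueFree (w + 1) ∧
        (emb H G' S).card = k} := ⟨(Fintype.piFinset fun _ : α => S).card, by
      rintro k ⟨G', -, rfl⟩
      exact card_le_card fun φ hφ => Fintype.mem_piFinset.2 (mem_emb.1 hφ).1⟩
    obtain ⟨G0, a, b⟩ := Nat.sSup_mem (by exact ⟨_, G, hG, rfl⟩) hb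
    exact ⟨G0, a, fun G' h => b ▸ le_csSup hb ⟨G', h, rfl⟩⟩
  refine (Nat.cast_le.2 (hmax G hG)).trans ?_
  by_contra hcon
  rw [not_le] at hcon
  set n : ℝ := (S.card : ℝ) with hnd
  set t : ℝ := j + 4 with ht
  have hj : (0 : ℝ) ≤ j := Nat.cast_nonneg _
  have t4 : 4 ≤ t := by linarith
  have w1 : (0 : ℝ) < w := by exact_mod_cast w0
  have wn : (w : ℝ) ≤ n := by rw [hnd]; exact_mod_cast hn.le
  have n0 : 0 < n := w1.trans_le wn
  have hw' : 300 * t ^ 4 ≤ w := by rw [ht]; exact_mod_cast hw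
  set y : ℝ := n / w with hy
  have y1 : 1 ≤ y := (one_le_div w1).2 wn
  have g1 := gg_ge (H := H) (j := j + 3) hc w0 (m := S.card / w + 1) (i := S.card)
    (Nat.lt_mul_div_succ _ w0).le le_rfl
  have g2 : ((S.card / w : ℕ) : ℝ) ≤ y := Nat.cast_div_le
  obtain ⟨v, hv, hvm⟩ := S.exists_max_image (fun v => (hit H G0 S {v}).card)
    (card_pos.1 (by omega))
  have g3 := (sum_hit (H := H) (G := G0) S).trans (sum_le_card_nsmul _ _
    ((hit H G0 S {v}).card : ℝ) fun u hu => Nat.cast_le.2 (hvm u hu))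
  rw [hc, nsmul_eq_mul] at g3
  push_cast at g1 g3
  rw [show (j : ℝ) + 3 + 1 = t by rw [ht]; ring, ← hnd] at g1
  rw [← hnd, ← ht] at g3
  have P0 : 0 < n ^ (j + 2) := by positivity
  have g4 : t * (n - 2 * t ^ 2 * y) * n ^ (j + 2) ≤ (hit H G0 S {v}).card := by
    refine le_of_mul_le_mul_left (le_trans ?_ g3) n0
    have k1 := mul_le_mul_of_nonneg_left (g1.trans hcon.le) (show 0 ≤ t by linarith)
    have k2 := mul_le_mul_of_nonneg_right
      (show ((S.card / w : ℕ) : ℝ) + 1 ≤ 2 * y by linarith)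
      (show 0 ≤ t ^ 3 * n ^ (j + 3) by positivity)
    rw [pow_succ n (j + 3), pow_succ n (j + 2)] at *
    linarith
  have g5 : ∀ u ∈ S, ((S \ nb G0 S u).card : ℝ) ≤ 3 * t ^ 2 * y := by
    intro u hu
    have k0 : 0 ≤ t ^ 2 * n ^ (j + 2) := by positivity
    have k1 : ((hit H G0 S {v}).card : ℝ) ≤ (hit H G0 S {u}).card + t ^ 2 * n ^ (j + 2) := by
      by_cases h : v = u
      · rw [h]; linarith
      have a1 := clone (H := H) (G := G0) hu h
      have a2 := hmax _ (hG0.replaceVertex v u)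
      have a3 := th2_le (H := H) (G := G0) (j := j + 2) hc S le_rfl h
      have a4 : ((hit H G0 S {v}).card : ℝ) ≤ (hit H G0 S {u}).card + (th2 H G0 S v u).card := by
        exact_mod_cast (by omega : (hit H G0 S {v}).card ≤ _ + _)
      push_cast at a3
      rw [show (j : ℝ) + 2 + 2 = t by rw [ht]; ring] at a3
      linarith
    have k2 := hit_deg (G := G0) f hc S u
    have k3 : (n - 2 * t ^ 2 * y - t) * (t * n ^ (j + 2)) ≤
        (nb G0 S u).card * (t * n ^ (j + 2)) := by
      rw [← ht, ← hnd] at k2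
      linarith
    have k4 := le_of_mul_le_mul_right k3 (by positivity)
    have k5 := card_nn (G := G0) S u
    nlinarith
  obtain ⟨c1, c2⟩ := lemC hc (f.edges hc) w0 (by positivity)
    (fun K _ hK => clq_of_free hG0 K hK) g5 (by
      rw [← ht, ← hnd]
      have : n = w * y := by rw [hy]; field_simp
      nlinarith)
  have := mul_nonneg (show 0 ≤ 1.92 * (j + 3) * (S.card : ℝ) ^ (j + 2) by positivity)
    (sub_nonneg.2 c1)
  linarith

end Pool.Agent.GL2
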