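import Pool.Agent.P.MP_dfe42f_co.HfE

/-! Averages over product sets and the load inequality. -/

namespace Pool.Agent.GL2
open Finset Function

set_option linter.unusedSectionVars false

variable {V β κ : Type} [Fintype κ] [DecidableEq κ]

/-- average over a finite set -/
noncomputable def av (X : Finset β) (f : β → ℝ) : ℝ := (∑ x ∈ X, f x) / X.card

theorem av_mono {X : Finset β} {f g : β → ℝ} (h : ∀ x ∈ X, f x ≤ g x) : av X f ≤ av X g :=
  div_le_div_of_nonneg_right (sum_le_sum h) (Nat.cast_nonneg _)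

theorem av_congr {X : Finset β} {f g : β → ℝ} (h : ∀ x ∈ X, f x = g x) : av X f = av X g := by
  rw [av, av, sum_congr rfl h]

theorem av_nonneg {X : Finset β} {f : β → ℝ} (h : ∀ x ∈ X, 0 ≤ f x) : 0 ≤ av X f :=
  div_nonneg (sum_nonneg h) (Nat.cast_nonneg _)

theorem av_add (X : Finset β) (f g : β → ℝ) : av X (fun x => f x + g x) = av X f + av X g := by
  rw [av, av, av, sum_add_distrib, add_div]

theorem av_sub (X : Finset β) (f g : β → ℝ) : av X (fun x => f x - g x) = av X f - av X g := by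
  rw [av, av, av, sum_sub_distrib, sub_div]

theorem av_mul (X : Finset β) (a : ℝ) (f : β → ℝ) : av X (fun x => a * f x) = a * av X f := by
  rw [av, av, ← mul_sum, mul_div_assoc]

theorem av_mul' (X : Finset β) (a : ℝ) (f : β → ℝ) : av X (fun x => f x * a) = av X f * a := by
  rw [mul_comm, ← av_mul]
  exact av_congr fun _ _ => mul_comm _ _

theorem av_const {X : Finset β} (hX : X.Nonempty) (a : ℝ) : av X (fun _ => a) = a := by
  have : (X.card : ℝ) ≠ 0 := by exact_mod_cast hX.card_pos.ne'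
  rw [av, sum_const, nsmul_eq_mul]
  field_simp

theorem av_sum {ι : Type} (X : Finset β) (A : Finset ι) (f : ι → β → ℝ) :
    av X (fun x => ∑ i ∈ A, f i x) = ∑ i ∈ A, av X (f i) := by
  rw [av, sum_comm, sum_div]
  rfl

theorem av_comm (X : Finset β) (f : β → β → ℝ) :
    av X (fun x => av X (f x)) = av X fun y => av X fun x => f x y := by
  simp only [av]
  rw [← sum_div, ← sum_div, sum_comm]

theorem av_sq {X : Finset β} (hX : X.Nonempty) (f : β → ℝ) :
    av X f ^ 2 ≤ av X fun x => f x ^ 2 := by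
  have h1 : 0 ≤ av X fun x => f x ^ 2 - (2 * av X f) * f x + av X f ^ 2 :=
    av_nonneg fun x _ => by nlinarith [sq_nonneg (f x - av X f)]
  rw [av_add, av_sub, av_mul, av_const hX] at h1
  nlinarith

/-- all maps into `X` -/
noncomputable def PP (κ : Type) [Fintype κ] [DecidableEq κ] (X : Finset V) : Finset (κ → V) :=
  Fintype.piFinset fun _ => X

theorem mem_PP {X : Finset V} {y : κ → V} : y ∈ PP κ X ↔ ∀ i, y i ∈ X := Fintype.mem_piFinset

theorem card_PP (X : Finset V) : (PP κ X).card = X.card ^ Fintype.card κ := by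
  simp [PP]

theorem PP_ne {X : Finset V} (hX : X.Nonempty) : (PP κ X).Nonempty := by
  obtain ⟨x, hx⟩ := hX
  exact ⟨fun _ => x, mem_PP.2 fun _ => hx⟩

theorem resample (X : Finset V) (i : κ) (F : (κ → V) → ℝ) :
    ∑ y ∈ PP κ X, ∑ x ∈ X, F (update y i x) = X.card * ∑ y ∈ PP κ X, F y := by
  have h : ∀ p ∈ PP κ X ×ˢ X, (update p.1 i p.2, p.1 i) ∈ PP κ X ×ˢ X := by
    intro p hp
    obtain ⟨a, b⟩ := mem_product.1 hp
    refine mem_product.2 ⟨mem_PP.2 fun l => ?_, mem_PP.1 a i⟩
    by_cases h : l = i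
    · simpa [h] using b
    · simpa [h] using mem_PP.1 a l
  have h2 : ∑ p ∈ PP κ X ×ˢ X, F (update p.1 i p.2) = ∑ p ∈ PP κ X ×ˢ X, F p.1 :=
    sum_nbij' (fun p => (update p.1 i p.2, p.1 i)) (fun p => (update p.1 i p.2, p.1 i)) h h
      (by simp) (by simp) (by simp)
  rw [sum_product, sum_product] at h2
  rw [h2, mul_sum]
  simp

theorem step {X : Finset V} (hX : X.Nonempty) (i : κ) (g : (κ → V) → V → ℝ)
    (hg : ∀ y x, g (update y i x) = g y) :
    av (PP κ X) (fun y => g y (y i)) = av (PP κ X) fun y => av X (g y) := by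
  have h0 : (X.card : ℝ) ≠ 0 := by exact_mod_cast hX.card_pos.ne'
  have h := resample X i fun y => g y (y i)
  simp only [hg, update_self] at h
  simp only [av]
  rw [← sum_div, h]
  field_simp

theorem step1 {X : Finset V} (hX : X.Nonempty) (i : κ) (F : (κ → V) → ℝ) (g : V → ℝ)
    (hF : ∀ y x, F (update y i x) = F y) :
    av (PP κ X) (fun y => F y * g (y i)) = av (PP κ X) F * av X g := by
  rw [step hX i (fun y x => F y * g x) (fun y x => by rw [hF]), ← av_mul']
  exact av_congr fun y _ => av_mul _ _ _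

theorem step0 {X : Finset V} (hX : X.Nonempty) (i : κ) (g : V → ℝ) :
    av (PP κ X) (fun y => g (y i)) = av X g := by
  rw [step hX i (fun _ x => g x) (fun _ _ => rfl), av_const (PP_ne hX)]

theorem step2 {X : Finset V} (hX : X.Nonempty) {i l : κ} (h : l ≠ i) (F : (κ → V) → ℝ)
    (g : V → V → ℝ) (hF : ∀ y x, F (update y i x) = F y) :
    av (PP κ X) (fun y => F y * g (y l) (y i)) =
      av (PP κ X) fun y => F y * av X (g (y l)) := by
  rw [step hX i (fun y x => F y * g (y l) x) (fun y x => by rw [hF, update_of_ne h])]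
  exact av_congr fun y _ => av_mul _ _ _

theorem stepA {X : Finset V} (hX : X.Nonempty) (F : (κ → V) → ℝ) (g : V → ℝ) (A : Finset κ) :
    (∀ i ∈ A, ∀ y x, F (update y i x) = F y) →
    av (PP κ X) (fun y => F y * ∏ i ∈ A, g (y i)) = av (PP κ X) F * av X g ^ A.card := by
  induction A using Finset.induction_on with
  | empty => simp
  | insert a A ha ih =>
    intro h
    rw [card_insert_of_notMem ha, pow_succ, ← mul_assoc,
      ← ih fun i hi => h i (mem_insert_of_mem hi),
      ← step1 hX a (fun y => F y * ∏ i ∈ A, g (y i)) g fun y x => by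
        rw [h a (mem_insert_self _ _)]
        congr 1
        exact prod_congr rfl fun i hi => by rw [update_of_ne (ne_of_mem_of_not_mem hi ha)]]
    exact av_congr fun y _ => by rw [prod_insert ha]; ring

theorem bonf {t : κ → ℝ} (h0 : ∀ i, 0 ≤ t i) (h1 : ∀ i, t i ≤ 1) (A : Finset κ) :
    1 - ∑ i ∈ A, t i ≤ ∏ i ∈ A, (1 - t i) ∧
    ∑ i ∈ A, t i - ((∑ i ∈ A, t i) ^ 2 - ∑ i ∈ A, t i ^ 2) / 2 ≤ 1 - ∏ i ∈ A, (1 - t i) := by
  induction A using Finset.induction_on with
  | empty => simp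
  | insert a A ha ih =>
    rw [sum_insert ha, sum_insert ha, prod_insert ha]
    have h2 : 0 ≤ ∑ i ∈ A, t i := sum_nonneg fun i _ => h0 i
    have h3 := mul_le_mul_of_nonneg_left ih.1 (h0 a)
    have h4 := mul_le_mul_of_nonneg_left ih.1 (sub_nonneg.2 (h1 a))
    have h5 := mul_nonneg (h0 a) h2
    constructor <;> nlinarith [ih.2]

theorem pw {σ : Equiv.Perm κ} (s1 : ∀ i, σ i ≠ i) (s2 : ∀ i, σ (σ i) ≠ i) {b a t u : κ → ℝ}
    (hb : ∀ i, b i = 0 ∨ b i = 1) (a0 : ∀ i, 0 ≤ a i) (t0 : ∀ i, 0 ≤ t i) (u0 : ∀ i, 0 ≤ u i)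
    (hs : ∀ i, a i + t i + u i ≤ 1) (j0 : κ) :
    ∏ i, (1 - b i) + ∑ j, (∏ i ∈ univ \ {j, σ j}, (1 - b i)) * a j * b j
      + ∑ j, t j * (1 - b (σ.symm j)) * b j
      - 1 / 2 * ∑ j, ∑ i ∈ univ \ {j, σ j, σ.symm j}, t i * t j * b i * b j
      + b j0 * ∏ j, u j ≤ 1 := by
  have b0 : ∀ i, 0 ≤ b i := fun i => by rcases hb i with h | h <;> simp [h]
  have b1 : ∀ i, b i ≤ 1 := fun i => by rcases hb i with h | h <;> simp [h]
  have u1 : ∀ i, u i ≤ 1 := fun i => by linarith [a0 i, t0 i, hs i]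
  have pu : 0 ≤ ∏ j, u j := prod_nonneg fun i _ => u0 i
  have l1 : b j0 * ∏ j, u j ≤ ∏ j, u j := mul_le_of_le_one_left pu (b1 _)
  by_cases hA : ∀ i, b i = 0
  · simp [hA]
  push Not at hA
  obtain ⟨i0, hi0⟩ := hA
  have e1 : ∏ i, (1 - b i) = 0 :=
    prod_eq_zero (mem_univ i0) (by rw [(hb i0).resolve_left hi0, sub_self])
  rw [e1, zero_add]
  by_cases hB : ∃ l, b l = 1 ∧ ∀ i, i ≠ l → i ≠ σ l → b i = 0
  · obtain ⟨l, hl, hl2⟩ := hB
    have e2 : ∑ j, (∏ i ∈ univ \ {j, σ j}, (1 - b i)) * a j * b j = a l := by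
      rw [sum_eq_single l (fun j _ hj => ?_) (by simp), hl, prod_eq_one fun i hi => ?_]
      · ring
      · simp only [mem_sdiff, mem_insert, mem_singleton, not_or] at hi
        rw [hl2 i hi.2.1 hi.2.2, sub_zero]
      · by_cases h : j = σ l
        · rw [prod_eq_zero (i := l) (by
            simp only [mem_sdiff, mem_insert, mem_singleton, not_or, mem_univ, true_and]
            exact ⟨hj.symm, by rw [h]; exact (s2 l).symm⟩) (by rw [hl, sub_self])]
          ring
        · rw [hl2 j hj h, mul_zero]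
    have e3 : ∑ j, t j * (1 - b (σ.symm j)) * b j ≤ t l := by
      rw [sum_eq_single l (fun j _ hj => ?_) (by simp), hl]
      · nlinarith [t0 l, b0 (σ.symm l)]
      · by_cases h : j = σ l
        · rw [h, σ.symm_apply_apply, hl]
          ring
        · rw [hl2 j hj h, mul_zero]
    have e4 : 0 ≤ ∑ j, ∑ i ∈ univ \ {j, σ j, σ.symm j}, t i * t j * b i * b j :=
      sum_nonneg fun j _ => sum_nonneg fun i _ =>
        mul_nonneg (mul_nonneg (mul_nonneg (t0 _) (t0 _)) (b0 _)) (b0 _)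
    have e5 : ∏ j, u j ≤ u l := by
      rw [← mul_prod_erase _ _ (mem_univ l)]
      exact mul_le_of_le_one_right (u0 l) (prod_le_one (fun i _ => u0 i) fun i _ => u1 i)
    linarith [hs l]
  push Not at hB
  have e2 : ∑ j, (∏ i ∈ univ \ {j, σ j}, (1 - b i)) * a j * b j = 0 := by
    refine sum_eq_zero fun j _ => ?_
    rcases hb j with h | h
    · rw [h, mul_zero]
    · obtain ⟨i, p1, p2, p3⟩ := hB j h
      rw [prod_eq_zero (i := i) (by simp [p1, p2]) (by rw [(hb i).resolve_left p3, sub_self])]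
      ring
  set T : κ → ℝ := fun j => t j * (1 - b (σ.symm j)) * b j with hT
  have T1 : ∀ j, T j ≤ t j * b j := fun j => by
    simp only [hT]
    nlinarith [mul_nonneg (mul_nonneg (t0 j) (b0 j)) (b0 (σ.symm j))]
  have T0 : ∀ j, 0 ≤ T j := fun j =>
    mul_nonneg (mul_nonneg (t0 j) (sub_nonneg.2 (b1 _))) (b0 j)
  have T2 : ∀ j, T j ≤ t j := fun j => (T1 j).trans (mul_le_of_le_one_right (t0 j) (b1 j))
  have T3 : ∀ j, T (σ j) * T j = 0 := fun j => by
    simp only [hT, σ.symm_apply_apply]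
    rcases hb j with h | h <;> rw [h] <;> ring
  have e3 := (bonf T0 (fun j => by linarith [T2 j, a0 j, u0 j, hs j]) univ).2
  have e4 : ∏ j, u j ≤ ∏ j, (1 - T j) :=
    prod_le_prod (fun i _ => u0 i) fun i _ => by linarith [T2 i, a0 i, hs i]
  have e5 : (∑ i, T i) ^ 2 - ∑ i, T i ^ 2 ≤
      ∑ j, ∑ i ∈ univ \ {j, σ j, σ.symm j}, t i * t j * b i * b j := by
    rw [sq, sum_mul_sum, sum_comm, ← sum_sub_distrib]
    refine sum_le_sum fun j _ => ?_
    have n1 : j ≠ σ.symm j := fun h => s1 j (by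
      conv_lhs => rw [h]
      exact σ.apply_symm_apply j)
    have n2 : σ j ≠ σ.symm j := fun h => s2 j (by rw [h, σ.apply_symm_apply])
    have n3 : T (σ.symm j) * T j = 0 := by
      have := T3 (σ.symm j)
      rwa [σ.apply_symm_apply, mul_comm] at this
    rw [← sum_sdiff (subset_univ ({j, σ j, σ.symm j} : Finset κ)),
      sum_insert (by simp [(s1 j).symm, n1]), sum_pair n2, T3, n3]
    have := sum_le_sum (s := univ \ ({j, σ j, σ.symm j} : Finset κ))
      (f := fun i => T i * T j) (g := fun i => t i * t j * b i * b j) fun i _ =>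
        (mul_le_mul (T1 i) (T1 j) (T0 j) (mul_nonneg (t0 i) (b0 i))).trans (le_of_eq (by ring))
    linarith
  rw [e2]
  linarith

theorem phi0 {g : ℝ} (g0 : 0 ≤ g) (g1 : g ≤ 1) (r : ℕ) :
    ∃ p, 0 ≤ p ∧ p ≤ g ∧ g * (1 - g) ^ r ≤ p - r / 2 * p ^ 2 := by
  have r0 : (0 : ℝ) ≤ r := Nat.cast_nonneg _
  have x0 : 0 ≤ r * g := mul_nonneg r0 g0
  have P0 : 0 ≤ (1 - g) ^ r := pow_nonneg (sub_nonneg.2 g1) _
  have h1 : (1 - g) ^ r ≤ Real.exp (-g) ^ r :=
    pow_le_pow_left₀ (sub_nonneg.2 g1) (Real.one_sub_le_exp_neg g) r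
  have h2 : Real.exp (-g) ^ r * Real.exp (r * g) = 1 := by
    rw [← Real.exp_nat_mul, ← Real.exp_add]
    simp
  have h3 := Real.quadratic_le_exp_of_nonneg x0
  have h4 : (1 - g) ^ r * (1 + r * g + (r * g) ^ 2 / 2) ≤ 1 :=
    (mul_le_mul h1 h3 (by positivity) (P0.trans h1)).trans h2.le
  set P := (1 - g) ^ r
  by_cases h : r * g ≤ 1
  · refine ⟨g, g0, le_rfl, ?_⟩
    have h5 : P ≤ 1 - r * g / 2 := by
      by_contra hh
      push Not at hh
      have := mul_lt_mul_of_pos_right hh (show 0 < 1 + r * g + (r * g) ^ 2 / 2 by positivity)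
      nlinarith [mul_nonneg x0 (sub_nonneg.2 h), mul_nonneg (mul_nonneg x0 x0) (sub_nonneg.2 h)]
    nlinarith [mul_le_mul_of_nonneg_left h5 g0]
  · push Not at h
    have rp : (0 : ℝ) < r := by
      rcases r0.lt_or_eq with h' | h'
      · exact h'
      · rw [← h'] at h; linarith
    refine ⟨1 / r, by positivity, by rw [div_le_iff₀ rp]; linarith, ?_⟩
    have h5 : r * g * P ≤ 1 / 2 := by nlinarith [mul_nonneg P0 (sq_nonneg (r * g - 1))]
    have h6 : 1 / (r : ℝ) - r / 2 * (1 / r) ^ 2 = 1 / 2 / r := by field_simp; ring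
    rw [h6, le_div_iff₀ rp]
    linarith

theorem three {X : Finset V} (hX : X.Nonempty) {b : V → V → ℝ} (hs : ∀ x y, b x y = b y x)
    (b0 : ∀ x y, 0 ≤ b x y) :
    av X (fun x => av X (b x)) ^ 3 / 32 ≤
      av X fun x => av X fun y => av X (b x) * (av X (b y) * b x y) := by
  set m : V → ℝ := fun x => av X (b x) with hm
  have m0 : ∀ x, 0 ≤ m x := fun x => av_nonneg fun y _ => b0 x y
  set θ := av X m with hθ
  have θ0 : 0 ≤ θ := av_nonneg fun x _ => m0 x
  set l : V → ℝ := fun x => if m x < θ / 4 then 1 else 0 with hl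
  have l1 : ∀ x, l x * m x ≤ θ / 4 := fun x => by
    simp only [hl]
    split_ifs with h <;> linarith
  have l2 : ∀ x y, (θ / 4) ^ 2 * (b x y - l x * b x y - l y * b x y) ≤ m x * (m y * b x y) := by
    intro x y
    have h0 := mul_nonneg (sq_nonneg (θ / 4)) (b0 x y)
    have h1 := mul_nonneg (m0 x) (mul_nonneg (m0 y) (b0 x y))
    simp only [hl]
    split_ifs with h2 h3 h3
    · linarith
    · linarith
    · linarith
    · have := mul_le_mul (not_lt.1 h2) (not_lt.1 h3) (by positivity) (m0 x)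
      nlinarith [mul_le_mul_of_nonneg_right this (b0 x y)]
  have a1 : av X (fun x => av X fun y => l x * b x y) ≤ θ / 4 := by
    rw [← av_const hX (θ / 4)]
    exact av_mono fun x _ => by rw [av_mul]; exact l1 x
  have a2 : av X (fun x => av X fun y => l y * b x y) ≤ θ / 4 := by
    rw [av_comm]
    simp only [fun x y => hs y x]
    refine le_trans (le_of_eq ?_) a1
    exact av_congr fun x _ => av_congr fun y _ => by rw [hs]
  have a3 := av_mono (X := X) fun x _ => av_mono (X := X) fun y _ => l2 x y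
  refine le_trans ?_ a3
  simp only [av_mul, av_sub]
  simp only [av_mul] at a1
  change _ ≤ (θ / 4) ^ 2 * (θ - _ - _)
  nlinarith [mul_le_mul_of_nonneg_left a1 (sq_nonneg (θ / 4)),
    mul_le_mul_of_nonneg_left a2 (sq_nonneg (θ / 4))]

/-- the load inequality -/
theorem load {σ : Equiv.Perm κ} (s1 : ∀ i, σ i ≠ i) (s2 : ∀ i, σ (σ i) ≠ i) {r : ℕ}
    (hc : Fintype.card κ = r + 3) {X : Finset V} (hX : X.Nonempty) {b : V → V → ℝ}
    (hs : ∀ x y, b x y = b y x) (hb : ∀ x y, b x y = 0 ∨ b x y = 1) {m g : V → ℝ}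
    (hm : ∀ x, m x = av X (b x)) (m0 : ∀ x ∈ X, 0 < m x) (g0 : ∀ x ∈ X, 0 ≤ g x)
    (g1 : ∀ x ∈ X, g x ≤ m x) :
    av (PP κ X) (fun y => (∏ i, (1 - b (y i) (y (σ i)))) * (1 + ∑ i, (m (y i) - g (y i)))) +
      (r + 3) * av X (fun x => g x * (1 - g x) ^ r * (1 - m x) ^ 2) ≤
      1 - av X m ^ (r + 4) / (32 * 2 ^ (r + 3)) := by
  have b0 : ∀ x y, 0 ≤ b x y := fun x y => by rcases hb x y with h | h <;> simp [h]
  have b1 : ∀ x y, b x y ≤ 1 := fun x y => by rcases hb x y with h | h <;> simp [h]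
  have m1 : ∀ x, m x ≤ 1 := fun x => by
    rw [hm, ← av_const hX 1]
    exact av_mono fun y _ => b1 x y
  have hp : ∀ x, ∃ p, x ∈ X → 0 ≤ p ∧ p ≤ g x ∧ g x * (1 - g x) ^ r ≤ p - r / 2 * p ^ 2 := by
    intro x
    by_cases hx : x ∈ X
    · obtain ⟨p, h⟩ := phi0 (g0 x hx) ((g1 x hx).trans (m1 x)) r
      exact ⟨p, fun _ => h⟩
    · exact ⟨0, fun h => absurd h hx⟩
  choose p hp using hp
  set a : V → ℝ := fun x => (m x - g x) * (1 - m x) / m x with ha
  set t : V → ℝ := fun x => (1 - m x) * p x / m x with ht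
  set u : V → ℝ := fun x => m x / 2 with hu
  have am : ∀ x ∈ X, a x * m x = (m x - g x) * (1 - m x) := fun x hx =>
    div_mul_cancel₀ _ (m0 x hx).ne'
  have tm : ∀ x ∈ X, t x * m x = (1 - m x) * p x := fun x hx => div_mul_cancel₀ _ (m0 x hx).ne'
  have a0 : ∀ x ∈ X, 0 ≤ a x := fun x hx =>
    div_nonneg (mul_nonneg (sub_nonneg.2 (g1 x hx)) (sub_nonneg.2 (m1 x))) (m0 x hx).le
  have t0 : ∀ x ∈ X, 0 ≤ t x := fun x hx =>
    div_nonneg (mul_nonneg (sub_nonneg.2 (m1 x)) (hp x hx).1) (m0 x hx).le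
  have u0 : ∀ x ∈ X, 0 ≤ u x := fun x hx => div_nonneg (m0 x hx).le zero_le_two
  have atu : ∀ x ∈ X, a x + t x + u x ≤ 1 := fun x hx => by
    refine le_of_mul_le_mul_right ?_ (m0 x hx)
    rw [add_mul, add_mul, am x hx, tm x hx]
    have := mul_le_mul_of_nonneg_left (hp x hx).2.1 (sub_nonneg.2 (m1 x))
    simp only [hu]
    nlinarith [sq_nonneg (m x)]
  have n1 : ∀ j, σ.symm j ≠ j := fun j h => s1 j (by
    conv_lhs => rw [← h]
    exact σ.apply_symm_apply j)
  have n2 : ∀ j, σ.symm j ≠ σ j := fun j h => s2 j (by rw [← h, σ.apply_symm_apply])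
  have hm' : ∀ x, av X (fun y => 1 - b x y) = 1 - m x := fun x => by
    rw [av_sub, av_const hX, hm]
  obtain ⟨j0⟩ : Nonempty κ := Fintype.card_pos_iff.1 (by omega)
  set R : κ → (κ → V) → ℝ := fun j y => ∏ i ∈ univ \ {j, σ j}, (1 - b (y i) (y (σ i))) with hR
  have R0 : ∀ j y, 0 ≤ R j y := fun j y => prod_nonneg fun i _ => sub_nonneg.2 (b1 _ _)
  have R1 : ∀ j y x, R j (update y (σ j) x) = R j y := fun j y x => prod_congr rfl fun i hi => by
    simp only [mem_sdiff, mem_insert, mem_singleton, not_or] at hi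
    rw [update_of_ne hi.2.2, update_of_ne fun h => hi.2.1 (σ.injective h)]
  have R2 : ∀ j y, ∏ i, (1 - b (y i) (y (σ i))) ≤ R j y * (1 - b (y j) (y (σ j))) := by
    intro j y
    rw [← prod_sdiff (subset_univ ({j, σ j} : Finset κ)), prod_pair (s1 j).symm]
    exact mul_le_mul_of_nonneg_left
      (mul_le_of_le_one_right (sub_nonneg.2 (b1 _ _)) (by linarith [b0 (y (σ j)) (y (σ (σ j)))]))
      (R0 j y)
  have E0 := av_mono (X := PP κ X) fun y hy => pw s1 s2 (b := fun i => b (y i) (y (σ i)))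
    (a := fun i => a (y i)) (t := fun i => t (y i)) (u := fun i => u (y i)) (fun i => hb _ _)
    (fun i => a0 _ (mem_PP.1 hy i)) (fun i => t0 _ (mem_PP.1 hy i))
    (fun i => u0 _ (mem_PP.1 hy i)) (fun i => atu _ (mem_PP.1 hy i)) j0
  rw [av_const (PP_ne hX), av_add, av_sub, av_add, av_add, av_mul, av_sum, av_sum, av_sum] at E0
  have E1 : ∀ j, av (PP κ X) (fun y => (∏ i, (1 - b (y i) (y (σ i)))) * (m (y j) - g (y j))) ≤
      av (PP κ X) fun y => R j y * a (y j) * b (y j) (y (σ j)) := by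
    intro j
    have h1 := step2 hX (s1 j).symm (fun y => R j y * a (y j)) b fun y x => by
      rw [R1, update_of_ne (s1 j).symm]
    have h2 := step2 hX (s1 j).symm (fun y => R j y * (m (y j) - g (y j)))
      (fun x y => 1 - b x y) fun y x => by rw [R1, update_of_ne (s1 j).symm]
    rw [h1]
    refine le_trans (av_mono fun y hy => ?_) (h2.trans (av_congr fun y hy => ?_)).le
    · have := mul_le_mul_of_nonneg_right (R2 j y) (sub_nonneg.2 (g1 _ (mem_PP.1 hy j)))
      linarith
    · rw [hm', ← hm, mul_assoc, mul_assoc, am _ (mem_PP.1 hy j)]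
  have E2 : ∀ j, av (PP κ X) (fun y => t (y j) * (1 - b (y (σ.symm j)) (y (σ (σ.symm j)))) *
      b (y j) (y (σ j))) = av X fun x => p x * (1 - m x) ^ 2 := by
    intro j
    simp only [σ.apply_symm_apply]
    rw [step2 hX (s1 j).symm (fun y => t (y j) * (1 - b (y (σ.symm j)) (y j))) b fun y x => by
      rw [update_of_ne (s1 j).symm, update_of_ne (n2 j)]]
    have h2 := step2 hX (n1 j).symm (fun y => t (y j) * m (y j)) (fun x y => 1 - b x y)
      fun y x => by rw [update_of_ne (n1 j).symm]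
    refine (av_congr fun y _ => ?_).trans (h2.trans ?_)
    · rw [← hm, hs]
      ring
    · rw [step0 hX j fun x => t x * m x * av X fun y => 1 - b x y]
      exact av_congr fun x hx => by rw [hm', tm x hx]; ring
  have E3 : ∀ j, av (PP κ X) (fun y => ∑ i ∈ univ \ {j, σ j, σ.symm j},
      t (y i) * t (y j) * b (y i) (y (σ i)) * b (y j) (y (σ j))) ≤
      r * av X fun x => p x ^ 2 * (1 - m x) ^ 2 := by
    intro j
    have hcard : (univ \ ({j, σ j, σ.symm j} : Finset κ)).card = r := by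
      rw [card_univ_sdiff, card_insert_of_notMem (by simp [(s1 j).symm, (n1 j).symm]),
        card_pair (n2 j).symm, hc]
      rfl
    rw [av_sum, ← hcard, ← nsmul_eq_mul]
    refine sum_le_card_nsmul _ _ _ fun i hi => ?_
    simp only [mem_sdiff, mem_insert, mem_singleton, not_or] at hi
    obtain ⟨-, i1, i2, i3⟩ := hi
    have i4 : σ i ≠ σ j := fun h => i1 (σ.injective h)
    have i5 : j ≠ σ i := fun h => i3 (by rw [h, σ.symm_apply_apply])
    rw [step2 hX (s1 j).symm (fun y => t (y i) * t (y j) * b (y i) (y (σ i))) b fun y x => by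
      rw [update_of_ne (s1 j).symm, update_of_ne i2, update_of_ne i4]]
    have h2 := step2 hX (s1 i).symm (fun y => t (y j) * m (y j) * t (y i)) b
      fun y x => by rw [update_of_ne (s1 i).symm, update_of_ne i5]
    have h3 := step1 hX i (fun y => t (y j) * m (y j)) (fun x => t x * m x)
      fun y x => by rw [update_of_ne (Ne.symm i1)]
    rw [step0 hX j fun x => t x * m x, ← sq] at h3
    have h4 := av_sq hX fun x => t x * m x
    refine le_trans (le_of_eq ?_) (h4.trans (le_of_eq ?_))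
    · rw [← h3]
      refine (av_congr fun y _ => ?_).trans (h2.trans (av_congr fun y _ => ?_))
      · rw [← hm]; ring
      · rw [← hm]; ring
    · exact av_congr fun x hx => by rw [tm x hx]; ring
  have E4 : av X m ^ (r + 4) / (32 * 2 ^ (r + 3)) ≤
      av (PP κ X) fun y => b (y j0) (y (σ j0)) * ∏ j, u (y j) := by
    have hcard : (univ \ ({j0, σ j0} : Finset κ)).card = r + 1 := by
      rw [card_univ_sdiff, card_pair (s1 j0).symm, hc]
      rfl
    have h1 := stepA hX (fun y => 1 / 4 * m (y j0) * (m (y (σ j0)) * b (y j0) (y (σ j0)))) u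
      (univ \ {j0, σ j0}) fun i hi y x => by
        simp only [mem_sdiff, mem_insert, mem_singleton, not_or] at hi
        rw [update_of_ne (Ne.symm hi.2.1), update_of_ne (Ne.symm hi.2.2)]
    rw [step2 hX (s1 j0).symm (fun y => 1 / 4 * m (y j0)) (fun x y => m y * b x y) (fun y x => by
      rw [update_of_ne (s1 j0).symm]),
      step0 hX j0 (fun x => 1 / 4 * m x * av X fun y => m y * b x y), hcard] at h1
    have h2 := three hX hs b0
    simp only [← hm, av_mul] at h2
    have h3 : av X u = av X m / 2 := by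
      rw [div_eq_mul_inv, ← av_mul']
      rfl
    have h4 : av X (fun x => 1 / 4 * m x * av X fun y => m y * b x y) =
        1 / 4 * av X fun x => m x * av X fun y => m y * b x y := by
      rw [← av_mul]
      exact av_congr fun x _ => mul_assoc _ _ _
    have h5 : 0 ≤ (av X m / 2) ^ (r + 1) :=
      pow_nonneg (div_nonneg (av_nonneg fun x hx => (m0 x hx).le) zero_le_two) _
    rw [h3, h4] at h1
    refine le_trans (le_of_eq ?_) ((mul_le_mul_of_nonneg_right
      (mul_le_mul_of_nonneg_left h2 (show (0 : ℝ) ≤ 1 / 4 by norm_num)) h5).trans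
      (h1.symm.trans (av_congr fun y _ => ?_)).le)
    · rw [div_pow]
      field_simp
      ring
    · rw [← prod_sdiff (subset_univ ({j0, σ j0} : Finset κ)), prod_pair (s1 j0).symm]
      simp only [hu]
      ring
  have E5 : av X (fun x => g x * (1 - g x) ^ r * (1 - m x) ^ 2) ≤
      av X (fun x => p x * (1 - m x) ^ 2) - r / 2 * av X fun x => p x ^ 2 * (1 - m x) ^ 2 := by
    rw [← av_mul, ← av_sub]
    exact av_mono fun x hx =>
      (mul_le_mul_of_nonneg_right (hp x hx).2.2 (sq_nonneg _)).trans (le_of_eq (by ring))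
  have F1 := sum_le_sum fun j (_ : j ∈ univ) => E1 j
  have F3 := sum_le_card_nsmul _ _ _ fun j (_ : j ∈ univ) => E3 j
  simp only [E2, sum_const] at E0
  rw [card_univ, hc, nsmul_eq_mul] at E0 F3
  simp only [mul_add, mul_one, mul_sum]
  rw [av_add, av_sum]
  have F5 := mul_le_mul_of_nonneg_left E5 (show (0 : ℝ) ≤ r + 3 by positivity)
  push_cast at E0 F3
  nlinarith

end Pool.Agent.GL2
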