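import Pool.Agent.P.MP_dfe42f_co.HfF

/-! Section B of the paper: no dense spot. -/

namespace Pool.Agent.GL2
open Finset Pool.Agent.GLT Function

set_option linter.unusedSectionVars false

variable {α : Type} [Fintype α] [DecidableEq α] {H : SimpleGraph α} {j : ℕ} {c : α}
  {s : Equiv.Perm α}

section
variable {V : Type} [DecidableEq V] {G : SimpleGraph V}

/-- degree inside `W` -/
noncomputable def dg (G : SimpleGraph V) (W : Finset V) (u : V) : ℝ := (nb G W u).card

/-- codegree inside `W` -/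
noncomputable def cg (G : SimpleGraph V) (W : Finset V) (u x : V) : ℝ :=
  (nb G (nb G W u) x).card

/-- weight charged to the centre -/
noncomputable def w1 (G : SimpleGraph V) (W : Finset V) (u x : V) : ℝ :=
  dg G W u - cg G W u x - max (dg G W u - dg G W x) 0

/-- weight charged to a rim vertex -/
noncomputable def w2 (G : SimpleGraph V) (W : Finset V) (u x : V) : ℝ :=
  max (dg G W u - dg G W x) 0

theorem cg_le (W : Finset V) (u x : V) : cg G W u x ≤ dg G W u ∧ cg G W u x ≤ dg G W x := by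
  constructor
  · exact Nat.cast_le.2 (card_le_card (nb_subset _ _))
  · exact Nat.cast_le.2 (card_le_card (nb_mono (nb_subset _ _) _))

theorem w1_nonneg (W : Finset V) (u x : V) : 0 ≤ w1 G W u x := by
  have := cg_le (G := G) W u x
  have h : max (dg G W u - dg G W x) 0 ≤ dg G W u - cg G W u x :=
    max_le (by linarith [this.2]) (by linarith [this.1])
  rw [w1]
  linarith

theorem union_le (W : Finset V) (φ : α → V) [DecidablePred fun v => ∃ i, φ i ∈ nb G W v] :
    ((W.filter fun v => ∃ i, φ i ∈ nb G W v).card : ℝ) ≤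
      (dg G W (φ c) + ∑ i ∈ univ.erase c, w1 G W (φ c) (φ i)) +
        ∑ i ∈ univ.erase c, w2 G W (φ i) (φ c) := by
  have h1 : (W.filter fun v => ∃ i, φ i ∈ nb G W v) ⊆ nb G W (φ c) ∪
      (univ.erase c).biUnion fun i => nb G W (φ i) \ nb G W (φ c) := by
    intro v hv
    obtain ⟨h1, i, h2⟩ := mem_filter.1 hv
    by_cases h : v ∈ nb G W (φ c)
    · exact mem_union_left _ h
    · have h3 : v ∈ nb G W (φ i) := mem_nb.2 ⟨h1, (mem_nb.1 h2).2.symm⟩
      exact mem_union_right _ (mem_biUnion.2 ⟨i, mem_erase.2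
        ⟨fun e => h (e ▸ h3), mem_univ _⟩, mem_sdiff.2 ⟨h3, h⟩⟩)
  have h2 := (card_le_card h1).trans ((card_union_le _ _).trans
    (Nat.add_le_add_left card_biUnion_le _))
  refine (Nat.cast_le.2 h2).trans ?_
  rw [add_assoc, ← sum_add_distrib]
  push_cast
  refine add_le_add le_rfl (sum_le_sum fun i _ => ?_)
  have h3 := card_sdiff_add_card_inter (nb G W (φ i)) (nb G W (φ c))
  rw [show nb G W (φ i) ∩ nb G W (φ c) = nb G (nb G W (φ c)) (φ i) by
    ext x; simp only [mem_inter, mem_nb]; tauto] at h3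
  have h4 : ((nb G W (φ i) \ nb G W (φ c)).card : ℝ) + cg G W (φ c) (φ i) = dg G W (φ i) := by
    rw [cg, dg]
    exact_mod_cast h3
  rw [w1, w2]
  rcases le_total (dg G W (φ c)) (dg G W (φ i)) with h | h
  · rw [max_eq_right (sub_nonpos.2 h), max_eq_left (sub_nonneg.2 h)]
    linarith
  · rw [max_eq_left (sub_nonneg.2 h), max_eq_right (sub_nonpos.2 h)]
    linarith

theorem rim_le (f : Fac H c s) (hc : Fintype.card α = j + 4) (W : Finset V) {i : α} (hi : i ≠ c) :
    ∑ φ ∈ emb H G W, w2 G W (φ i) (φ c) ≤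
      ∑ u ∈ W, ∑ x ∈ nb G W u, w2 G W u x * (cg G W u x ^ 2 * dg G W x ^ j) := by
  have a1 : ∀ φ ∈ emb H G W, ∀ l, l ≠ c → φ l ∈ nb G W (φ c) := fun φ hφ l hl =>
    mem_nb.2 ⟨(mem_emb.1 hφ).1 l, (mem_emb.1 hφ).2.2 _ _ (f.dom l hl)⟩
  rw [← sum_fiberwise_of_maps_to (t := W) (g := fun φ => φ i) fun φ hφ => (mem_emb.1 hφ).1 i]
  refine sum_le_sum fun u _ => ?_
  rw [← sum_fiberwise_of_maps_to (t := nb G W u) (g := fun φ => φ c) fun φ hφ => by
    obtain ⟨h1, h2⟩ := mem_filter.1 hφ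
    exact mem_nb.2 ⟨(mem_emb.1 h1).1 c, h2 ▸ ((mem_emb.1 h1).2.2 _ _ (f.dom i hi)).symm⟩]
  refine sum_le_sum fun x _ => ?_
  rw [sum_congr rfl (g := fun _ => w2 G W u x) fun φ hφ => by
    rw [(mem_filter.1 hφ).2, (mem_filter.1 (mem_filter.1 hφ).1).2], sum_const, nsmul_eq_mul,
    mul_comm]
  refine mul_le_mul_of_nonneg_left ?_ (le_max_right _ _)
  have := ub4 (F := ((emb H G W).filter fun φ => φ i = u).filter fun φ => φ c = x) hc hi.symm
    (f.sc hi).symm (f.pc hi).symm (f.sv hi) (f.pv hi) (f.sp hi) {x} {u} (nb G (nb G W x) u)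
    (nb G (nb G W x) u) (B := nb G W x) (N := dg G W x) le_rfl (fun φ hφ => by
      obtain ⟨h1, h2⟩ := mem_filter.1 hφ
      obtain ⟨h3, h4⟩ := mem_filter.1 h1
      refine ⟨mem_singleton.2 h2, mem_singleton.2 h4, mem_nb.2 ⟨?_, ?_⟩, mem_nb.2 ⟨?_, ?_⟩⟩
      · exact h2 ▸ a1 φ h3 _ (f.sc hi)
      · exact h4 ▸ (mem_emb.1 h3).2.2 _ _ (f.adj i hi)
      · exact h2 ▸ a1 φ h3 _ (f.pc hi)
      · exact h4 ▸ (mem_emb.1 h3).2.2 _ _ (f.adjp hi)) fun φ hφ l hl _ _ _ => by
      obtain ⟨h1, h2⟩ := mem_filter.1 hφ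
      exact h2 ▸ a1 φ (mem_filter.1 h1).1 l hl
  rw [show nb G (nb G W x) u = nb G (nb G W u) x by ext y; simp only [mem_nb]; tauto] at this
  refine this.trans (le_of_eq ?_)
  rw [cg]
  simp [sq]

open Classical in
/-- indicator of non-adjacency -/
noncomputable def bb (G : SimpleGraph V) (x y : V) : ℝ := if G.Adj x y then 0 else 1

theorem sum_bb (X : Finset V) (x : V) : ∑ y ∈ X, bb G x y = ((X \ nb G X x).card : ℝ) := by
  classical
  rw [show X \ nb G X x = X.filter fun y => ¬ G.Adj x y by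
    ext y; simp only [mem_sdiff, mem_nb, mem_filter]; tauto, card_filter]
  push_cast
  exact sum_congr rfl fun y _ => by by_cases h : G.Adj x y <;> simp [bb, h]

theorem load_le (f : Fac H c s) (hc : Fintype.card α = j + 4) (W : Finset V) (u : V) :
    ∑ φ ∈ (emb H G W).filter (fun φ => φ c = u),
        (dg G W (φ c) + ∑ i ∈ univ.erase c, w1 G W (φ c) (φ i)) +
      (j + 3) * ∑ x ∈ nb G W u, w2 G W u x * (cg G W u x ^ 2 * dg G W x ^ j) ≤
      dg G W u ^ (j + 4) *
        (1 - (Mx G (nb G W u) / dg G W u ^ 2) ^ (j + 4) / (32 * 2 ^ (j + 3))) := by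
  have a1 : ∀ φ ∈ (emb H G W).filter (fun φ => φ c = u), ∀ l, l ≠ c → φ l ∈ nb G W u :=
    fun φ hφ l hl => by
      obtain ⟨h1, h2⟩ := mem_filter.1 hφ
      exact mem_nb.2 ⟨(mem_emb.1 h1).1 l, h2 ▸ (mem_emb.1 h1).2.2 _ _ (f.dom l hl)⟩
  have hk : Fintype.card {v // v ≠ c} = j + 3 := by
    rw [Fintype.card_subtype_compl, Fintype.card_subtype_eq, hc]
    rfl
  set X := nb G W u with hX
  rcases X.eq_empty_or_nonempty with h0 | h0
  · obtain ⟨l⟩ : Nonempty {v // v ≠ c} := Fintype.card_pos_iff.1 (by omega)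
    have : (emb H G W).filter (fun φ => φ c = u) = ∅ :=
      eq_empty_of_forall_notMem fun φ hφ => by simpa [h0] using a1 φ hφ l.1 l.2
    have h1 : dg G W u = 0 := by rw [dg, ← hX, h0]; simp
    rw [this, h0, h1]
    simp
  set d := dg G W u with hd
  have d0 : 0 < d := by
    rw [hd, dg]
    exact_mod_cast h0.card_pos
  have dX : (X.card : ℝ) = d := rfl
  let σ : Equiv.Perm {v // v ≠ c} := s.subtypePerm fun v =>
    ⟨fun h e => h (by rw [e, f.fix]), fun h => f.sc h⟩
  have σv : ∀ v, (σ v).1 = s v.1 := fun _ => rfl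
  set m : V → ℝ := fun x => av X (bb G x) with hm
  set g : V → ℝ := fun x => w2 G W u x / d with hg
  have md : ∀ x, d * m x = d - cg G W u x := fun x => by
    have h1 : ((X \ nb G X x).card : ℝ) + (nb G X x).card = X.card := by
      exact_mod_cast card_sdiff_add_card_eq_card (nb_subset X x)
    simp only [hm, av]
    rw [sum_bb, dX, mul_div_cancel₀ _ d0.ne', cg, ← hX]
    linarith
  have gd : ∀ x, d * g x = w2 G W u x := fun x => mul_div_cancel₀ _ d0.ne'
  have wd : ∀ x, d * (m x - g x) = w1 G W u x := fun x => by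
    rw [mul_sub, md, gd, w1, w2]
  have L := load (σ := σ) (fun i h => f.sv i.2 (congrArg Subtype.val h).symm)
    (fun i h => f.two i.1 i.2 (congrArg Subtype.val h)) hk h0 (b := bb G)
    (fun x y => by
      by_cases h : G.Adj x y
      · simp [bb, h, h.symm]
      · simp [bb, h, mt SimpleGraph.Adj.symm (show ¬ G.Adj x y from h)]) (fun x y => by
      by_cases h : G.Adj x y <;> simp [bb, h]) (m := m) (g := g) (fun _ => rfl)
    (fun x hx => by
      simp only [hm, av]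
      rw [sum_bb]
      exact div_pos (Nat.cast_pos.2 (card_pos.2 ⟨x, mem_sdiff.2 ⟨hx, not_mem_nb_self _ _⟩⟩))
        (dX ▸ d0))
    (fun x _ => div_nonneg (le_max_right _ _) d0.le) fun x _ => by
      have := w1_nonneg (G := G) W u x
      rw [← wd] at this
      exact sub_nonneg.1 (nonneg_of_mul_nonneg_right this d0)
  have e1 : av X m = Mx G X / d ^ 2 := by
    simp only [hm, av, sum_bb, Mx]
    rw [← sum_div, dX, div_div, sq]
  rw [e1] at L
  refine le_trans ?_ (mul_le_mul_of_nonneg_left L (pow_nonneg d0.le _))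
  rw [mul_add]
  refine add_le_add ?_ (le_of_eq ?_)
  · rw [av, card_PP, hk, Nat.cast_pow, dX, pow_succ d (j + 3), mul_assoc, ← mul_div_assoc,
      mul_div_cancel₀ _ (pow_pos d0 _).ne', mul_sum]
    set r : (α → V) → ({v // v ≠ c} → V) := fun φ v => φ v.1 with hr
    have inj : Set.InjOn r ((emb H G W).filter (fun φ => φ c = u) : Finset (α → V)) := by
      intro φ hφ ψ hψ h
      funext i
      by_cases hi : i = c
      · rw [hi, (mem_filter.1 (mem_coe.1 hφ)).2, (mem_filter.1 (mem_coe.1 hψ)).2]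
      · exact congrFun h ⟨i, hi⟩
    have key : ∀ y : {v // v ≠ c} → V, d * ((∏ i, (1 - bb G (y i) (y (σ i)))) *
        (1 + ∑ i, (m (y i) - g (y i)))) =
        (∏ i, (1 - bb G (y i) (y (σ i)))) * (d + ∑ i, w1 G W u (y i)) := fun y => by
      rw [mul_left_comm, mul_add, mul_one, mul_sum]
      simp only [wd]
    simp only [key]
    refine le_trans (le_of_eq ?_) (sum_le_sum_of_subset_of_nonneg
      (s := ((emb H G W).filter fun φ => φ c = u).image r) (fun y hy => ?_) fun y _ _ => ?_)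
    · rw [sum_image inj]
      refine sum_congr rfl fun φ hφ => ?_
      obtain ⟨h1, h2⟩ := mem_filter.1 hφ
      rw [prod_eq_one fun i _ => by
        have : G.Adj (r φ i) (r φ (σ i)) := (mem_emb.1 h1).2.2 _ _ (f.adj i.1 i.2)
        simp [bb, this], one_mul, h2,
        sum_subtype (p := fun v => v ≠ c) (univ.erase c) (by simp)]
    · obtain ⟨φ, hφ, rfl⟩ := mem_image.1 hy
      exact mem_PP.2 fun i => a1 φ hφ i.1 i.2
    · exact mul_nonneg (prod_nonneg fun i _ => by
        by_cases h : G.Adj (y i) (y (σ i)) <;> simp [bb, h])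
        (add_nonneg d0.le (sum_nonneg fun i _ => w1_nonneg _ _ _))
  · rw [mul_left_comm, av, dX, pow_succ d (j + 3), mul_assoc, mul_div_cancel₀ _ d0.ne', mul_sum,
      mul_sum, mul_sum]
    refine sum_congr rfl fun x _ => ?_
    congr 1
    have h1 : cg G W u x = d * (1 - m x) := by linarith [md x]
    rcases le_total d (dg G W x) with h | h
    · have h2 : w2 G W u x = 0 := max_eq_right (sub_nonpos.2 h)
      simp [hg, h2]
    · have h2 : w2 G W u x = d - dg G W x := max_eq_left (sub_nonneg.2 h)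
      have h3 : dg G W x = d * (1 - g x) := by linarith [gd x]
      rw [← gd, h1, h3, mul_pow, mul_pow]
      ring

theorem charge (f : Fac H c s) (hc : Fintype.card α = j + 4) (W : Finset V) :
    ∑ v ∈ W, ((hit H G W (nb G W v)).card : ℝ) ≤ ∑ u ∈ W, dg G W u ^ (j + 4) *
      (1 - (Mx G (nb G W u) / dg G W u ^ 2) ^ (j + 4) / (32 * 2 ^ (j + 3))) := by
  classical
  have h1 := dc_eq W (emb H G W) fun v φ => ∃ i, φ i ∈ nb G W v
  have h2 : ∑ v ∈ W, ((hit H G W (nb G W v)).card : ℝ) =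
      ∑ φ ∈ emb H G W, ((W.filter fun v => ∃ i, φ i ∈ nb G W v).card : ℝ) := by
    have e : ∀ v, hit H G W (nb G W v) =
        (emb H G W).filter fun φ => ∃ i, φ i ∈ nb G W v := fun v => by
      ext φ
      simp only [mem_hit, mem_filter]
    simp only [e]
    exact_mod_cast h1
  have h3 : (univ.erase c).card = j + 3 := by
    rw [card_erase_of_mem (mem_univ _), card_univ, hc]; rfl
  have h4 := sum_le_card_nsmul (univ.erase c) _ _ fun i hi =>
    rim_le (G := G) f hc W (ne_of_mem_erase hi)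
  rw [h3, nsmul_eq_mul, mul_sum, sum_comm] at h4
  rw [h2]
  refine (sum_le_sum fun φ _ => union_le (c := c) W φ).trans ?_
  refine le_trans ?_ (sum_le_sum fun u _ => load_le f hc W u)
  rw [sum_add_distrib, sum_add_distrib (s := W), sum_fiberwise_of_maps_to (t := W)
    (g := fun φ : α → V => φ c) fun φ hφ => (mem_emb.1 hφ).1 c]
  push_cast at h4
  linarith

theorem nospot2 (f : Fac H c s) (hc : Fintype.card α = j + 4) {s0 N : ℕ} {e : ℝ} (he : 0 ≤ e)
    (he1 : e ≤ 1) (h1 : (1 - e) * N ≤ s0)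
    (h2 : (1 - e ^ (j + 4) / (32 * 2 ^ (j + 3))) * (N : ℝ) ^ (j + 4) ≤ (s0 : ℝ) ^ (j + 4))
    (hD : ∀ B v, (nb G B v).card ≤ N) (n : ℕ) : ∀ W : Finset V, W.card = n →
    (∀ X ⊆ W, ¬ Spot G N e X) → ((emb H G W).card : ℝ) ≤ Ff (j + 3) s0 N n := by
  induction n using Nat.strong_induction_on with
  | _ n ih =>
  intro W hW hs
  have c2 : ∑ v ∈ W, ((hit H G W (nb G W v)).card : ℝ) ≤
      ∑ v ∈ W, Bf (j + 3) s0 (nb G W v).card := by
    refine (charge f hc W).trans (sum_le_sum fun u _ => ?_)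
    have d0 : 0 ≤ dg G W u := Nat.cast_nonneg _
    have dN : dg G W u ≤ N := Nat.cast_le.2 (hD W u)
    have θ0 : 0 ≤ Mx G (nb G W u) / dg G W u ^ 2 := div_nonneg (Mx_nonneg _) (sq_nonneg _)
    rcases le_or_gt (nb G W u).card s0 with h | h
    · rw [Bf_eq _ _ _ h]
      exact mul_le_of_le_one_right (pow_nonneg d0 _) (sub_le_self _ (by positivity))
    · refine le_trans ?_ (h2.trans (Bf_ge _ _ _ h.le))
      have dp : 0 < dg G W u := Nat.cast_pos.2 (by omega)
      have hM : e * (N : ℝ) ^ 2 < Mx G (nb G W u) := by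
        by_contra hh
        exact hs _ (nb_subset W u) ⟨h1.trans (Nat.cast_le.2 h.le), dN, not_lt.1 hh⟩
      have hθ : e ≤ Mx G (nb G W u) / dg G W u ^ 2 := by
        rw [le_div_iff₀ (by positivity)]
        exact (mul_le_mul_of_nonneg_left (pow_le_pow_left₀ d0 dN 2) he).trans hM.le
      have b1 : e ^ (j + 4) / (32 * 2 ^ (j + 3)) ≤
          (Mx G (nb G W u) / dg G W u ^ 2) ^ (j + 4) / (32 * 2 ^ (j + 3)) :=
        div_le_div_of_nonneg_right (pow_le_pow_left₀ he hθ _) (by positivity)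
      have b2 : e ^ (j + 4) / (32 * 2 ^ (j + 3)) ≤ 1 := by
        rw [div_le_one (by positivity)]
        have : (1 : ℝ) ≤ 2 ^ (j + 3) := one_le_pow₀ one_le_two
        linarith [pow_le_one₀ (n := j + 4) he he1]
      rw [mul_comm (1 - _)]
      exact (mul_le_mul_of_nonneg_left (by linarith) (pow_nonneg d0 _)).trans
        (mul_le_mul_of_nonneg_right (pow_le_pow_left₀ d0 dN _) (sub_nonneg.2 b2))
  have z : ∀ v ∈ W, ¬ (nb G W v).Nonempty → nb G W v = ∅ := fun v _ h =>
    not_nonempty_iff_eq_empty.1 h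
  rw [← sum_filter_of_ne (p := fun v => (nb G W v).Nonempty) fun v hv h => by
      by_contra hh
      exact h (by rw [z v hv hh]; simp [hit]),
    ← sum_filter_of_ne (s := W) (f := fun v => Bf (j + 3) s0 (nb G W v).card)
      (p := fun v => (nb G W v).Nonempty) fun v hv h => by
      by_contra hh
      exact h (by rw [z v hv hh]; simp [Bf])] at c2
  rcases (W.filter fun v => (nb G W v).Nonempty).eq_empty_or_nonempty with h0 | hne
  · obtain ⟨l, hl⟩ := Fintype.exists_ne_of_one_lt_card (by omega) c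
    have : emb H G W = ∅ := eq_empty_of_forall_notMem fun φ hφ => by
      obtain ⟨p1, -, p3⟩ := mem_emb.1 hφ
      have : φ c ∈ W.filter fun v => (nb G W v).Nonempty :=
        mem_filter.2 ⟨p1 c, φ l, mem_nb.2 ⟨p1 l, p3 _ _ (f.dom l hl)⟩⟩
      simp [h0] at this
    rw [this, card_empty, Nat.cast_zero]
    exact sum_nonneg fun _ _ => inc_nonneg _ _ _
  obtain ⟨v, hv, c3⟩ := exists_le_of_sum_le hne c2
  have c0 := (mem_filter.1 hv).2.card_pos
  have c4 := card_sdiff_add_card_eq_card (nb_subset (G := G) W v)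
  have c5 := ih (W \ nb G W v).card (by omega) _ rfl fun X hX => hs X (hX.trans sdiff_subset)
  have c6 := Ff_add (j + 3) s0 N (W \ nb G W v).card _ (hD W v)
  rw [c4, hW] at c6
  rw [emb_split W (nb G W v)]
  push_cast
  linarith

end

theorem lemB (f : Fac H c s) (hc : Fintype.card α = j + 4) {e0 : ℝ} (h0 : 0 < e0) (h1 : e0 ≤ 1) :
    ∃ w0 : ℕ, ∀ w ≥ w0, ∀ m ≥ 1, ∀ (V : Type) [DecidableEq V] (G : SimpleGraph V),
      (∀ B v, (nb G B v).card ≤ (w - 1) * m) → ∀ W : Finset V, w * m ≤ W.card →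
      (∀ X ⊆ W, ¬ Spot G (w * m) e0 X) → ((emb H G W).card : ℝ) ≤ FF H w m W.card := by
  have hj : (0 : ℝ) ≤ j := Nat.cast_nonneg _
  set k : ℝ := e0 ^ (j + 4) / (32 * 2 ^ (j + 3)) with hk
  have k0 : 0 < k := by positivity
  have k1 : k ≤ e0 := by
    rw [hk, div_le_iff₀ (by positivity), pow_succ' e0 (j + 3)]
    have : (1 : ℝ) ≤ 2 ^ (j + 3) := one_le_pow₀ one_le_two
    exact mul_le_mul_of_nonneg_left (by linarith [pow_le_one₀ (n := j + 3) h0.le h1]) h0.le
  set e2 : ℝ := k / (j + 4) with he2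
  have h2 : (j + 4) * e2 = k := mul_div_cancel₀ _ (by positivity)
  have e2p : 0 < e2 := by positivity
  obtain ⟨w0, hw0⟩ := exists_nat_ge (8 * ((j : ℝ) + 4) ^ 2 / e2 ^ 2)
  refine ⟨w0, fun w hw' m hm V _ G hD W hW hs => ?_⟩
  have hw : 8 * ((j : ℝ) + 4) ^ 2 ≤ w * e2 ^ 2 :=
    (div_le_iff₀ (by positivity)).1 (hw0.trans (Nat.cast_le.2 hw'))
  clear_value e2
  have hm' : (1 : ℝ) ≤ m := by exact_mod_cast hm
  have e20 : e2 ≤ e0 := by nlinarith
  have e21 : e2 ≤ 1 := e20.trans h1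
  have hw0 : (0 : ℝ) ≤ w := Nat.cast_nonneg _
  have hwe : 8 * ((j : ℝ) + 4) ^ 2 ≤ w * e2 := by nlinarith [mul_nonneg hw0 e2p.le]
  have hwp : 0 < w := by
    rcases Nat.eq_zero_or_pos w with rfl | h
    · simp at hwe; nlinarith
    · exact h
  rw [FF]
  set N : ℕ := w * m with hN
  have hNr : (N : ℝ) = w * m := by rw [hN]; push_cast; ring
  have hNp : 0 < N := Nat.mul_pos hwp hm
  have hNp' : (0 : ℝ) < N := by exact_mod_cast hNp
  have hNw : (w : ℝ) ≤ N := by rw [hNr]; nlinarith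
  have hNe : 8 * ((j : ℝ) + 4) ^ 2 ≤ N * e2 := by nlinarith
  set s0 : ℕ := ⌈(1 - e2) * N⌉₊ with hs0
  have s1 : (1 - e2) * N ≤ s0 := Nat.le_ceil _
  have s2 : (s0 : ℝ) ≤ (1 - e2 / 2) * N := by
    have := Nat.ceil_lt_add_one (show 0 ≤ (1 - e2) * N by nlinarith)
    nlinarith
  have p3 : (0 : ℝ) < (N : ℝ) ^ (j + 3) := by positivity
  have s3 : (1 - k) * (N : ℝ) ^ (j + 4) ≤ (s0 : ℝ) ^ (j + 4) := by
    have a1 : ((1 - e2) * N) ^ (j + 4) ≤ (s0 : ℝ) ^ (j + 4) :=
      pow_le_pow_left₀ (by nlinarith) s1 _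
    have a2 := one_add_mul_le_pow (a := -e2) (by linarith) (j + 4)
    have a3 := mul_le_mul_of_nonneg_right a2 (pow_nonneg hNp'.le (j + 4))
    rw [mul_pow] at a1
    rw [← h2]
    rw [← sub_eq_add_neg] at a3
    push_cast at a3
    linarith
  have c1 := nospot2 (G := G) (N := N) f hc h0.le h1
    ((mul_le_mul_of_nonneg_right (by linarith) hNp'.le).trans s1) s3 (fun B v =>
    (hD B v).trans (Nat.mul_le_mul_right _ (Nat.sub_le _ _))) _ W rfl (by rw [hNr]; exact hs)
  clear_value k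
  have hb := Nat.mod_lt W.card hNp
  have c2 := Ff_eq (j + 3) s0 N (W.card / N) _ hb.le
  rw [Nat.div_add_mod] at c2
  have c3 := Bf_N (k := j + 2) (by linarith : 0 ≤ e2 / 2) hNp s2
  have c4 := Bf_le (j + 3) s0 (W.card % N)
  have c5 := gg_ge (H := H) (j := j + 3) hc hwp (le_refl N) (le_refl (N : ℝ))
  have c6 := gg_ge (H := H) (j := j + 3) hc hwp hb.le (N := N) (Nat.cast_le.2 hb.le)
  have ha : (1 : ℝ) ≤ (W.card / N : ℕ) := by exact_mod_cast Nat.div_pos hW hNp
  have c7 : 2 * ((((j + 3 : ℕ) : ℝ) + 1) ^ 2 * m * (N : ℝ) ^ (j + 3)) ≤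
      (e2 / 2) ^ 2 * (N : ℝ) ^ (j + 3 + 1) := by
    have : 8 * ((j : ℝ) + 4) ^ 2 * m ≤ e2 ^ 2 * N := by
      rw [hNr]
      linarith [mul_le_mul_of_nonneg_right hw (zero_le_one.trans hm')]
    have := mul_le_mul_of_nonneg_right this p3.le
    rw [pow_succ (N : ℝ) (j + 3)]
    push_cast
    linarith
  have c8 : (0 : ℝ) ≤ (((j + 3 : ℕ) : ℝ) + 1) ^ 2 * m * (N : ℝ) ^ (j + 3) := by positivity
  have c9 : Bf (j + 3) s0 N + (((j + 3 : ℕ) : ℝ) + 1) ^ 2 * m * (N : ℝ) ^ (j + 3) ≤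
      gg H w N := by
    change Bf (j + 3) s0 N ≤ (1 - (e2 / 2) ^ 2) * (N : ℝ) ^ (j + 3 + 1) at c3
    linarith
  have c10 := mul_le_mul_of_nonneg_left c9 (zero_le_one.trans ha)
  have c11 := mul_le_mul_of_nonneg_right ha c8
  linarith

end Pool.Agent.GL2
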