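import Pool.Agent.P.MP_dfe42f_co.HfE

/-! Parameters, clusters and vertices in many copies. -/

namespace Pool.Agent.GL2
open Finset Pool.Agent.GLT Function

set_option linter.unusedSectionVars false

/-- the numerical setting -/
structure Pr (j w m : ℕ) (N δ e η τ η0 : ℝ) : Prop where
  hN : N = w * m
  m1 : 1 ≤ m
  d0 : 0 < δ
  d1 : ((j : ℝ) + 4) ^ 2 * δ ≤ 1 / 1000
  e0 : 0 < e
  e1 : 10000 * ((j : ℝ) + 4) ^ 2 * e ≤ δ ^ 4
  hη : δ * η = 3 * (j + 4) * e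
  hτ : δ * τ = 12 * η
  h0 : 20 * (j + 4) * η0 = e
  w1 : 100 * ((j : ℝ) + 4) ^ 2 ≤ w * e
  w2 : 300 * (j + 4) ^ 4 ≤ w

namespace Pr
variable {j w m : ℕ} {N δ e η τ η0 : ℝ} (p : Pr j w m N δ e η τ η0)
include p

theorem td : ((j : ℝ) + 4) * δ ≤ 1 / 4000 := by
  have := p.d1
  have hj : (0 : ℝ) ≤ j := Nat.cast_nonneg _
  nlinarith [mul_nonneg hj p.d0.le, mul_nonneg hj (mul_nonneg hj p.d0.le), p.d0]

theorem d3 : δ ≤ 1 / 16000 := by
  have := p.td
  have hj : (0 : ℝ) ≤ j := Nat.cast_nonneg _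
  nlinarith [mul_nonneg hj p.d0.le]

theorem te : 40000 * (((j : ℝ) + 4) * e) ≤ δ ^ 4 := by
  have := p.e1
  have hj : (0 : ℝ) ≤ j := Nat.cast_nonneg _
  nlinarith [mul_nonneg hj p.e0.le, mul_nonneg hj (mul_nonneg hj p.e0.le), p.e0]

theorem ed : 4 * (((j : ℝ) + 4) * e) ≤ δ ^ 2 := by
  have h1 := p.te
  have h2 : δ ^ 2 ≤ 1 := by have := p.d3; have := p.d0; nlinarith
  have h3 : 0 ≤ ((j : ℝ) + 4) * e := by have := p.e0; positivity
  nlinarith [sq_nonneg δ]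

theorem n0 : 0 < η := by
  have h : 0 < δ * η := by rw [p.hη]; have := p.e0; positivity
  exact (mul_pos_iff_of_pos_left p.d0).1 h

theorem t0 : 0 < τ := by
  have h : 0 < δ * τ := by rw [p.hτ]; have := p.n0; positivity
  exact (mul_pos_iff_of_pos_left p.d0).1 h

theorem z0 : 0 < η0 := by
  have h : 0 < 20 * ((j : ℝ) + 4) * η0 := by rw [p.h0]; exact p.e0
  exact (mul_pos_iff_of_pos_left (by positivity)).1 h

theorem tn : 3000 * (((j : ℝ) + 4) * η) ≤ δ ^ 3 := by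
  refine le_of_mul_le_mul_left ?_ p.d0
  have h1 : δ * (((j : ℝ) + 4) * η) = 3 * (((j : ℝ) + 4) ^ 2 * e) := by
    linear_combination ((j : ℝ) + 4) * p.hη
  have := p.e1
  have : 0 ≤ ((j : ℝ) + 4) ^ 2 * e := by have := p.e0; positivity
  nlinarith

theorem tn1 : 1000 * (((j : ℝ) + 4) * η) ≤ δ := by
  have h1 := p.tn
  have h2 : δ ^ 2 ≤ 1 := by have := p.d3; have := p.d0; nlinarith
  have h3 : 0 ≤ ((j : ℝ) + 4) * η := by have := p.n0; positivity
  nlinarith [p.d0]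

theorem nd : 4000 * η ≤ δ := by
  have := p.tn1
  have hj : (0 : ℝ) ≤ j := Nat.cast_nonneg _
  nlinarith [mul_nonneg hj p.n0.le]

theorem en : ((j : ℝ) + 4) * e ≤ η := by
  have h1 := p.hη
  have h3 : 0 ≤ ((j : ℝ) + 4) * e := by have := p.e0; positivity
  nlinarith [mul_le_mul_of_nonneg_right p.d3 p.n0.le, p.n0]

theorem en1 : 4 * e ≤ η := by
  have := p.en
  have hj : (0 : ℝ) ≤ j := Nat.cast_nonneg _
  nlinarith [mul_nonneg hj p.e0.le]

theorem tt : τ ^ 2 ≤ 0.13 * e := by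
  have h1 : δ ^ 2 * τ = 36 * (((j : ℝ) + 4) * e) := by
    linear_combination δ * p.hτ + 12 * p.hη
  have h2 : δ ^ 4 * τ ^ 2 = 1296 * (((j : ℝ) + 4) ^ 2 * e) * e := by
    rw [show δ ^ 4 * τ ^ 2 = (δ ^ 2 * τ) ^ 2 by ring, h1]; ring
  have h3 := mul_le_mul_of_nonneg_right p.e1 p.e0.le
  have h4 : 0 < δ ^ 4 := pow_pos p.d0 4
  refine le_of_mul_le_mul_left ?_ h4
  nlinarith [mul_pos h4 p.e0]

theorem nn : 1000 * η ^ 2 ≤ e := by
  have h2 : δ ^ 2 * η ^ 2 = 9 * (((j : ℝ) + 4) ^ 2 * e) * e := by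
    rw [show δ ^ 2 * η ^ 2 = (δ * η) ^ 2 by ring, p.hη]; ring
  have h3 := mul_le_mul_of_nonneg_right p.e1 p.e0.le
  have h4 : 0 < δ ^ 2 := pow_pos p.d0 2
  have h5 : δ ^ 2 ≤ 1 := by have := p.d3; have := p.d0; nlinarith
  refine le_of_mul_le_mul_left ?_ h4
  nlinarith [mul_le_mul_of_nonneg_right h5 (mul_pos h4 p.e0).le, mul_pos h4 p.e0]

theorem ze : 80 * η0 ≤ e := by
  have := p.h0
  have hj : (0 : ℝ) ≤ j := Nat.cast_nonneg _
  nlinarith [mul_nonneg hj p.z0.le]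

theorem zn : η0 ≤ η := by linarith [p.ze, p.en1, p.z0]

theorem t1 : τ ≤ 1 / 100 := by
  have := p.tt
  have := p.en1
  have := p.nd
  have := p.d3
  nlinarith [p.t0]

theorem m0 : (1 : ℝ) ≤ m := by exact_mod_cast p.m1

theorem tm : 100 * (((j : ℝ) + 4) ^ 2 * m) ≤ e * N := by
  rw [p.hN]
  nlinarith [mul_le_mul_of_nonneg_right p.w1 (zero_le_one.trans p.m0)]

theorem tm1 : 400 * (((j : ℝ) + 4) * m) ≤ e * N := by
  have := p.tm
  have hj : (0 : ℝ) ≤ j := Nat.cast_nonneg _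
  have := p.m0
  nlinarith [mul_nonneg hj (zero_le_one.trans p.m0),
    mul_nonneg hj (mul_nonneg hj (zero_le_one.trans p.m0))]

theorem eN : 1600 * (m : ℝ) ≤ e * N := by
  have := p.tm1
  have hj : (0 : ℝ) ≤ j := Nat.cast_nonneg _
  nlinarith [mul_nonneg hj (zero_le_one.trans p.m0)]

theorem N0 : 0 < N := (mul_pos_iff_of_pos_left p.e0).1 (by linarith [p.eN, p.m0])

theorem es : e ≤ 1 / 1000 := by linarith [p.en1, p.nd, p.d3, p.e0]

theorem N1 : 1000 * (m : ℝ) ≤ N := by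
  have := mul_le_mul_of_nonneg_right p.es p.N0.le
  linarith [p.eN, p.m0]

theorem w3 : 2 ≤ w := le_trans (by nlinarith [Nat.one_le_pow 4 (j + 4) (by omega)]) p.w2

theorem wp : 0 < w := by have := p.w3; omega

theorem Nc : ((w * m : ℕ) : ℝ) = N := by rw [p.hN]; push_cast; ring

end Pr

variable {α V : Type} [Fintype α] [DecidableEq α] [DecidableEq V]

/-- a cluster inside `W` -/
structure Cl (G : SimpleGraph V) (N δ η : ℝ) (W Y : Finset V) : Prop where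
  sub : Y ⊆ W
  lo : (1 - η) * N ≤ Y.card
  up : (Y.card : ℝ) ≤ (1 + η) * N
  inn : ∀ y ∈ Y, (1 - 2 * δ) * N ≤ (nb G Y y).card
  out : ∀ z ∈ W \ Y, ((nb G Y z).card : ℝ) ≤ (1 - δ / 2) * N
  few : ∑ y ∈ Y, ((nb G (W \ Y) y).card : ℝ) ≤ 2 * η * N ^ 2

variable {H : SimpleGraph α} {G : SimpleGraph V} {j : ℕ} {c : α} {s : Equiv.Perm α}
  {N δ : ℝ} {W X Y : Finset V}

theorem Cl.mono {η1 η2 : ℝ} (k : Cl G N δ η1 W Y) (hN : 0 ≤ N) (h : η1 ≤ η2) :
    Cl G N δ η2 W Y :=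
  ⟨k.sub, le_trans (mul_le_mul_of_nonneg_right (by linarith) hN) k.lo,
    k.up.trans (mul_le_mul_of_nonneg_right (by linarith) hN), k.inn, k.out,
    k.few.trans (mul_le_mul_of_nonneg_right (by linarith) (sq_nonneg _))⟩

theorem nb_le_add (A B : Finset V) (u : V) :
    ((nb G A u).card : ℝ) ≤ (nb G B u).card + (A \ B).card := by
  have : nb G A u ⊆ nb G B u ∪ A \ B := by
    intro z hz
    simp only [mem_nb, mem_union, mem_sdiff] at hz ⊢
    tauto
  exact_mod_cast (card_le_card this).trans (card_union_le _ _)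

theorem spot_cl (hD : ∀ B v, ((nb G B v).card : ℝ) ≤ N) (hN : 0 < N) (hd : 0 < δ) (hd3 : δ ≤ 1 / 2)
    (hX : X ⊆ W) {ε η' : ℝ} (h0 : 0 ≤ ε) (h1 : 4 * ε ≤ δ ^ 2) (h2 : 3 * ε ≤ δ * η')
    (hs : Spot G N ε X) :
    ∃ Y, Cl G N δ η' W Y ∧ ∀ y ∈ W, y ∈ Y ↔ (1 - δ) * N ≤ (nb G X y).card := by
  classical
  obtain ⟨s1, s2, s3⟩ := hs
  set Y := W.filter fun u => (1 - δ) * N ≤ (nb G X u).card with hY
  have hεδ : 4 * ε ≤ δ := by nlinarith
  have η0 : 0 ≤ η' := (mul_nonneg_iff_of_pos_left hd).1 (by linarith)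
  have hεη : 3 * ε ≤ η' := by nlinarith
  have a1 : δ * ((X \ Y).card : ℝ) ≤ 2 * ε * N := by
    have b1 : ∑ x ∈ X \ Y, δ * N / 2 ≤ Mx G X := by
      refine sum_sdiff_le (fun x hx => ?_) fun _ _ => Nat.cast_nonneg _
      obtain ⟨x1, x2⟩ := mem_sdiff.1 hx
      have : ((nb G X x).card : ℝ) < (1 - δ) * N :=
        not_le.1 fun h => x2 (mem_filter.2 ⟨hX x1, h⟩)
      have := card_nn (G := G) X x
      nlinarith
    rw [sum_const, nsmul_eq_mul] at b1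
    refine le_of_mul_le_mul_right ?_ hN
    nlinarith
  have a2 : δ * ((Y \ X).card : ℝ) ≤ 2 * ε * N := by
    have b1 : ∑ u ∈ Y \ X, δ * N ≤ ∑ u ∈ Y \ X, ((nb G X u).card : ℝ) * 1 := by
      refine sum_le_sum fun u hu => ?_
      have := (mem_filter.1 (mem_sdiff.1 hu).1).2
      nlinarith
    rw [← nb_symm, sum_const, nsmul_eq_mul] at b1
    have b2 : ∑ b ∈ X, ∑ _c ∈ nb G (Y \ X) b, (1 : ℝ) ≤
        ∑ b ∈ X, (ε * N + ((X \ nb G X b).card : ℝ)) := by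
      refine sum_le_sum fun b _ => ?_
      have c1 := hD (X ∪ Y \ X) b
      have c2 : nb G (X ∪ Y \ X) b = nb G X b ∪ nb G (Y \ X) b := by
        ext u
        simp only [mem_nb, mem_union]
        tauto
      rw [c2, card_union_of_disjoint (disjoint_sdiff.mono (nb_subset _ _) (nb_subset _ _))] at c1
      have := card_nn (G := G) X b
      push_cast at c1
      simp only [sum_const, nsmul_eq_mul, mul_one]
      linarith
    rw [sum_add_distrib, sum_const, nsmul_eq_mul] at b2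
    change _ ≤ _ + Mx G X at b2
    have := mul_le_mul_of_nonneg_right s2 (mul_nonneg h0 hN.le)
    refine le_of_mul_le_mul_right ?_ hN
    nlinarith
  have a3 : ((X \ Y).card : ℝ) ≤ δ / 2 * N := le_of_mul_le_mul_left (by nlinarith) hd
  have a4 : ((Y \ X).card : ℝ) ≤ δ / 2 * N := le_of_mul_le_mul_left (by nlinarith) hd
  have a5 : ((X \ Y).card : ℝ) ≤ 2 / 3 * η' * N := le_of_mul_le_mul_left (by nlinarith) hd
  have a6 : ((Y \ X).card : ℝ) ≤ 2 / 3 * η' * N := le_of_mul_le_mul_left (by nlinarith) hd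
  have a7 := mul_le_mul_of_nonneg_right hεη hN.le
  have a8 := mul_nonneg η0 hN.le
  refine ⟨Y, ⟨filter_subset _ _, ?_, ?_, fun y hy => ?_, fun z hz => ?_, ?_⟩,
    fun y hy => by simp [hY, hy]⟩
  · have b1 : (X.card : ℝ) ≤ (X \ Y).card + Y.card := by exact_mod_cast card_le_card_sdiff_add_card
    linarith
  · have b1 : (Y.card : ℝ) ≤ (Y \ X).card + X.card := by exact_mod_cast card_le_card_sdiff_add_card
    linarith
  · have := (mem_filter.1 hy).2
    have := nb_le_add (G := G) X Y y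
    nlinarith
  · obtain ⟨z1, z2⟩ := mem_sdiff.1 hz
    have : ((nb G X z).card : ℝ) < (1 - δ) * N := not_le.1 fun h => z2 (mem_filter.2 ⟨z1, h⟩)
    have := nb_le_add (G := G) Y X z
    linarith
  · have b1 : ∑ y ∈ Y \ X, ((nb G (W \ Y) y).card : ℝ) ≤ (Y \ X).card * N := by
      simpa using sum_le_card_nsmul _ _ _ fun y (_ : y ∈ Y \ X) => hD (W \ Y) y
    have b2 : ∑ y ∈ Y ∩ X, ((nb G (W \ Y) y).card : ℝ) ≤
        ∑ y ∈ X, ((ε * N + 2 / 3 * η' * N) + ((X \ nb G X y).card : ℝ)) := by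
      refine (sum_le_sum fun y _ => ?_).trans (sum_le_sum_of_subset_of_nonneg inter_subset_right
        fun y _ _ => by positivity)
      have := nb_split (G := G) (show Y ⊆ W from filter_subset _ _) y
      have := hD W y
      have := nb_le_add (G := G) X Y y
      have := card_nn (G := G) X y
      linarith
    rw [sum_add_distrib, sum_const, nsmul_eq_mul] at b2
    change _ ≤ _ + Mx G X at b2
    have b3 := mul_le_mul_of_nonneg_right s2 (show 0 ≤ ε * N + 2 / 3 * η' * N by positivity)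
    have b4 := mul_le_mul_of_nonneg_right a6 hN.le
    have b5 := mul_le_mul_of_nonneg_right a7 hN.le
    rw [← sum_inter_add_sum_sdiff Y X]
    nlinarith

theorem emb_c (f : Fac H c s) {φ : α → V} (hφ : φ ∈ emb H G W) {i : α} (hi : i ≠ c) :
    φ i ∈ nb G W (φ c) :=
  mem_nb.2 ⟨(mem_emb.1 hφ).1 i, (mem_emb.1 hφ).2.2 _ _ (f.dom i hi)⟩

theorem Fac.ex (hc : Fintype.card α = j + 4) (c : α) : ∃ v, v ≠ c := by
  have : Nontrivial α := Fintype.one_lt_card_iff_nontrivial.1 (by omega)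
  exact exists_ne c

/-- the centre and three other positions are prescribed -/
theorem cnt4 (f : Fac H c s) (hc : Fintype.card α = j + 4)
    (hD : ∀ B v, ((nb G B v).card : ℝ) ≤ N) {F : Finset (α → V)} (hF : F ⊆ emb H G W) {v : α}
    (hv : v ≠ c) (x : V) (A1 A2 A3 : Finset V)
    (h : ∀ φ ∈ F, φ c = x ∧ φ v ∈ A1 ∧ φ (s v) ∈ A2 ∧ φ (s.symm v) ∈ A3) :
    (F.card : ℝ) ≤ A1.card * A2.card * A3.card * N ^ j := by
  simpa using ub4 (F := F) hc hv.symm (f.sc hv).symm (f.pc hv).symm (f.sv hv) (f.pv hv) (f.sp hv)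
    {x} A1 A2 A3 (hD W x) (fun φ hφ => by simpa using h φ hφ)
    fun φ hφ i hi _ _ _ => (h φ hφ).1 ▸ emb_c f (hF hφ) hi

theorem cnt_ca (f : Fac H c s) (hc : Fintype.card α = j + 4)
    (hD : ∀ B v, ((nb G B v).card : ℝ) ≤ N) {F : Finset (α → V)} (hF : F ⊆ emb H G W) {v : α}
    (hv : v ≠ c) (z : V) (A : Finset V)
    (h : ∀ φ ∈ F, φ v = z ∧ φ c ∈ A ∧ φ (s v) ∈ A ∧ φ (s.symm v) ∈ A) :
    (F.card : ℝ) ≤ ((nb G A z).card : ℝ) ^ 3 * N ^ j := by
  have k : ∀ φ ∈ F, φ c ∈ nb G A z ∧ φ (s v) ∈ nb G A z ∧ φ (s.symm v) ∈ nb G A z := by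
    intro φ hφ
    obtain ⟨h1, h2, h3, h4⟩ := h φ hφ
    have a := (mem_emb.1 (hF hφ)).2.2
    exact ⟨mem_nb.2 ⟨h2, h1 ▸ a _ _ (f.dom v hv).symm⟩, mem_nb.2 ⟨h3, h1 ▸ a _ _ (f.adj v hv)⟩,
      mem_nb.2 ⟨h4, h1 ▸ a _ _ (f.adjp hv)⟩⟩
  have := cover (T := nb G A z) (U := F) (fun x φ => φ c = x)
    (fun _ => (nb G A z).card * (nb G A z).card * N ^ j) (fun φ hφ => ⟨_, (k φ hφ).1, rfl⟩)
    fun x _ => by
      simpa using cnt4 f hc hD ((filter_subset (fun φ => φ c = x) F).trans hF) hv x {z}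
        (nb G A z) (nb G A z) fun φ hφ => ⟨(mem_filter.1 hφ).2,
          mem_singleton.2 (h φ (mem_filter.1 hφ).1).1, (k φ (mem_filter.1 hφ).1).2⟩
  rw [sum_const, nsmul_eq_mul] at this
  linarith

theorem cnt_cb (f : Fac H c s) (hc : Fintype.card α = j + 4)
    (hD : ∀ B v, ((nb G B v).card : ℝ) ≤ N) {F : Finset (α → V)} (hF : F ⊆ emb H G W) {v : α}
    (hv : v ≠ c) (z : V) (A : Finset V)
    (h : ∀ φ ∈ F, φ c = z ∧ φ v ∈ A ∧ φ (s v) ∈ A ∧ φ (s.symm v) ∈ A) :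
    (F.card : ℝ) ≤ ((nb G A z).card : ℝ) ^ 3 * N ^ j := by
  have := cnt4 f hc hD hF hv z (nb G A z) (nb G A z) (nb G A z) fun φ hφ => by
    obtain ⟨h1, h2, h3, h4⟩ := h φ hφ
    have a := (mem_emb.1 (hF hφ)).2.2
    exact ⟨h1, mem_nb.2 ⟨h2, h1 ▸ a _ _ (f.dom v hv)⟩,
      mem_nb.2 ⟨h3, h1 ▸ a _ _ (f.dom _ (f.sc hv))⟩, mem_nb.2 ⟨h4, h1 ▸ a _ _ (f.dom _ (f.pc hv))⟩⟩
  linarith

theorem high_spot (f : Fac H c s) (hc : Fintype.card α = j + 4)
    (hD : ∀ B v, ((nb G B v).card : ℝ) ≤ N) (hN : 0 < N) {e : ℝ} {z : V}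
    (hq : (1 - e) * ((j + 4) * N ^ (j + 3)) < (hit H G W {z}).card) :
    Spot G N ((j + 4) * e) (nb G W z) := by
  classical
  set X := nb G W z with hX
  set F := (emb H G W).filter fun φ => φ c = z with hF
  obtain ⟨v, hv⟩ := Fac.ex hc c
  have X0 : (0 : ℝ) ≤ X.card := Nat.cast_nonneg _
  have XN : (X.card : ℝ) ≤ N := hD W z
  have P0 : 0 < N ^ j := pow_pos hN _
  have h1 := cover (T := univ) (U := hit H G W {z}) (fun v φ => φ v = z)
    (fun v => if v = c then (F.card : ℝ) else N ^ (j + 3))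
    (fun φ hφ => by simpa using (mem_hit.1 hφ).2) fun v _ => by
      have hs : (hit H G W {z}).filter (fun φ => φ v = z) ⊆ emb H G W := fun φ hφ =>
        (mem_hit.1 (mem_filter.1 hφ).1).1
      split_ifs with h
      · exact Nat.cast_le.2 (card_le_card fun φ hφ =>
          mem_filter.2 ⟨hs hφ, h ▸ (mem_filter.1 hφ).2⟩)
      · refine (cnt_ca f hc hD hs h z W fun φ hφ => ⟨(mem_filter.1 hφ).2, ?_⟩).trans ?_
        · have := (mem_emb.1 (hs hφ)).1
          exact ⟨this _, this _, this _⟩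
        · rw [pow_add, mul_comm]
          exact mul_le_mul_of_nonneg_left (pow_le_pow_left₀ X0 XN 3) P0.le
  rw [← add_sum_erase _ _ (mem_univ c), if_pos rfl, sum_congr rfl fun v hv =>
    if_neg (ne_of_mem_erase hv), sum_const, card_erase_of_mem (mem_univ _), card_univ, hc,
    nsmul_eq_mul] at h1
  have h2 : (1 - (j + 4) * e) * N ^ (j + 3) < F.card := by
    have : ((j + 4 - 1 : ℕ) : ℝ) = j + 3 := by simp
    rw [this] at h1
    linarith
  have h3 := cover (T := X) (U := F) (fun x φ => φ v = x)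
    (fun x => (nb G X x).card * N * N ^ j)
    (fun φ hφ => ⟨_, hX ▸ (mem_filter.1 hφ).2 ▸ emb_c f (mem_filter.1 hφ).1 hv, rfl⟩) fun x _ => by
      have := cnt4 f hc hD ((filter_subset (fun φ => φ v = x) F).trans (filter_subset _ _)) hv z
        {x} (nb G X x) X fun φ hφ => by
          obtain ⟨a, b⟩ := mem_filter.1 hφ
          obtain ⟨a1, a2⟩ := mem_filter.1 a
          exact ⟨a2, mem_singleton.2 b, mem_nb.2 ⟨hX ▸ a2 ▸ emb_c f a1 (f.sc hv),
            b ▸ (mem_emb.1 a1).2.2 _ _ (f.adj v hv)⟩, hX ▸ a2 ▸ emb_c f a1 (f.pc hv)⟩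
      rw [card_singleton, Nat.cast_one, one_mul] at this
      refine this.trans ?_
      gcongr
  have h4 : ∑ x ∈ X, ((nb G X x).card : ℝ) = (X.card : ℝ) ^ 2 - Mx G X := by
    rw [Mx, eq_sub_iff_add_eq, ← sum_add_distrib,
      sum_congr rfl fun x _ => (add_comm _ _).trans (card_nn (G := G) X x)]
    simp [sq]
  rw [← sum_mul, ← sum_mul, h4] at h3
  have h5 : (1 - (j + 4) * e) * N ^ 2 < (X.card : ℝ) ^ 2 - Mx G X := by
    refine lt_of_mul_lt_mul_right (a := N * N ^ j) ?_ (by positivity)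
    rw [show N ^ (j + 3) = N ^ 2 * (N * N ^ j) by ring] at h2
    linarith
  have h6 := Mx_nonneg (G := G) X
  have h7 := mul_le_mul_of_nonneg_left XN X0
  have h8 := mul_le_mul_of_nonneg_left XN hN.le
  exact ⟨le_of_mul_le_mul_right (by nlinarith) hN, XN, by nlinarith⟩

variable {w m : ℕ} {e η τ η0 : ℝ}

theorem high_out (p : Pr j w m N δ e η τ η0) (k : Cl G N δ η W Y) {z : V} (hz : z ∈ W \ Y)
    (hs : Spot G N ((j + 4) * e) (nb G W z)) : ((nb G Y z).card : ℝ) ≤ τ * N := by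
  obtain ⟨s1, -, s3⟩ := hs
  have hN := p.N0
  have a1 := nb_split (G := G) k.sub z
  have a2 := k.out z hz
  have a3 : δ / 4 * N ≤ (nb G (W \ Y) z).card := by
    have : 4 * ((j + 4) * e) ≤ δ := by nlinarith [p.ed, p.d3, p.d0]
    nlinarith
  have a4 : ∑ y ∈ nb G Y z, ((nb G (W \ Y) z).card : ℝ) ≤ ∑ y ∈ nb G Y z,
      (((nb G W z \ nb G (nb G W z) y).card : ℝ) + (nb G (W \ Y) y).card) := by
    refine sum_le_sum fun y _ => ?_
    have : nb G (W \ Y) z ⊆ (nb G W z \ nb G (nb G W z) y) ∪ nb G (W \ Y) y := by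
      intro u hu
      simp only [mem_nb, mem_union, mem_sdiff] at hu ⊢
      tauto
    exact_mod_cast (card_le_card this).trans (card_union_le _ _)
  rw [sum_const, nsmul_eq_mul, sum_add_distrib] at a4
  have a5 : ∑ y ∈ nb G Y z, ((nb G W z \ nb G (nb G W z) y).card : ℝ) ≤ Mx G (nb G W z) :=
    sum_le_sum_of_subset_of_nonneg (nb_mono k.sub z) fun _ _ _ => Nat.cast_nonneg _
  have a6 : ∑ y ∈ nb G Y z, ((nb G (W \ Y) y).card : ℝ) ≤ 2 * η * N ^ 2 :=
    (sum_le_sum_of_subset_of_nonneg (nb_subset _ _) fun _ _ _ => Nat.cast_nonneg _).trans k.few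
  have a7 := mul_le_mul_of_nonneg_left a3 (Nat.cast_nonneg (α := ℝ) (nb G Y z).card)
  have a8 := mul_le_mul_of_nonneg_right p.en (sq_nonneg N)
  refine le_of_mul_le_mul_right (a := δ / 4 * N) ?_ (by have := p.d0; positivity)
  have : τ * N * (δ / 4 * N) = 3 * η * N ^ 2 := by linear_combination N ^ 2 / 4 * p.hτ
  linarith

theorem cl_disj (p : Pr j w m N δ e η τ η0) (hD : ∀ B v, ((nb G B v).card : ℝ) ≤ N)
    (k : Cl G N δ η W Y) {v : V} (hv : ((nb G Y v).card : ℝ) ≤ τ * N) {Y' : Finset V}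
    (h' : ∀ y ∈ Y', (1 - δ) * N ≤ (nb G (nb G W v) y).card) : Disjoint Y' Y := by
  rw [disjoint_left]
  intro u u1 u2
  have a1 := h' u u1
  have a2 := k.inn u u2
  have a3 : ((nb G Y u ∪ nb G (nb G W v) u).card : ℝ) ≤ N := by
    refine le_trans (Nat.cast_le.2 (card_le_card ?_)) (hD (Y ∪ nb G W v) u)
    exact union_subset (nb_mono subset_union_left _) (nb_mono subset_union_right _)
  have a4 : ((nb G Y u ∩ nb G (nb G W v) u).card : ℝ) ≤ (nb G Y v).card := by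
    refine Nat.cast_le.2 (card_le_card fun z hz => ?_)
    simp only [mem_inter, mem_nb] at hz ⊢
    tauto
  have a5 : ((nb G Y u ∪ nb G (nb G W v) u).card : ℝ) + (nb G Y u ∩ nb G (nb G W v) u).card =
      (nb G Y u).card + (nb G (nb G W v) u).card := by
    exact_mod_cast card_union_add_card_inter _ _
  have a6 := mul_le_mul_of_nonneg_right p.t1 p.N0.le
  have a7 := mul_le_mul_of_nonneg_right p.d3 p.N0.le
  have := p.N0
  linarith

/-- a maximal family of disjoint clusters covers all vertices in many copies -/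
theorem family (f : Fac H c s) (hc : Fintype.card α = j + 4) (p : Pr j w m N δ e η τ η0)
    (hD : ∀ B v, ((nb G B v).card : ℝ) ≤ N) (k : Cl G N δ η W Y) :
    ∃ 𝒴 : Finset (Finset V), Y ∈ 𝒴 ∧ (∀ A ∈ 𝒴, Cl G N δ η W A) ∧
      (∀ A ∈ 𝒴, ∀ B ∈ 𝒴, A ≠ B → Disjoint A B) ∧ ∀ z ∈ W, (∀ A ∈ 𝒴, z ∉ A) →
        ((hit H G W {z}).card : ℝ) ≤ (1 - e) * ((j + 4) * N ^ (j + 3)) := by
  classical
  obtain ⟨𝒴, h1, h2⟩ := exists_max_image (W.powerset.powerset.filter fun 𝒴 =>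
    Y ∈ 𝒴 ∧ (∀ A ∈ 𝒴, Cl G N δ η W A) ∧ ∀ A ∈ 𝒴, ∀ B ∈ 𝒴, A ≠ B → Disjoint A B) card
    ⟨{Y}, mem_filter.2 ⟨by simpa using k.sub, by simpa using k⟩⟩
  obtain ⟨a0, a1, a2, a3⟩ := mem_filter.1 h1
  refine ⟨𝒴, a1, a2, a3, fun z hz hz' => not_lt.1 fun hq => ?_⟩
  have hs := high_spot f hc hD p.N0 hq
  obtain ⟨Y', k', b⟩ := spot_cl hD p.N0 p.d0 (by linarith [p.d3]) (nb_subset W z) (η' := η)
    (by have := p.e0; positivity) p.ed (by linarith [p.hη]) hs
  have b1 : z ∈ Y' := (b z hz).2 (by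
    have e1 : nb G (nb G W z) z = nb G W z := by ext u; simp
    have : 4 * ((j + 4) * e) ≤ δ := by nlinarith [p.ed, p.d3, p.d0]
    have := hs.1
    rw [e1]
    nlinarith [p.N0, p.d0])
  have b2 : ∀ A ∈ 𝒴, Disjoint Y' A := fun A hA => cl_disj p hD (a2 A hA)
    (high_out p (a2 A hA) (mem_sdiff.2 ⟨hz, hz' A hA⟩) hs) fun y hy => (b y (k'.sub hy)).1 hy
  have b3 := h2 (insert Y' 𝒴) (mem_filter.2 ⟨mem_powerset.2 (insert_subset
    (mem_powerset.2 k'.sub) (mem_powerset.1 a0)), mem_insert_of_mem a1, fun A hA => ?_,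
    fun A hA B hB hAB => ?_⟩)
  · rw [card_insert_of_notMem fun h => hz' _ h b1] at b3
    omega
  · rcases mem_insert.1 hA with rfl | hA
    exacts [k', a2 A hA]
  · rcases mem_insert.1 hA with rfl | hA' <;> rcases mem_insert.1 hB with rfl | hB'
    exacts [absurd rfl hAB, b2 B hB', (b2 A hA').symm, a3 A hA' B hB' hAB]

end Pool.Agent.GL2
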