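import Pool.Agent.P.MP_dfe42f_co.HfI

/-! A large cluster, and a cluster padded by vertices in few copies. -/

namespace Pool.Agent.GL2
open Finset Pool.Agent.GLT Function

set_option linter.unusedSectionVars false

variable {α V : Type} [Fintype α] [DecidableEq α] [DecidableEq V]
variable {H : SimpleGraph α} {G : SimpleGraph V} {j : ℕ} {c : α} {s : Equiv.Perm α}
  {N δ : ℝ} {W Y Z : Finset V} {w m : ℕ} {e η τ η0 : ℝ}

theorem cs_le' (f : Fac H c s) (hc : Fintype.card α = j + 4)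
    (hD : ∀ B v, ((nb G B v).card : ℝ) ≤ N) (N0 : 0 ≤ N) (z : V) {μ : ℝ}
    (h : ((nb G Y z).card : ℝ) ≤ μ) : ((cs H G c s W Y z).card : ℝ) ≤
      4 / 3 * (j + 3) * (μ ^ 2 * N ^ j) * (nb G Y z).card := by
  refine (cs_le f hc hD z).trans ?_
  have h1 : ((nb G Y z).card : ℝ) ^ 2 ≤ μ ^ 2 := pow_le_pow_left₀ (Nat.cast_nonneg _) h 2
  have := mul_le_mul_of_nonneg_right h1
    (show 0 ≤ 4 / 3 * ((j : ℝ) + 3) * N ^ j * (nb G Y z).card by positivity)
  linarith

theorem big (f : Fac H c s) (hc : Fintype.card α = j + 4) (p : Pr j w m N δ e η τ η0)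
    (q : Gd G w (N - m)) (k : Cl G N δ η W Y) (hb : w * m ≤ Y.card) :
    ((hit H G W Y).card : ℝ) ≤ gg H w (w * m) := by
  have hN := p.N0
  have hD := p.deg q
  have hj : (0 : ℝ) ≤ j := Nat.cast_nonneg _
  obtain ⟨u, hu⟩ := Nat.exists_eq_add_of_le hb
  have u0 : (0 : ℝ) ≤ u := Nat.cast_nonneg _
  have su : (Y.card : ℝ) = N + u := by rw [hu, Nat.cast_add, p.Nc]
  have w1 : (300 : ℝ) ≤ w := by
    exact_mod_cast le_trans (Nat.le_mul_of_pos_right 300 (by positivity)) p.w2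
  have uw : (u : ℝ) / w ≤ 0.01 * u := by rw [div_le_iff₀ (by linarith)]; nlinarith
  have d1 := decomp (G := G) (W := W) (Y := Y) (Z := ∅) f
  rw [union_empty, sum_empty, add_zero] at d1
  obtain ⟨p1, p2, p3⟩ := pen f hc p q k
  have p4 := gg_add_le (H := H) (j := j + 3) hc w (w * m) u (L := (1 + η) * N)
    (by rw [p.Nc, ← su]; exact k.up)
  have p5 : ((1 + η) * N) ^ (j + 3) ≤ 1.01 * N ^ (j + 3) := by
    have a := pow_up p.n0.le (j + 3) (by push_cast; linarith [p.tn1, p.d3, p.n0])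
    rw [mul_pow]
    refine mul_le_mul_of_nonneg_right (a.trans ?_) (by positivity)
    push_cast
    linarith [p.tn1, p.d3, p.n0]
  have c1 := sum_le_sum fun z (_ : z ∈ W \ Y) =>
    cs_le' (W := W) (Y := Y) f hc hD hN.le z (hD Y z)
  rw [← mul_sum, sum_in] at c1
  have c2 := sum_out p q k.sub
  have c3 : 0 ≤ ∑ y ∈ Y, ((nb G (W \ Y) y).card : ℝ) := sum_nonneg fun _ _ => Nat.cast_nonneg _
  have e1 : N - Y.card - (N - Y.card) / w = u / w - u := by rw [su]; ring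
  have c4 := sq_out p q k le_rfl (by rw [e1]; linarith)
  have c5 := js_le (W := W) (Y := Y) f hc hD hN.le
  rw [e1] at c2
  rw [show N - Y.card = -u by rw [su]; ring, abs_neg, abs_of_nonneg u0] at p2
  rw [← hu] at p4
  set X := ∑ y ∈ Y, xx G w Y y
  set P := N ^ (j + 2) with hP
  have P0 : 0 < P := by positivity
  have c6 : (Y.card : ℝ) * (u / w - u) ≤ -(0.99 * (u * N)) := by rw [su]; nlinarith
  have c7 : (u : ℝ) ≤ 0.001 * (u * N) := by nlinarith [p.N1, p.m0]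
  have X0 : 0 ≤ X := by nlinarith
  have c8 : ((js H G c W Y).card : ℝ) ≤ 0.012 * (X * P) := by
    refine c5.trans ?_
    have a1 := mul_le_mul_of_nonneg_right c4
      (show 0 ≤ 2 * ((j : ℝ) + 4) ^ 2 * N ^ (j + 1) by positivity)
    have a2 := mul_le_mul_of_nonneg_right p.d1 (mul_nonneg X0 P0.le)
    rw [hP, pow_succ N (j + 1)] at *
    linarith
  have c9 := mul_le_mul_of_nonneg_left p5 (show 0 ≤ (u : ℝ) * (j + 4) by positivity)
  have c10 := mul_le_mul_of_nonneg_left (show ∑ y ∈ Y, ((nb G (W \ Y) y).card : ℝ) ≤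
    X - 0.99 * (u * N) by linarith) (show 0 ≤ ((j : ℝ) + 3) * P by positivity)
  have c11 := mul_le_mul_of_nonneg_left (show X - 0.001 * (u * N) ≤ XP G w Y by linarith)
    (show 0 ≤ ((j : ℝ) + 3) * P by positivity)
  have c12 := mul_le_mul_of_nonneg_left (show 0.99 * (u * N) ≤ X by linarith) P0.le
  have c13 := mul_nonneg hj (mul_nonneg X0 P0.le)
  have c14 := mul_nonneg hj (mul_nonneg (mul_nonneg u0 hN.le) P0.le)
  rw [show N ^ 2 * N ^ j = P by rw [hP]; ring] at c1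
  rw [show N ^ (j + 3) = N * P by rw [hP]; ring] at c9
  push_cast at p4
  rw [show (j : ℝ) + 3 + 1 = j + 4 by ring] at p4
  linarith

theorem pad_one (f : Fac H c s) (hc : Fintype.card α = j + 4) (p : Pr j w m N δ e η τ η0)
    (q : Gd G w (N - m)) (k : Cl G N δ η W Y) {z : V} (hz : z ∈ W \ Y)
    (hq : ((hit H G W {z}).card : ℝ) ≤ (1 - e) * ((j + 4) * N ^ (j + 3))) {μ : ℝ} (μ0 : 0 ≤ μ)
    (hμ : μ ≤ max ((nb G Y z).card : ℝ) (τ * N)) :
    ((cs H G c s W Y z).card : ℝ) + (rs H G W Y z).card +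
      4 / 3 * (j + 3) * (μ ^ 2 * N ^ j) * (N - (nb G Y z).card) ≤
        (1 - e / 2) * ((j + 4) * N ^ (j + 3)) := by
  have hN := p.N0
  have hD := p.deg q
  have hj : (0 : ℝ) ≤ j := Nat.cast_nonneg _
  set E : ℝ := ((nb G Y z).card : ℝ) with hE
  have E0 : 0 ≤ E := Nat.cast_nonneg _
  have E1 : E ≤ N := hD Y z
  have P0 : 0 < N ^ j := by positivity
  have a0 : 4 / 3 * (j + 3) * (μ ^ 2 * N ^ j) * (N - E) ≤
      (j + 4) * N ^ j * (4 / 3 * (max E (τ * N) ^ 2 * (N - E))) := by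
    have := mul_le_mul (show (j : ℝ) + 3 ≤ j + 4 by linarith) (pow_le_pow_left₀ μ0 hμ 2)
      (sq_nonneg _) (by linarith)
    have := mul_le_mul_of_nonneg_right this (mul_nonneg P0.le (sub_nonneg.2 E1))
    linarith
  rw [show N ^ (j + 3) = N ^ j * N ^ 3 by ring] at *
  have t0 : 0 ≤ ((j : ℝ) + 4) * N ^ j := by positivity
  rcases le_total E (τ * N) with h | h
  · rw [max_eq_right h] at a0
    have a1 := cr_le_q (H := H) (G := G) (c := c) (s := s) (W := W) (Y := Y) (z := z)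
    have a2 : 4 / 3 * ((τ * N) ^ 2 * (N - E)) ≤ e / 2 * N ^ 3 := by
      have b1 := mul_le_mul_of_nonneg_left (show N - E ≤ N by linarith) (sq_nonneg (τ * N))
      have b2 := mul_le_mul_of_nonneg_right p.tt (pow_nonneg hN.le 3)
      have b3 := mul_pos p.e0 (pow_pos hN 3)
      nlinarith
    have := mul_le_mul_of_nonneg_left a2 t0
    linarith
  · rw [max_eq_left h] at a0
    have a1 := cr_le (W := W) f hc hD (mem_sdiff.1 hz).2
    have a2 := nb_split (G := G) k.sub z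
    have a3 : ((nb G (W \ Y) z).card : ℝ) ^ 3 ≤ (N - E) ^ 3 :=
      pow_le_pow_left₀ (Nat.cast_nonneg _) (by linarith [hD W z]) 3
    have a4 : E ^ 3 + (N - E) ^ 3 + 4 / 3 * (E ^ 2 * (N - E)) ≤ (1 - e / 2) * N ^ 3 := by
      have b1 : τ * N * (δ / 2 * N) ≤ E * (N - E) :=
        mul_le_mul h (by linarith [k.out z hz]) (by have := p.d0; positivity) E0
      have b2 : τ * N * (δ / 2 * N) = 6 * η * N ^ 2 := by linear_combination N ^ 2 / 2 * p.hτ
      have b3 := mul_le_mul b1 (show N ≤ 3 * N - 4 / 3 * E by linarith) hN.le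
        (mul_nonneg E0 (sub_nonneg.2 E1))
      have b4 := mul_le_mul_of_nonneg_right p.en1 (pow_nonneg hN.le 3)
      have b5 := mul_pos p.e0 (pow_pos hN 3)
      rw [b2] at b3
      nlinarith
    have := mul_le_mul_of_nonneg_left a4 t0
    have := mul_le_mul_of_nonneg_left a3 t0
    linarith

theorem fill (hc : Fintype.card α = j + 4) (p : Pr j w m N δ e η τ η0) {a u : ℕ} {ε : ℝ}
    (h0 : 0 ≤ ε) (h1 : ε ≤ η) (ha : (1 - ε) * N ≤ a) (hu : a + u ≤ w * m) :
    gg H w a + u * ((1 - (j + 4) * ε - e / 100) * ((j + 4) * N ^ (j + 3))) ≤ gg H w (a + u) := by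
  have hN := p.N0
  have hj : (0 : ℝ) ≤ j := Nat.cast_nonneg _
  have a1 : ε * N ≤ 0.1 * N := by nlinarith [p.nd, p.d3]
  have a2 : ((j : ℝ) + 4) * m ≤ 0.1 * N := by nlinarith [p.tm1, p.es]
  have a3 := gg_add_ge (H := H) (j := j + 3) hc p.wp (m := m) (a := a)
    (L := N - (ε * N + (j + 4) * m)) (by linarith) (by push_cast; linarith) u hu
  have a4 := pow_lo hN.le (ε := (j + 4) * ε + e / 100) (by have := p.e0; positivity)
    (y := ε * N + (j + 4) * m) (by linarith) (j + 3) (by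
      have := p.tm
      have := mul_nonneg h0 hN.le
      have : 0 ≤ ((j : ℝ) + 4) * m := by positivity
      push_cast
      nlinarith)
  have a5 := mul_le_mul_of_nonneg_left a4 (show 0 ≤ (u : ℝ) * (j + 4) by positivity)
  push_cast at a3
  rw [show (j : ℝ) + 3 + 1 = j + 4 by ring] at a3
  linarith

theorem caseI (f : Fac H c s) (hc : Fintype.card α = j + 4) (p : Pr j w m N δ e η τ η0)
    (q : Gd G w (N - m)) (k0 : Cl G N δ η0 W Y) {u : ℕ} (u1 : 1 ≤ u) (hu : Y.card + u = w * m)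
    {L : Finset V} (hL : L ⊆ W \ Y) (hLu : u ≤ L.card)
    (h1 : ∀ z ∈ L, ((hit H G W {z}).card : ℝ) ≤ (1 - e) * ((j + 4) * N ^ (j + 3)))
    (h2 : ∀ z ∈ (W \ Y) \ L, ((nb G Y z).card : ℝ) ≤ τ * N) :
    ∃ S ⊆ W, S.card = w * m ∧ ((hit H G W S).card : ℝ) ≤ gg H w (w * m) := by
  have hN := p.N0
  have hD := p.deg q
  have hj : (0 : ℝ) ≤ j := Nat.cast_nonneg _
  have k := k0.mono hN.le p.zn
  obtain ⟨Z, z1, z2, z3⟩ := exists_top L (fun z => ((nb G Y z).card : ℝ)) u hLu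
  have z4 := z1.trans hL
  refine ⟨Y ∪ Z, union_subset k.sub (z4.trans sdiff_subset), by
    rw [card_union_of_disjoint (disjoint_sdiff.mono_right z4), z2, hu], ?_⟩
  obtain ⟨z0, hz0, hmin⟩ := Z.exists_min_image (fun z => ((nb G Y z).card : ℝ))
    (card_pos.1 (by omega))
  set μ := max ((nb G Y z0).card : ℝ) (τ * N) with hμ
  have μ0 : 0 ≤ μ := le_max_of_le_left (Nat.cast_nonneg _)
  have μ1 : μ ≤ N := max_le (hD _ _) (by nlinarith [p.t1])
  have u0 : (0 : ℝ) ≤ u := Nat.cast_nonneg _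
  have su : N - Y.card = u := by rw [← p.Nc, ← hu]; push_cast; ring
  have uz : (u : ℝ) ≤ η0 * N := by linarith [k0.lo]
  have uw : 0 ≤ (u : ℝ) / w := by positivity
  have d1 := decomp (G := G) (W := W) (Y := Y) (Z := Z) f
  obtain ⟨p1, p2, p3⟩ := pen f hc p q k
  have p4 := fill (H := H) hc p p.z0.le p.zn k0.lo hu.le
  have c1 := sum_le_sum fun z (hz : z ∈ (W \ Y) \ Z) =>
    cs_le' (W := W) (Y := Y) f hc hD hN.le z (μ := μ) (by
      by_cases h : z ∈ L
      · exact le_max_of_le_left (z3 z0 hz0 z (mem_sdiff.2 ⟨h, (mem_sdiff.1 hz).2⟩))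
      · exact le_max_of_le_right (h2 z (mem_sdiff.2 ⟨(mem_sdiff.1 hz).1, h⟩)))
  have c2 := sum_le_sum fun z (hz : z ∈ Z) => pad_one f hc p q k (z4 hz) (h1 z (z1 hz)) μ0
    (max_le_max_right _ (hmin z hz))
  rw [← mul_sum] at c1
  rw [sum_add_distrib, sum_add_distrib, ← mul_sum, sum_sub_distrib, sum_const, sum_const, z2,
    nsmul_eq_mul, nsmul_eq_mul] at c2
  have c3 := sum_out p q k.sub
  have c4 := sq_out p q k u0 (by rw [su]; linarith)
  have c5 := js_le (W := W) (Y := Y) f hc hD hN.le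
  rw [← sum_in, ← sum_sdiff z4, su] at c3
  rw [← sum_sdiff z4] at d1
  rw [su, abs_of_nonneg u0] at p2
  rw [hu] at p4
  have X0 := xx_nonneg q p.wp Y
  set X := ∑ y ∈ Y, xx G w Y y
  set P := N ^ (j + 2) with hP
  have P0 : 0 < P := by positivity
  have Y0 : (0 : ℝ) ≤ Y.card := Nat.cast_nonneg _
  have c6 : (Y.card : ℝ) * (u - u / w) ≤ u * N := by nlinarith
  have c7 : 1600 * (u : ℝ) ≤ e * (u * N) := by nlinarith [p.eN, p.m0]
  have c8 : ((js H G c W Y).card : ℝ) ≤ 0.012 * (X * P) + 0.2 * ((j + 4) * (e * (u * N) * P)) := by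
    refine c5.trans ?_
    have a0 : 2 * (Y.card : ℝ) * u ^ 2 ≤ 2 * N * (u * (η0 * N)) :=
      mul_le_mul (by linarith) (by nlinarith) (by positivity) (by linarith)
    have a1 := mul_le_mul_of_nonneg_right (c4.trans (add_le_add_right a0 _))
      (show 0 ≤ 2 * ((j : ℝ) + 4) ^ 2 * N ^ (j + 1) by positivity)
    have a2 := mul_le_mul_of_nonneg_right p.d1 (mul_nonneg X0 P0.le)
    rw [← p.h0]
    rw [hP, pow_succ N (j + 1)] at *
    linarith
  have c9 := mul_le_mul_of_nonneg_left (show ∑ z ∈ (W \ Y) \ Z, ((nb G Y z).card : ℝ) ≤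
    X + (u * N - ∑ z ∈ Z, ((nb G Y z).card : ℝ)) by linarith)
    (show 0 ≤ 4 / 3 * ((j : ℝ) + 3) * (μ ^ 2 * N ^ j) by positivity)
  have c10 : μ ^ 2 * N ^ j ≤ P := by
    rw [hP, pow_add, mul_comm]
    exact mul_le_mul_of_nonneg_left (pow_le_pow_left₀ μ0 μ1 2) (by positivity)
  have c11 := mul_le_mul_of_nonneg_left c10 (show 0 ≤ ((j : ℝ) + 3) * X by positivity)
  have c12 := mul_le_mul_of_nonneg_left (show X - u ≤ XP G w Y by linarith)
    (show 0 ≤ ((j : ℝ) + 3) * P by positivity)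
  have c13 := mul_nonneg hj (mul_nonneg X0 P0.le)
  have c14 := mul_le_mul_of_nonneg_left c7 (show 0 ≤ ((j : ℝ) + 3) * P by positivity)
  have c15 : 0 ≤ e * (u * N) * P := by have := p.e0; positivity
  have c16 := mul_nonneg hj c15
  have c17 := mul_nonneg X0 P0.le
  rw [show ((j : ℝ) + 4) * η0 = e / 20 by linarith [p.h0]] at p4
  rw [show N ^ (j + 3) = N * P by rw [hP]; ring] at p4 c2
  linarith

end Pool.Agent.GL2
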