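import Pool.Agent.P.MP_dfe42f_co.HfJ

/-! Global accounting when almost all vertices lie in clusters. -/

namespace Pool.Agent.GL2
open Finset Pool.Agent.GLT Function

set_option linter.unusedSectionVars false

variable {α V : Type} [Fintype α] [DecidableEq α] [DecidableEq V]
variable {H : SimpleGraph α} {G : SimpleGraph V} {j : ℕ} {c : α} {s : Equiv.Perm α}
  {N δ : ℝ} {W Y : Finset V} {w m : ℕ} {e η τ η0 : ℝ} {𝒴 : Finset (Finset V)}

theorem cross (f : Fac H c s) (hc : Fintype.card α = j + 4) (p : Pr j w m N δ e η τ η0)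
    (q : Gd G w (N - m)) (h1 : ∀ A ∈ 𝒴, Cl G N δ η W A)
    (h2 : ∀ A ∈ 𝒴, ∀ B ∈ 𝒴, A ≠ B → Disjoint A B) (h3 : ∀ A ∈ 𝒴, (A.card : ℝ) ≤ N)
    (r : Finset V) {Q : ℝ} (Q0 : 0 ≤ Q) (hQ : ∀ A ∈ 𝒴, (N - A.card) ^ 2 ≤ Q) :
    ((emb H G (𝒴.biUnion id)).card : ℝ) ≤ ∑ A ∈ 𝒴, ((emb H G A).card : ℝ) +
      (j + 3) * N ^ j * ((24 * δ * N ^ 2 + 16 * Q) * ∑ A ∈ 𝒴, ∑ y ∈ A, xx G w A y +
        16 * Q * N * ∑ A ∈ 𝒴.erase r, (N - A.card)) := by
  classical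
  have hN := p.N0
  have hD := p.deg q
  set U := 𝒴.biUnion id with hU
  have u1 : ∀ x ∈ U, ∃ A ∈ 𝒴, x ∈ A := fun x hx => by simpa [hU] using hx
  choose! cl c1 c2 using u1
  have c3 : ∀ A ∈ 𝒴, ∀ x ∈ A, x ∈ U ∧ cl x = A := fun A hA x hx => by
    have hx' : x ∈ U := mem_biUnion.2 ⟨A, hA, hx⟩
    exact ⟨hx', by_contra fun h => disjoint_left.1 (h2 _ (c1 x hx') A hA h) (c2 x hx') hx⟩
  have UW : U ⊆ W := fun x hx => (h1 _ (c1 x hx)).sub (c2 x hx)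
  set CP := (U ×ˢ U).filter fun t => G.Adj t.1 t.2 ∧ cl t.1 ≠ cl t.2 with hCP
  have mCP : ∀ t, t ∈ CP ↔ (t.1 ∈ U ∧ t.2 ∈ U) ∧ G.Adj t.1 t.2 ∧ cl t.1 ≠ cl t.2 := fun t => by
    rw [hCP, mem_filter, mem_product]
  set o : Finset V → V → ℝ := fun A x => ((nb G (W \ A) x).card : ℝ) with ho
  set g : Finset V → V → ℝ := fun A x =>
    4 * max (xx G w A x) 0 ^ 2 + if A = r then 0 else 8 * Q with hg
  have g0 : ∀ A x, 0 ≤ g A x := fun A x => by simp only [hg]; split_ifs <;> positivity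
  have k1 : ∑ t ∈ CP, g (cl t.1) t.1 ≤ ∑ A ∈ 𝒴, ∑ x ∈ A, o A x * g A x := by
    have a1 : ∑ A ∈ 𝒴, ∑ x ∈ A, o A x * g A x = ∑ x ∈ U, o (cl x) x * g (cl x) x := by
      rw [hU, sum_biUnion (t := id) fun A hA B hB h => h2 A hA B hB h]
      exact sum_congr rfl fun A hA => sum_congr rfl fun x hx => by rw [(c3 A hA x hx).2]
    rw [a1, hCP, sum_filter, sum_product]
    refine sum_le_sum fun x hx => ?_
    rw [← sum_filter]
    dsimp only
    rw [sum_const, nsmul_eq_mul]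
    refine mul_le_mul_of_nonneg_right (Nat.cast_le.2 (card_le_card fun z hz => ?_)) (g0 _ _)
    obtain ⟨z1, z2, z3⟩ := mem_filter.1 hz
    exact mem_nb.2 ⟨mem_sdiff.2 ⟨UW z1, fun h => z3 (c3 _ (c1 x hx) z h).2.symm⟩, z2⟩
  have k2 : ∑ t ∈ CP, g (cl t.2) t.2 = ∑ t ∈ CP, g (cl t.1) t.1 := by
    have : ∀ t ∈ CP, t.swap ∈ CP := fun t ht => by
      obtain ⟨⟨a, b⟩, c, d⟩ := (mCP t).1 ht
      exact (mCP _).2 ⟨⟨b, a⟩, c.symm, d.symm⟩
    exact sum_nbij' Prod.swap Prod.swap this this (by simp) (by simp) (by simp)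
  have k3 : ∀ x ∈ U, o (cl x) x ^ 2 ≤ 2 * max (xx G w (cl x) x) 0 ^ 2 + 2 * Q := by
    intro x hx
    have a1 := out_le p q (h1 _ (c1 x hx)).sub x
    have a2 := le_max_left (xx G w (cl x) x) 0
    have a3 : 0 ≤ (N - (cl x).card) / w :=
      div_nonneg (sub_nonneg.2 (h3 _ (c1 x hx))) (Nat.cast_nonneg _)
    have a4 : o (cl x) x ^ 2 ≤ (max (xx G w (cl x) x) 0 + (N - (cl x).card)) ^ 2 :=
      pow_le_pow_left₀ (Nat.cast_nonneg _) (by simp only [ho]; linarith) 2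
    nlinarith [sq_nonneg (max (xx G w (cl x) x) 0 - (N - (cl x).card)), hQ _ (c1 x hx)]
  have k4 : ∑ t ∈ CP, (o (cl t.1) t.1 + o (cl t.2) t.2) ^ 2 ≤
      ∑ t ∈ CP, (g (cl t.1) t.1 + g (cl t.2) t.2) := sum_le_sum fun t ht => by
    obtain ⟨⟨a, b⟩, -, d⟩ := (mCP t).1 ht
    have := k3 _ a
    have := k3 _ b
    have := sq_nonneg (o (cl t.1) t.1 - o (cl t.2) t.2)
    simp only [hg]
    split_ifs with x1 x2 x2
    · exact absurd (x1.trans x2.symm) d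
    all_goals nlinarith
  have k5 : ∀ A ∈ 𝒴, ∑ x ∈ A, o A x * g A x ≤ (12 * δ * N ^ 2 + 8 * Q) * ∑ y ∈ A, xx G w A y +
      if A = r then 0 else 8 * Q * N * (N - A.card) := by
    intro A hA
    have a1 := lemV q p.wp (a := 3 * δ * N) (by have := p.d0; positivity)
      fun y hy => (h1 A hA).nn p hy
    have a2 := sum_out p q (h1 A hA).sub
    have a3 := xx_nonneg q p.wp A
    have a4 : ∑ x ∈ A, o A x * (4 * max (xx G w A x) 0 ^ 2) ≤
        ∑ x ∈ A, N * 4 * max (xx G w A x) 0 ^ 2 := sum_le_sum fun x _ => by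
      rw [mul_assoc]
      exact mul_le_mul_of_nonneg_right (hD _ _) (by positivity)
    have a5 := sub_nonneg.2 (h3 A hA)
    have a6 : (A.card : ℝ) * (N - A.card - (N - A.card) / w) ≤ N * (N - A.card) := by
      have : 0 ≤ (A.card : ℝ) * ((N - A.card) / w) := by positivity
      nlinarith
    rw [← mul_sum] at a4
    simp only [hg, mul_add, sum_add_distrib, ← sum_mul]
    have a7 := mul_le_mul_of_nonneg_left a1 hN.le
    have a8 := mul_le_mul_of_nonneg_left (a2.trans (add_le_add_right a6 _)) Q0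
    have a9 := mul_nonneg Q0 a3
    simp only [ho] at a4 ⊢
    split_ifs <;> linarith
  have k6 := sum_le_sum k5
  have k7 : ∑ A ∈ 𝒴, (if A = r then 0 else 8 * Q * N * (N - A.card)) =
      8 * Q * N * ∑ A ∈ 𝒴.erase r, (N - A.card) := by
    rw [mul_sum, ← filter_ne', sum_filter]
    exact sum_congr rfl fun A _ => by by_cases h : A = r <;> simp [h]
  rw [sum_add_distrib, ← mul_sum, k7] at k6
  replace k6 := k1.trans k6
  rw [sum_add_distrib, k2] at k4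
  have m0 := card_filter_add_card_filter_not (s := emb H G U) fun φ => ∀ i, cl (φ i) = cl (φ c)
  have m1 := cover (T := 𝒴) (U := (emb H G U).filter fun φ => ∀ i, cl (φ i) = cl (φ c))
    (fun A φ => φ ∈ emb H G A) (fun A => ((emb H G A).card : ℝ)) (fun φ hφ => by
      obtain ⟨a, b⟩ := mem_filter.1 hφ
      obtain ⟨a1, a2⟩ := mem_emb.1 a
      exact ⟨_, c1 _ (a1 c), mem_emb.2 ⟨fun i => b i ▸ c2 _ (a1 i), a2⟩⟩)
    fun A _ => Nat.cast_le.2 (card_le_card fun φ hφ => (mem_filter.1 hφ).2)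
  have m2 := cover (T := univ.erase c ×ˢ CP)
    (U := (emb H G U).filter fun φ => ¬ ∀ i, cl (φ i) = cl (φ c))
    (fun t φ => φ c = t.2.1 ∧ φ t.1 = t.2.2)
    (fun t => (o (cl t.2.1) t.2.1 + o (cl t.2.2) t.2.2) ^ 2 * N ^ j) (fun φ hφ => by
      obtain ⟨a, b⟩ := mem_filter.1 hφ
      obtain ⟨a1, -, a3⟩ := mem_emb.1 a
      push Not at b
      obtain ⟨v, hv⟩ := b
      have hvc : v ≠ c := fun h => hv (by rw [h])
      exact ⟨(v, φ c, φ v), mem_product.2 ⟨by simpa using hvc,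
        (mCP _).2 ⟨⟨a1 _, a1 _⟩, a3 _ _ (f.dom v hvc), hv.symm⟩⟩, rfl, rfl⟩) fun t ht => by
      obtain ⟨v, x, z⟩ := t
      obtain ⟨t1, t2⟩ := mem_product.1 ht
      have hv := ne_of_mem_erase t1
      obtain ⟨⟨x1, z1⟩, -, xz⟩ := (mCP _).1 t2
      dsimp only at *
      set A := nb G (W \ cl x) x ∪ nb G (W \ cl z) z with hA
      have a1 : (A.card : ℝ) ≤ o (cl x) x + o (cl z) z := by
        simp only [ho]; exact_mod_cast card_union_le _ _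
      have a2 : ∀ y ∈ W, G.Adj x y → G.Adj z y → y ∈ A := fun y y1 y2 y3 => by
        by_cases h : y ∈ cl x
        · exact mem_union_right _ (mem_nb.2 ⟨mem_sdiff.2 ⟨y1, fun h' =>
            disjoint_left.1 (h2 _ (c1 x x1) _ (c1 z z1) xz) h h'⟩, y3⟩)
        · exact mem_union_left _ (mem_nb.2 ⟨mem_sdiff.2 ⟨y1, h⟩, y2⟩)
      refine (cnt4 (W := W) f hc hD (((filter_subset _ _).trans (filter_subset _ _)).trans
        (emb_mono UW)) hv x {z} A A fun φ hφ => ?_).trans ?_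
      · obtain ⟨b1, b2, b3⟩ := mem_filter.1 hφ
        obtain ⟨b4, -, b5⟩ := mem_emb.1 (mem_filter.1 b1).1
        exact ⟨b2, mem_singleton.2 b3,
          a2 _ (UW (b4 _)) (b2 ▸ b5 _ _ (f.dom _ (f.sc hv))) (b3 ▸ b5 _ _ (f.adj v hv)),
          a2 _ (UW (b4 _)) (b2 ▸ b5 _ _ (f.dom _ (f.pc hv))) (b3 ▸ b5 _ _ (f.adjp hv))⟩
      · rw [card_singleton, Nat.cast_one, one_mul, ← sq]
        exact mul_le_mul_of_nonneg_right (pow_le_pow_left₀ (Nat.cast_nonneg _) a1 2)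
          (by positivity)
  rw [sum_product] at m2
  simp only [sum_const, nsmul_eq_mul, ← sum_mul, card_er hc] at m2
  have m3 := mul_le_mul_of_nonneg_left (k4.trans (add_le_add k6 k6))
    (show 0 ≤ ((j : ℝ) + 3) * N ^ j by positivity)
  rw [← m0]
  push_cast
  linarith

theorem glob (f : Fac H c s) (hc : Fintype.card α = j + 4) (p : Pr j w m N δ e η τ η0)
    (q : Gd G w (N - m)) (h1 : ∀ A ∈ 𝒴, Cl G N δ η W A)
    (h2 : ∀ A ∈ 𝒴, ∀ B ∈ 𝒴, A ≠ B → Disjoint A B) (h3 : ∀ A ∈ 𝒴, (A.card : ℝ) ≤ N)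
    (h4 : ∀ z ∈ W \ 𝒴.biUnion id,
      ((hit H G W {z}).card : ℝ) ≤ (1 - e) * ((j + 4) * N ^ (j + 3)))
    (r : Finset V) {Q : ℝ} (Q0 : 0 ≤ Q) (Q1 : Q ≤ 2 * η ^ 2 * N ^ 2)
    (hQ : ∀ A ∈ 𝒴, (N - A.card) ^ 2 ≤ Q) :
    ((emb H G W).card : ℝ) ≤ (W \ 𝒴.biUnion id).card * ((1 - e) * ((j + 4) * N ^ (j + 3))) +
      ∑ A ∈ 𝒴, gg H w A.card + 0.01 * N ^ (j + 2) * ∑ A ∈ 𝒴, (N - A.card) +
        16 * (j + 3) * Q * N ^ (j + 1) * ∑ A ∈ 𝒴.erase r, (N - A.card) := by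
  classical
  have hN := p.N0
  have hj : (0 : ℝ) ≤ j := Nat.cast_nonneg _
  have UW : 𝒴.biUnion id ⊆ W := biUnion_subset.2 fun A hA => (h1 A hA).sub
  have a1 := cross f hc p q h1 h2 h3 r Q0 hQ
  have a2 := cover (T := W \ 𝒴.biUnion id) (U := hit H G W (W \ 𝒴.biUnion id))
    (fun z φ => φ ∈ hit H G W {z}) (fun _ => (1 - e) * ((j + 4) * N ^ (j + 3))) (fun φ hφ => by
      obtain ⟨a, i, hi⟩ := mem_hit.1 hφ
      exact ⟨_, hi, mem_hit.2 ⟨a, i, mem_singleton_self _⟩⟩) fun z hz =>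
    le_trans (Nat.cast_le.2 (card_le_card fun φ hφ => (mem_filter.1 hφ).2)) (h4 z hz)
  have a3 := sum_le_sum fun A hA => (pen f hc p q (h1 A hA)).2.2
  have a4 := sum_le_sum fun A (hA : A ∈ 𝒴) => (pen f hc p q (h1 A hA)).2.1.trans
    (le_of_eq (by rw [abs_of_nonneg (sub_nonneg.2 (h3 A hA))]))
  have a5 : 0 ≤ ∑ A ∈ 𝒴, XP G w A := sum_nonneg fun A hA => (pen f hc p q (h1 A hA)).1
  have a6 : 0 ≤ ∑ A ∈ 𝒴, ∑ y ∈ A, xx G w A y := sum_nonneg fun A _ => xx_nonneg q p.wp A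
  rw [sum_add_distrib] at a3 a4
  rw [← mul_sum] at a3
  rw [sum_const, nsmul_eq_mul] at a2
  have a7 : (j + 3) * N ^ j * (24 * δ * N ^ 2 + 16 * Q) ≤ 0.01 * N ^ (j + 2) := by
    have b1 : 24 * δ * N ^ 2 + 16 * Q ≤ 25 * δ * N ^ 2 := by
      have : 32 * η ^ 2 ≤ δ := by nlinarith [p.nd, p.d3, p.n0]
      nlinarith [sq_nonneg N]
    have b2 := mul_le_mul_of_nonneg_left b1 (show 0 ≤ ((j : ℝ) + 3) * N ^ j by positivity)
    have b3 := mul_le_mul_of_nonneg_right (show ((j : ℝ) + 3) * δ ≤ 1 / 4000 by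
      linarith [p.td, p.d0]) (pow_nonneg hN.le (j + 2))
    have b4 := pow_pos hN (j + 2)
    rw [pow_add] at *
    linarith
  have a8 := mul_le_mul_of_nonneg_right a7 a6
  have a9 := mul_le_mul_of_nonneg_left a4 (pow_nonneg hN.le (j + 2))
  have a10 := mul_nonneg (pow_nonneg hN.le (j + 2)) a5
  have a11 := mul_nonneg hj a10
  rw [emb_split W (W \ 𝒴.biUnion id), Finset.sdiff_sdiff_eq_self UW, pow_succ N j]
  push_cast
  linarith

end Pool.Agent.GL2
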