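import Pool.Agent.P.MP_dfe42f_co.HfK

/-! The case of few vertices outside the clusters. -/

namespace Pool.Agent.GL2
open Finset Pool.Agent.GLT Function

set_option linter.unusedSectionVars false

variable {α V : Type} [Fintype α] [DecidableEq α] [DecidableEq V]
variable {H : SimpleGraph α} {G : SimpleGraph V} {j : ℕ} {c : α} {s : Equiv.Perm α}
  {N δ : ℝ} {W Y : Finset V} {w m : ℕ} {e η τ η0 : ℝ} {𝒴 : Finset (Finset V)}

theorem caseII (f : Fac H c s) (hc : Fintype.card α = j + 4) (p : Pr j w m N δ e η τ η0)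
    (q : Gd G w (N - m)) (h1 : ∀ A ∈ 𝒴, Cl G N δ η W A)
    (h2 : ∀ A ∈ 𝒴, ∀ B ∈ 𝒴, A ≠ B → Disjoint A B) (h3 : ∀ A ∈ 𝒴, A.card < w * m)
    (h4 : ∀ z ∈ W \ 𝒴.biUnion id,
      ((hit H G W {z}).card : ℝ) ≤ (1 - e) * ((j + 4) * N ^ (j + 3)))
    (hY : Y ∈ 𝒴) (h5 : (1 - η0) * N ≤ Y.card) (h6 : Y.card + (W \ 𝒴.biUnion id).card < w * m)
    (h7 : w * m ≤ W.card) : ((emb H G W).card : ℝ) ≤ FF H w m W.card := by
  classical
  have hN := p.N0
  have hj : (0 : ℝ) ≤ j := Nat.cast_nonneg _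
  have UW : 𝒴.biUnion id ⊆ W := biUnion_subset.2 fun A hA => (h1 A hA).sub
  have h3' : ∀ A ∈ 𝒴, (A.card : ℝ) ≤ N := fun A hA => by
    rw [← p.Nc]; exact_mod_cast (h3 A hA).le
  have gl := glob f hc p q h1 h2 h3' h4
  obtain ⟨ρ, hρ⟩ : ∃ ρ, (W \ 𝒴.biUnion id).card = ρ := ⟨_, rfl⟩
  rw [hρ] at gl h6
  set M := w * m with hM
  have Mc : (M : ℝ) = N := p.Nc
  obtain ⟨κ, k1⟩ : ∃ κ : Finset V → ℕ,
      ∀ A ∈ 𝒴, κ A + (A.card + if A = Y then ρ else 0) = M ∧ 1 ≤ κ A :=
    ⟨fun A => M - (A.card + if A = Y then ρ else 0), fun A hA => by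
      have := h3 A hA
      dsimp only
      split_ifs with h
      · rw [h]; omega
      · omega⟩
  have k2 : ∀ A ∈ 𝒴, N - A.card = κ A + if A = Y then (ρ : ℝ) else 0 := fun A hA => by
    rw [← Mc, ← (k1 A hA).1]
    push_cast
    ring
  have r0 : (0 : ℝ) ≤ ρ := Nat.cast_nonneg _
  have k3 : ∀ A ∈ 𝒴, (κ A : ℝ) ≤ η * N := fun A hA => by
    have := k2 A hA
    have := (h1 A hA).lo
    split_ifs at * <;> linarith
  have k4 : (κ Y : ℝ) + ρ ≤ η0 * N := by
    have := k2 Y hY
    rw [if_pos rfl] at this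
    linarith
  have k5 : ∀ B ⊆ 𝒴, ∑ A ∈ B, (N - A.card) ≤ (∑ A ∈ B, κ A : ℕ) + ρ := fun B hB => by
    rw [sum_congr rfl fun A hA => k2 A (hB hA), sum_add_distrib, sum_ite_eq']
    push_cast
    split_ifs <;> linarith
  have k6 : W.card + ∑ A ∈ 𝒴, κ A = 𝒴.card * M := by
    have a1 := card_sdiff_add_card_eq_card UW
    rw [card_biUnion (t := id) fun A hA B hB h => h2 A hA B hB h] at a1
    have a2 := sum_congr rfl fun A hA => (k1 A hA).1
    rw [sum_add_distrib, sum_add_distrib, sum_ite_eq', if_pos hY, sum_const, smul_eq_mul] at a2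
    simp only [id] at a1
    omega
  have k7 : ∑ A ∈ 𝒴, gg H w A.card + ρ * ((1 - e / 20 - e / 100) * ((j + 4) * N ^ (j + 3))) ≤
      ∑ A ∈ 𝒴, gg H w (M - κ A) := by
    have a1 := fill (H := H) hc p p.z0.le p.zn h5 h6.le
    rw [show ((j : ℝ) + 4) * η0 = e / 20 by linarith [p.h0]] at a1
    have a2 : ∑ A ∈ 𝒴.erase Y, gg H w (M - κ A) = ∑ A ∈ 𝒴.erase Y, gg H w A.card :=
      sum_congr rfl fun A hA => by
        have := (k1 A (mem_of_mem_erase hA)).1
        rw [if_neg (ne_of_mem_erase hA)] at this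
        rw [show M - κ A = A.card by omega]
    rw [← add_sum_erase _ _ hY, ← add_sum_erase _ (fun A => gg H w (M - κ A)) hY,
      show M - κ Y = Y.card + ρ by have := (k1 Y hY).1; rw [if_pos rfl] at this; omega, a2]
    linarith
  obtain ⟨K, hK⟩ : ∃ K, K = ∑ A ∈ 𝒴, κ A := ⟨_, rfl⟩
  rw [← hK] at k6
  have K0 : (0 : ℝ) ≤ K := Nat.cast_nonneg _
  obtain ⟨P, hP⟩ : ∃ P, P = N ^ (j + 2) := ⟨_, rfl⟩
  rw [← hP] at gl
  have P0 : 0 < P := by rw [hP]; positivity
  have eU : N ^ (j + 3) = N * P := by rw [hP]; ring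
  have z1 := mul_le_mul_of_nonneg_right p.zn hN.le
  have z2 : η * N ≤ 0.001 * N := mul_le_mul_of_nonneg_right (by linarith [p.nd, p.d3]) hN.le
  have z3 := mul_pos p.z0 hN
  have y0 : (0 : ℝ) ≤ κ Y := Nat.cast_nonneg _
  have e1 := mul_le_mul_of_nonneg_left (k5 𝒴 Subset.rfl) P0.le
  have e2 : 0 ≤ ρ * (e * N * P) := by have := p.e0; positivity
  have e3 := mul_nonneg hj e2
  rw [eU] at k7
  rcases le_or_gt (2 * K) M with hK2 | hK2
  · obtain ⟨r, hr, hmax⟩ := 𝒴.exists_max_image κ ⟨Y, hY⟩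
    have b1 : κ r + ∑ A ∈ 𝒴.erase r, κ A = K := hK ▸ add_sum_erase _ _ hr
    obtain ⟨v, hv⟩ : ∃ v, v = κ r := ⟨_, rfl⟩
    obtain ⟨T, hT⟩ : ∃ T, T = ∑ A ∈ 𝒴.erase r, κ A := ⟨_, rfl⟩
    rw [← hv, ← hT] at b1
    rw [← hv] at hmax
    have v0 : (1 : ℝ) ≤ v := by rw [hv]; exact_mod_cast (k1 r hr).2
    have v1 : (v : ℝ) ≤ η * N := hv ▸ k3 r hr
    have b2 : 𝒴.card = (𝒴.erase r).card + 1 := (card_erase_add_one hr).symm
    have b3 : 1 ≤ T := by
      rcases (𝒴.erase r).eq_empty_or_nonempty with h | ⟨A, hA⟩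
      · rw [h, card_empty] at b2
        have := (k1 r hr).2
        rw [b2] at k6
        omega
      · exact hT ▸ (k1 A (mem_of_mem_erase hA)).2.trans
          (single_le_sum (fun _ _ => Nat.zero_le _) hA)
    have T0 : (1 : ℝ) ≤ T := by exact_mod_cast b3
    have b4 := cv_many (g := gg H w) (N := M) (t0 := M - 2 * v) (D := P)
      (fun t => le_trans (le_add_of_nonneg_right (Nat.cast_nonneg _)) (gg_shift w t)) p.w3 P0.le
      (fun t t1 t2 t3 => by
        have x1 : N - 2 * v ≤ t := by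
          rw [← Mc]; exact_mod_cast (by omega : (M : ℤ) - 2 * v ≤ t)
        have x2 : ((j : ℝ) + 4) * m ≤ 0.001 * N := by
          linarith [p.tm1, mul_le_mul_of_nonneg_right p.es hN.le]
        have x3 := gg_second (H := H) (j := j + 2) hc p.wp (m := m) (t := t)
          (L := N - (2 * v + (j + 4) * m)) (by linarith) (by push_cast; linarith) t2 t3
        have x4 := pow_lo hN.le (ε := 0.5) (by norm_num) (y := 2 * v + (j + 4) * m) (by linarith)
          (j + 2) (by
            have := mul_le_mul_of_nonneg_left v1 (show (0 : ℝ) ≤ j + 4 by linarith)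
            have := mul_le_mul_of_nonneg_right p.tn1 hN.le
            have := mul_le_mul_of_nonneg_right p.d3 hN.le
            have := mul_le_mul_of_nonneg_right p.es hN.le
            have := p.tm
            have : 0 ≤ ((j : ℝ) + 4) * m := by positivity
            push_cast
            linarith)
        have x5 := mul_le_mul (show (12 : ℝ) ≤ (j + 4) * (j + 3) by linarith [sq_nonneg (j : ℝ)]) x4 (by positivity)
          (by positivity)
        push_cast at x3
        rw [← hP] at x5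
        rw [show (j : ℝ) + 2 + 2 = j + 4 by ring, show (j : ℝ) + 2 + 1 = j + 3 by ring] at x3
        linarith) (Nat.dvd_mul_right _ _) κ (v := v) (by omega) (𝒴.erase r)
      (fun A hA => ⟨(k1 A (mem_of_mem_erase hA)).2, hmax A (mem_of_mem_erase hA)⟩) (by omega)
    have b5 : FF H w m W.card = (𝒴.erase r).card * gg H w M + gg H w (M - K) := by
      have x1 : W.card = M * (𝒴.erase r).card + (M - K) := by
        rw [b2, add_mul, mul_comm] at k6; omega
      have x2 : M - K < M := by omega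
      rw [FF, ← hM, x1, Nat.mul_add_div (by omega), Nat.mul_add_mod, Nat.div_eq_of_lt x2,
        Nat.mod_eq_of_lt x2, add_zero]
    have b6 := gl r (Q := η * N * v + η0 * N * ρ) (by have := p.n0; positivity) (by
        have x1 := mul_le_mul_of_nonneg_left v1 (z3.le.trans z1)
        have x2 := mul_le_mul z1 (show (ρ : ℝ) ≤ η * N by linarith) r0 (z3.le.trans z1)
        linarith) fun A hA => by
        have x1 : (κ A : ℝ) ≤ v := by exact_mod_cast hmax A hA
        have x2 : (0 : ℝ) ≤ κ A := Nat.cast_nonneg _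
        rw [k2 A hA]
        split_ifs with h
        · rw [h] at x1 ⊢
          have x3 := mul_le_mul k4 (show (κ Y : ℝ) + ρ ≤ v + ρ by linarith) (by linarith) z3.le
          have x4 := mul_le_mul_of_nonneg_right z1 (zero_le_one.trans v0)
          linarith
        · have x3 := mul_le_mul (k3 A hA) x1 x2 (z3.le.trans z1)
          have x4 := mul_nonneg z3.le r0
          linarith
    have b7 : (K : ℝ) = v + T := by rw [← b1]; push_cast; ring
    have b8 : (T : ℝ) + ρ ≤ N := by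
      have : 2 * (K : ℝ) ≤ N := by rw [← Mc]; exact_mod_cast hK2
      linarith
    have b9 : 16 * (j + 3) * (η * N * v + η0 * N * ρ) * N ^ (j + 1) *
        ∑ A ∈ 𝒴.erase r, (N - A.card) ≤ 0.5 * (v * T * P) + 0.3 * ((j + 4) * (ρ * (e * N * P))) := by
      have n0 := p.n0
      have x0 := p.z0
      have x1 := mul_le_mul_of_nonneg_left (k5 _ (erase_subset r 𝒴))
        (show 0 ≤ 16 * (j + 3) * (η * N * v + η0 * N * ρ) * N ^ (j + 1) by positivity)
      have x2 : (η * v + η0 * ρ) * (T + ρ) ≤ η * (v * T) + 0.014 * (ρ * (e * N)) := by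
        have y1 := mul_le_mul_of_nonneg_left v1 (show 0 ≤ η * ρ by positivity)
        have y2 := mul_le_mul_of_nonneg_left b8 (show 0 ≤ η0 * ρ by positivity)
        have y3 := mul_le_mul_of_nonneg_left p.nn (show 0 ≤ N * ρ by positivity)
        have y4 := mul_le_mul_of_nonneg_left p.ze (show 0 ≤ N * ρ by positivity)
        have y5 : 0 ≤ ρ * (e * N) := by have := p.e0; positivity
        linarith
      have x3 := mul_le_mul_of_nonneg_left x2 (show 0 ≤ 16 * (j + 3) * P by positivity)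
      have x4 := mul_le_mul_of_nonneg_right (show 16 * (((j : ℝ) + 3) * η) ≤ 0.5 by
        linarith [p.tn1, p.d3]) (show 0 ≤ v * T * P by positivity)
      rw [← hT] at x1
      rw [hP, pow_succ N (j + 1)] at *
      linarith
    have b10 := mul_le_mul_of_nonneg_right (show (v : ℝ) + T ≤ 2 * (v * T) by
      linarith [mul_le_mul_of_nonneg_left T0 (zero_le_one.trans v0),
        mul_le_mul_of_nonneg_right v0 (zero_le_one.trans T0)]) P0.le
    have b11 := mul_le_mul_of_nonneg_left (show 1 ≤ e * N by linarith [p.eN, p.m0])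
      (mul_nonneg r0 P0.le)
    have b12 : 0 ≤ v * T * P := by positivity
    rw [← hT, b1] at b4
    rw [← add_sum_erase _ (fun A => gg H w (M - κ A)) hr, ← hv] at k7
    rw [eU] at b6
    rw [b5]
    rw [← hK, b7] at e1
    linarith
  · have b0 : N < 2 * K := by rw [← Mc]; exact_mod_cast hK2
    have b1 := sum_le_sum fun A (hA : A ∈ 𝒴) => fill (H := H) hc p p.n0.le le_rfl (a := M - κ A)
      (u := κ A) (by
        rw [Nat.cast_sub (by have := (k1 A hA).1; omega), Mc]; linarith [k3 A hA])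
      (by have := (k1 A hA).1; omega)
    rw [sum_add_distrib, ← sum_mul, ← Nat.cast_sum, ← hK, sum_congr (s₁ := 𝒴)
      (f := fun A => gg H w (M - κ A + κ A)) (g := fun _ => gg H w M) rfl fun A hA => by
        rw [Nat.sub_add_cancel (by have := (k1 A hA).1; omega)], sum_const, nsmul_eq_mul, eU] at b1
    have b2 := gl Y (Q := η ^ 2 * N ^ 2) (by positivity) (by linarith [sq_nonneg (η * N)])
      fun A hA => by
        rw [← mul_pow]
        exact pow_le_pow_left₀ (sub_nonneg.2 (h3' A hA)) (by linarith [(h1 A hA).lo]) 2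
    have b3 : ∑ A ∈ 𝒴.erase Y, (N - A.card) ≤ 2 * K :=
      (sum_le_sum_of_subset_of_nonneg (erase_subset _ _) fun A hA _ =>
        sub_nonneg.2 (h3' A hA)).trans ((k5 𝒴 Subset.rfl).trans (by rw [← hK]; linarith))
    have b4 := mul_le_mul_of_nonneg_left b3
      (show 0 ≤ 16 * (j + 3) * (η ^ 2 * N ^ 2) * N ^ (j + 1) by positivity)
    have KU : 0 ≤ K * (N * P) := by positivity
    have b5 := mul_le_mul_of_nonneg_right (show 32 * ((j : ℝ) + 3) * η ^ 2 ≤ 0.1 by
      linarith [mul_le_mul (show ((j : ℝ) + 3) * η ≤ 0.001 by linarith [p.tn1, p.d3, p.n0])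
        (show η ≤ 1 by linarith [p.nd, p.d3]) p.n0.le (by norm_num)]) KU
    have b6 : 𝒴.card * gg H w M ≤ FF H w m W.card + 3 * (K * (N * P)) := by
      have x1 := gg_le (H := H) w M
      have x2 := gg_nonneg (H := H) w M
      have x3 := gg_nonneg (H := H) w (W.card % M)
      have x4 := Nat.lt_mul_div_succ W.card (show 0 < M by omega)
      have x5 : (𝒴.card : ℝ) * N ≤ N * ((W.card / M : ℕ) + 1) + K := by
        rw [← Mc]; exact_mod_cast (by omega : 𝒴.card * M ≤ M * (W.card / M + 1) + K)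
      rw [hc, Mc, show N ^ (j + 4) = N * (N * P) by rw [hP]; ring] at x1
      rw [FF, ← hM]
      rcases le_total (𝒴.card : ℝ) (W.card / M : ℕ) with h | h
      · linarith [mul_le_mul_of_nonneg_right h x2]
      · have x6 := mul_le_mul_of_nonneg_left x1 (sub_nonneg.2 h)
        have x7 := mul_le_mul_of_nonneg_right (show (𝒴.card - (W.card / M : ℕ)) * N ≤ 3 * K by
          linarith) (show 0 ≤ N * P by positivity)
        linarith
    have b7 := mul_le_mul (show (0.9 : ℝ) ≤ 1 - (j + 4) * η - e / 100 by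
      linarith [p.tn1, p.d3, p.es]) (show (4 : ℝ) ≤ j + 4 by linarith) (by norm_num)
      (by linarith [p.tn1, p.d3, p.es])
    have b8 := mul_le_mul_of_nonneg_right b7 KU
    have b9 := mul_le_mul_of_nonneg_left (show 1 ≤ N by linarith [p.N1, p.m0])
      (mul_nonneg K0 P0.le)
    have b10 := mul_le_mul_of_nonneg_left (show (ρ : ℝ) ≤ K by linarith) P0.le
    rw [show 16 * (j + 3) * (η ^ 2 * N ^ 2) * N ^ (j + 1) * (2 * K) =
      32 * ((j : ℝ) + 3) * η ^ 2 * (K * (N * P)) by rw [hP]; ring] at b4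
    rw [eU] at b2
    rw [← hK] at e1
    linarith

end Pool.Agent.GL2
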