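import Pool.Agent.P.MP_dfe42f_co.HfE

/-! From labelled copies to the final statement. -/

namespace Pool.Agent.GL2
open Finset Pool.Agent.GLT Function

set_option linter.unusedSectionVars false

variable {α : Type} [Fintype α] [DecidableEq α] {H : SimpleGraph α}

theorem two_nb {F : SimpleGraph α} {v : α} (h : (F.neighborSet v).ncard = 2) :
    ∃ a b, a ≠ b ∧ ∀ u, F.Adj v u ↔ u = a ∨ u = b := by
  obtain ⟨a, b, hab, e⟩ := Set.ncard_eq_two.1 h
  refine ⟨a, b, hab, fun u => ?_⟩
  rw [← SimpleGraph.mem_neighborSet, e]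
  simp

theorem exists_succ {c : α} {F : SimpleGraph α}
    (h2 : ∀ v, v ≠ c → (F.neighborSet v).ncard = 2) :
    ∃ σ : α → α, (∀ v, v ≠ c → F.Adj v (σ v)) ∧
      ∀ v u, v ≠ c → u ≠ c → s(v, σ v) = s(u, σ u) → v = u := by
  classical
  choose! a b hab hn using fun v hv => two_nb (h2 v hv)
  set t : {v // v ≠ c} → Finset (Sym2 α) := fun v => {s(v.1, a v.1), s(v.1, b v.1)} with ht
  have tc : ∀ v, (t v).card = 2 := fun v =>
    card_pair fun h => hab v.1 v.2 (Sym2.congr_right.1 h)
  have hall : ∀ S : Finset {v // v ≠ c}, S.card ≤ (S.biUnion t).card := by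
    intro S
    have h := dc_le (T := S) (U := S.biUnion t) t 2 (fun v hv => subset_biUnion_of_mem t hv)
      (fun e _ => by
        induction e using Sym2.ind with
        | h x y =>
          refine le_trans (card_le_card_of_injOn (t := {x, y}) Subtype.val (fun v hv => ?_)
            Subtype.val_injective.injOn) card_le_two
          have h1 := (mem_filter.1 (mem_coe.1 hv)).2
          have h3 : v.1 ∈ s(x, y) := by
            rcases mem_insert.1 h1 with h | h
            · rw [h]; exact Sym2.mem_mk_left _ _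
            · rw [mem_singleton.1 h]; exact Sym2.mem_mk_left _ _
          simpa using h3)
    simp only [tc, sum_const, nsmul_eq_mul] at h
    have h' : (S.card : ℝ) ≤ (S.biUnion t).card := by
      push_cast at h
      linarith
    exact_mod_cast h'
  obtain ⟨e, e1, e2⟩ := (all_card_le_biUnion_card_iff_exists_injective t).1 hall
  have h3 : ∀ v (hv : v ≠ c), ∃ u, F.Adj v u ∧ e ⟨v, hv⟩ = s(v, u) := by
    intro v hv
    rcases mem_insert.1 (e2 ⟨v, hv⟩) with h | h
    · exact ⟨a v, (hn v hv _).2 (Or.inl rfl), h⟩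
    · exact ⟨b v, (hn v hv _).2 (Or.inr rfl), mem_singleton.1 h⟩
  choose σ s1 s2 using h3
  refine ⟨fun v => if hv : v ≠ c then σ v hv else v, fun v hv => ?_, fun v u hv hu h => ?_⟩
  · simpa only [dif_pos hv] using s1 v hv
  · simp only [dif_pos hv, dif_pos hu] at h
    rw [← s2, ← s2] at h
    exact congrArg Subtype.val (e1 h)

/-- orient a two-factor of `H - c` (Hall on vertex-edge incidences: `v ↦ e v ∋ v` injective,
`s v` = other end of `e v`) -/
theorem exists_fac {c : α} (hc : ∀ v, v ≠ c → H.Adj c v) (hn : ∃ v, v ≠ c) {F : SimpleGraph α}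
    (hF : F ≤ H) (h0 : ∀ v, ¬ F.Adj c v) (h2 : ∀ v, v ≠ c → (F.neighborSet v).ncard = 2) :
    ∃ (s : Equiv.Perm α) (j : ℕ), Fac H c s ∧ Fintype.card α = j + 4 := by
  classical
  obtain ⟨σ, s1, s2⟩ := exists_succ h2
  have s3 : ∀ v, v ≠ c → σ v ≠ c := fun v hv h => h0 v (h ▸ (s1 v hv).symm)
  have s4 : ∀ v, v ≠ c → σ (σ v) ≠ v := fun v hv h =>
    (s1 v hv).ne (s2 v (σ v) hv (s3 v hv) (by rw [h, Sym2.eq_swap]))
  have s5 : ∀ v u, v ≠ c → u ≠ c → σ v = σ u → v = u := by
    intro v u hv hu h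
    by_contra hne
    have hx := s3 v hv
    obtain ⟨a, b, -, hab⟩ := two_nb (h2 _ hx)
    have p1 := (hab v).1 (s1 v hv).symm
    have p2 := (hab u).1 (h ▸ (s1 u hu).symm)
    have p3 := (hab _).1 (s1 _ hx)
    have p4 := s4 v hv
    have p5 : σ (σ v) ≠ u := h ▸ s4 u hu
    rcases p1 with p1 | p1 <;> rcases p2 with p2 | p2 <;> rcases p3 with p3 | p3 <;>
      first
      | exact hne (p1.trans p2.symm)
      | exact p4 (p3.trans p1.symm)
      | exact p5 (p3.trans p2.symm)
  set τ : α → α := fun v => if v = c then c else σ v with hτ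
  have t1 : ∀ v, v ≠ c → τ v = σ v := fun v hv => if_neg hv
  have t0 : τ c = c := if_pos rfl
  have inj : Injective τ := by
    intro v u h
    by_cases hv : v = c <;> by_cases hu : u = c
    · rw [hv, hu]
    · rw [hv, t0, t1 u hu] at h
      exact absurd h.symm (s3 u hu)
    · rw [hu, t0, t1 v hv] at h
      exact absurd h (s3 v hv)
    · rw [t1 v hv, t1 u hu] at h
      exact s5 v u hv hu h
  have h4 : 4 ≤ Fintype.card α := by
    obtain ⟨v, hv⟩ := hn
    obtain ⟨a, b, hab, h⟩ := two_nb (h2 v hv)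
    have ha := (h a).2 (Or.inl rfl)
    have hb := (h b).2 (Or.inr rfl)
    have ac : c ≠ a := fun e => h0 v (e ▸ ha.symm)
    have bc : c ≠ b := fun e => h0 v (e ▸ hb.symm)
    have : ({c, v, a, b} : Finset α).card = 4 := by
      rw [card_insert_of_notMem (by simp [hv.symm, ac, bc]),
        card_insert_of_notMem (by simp [ha.ne, hb.ne]), card_pair hab]
    rw [← this]
    exact card_le_univ _
  refine ⟨Equiv.ofBijective τ (Finite.injective_iff_bijective.1 inj), Fintype.card α - 4,
    ⟨hc, t0, fun v hv => ?_, fun v hv => ?_⟩, by omega⟩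
  · change H.Adj v (τ v)
    rw [t1 v hv]
    exact hF (s1 v hv)
  · change τ (τ v) ≠ v
    rw [t1 v hv, t1 _ (s3 v hv)]
    exact s4 v hv

theorem sub_adj {V : Type} {G : SimpleGraph V} (f : H.Copy G) (i j : α) :
    f.toSubgraph.Adj (f i) (f j) ↔ H.Adj i j := by
  constructor
  · rintro ⟨a, b, h, h1, h2⟩
    rw [← f.injective h1, ← f.injective h2]
    exact h
  · exact fun h => ⟨i, j, h, rfl, rfl⟩

theorem fib_card {V : Type} {G : SimpleGraph V} (f0 : H.Copy G) :
    Nat.card {f : H.Copy G // f.toSubgraph = f0.toSubgraph} = Nat.card (H ≃g H) := by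
  symm
  refine Nat.card_congr (Equiv.ofBijective (fun a => ⟨f0.comp a.toCopy, ?_⟩) ⟨?_, ?_⟩)
  · ext x y
    · constructor
      · rintro ⟨i, -, rfl⟩
        exact ⟨a i, trivial, rfl⟩
      · rintro ⟨i, -, rfl⟩
        obtain ⟨k, rfl⟩ := a.surjective i
        exact ⟨k, trivial, rfl⟩
    · constructor
      · rintro ⟨i, j, h, rfl, rfl⟩
        exact ⟨a i, a j, a.map_rel_iff.2 h, rfl, rfl⟩
      · rintro ⟨i, j, h, rfl, rfl⟩
        obtain ⟨k, rfl⟩ := a.surjective i
        obtain ⟨l, rfl⟩ := a.surjective j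
        exact ⟨k, l, a.map_rel_iff.1 h, rfl, rfl⟩
  · intro a b h
    refine RelIso.ext fun i => f0.injective ?_
    exact congrArg (fun f : {f : H.Copy G // f.toSubgraph = f0.toSubgraph} => f.1 i) h
  · rintro ⟨f, hf⟩
    have h1 : ∀ i, ∃ k, f0 k = f i := by
      intro i
      have : f i ∈ f.toSubgraph.verts := ⟨i, trivial, rfl⟩
      rw [hf] at this
      obtain ⟨k, -, hk⟩ := this
      exact ⟨k, hk⟩
    choose a ha using h1
    have inj : Injective a := fun i j h => f.injective (by
      change f i = f j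
      rw [← ha, ← ha, h])
    refine ⟨⟨Equiv.ofBijective a (Finite.injective_iff_bijective.1 inj), fun {i j} => ?_⟩,
      Subtype.ext (SimpleGraph.Copy.ext ha)⟩
    change H.Adj (a i) (a j) ↔ H.Adj i j
    rw [← sub_adj f0, ← sub_adj f, ha, ha, hf]

theorem emb_copy {V : Type} [Fintype V] [DecidableEq V] (G : SimpleGraph V) :
    (emb H G univ).card = G.copyCount H * Nat.card (H ≃g H) := by
  classical
  have h1 : (univ : Finset (H.Copy G)).card = (emb H G univ).card := by
    refine card_bij (fun f _ => (f : α → V)) (fun f _ => mem_emb.2 ⟨fun _ => mem_univ _,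
      f.injective, fun i j h => f.toHom.map_rel h⟩) (fun f _ g _ h => DFunLike.coe_injective h)
      fun φ hφ => ?_
    obtain ⟨-, p1, p2⟩ := mem_emb.1 hφ
    exact ⟨⟨⟨φ, fun {i j} h => p2 i j h⟩, p1⟩, mem_univ _, rfl⟩
  rw [← h1, SimpleGraph.copyCount_eq_card_image_copyToSubgraph,
    card_eq_sum_card_image SimpleGraph.Copy.toSubgraph, ← smul_eq_mul, ← sum_const]
  refine sum_congr rfl fun G' hG' => ?_
  obtain ⟨f0, -, rfl⟩ := mem_image.1 hG'
  rw [← fib_card f0, Nat.card_eq_fintype_card, Fintype.card_subtype]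

theorem gg_turan (w n : ℕ) :
    gg H w n = ((emb H (SimpleGraph.turanGraph n w) univ).card : ℝ) := by
  unfold gg
  congr 1
  symm
  refine card_bij (fun φ _ i => (φ i).val) (fun φ hφ => ?_)
    (fun φ _ ψ _ h => funext fun i => Fin.ext (congrFun h i)) fun ψ hψ => ?_
  · obtain ⟨-, p1, p2⟩ := mem_emb.1 hφ
    exact mem_emb.2 ⟨fun i => mem_range.2 (φ i).2, fun i j h => p1 (Fin.ext h),
      fun i j h => p2 i j h⟩
  · obtain ⟨p0, p1, p2⟩ := mem_emb.1 hψ
    exact ⟨fun i => ⟨ψ i, mem_range.1 (p0 i)⟩, mem_emb.2 ⟨fun _ => mem_univ _,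
      fun i j h => p1 (congrArg Fin.val h), fun i j h => p2 i j h⟩, rfl⟩

theorem blocks_emb [Nonempty α] {w m : ℕ} (hw : 0 < w) (hm : 0 < m) (n : ℕ) :
    FF H w m n ≤ ((emb H (blocks n (w * m) w) univ).card : ℝ) := by
  unfold FF
  set N := w * m with hNd
  have hN : 0 < N := Nat.mul_pos hw hm
  set B : ℕ → Finset (Fin n) := fun i => univ.filter fun v => v.val / N = i with hB
  have key : ∀ i s, s ≤ N → N * i + s ≤ n →
      gg H w s ≤ ((emb H (blocks n N w) (B i)).card : ℝ) := by
    intro i s hs hn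
    have hdiv : ∀ v : Fin s, (N * i + v.val) / N = i := fun v => by
      rw [Nat.mul_add_div hN, Nat.div_eq_of_lt (by omega), add_zero]
    rw [gg_turan]
    refine Nat.cast_le.2 (emb_map (fun v : Fin s => (⟨N * i + v.val, by omega⟩ : Fin n))
      (fun a _ b _ h => Fin.ext ?_) (fun u _ => mem_filter.2 ⟨mem_univ _, hdiv u⟩)
      fun a _ b _ h => And.intro ?_ ?_)
    · have := congrArg Fin.val h
      simp only at this
      omega
    · exact (hdiv a).trans (hdiv b).symm
    · change (N * i + a.val) % w ≠ (N * i + b.val) % w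
      rw [hNd, mul_assoc, Nat.mul_add_mod, Nat.mul_add_mod]
      exact h
  have hdis : ((range (n / N + 1) : Finset ℕ) : Set ℕ).PairwiseDisjoint
      fun i => emb H (blocks n N w) (B i) := by
    intro a _ b _ hab
    refine disjoint_left.2 fun φ h1 h2 => hab ?_
    obtain ⟨u⟩ := ‹Nonempty α›
    exact (mem_filter.1 ((mem_emb.1 h1).1 u)).2.symm.trans (mem_filter.1 ((mem_emb.1 h2).1 u)).2
  refine le_trans ?_ (Nat.cast_le.2 (card_le_card (biUnion_subset.2
    fun i (_ : i ∈ range (n / N + 1)) => emb_mono (subset_univ (B i)))))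
  rw [card_biUnion hdis, sum_range_succ, Nat.cast_add, Nat.cast_sum]
  refine add_le_add ?_ (key _ _ (Nat.mod_lt _ hN).le (Nat.div_add_mod n N).le)
  refine le_trans (by simp) (sum_le_sum (f := fun _ => gg H w N) fun i hi =>
    key i N le_rfl ?_)
  have h1 : N * (i + 1) ≤ N * (n / N) := Nat.mul_le_mul_left _ (mem_range.1 hi)
  exact h1.trans (Nat.mul_div_le n N)

theorem finish [Nonempty α] {w m n : ℕ} (hw : 0 < w) (hm : 0 < m)
    (up : ∀ G : SimpleGraph (Fin n), G.CliqueFree (w + 1) →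
      (∀ B v, (nb G B v).card ≤ (w - 1) * m) → ((emb H G univ).card : ℝ) ≤ FF H w m n) :
    IsGreatest {k | ∃ G : SimpleGraph (Fin n), G.CliqueFree (w + 1) ∧
        (∀ v, (G.neighborSet v).ncard ≤ (w - 1) * m) ∧ G.copyCount H = k}
      (n / (w * m) * (SimpleGraph.turanGraph (w * m) w).copyCount H +
        (SimpleGraph.turanGraph (n % (w * m)) w).copyCount H) := by
  have fin : Finite (H ≃g H) := Finite.of_injective _ DFunLike.coe_injective
  have A0 : 0 < Nat.card (H ≃g H) := Nat.card_pos_iff.2 ⟨⟨RelIso.refl _⟩, fin⟩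
  have hF : FF H w m n = (((n / (w * m) * (SimpleGraph.turanGraph (w * m) w).copyCount H +
      (SimpleGraph.turanGraph (n % (w * m)) w).copyCount H) * Nat.card (H ≃g H) : ℕ) : ℝ) := by
    unfold FF
    rw [gg_turan, gg_turan, emb_copy, emb_copy]
    push_cast
    ring
  have up' : ∀ G : SimpleGraph (Fin n), G.CliqueFree (w + 1) →
      (∀ v, (G.neighborSet v).ncard ≤ (w - 1) * m) → G.copyCount H ≤
        n / (w * m) * (SimpleGraph.turanGraph (w * m) w).copyCount H +
          (SimpleGraph.turanGraph (n % (w * m)) w).copyCount H := by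
    intro G h1 h2
    have h3 := up G h1 fun B v => by
      refine le_trans ?_ (h2 v)
      rw [← Set.ncard_coe_finset]
      exact Set.ncard_le_ncard (fun u hu => (mem_nb.1 hu).2) (Set.toFinite _)
    rw [hF, emb_copy] at h3
    exact Nat.le_of_mul_le_mul_right (Nat.cast_le.1 h3) A0
  refine ⟨⟨blocks n (w * m) w, blocks_free hw _ _, blocks_deg hw hm n, ?_⟩, ?_⟩
  · refine le_antisymm (up' _ (blocks_free hw _ _) (blocks_deg hw hm n)) ?_
    have h3 := blocks_emb (H := H) hw hm n
    rw [hF, emb_copy] at h3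
    exact Nat.le_of_mul_le_mul_right (Nat.cast_le.1 h3) A0
  · rintro k ⟨G, h1, h2, rfl⟩
    exact up' G h1 h2

end Pool.Agent.GL2
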