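import Pool.Agent.P.MP_dfe42f_co.HfL
import Pool.Agent.P.MP_dfe42f_co.HfG
import Pool.Agent.P.MP_dfe42f_co.HfY

/-! The induction and the main theorem. -/

namespace Pool.Agent.GL2
open Finset Pool.Agent.GLT Function

set_option linter.unusedSectionVars false

variable {α V : Type} [Fintype α] [DecidableEq α] [DecidableEq V]
variable {H : SimpleGraph α} {G : SimpleGraph V} {j : ℕ} {c : α} {s : Equiv.Perm α}
  {N δ : ℝ} {W : Finset V} {w m : ℕ} {e η τ η0 : ℝ}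

theorem spot_case (f : Fac H c s) (hc : Fintype.card α = j + 4) (p : Pr j w m N δ e η τ η0)
    (q : Gd G w (N - m)) (hW : w * m ≤ W.card) {X : Finset V} (hX : X ⊆ W)
    (hs : Spot G N (δ * η0 / 3) X) :
    (∃ S ⊆ W, S.card = w * m ∧ ((hit H G W S).card : ℝ) ≤ gg H w (w * m)) ∨
      ((emb H G W).card : ℝ) ≤ FF H w m W.card := by
  classical
  have hN := p.N0
  have hD := p.deg q
  have d0 := p.d0
  have z0 := p.z0
  obtain ⟨Y, k0, -⟩ := spot_cl hD hN d0 (by linarith [p.d3]) hX (η' := η0) (by positivity) (by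
    have := mul_le_mul_of_nonneg_left (show 2 * η0 ≤ δ by linarith [p.zn, p.nd]) d0.le
    have := mul_pos d0 z0
    linarith) (by linarith) hs
  obtain ⟨𝒴, y1, y2, y3, y4⟩ := family f hc p hD (k0.mono hN.le p.zn)
  by_cases hb : ∃ A ∈ 𝒴, w * m ≤ A.card
  · obtain ⟨A, a1, a2⟩ := hb
    obtain ⟨S, s1, s2⟩ := exists_subset_card_eq a2
    exact Or.inl ⟨S, s1.trans (y2 A a1).sub, s2,
      (Nat.cast_le.2 (card_le_card (hit_mono s1))).trans (big f hc p q (y2 A a1) a2)⟩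
  push Not at hb
  obtain ⟨u, hu⟩ := Nat.exists_eq_add_of_le (hb Y y1).le
  set L := (W \ Y).filter fun z =>
    ((hit H G W {z}).card : ℝ) ≤ (1 - e) * ((j + 4) * N ^ (j + 3)) with hL
  rcases le_or_gt u L.card with h | h
  · refine Or.inl (caseI f hc p q k0 (by have := hb Y y1; omega) hu.symm (filter_subset _ _) h
      (fun z hz => (mem_filter.1 hz).2) fun z hz => ?_)
    obtain ⟨z1, z2⟩ := mem_sdiff.1 hz
    exact high_out p (k0.mono hN.le p.zn) z1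
      (high_spot f hc hD hN (not_le.1 fun h => z2 (mem_filter.2 ⟨z1, h⟩)))
  · have h4 : ∀ z ∈ W \ 𝒴.biUnion id, z ∈ L := fun z hz => by
      obtain ⟨z1, z2⟩ := mem_sdiff.1 hz
      have z3 : ∀ A ∈ 𝒴, z ∉ A := fun A hA h => z2 (mem_biUnion.2 ⟨A, hA, h⟩)
      exact mem_filter.2 ⟨mem_sdiff.2 ⟨z1, z3 Y y1⟩, y4 z z1 z3⟩
    refine Or.inr (caseII f hc p q y2 y3 hb (fun z hz => (mem_filter.1 (h4 z hz)).2) y1 k0.lo ?_ hW)
    have := card_le_card (show W \ 𝒴.biUnion id ⊆ L from h4)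
    omega

theorem upper (f : Fac H c s) (hc : Fintype.card α = j + 4) (p : Pr j w m N δ e η τ η0)
    (hG : G.CliqueFree (w + 1)) (q : Gd G w (N - m))
    (hB : ∀ W : Finset V, w * m ≤ W.card → (∀ X ⊆ W, ¬ Spot G N (δ * η0 / 3) X) →
      ((emb H G W).card : ℝ) ≤ FF H w m W.card) (n : ℕ) : ∀ W : Finset V, W.card = n →
    ((emb H G W).card : ℝ) ≤ FF H w m n := by
  induction n using Nat.strong_induction_on with
  | _ n ih =>
  intro W hW
  have hN : 0 < w * m := Nat.mul_pos p.wp p.m1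
  rcases lt_or_ge n (w * m) with hn | hn
  · rw [FF, Nat.div_eq_of_lt hn, Nat.mod_eq_of_lt hn, Nat.cast_zero, zero_mul, zero_add, ← hW]
    exact zyk1 f hc p.w2 W G hG
  by_cases hs : ∃ X ⊆ W, Spot G N (δ * η0 / 3) X
  · obtain ⟨X, hX, hs⟩ := hs
    rcases spot_case f hc p q (hW ▸ hn) hX hs with ⟨S, s1, s2, s3⟩ | h
    · have a1 := card_sdiff_add_card_eq_card s1
      have a2 := ih (n - w * m) (by omega) (W \ S) (by omega)
      rw [FF] at a2
      rw [emb_split W S, FF, Nat.div_eq_sub_div hN hn, Nat.mod_eq_sub_mod hn]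
      push_cast at a2 ⊢
      linarith
    · exact hW ▸ h
  · push Not at hs
    exact hW ▸ hB W (hW ▸ hn) hs

theorem exists_pr (j : ℕ) : ∃ δ e η τ η0 : ℝ, 0 < δ * η0 / 3 ∧ δ * η0 / 3 ≤ 1 ∧ ∃ w0 : ℕ,
    ∀ w ≥ w0, ∀ m ≥ 1, Pr j w m (w * m) δ e η τ η0 := by
  have hj : (0 : ℝ) ≤ j := Nat.cast_nonneg _
  obtain ⟨t, ht⟩ : ∃ t : ℝ, t = j + 4 := ⟨_, rfl⟩
  have t0 : 0 < t := by linarith
  obtain ⟨δ, hδ⟩ : ∃ δ : ℝ, δ = 1 / (1000 * t ^ 2) := ⟨_, rfl⟩
  have d0 : 0 < δ := by rw [hδ]; positivity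
  obtain ⟨e, he⟩ : ∃ e : ℝ, e = δ ^ 4 / (10000 * t ^ 2) := ⟨_, rfl⟩
  have e0 : 0 < e := by rw [he]; positivity
  have key : ∀ w ≥ ⌈100 * t ^ 2 / e⌉₊ + 300 * (j + 4) ^ 4, ∀ m ≥ 1,
      Pr j w m (w * m) δ e (3 * t * e / δ) (12 * (3 * t * e / δ) / δ) (e / (20 * t)) := by
    intro w hw m hm
    have w1 : 100 * t ^ 2 / e ≤ w := (Nat.le_ceil _).trans (Nat.cast_le.2 (by omega))
    refine ⟨rfl, hm, d0, ?_, e0, ?_, ?_, by field_simp, ?_, ?_, by omega⟩ <;> rw [← ht]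
    · rw [hδ]; exact le_of_eq (by field_simp)
    · rw [he]; exact le_of_eq (by field_simp)
    · field_simp

    · field_simp
    · exact (div_le_iff₀ e0).1 w1
  have p := key _ le_rfl 1 le_rfl
  refine ⟨δ, e, _, _, _, by have := p.z0; positivity, ?_, _, key⟩
  have := mul_le_mul (show δ ≤ 1 by linarith [p.d3])
    (show e / (20 * t) ≤ 1 by linarith [p.ze, p.es]) p.z0.le zero_le_one
  linarith

theorem main {c : α} (hc : ∀ v, v ≠ c → H.Adj c v) (hn : ∃ v, v ≠ c) {F : SimpleGraph α}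
    (hF : F ≤ H) (h0 : ∀ v, ¬ F.Adj c v) (h2 : ∀ v, v ≠ c → (F.neighborSet v).ncard = 2) :
    ∃ w0 : ℕ, ∀ w ≥ w0, ∀ m ≥ 1, ∀ n : ℕ,
      IsGreatest {k | ∃ G : SimpleGraph (Fin n), G.CliqueFree (w + 1) ∧
          (∀ v, (G.neighborSet v).ncard ≤ (w - 1) * m) ∧ G.copyCount H = k}
        (n / (w * m) * (SimpleGraph.turanGraph (w * m) w).copyCount H +
          (SimpleGraph.turanGraph (n % (w * m)) w).copyCount H) := by
  have : Nonempty α := ⟨c⟩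
  obtain ⟨s, j, f, hj⟩ := exists_fac hc hn hF h0 h2
  obtain ⟨δ, e, η, τ, η0, a1, a2, w1, a3⟩ := exists_pr j
  obtain ⟨w2, a4⟩ := lemB f hj a1 a2
  refine ⟨w1 + w2, fun w hw m hm n => ?_⟩
  have p := a3 w (by omega) m hm
  refine finish p.wp hm fun G g1 g2 => upper f hj p g1 ⟨clq_of_free g1, fun B v => ?_⟩
    (a4 w (by omega) m hm _ G g2) n univ (by simp)
  have h1 : ((nb G B v).card : ℝ) ≤ ((w - 1) * m : ℕ) := Nat.cast_le.2 (g2 B v)
  rw [Nat.cast_mul, Nat.cast_sub p.wp] at h1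
  push_cast at h1
  linarith

end Pool.Agent.GL2
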