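import Pool.Agent.P.MP_dfe42f_co.HfE

/-! A dominating vertex whose link has no isolated vertex. -/

namespace Pool.Agent.GL3
open Finset Pool.Agent.GLT Pool.Agent.GL2 Function

variable {α : Type} [Fintype α] [DecidableEq α]

/-- a dominating vertex `c` and, for every other vertex, a chosen neighbour different from `c` -/
structure Lnk (H : SimpleGraph α) (c : α) (s : α → α) : Prop where
  dom : ∀ v, v ≠ c → H.Adj c v
  adj : ∀ v, v ≠ c → H.Adj v (s v)
  sc : ∀ v, v ≠ c → s v ≠ c

end Pool.Agent.GL3
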