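import Pool.Agent.P.MP_dfe42f_co.HgA

/-! Section B, definitions: every vertex has mass `ν`. -/

namespace Pool.Agent.GL3
open Finset

variable {V : Type} [DecidableEq V]

open Classical in
/-- adjacency indicator -/
noncomputable def ad (G : SimpleGraph V) (x y : V) : ℝ := if G.Adj x y then 1 else 0

/-- integral over `W` -/
noncomputable def mS (ν : ℝ) (W : Finset V) (f : V → ℝ) : ℝ := ν * ∑ x ∈ W, f x

/-- degree -/
noncomputable def dN (G : SimpleGraph V) (ν : ℝ) (W : Finset V) (x : V) : ℝ :=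
  mS ν W fun y => ad G x y

/-- codegree -/
noncomputable def cN (G : SimpleGraph V) (ν : ℝ) (W : Finset V) (x y : V) : ℝ :=
  mS ν W fun z => ad G x z * ad G y z

/-- rooted triangles -/
noncomputable def tN (G : SimpleGraph V) (ν : ℝ) (W : Finset V) (x : V) : ℝ :=
  mS ν W fun y => ad G x y * cN G ν W x y

/-- excess codegree above `b` -/
noncomputable def eN (G : SimpleGraph V) (ν : ℝ) (W : Finset V) (b : ℝ) (x : V) : ℝ :=
  mS ν W fun y => ad G x y * max (cN G ν W x y - b) 0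

variable {G : SimpleGraph V} {ν : ℝ} {W : Finset V}

omit [DecidableEq V] in
theorem ad_symm (x y : V) : ad G x y = ad G y x := by
  unfold ad
  rw [G.adj_comm]

omit [DecidableEq V] in
theorem ad_nonneg (x y : V) : 0 ≤ ad G x y := by
  unfold ad; split_ifs <;> norm_num

omit [DecidableEq V] in
theorem ad_le_one (x y : V) : ad G x y ≤ 1 := by
  unfold ad; split_ifs <;> norm_num

omit [DecidableEq V] in
theorem ad_cases (x y : V) : (G.Adj x y ∧ ad G x y = 1) ∨ (¬ G.Adj x y ∧ ad G x y = 0) := by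
  unfold ad; split_ifs with h <;> simp [h]

omit [DecidableEq V] in
theorem mS_nonneg (hν : 0 ≤ ν) {f : V → ℝ} (h : ∀ x ∈ W, 0 ≤ f x) : 0 ≤ mS ν W f :=
  mul_nonneg hν (sum_nonneg h)

omit [DecidableEq V] in
theorem mS_le (hν : 0 ≤ ν) {f g : V → ℝ} (h : ∀ x ∈ W, f x ≤ g x) : mS ν W f ≤ mS ν W g :=
  mul_le_mul_of_nonneg_left (sum_le_sum h) hν

omit [DecidableEq V] in
theorem mS_congr {f g : V → ℝ} (h : ∀ x ∈ W, f x = g x) : mS ν W f = mS ν W g := by
  rw [mS, mS, sum_congr rfl h]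

omit [DecidableEq V] in
theorem mS_add (f g : V → ℝ) : (mS ν W fun x => f x + g x) = mS ν W f + mS ν W g := by
  simp only [mS, sum_add_distrib, mul_add]

omit [DecidableEq V] in
theorem mS_sub (f g : V → ℝ) : (mS ν W fun x => f x - g x) = mS ν W f - mS ν W g := by
  simp only [mS, sum_sub_distrib, mul_sub]

omit [DecidableEq V] in
theorem mS_mul (c : ℝ) (f : V → ℝ) : (mS ν W fun x => c * f x) = c * mS ν W f := by
  simp only [mS, ← mul_sum]; ring

omit [DecidableEq V] in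
theorem mS_mul' (c : ℝ) (f : V → ℝ) : (mS ν W fun x => f x * c) = mS ν W f * c := by
  simp only [mS, ← sum_mul]; ring

omit [DecidableEq V] in
theorem mS_const (c : ℝ) : (mS ν W fun _ => c) = ν * W.card * c := by
  simp only [mS, sum_const, nsmul_eq_mul]; ring

omit [DecidableEq V] in
theorem mS_comm (W' : Finset V) (f : V → V → ℝ) :
    (mS ν W fun x => mS ν W' fun y => f x y) = mS ν W' fun y => mS ν W fun x => f x y := by
  simp only [mS, ← mul_sum]
  rw [sum_comm]

theorem mS_sdiff {S : Finset V} (h : S ⊆ W) (f : V → ℝ) :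
    mS ν W f = mS ν S f + mS ν (W \ S) f := by
  rw [mS, mS, mS, ← sum_sdiff h]; ring

omit [DecidableEq V] in
theorem mS_mono (hν : 0 ≤ ν) {S : Finset V} (h : S ⊆ W) {f : V → ℝ} (hf : ∀ x ∈ W, 0 ≤ f x) :
    mS ν S f ≤ mS ν W f :=
  mul_le_mul_of_nonneg_left (sum_le_sum_of_subset_of_nonneg h fun x hx _ => hf x hx) hν

omit [DecidableEq V] in
theorem dN_nonneg (hν : 0 ≤ ν) (x : V) : 0 ≤ dN G ν W x :=
  mS_nonneg hν fun _ _ => ad_nonneg _ _

omit [DecidableEq V] in
theorem cN_nonneg (hν : 0 ≤ ν) (x y : V) : 0 ≤ cN G ν W x y :=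
  mS_nonneg hν fun _ _ => mul_nonneg (ad_nonneg _ _) (ad_nonneg _ _)

omit [DecidableEq V] in
theorem cN_symm (x y : V) : cN G ν W x y = cN G ν W y x :=
  mS_congr fun _ _ => mul_comm _ _

omit [DecidableEq V] in
theorem cN_le (hν : 0 ≤ ν) (x y : V) : cN G ν W x y ≤ dN G ν W x :=
  mS_le hν fun _ _ => mul_le_of_le_one_right (ad_nonneg _ _) (ad_le_one _ _)

omit [DecidableEq V] in
theorem tN_nonneg (hν : 0 ≤ ν) (x : V) : 0 ≤ tN G ν W x :=
  mS_nonneg hν fun _ _ => mul_nonneg (ad_nonneg _ _) (cN_nonneg hν _ _)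

omit [DecidableEq V] in
theorem tN_le (hν : 0 ≤ ν) (x : V) : tN G ν W x ≤ dN G ν W x ^ 2 := by
  refine (mS_le hν fun y _ => mul_le_mul_of_nonneg_left (cN_le hν x y) (ad_nonneg x y)).trans ?_
  rw [mS_mul', sq, dN]

omit [DecidableEq V] in
theorem eN_nonneg (hν : 0 ≤ ν) (b : ℝ) (x : V) : 0 ≤ eN G ν W b x :=
  mS_nonneg hν fun _ _ => mul_nonneg (ad_nonneg _ _) (le_max_right _ _)

end Pool.Agent.GL3
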