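import Pool.Agent.P.MP_dfe42f_co.HgB1

/-! Section B: a checker for certificates on patterns with at most four vertices. -/

namespace Pool.Agent.GL3
open Finset

/-- value of an integer polynomial -/
noncomputable def ev (τ : ℝ) : List ℤ → ℝ
  | [] => 0
  | a :: l => a + τ * ev τ l

/-- sum -/
def pa : List ℤ → List ℤ → List ℤ
  | [], q => q
  | a :: p, [] => a :: p
  | a :: p, b :: q => (a + b) :: pa p q

/-- scalar multiple -/
def ps (z : ℤ) (p : List ℤ) : List ℤ := if z = 0 then [] else p.map (z * ·)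

/-- product -/
def pm : List ℤ → List ℤ → List ℤ
  | [], _ => []
  | a :: p, q => pa (ps a q) (0 :: pm p q)

/-- non-negative coefficients -/
def nn (p : List ℤ) : Bool := p.all fun a => decide (0 ≤ a)

/-- table entry -/
def tb (T : List ℕ) (k : ℕ) : List ℤ := T.map fun n => Int.ofNat ((n >>> (24 * k)) % 16777216)

variable {τ : ℝ}

theorem ev_nil : ev τ [] = 0 := rfl

theorem ev_one (a : ℤ) : ev τ [a] = a := by simp [ev]

theorem ev_pa (p q : List ℤ) : ev τ (pa p q) = ev τ p + ev τ q := by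
  induction p generalizing q with
  | nil => simp [pa, ev]
  | cons a p ih =>
    cases q with
    | nil => simp [pa, ev]
    | cons b q => simp only [pa, ev, ih]; push_cast; ring

theorem ev_ps (z : ℤ) (p : List ℤ) : ev τ (ps z p) = z * ev τ p := by
  unfold ps
  split_ifs with h
  · simp [h, ev]
  · induction p with
    | nil => simp [ev]
    | cons a p ih => simp only [List.map, ev, ih]; push_cast; ring

theorem ev_pm (p q : List ℤ) : ev τ (pm p q) = ev τ p * ev τ q := by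
  induction p with
  | nil => simp [pm, ev]
  | cons a p ih => simp only [pm, ev_pa, ev_ps, ev, ih]; push_cast; ring

theorem ev_nn (hτ : 0 ≤ τ) {p : List ℤ} (h : nn p = true) : 0 ≤ ev τ p := by
  induction p with
  | nil => simp [ev]
  | cons a p ih =>
    simp only [nn, List.all_cons, Bool.and_eq_true, decide_eq_true_eq] at h
    exact add_nonneg (by exact_mod_cast h.1) (mul_nonneg hτ (ih h.2))

theorem ev_tb (hτ : 0 ≤ τ) (T : List ℕ) (k : ℕ) : 0 ≤ ev τ (tb T k) :=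
  ev_nn hτ (by
    simp only [nn, tb, List.all_map, List.all_eq_true, Function.comp, decide_eq_true_eq]
    exact fun _ _ => Int.natCast_nonneg _)

/-- indicator of a non-zero type -/
def nz (n : ℕ) : ℤ := if n = 0 then 0 else 1
/-- sign of `d - b` -/
def sL (c : ℕ) : ℤ := if c < 2 then 1 else -1
/-- sign of `t - b ^ 2` -/
def sT (md c : ℕ) : ℤ := if md = 0 then (if c = 0 then 1 else -1) else 0
/-- sign of `co - b` -/
def sC (md e : ℕ) : ℤ := if md = 0 then 0 else if e = 2 then 1 else if e = 1 then -1 else 0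
/-- degree cap -/
def pu (md : ℕ) : List ℤ := if md = 0 then [1, 1] else [1, 20]
/-- threshold -/
def pb (md : ℕ) : List ℤ := if md = 0 then [0, 1] else [0, 13]
/-- constant part of a vertex factor -/
def al1 (md i c : ℕ) : List ℤ := if i = 0 then [1] else if i = 1 then pu md else ps (-sL c) (pb md)
/-- linear part of a vertex factor -/
def bt1 (i c a : ℕ) : ℤ := if i = 0 then 0 else if i = 1 then -nz a else sL c * nz a
/-- constant part of a pair factor -/
def al2 (md i c0 c1 e : ℕ) : List ℤ :=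
  if i < 3 then al1 md i c0 else if i < 5 then al1 md (i - 2) c1 else ps (-sC md e) (pb md)
/-- linear part of a pair factor -/
def bt2 (md i c0 c1 e a0 a1 : ℕ) : ℤ :=
  if i < 3 then bt1 i c0 a0 else if i < 5 then bt1 (i - 2) c1 a1 else sC md e * (nz a0 * nz a1)
/-- constant part of the triangle factor -/
def alT (md c : ℕ) : List ℤ := ps (-sT md c) (pm (pb md) (pb md))
/-- quadratic part of the triangle factor -/
def btT (md c x y z : ℕ) : ℤ := sT md c * (nz x * (nz y * nz z))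

/-- a group of columns -/
structure Gr where
  k : ℕ
  i : ℕ
  j : ℕ
  l : ℕ
  T : List ℕ

/-- functions on patterns -/
abbrev F1 := ℕ → List ℤ
/-- functions on patterns -/
abbrev F2 := ℕ → ℕ → ℕ → List ℤ
/-- functions on patterns -/
abbrev F3 := ℕ → ℕ → ℕ → ℕ → ℕ → ℕ → List ℤ
/-- functions on patterns -/
abbrev F4 := ℕ → ℕ → ℕ → ℕ → ℕ → ℕ → ℕ → ℕ → ℕ → ℕ → List ℤ

/-- level one part -/
def lv1 (md : ℕ) (g : Gr) : F1 := fun c0 =>
  if g.k = 1 then pm (pm (pm (al1 md g.i c0) (al1 md g.j c0)) (al1 md g.l c0)) (tb g.T c0)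
  else if g.k = 2 then pm (pm (al1 md g.i c0) (alT md c0)) (tb g.T c0)
  else []

/-- level two part -/
def lv2 (md : ℕ) (g : Gr) : F2 := fun c0 c1 e =>
  if g.k = 1 then pm (pa (pa (ps (bt1 g.i c0 e) (pm (al1 md g.j c0) (al1 md g.l c0)))
    (ps (bt1 g.j c0 e) (pm (al1 md g.i c0) (al1 md g.l c0))))
    (ps (bt1 g.l c0 e) (pm (al1 md g.i c0) (al1 md g.j c0)))) (tb g.T c0)
  else if g.k = 2 then pm (ps (bt1 g.i c0 e) (alT md c0)) (tb g.T c0)
  else if g.k = 3 then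
    pm (pm (al2 md g.i c0 c1 e) (al2 md g.j c0 c1 e)) (tb g.T (c0 + 3 * c1 + 9 * e))
  else if g.k = 4 then pm (alT md c0) (tb g.T (c0 + 3 * c1 + 9 * e))
  else []

/-- level three part -/
def lv3 (md : ℕ) (g : Gr) : F3 := fun c0 c1 c2 e01 e02 e12 =>
  if g.k = 1 then pm (pa (pa (ps (bt1 g.i c0 e01 * bt1 g.j c0 e02) (al1 md g.l c0))
    (ps (bt1 g.i c0 e01 * bt1 g.l c0 e02) (al1 md g.j c0)))
    (ps (bt1 g.j c0 e01 * bt1 g.l c0 e02) (al1 md g.i c0))) (tb g.T c0)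
  else if g.k = 2 then pm (ps (btT md c0 e01 e02 e12) (al1 md g.i c0)) (tb g.T c0)
  else if g.k = 3 then
    pm (pa (ps (bt2 md g.i c0 c1 e01 e02 e12) (al2 md g.j c0 c1 e01))
      (ps (bt2 md g.j c0 c1 e01 e02 e12) (al2 md g.i c0 c1 e01))) (tb g.T (c0 + 3 * c1 + 9 * e01))
  else if g.k = 4 then []
  else pm (al2 md g.i c0 c1 e01) (tb g.T (c0 + 3 * c1 + 9 * c2 + 27 * e01 + 81 * e02 + 243 * e12))

/-- level four part -/
def lv4 (md : ℕ) (g : Gr) : F4 := fun c0 c1 c2 _ e01 e02 e03 e12 e13 e23 =>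
  if g.k = 1 then ps (bt1 g.i c0 e01 * (bt1 g.j c0 e02 * bt1 g.l c0 e03)) (tb g.T c0)
  else if g.k = 2 then ps (bt1 g.i c0 e01 * btT md c0 e02 e03 e23) (tb g.T c0)
  else if g.k = 3 then
    ps (bt2 md g.i c0 c1 e01 e02 e12 * bt2 md g.j c0 c1 e01 e03 e13)
      (tb g.T (c0 + 3 * c1 + 9 * e01))
  else if g.k = 4 then ps (btT md c0 e02 e03 e23) (tb g.T (c0 + 3 * c1 + 9 * e01))
  else ps (bt2 md g.i c0 c1 e01 e03 e13)
    (tb g.T (c0 + 3 * c1 + 9 * c2 + 27 * e01 + 81 * e02 + 243 * e12))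

variable {V : Type} {ν : ℝ} {W : Finset V}

theorem K1c {l α β γ : ℝ} {f g h : V → ℝ}
    (H : 0 ≤ l * ((α + mS ν W f) * (β + mS ν W g) * (γ + mS ν W h))) :
    0 ≤ α * β * γ * l + mS ν W (fun y => (f y * (β * γ) + g y * (α * γ) + h y * (α * β)) * l) +
      mS ν W (fun y => mS ν W fun z => (f y * g z * γ + f y * h z * β + g y * h z * α) * l) +
      mS ν W (fun y => mS ν W fun z => mS ν W fun t => f y * (g z * h t) * l) := by
  simp only [mS_add, mS_mul, mS_mul']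
  linarith

theorem K1e {l α β : ℝ} {f : V → ℝ} {g : V → V → ℝ}
    (H : 0 ≤ l * ((α + mS ν W f) * (β + mS ν W fun y => mS ν W (g y)))) :
    0 ≤ α * β * l + mS ν W (fun y => f y * β * l) +
      mS ν W (fun y => mS ν W fun z => g y z * α * l) +
      mS ν W (fun y => mS ν W fun z => mS ν W fun t => f y * g z t * l) := by
  simp only [mS_mul, mS_mul']
  linarith

theorem K2b {l α β : ℝ} {f g : V → ℝ} (H : 0 ≤ l * ((α + mS ν W f) * (β + mS ν W g))) :
    0 ≤ α * β * l + mS ν W (fun z => (f z * β + g z * α) * l) +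
      mS ν W (fun z => mS ν W fun t => f z * g t * l) := by
  simp only [mS_add, mS_mul, mS_mul']
  linarith

theorem K2c {l α : ℝ} {g : V → V → ℝ} (H : 0 ≤ l * (α + mS ν W fun y => mS ν W (g y))) :
    0 ≤ α * l + mS ν W (fun z => mS ν W fun t => g z t * l) := by
  simp only [mS_mul']
  linarith

theorem K3a {l α : ℝ} {f : V → ℝ} (H : 0 ≤ l * (α + mS ν W f)) :
    0 ≤ α * l + mS ν W (fun t => f t * l) := by
  simp only [mS_mul']
  linarith

/-- the data a certificate is applied to -/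
structure Ctx (G : SimpleGraph V) (ν τ : ℝ) (W : Finset V) (md : ℕ) (c : V → ℕ)
    (e : V → V → ℕ) : Prop where
  hν : 0 ≤ ν
  hτ : 0 ≤ τ
  sy : ∀ x y, e x y = e y x
  hz : ∀ x y, (nz (e x y) : ℝ) = ad G x y
  hU : ∀ x, dN G ν W x ≤ ev τ (pu md)
  hL : ∀ x, 0 ≤ (sL (c x) : ℝ) * (dN G ν W x - ev τ (pb md))
  hT : ∀ x, 0 ≤ (sT md (c x) : ℝ) * (tN G ν W x - ev τ (pb md) ^ 2)
  hC : ∀ x y, 0 ≤ (sC md (e x y) : ℝ) * (cN G ν W x y - ev τ (pb md))
  hc : ∀ x, c x ∈ if md = 0 then [0, 1, 2] else [0, 2]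
  he : ∀ x y, e x y ∈ if md = 1 ∧ c x = 0 ∧ c y = 0 then [0, 1, 2] else [0, 1]

variable {G : SimpleGraph V} {md : ℕ} {c : V → ℕ} {e : V → V → ℕ}

theorem Ctx.f1 (X : Ctx G ν τ W md c e) (i : ℕ) (x : V) :
    0 ≤ ev τ (al1 md i (c x)) + mS ν W fun y => (bt1 i (c x) (e x y) : ℝ) := by
  unfold al1 bt1
  split_ifs
  · simp [ev, mS]
  · have := X.hU x
    simp only [Int.cast_neg, X.hz]
    rw [dN, mS] at this
    rw [mS, sum_neg_distrib]
    linarith
  · have := X.hL x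
    simp only [Int.cast_mul, X.hz, mS_mul, ev_ps, Int.cast_neg]
    rw [dN] at this
    linarith

theorem Ctx.f2 (X : Ctx G ν τ W md c e) (i : ℕ) (x y : V) :
    0 ≤ ev τ (al2 md i (c x) (c y) (e x y)) +
      mS ν W fun z => (bt2 md i (c x) (c y) (e x y) (e x z) (e y z) : ℝ) := by
  unfold al2 bt2
  split_ifs
  · exact X.f1 i x
  · exact X.f1 _ y
  · have := X.hC x y
    simp only [Int.cast_mul, X.hz, mS_mul, ev_ps, Int.cast_neg]
    rw [cN] at this
    linarith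

theorem Ctx.fT (X : Ctx G ν τ W md c e) (x : V) :
    0 ≤ ev τ (alT md (c x)) +
      mS ν W fun y => mS ν W fun z => (btT md (c x) (e x y) (e x z) (e y z) : ℝ) := by
  have := X.hT x
  unfold alT btT
  simp only [Int.cast_mul, X.hz, mS_mul, ev_ps, ev_pm, Int.cast_neg]
  simp only [tN, cN] at this
  linarith

/-- integral of a pattern function -/
noncomputable def r1 (ν τ : ℝ) (W : Finset V) (c : V → ℕ) (f : F1) : ℝ :=
  mS ν W fun x => ev τ (f (c x))
/-- integral of a pattern function -/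
noncomputable def r2 (ν τ : ℝ) (W : Finset V) (c : V → ℕ) (e : V → V → ℕ) (f : F2) : ℝ :=
  mS ν W fun x => mS ν W fun y => ev τ (f (c x) (c y) (e x y))
/-- integral of a pattern function -/
noncomputable def r3 (ν τ : ℝ) (W : Finset V) (c : V → ℕ) (e : V → V → ℕ) (f : F3) : ℝ :=
  mS ν W fun x => mS ν W fun y => mS ν W fun z =>
    ev τ (f (c x) (c y) (c z) (e x y) (e x z) (e y z))
/-- integral of a pattern function -/
noncomputable def r4 (ν τ : ℝ) (W : Finset V) (c : V → ℕ) (e : V → V → ℕ) (f : F4) : ℝ :=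
  mS ν W fun x => mS ν W fun y => mS ν W fun z => mS ν W fun t =>
    ev τ (f (c x) (c y) (c z) (c t) (e x y) (e x z) (e x t) (e y z) (e y t) (e z t))

theorem mS_zero : (mS ν W fun _ => 0) = 0 := by simp [mS]

theorem Ctx.gr (X : Ctx G ν τ W md c e) (g : Gr) :
    0 ≤ r1 ν τ W c (lv1 md g) + r2 ν τ W c e (lv2 md g) + r3 ν τ W c e (lv3 md g) +
      r4 ν τ W c e (lv4 md g) := by
  unfold r1 r2 r3 r4 lv1 lv2 lv3 lv4
  have t := ev_tb X.hτ g.T
  by_cases h1 : g.k = 1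
  · simp only [if_pos h1, ev_pm, ev_pa, ev_ps, Int.cast_mul]
    rw [← mS_add, ← mS_add, ← mS_add]
    exact mS_nonneg X.hν fun x _ => K1c (mul_nonneg (t (c x))
      (mul_nonneg (mul_nonneg (X.f1 g.i x) (X.f1 g.j x)) (X.f1 g.l x)))
  by_cases h2 : g.k = 2
  · simp only [if_neg h1, if_pos h2, ev_pm, ev_ps, Int.cast_mul]
    rw [← mS_add, ← mS_add, ← mS_add]
    exact mS_nonneg X.hν fun x _ => K1e (mul_nonneg (t (c x)) (mul_nonneg (X.f1 g.i x) (X.fT x)))
  by_cases h3 : g.k = 3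
  · simp only [if_neg h1, if_neg h2, if_pos h3, ev_pm, ev_pa, ev_ps, Int.cast_mul, ev_nil, mS_zero,
      zero_add]
    rw [← mS_add, ← mS_add]
    refine mS_nonneg X.hν fun x _ => ?_
    rw [← mS_add, ← mS_add]
    exact mS_nonneg X.hν fun y _ =>
      K2b (mul_nonneg (t _) (mul_nonneg (X.f2 g.i x y) (X.f2 g.j x y)))
  by_cases h4 : g.k = 4
  · simp only [if_neg h1, if_neg h2, if_neg h3, if_pos h4, ev_pm, ev_ps, ev_nil,
      mS_zero, zero_add, add_zero]
    rw [← mS_add]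
    refine mS_nonneg X.hν fun x _ => ?_
    rw [← mS_add]
    exact mS_nonneg X.hν fun y _ => K2c (mul_nonneg (t _) (X.fT x))
  · simp only [if_neg h1, if_neg h2, if_neg h3, if_neg h4, ev_pm, ev_ps, ev_nil,
      mS_zero, zero_add, add_zero]
    rw [← mS_add]
    refine mS_nonneg X.hν fun x _ => ?_
    rw [← mS_add]
    refine mS_nonneg X.hν fun y _ => ?_
    rw [← mS_add]
    exact mS_nonneg X.hν fun z _ => K3a (mul_nonneg (t _) (X.f2 g.i x y))

/-- swaps -/
def a3 (f : F3) : F3 := fun c0 c1 c2 e01 e02 e12 => f c1 c0 c2 e01 e12 e02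
/-- swaps -/
def b3 (f : F3) : F3 := fun c0 c1 c2 e01 e02 e12 => f c0 c2 c1 e02 e01 e12
/-- swaps -/
def a4 (f : F4) : F4 := fun c0 c1 c2 c3 e01 e02 e03 e12 e13 e23 =>
  f c1 c0 c2 c3 e01 e12 e13 e02 e03 e23
/-- swaps -/
def b4 (f : F4) : F4 := fun c0 c1 c2 c3 e01 e02 e03 e12 e13 e23 =>
  f c0 c2 c1 c3 e02 e01 e03 e12 e23 e13
/-- swaps -/
def c4 (f : F4) : F4 := fun c0 c1 c2 c3 e01 e02 e03 e12 e13 e23 =>
  f c0 c1 c3 c2 e01 e03 e02 e13 e12 e23
/-- sum -/
def p3 (f g : F3) : F3 := fun c0 c1 c2 e01 e02 e12 =>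
  pa (f c0 c1 c2 e01 e02 e12) (g c0 c1 c2 e01 e02 e12)
/-- sum -/
def p4 (f g : F4) : F4 := fun c0 c1 c2 c3 e01 e02 e03 e12 e13 e23 =>
  pa (f c0 c1 c2 c3 e01 e02 e03 e12 e13 e23) (g c0 c1 c2 c3 e01 e02 e03 e12 e13 e23)
/-- symmetrisation -/
def sy2 (f : F2) : F2 := fun c0 c1 e => pa (f c0 c1 e) (f c1 c0 e)
/-- symmetrisation -/
def sy3 (f : F3) : F3 := p3 (p3 f (a3 f)) (p3 (b3 (p3 f (a3 f))) (a3 (b3 (p3 f (a3 f)))))
/-- symmetrisation, first two steps -/
def sz4 (f : F4) : F4 := p4 (p4 f (a4 f)) (p4 (b4 (p4 f (a4 f))) (a4 (b4 (p4 f (a4 f)))))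
/-- symmetrisation -/
def sy4 (f : F4) : F4 :=
  p4 (p4 (sz4 f) (c4 (sz4 f))) (p4 (b4 (c4 (sz4 f))) (a4 (b4 (c4 (sz4 f)))))

section
variable (sy : ∀ x y, e x y = e y x)
include sy

theorem r2_sy (f : F2) : r2 ν τ W c e (sy2 f) = 2 * r2 ν τ W c e f := by
  simp only [r2, sy2, ev_pa, mS_add]
  rw [mS_comm W fun x y => ev τ (f (c y) (c x) (e x y)), two_mul]
  congr 1
  exact mS_congr fun x _ => mS_congr fun y _ => by rw [sy y x]

theorem r3_a (f : F3) : r3 ν τ W c e (a3 f) = r3 ν τ W c e f := by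
  simp only [r3, a3]
  rw [mS_comm]
  exact mS_congr fun x _ => mS_congr fun y _ => by rw [sy y x]

theorem r3_b (f : F3) : r3 ν τ W c e (b3 f) = r3 ν τ W c e f := by
  simp only [r3, b3]
  refine mS_congr fun x _ => ?_
  rw [mS_comm]
  exact mS_congr fun y _ => mS_congr fun z _ => by rw [sy z y]

theorem r4_a (f : F4) : r4 ν τ W c e (a4 f) = r4 ν τ W c e f := by
  simp only [r4, a4]
  rw [mS_comm]
  exact mS_congr fun x _ => mS_congr fun y _ => by rw [sy y x]

theorem r4_b (f : F4) : r4 ν τ W c e (b4 f) = r4 ν τ W c e f := by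
  simp only [r4, b4]
  refine mS_congr fun x _ => ?_
  rw [mS_comm]
  exact mS_congr fun y _ => mS_congr fun z _ => by rw [sy z y]

theorem r4_c (f : F4) : r4 ν τ W c e (c4 f) = r4 ν τ W c e f := by
  simp only [r4, c4]
  refine mS_congr fun x _ => mS_congr fun y _ => ?_
  rw [mS_comm]
  exact mS_congr fun z _ => mS_congr fun t _ => by rw [sy t z]

omit sy in
theorem r3_p (f g : F3) : r3 ν τ W c e (p3 f g) = r3 ν τ W c e f + r3 ν τ W c e g := by
  simp only [r3, p3, ev_pa, mS_add]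

omit sy in
theorem r4_p (f g : F4) : r4 ν τ W c e (p4 f g) = r4 ν τ W c e f + r4 ν τ W c e g := by
  simp only [r4, p4, ev_pa, mS_add]

theorem r3_sy (f : F3) : r3 ν τ W c e (sy3 f) = 6 * r3 ν τ W c e f := by
  simp only [sy3, r3_p, r3_a sy, r3_b sy]; ring

theorem r4_sy (f : F4) : r4 ν τ W c e (sy4 f) = 24 * r4 ν τ W c e f := by
  simp only [sy4, sz4, r4_p, r4_a sy, r4_b sy, r4_c sy]; ring

end

theorem sort4 (c : V → ℕ) (P : V → V → V → V → Prop)
    (h1 : ∀ x y z t, P x y z t → P y x z t) (h2 : ∀ x y z t, P x y z t → P x z y t)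
    (h3 : ∀ x y z t, P x y z t → P x y t z)
    (h : ∀ x y z t, c x ≤ c y → c y ≤ c z → c z ≤ c t → P x y z t) (x y z t : V) : P x y z t := by
  have k1 : ∀ x y z t, c y ≤ c z → c z ≤ c t → P x y z t := fun x y z t a b => by
    rcases le_total (c x) (c y) with p | p
    · exact h _ _ _ _ p a b
    rcases le_total (c x) (c z) with q | q
    · exact h1 _ _ _ _ (h _ _ _ _ p q b)
    rcases le_total (c x) (c t) with r | r
    · exact h1 _ _ _ _ (h2 _ _ _ _ (h _ _ _ _ a q r))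
    · exact h1 _ _ _ _ (h2 _ _ _ _ (h3 _ _ _ _ (h _ _ _ _ a b r)))
  have k2 : ∀ x y z t, c z ≤ c t → P x y z t := fun x y z t b => by
    rcases le_total (c y) (c z) with p | p
    · exact k1 _ _ _ _ p b
    rcases le_total (c y) (c t) with q | q
    · exact h2 _ _ _ _ (k1 _ _ _ _ p q)
    · exact h2 _ _ _ _ (h3 _ _ _ _ (k1 _ _ _ _ b q))
  rcases le_total (c z) (c t) with p | p
  · exact k2 _ _ _ _ p
  · exact h3 _ _ _ _ (k2 _ _ _ _ p)

/-- colours -/
def cls (md : ℕ) : List ℕ := if md = 0 then [0, 1, 2] else [0, 2]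
/-- pair types -/
def els (md x y : ℕ) : List ℕ := if md = 1 ∧ x = 0 ∧ y = 0 then [0, 1, 2] else [0, 1]

/-- check on one vertex -/
def ck1 (md : ℕ) (f : F1) : Bool := (cls md).all fun c0 => nn (f c0)
/-- check on two vertices -/
def ck2 (md : ℕ) (f : F2) : Bool := (cls md).all fun c0 => (cls md).all fun c1 =>
  (els md c0 c1).all fun e => nn (sy2 f c0 c1 e)
/-- check on three vertices -/
def ck3 (md : ℕ) (f : F3) : Bool := (cls md).all fun c0 => (cls md).all fun c1 =>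
  (cls md).all fun c2 => (els md c0 c1).all fun e01 => (els md c0 c2).all fun e02 =>
  (els md c1 c2).all fun e12 => nn (sy3 f c0 c1 c2 e01 e02 e12)
/-- check on four vertices with given colours and first pair -/
def ck4 (md : ℕ) (f : F4) (c0 c1 c2 c3 e01 : ℕ) : Bool :=
  (els md c0 c2).all fun e02 => (els md c0 c3).all fun e03 =>
  (els md c1 c2).all fun e12 => (els md c1 c3).all fun e13 => (els md c2 c3).all fun e23 =>
  nn (sy4 f c0 c1 c2 c3 e01 e02 e03 e12 e13 e23)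

theorem Ctx.p1 (X : Ctx G ν τ W md c e) {f : F1} (h : ck1 md f = true) : 0 ≤ r1 ν τ W c f := by
  simp only [ck1, List.all_eq_true] at h
  exact mS_nonneg X.hν fun x _ => ev_nn X.hτ (h _ (X.hc x))

theorem Ctx.p2 (X : Ctx G ν τ W md c e) {f : F2} (h : ck2 md f = true) : 0 ≤ r2 ν τ W c e f := by
  simp only [ck2, List.all_eq_true] at h
  have : 0 ≤ r2 ν τ W c e (sy2 f) := mS_nonneg X.hν fun x _ => mS_nonneg X.hν fun y _ =>
    ev_nn X.hτ (h _ (X.hc x) _ (X.hc y) _ (X.he x y))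
  rw [r2_sy X.sy] at this
  linarith

theorem Ctx.p3 (X : Ctx G ν τ W md c e) {f : F3} (h : ck3 md f = true) : 0 ≤ r3 ν τ W c e f := by
  simp only [ck3, List.all_eq_true] at h
  have : 0 ≤ r3 ν τ W c e (sy3 f) := mS_nonneg X.hν fun x _ => mS_nonneg X.hν fun y _ =>
    mS_nonneg X.hν fun z _ =>
    ev_nn X.hτ (h _ (X.hc x) _ (X.hc y) _ (X.hc z) _ (X.he x y) _ (X.he x z) _ (X.he y z))
  rw [r3_sy X.sy] at this
  linarith

theorem Ctx.p4 (X : Ctx G ν τ W md c e) {f : F4}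
    (h : ∀ c0 ∈ cls md, ∀ c1 ∈ cls md, ∀ c2 ∈ cls md, ∀ c3 ∈ cls md, c0 ≤ c1 → c1 ≤ c2 → c2 ≤ c3 →
      ∀ e01 ∈ els md c0 c1, ck4 md f c0 c1 c2 c3 e01 = true) : 0 ≤ r4 ν τ W c e f := by
  simp only [ck4, List.all_eq_true] at h
  have k := sort4 c (fun x y z t => 0 ≤ ev τ
    (sy4 f (c x) (c y) (c z) (c t) (e x y) (e x z) (e x t) (e y z) (e y t) (e z t)))
    (fun x y z t h => by
      rw [X.sy y x]
      simp only [sy4, sz4, GL3.p4, a4, b4, c4, ev_pa] at h ⊢
      linarith)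
    (fun x y z t h => by
      rw [X.sy z y]
      simp only [sy4, sz4, GL3.p4, a4, b4, c4, ev_pa] at h ⊢
      linarith)
    (fun x y z t h => by
      rw [X.sy t z]
      simp only [sy4, sz4, GL3.p4, a4, b4, c4, ev_pa] at h ⊢
      linarith)
    (fun x y z t h1 h2 h3 => ev_nn X.hτ (h _ (X.hc x) _ (X.hc y) _ (X.hc z) _ (X.hc t) h1 h2 h3
      _ (X.he x y) _ (X.he x z) _ (X.he x t) _ (X.he y z) _ (X.he y t) _ (X.he z t)))
  have : 0 ≤ r4 ν τ W c e (sy4 f) := mS_nonneg X.hν fun x _ => mS_nonneg X.hν fun y _ =>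
    mS_nonneg X.hν fun z _ => mS_nonneg X.hν fun t _ => k x y z t
  rw [r4_sy X.sy] at this
  linarith

/-- target minus columns -/
def m1 (md : ℕ) (T : F1) : List Gr → F1
  | [] => T
  | g :: L => fun c0 => pa (ps (-1) (lv1 md g c0)) (m1 md T L c0)
/-- target minus columns -/
def m2 (md : ℕ) (T : F2) : List Gr → F2
  | [] => T
  | g :: L => fun c0 c1 e => pa (ps (-1) (lv2 md g c0 c1 e)) (m2 md T L c0 c1 e)
/-- target minus columns -/
def m3 (md : ℕ) (T : F3) : List Gr → F3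
  | [] => T
  | g :: L => fun c0 c1 c2 e01 e02 e12 =>
    pa (ps (-1) (lv3 md g c0 c1 c2 e01 e02 e12)) (m3 md T L c0 c1 c2 e01 e02 e12)
/-- target minus columns -/
def m4 (md : ℕ) (T : F4) : List Gr → F4
  | [] => T
  | g :: L => fun c0 c1 c2 c3 e01 e02 e03 e12 e13 e23 =>
    pa (ps (-1) (lv4 md g c0 c1 c2 c3 e01 e02 e03 e12 e13 e23))
      (m4 md T L c0 c1 c2 c3 e01 e02 e03 e12 e13 e23)

theorem Ctx.sound (X : Ctx G ν τ W md c e) (T1 : F1) (T2 : F2) (T3 : F3) (T4 : F4) (L : List Gr) :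
    r1 ν τ W c (m1 md T1 L) + r2 ν τ W c e (m2 md T2 L) + r3 ν τ W c e (m3 md T3 L) +
      r4 ν τ W c e (m4 md T4 L) ≤
      r1 ν τ W c T1 + r2 ν τ W c e T2 + r3 ν τ W c e T3 + r4 ν τ W c e T4 := by
  induction L with
  | nil => exact le_rfl
  | cons g L ih =>
    have := X.gr g
    simp only [r1, r2, r3, r4, m1, m2, m3, m4, ev_pa, ev_ps, mS_add, mS_mul, Int.cast_neg,
      Int.cast_one] at ih this ⊢
    linarith

end Pool.Agent.GL3
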