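import Mathlib

/-! The final scalar inequality of the rooted count. -/

namespace Pool.Agent.GL3

theorem sc_x {e h x : ℝ} (he : 0 < e) (he1 : e ≤ 7 / 20) (hh : 0 ≤ h) (hx : 0 ≤ x)
    (hf : 1 / 2 ≤ 1 - h - e * x) (hr : (1 - h - e * x) * x ≤ 1 / 2 - e / 5 - h) :
    x ≤ 53 / 100 - h / 2 := by
  have h1 : x ≤ 1 - 2 * h := by nlinarith [mul_nonneg hx (sub_nonneg.2 hf)]
  by_contra hc
  have h2 : 0 < x - (53 / 100 - h / 2) := by linarith [not_le.1 hc]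
  have h3 : 0 ≤ 1 - 2 * h - x := by linarith
  nlinarith [mul_nonneg h2.le h3, mul_nonneg (sub_nonneg.2 he1) (mul_nonneg h2.le h2.le),
    mul_nonneg (sub_nonneg.2 he1) h2.le, mul_nonneg hh h2.le, mul_nonneg hh h3,
    mul_nonneg (sub_nonneg.2 he1) hh, mul_nonneg he.le hh, mul_nonneg he.le (mul_nonneg hh hh),
    mul_nonneg (sub_nonneg.2 he1) (mul_nonneg hh hh),
    mul_nonneg (mul_nonneg he.le hh) h2.le]

theorem sc_K {h x : ℝ} (hh : 0 ≤ h) (hx : 0 ≤ x) (hb : x ≤ 53 / 100 - h / 2) :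
    0 ≤ x * (9 / 20 - 19 / 25 * x) + h * (19 / 20 - 23 / 10 * x + 7 / 20 * x ^ 2) := by
  have h1 := sub_nonneg.2 hb
  nlinarith [mul_nonneg hx h1, mul_nonneg hh h1, mul_nonneg hh hx, mul_nonneg hh hh,
    mul_nonneg hh (mul_nonneg hx hx), sq_nonneg (h - x / 4), sq_nonneg (h - x / 2)]

theorem sc_F {h x f : ℝ} (hh : 0 ≤ h) (hh1 : h ≤ 1 / 2) (hx : 0 ≤ x) (hb : x ≤ 53 / 100 - h / 2)
    (hf : 1 - h - 7 / 20 * x ≤ f) (hf1 : f ≤ 1 - h) :
    0 ≤ f * (x * (9 / 20 - 19 / 25 * x) + h * (19 / 20 - 23 / 10 * x + 7 / 20 * x ^ 2)) +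
      (1 / 10 - 39 / 20 * h) * (1 / 2 - h - f * x) := by
  have h1 := sub_nonneg.2 hb
  have k1 : -(7 / 250) + h ≤ x * (7 / 20 - 19 / 25 * x) +
      h * (19 / 20 - 7 / 20 * x + 7 / 20 * x ^ 2) ∨ 0 ≤ x * (7 / 20 - 19 / 25 * x) := by
    by_cases k : x ≤ 23 / 50
    · exact Or.inr (mul_nonneg hx (by linarith))
    · left
      have k := (not_le.1 k).le
      nlinarith [mul_nonneg hx h1, mul_nonneg hh h1, mul_nonneg hh (sq_nonneg (x - 1 / 2)),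
        mul_nonneg (sub_nonneg.2 k) h1, mul_nonneg hh (sub_nonneg.2 k)]
  have k2 : 43 / 50 * h ≤ h * (19 / 20 - 7 / 20 * x + 7 / 20 * x ^ 2) := by
    nlinarith [mul_nonneg hh (sq_nonneg (x - 1 / 2))]
  have k3 : 81 / 100 - 33 / 40 * h ≤ f := by linarith
  have k4 : 0 ≤ f := by linarith
  rcases k1 with k1 | k1
  · nlinarith [mul_le_mul_of_nonneg_left k1 k4, mul_nonneg hh (sub_nonneg.2 k3),
      sq_nonneg (h - 1 / 10)]
  · nlinarith [mul_le_mul_of_nonneg_left k2 k4, mul_nonneg k4 k1,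
      mul_nonneg hh (sub_nonneg.2 k3), sq_nonneg (h - 3 / 20)]

theorem sc_c {e x : ℝ} (he : 0 < e) (he1 : e ≤ 7 / 20) (hx : 0 ≤ x) (k : x ≤ 53 / 100) :
    9 / 20 - 19 / 25 * x ≤
      9 / 20 + 3 / 5 * e - 2 / 5 * e ^ 2 - 69 / 20 * (e * x) + 6 / 5 * e * (e * x) := by
  nlinarith [mul_nonneg he.le (sub_nonneg.2 he1), mul_nonneg (sub_nonneg.2 he1) hx,
    mul_nonneg he.le (sub_nonneg.2 k), mul_nonneg hx (sq_nonneg (7 / 20 - e)),
    mul_nonneg (mul_nonneg he.le (sub_nonneg.2 he1)) (sub_nonneg.2 k)]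

theorem sc_red {e h x f GX G1 : ℝ} (he : 0 < e) (he1 : e ≤ 7 / 20) (hh : 0 ≤ h) (hx : 0 ≤ x)
    (hf : f = 1 - h - e * x) (hf2 : 1 / 2 ≤ f) (hX : 0 ≤ GX) (hG : 0 ≤ G1)
    (hr : GX + G1 ≤ e * (1 / 2 - e / 5 - h - f * x)) :
    0 ≤ e ^ 2 * f * (19 / 20 * h + x * (f * (59 / 20 - e - 3 * x + e * x * (2 - x)) - 2 * h - 1)) +
      (f * (1 - 23 / 10 * e - 9 / 4 * (e * x)) - e ^ 2 - e * h) * GX +
      e * (19 / 20 * f - 2 * e - h - e * x - f * x) * G1 := by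
  have hr0 : 0 ≤ 1 / 2 - e / 5 - h - f * x :=
    nonneg_of_mul_nonneg_right (by rw [mul_comm]; linarith) he
  have hb := sc_x he he1 hh hx (hf ▸ hf2) (by rw [← hf]; linarith)
  have hu : e * x ≤ 7 / 20 * x := mul_le_mul_of_nonneg_right he1 hx
  have hu0 : 0 ≤ e * x := mul_nonneg he.le hx
  have hf0 : 0 ≤ f := by linarith
  have hy : 0 ≤ f * x := mul_nonneg hf0 hx
  have hh1 : h ≤ 1 / 2 := by linarith
  have hK := mul_nonneg hf0 (sc_K hh hx hb)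
  have hF := sc_F hh hh1 hx hb (f := f) (by linarith) (by linarith)
  have c0 := sc_c he he1 hx (by linarith)
  have c1 : 19 / 20 - 23 / 10 * x + 7 / 20 * x ^ 2 ≤ 19 / 20 - 39 / 20 * x - e * x * (1 - x) := by
    linarith [mul_nonneg (sub_nonneg.2 hu) (show 0 ≤ 1 - x by linarith)]
  have b2 : e * (1 / 10 - 39 / 20 * h) ≤ e * (f * x * (3 - 2 * e + e * x)) +
      (f * (1 - 23 / 10 * e - 9 / 4 * (e * x)) - e ^ 2 - e * h) := by
    have k1 : 0 ≤ e * (f * x * (3 / 4 - 2 * e + e * x)) :=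
      mul_nonneg he.le (mul_nonneg hy (by linarith))
    have k2 : 0 ≤ f * (1 - 20 / 7 * e) := mul_nonneg hf0 (by linarith)
    have k3 : 0 ≤ e * (39 / 70 * f - e - h - (1 / 10 - 39 / 20 * h)) :=
      mul_nonneg he.le (by linarith)
    linarith
  have b3 : 1 / 10 - 39 / 20 * h ≤ f * x * (3 - 2 * e + e * x) +
      (19 / 20 * f - 2 * e - h - e * x - f * x) := by
    have k1 : 0 ≤ f * x * (7 / 10 - 2 * e + e * x) := mul_nonneg hy (by linarith)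
    have k2 : 0 ≤ (f - 1 / 2) * x := mul_nonneg (by linarith) hx
    linarith
  obtain ⟨K, eK⟩ : ∃ K, K = x * (9 / 20 - 19 / 25 * x) +
    h * (19 / 20 - 23 / 10 * x + 7 / 20 * x ^ 2) := ⟨_, rfl⟩
  rw [← eK] at hK hF
  have hβ : x * (1 / 2 - e / 5 - h - f * x) * (3 - 2 * e + e * x) + K ≤
      19 / 20 * h + x * (f * (59 / 20 - e - 3 * x + e * x * (2 - x)) - 2 * h - 1) := by
    have k1 := mul_le_mul_of_nonneg_left c0 hx
    have k2 := mul_le_mul_of_nonneg_left c1 hh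
    rw [eK, hf]
    linarith
  have k1 := mul_le_mul_of_nonneg_left hβ (mul_nonneg (sq_nonneg e) hf0)
  have k2 := mul_le_mul_of_nonneg_right b2 hX
  have k3 := mul_le_mul_of_nonneg_right b3 (mul_nonneg he.le hG)
  have k4 := mul_nonneg (mul_nonneg he.le
    (mul_nonneg hy (show 0 ≤ 3 - 2 * e + e * x by linarith))) (sub_nonneg.2 hr)
  have k5 : 0 ≤ e * (e * (f * K) + (1 / 10 - 39 / 20 * h) * (GX + G1)) := by
    refine mul_nonneg he.le ?_
    by_cases k : 0 ≤ 1 / 10 - 39 / 20 * h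
    · exact add_nonneg (mul_nonneg he.le hK) (mul_nonneg k (add_nonneg hX hG))
    · have a1 : GX + G1 ≤ e * (1 / 2 - h - f * x) :=
        hr.trans (mul_le_mul_of_nonneg_left (by linarith) he.le)
      have a2 := mul_le_mul_of_nonpos_left a1 (not_le.1 k).le
      have a3 := mul_nonneg he.le hF
      linarith
  linarith

theorem scalar {e dl h1 h2 L GX G1 D f : ℝ} (he : 0 < e) (he1 : e ≤ 7 / 20) (hd : 0 ≤ dl)
    (h10 : 0 ≤ h1) (h20 : 0 ≤ h2) (hL0 : 0 ≤ L) (hL : L ≤ e * h2) (hX : 0 ≤ GX) (hG : 0 ≤ G1)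
    (hf : f = 1 - (dl + h1 + h2)) (hf2 : 1 / 2 ≤ f)
    (hD : D = (dl + h1 + h2) * e + f * (dl + h2) + GX + G1 - L) (hD1 : D ≤ e / 2 - e ^ 2 / 5) :
    f * (e * D / 20) ≤ f * ((dl + h1 + h2) * e ^ 2) +
      f * ((dl + h2) * (f * (1 + e - (1 - e + (dl + h2)) ^ 2) - D - e * h1)) - f * ((1 + e) * L) +
      GX * (f - e ^ 2 - e * f - e * h1 - 5 / 4 * (e + h2) * f) +
      G1 * e * (f - 2 * e - h1 - h2) := by
  obtain ⟨x, ex⟩ : ∃ x, dl = e * x - h2 := ⟨(dl + h2) / e, by field_simp; ring⟩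
  subst ex
  have hx : 0 ≤ x := nonneg_of_mul_nonneg_right (by rw [mul_comm]; linarith) he
  have hf0 : 0 ≤ f := by linarith
  have k0 := mul_nonneg he.le hd
  have k1 := sc_red he he1 h10 hx (f := f) (by linarith) hf2 hX hG (by linarith)
  have k2 := mul_nonneg (mul_nonneg hf0 (show 0 ≤ e * (e * x) - L by linarith))
    (show 0 ≤ 1 + 19 / 20 * e - e * x by linarith)
  have k3 := mul_nonneg (mul_nonneg hf0 hX) hd
  have k4 := mul_nonneg (mul_nonneg he.le hG) hd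
  subst hD
  linarith

end Pool.Agent.GL3
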