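import Pool.Agent.P.MP_dfe42f_co.HgB6b
import Pool.Agent.P.MP_dfe42f_co.HgB5

/-! Section B2(b): the excess inequality for `b ≥ 13/20`. -/

namespace Pool.Agent.GL3
open Finset

variable {V : Type} [DecidableEq V] {G : SimpleGraph V} {ν : ℝ} {W : Finset V}

theorem mS_card {S : Finset V} (h : S ⊆ W) :
    ν * W.card = ν * S.card + ν * (W \ S).card := by
  have := mS_sdiff (ν := ν) h fun _ => 1
  simpa only [mS_const, mul_one] using this

theorem mS_nbr {N : Finset V} {v : V} (hN : ∀ u, u ∈ N ↔ u ∈ W ∧ G.Adj v u) (φ : V → ℝ) :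
    (mS ν W fun w => ad G v w * φ w) = mS ν N φ := by
  have h1 : N ⊆ W := fun u hu => ((hN u).1 hu).1
  have h2 : (mS ν (W \ N) fun w => ad G v w * φ w) = mS ν (W \ N) fun _ => 0 := by
    refine mS_congr fun w hw => ?_
    rcases ad_cases (G := G) v w with h | h
    · exact absurd ((hN w).2 ⟨(mem_sdiff.1 hw).1, h.1⟩) (mem_sdiff.1 hw).2
    · rw [h.2, zero_mul]
  rw [mS_sdiff h1, h2, mS_const, mul_zero, add_zero]
  refine mS_congr fun w hw => ?_
  rcases ad_cases (G := G) v w with h | h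
  · rw [h.2, one_mul]
  · exact absurd ((hN w).1 hw).2 h.1

/-- block RT: B2(b). `a` is real here, `hI` is (I). -/
theorem rooted (hν : 0 < ν) (hD : ∀ B x, dN G ν B x ≤ 1) {a b D0 : ℝ} (ha : 1 ≤ a)
    (hb : 13 / 20 ≤ b) (hb1 : b < 1) (hW : ν * W.card ≤ a + b) (h0 : 0 ≤ D0) (h01 : D0 ≤ 1)
    (hE : ∀ x ∈ W, eN G ν W b x ≤ 1 - b - D0)
    (hI : ∀ S ⊆ W, ∀ b1, b ≤ b1 → b1 ≤ 1 → ν * (W \ S).card ≤ a - 1 + b1 →
      mS ν (W \ S) (eN G ν (W \ S) b) ≤ (a - 1) * (1 - b) + (b1 - b) * b1 ^ 2) :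
    mS ν W (eN G ν W b) ≤ a * (1 - b) - (1 - b) * D0 / 20 := by
  classical
  have he : 0 < 1 - b := by linarith
  rcases W.eq_empty_or_nonempty with rfl | hne
  · rw [mS, sum_empty, mul_zero]
    nlinarith
  obtain ⟨v, hv, hmax⟩ := exists_max_image W (eN G ν W b) hne
  obtain ⟨D, hDd⟩ : ∃ D, D = 1 - b - eN G ν W b v := ⟨_, rfl⟩
  have hD0 : D0 ≤ D := by have := hE v hv; linarith
  have hED : ∀ x ∈ W, eN G ν W b x ≤ 1 - b - D := fun x hx => by have := hmax x hx; linarith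
  have hDe : 0 ≤ 1 - b - D := by have := eN_nonneg (G := G) (W := W) hν.le b v; linarith
  refine le_trans (b := a * (1 - b) - (1 - b) * D / 20) ?_ (by nlinarith)
  by_contra hcon
  rw [not_le] at hcon
  have hDb : D ≤ (1 - b) / 2 - (1 - b) ^ 2 / 5 := by
    have a1 : mS ν W (eN G ν W b) ≤ ν * W.card * (1 - b - D) := by
      rw [← mS_const]; exact mS_le hν.le hED
    have a2 := mul_le_mul_of_nonneg_right hW hDe
    have a3 : 0 ≤ (a - 1) * D := mul_nonneg (by linarith) (by linarith)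
    have a4 : D * (1 + b - (1 - b) / 20) ≤ b * (1 - b) := by nlinarith
    have a5 : b * (1 - b) ≤ ((1 - b) / 2 - (1 - b) ^ 2 / 5) * (1 + b - (1 - b) / 20) := by
      have := mul_pos he he
      have := mul_pos he (mul_pos he he)
      nlinarith
    exact le_of_mul_le_mul_right (a4.trans a5) (by linarith)
  obtain ⟨N, hN⟩ : ∃ N : Finset V, ∀ u, u ∈ N ↔ u ∈ W ∧ G.Adj v u :=
    ⟨W.filter fun u => G.Adj v u, fun u => mem_filter⟩
  obtain ⟨X, hXd⟩ : ∃ X : Finset V, ∀ u, u ∈ X ↔ u ∈ N ∧ b < cN G ν W v u :=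
    ⟨N.filter fun u => b < cN G ν W v u, fun u => mem_filter⟩
  obtain ⟨S, hSd⟩ : ∃ S : Finset V, ∀ u, u ∈ S ↔ u ∈ N ∧ (u ∈ X ∨ 1 - b < dN G ν X u) :=
    ⟨N.filter fun u => u ∈ X ∨ 1 - b < dN G ν X u, fun u => mem_filter⟩
  have hNW : N ⊆ W := fun u hu => ((hN u).1 hu).1
  have hSN : S ⊆ N := fun u hu => ((hSd u).1 hu).1
  have hX : X ⊆ S := fun u hu => (hSd u).2 ⟨((hXd u).1 hu).1, Or.inl hu⟩
  have hS : S ⊆ W := hSN.trans hNW
  obtain ⟨f, hf⟩ : ∃ f, f = ν * X.card := ⟨_, rfl⟩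
  obtain ⟨h1, hh1⟩ : ∃ h1, h1 = ν * (S \ X).card := ⟨_, rfl⟩
  obtain ⟨h2, hh2⟩ : ∃ h2, h2 = ν * (N \ S).card := ⟨_, rfl⟩
  obtain ⟨dl, hdl⟩ : ∃ dl, dl = 1 - ν * N.card := ⟨_, rfl⟩
  obtain ⟨GX, hGX⟩ : ∃ GX, GX = mS ν X fun z => f - dN G ν X z := ⟨_, rfl⟩
  obtain ⟨G1, hG1⟩ : ∃ G1, G1 = mS ν (S \ X) fun z => f - dN G ν X z := ⟨_, rfl⟩
  obtain ⟨L, hL⟩ : ∃ L, L = mS ν (N \ S) (dN G ν X) := ⟨_, rfl⟩
  have hg : ∀ z, 0 ≤ f - dN G ν X z := fun z => sub_nonneg.2 (hf ▸ dN_card hν.le z)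
  have hf0 : 0 ≤ f := by rw [hf]; positivity
  have h10 : 0 ≤ h1 := by rw [hh1]; positivity
  have h20 : 0 ≤ h2 := by rw [hh2]; positivity
  have hGX0 : 0 ≤ GX := hGX ▸ mS_nonneg hν.le fun z _ => hg z
  have hG10 : 0 ≤ G1 := hG1 ▸ mS_nonneg hν.le fun z _ => hg z
  have hL0 : 0 ≤ L := hL ▸ mS_nonneg hν.le fun z _ => dN_nonneg hν.le z
  have hdl0 : 0 ≤ dl := by
    have a1 := mS_nbr (ν := ν) hN fun _ => 1
    simp only [mul_one] at a1
    rw [mS_const, mul_one] at a1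
    have a2 : dN G ν W v = ν * N.card := a1
    have := hD W v
    linarith
  have cS : ν * S.card = f + h1 := by rw [mS_card hX, hf, hh1]
  have hfo : f = 1 - (dl + h1 + h2) := by
    have := mS_card (ν := ν) hSN
    linarith
  have hLe : L ≤ (1 - b) * h2 := by
    rw [hL, hh2, mul_comm, ← mS_const]
    refine mS_le hν.le fun u hu => not_lt.1 fun h => (mem_sdiff.1 hu).2 ?_
    exact (hSd u).2 ⟨(mem_sdiff.1 hu).1, Or.inr h⟩
  have hEv : eN G ν W b v = (mS ν X fun z => cN G ν W v z) - f * b := by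
    have a1 : (mS ν (N \ X) fun y => max (cN G ν W v y - b) 0) = mS ν (N \ X) fun _ => 0 := by
      refine mS_congr fun y hy => max_eq_right (sub_nonpos.2 (not_lt.1 fun h => ?_))
      exact (mem_sdiff.1 hy).2 ((hXd y).2 ⟨(mem_sdiff.1 hy).1, h⟩)
    rw [eN, mS_nbr hN, mS_sdiff (hX.trans hSN), a1, mS_const, mul_zero, add_zero, hf, ← mS_const,
      ← mS_sub]
    exact mS_congr fun y hy => max_eq_left (sub_nonneg.2 ((hXd y).1 hy).2.le)
  have had : ∀ u ∈ X, ad G v u = 1 := fun u hu => by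
    rcases ad_cases (G := G) v u with h | h
    · exact h.2
    · exact absurd ((hN u).1 ((hXd u).1 hu).1).2 h.1
  have hco : (mS ν X fun z => cN G ν W v z) = f * f - GX + (h1 * f - G1) + L := by
    have a1 : (mS ν X fun z => cN G ν W v z) = mS ν X fun z => ad G v z * cN G ν W v z :=
      mS_congr fun z hz => by rw [had z hz, one_mul]
    have a2 : (mS ν N fun w => cN G ν X v w) = mS ν N (dN G ν X) :=
      mS_congr fun w _ => mS_congr fun u hu => by rw [had u hu, one_mul]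
    have lX : mS ν X (dN G ν X) = f * f - GX := by
      rw [hGX, mS_sub, mS_const, ← hf]; ring
    have l1 : mS ν (S \ X) (dN G ν X) = h1 * f - G1 := by
      rw [hG1, mS_sub, mS_const, ← hh1]; ring
    rw [a1, ← swapN, mS_nbr hN, a2, mS_sdiff hSN, mS_sdiff hX, lX, l1, hL]
  have hDeq : D = (dl + h1 + h2) * (1 - b) + f * (dl + h2) + GX + G1 - L := by
    rw [hDd, hEv, hco, hfo]; ring
  have hf2 : 1 / 2 ≤ f := by
    have a1 : (mS ν X fun z => cN G ν W v z) ≤ f := by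
      have := mS_le (W := X) hν.le (f := fun z => cN G ν W v z) (g := fun _ => 1)
        fun z _ => (cN_le hν.le v z).trans (hD W v)
      rwa [mS_const, mul_one, ← hf] at this
    have a2 : (1 - b) * (1 / 2) ≤ (1 - b) * f := by linarith [sq_nonneg (1 - b)]
    exact le_of_mul_le_mul_left a2 he
  have hdp : dl + h2 ≤ 1 - b := by
    have a1 : f * (dl + h2) ≤ D := by linarith [mul_nonneg (add_nonneg hdl0 h10) he.le]
    linarith [mul_nonneg (sub_nonneg.2 hf2) (add_nonneg hdl0 h20), sq_nonneg (1 - b)]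
  have cR' : ν * (W \ S).card ≤ a - 1 + (b + (dl + h2)) := by
    have := mS_card (ν := ν) hS
    linarith
  have hI' := hI S hS (b + (dl + h2)) (by linarith) (by linarith) cR'
  have hob : ∀ z ∈ X, dN G ν (W \ S) z ≤ 1 - b + h2 := fun z hz => by
    have a1 := dN_rest hν.le hD hS (subset_refl _) z
    have a2 : cN G ν W v z = dN G ν N z := mS_nbr hN _
    have a3 := dN_split (G := G) (ν := ν) hSN z
    have a4 := dN_card (G := G) (X := N \ S) hν.le z
    have a5 := ((hXd z).1 hz).2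
    linarith
  have hH : ∀ z ∈ S \ X, 1 - b < dN G ν X z := fun z hz =>
    ((hSd z).1 (mem_sdiff.1 hz).1).2.resolve_left (mem_sdiff.1 hz).2
  have hc := core hν.le hD hS hX hb1.le hf (by linarith) hh1 hGX hG1 rfl hob hH
    fun z hz => hED z (hS (hX hz))
  have ho := outer hν.le hD hS hX hb1.le hf (by linarith)
  have hSE : mS ν S (eN G ν W b) ≤ (f + h1) * (1 - b - D) := by
    rw [← cS, ← mS_const]
    exact mS_le hν.le fun z hz => hED z (hS hz)
  have hs := scalar he (by linarith) hdl0 h10 h20 hL0 hLe hGX0 hG10 hfo hf2 hDeq hDb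
  have t1 := mul_le_mul_of_nonneg_left hI' hf0
  have t2 := mul_le_mul_of_nonneg_right cR' (mul_nonneg (by linarith : 0 ≤ 1 - f) he.le)
  rw [mS_sdiff hS] at hcon
  set C := mS ν S (cR G ν W (W \ S) b) + mS ν S fun z => dN G ν (W \ S) z * (f - dN G ν X z)
  have t3 : a * (1 - b) - (1 - b) * D / 20 < (f + h1) * (1 - b - D) +
      f * ((a - 1) * (1 - b) + (b + (dl + h2) - b) * (b + (dl + h2)) ^ 2) +
      (a - 1 + (b + (dl + h2))) * ((1 - f) * (1 - b)) + C := by linarith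
  have t4 := mul_lt_mul_of_pos_left t3 (by linarith : 0 < f)
  have t5 : L = (dl + h1 + h2) * (1 - b) + f * (dl + h2) + GX + G1 - D := by linarith
  have t6 : dl = 1 - f - h1 - h2 := by linarith
  clear_value C
  clear * - hc hs t4 t5 t6
  subst t5 t6
  linarith

end Pool.Agent.GL3
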