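import Pool.Agent.P.MP_dfe42f_co.HgB1

/-! Section B2(b), local inequalities. -/

namespace Pool.Agent.GL3
open Finset

variable {V : Type} [DecidableEq V] {G : SimpleGraph V} {ν : ℝ} {W S X R : Finset V}

theorem dN_split (h : S ⊆ W) (x : V) : dN G ν W x = dN G ν S x + dN G ν (W \ S) x :=
  mS_sdiff h _

theorem cN_split (h : S ⊆ W) (x y : V) : cN G ν W x y = cN G ν S x y + cN G ν (W \ S) x y :=
  mS_sdiff h _

omit [DecidableEq V] in
theorem dN_mono (hν : 0 ≤ ν) (h : S ⊆ W) (x : V) : dN G ν S x ≤ dN G ν W x :=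
  mS_mono hν h fun _ _ => ad_nonneg _ _

omit [DecidableEq V] in
theorem dN_card (hν : 0 ≤ ν) (x : V) : dN G ν X x ≤ ν * X.card := by
  have := mS_le (W := X) hν (f := fun y => ad G x y) (g := fun _ => 1) fun y _ => ad_le_one x y
  rwa [mS_const, mul_one] at this

theorem dN_rest (hν : 0 ≤ ν) (hD : ∀ B x, dN G ν B x ≤ 1) (hS : S ⊆ W) (hX : X ⊆ S) (z : V) :
    dN G ν (W \ S) z ≤ 1 - dN G ν X z := by
  have h1 := dN_split (G := G) (ν := ν) hS z
  have h2 := dN_mono (G := G) hν hX z
  have h3 := hD W z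
  linarith

omit [DecidableEq V] in
/-- paths `z - w - u` with `w` in `R` and `u` in `X`, closed by the edge `z u` -/
theorem swapN (z : V) : (mS ν R fun w => ad G z w * cN G ν X z w) =
    mS ν X fun u => ad G z u * cN G ν R z u := by
  have h1 : (mS ν R fun w => ad G z w * cN G ν X z w) =
      mS ν R fun w => mS ν X fun u => ad G z w * (ad G z u * ad G w u) :=
    mS_congr fun w _ => (mS_mul _ _).symm
  have h2 : (mS ν X fun u => ad G z u * cN G ν R z u) =
      mS ν X fun u => mS ν R fun w => ad G z w * (ad G z u * ad G w u) := by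
    refine mS_congr fun u _ => ?_
    rw [cN, ← mS_mul]
    exact mS_congr fun w _ => by rw [ad_symm w u]; ring
  rw [h1, h2, mS_comm]

omit [DecidableEq V] in
theorem swapD (g : V → ℝ) : (mS ν R fun x => mS ν S fun z => ad G x z * g z) =
    mS ν S fun z => dN G ν R z * g z := by
  rw [mS_comm]
  refine mS_congr fun z _ => ?_
  rw [mS_mul', dN]
  congr 1
  exact mS_congr fun x _ => ad_symm x z

/-- Lemma X -/
theorem lemX (hν : 0 ≤ ν) (hD : ∀ B x, dN G ν B x ≤ 1) (hS : S ⊆ W) (hX : X ⊆ S) {b f : ℝ}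
    (hb1 : b ≤ 1) (hf : f = ν * X.card) (hf1 : f ≤ 1) (x : V) :
    (mS ν (W \ S) fun u => ad G x u * max (cN G ν W x u - b) 0) ≤
      f * eN G ν (W \ S) b x + (1 - f) * (1 - b) +
        mS ν S fun z => ad G x z * (f - dN G ν X z) := by
  have hf0 : 0 ≤ f := by rw [hf]; positivity
  have hj : dN G ν (W \ S) x ≤ 1 - dN G ν S x := dN_rest hν hD hS (subset_refl _) x
  have hj0 : 0 ≤ dN G ν S x := dN_nonneg hν x
  have hd0 : 0 ≤ dN G ν (W \ S) x := dN_nonneg hν x
  have hE0 : 0 ≤ eN G ν (W \ S) b x := eN_nonneg hν b x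
  have hΓ : 0 ≤ mS ν S fun z => ad G x z * (f - dN G ν X z) :=
    mS_nonneg hν fun z _ => mul_nonneg (ad_nonneg _ _) (by have := dN_card (G := G) (X := X) hν z; linarith)
  have hA : (mS ν (W \ S) fun u => ad G x u * cN G ν S x u) ≤
      (1 - f) * dN G ν S x + mS ν S fun z => ad G x z * (f - dN G ν X z) := by
    rw [swapN, dN, ← mS_mul, ← mS_add]
    refine mS_le hν fun z _ => ?_
    have h1 : cN G ν (W \ S) x z ≤ 1 - dN G ν X z := by
      rw [cN_symm]; exact (cN_le hν z x).trans (dN_rest hν hD hS hX z)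
    have := mul_le_mul_of_nonneg_left h1 (ad_nonneg (G := G) x z)
    linarith
  set j := dN G ν S x with hjd
  set Γ := mS ν S fun z => ad G x z * (f - dN G ν X z) with hΓd
  set A := mS ν (W \ S) fun u => ad G x u * cN G ν S x u with hAd
  set Q := mS ν (W \ S) fun u => ad G x u * max (cN G ν W x u - b) 0 with hQd
  have hc' : ∀ u, cN G ν (W \ S) x u ≤ 1 - j := fun u => (cN_le hν x u).trans hj
  rcases le_or_gt j (1 - b) with h | h
  · have h1 : Q ≤ eN G ν (W \ S) b x + A := by
      rw [hQd, hAd, eN, ← mS_add]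
      refine mS_le hν fun u _ => ?_
      rw [← mul_add]
      refine mul_le_mul_of_nonneg_left ?_ (ad_nonneg _ _)
      have h2 := cN_split (G := G) (ν := ν) hS x u
      have h3 := cN_nonneg (G := G) (W := S) hν x u
      have h4 := le_max_left (cN G ν (W \ S) x u - b) 0
      have h5 := le_max_right (cN G ν (W \ S) x u - b) 0
      exact max_le (by linarith) (by linarith)
    have h2 : eN G ν (W \ S) b x ≤ dN G ν (W \ S) x * (1 - b - j) := by
      rw [eN, dN, ← mS_mul']
      refine mS_le hν fun u _ => mul_le_mul_of_nonneg_left ?_ (ad_nonneg _ _)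
      exact max_le (by have := hc' u; linarith) (by linarith)
    have h3 : dN G ν (W \ S) x * (1 - b - j) ≤ 1 - b - j :=
      mul_le_of_le_one_left (by linarith) (by linarith)
    have h4 : (1 - f) * (eN G ν (W \ S) b x + j) ≤ (1 - f) * (1 - b) :=
      mul_le_mul_of_nonneg_left (by linarith) (by linarith)
    nlinarith
  · have hjp : 0 < j := by linarith
    have h1 : j * Q ≤ (1 - b) * A := by
      rw [hQd, hAd, ← mS_mul, ← mS_mul]
      refine mS_le hν fun u _ => ?_
      have h2 := cN_split (G := G) (ν := ν) hS x u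
      have h3 := cN_nonneg (G := G) (W := S) hν x u
      have h4 : cN G ν S x u ≤ j := cN_le hν x u
      have h5 := hc' u
      have h6 : j * max (cN G ν W x u - b) 0 ≤ (1 - b) * cN G ν S x u := by
        rcases le_total (cN G ν W x u - b) 0 with h7 | h7
        · rw [max_eq_right h7, mul_zero]; exact mul_nonneg (by linarith) h3
        · rw [max_eq_left h7]
          have h8 : j * (cN G ν W x u - b) ≤ j * (1 - b - j + cN G ν S x u) :=
            mul_le_mul_of_nonneg_left (by linarith) hj0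
          have h9 : 0 ≤ (j - (1 - b)) * (j - cN G ν S x u) := mul_nonneg (by linarith) (by linarith)
          nlinarith
      have := mul_le_mul_of_nonneg_left h6 (ad_nonneg (G := G) x u)
      linarith
    have h2 : (1 - b) * A ≤ (1 - b) * ((1 - f) * j + Γ) :=
      mul_le_mul_of_nonneg_left hA (by linarith)
    have h3 : (1 - b) * Γ ≤ j * Γ := mul_le_mul_of_nonneg_right h.le hΓ
    have h4 : j * Q ≤ j * ((1 - f) * (1 - b) + Γ) := by nlinarith
    have h5 := le_of_mul_le_mul_left h4 hjp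
    have h6 := mul_nonneg hf0 hE0
    linarith

/-- the codegree outside `X` is at most `1 - l` -/
theorem lemY (hν : 0 ≤ ν) (hD : ∀ B x, dN G ν B x ≤ 1) (hX : X ⊆ W) (z x : V) :
    cN G ν W z x ≤ cN G ν X z x + (1 - dN G ν X z) := by
  have h1 := cN_split (G := G) (ν := ν) hX z x
  have h2 := (cN_le (G := G) (W := W \ X) hν z x).trans (dN_rest hν hD hX (subset_refl _) z)
  linarith

/-- excess from `z` into `R` -/
noncomputable def cR (G : SimpleGraph V) (ν : ℝ) (W R : Finset V) (b : ℝ) (z : V) : ℝ :=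
  mS ν R fun x => ad G z x * max (cN G ν W z x - b) 0

/-- triangles `z, x, u` with `x` in `R` and `u` in `X` -/
noncomputable def pR (G : SimpleGraph V) (ν : ℝ) (X R : Finset V) (z : V) : ℝ :=
  mS ν R fun x => ad G z x * cN G ν X z x

theorem lemC1 (hν : 0 ≤ ν) (hD : ∀ B x, dN G ν B x ≤ 1) (hX : X ⊆ W) {b f : ℝ} (hb1 : b ≤ 1)
    (hf : f = ν * X.card) (hfe : 1 - b < f) (z : V) :
    f * cR G ν W R b z ≤ (1 - b) * (cR G ν W R b z + pR G ν X R z) +
      f / 4 * (dN G ν R z * (f - dN G ν X z)) := by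
  have hg : dN G ν X z ≤ f := hf ▸ dN_card hν z
  have hf0 : 0 < f := by linarith
  rw [cR, pR, dN.eq_1 G ν R, ← mS_add, ← mS_mul', ← mS_mul, ← mS_mul, ← mS_mul, ← mS_add]
  refine mS_le hν fun x _ => ?_
  have h1 := lemY hν hD hX z x
  have h2 := cN_nonneg (G := G) (W := X) hν z x
  have h3 := cN_le (G := G) (W := X) hν z x
  set p := cN G ν X z x
  set l := dN G ν X z
  have h4 : f * max (cN G ν W z x - b) 0 ≤ (1 - b) * (max (cN G ν W z x - b) 0 + p) +
      f / 4 * (f - l) := by
    rcases le_total (cN G ν W z x - b) 0 with h7 | h7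
    · rw [max_eq_right h7]
      have := mul_nonneg (sub_nonneg.2 hb1) h2
      have := mul_nonneg hf0.le (sub_nonneg.2 hg)
      nlinarith
    · rw [max_eq_left h7]
      have h8 : (f - (1 - b)) * (cN G ν W z x - b) ≤ (f - (1 - b)) * (1 - b - l + p) :=
        mul_le_mul_of_nonneg_left (by linarith) (by linarith)
      have h9 : f * ((f - (1 - b)) * (1 - b - l + p)) ≤ f * ((1 - b) * p + f / 4 * (f - l)) := by
        have k1 := mul_nonneg h2 (sq_nonneg (1 - b))
        have k2 := mul_nonneg (sub_nonneg.2 hg) (sq_nonneg (f / 2 - (1 - b)))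
        have k3 := mul_nonneg (sub_nonneg.2 h3) (sq_nonneg (f - (1 - b)))
        nlinarith
      have := le_of_mul_le_mul_left h9 hf0
      linarith
  have := mul_le_mul_of_nonneg_left h4 (ad_nonneg (G := G) z x)
  linarith

theorem lemC2 (hν : 0 ≤ ν) (hS : S ⊆ W) (hX : X ⊆ S) (b : ℝ) (z : V) :
    cR G ν W (W \ S) b z + pR G ν X (W \ S) z ≤
      eN G ν W b z + b * dN G ν X z - pR G ν X S z := by
  have h1 : eN G ν W b z = cR G ν W S b z + cR G ν W (W \ S) b z := mS_sdiff hS _
  have h2 : cR G ν W X b z ≤ cR G ν W S b z :=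
    mS_mono hν hX fun _ _ => mul_nonneg (ad_nonneg _ _) (le_max_right _ _)
  have h3 : pR G ν X W z = pR G ν X S z + pR G ν X (W \ S) z := mS_sdiff hS _
  have h4 : pR G ν X W z - b * dN G ν X z ≤ cR G ν W X b z := by
    rw [pR, swapN, dN, ← mS_mul, ← mS_sub, cR]
    refine mS_le hν fun u _ => ?_
    have := mul_le_mul_of_nonneg_left (le_max_left (cN G ν W z u - b) 0) (ad_nonneg (G := G) z u)
    linarith
  linarith

omit [DecidableEq V] in
theorem lemC3 (hν : 0 ≤ ν) (hD : ∀ B x, dN G ν B x ≤ 1) {f : ℝ} (hf : f = ν * X.card) (z : V) :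
    (mS ν S fun w => ad G z w * dN G ν X w) - (f - dN G ν X z) ≤ pR G ν X S z := by
  have hg : dN G ν X z ≤ f := hf ▸ dN_card hν z
  have h1 : ∀ w, dN G ν X w - (f - dN G ν X z) ≤ cN G ν X z w := by
    intro w
    have h2 : f = mS ν X fun _ => 1 := by rw [mS_const, mul_one, hf]
    rw [h2, dN, dN, ← mS_sub, ← mS_sub, cN]
    refine mS_le hν fun u _ => ?_
    have := mul_nonneg (sub_nonneg.2 (ad_le_one (G := G) z u)) (sub_nonneg.2 (ad_le_one (G := G) w u))
    nlinarith
  have h3 : (mS ν S fun w => ad G z w * dN G ν X w) - dN G ν S z * (f - dN G ν X z) ≤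
      pR G ν X S z := by
    rw [dN.eq_1 G ν S, ← mS_mul', ← mS_sub, pR]
    refine mS_le hν fun w _ => ?_
    have := mul_le_mul_of_nonneg_left (h1 w) (ad_nonneg (G := G) z w)
    linarith
  have h4 : dN G ν S z * (f - dN G ν X z) ≤ f - dN G ν X z :=
    mul_le_of_le_one_left (by linarith) (hD S z)
  linarith

theorem lemC4 (hν : 0 ≤ ν) (hD : ∀ B x, dN G ν B x ≤ 1) (hX : X ⊆ W) {b : ℝ} (hb1 : b ≤ 1)
    {z : V} (hz : 1 - b < dN G ν X z) :
    dN G ν X z * cR G ν W R b z ≤ (1 - b) * mS ν X fun u => ad G z u * dN G ν R u := by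
  have h0 : dN G ν X z * cR G ν W R b z ≤ (1 - b) * pR G ν X R z := by
    rw [cR, pR, ← mS_mul, ← mS_mul]
    refine mS_le hν fun x _ => ?_
    have h1 := lemY hν hD hX z x
    have h2 := cN_nonneg (G := G) (W := X) hν z x
    have h3 := cN_le (G := G) (W := X) hν z x
    set p := cN G ν X z x
    set l := dN G ν X z
    have h4 : l * max (cN G ν W z x - b) 0 ≤ (1 - b) * p := by
      rcases le_total (cN G ν W z x - b) 0 with h7 | h7
      · rw [max_eq_right h7, mul_zero]; exact mul_nonneg (by linarith) h2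
      · rw [max_eq_left h7]
        have h8 : l * (cN G ν W z x - b) ≤ l * (1 - b - l + p) :=
          mul_le_mul_of_nonneg_left (by linarith) (by linarith)
        have h9 : 0 ≤ (l - (1 - b)) * (l - p) := mul_nonneg (by linarith) (by linarith)
        nlinarith
    have := mul_le_mul_of_nonneg_left h4 (ad_nonneg (G := G) z x)
    linarith
  refine h0.trans (mul_le_mul_of_nonneg_left ?_ (by linarith))
  rw [pR, swapN]
  refine mS_le hν fun u _ => mul_le_mul_of_nonneg_left ?_ (ad_nonneg _ _)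
  rw [cN_symm]
  exact cN_le hν u z

theorem lemOm (hν : 0 ≤ ν) (hD : ∀ B x, dN G ν B x ≤ 1) (hS : S ⊆ W) :
    mS ν X (dN G ν (W \ S)) ≤ ν * X.card - mS ν S (dN G ν X) := by
  have h1 : mS ν X (dN G ν (W \ S)) ≤ mS ν X fun z => 1 - dN G ν S z :=
    mS_le hν fun z _ => dN_rest hν hD hS (subset_refl _) z
  have h2 : (mS ν X fun z => dN G ν S z) = mS ν S (dN G ν X) := by
    have := swapD (G := G) (ν := ν) (R := X) (S := S) fun _ => 1
    simp only [mul_one] at this
    exact this
  rw [mS_sub, mS_const, mul_one, h2] at h1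
  exact h1

end Pool.Agent.GL3
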