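import Pool.Agent.P.MP_dfe42f_co.HgB6a

/-! Section B2(b), the sums over `X` and `S \ X`. -/

namespace Pool.Agent.GL3
open Finset

variable {V : Type} [DecidableEq V] {G : SimpleGraph V} {ν : ℝ} {W S X : Finset V}

theorem core (hν : 0 ≤ ν) (hD : ∀ B x, dN G ν B x ≤ 1) (hS : S ⊆ W) (hX : X ⊆ S)
    {b f ob D Om GX G1 h1 : ℝ} (hb1 : b ≤ 1) (hf : f = ν * X.card) (hfe : 1 - b < f)
    (hh : h1 = ν * (S \ X).card) (hGX : GX = mS ν X fun z => f - dN G ν X z)
    (hG1 : G1 = mS ν (S \ X) fun z => f - dN G ν X z) (hOm : Om = f * (1 - f - h1) + GX + G1)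
    (hob : ∀ z ∈ X, dN G ν (W \ S) z ≤ ob)
    (hH : ∀ z ∈ S \ X, 1 - b < dN G ν X z) (hE : ∀ z ∈ X, eN G ν W b z ≤ 1 - b - D) :
    f * (mS ν S (cR G ν W (W \ S) b) + mS ν S fun z => dN G ν (W \ S) z * (f - dN G ν X z)) ≤
      (1 - b) * (f * (1 - b - D) + b * (f * f - GX) - f * (f - Om) + f * GX + GX) +
      5 / 4 * f * ob * GX + (1 - b) * h1 * Om + (1 - b) * ob * G1 +
      G1 * (f - (1 - b) * f + (1 - b) ^ 2) := by
  have hXW : X ⊆ W := hX.trans hS
  have hg : ∀ z, 0 ≤ f - dN G ν X z := fun z => sub_nonneg.2 (hf ▸ dN_card hν z)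
  have hf0 : 0 < f := by linarith
  have he0 : 0 ≤ 1 - b := by linarith
  have lX : mS ν X (dN G ν X) = f * f - GX := by
    rw [hGX, mS_sub, mS_const, ← hf]; ring
  have l1 : mS ν (S \ X) (dN G ν X) = h1 * f - G1 := by
    rw [hG1, mS_sub, mS_const, ← hh]; ring
  have lS : mS ν S (dN G ν X) = f - Om := by
    rw [mS_sdiff hX, lX, l1, hOm]; ring
  have hoX : mS ν X (dN G ν (W \ S)) ≤ Om := by
    have := lemOm (X := X) hν hD hS
    rw [lS, ← hf] at this
    linarith
  have oX : (mS ν X fun z => dN G ν (W \ S) z * (f - dN G ν X z)) ≤ ob * GX := by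
    rw [hGX, ← mS_mul]
    exact mS_le hν fun z hz => mul_le_mul_of_nonneg_right (hob z hz) (hg z)
  set K1 := mS ν (S \ X) fun z => dN G ν X z * (f - dN G ν X z) with hK1
  have o1 : (mS ν (S \ X) fun z => dN G ν (W \ S) z * (f - dN G ν X z)) ≤ G1 - K1 := by
    rw [hG1, hK1, ← mS_sub]
    refine mS_le hν fun z _ => ?_
    have := mul_le_mul_of_nonneg_right (dN_rest hν hD hS hX z) (hg z)
    linarith
  have k1 : (1 - b) * G1 ≤ K1 := by
    rw [hG1, hK1, ← mS_mul]
    exact mS_le hν fun z hz => mul_le_mul_of_nonneg_right (hH z hz).le (hg z)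
  have sq1 : f * (f - Om) - f * GX - K1 ≤ mS ν S fun w => dN G ν X w * dN G ν X w := by
    have a1 : (mS ν S fun w => dN G ν X w * dN G ν X w) =
        f * mS ν S (dN G ν X) - mS ν S fun w => dN G ν X w * (f - dN G ν X w) := by
      rw [← mS_mul, ← mS_sub]
      exact mS_congr fun w _ => by ring
    have a2 : (mS ν X fun w => dN G ν X w * (f - dN G ν X w)) ≤ f * GX := by
      rw [hGX, ← mS_mul]
      exact mS_le hν fun z _ => mul_le_mul_of_nonneg_right (by have := hg z; linarith) (hg z)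
    rw [a1, lS, mS_sdiff hX, ← hK1]
    linarith
  have inX : (mS ν S fun w => dN G ν X w * dN G ν X w) - GX ≤ mS ν X (pR G ν X S) := by
    rw [← swapD, hGX, ← mS_sub]
    exact mS_le hν fun z _ => lemC3 hν hD hf z
  have cpX : (mS ν X fun z => cR G ν W (W \ S) b z + pR G ν X (W \ S) z) ≤
      f * (1 - b - D) + b * (f * f - GX) - mS ν X (pR G ν X S) := by
    have a1 : (mS ν X fun z => cR G ν W (W \ S) b z + pR G ν X (W \ S) z) ≤
        mS ν X fun z => (1 - b - D) + b * dN G ν X z - pR G ν X S z :=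
      mS_le hν fun z hz => by
        have := lemC2 (G := G) hν hS hX b z
        have := hE z hz
        linarith
    rw [mS_sub, mS_add _ fun z => b * dN G ν X z, mS_const, mS_mul, ← hf] at a1
    have a2 : (mS ν X fun z => dN G ν X z) = f * f - GX := lX
    rw [a2] at a1
    exact a1
  have cX : f * mS ν X (cR G ν W (W \ S) b) ≤
      (1 - b) * (mS ν X fun z => cR G ν W (W \ S) b z + pR G ν X (W \ S) z) +
        f / 4 * mS ν X fun z => dN G ν (W \ S) z * (f - dN G ν X z) := by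
    rw [← mS_mul, ← mS_mul, ← mS_mul, ← mS_add]
    exact mS_le hν fun z _ => lemC1 hν hD hXW hb1 hf hfe z
  have c1 : f * mS ν (S \ X) (cR G ν W (W \ S) b) ≤ (1 - b) * h1 * Om + (1 - b) * ob * G1 := by
    have a1 : (1 - b) * h1 * Om = mS ν (S \ X) fun _ => (1 - b) * Om := by
      rw [mS_const, ← hh]; ring
    rw [a1, hG1, ← mS_mul, ← mS_mul, ← mS_add]
    refine mS_le hν fun z hz => ?_
    have a2 := lemC4 (R := W \ S) hν hD hXW hb1 (hH z hz)
    have a3 : (mS ν X fun u => ad G z u * dN G ν (W \ S) u) ≤ Om :=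
      (mS_le hν fun u _ => mul_le_of_le_one_left (dN_nonneg hν u) (ad_le_one z u)).trans hoX
    have a4 : (mS ν X fun u => ad G z u * dN G ν (W \ S) u) ≤ dN G ν X z * ob := by
      rw [dN.eq_1 G ν X, ← mS_mul']
      exact mS_le hν fun u hu => mul_le_mul_of_nonneg_left (hob u hu) (ad_nonneg _ _)
    have a5 := a2.trans (mul_le_mul_of_nonneg_left a3 he0)
    have a6 := a2.trans (mul_le_mul_of_nonneg_left a4 he0)
    have a7 : 0 < dN G ν X z := by have := hH z hz; linarith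
    have a8 : cR G ν W (W \ S) b z ≤ (1 - b) * ob :=
      le_of_mul_le_mul_left (by linarith) a7
    have a9 := mul_le_mul_of_nonneg_right a8 (hg z)
    linarith
  rw [mS_sdiff hX, mS_sdiff hX]
  have b1 := mul_le_mul_of_nonneg_left oX hf0.le
  have b2 := mul_le_mul_of_nonneg_left o1 hf0.le
  have b3 := mul_le_mul_of_nonneg_left k1 (sub_nonneg.2 hfe.le)
  have b4 : (mS ν X fun z => cR G ν W (W \ S) b z + pR G ν X (W \ S) z) ≤
      f * (1 - b - D) + b * (f * f - GX) - f * (f - Om) + f * GX + GX + K1 := by linarith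
  have b5 := mul_le_mul_of_nonneg_left b4 he0
  linarith

/-- the vertices outside `S` -/
theorem outer (hν : 0 ≤ ν) (hD : ∀ B x, dN G ν B x ≤ 1) (hS : S ⊆ W) (hX : X ⊆ S) {b f : ℝ}
    (hb1 : b ≤ 1) (hf : f = ν * X.card) (hf1 : f ≤ 1) :
    mS ν (W \ S) (eN G ν W b) ≤ f * mS ν (W \ S) (eN G ν (W \ S) b) +
      ν * (W \ S).card * ((1 - f) * (1 - b)) + (mS ν S (cR G ν W (W \ S) b) +
        mS ν S fun z => dN G ν (W \ S) z * (f - dN G ν X z)) := by
  have a1 : mS ν S (cR G ν W (W \ S) b) =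
      mS ν (W \ S) fun x => mS ν S fun z => ad G x z * max (cN G ν W x z - b) 0 := by
    rw [mS_comm]
    exact mS_congr fun z _ => mS_congr fun x _ => by rw [ad_symm z x, cN_symm z x]
  rw [a1, ← swapD, ← mS_const, ← mS_mul, ← mS_add, ← mS_add, ← mS_add]
  refine mS_le hν fun x _ => ?_
  have a2 := lemX hν hD hS hX hb1 hf hf1 x
  have a3 : eN G ν W b x = _ := mS_sdiff hS _
  linarith

end Pool.Agent.GL3
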