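import Pool.Agent.P.MP_dfe42f_co.HgB3

/-! Section B: the threshold inequality for rooted triangles. -/

namespace Pool.Agent.GL3
open Finset

variable {V : Type} {G : SimpleGraph V} {ν τ : ℝ} {W : Finset V}

theorem mS_scale (k : ℝ) (f : V → ℝ) : mS (k * ν) W f = k * mS ν W f := by
  simp only [mS]; ring

theorem dN_scale (k : ℝ) (x : V) : dN G (k * ν) W x = k * dN G ν W x := mS_scale _ _

theorem cN_scale (k : ℝ) (x y : V) : cN G (k * ν) W x y = k * cN G ν W x y := mS_scale _ _

theorem tN_scale (k : ℝ) (x : V) : tN G (k * ν) W x = k ^ 2 * tN G ν W x := by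
  simp only [tN, mS_scale, cN_scale, mul_left_comm _ k, mS_mul]; ring

theorem mS_neg (f : V → ℝ) : (mS ν W fun x => - f x) = - mS ν W f := by
  simp only [mS, sum_neg_distrib, mul_neg]

theorem mS_neg_of (hν : 0 < ν) {f : V → ℝ} (h : ∀ x ∈ W, f x ≤ 0) {x : V} (hx : x ∈ W)
    (h1 : f x < 0) : mS ν W f < 0 :=
  mul_neg_of_pos_of_neg hν (by simpa using sum_lt_sum h ⟨x, hx, h1⟩)

open Classical in
/-- the non-neighbours of `v` -/
noncomputable def rm (G : SimpleGraph V) (W : Finset V) (v : V) : Finset V :=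
  W.filter fun y => ¬ G.Adj v y

theorem mS_rm (v : V) (f : V → ℝ) :
    mS ν (rm G W v) f = mS ν W fun y => (1 - ad G v y) * f y := by
  classical
  rw [mS, mS, rm, sum_filter]
  congr 1
  exact sum_congr rfl fun y _ => by rcases ad_cases (G := G) v y with h | h <;> simp [h.1, h.2]

theorem card_rm (v : V) : ν * (rm G W v).card = ν * W.card - dN G ν W v := by
  have := mS_rm (G := G) (ν := ν) (W := W) v fun _ => 1
  simp only [mul_one, mS_sub, mS_const] at this
  exact this

/-- triangles weighted by `p` of the first two vertices that meet the neighbourhood of `v` -/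
noncomputable def hT (G : SimpleGraph V) (ν : ℝ) (W : Finset V) (p : V → V → ℝ) (v : V) : ℝ :=
  mS ν W fun x => mS ν W fun y => mS ν W fun z => p x y * (ad G x z * ad G y z) *
    (1 - (1 - ad G v x) * ((1 - ad G v y) * (1 - ad G v z)))

theorem hT_eq (p : V → V → ℝ) (v : V) :
    (mS ν W fun x => mS ν W fun y => p x y * cN G ν W x y) = hT G ν W p v +
      mS ν (rm G W v) fun x => mS ν (rm G W v) fun y => p x y * cN G ν (rm G W v) x y := by
  simp only [cN, mS_rm, hT, ← mS_mul, ← mS_add]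
  exact mS_congr fun x _ => mS_congr fun y _ => mS_congr fun z _ => by ring

theorem avgM {c : V → ℕ} {e : V → V → ℕ} (X : Ctx G ν τ W 0 c e) :
    0 ≤ mS ν W fun v => ev τ (wM (c v)) * ((1 + τ) ^ 3 + τ ^ 3 -
      τ ^ 2 * mS ν W (fun y => (nz (c y) : ℝ)) - (1 + 2 * τ - dN G ν W v) ^ 3 +
      (1 + 2 * τ - dN G ν W v) ^ 2 * mS ν W (fun y => nz (c y) * (1 - ad G v y)) -
      hT G ν W (fun x y => (1 - nz (c x)) * ad G x y) v) := by
  have h := X.sound tM1 tM2 tM3 tM4 gM
  have h0 := add_nonneg (add_nonneg (add_nonneg (X.p1 cM1) (X.p2 cM2)) (X.p3 cM3)) (X.p4 cM4)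
  refine (h0.trans h).trans (le_of_eq ?_)
  rw [r1, r2, r3, r4, ← mS_add, ← mS_add, ← mS_add]
  refine mS_congr fun v _ => ?_
  have e1 : ev τ (pu 0) = 1 + τ := by simp [pu, ev]
  have e2 : ev τ (pb 0) = τ := by simp [pb, ev]
  have e3 : ev τ sM = 1 + 2 * τ := by simp [sM, ev]; ring
  have e4 : ∀ x y z : V, (1 - (nz (c x) : ℝ)) * (ad G x y * (ad G x z * ad G y z)) =
      (1 - (nz (c x) : ℝ)) * ad G x y * (ad G x z * ad G y z) := fun _ _ _ => by ring
  simp only [tM1, tM2, tM3, tM4, ev_pm, ev_pa, ev_ps, e1, e2, e3, Int.cast_mul, Int.cast_add,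
    Int.cast_sub, Int.cast_neg, Int.cast_one, Int.cast_ofNat, X.hz, e4, mS_mul', mS_sub, mS_add,
    mS_mul, mS_neg, hT, dN]
  ring

open Classical in
theorem stepM (hν : 0 < ν) (hD : ∀ x, dN G ν W x ≤ 1) {b : ℝ} (hb : 0 ≤ b) (hb1 : b < 1) {x0 : V}
    (hx : x0 ∈ W) (h0 : b ^ 2 < tN G ν W x0) : ∃ v ∈ W, b ≤ dN G ν W v ∧
      hT G ν W (fun x y => (if b ^ 2 < tN G ν W x then 1 else 0) * ad G x y) v ≤ 1 + b ^ 3 -
      b ^ 2 * mS ν W (fun y => 1 - if b ^ 2 < tN G ν W y then 1 else 0) -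
      (1 + b - dN G ν W v) ^ 3 + (1 + b - dN G ν W v) ^ 2 *
        mS ν W (fun y => (1 - if b ^ 2 < tN G ν W y then 1 else 0) * (1 - ad G v y)) := by
  have hk : 0 < 1 / (1 - b) := by have := sub_pos.2 hb1; positivity
  have hk1 : 1 / (1 - b) * (1 - b) = 1 := one_div_mul_cancel (sub_pos.2 hb1).ne'
  set k := 1 / (1 - b)
  clear_value k
  have e1 : ev (k * b) (pu 0) = k := by simp [pu, ev]; linarith
  have e2 : ev (k * b) (pb 0) = k * b := by simp [pb, ev]
  have db : ∀ x, b ^ 2 < tN G ν W x → b ≤ dN G ν W x := fun x h =>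
    (abs_le_of_sq_le_sq' (h.le.trans (tN_le hν.le x)) (dN_nonneg hν.le x)).2
  set c : V → ℕ := fun x => if b ^ 2 < tN G ν W x then 0 else if b ≤ dN G ν W x then 1 else 2
    with hc
  have X : Ctx G (k * ν) (k * b) W 0 c fun x y => if G.Adj x y then 1 else 0 :=
    { hν := by positivity
      hτ := by positivity
      sy := fun x y => by simp only [G.adj_comm]
      hz := fun x y => by unfold ad; split_ifs <;> simp [nz]
      hU := fun x => by rw [e1, dN_scale]; exact mul_le_of_le_one_right hk.le (hD x)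
      hL := fun x => by
        rw [e2, dN_scale, ← mul_sub, mul_left_comm]
        refine mul_nonneg hk.le ?_
        simp only [hc]
        split_ifs with h1 h2
        · simp [sL, db x h1]
        · simp [sL, h2]
        · simp [sL, (not_le.1 h2).le]
      hT := fun x => by
        rw [e2, tN_scale, mul_pow, ← mul_sub, mul_left_comm]
        refine mul_nonneg (sq_nonneg _) ?_
        simp only [hc]
        split_ifs with h1 h2
        · simp [sT, h1.le]
        · simp [sT, not_lt.1 h1]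
        · simp [sT, not_lt.1 h1]
      hC := fun x y => by simp [sC]
      hc := fun x => by simp only [hc]; split_ifs <;> simp
      he := fun x y => by split_ifs <;> simp_all }
  have nzc : ∀ y, (nz (c y) : ℝ) = 1 - if b ^ 2 < tN G ν W y then 1 else 0 := fun y => by
    simp only [hc]; split_ifs <;> simp [nz]
  have A := avgM X
  by_contra hh
  push Not at hh
  have key : ∀ v ∈ W, b ≤ dN G ν W v → (1 + k * b) ^ 3 + (k * b) ^ 3 -
      (k * b) ^ 2 * mS (k * ν) W (fun y => (nz (c y) : ℝ)) -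
      (1 + 2 * (k * b) - dN G (k * ν) W v) ^ 3 + (1 + 2 * (k * b) - dN G (k * ν) W v) ^ 2 *
      mS (k * ν) W (fun y => nz (c y) * (1 - ad G v y)) -
      hT G (k * ν) W (fun x y => (1 - nz (c x)) * ad G x y) v < 0 := fun v hv h => by
    have h1 := mul_lt_mul_of_pos_left (hh v hv h) (pow_pos hk 3)
    have h2 : 1 + k * b = k := by linarith
    have h3 : 1 + 2 * (k * b) = k * (1 + b) := by linarith
    simp only [nzc, sub_sub_cancel, h2, h3, hT, mS_scale, dN_scale, mS_mul] at h1 ⊢
    linarith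
  have kb : 0 ≤ k * b := by positivity
  refine absurd A (not_le.2 (mS_neg_of (by positivity) (fun v hv => ?_) hx ?_))
  · by_cases h : b ≤ dN G ν W v
    · refine mul_nonpos_of_nonneg_of_nonpos (ev_nn kb ?_) (key v hv h).le
      unfold wM; split_ifs <;> rfl
    · have : c v = 2 := by simp only [hc]; rw [if_neg fun h1 => h (db v h1), if_neg h]
      simp [this, wM, ev]
  · refine mul_neg_of_pos_of_neg ?_ (key _ hx (db _ h0))
    have : c x0 = 0 := by simp only [hc]; rw [if_pos h0]
    simp only [this, wM, if_true, ev]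
    positivity

theorem ineqM (hν : 0 < ν) (hD : ∀ B x, dN G ν B x ≤ 1) (a : ℕ) : ∀ (W : Finset V) (b : ℝ),
    0 ≤ b → b ≤ 1 → ν * W.card ≤ a + b →
    (mS ν W fun x => max (tN G ν W x - b ^ 2) 0) ≤ a * (1 - b ^ 2) := by
  classical
  induction a with
  | zero =>
    intro W b hb _ hW
    have : ∀ x ∈ W, max (tN G ν W x - b ^ 2) 0 = 0 := fun x _ => by
      have h1 : dN G ν W x ≤ ν * W.card * 1 := by
        rw [← mS_const]; exact mS_le hν.le fun _ _ => ad_le_one _ _
      have h2 := pow_le_pow_left₀ (dN_nonneg hν.le x) (show dN G ν W x ≤ b by simp at hW; linarith) 2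
      exact max_eq_right (by linarith [tN_le (G := G) (W := W) hν.le x])
    rw [mS_congr this, mS_zero]
    simp
  | succ a ih =>
    intro W b hb hb1 hW
    have b2 : 0 ≤ 1 - b ^ 2 := by nlinarith
    by_cases h : ∃ x ∈ W, b ^ 2 < tN G ν W x
    swap
    · push Not at h
      rw [mS_congr fun x hx => max_eq_right (sub_nonpos.2 (h x hx)), mS_zero]
      positivity
    obtain ⟨x0, hx, h0⟩ := h
    have hb2 : b < 1 := by
      have := (h0.trans_le (tN_le hν.le x0)).trans_le
        (pow_le_one₀ (dN_nonneg hν.le x0) (hD W x0))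
      nlinarith
    obtain ⟨v, -, h1, h2⟩ := stepM hν (hD W) hb hb2 hx h0
    set p : V → ℝ := fun x => if b ^ 2 < tN G ν W x then 1 else 0 with hp
    have p0 : ∀ x, 0 ≤ p x ∧ p x ≤ 1 := fun x => by simp only [hp]; split_ifs <;> norm_num
    have h3 := hT_eq (G := G) (ν := ν) (W := W) (fun x y => p x * ad G x y) v
    have h4 := card_rm (G := G) (ν := ν) (W := W) v
    have h5 := hD W v
    push_cast at hW ⊢
    have h6 := ih (rm G W v) (1 + b - dN G ν W v) (by linarith) (by linarith) (by linarith)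
    set b1 := 1 + b - dN G ν W v with hb1'
    have h7 : (mS ν W fun x => max (tN G ν W x - b ^ 2) 0) =
        mS ν W fun x => p x * tN G ν W x - b ^ 2 * p x := mS_congr fun x _ => by
      simp only [hp]
      split_ifs with h
      · rw [max_eq_left (sub_nonneg.2 h.le)]; ring
      · rw [max_eq_right (sub_nonpos.2 (not_lt.1 h))]; ring
    have h8 : (mS ν (rm G W v) fun x => p x * tN G ν (rm G W v) x) ≤ mS ν (rm G W v) fun x =>
        max (tN G ν (rm G W v) x - b1 ^ 2) 0 + b1 ^ 2 * p x := mS_le hν.le fun x _ => by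
      have := mul_le_mul_of_nonneg_left (le_max_left (tN G ν (rm G W v) x - b1 ^ 2) 0) (p0 x).1
      have := mul_le_of_le_one_left (le_max_right (tN G ν (rm G W v) x - b1 ^ 2) 0) (p0 x).2
      linarith
    have h9 : mS ν (rm G W v) p = ν * W.card - dN G ν W v -
        mS ν W fun y => (1 - p y) * (1 - ad G v y) := by
      rw [mS_rm, dN, ← mul_one (ν * W.card), ← mS_const, ← mS_sub, ← mS_sub]
      exact mS_congr fun y _ => by ring
    simp only [mul_assoc, mS_mul] at h3
    rw [mS_add, mS_mul, h9] at h8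
    rw [h7, mS_sub, mS_mul]
    rw [mS_sub, mS_const] at h2
    have h10 : 0 ≤ (b1 ^ 2 - b ^ 2) * (a + 1 + b - ν * W.card) :=
      mul_nonneg (by nlinarith) (by linarith)
    have h11 : dN G ν W v = 1 + b - b1 := by rw [hb1']; ring
    change mS ν W (fun x => p x * tN G ν W x) = _ + mS ν _ (fun x => p x * tN G ν _ x) at h3
    change _ ≤ 1 + b ^ 3 - b ^ 2 * (ν * W.card * 1 - mS ν W p) - b1 ^ 3 +
      b1 ^ 2 * mS ν W fun y => (1 - p y) * (1 - ad G v y) at h2
    rw [h11] at h8
    linarith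

theorem ineqT (hν : 0 < ν) (hD : ∀ B x, dN G ν B x ≤ 1) (a : ℕ) (W : Finset V) {b : ℝ}
    (hb : 0 ≤ b) (hb1 : b ≤ 1) (hW : ν * W.card ≤ a + b) : mS ν W (tN G ν W) ≤ a + b ^ 3 := by
  have h1 := ineqM hν hD a W b hb hb1 hW
  have h2 : mS ν W (tN G ν W) ≤ mS ν W fun x => max (tN G ν W x - b ^ 2) 0 + b ^ 2 :=
    mS_le hν.le fun x _ => by linarith [le_max_left (tN G ν W x - b ^ 2) 0]
  rw [mS_add, mS_const] at h2
  nlinarith [mul_le_mul_of_nonneg_right hW (sq_nonneg b)]

end Pool.Agent.GL3
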