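import Pool.Agent.P.MP_dfe42f_co.HgB4
import Pool.Agent.P.MP_dfe42f_co.HgB7a

/-! Section B: the threshold inequality for codegrees, small remainder. -/

namespace Pool.Agent.GL3
open Finset

variable {V : Type} {G : SimpleGraph V} {ν τ : ℝ} {W : Finset V}

theorem avgE {c : V → ℕ} {e : V → V → ℕ} (X : Ctx G ν τ W 1 c e) (p : V → V → ℝ)
    (hp : ∀ x y, (tw (e x y) : ℝ) = p x y) :
    0 ≤ mS ν W fun v => ev τ (wE (c v)) * ((1 + 20 * τ) ^ 3 -
      (1 + 20 * τ - dN G ν W v) * (13 * τ * (1 + 20 * τ) - (1 + 20 * τ) * (ν * W.card) +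
        mS ν W fun x => mS ν W fun y => p x y) -
      (1 + 33 * τ - dN G ν W v) * ((1 + 20 * τ) ^ 2 -
        mS ν W fun x => mS ν W fun y => p x y * (1 - (1 - ad G v x) * (1 - ad G v y))) -
      hT G ν W p v) +
      ev τ (wC (c v)) * ((dN G ν W v - 13 * τ) * (1 + 20 * τ - mS ν W fun x => p v x) ^ 2) +
      ev τ (wD (c v)) * ((dN G ν W v - 13 * τ) *
        mS ν W fun x => p v x * mS ν W fun y => p v y * (1 - ad G x y)) := by
  have h := X.sound tE1 tE2 tE3 tE4 gE
  have h0 := add_nonneg (add_nonneg (add_nonneg (X.p1 cE1) (X.p2 cE2)) (X.p3 cE3)) (X.p4 cE4)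
  refine (h0.trans h).trans (le_of_eq ?_)
  rw [r1, r2, r3, r4, ← mS_add, ← mS_add, ← mS_add]
  refine mS_congr fun v _ => ?_
  have e1 : ev τ (pu 1) = 1 + 20 * τ := by simp [pu, ev]; ring
  have e2 : ev τ (pb 1) = 13 * τ := by simp [pb, ev]; ring
  have e3 : ev τ sE = 1 + 33 * τ := by simp [sE, ev]; ring
  simp only [tE1, tE2, tE3, tE4, ev_pm, ev_pa, ev_ps, e1, e2, e3, Int.cast_mul,
    Int.cast_sub, Int.cast_neg, Int.cast_one, Int.cast_ofNat, X.hz, hp, mS_mul', mS_sub, mS_add,
    mS_mul, mS_neg, mS_const, hT, dN]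
  ring

open Classical in
/-- heavy edges -/
noncomputable def hv (G : SimpleGraph V) (ν : ℝ) (W : Finset V) (b : ℝ) (x y : V) : ℝ :=
  if G.Adj x y ∧ b < cN G ν W x y then 1 else 0

theorem hv_nonneg (b : ℝ) (x y : V) : 0 ≤ hv G ν W b x y := by
  unfold hv; split_ifs <;> norm_num

theorem hv_le (b : ℝ) (x y : V) : hv G ν W b x y ≤ ad G x y := by
  unfold hv ad; split_ifs with h1 h2 <;> simp_all

theorem eN_eq (b : ℝ) (x : V) :
    eN G ν W b x = mS ν W fun y => hv G ν W b x y * cN G ν W x y - b * hv G ν W b x y := by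
  refine mS_congr fun y _ => ?_
  unfold hv
  split_ifs with h
  · rw [max_eq_left (sub_nonneg.2 h.2.le), ad, if_pos h.1]; ring
  · rcases ad_cases (G := G) x y with h1 | h1
    · rw [max_eq_right (sub_nonpos.2 (not_lt.1 fun h2 => h ⟨h1.1, h2⟩))]; ring
    · rw [h1.2]; ring

theorem eN_le (hν : 0 ≤ ν) (b : ℝ) {x : V} (h : dN G ν W x ≤ 1) :
    eN G ν W b x ≤ max (dN G ν W x - b) 0 := by
  refine (mS_le hν fun y _ => mul_le_mul_of_nonneg_left
    (max_le_max_right 0 (sub_le_sub_right (cN_le hν x y) b)) (ad_nonneg x y)).trans ?_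
  rw [mS_mul']
  exact mul_le_of_le_one_left (le_max_right _ _) h

open Classical in
theorem avgE' (hν : 0 < ν) (hD : ∀ x, dN G ν W x ≤ 1) {b : ℝ} (hb : 0 ≤ b) (hb1 : b < 13 / 20) :
    0 ≤ mS ν W fun v => (if b ≤ dN G ν W v then 1 else 0) * (20 * (1 -
      (1 - dN G ν W v) * (b - ν * W.card + mS ν W fun x => mS ν W fun y => hv G ν W b x y) -
      (1 + b - dN G ν W v) * (1 - mS ν W fun x => mS ν W fun y =>
        hv G ν W b x y * (1 - (1 - ad G v x) * (1 - ad G v y))) - hT G ν W (hv G ν W b) v) -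
      (dN G ν W v - b) * ((1 - mS ν W fun x => hv G ν W b v x) ^ 2 + 20 * b / 13 *
        mS ν W fun x => hv G ν W b v x * mS ν W fun y => hv G ν W b v y * (1 - ad G x y))) := by
  have hq : 0 < 13 - 20 * b := by linarith
  have hk : 0 < 13 / (13 - 20 * b) := by positivity
  have hk1 : 13 / (13 - 20 * b) * (13 - 20 * b) = 13 := div_mul_cancel₀ _ hq.ne'
  set k := 13 / (13 - 20 * b)
  clear_value k
  have h2 : 1 + 20 * (k * b / 13) = k := by linarith
  have h3 : 13 * (k * b / 13) = k * b := by ring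
  have h4 : 1 + 33 * (k * b / 13) = k * (1 + b) := by linarith
  have e1 : ev (k * b / 13) (pu 1) = k := by simp [pu, ev]; linarith
  have e2 : ev (k * b / 13) (pb 1) = k * b := by simp [pb, ev]
  set c : V → ℕ := fun x => if b ≤ dN G ν W x then 0 else 2 with hc
  set e : V → V → ℕ := fun x y => if G.Adj x y then (if b < cN G ν W x y then 2 else 1) else 0
    with he
  have X : Ctx G (k * ν) (k * b / 13) W 1 c e :=
    { hν := by positivity
      hτ := by positivity
      sy := fun x y => by simp only [he, G.adj_comm, cN_symm x y]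
      hz := fun x y => by simp only [he]; unfold ad; split_ifs <;> simp [nz]
      hU := fun x => by rw [e1, dN_scale]; exact mul_le_of_le_one_right hk.le (hD x)
      hL := fun x => by
        rw [e2, dN_scale, ← mul_sub, mul_left_comm]
        refine mul_nonneg hk.le ?_
        simp only [hc]
        split_ifs with h1
        · simp [sL, h1]
        · simp [sL, (not_le.1 h1).le]
      hT := fun x => by simp [sT]
      hC := fun x y => by
        rw [e2, cN_scale, ← mul_sub, mul_left_comm]
        refine mul_nonneg hk.le ?_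
        simp only [he]
        split_ifs with h1 h2
        · simp [sC, h2.le]
        · simp [sC, not_lt.1 h2]
        · simp [sC]
      hc := fun x => by simp only [hc]; split_ifs <;> simp
      he := fun x y => by
        by_cases h : G.Adj x y ∧ b < cN G ν W x y
        · have a1 := h.2.le.trans (cN_le hν.le x y)
          have a2 := h.2.le.trans ((cN_symm x y).trans_le (cN_le hν.le y x))
          simp [hc, he, h.1, h.2, a1, a2]
        · have : e x y = 0 ∨ e x y = 1 := by
            simp only [he]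
            split_ifs with h1 h2
            · exact absurd ⟨h1, h2⟩ h
            · simp
            · simp
          split_ifs <;> rcases this with h | h <;> simp [h] }
  have A := avgE X (hv G ν W b) fun x y => by
    simp only [he, hv]
    by_cases h1 : G.Adj x y <;> by_cases h2 : b < cN G ν W x y <;> simp [tw, h1, h2]
  rw [mS_scale] at A
  refine nonneg_of_mul_nonneg_right (a := k * (147 * k ^ 4)) (A.trans (le_of_eq ?_)) (by positivity)
  rw [mul_assoc k (147 * k ^ 4), ← mS_mul (147 * k ^ 4)]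
  congr 1
  refine mS_congr fun v _ => ?_
  simp only [h2, h3, h4, hT, mS_scale, dN_scale, mS_mul, mul_left_comm _ k, hc]
  split_ifs
  · have w1 : ev (k * b / 13) (wE 0) = 2940 * k := by simp [wE, ev]; linarith
    have w2 : ev (k * b / 13) (wC 0) = -147 * k := by simp [wC, ev]; linarith
    have w3 : ev (k * b / 13) (wD 0) = -2940 * (k * b / 13) := by simp [wD, ev]; ring
    rw [w1, w2, w3]
    ring
  · simp [wE, wC, wD, ev]

theorem smallE (hν : 0 < ν) (hD : ∀ B x, dN G ν B x ≤ 1) {a b e : ℝ} (ha : 1 ≤ a)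
    (he : 0 ≤ e) (he1 : e ≤ 1) (hb : e / 4 ≤ b) (hb1 : b < 13 / 20) (hW : ν * W.card ≤ a + b)
    (ht : ∀ x ∈ W, tN G ν W x ≤ 1 - e)
    (ih : ∀ (W' : Finset V) (b1 : ℝ), 0 ≤ b1 → b1 ≤ 1 → ν * W'.card ≤ a - 1 + b1 →
      mS ν W' (eN G ν W' b1) ≤ (a - 1) * (1 - b1)) :
    mS ν W (eN G ν W b) ≤ a * (1 - b) - e ^ 2 / 100000 := by
  classical
  have hb0 : 0 ≤ b := by linarith
  by_contra hh
  push Not at hh
  have e2 : e ^ 2 ≤ 1 := pow_le_one₀ he he1
  have A := avgE' hν (hD W) hb0 hb1
  set p := hv G ν W b with hp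
  have E1 : mS ν W (eN G ν W b) = (mS ν W fun x => mS ν W fun y => p x y * cN G ν W x y) -
      b * mS ν W fun x => mS ν W fun y => p x y := by
    rw [← mS_mul, ← mS_sub]
    exact mS_congr fun x _ => by rw [eN_eq, mS_sub, mS_mul]
  -- no vertex has a gap
  have key : ∀ v, b ≤ dN G ν W v → 1 -
      (1 - dN G ν W v) * (b - ν * W.card + mS ν W fun x => mS ν W fun y => p x y) -
      (1 + b - dN G ν W v) * (1 - mS ν W fun x => mS ν W fun y =>
        p x y * (1 - (1 - ad G v x) * (1 - ad G v y))) - hT G ν W p v < e ^ 2 / 100000 := by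
    intro v h1
    have h3 := hT_eq (G := G) (ν := ν) (W := W) p v
    have h4 := card_rm (G := G) (ν := ν) (W := W) v
    have h5 := hD W v
    have h6 := ih (rm G W v) (1 + b - dN G ν W v) (by linarith) (by linarith) (by linarith)
    set b1 := 1 + b - dN G ν W v with hb1'
    have h8 : (mS ν (rm G W v) fun x => mS ν (rm G W v) fun y => p x y * cN G ν (rm G W v) x y) ≤
        mS ν (rm G W v) fun x => eN G ν (rm G W v) b1 x + b1 * mS ν (rm G W v) fun y => p x y := by
      refine mS_le hν.le fun x _ => ?_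
      rw [eN, ← mS_mul, ← mS_add]
      refine mS_le hν.le fun y _ => ?_
      have := mul_le_mul_of_nonneg_left (le_max_left (cN G ν (rm G W v) x y - b1) 0)
        (hv_nonneg (G := G) (ν := ν) (W := W) b x y)
      have := mul_le_mul_of_nonneg_right (hv_le (G := G) (ν := ν) (W := W) b x y)
        (le_max_right (cN G ν (rm G W v) x y - b1) 0)
      linarith
    have h9 : (mS ν (rm G W v) fun x => mS ν (rm G W v) fun y => p x y) =
        (mS ν W fun x => mS ν W fun y => p x y) - mS ν W fun x => mS ν W fun y =>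
          p x y * (1 - (1 - ad G v x) * (1 - ad G v y)) := by
      simp only [mS_rm, ← mS_mul, ← mS_sub]
      exact mS_congr fun x _ => mS_congr fun y _ => by ring
    rw [mS_add, mS_mul, h9] at h8
    have h10 : 0 ≤ (b1 - b) * (a + b - ν * W.card) := mul_nonneg (by linarith) (by linarith)
    have h11 : dN G ν W v = 1 + b - b1 := by rw [hb1']; ring
    rw [h11]
    linarith
  have slack : ∀ v ∈ W, e ^ 2 / 16 ≤ (1 - mS ν W fun x => p v x) ^ 2 + 20 * b / 13 *
      mS ν W fun x => p v x * mS ν W fun y => p v y * (1 - ad G x y) := by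
    intro v hv
    have s1 : (mS ν W fun x => p v x * mS ν W fun y => p v y * ad G x y) ≤ tN G ν W v :=
      mS_le hν.le fun x _ => mul_le_mul (hv_le b v x) (mS_le hν.le fun y _ =>
        mul_le_mul_of_nonneg_right (hv_le b v y) (ad_nonneg _ _))
        (mS_nonneg hν.le fun y _ => mul_nonneg (hv_nonneg b v y) (ad_nonneg _ _)) (ad_nonneg _ _)
    have s2 : (mS ν W fun x => p v x * mS ν W fun y => p v y * (1 - ad G x y)) =
        (mS ν W fun x => p v x) ^ 2 - mS ν W fun x => p v x * mS ν W fun y => p v y * ad G x y := by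
      simp only [mul_sub, mul_one, mS_sub, mS_mul']; ring
    have s3 : 0 ≤ mS ν W fun x => p v x * mS ν W fun y => p v y * (1 - ad G x y) :=
      mS_nonneg hν.le fun x _ => mul_nonneg (hv_nonneg b v x) (mS_nonneg hν.le fun y _ =>
        mul_nonneg (hv_nonneg b v y) (sub_nonneg.2 (ad_le_one _ _)))
    have s4 := ht v hv
    set f := mS ν W fun x => p v x
    set m := mS ν W fun x => p v x * mS ν W fun y => p v y * (1 - ad G x y)
    rcases le_total (e / 4) (1 - f) with h | h
    · have := pow_le_pow_left₀ (by positivity) h 2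
      have : 0 ≤ 20 * b / 13 * m := by positivity
      linarith
    · have h1 : e / 2 ≤ m := by nlinarith [sq_nonneg (1 - f)]
      have := mul_le_mul hb h1 (by positivity) hb0
      nlinarith [sq_nonneg (1 - f)]
  have ex : ∃ x ∈ W, b ≤ dN G ν W x := by
    by_contra h
    push Not at h
    have : mS ν W (eN G ν W b) ≤ mS ν W fun _ => 0 := mS_le hν.le fun x hx =>
      (eN_le hν.le b (hD W x)).trans (max_eq_right (sub_nonpos.2 (h x hx).le)).le
    rw [mS_zero] at this
    nlinarith
  obtain ⟨x0, hx, h0⟩ := ex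
  set R : V → ℝ := fun v => 20 * (1 -
      (1 - dN G ν W v) * (b - ν * W.card + mS ν W fun x => mS ν W fun y => p x y) -
      (1 + b - dN G ν W v) * (1 - mS ν W fun x => mS ν W fun y =>
        p x y * (1 - (1 - ad G v x) * (1 - ad G v y))) - hT G ν W p v) -
      (dN G ν W v - b) * ((1 - mS ν W fun x => p v x) ^ 2 + 20 * b / 13 *
        mS ν W fun x => p v x * mS ν W fun y => p v y * (1 - ad G x y)) with hR
  have k2 : ∀ v ∈ W, b ≤ dN G ν W v → R v - e ^ 2 / 5000 + e ^ 2 / 16 * eN G ν W b v < 0 := by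
    intro v hv h
    have a1 := key v h
    have a2 := mul_le_mul_of_nonneg_left (slack v hv) (sub_nonneg.2 h)
    have a3 := mul_le_mul_of_nonneg_left ((eN_le hν.le b (hD W v)).trans
      (max_eq_left (sub_nonneg.2 h)).le) (show 0 ≤ e ^ 2 / 16 by positivity)
    simp only [hR]
    linarith
  have B : (mS ν W fun v => (if b ≤ dN G ν W v then 1 else 0) * R v - e ^ 2 / 5000 +
      e ^ 2 / 16 * eN G ν W b v) < 0 := by
    refine mS_neg_of hν (fun v hv => ?_) hx (by rw [if_pos h0, one_mul]; exact k2 _ hx h0)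
    split_ifs with h
    · rw [one_mul]; exact (k2 v hv h).le
    · have := mul_le_mul_of_nonneg_left ((eN_le hν.le b (hD W v)).trans
        (max_eq_right (sub_nonpos.2 (not_le.1 h).le)).le) (show 0 ≤ e ^ 2 / 16 by positivity)
      have : 0 ≤ e ^ 2 / 5000 := by positivity
      linarith
  rw [mS_add, mS_sub, mS_const, mS_mul] at B
  have b1 : a / 4 ≤ mS ν W (eN G ν W b) := by nlinarith
  have b2 := mul_le_mul_of_nonneg_left b1 (sq_nonneg e)
  have b3 := mul_le_mul_of_nonneg_right (show ν * W.card ≤ 2 * a by linarith) (sq_nonneg e)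
  have b4 : 0 ≤ e ^ 2 * a := by positivity
  change 0 ≤ mS ν W fun v => (if b ≤ dN G ν W v then 1 else 0) * R v at A
  linarith

end Pool.Agent.GL3
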