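import Pool.Agent.P.MP_dfe42f_co.HgB6
import Pool.Agent.P.MP_dfe42f_co.HgB7b

/-! Section B: the threshold inequality for codegrees. -/

namespace Pool.Agent.GL3
open Finset

variable {V : Type} [DecidableEq V] {G : SimpleGraph V} {ν : ℝ} {W : Finset V}

theorem stepE (hν : 0 < ν) (hD : ∀ B x, dN G ν B x ≤ 1) {a : ℕ} {b e : ℝ}
    (he : 0 ≤ e) (he1 : e ≤ 1) (hb : e / 4 ≤ b) (hb1 : b ≤ 1) (hW : ν * W.card ≤ a + 1 + b)
    (ht : ∀ x ∈ W, tN G ν W x ≤ 1 - e)
    (ih : ∀ (W' : Finset V) (b1 : ℝ), 0 ≤ b1 → b1 ≤ 1 → ν * W'.card ≤ a + b1 →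
      mS ν W' (eN G ν W' b1) ≤ a * (1 - b1)) :
    mS ν W (eN G ν W b) ≤ (a + 1) * (1 - b) - e ^ 2 * (1 - b) ^ 2 / 100000 := by
  have a0 : (0 : ℝ) ≤ a := Nat.cast_nonneg _
  have hb0 : 0 ≤ b := by linarith
  rcases lt_or_ge b (13 / 20) with h | h
  · have h1 := smallE hν hD (a := a + 1) (by linarith) he he1 hb h hW ht
      (by simpa only [add_sub_cancel_right] using ih)
    have h2 : (1 - b) ^ 2 ≤ 1 := pow_le_one₀ (by linarith) (by linarith)
    have := mul_le_of_le_one_right (sq_nonneg e) h2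
    linarith
  have hE : ∀ x ∈ W, eN G ν W b x ≤ 1 - b - e * (1 - b) := fun x hx => by
    have h1 : eN G ν W b x ≤ mS ν W fun y => (1 - b) * (ad G x y * cN G ν W x y) :=
      mS_le hν.le fun y _ => by
        rw [mul_left_comm]
        have c1 := (cN_le (W := W) hν.le x y).trans (hD W x)
        exact mul_le_mul_of_nonneg_left (max_le (by nlinarith)
          (mul_nonneg (sub_nonneg.2 hb1) (cN_nonneg hν.le x y))) (ad_nonneg _ _)
    rw [mS_mul] at h1
    have := mul_le_mul_of_nonneg_left (ht x hx) (sub_nonneg.2 hb1)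
    rw [tN] at this
    linarith
  rcases hb1.eq_or_lt with rfl | hb2
  · have : mS ν W (eN G ν W 1) ≤ mS ν W fun _ => 0 :=
      mS_le hν.le fun x hx => by simpa using hE x hx
    rw [mS_zero] at this
    simpa using this
  have h1 := rooted hν hD (a := a + 1) (D0 := e * (1 - b)) (by linarith) h hb2 hW
    (mul_nonneg he (by linarith)) (by nlinarith) hE fun S _ b1 p1 p2 p3 => by
      rw [add_sub_cancel_right] at p3 ⊢
      have bp : 0 < b1 := by linarith
      have q1 := ih _ b1 bp.le p2 p3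
      have q2 := ineqT hν hD a _ bp.le p2 p3
      have q3 : (mS ν (W \ S) fun x => b1 * eN G ν (W \ S) b x) ≤ mS ν (W \ S) fun x =>
          b * eN G ν (W \ S) b1 x + (b1 - b) * tN G ν (W \ S) x := mS_le hν.le fun x _ => by
        rw [eN, eN, tN, ← mS_mul, ← mS_mul, ← mS_mul, ← mS_add]
        refine mS_le hν.le fun y _ => ?_
        have c0 := cN_nonneg (G := G) (W := W \ S) hν.le x y
        have : b1 * max (cN G ν (W \ S) x y - b) 0 ≤
            b * max (cN G ν (W \ S) x y - b1) 0 + (b1 - b) * cN G ν (W \ S) x y := by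
          rw [mul_max_of_nonneg _ _ bp.le]
          have := mul_le_mul_of_nonneg_left (le_max_left (cN G ν (W \ S) x y - b1) 0) hb0
          have := mul_nonneg hb0 (le_max_right (cN G ν (W \ S) x y - b1) 0)
          have := mul_nonneg (sub_nonneg.2 p1) c0
          exact max_le (by linarith) (by linarith)
        have := mul_le_mul_of_nonneg_left this (ad_nonneg (G := G) x y)
        linarith
      rw [mS_add, mS_mul, mS_mul, mS_mul] at q3
      refine le_of_mul_le_mul_left ?_ bp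
      have := mul_le_mul_of_nonneg_left q1 hb0
      have := mul_le_mul_of_nonneg_left q2 (sub_nonneg.2 p1)
      change b1 * mS ν (W \ S) (eN G ν (W \ S) b) ≤ b * mS ν (W \ S) (eN G ν (W \ S) b1) +
        (b1 - b) * mS ν (W \ S) (tN G ν (W \ S)) at q3
      linarith
  have h2 : e ^ 2 ≤ e := by nlinarith
  have := mul_le_mul_of_nonneg_right h2 (sq_nonneg (1 - b))
  have := mul_nonneg he (sq_nonneg (1 - b))
  linarith

theorem ineqE0 (hν : 0 < ν) (hD : ∀ B x, dN G ν B x ≤ 1) (a : ℕ) : ∀ (W : Finset V) (b : ℝ),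
    0 ≤ b → b ≤ 1 → ν * W.card ≤ a + b → mS ν W (eN G ν W b) ≤ a * (1 - b) := by
  induction a with
  | zero =>
    intro W b _ _ hW
    have : mS ν W (eN G ν W b) ≤ mS ν W fun _ => 0 := mS_le hν.le fun x _ => by
      have h1 : dN G ν W x ≤ ν * W.card * 1 := by
        rw [← mS_const]; exact mS_le hν.le fun _ _ => ad_le_one _ _
      exact (eN_le hν.le b (hD W x)).trans (max_eq_right (by simp at hW; linarith)).le
    rw [mS_zero] at this
    simpa using this
  | succ a ih =>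
    intro W b hb hb1 hW
    push_cast at hW ⊢
    have := stepE hν hD (e := 0) le_rfl zero_le_one (by linarith) hb1 hW (fun x _ => by
      simpa using (tN_le hν.le x).trans (pow_le_one₀ (dN_nonneg hν.le x) (hD W x))) ih
    simpa using this

theorem ineqE (hν : 0 < ν) (hD : ∀ B x, dN G ν B x ≤ 1) {a : ℕ} (ha : 1 ≤ a) {b e : ℝ}
    (he : 0 ≤ e) (he1 : e ≤ 1) (hb : e / 4 ≤ b) (hb1 : b ≤ 1) (hW : ν * W.card ≤ a + b)
    (ht : ∀ x ∈ W, tN G ν W x ≤ 1 - e) :
    mS ν W (eN G ν W b) ≤ a * (1 - b) - e ^ 2 * (1 - b) ^ 2 / 100000 := by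
  obtain ⟨a, rfl⟩ : ∃ a', a = a' + 1 := ⟨a - 1, by omega⟩
  push_cast at hW ⊢
  exact stepE hν hD he he1 hb hb1 hW ht (ineqE0 hν hD a)

end Pool.Agent.GL3
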