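import Pool.Agent.P.MP_dfe42f_co.HgB1

/-! Star decomposition of the link and the pointwise bound at the centre. -/

namespace Pool.Agent.GL3
open Finset Pool.Agent.GLT Pool.Agent.GL2 Function

set_option linter.unusedSectionVars false

variable {α V : Type} [Fintype α] [DecidableEq α] [DecidableEq V]

open Classical in
/-- maps of the part `A` of `H` into `X`, constant outside `A` -/
noncomputable def hm (H : SimpleGraph α) (G : SimpleGraph V) (X : Finset V) (z : V)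
    (A : Finset α) : Finset (α → V) :=
  (Fintype.piFinset fun i => if i ∈ A then X else {z}).filter fun φ =>
    ∀ i ∈ A, ∀ i' ∈ A, H.Adj i i' → G.Adj (φ i) (φ i')

variable {H : SimpleGraph α} {G : SimpleGraph V} {j : ℕ} {c : α} {s : α → α}

theorem mem_hm {X : Finset V} {z : V} {A : Finset α} {φ : α → V} : φ ∈ hm H G X z A ↔
    (∀ i, φ i ∈ if i ∈ A then X else {z}) ∧
      ∀ i ∈ A, ∀ i' ∈ A, H.Adj i i' → G.Adj (φ i) (φ i') := by
  classical
  rw [hm, mem_filter, Fintype.mem_piFinset]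

theorem hm_star {X : Finset V} {z : V} {A P : Finset α} {u : α} (hu : u ∈ A) (hP : P ⊆ A)
    (h : ∀ v ∈ P, H.Adj u v) : ((hm H G X z A).card : ℝ) ≤
      (hm H G X z (A \ insert u P)).card * ∑ x ∈ X, ((nb G X x).card : ℝ) ^ P.card := by
  classical
  have := cover (T := hm H G X z (A \ insert u P) ×ˢ X) (U := hm H G X z A)
    (fun t φ => (∀ i ∈ A \ insert u P, φ i = t.1 i) ∧ φ u = t.2)
    (fun t => ((nb G X t.2).card : ℝ) ^ P.card) (fun φ hφ => ?_) fun t ht => ?_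
  · rw [sum_product] at this
    simpa only [sum_const, nsmul_eq_mul] using this
  · obtain ⟨a, b⟩ := mem_hm.1 hφ
    refine ⟨(fun i => if i ∈ A \ insert u P then φ i else z, φ u), mem_product.2 ⟨mem_hm.2
      ⟨fun i => ?_, fun i hi i' hi' h => ?_⟩, by simpa [hu] using a u⟩,
      fun i hi => (if_pos hi).symm, rfl⟩
    · dsimp only
      split_ifs with h
      · simpa [(mem_sdiff.1 h).1] using a i
      · exact mem_singleton_self _
    · dsimp only
      rw [if_pos hi, if_pos hi']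
      exact b i (mem_sdiff.1 hi).1 i' (mem_sdiff.1 hi').1 h
  · have h1 := card_le_card (show (hm H G X z A).filter (fun φ =>
        (∀ i ∈ A \ insert u P, φ i = t.1 i) ∧ φ u = t.2) ⊆ Fintype.piFinset fun i =>
        if i ∈ P then nb G X t.2 else {if i = u then t.2 else t.1 i} from fun φ hφ => by
      obtain ⟨a, b1, b2⟩ := mem_filter.1 hφ
      obtain ⟨a1, a2⟩ := mem_hm.1 a
      refine Fintype.mem_piFinset.2 fun i => ?_
      split_ifs with h1 h2
      · exact mem_nb.2 ⟨by simpa [hP h1] using a1 i, b2 ▸ a2 u hu i (hP h1) (h i h1)⟩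
      · rw [h2, b2]; exact mem_singleton_self _
      · by_cases h3 : i ∈ A
        · exact mem_singleton.2 (b1 i (by simp [h1, h2, h3]))
        · have k1 := a1 i
          have k2 := (mem_hm.1 (mem_product.1 ht).1).1 i
          rw [if_neg h3, mem_singleton] at k1
          rw [if_neg (by simp [h3]), mem_singleton] at k2
          rw [k1, k2]; exact mem_singleton_self _)
    rw [Fintype.card_piFinset] at h1
    simp only [apply_ite card, card_singleton, prod_ite_mem, univ_inter, prod_const] at h1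
    exact_mod_cast h1

theorem exists_star {A : Finset α} (hA : ∀ v ∈ A, ∃ x ∈ A, H.Adj v x) (hne : A.Nonempty) :
    ∃ u ∈ A, ∃ P ⊆ A, P.Nonempty ∧ (∀ v ∈ P, H.Adj u v) ∧
      ∀ v ∈ A \ insert u P, ∃ x ∈ A \ insert u P, H.Adj v x := by
  classical
  by_cases h : ∃ u ∈ A, ∃ v ∈ A, v ≠ u ∧ ∀ x ∈ A, H.Adj v x → x = u
  · obtain ⟨u, hu, v, hv, h1⟩ := h
    refine ⟨u, hu, A.filter fun v => v ≠ u ∧ ∀ x ∈ A, H.Adj v x → x = u, filter_subset _ _,
      ⟨v, mem_filter.2 ⟨hv, h1⟩⟩, fun v hv => ?_, fun v hv => ?_⟩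
    · obtain ⟨a, -, b⟩ := mem_filter.1 hv
      obtain ⟨x, x1, x2⟩ := hA v a
      exact (b x x1 x2 ▸ x2).symm
    · simp only [mem_sdiff, mem_insert, mem_filter, not_or, not_and, not_forall] at hv ⊢
      obtain ⟨x, x1, x2, x3⟩ := hv.2.2 hv.1 hv.2.1
      exact ⟨x, ⟨x1, x3, fun _ _ => ⟨v, hv.1, x2.symm, hv.2.1⟩⟩, x2⟩
  push Not at h
  obtain ⟨u, hu⟩ := hne
  obtain ⟨y, hy, uy⟩ := hA u hu
  refine ⟨u, hu, insert y (A.filter fun v => v ≠ u ∧ ∀ x ∈ A, H.Adj v x → x = u ∨ x = y),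
    insert_subset hy (filter_subset _ _), insert_nonempty _ _, fun v hv => ?_, fun v hv => ?_⟩
  · by_cases e : v = y
    · exact e ▸ uy
    obtain ⟨a, -, b⟩ := mem_filter.1 ((mem_insert.1 hv).resolve_left e)
    obtain ⟨x, x1, x2, x3⟩ := h y hy v a e
    exact ((b x x1 x2).resolve_right x3 ▸ x2).symm
  · simp only [mem_sdiff, mem_insert, mem_filter, not_or, not_and, not_forall] at hv ⊢
    obtain ⟨x, x1, x2, x3, x4⟩ := hv.2.2.2 hv.1 hv.2.1
    exact ⟨x, ⟨x1, x3, x4, fun _ _ => ⟨v, hv.1, x2.symm, hv.2.1, hv.2.2.1⟩⟩, x2⟩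

theorem chord {β x : ℝ} (h0 : 0 ≤ β) (h1 : β ≤ x) (h2 : x ≤ 1) (n : ℕ) :
    (x ^ n - β ^ n) * (1 - β) ≤ (x - β) * (1 - β ^ n) := by
  induction n with
  | zero => simp
  | succ n ih =>
    have a1 := mul_le_mul_of_nonneg_left ih (h0.trans h1)
    have a2 := mul_nonneg (mul_nonneg (sub_nonneg.2 h2) (sub_nonneg.2 h1))
      (sub_nonneg.2 (pow_le_one₀ (n := n) h0 (h1.trans h2)))
    rw [pow_succ, pow_succ]
    linarith

theorem chord2 {β x θ : ℝ} (h0 : 0 ≤ β) (h1 : β < 1) (x0 : 0 ≤ x) (h2 : x ≤ θ) (h3 : θ ≤ 1)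
    (n : ℕ) : x ^ (n + 1) ≤ β ^ n * x + θ * (1 - β ^ n) * (max (x - β) 0 / (1 - β)) := by
  have b1 := sub_nonneg.2 (pow_le_one₀ (n := n) h0 h1.le)
  have b2 := sub_pos.2 h1
  have t0 := x0.trans h2
  rcases le_total x β with h | h
  · have := mul_le_mul_of_nonneg_right (pow_le_pow_left₀ x0 h n) x0
    have : 0 ≤ θ * (1 - β ^ n) * (max (x - β) 0 / (1 - β)) := by positivity
    rw [pow_succ]
    linarith
  · have a1 := (le_div_iff₀ b2).2 (chord h0 h (h2.trans h3) n)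
    have a2 := mul_le_mul h2 a1 (sub_nonneg.2 (pow_le_pow_left₀ h0 h n)) t0
    rw [max_eq_left (sub_nonneg.2 h), pow_succ]
    rw [mul_comm (x - β), mul_div_assoc] at a2
    linarith

theorem ut_le {N β : ℝ} (hN : 0 < N) (h1 : β < 1) {X : Finset V} (hX : (X.card : ℝ) ≤ N) :
    (∑ x ∈ X, max (((nb G X x).card : ℝ) / N - β) 0 / (1 - β)) / N ≤
      (∑ x ∈ X, ((nb G X x).card : ℝ) / N) / N ∨ β < 0 := by
  refine (lt_or_ge β 0).symm.imp_left fun h0 => ?_
  have b2 := sub_pos.2 h1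
  refine div_le_div_of_nonneg_right (sum_le_sum fun x _ => (div_le_iff₀ b2).2
    (max_le ?_ (by positivity))) hN.le
  have := mul_le_mul_of_nonneg_left ((div_le_one hN).2
    ((Nat.cast_le.2 (card_le_card (nb_subset (G := G) X x))).trans hX)) h0
  linarith

theorem local_le {β : ℝ} (h0 : 0 ≤ β) (h1 : β < 1) (A : Finset α) :
    (∀ v ∈ A, ∃ x ∈ A, H.Adj v x) → ∃ r l : ℕ, A.card = 2 * r + l ∧ (r = 0 → A = ∅) ∧
      ∀ (V : Type) [DecidableEq V] (G : SimpleGraph V) (N : ℝ), 0 < N →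
      ∀ (X : Finset V) (z : V), (X.card : ℝ) ≤ N → ((hm H G X z A).card : ℝ) ≤ N ^ A.card *
        (β ^ l * ((∑ x ∈ X, ((nb G X x).card : ℝ) / N) / N) ^ r + (1 - β ^ l) *
          ((∑ x ∈ X, max (((nb G X x).card : ℝ) / N - β) 0 / (1 - β)) / N)) := by
  induction A using Finset.strongInduction with
  | _ A ih =>
  intro hA
  rcases A.eq_empty_or_nonempty with rfl | hne
  · refine ⟨0, 0, rfl, fun _ => rfl, fun V _ G N _ X z _ => ?_⟩
    have : (hm H G X z ∅).card ≤ 1 := card_le_one.2 fun φ a ψ b => funext fun i => by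
      have k1 := (mem_hm.1 a).1 i
      have k2 := (mem_hm.1 b).1 i
      simp only [notMem_empty, if_false, mem_singleton] at k1 k2
      rw [k1, k2]
    simpa using this
  obtain ⟨u, hu, P, hP, p1, p2, p3⟩ := exists_star hA hne
  obtain ⟨r, l, a1, -, a3⟩ := ih (A \ insert u P) (sdiff_ssubset (insert_subset hu hP)
    (insert_nonempty _ _)) p3
  obtain ⟨p, hp⟩ := Nat.exists_eq_add_of_le' p1.card_pos
  have a4 := card_sdiff_add_card_eq_card (insert_subset hu hP)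
  rw [card_insert_of_notMem fun h => (p2 u h).ne rfl] at a4
  refine ⟨r + 1, l + p, by omega, fun h => absurd h r.succ_ne_zero,
    fun V _ G N hN X z hX => (hm_star hu hP p2).trans ?_⟩
  have g0 : ∀ x, 0 ≤ ((nb G X x).card : ℝ) / N := fun x => by positivity
  have g1 : ∀ x, ((nb G X x).card : ℝ) / N ≤ 1 := fun x => (div_le_one hN).2
    ((Nat.cast_le.2 (card_le_card (nb_subset _ _))).trans hX)
  have b2 := sub_pos.2 h1
  have U1 := (ut_le (G := G) hN h1 hX).resolve_right h0.not_gt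
  have a5 := a3 V G N hN X z hX
  set t := (∑ x ∈ X, ((nb G X x).card : ℝ) / N) / N with ht
  set U := (∑ x ∈ X, max (((nb G X x).card : ℝ) / N - β) 0 / (1 - β)) / N with hU
  have t0 : 0 ≤ t := div_nonneg (sum_nonneg fun x _ => g0 x) hN.le
  have t1 : t ≤ 1 := (div_le_one hN).2 (by
    simpa using (sum_le_card_nsmul _ _ _ fun x (_ : x ∈ X) => g1 x).trans (by simpa using hX))
  have U0 : 0 ≤ U := div_nonneg (sum_nonneg fun x _ => by positivity) hN.le
  have c1 : ∑ x ∈ X, ((nb G X x).card : ℝ) ^ P.card ≤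
      N ^ (p + 2) * (β ^ p * t + (1 - β ^ p) * U) := by
    have k := sum_le_sum fun x (_ : x ∈ X) => chord2 h0 h1 (g0 x) (g1 x) le_rfl p
    rw [sum_add_distrib, ← mul_sum, ← mul_sum, one_mul] at k
    have k2 := mul_le_mul_of_nonneg_left k (pow_pos hN (p + 1)).le
    rw [mul_sum] at k2
    refine (le_of_eq (sum_congr rfl fun x _ => ?_)).trans (k2.trans (le_of_eq ?_))
    · rw [hp, ← mul_pow, mul_div_cancel₀ _ hN.ne']
    · have e1 : ∑ x ∈ X, ((nb G X x).card : ℝ) / N = t * N := (div_mul_cancel₀ _ hN.ne').symm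
      have e2 : ∑ x ∈ X, max (((nb G X x).card : ℝ) / N - β) 0 / (1 - β) = U * N :=
        (div_mul_cancel₀ _ hN.ne').symm
      rw [e1, e2]
      ring
  have bl := pow_le_one₀ (n := l) h0 h1.le
  have bp := pow_le_one₀ (n := p) h0 h1.le
  have tr := pow_le_one₀ (n := r) t0 t1
  have c2 : (β ^ l * t ^ r + (1 - β ^ l) * U) * (β ^ p * t + (1 - β ^ p) * U) ≤
      β ^ (l + p) * t ^ (r + 1) + (1 - β ^ (l + p)) * U := by
    have k1 := mul_le_mul_of_nonneg_left tr (show 0 ≤ β ^ l * ((1 - β ^ p) * U) from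
      mul_nonneg (pow_nonneg h0 _) (mul_nonneg (sub_nonneg.2 bp) U0))
    have k2 := mul_le_mul_of_nonneg_left (show β ^ p * t + (1 - β ^ p) * U ≤ 1 by
      nlinarith [pow_nonneg h0 p]) (mul_nonneg (sub_nonneg.2 bl) U0)
    rw [pow_add, pow_succ]
    linarith
  have c3 : 0 ≤ β ^ l * t ^ r + (1 - β ^ l) * U :=
    add_nonneg (mul_nonneg (pow_nonneg h0 _) (pow_nonneg t0 _)) (mul_nonneg (sub_nonneg.2 bl) U0)
  refine (mul_le_mul a5 c1 (sum_nonneg fun _ _ => pow_nonneg (Nat.cast_nonneg _) _)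
    (mul_nonneg (pow_pos hN _).le c3)).trans ?_
  rw [mul_mul_mul_comm, ← pow_add, show (A \ insert u P).card + (p + 2) = A.card by omega]
  exact mul_le_mul_of_nonneg_left c2 (pow_pos hN _).le

theorem mS_ad (ν : ℝ) (W : Finset V) (x : V) (g : V → ℝ) :
    (mS ν W fun y => ad G x y * g y) = ν * ∑ y ∈ nb G W x, g y := by
  classical
  rw [mS, nb, sum_filter]
  congr 1
  refine sum_congr rfl fun y _ => ?_
  rcases ad_cases (G := G) x y with h | h <;> simp [h.1, h.2]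

theorem cN_eq (ν : ℝ) (W : Finset V) (x y : V) :
    cN G ν W x y = ν * (nb G (nb G W x) y).card := by
  classical
  rw [cN, mS_ad]
  congr 1
  rw [nb, nb, card_filter, Nat.cast_sum]
  refine sum_congr rfl fun z _ => ?_
  rcases ad_cases (G := G) y z with h | h <;> simp [h.1, h.2]

/-- pointwise bound at the centre -/
theorem prodP (f : Lnk H c s) (hc : Fintype.card α = j + 4) {b : ℝ} (hb : 0 ≤ b) (hb1 : b ≤ 1) :
    ∃ a1 a2 : ℝ, 0 ≤ a1 ∧ 0 ≤ a2 ∧ a1 * (1 - b ^ 2) + a2 * (1 - b) ≤ 1 - b ^ (j + 1) ∧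
      ∀ (V : Type) [DecidableEq V] (G : SimpleGraph V) (ν e : ℝ) (W : Finset V), 0 < ν → 0 ≤ e →
      (∀ B x, dN G ν B x ≤ 1) → ∀ x ∈ W, tN G ν W x ≤ 1 - e →
      ν ^ (j + 3) * (((emb H G W).filter fun φ => φ c = x).card : ℝ) ≤
        min (tN G ν W x) (b ^ (j + 1) * tN G ν W x +
          (1 - e) * a1 * max (tN G ν W x - b ^ 2) 0 + a2 * eN G ν W b x) := by
  have hk : ((univ : Finset α).erase c).card = j + 3 := by
    rw [card_erase_of_mem (mem_univ _), card_univ, hc]; rfl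
  have key : ∀ β : ℝ, 0 ≤ β → β < 1 → ∃ r l : ℕ, j + 1 = 2 * r + l ∧
      ∀ (V : Type) [DecidableEq V] (G : SimpleGraph V) (ν : ℝ) (W : Finset V), 0 < ν →
      (∀ B x, dN G ν B x ≤ 1) → ∀ x, eN G ν W β x / (1 - β) ≤ tN G ν W x ∧
        ν ^ (j + 3) * (((emb H G W).filter fun φ => φ c = x).card : ℝ) ≤
          β ^ l * tN G ν W x ^ (r + 1) + (1 - β ^ l) * (eN G ν W β x / (1 - β)) := by
    intro β h0 h1
    obtain ⟨r, l, a1, a2, a3⟩ := local_le (H := H) h0 h1 (univ.erase c) fun v hv =>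
      ⟨s v, by simpa using f.sc v (ne_of_mem_erase hv), f.adj v (ne_of_mem_erase hv)⟩
    obtain ⟨r, rfl⟩ := Nat.exists_eq_succ_of_ne_zero fun h => by
      rw [a2 h, card_empty] at hk
      omega
    refine ⟨r, l, by omega, fun V _ G ν W hν hD x => ?_⟩
    have hX : ((nb G W x).card : ℝ) ≤ ν⁻¹ := by
      have := mS_ad (G := G) ν W x fun _ => 1
      simp only [mul_one, sum_const, nsmul_eq_mul] at this
      rw [← mul_one ν⁻¹, le_inv_mul_iff₀ hν, ← this]
      exact hD W x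
    have e1 : tN G ν W x = (∑ y ∈ nb G W x, ((nb G (nb G W x) y).card : ℝ) / ν⁻¹) / ν⁻¹ := by
      simp only [tN, mS_ad, cN_eq, div_inv_eq_mul, mul_comm]
    have e2 : eN G ν W β x / (1 - β) =
        (∑ y ∈ nb G W x, max (((nb G (nb G W x) y).card : ℝ) / ν⁻¹ - β) 0 / (1 - β)) / ν⁻¹ := by
      rw [← sum_div, div_right_comm]
      simp only [eN, mS_ad, cN_eq, div_inv_eq_mul, mul_comm]
    have a4 := a3 V G _ (inv_pos.2 hν) _ x hX
    have a5 : ((emb H G W).filter fun φ => φ c = x).card ≤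
        (hm H G (nb G W x) x (univ.erase c)).card := card_le_card fun φ hφ => by
      obtain ⟨k1, k2⟩ := mem_filter.1 hφ
      obtain ⟨k3, -, k4⟩ := mem_emb.1 k1
      refine mem_hm.2 ⟨fun i => ?_, fun i _ i' _ h => k4 i i' h⟩
      by_cases h : i = c
      · simp [h, k2]
      · rw [if_pos (by simpa using h)]
        exact mem_nb.2 ⟨k3 i, k2 ▸ k4 _ _ (f.dom i h)⟩
    rw [e1, e2]
    refine ⟨(ut_le (inv_pos.2 hν) h1 hX).resolve_right h0.not_gt, ?_⟩
    rw [hk, inv_pow, le_inv_mul_iff₀ (pow_pos hν _)] at a4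
    exact (mul_le_mul_of_nonneg_left (Nat.cast_le.2 a5) (pow_pos hν _).le).trans a4
  have k1 : ∀ (V : Type) [DecidableEq V] (G : SimpleGraph V) (ν e : ℝ) (W : Finset V), 0 < ν →
      0 ≤ e → (∀ B x, dN G ν B x ≤ 1) → ∀ x, tN G ν W x ≤ 1 - e →
      ν ^ (j + 3) * (((emb H G W).filter fun φ => φ c = x).card : ℝ) ≤ tN G ν W x := by
    obtain ⟨r, l, -, a2⟩ := key 0 le_rfl one_pos
    intro V _ G ν e W hν he hD x ht
    obtain ⟨a3, a4⟩ := a2 V G ν W hν hD x
    have t0 := tN_nonneg (G := G) (W := W) hν.le x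
    have b1 := mul_le_mul_of_nonneg_left (pow_le_of_le_one t0 (by linarith) r.succ_ne_zero)
      (pow_nonneg (le_refl (0 : ℝ)) l)
    have b2 := mul_le_mul_of_nonneg_left a3
      (sub_nonneg.2 (pow_le_one₀ (n := l) (le_refl (0 : ℝ)) zero_le_one))
    exact a4.trans ((add_le_add b1 b2).trans (le_of_eq (by ring)))
  rcases hb1.eq_or_lt with rfl | hb1
  · exact ⟨0, 0, le_rfl, le_rfl, by simp, fun V _ G ν e W hν he hD x _ ht => by
      simpa using k1 V G ν e W hν he hD x ht⟩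
  obtain ⟨r, l, a1, a2⟩ := key b hb hb1
  have b1 : b ^ 2 < 1 := pow_lt_one₀ hb hb1 two_ne_zero
  have b2 := sub_pos.2 b1
  have b3 := sub_pos.2 hb1
  have b4 := sub_nonneg.2 (pow_le_one₀ (n := r) (sq_nonneg b) b1.le)
  have b5 := sub_nonneg.2 (pow_le_one₀ (n := l) hb hb1.le)
  have b6 : b ^ (j + 1) = b ^ l * (b ^ 2) ^ r := by rw [a1]; ring
  refine ⟨b ^ l * (1 - (b ^ 2) ^ r) / (1 - b ^ 2), (1 - b ^ l) / (1 - b), by positivity,
    by positivity, ?_, fun V _ G ν e W hν he hD x _ ht =>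
      le_min (k1 V G ν e W hν he hD x ht) ((a2 V G ν W hν hD x).2.trans ?_)⟩
  · rw [div_mul_cancel₀ _ b2.ne', div_mul_cancel₀ _ b3.ne', b6]
    linarith
  · have := mul_le_mul_of_nonneg_left (chord2 (sq_nonneg b) b1
      (tN_nonneg (G := G) (W := W) hν.le x) ht (by linarith) r) (pow_nonneg hb l)
    rw [b6]
    refine (add_le_add_left this _).trans (le_of_eq ?_)
    ring

end Pool.Agent.GL3
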