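import Pool.Agent.P.MP_dfe42f_co.HgB7c
import Pool.Agent.P.MP_dfe42f_co.HgB8

/-! Section B, conclusion: no dense spot gives the bound `FF`. -/

namespace Pool.Agent.GL3
open Finset Pool.Agent.GLT Pool.Agent.GL2

section
variable {V : Type} [DecidableEq V] {G : SimpleGraph V} {ν : ℝ} {W : Finset V}

omit [DecidableEq V] in
theorem lb_sum_ad (B : Finset V) (x : V) (g : V → ℝ) :
    ∑ y ∈ B, ad G x y * g y = ∑ y ∈ nb G B x, g y := by
  classical
  rw [nb, sum_filter]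
  refine sum_congr rfl fun y _ => ?_
  by_cases h : G.Adj x y <;> simp [ad, h]

omit [DecidableEq V] in
theorem lb_dN (B : Finset V) (x : V) : dN G ν B x = ν * (nb G B x).card := by
  have := lb_sum_ad (G := G) B x fun _ => 1
  simp only [mul_one, sum_const, nsmul_eq_mul] at this
  rw [dN, mS, this]

theorem lb_tN (x : V) :
    tN G ν W x = ν ^ 2 * (((nb G W x).card : ℝ) ^ 2 - Mx G (nb G W x)) := by
  have h1 : ∀ y, cN G ν W x y = ν * (nb G (nb G W x) y).card := fun y => by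
    rw [cN, mS, lb_sum_ad, ← lb_dN, dN, mS]
  have h2 : ∀ y, ((nb G (nb G W x) y).card : ℝ) =
      (nb G W x).card - ((nb G W x \ nb G (nb G W x) y).card : ℝ) := fun y => by
    have : ((nb G W x \ nb G (nb G W x) y).card : ℝ) + (nb G (nb G W x) y).card =
        (nb G W x).card := by
      exact_mod_cast card_sdiff_add_card_eq_card (nb_subset (nb G W x) y)
    linarith
  rw [tN, mS, lb_sum_ad]
  simp only [h1, h2, ← mul_sum, sum_sub_distrib, sum_const, nsmul_eq_mul, Mx]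
  ring

theorem lb_nospot {N e : ℝ} (hN : 0 < N) (hD : ∀ B x, ((nb G B x).card : ℝ) ≤ N)
    (hs : ∀ X ⊆ W, ¬ Spot G N e X) (x : V) : tN G (1 / N) W x ≤ 1 - e := by
  have d0 : (0 : ℝ) ≤ (nb G W x).card := Nat.cast_nonneg _
  have d1 := hD W x
  have m0 := Mx_nonneg (G := G) (nb G W x)
  rw [lb_tN, one_div, inv_pow, ← div_eq_inv_mul, div_le_iff₀ (by positivity)]
  by_cases h : (1 - e) * N ≤ (nb G W x).card
  · have hM : e * N ^ 2 < Mx G (nb G W x) := by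
      by_contra hh
      exact hs _ (nb_subset W x) ⟨h, d1, not_lt.1 hh⟩
    linarith [pow_le_pow_left₀ d0 d1 2]
  · have h1 := mul_le_mul (not_le.1 h).le d1 d0 (d0.trans (not_le.1 h).le)
    nlinarith

end

/-- the real number part -/
theorem lb_real {j : ℕ} {e a b S T M E a1 a2 : ℝ} (h0 : 0 < e) (h1 : e ≤ 1) (ha : 1 ≤ a)
    (hb : 0 ≤ b) (hb1 : b ≤ 1) (p1 : 0 ≤ a1) (p2 : 0 ≤ a2)
    (p3 : a1 * (1 - b ^ 2) + a2 * (1 - b) ≤ 1 - b ^ (j + 1)) (hS : S ≤ (a + b) * (1 - e))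
    (hS' : S ≤ b ^ (j + 1) * T + (1 - e) * a1 * M + a2 * E) (hT : T ≤ (a + b) * b ^ 2 + M)
    (hM : M ≤ a * (1 - b ^ 2))
    (hE : e / 4 ≤ b → E ≤ a * (1 - b) - e ^ 2 * (1 - b) ^ 2 / 100000) :
    S ≤ a + b ^ (j + 4) - (a + 1) * (e * (e ^ 4 / (1600000 * ((j : ℝ) + 4) ^ 2)) / 4) := by
  have hj : (0 : ℝ) ≤ j := Nat.cast_nonneg _
  obtain ⟨g, hg⟩ : ∃ g, g = e ^ 4 / (1600000 * ((j : ℝ) + 4) ^ 2) := ⟨_, rfl⟩
  rw [← hg]
  have g0 : 0 < g := by rw [hg]; positivity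
  have e4 : e ^ 4 ≤ e := pow_le_of_le_one h0.le h1 (by norm_num)
  have g1 : g ≤ e / 2 := by
    rw [hg, div_le_iff₀ (by positivity)]
    have : e / 2 * 2 ≤ e / 2 * (1600000 * ((j : ℝ) + 4) ^ 2) :=
      mul_le_mul_of_nonneg_left (by nlinarith) (by linarith)
    linarith
  have q0 : 0 ≤ b ^ (j + 4) := pow_nonneg hb _
  have ea : e ≤ e * a := le_mul_of_one_le_right h0.le ha
  have eb : 0 ≤ e * b := mul_nonneg h0.le hb
  rcases le_total 2 (e * a) with c | c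
  · have k1 : e * a * g ≤ e * a * 1 := mul_le_mul_of_nonneg_left (by linarith) (by linarith)
    have k2 : e * g ≤ e * a * g := mul_le_mul_of_nonneg_right ea g0.le
    linarith
  have k0 : (a + 1) * (e * g / 4) ≤ g := by
    have k1 : e * a * g ≤ 2 * g := mul_le_mul_of_nonneg_right c g0.le
    have k2 : e * g ≤ 1 * g := mul_le_mul_of_nonneg_right h1 g0.le
    linarith
  refine le_trans ?_ (sub_le_sub_left k0 _)
  rcases le_total b (e / 4) with c1 | c1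
  · linarith
  rcases le_total (((j : ℝ) + 4) * (1 - b)) (e / 4) with c2 | c2
  · have k1 := one_add_mul_le_pow (a := -(1 - b)) (by linarith) (j + 4)
    rw [show 1 + -(1 - b) = b by ring] at k1
    push_cast at k1
    linarith
  have k1 := hE c1
  have bj : 0 ≤ b ^ (j + 1) := pow_nonneg hb _
  have bj1 : b ^ (j + 1) ≤ b := pow_le_of_le_one hb hb1 (by omega)
  have b2 : 0 ≤ 1 - b ^ 2 := by nlinarith
  obtain ⟨γ, hγ⟩ : ∃ γ, γ = e ^ 2 * (1 - b) / 100000 := ⟨_, rfl⟩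
  have e2 : e ^ 2 ≤ e := pow_le_of_le_one h0.le h1 (by norm_num)
  have γ0 : 0 ≤ γ := by rw [hγ]; exact div_nonneg (mul_nonneg (sq_nonneg e) (by linarith)) (by norm_num)
  have γ1 : γ ≤ e := by
    have : e ^ 2 * (1 - b) ≤ e ^ 2 := mul_le_of_le_one_right (sq_nonneg e) (by linarith)
    rw [hγ]; linarith
  have k2 : b ^ (j + 1) * T ≤ b ^ (j + 1) * (a + b ^ 3) :=
    mul_le_mul_of_nonneg_left (by linarith) bj
  have k3 : (1 - e) * a1 * M ≤ (1 - e) * a1 * (a * (1 - b ^ 2)) :=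
    mul_le_mul_of_nonneg_left hM (mul_nonneg (by linarith) p1)
  have k4 : a2 * E ≤ a2 * (a * (1 - b) - γ * (1 - b)) :=
    mul_le_mul_of_nonneg_left (by rw [hγ]; linarith) p2
  have k5 : γ * (a1 * (1 - b ^ 2)) ≤ e * a * (a1 * (1 - b ^ 2)) :=
    mul_le_mul_of_nonneg_right (by linarith) (mul_nonneg p1 b2)
  have k6 := mul_le_mul_of_nonneg_left p3 (show 0 ≤ a - γ by linarith)
  have k7 : γ * (1 - b) ≤ γ * (1 - b ^ (j + 1)) := mul_le_mul_of_nonneg_left (by linarith) γ0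
  have k8 : g ≤ γ * (1 - b) := by
    have m1 := pow_le_pow_left₀ (by linarith) c2 2
    have m2 := mul_le_mul_of_nonneg_left m1 (sq_nonneg e)
    rw [hg, hγ, div_le_iff₀ (by positivity)]
    linarith
  have k9 : b ^ (j + 4) = b ^ (j + 1) * b ^ 3 := by ring
  linarith

/-- block LB -/
theorem lemB {α : Type} [Fintype α] [DecidableEq α] {H : SimpleGraph α} {c : α} {s : α → α} {j : ℕ}
    (f : Lnk H c s) (hc : Fintype.card α = j + 4) {e0 : ℝ} (h0 : 0 < e0) (h1 : e0 ≤ 1) :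
    ∃ w0 : ℕ, ∀ w ≥ w0, ∀ m ≥ 1, ∀ (V : Type) [DecidableEq V] (G : SimpleGraph V),
      (∀ B v, (nb G B v).card ≤ (w - 1) * m) → ∀ W : Finset V, w * m ≤ W.card →
      (∀ X ⊆ W, ¬ Spot G (w * m) e0 X) → ((emb H G W).card : ℝ) ≤ FF H w m W.card := by
  have hj : (0 : ℝ) ≤ j := Nat.cast_nonneg _
  obtain ⟨κ, hκ⟩ : ∃ κ, κ = e0 * (e0 ^ 4 / (1600000 * ((j : ℝ) + 4) ^ 2)) / 4 := ⟨_, rfl⟩
  have κ0 : 0 < κ := by rw [hκ]; positivity
  obtain ⟨w0, hw0⟩ := exists_nat_ge (((j : ℝ) + 4) ^ 2 / κ)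
  refine ⟨w0, fun w hw' m hm V _ G hD W hW hs => ?_⟩
  have hw : ((j : ℝ) + 4) ^ 2 ≤ w * κ := (div_le_iff₀ κ0).1 (hw0.trans (Nat.cast_le.2 hw'))
  have hwp : 0 < w := by
    rcases Nat.eq_zero_or_pos w with rfl | h
    · simp only [Nat.cast_zero, zero_mul] at hw
      nlinarith
    · exact h
  rw [FF]
  have hNr : ((w * m : ℕ) : ℝ) = w * m := by push_cast; ring
  rw [← hNr] at hs
  obtain ⟨N, hN⟩ : ∃ N : ℕ, N = w * m := ⟨_, rfl⟩
  have hNp : 0 < N := hN ▸ Nat.mul_pos hwp hm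
  have hb := Nat.mod_lt W.card hNp
  have c5 := gg_ge (H := H) (j := j + 3) hc hwp hN.le (le_refl (N : ℝ))
  have c6 := gg_ge (H := H) (j := j + 3) hc hwp (hb.le.trans hN.le) (N := N) (Nat.cast_le.2 hb.le)
  rw [← hN] at hs hW hNr ⊢
  have hNp' : (0 : ℝ) < N := by exact_mod_cast hNp
  have hν : (0 : ℝ) < 1 / N := by positivity
  have hD1 : ∀ B x, ((nb G B x).card : ℝ) ≤ N := fun B x => by
    exact_mod_cast (hD B x).trans (hN ▸ Nat.mul_le_mul_right _ (Nat.sub_le _ _))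
  have hD' : ∀ B x, dN G (1 / N) B x ≤ 1 := fun B x => by
    rw [lb_dN, one_div, ← div_eq_inv_mul, div_le_one hNp']
    exact hD1 B x
  have ht : ∀ x ∈ W, tN G (1 / N) W x ≤ 1 - e0 := fun x _ => lb_nospot hNp' hD1 hs x
  have ha : 1 ≤ W.card / N := Nat.div_pos hW hNp
  have hdm : (N : ℝ) * (W.card / N : ℕ) + (W.card % N : ℕ) = W.card := by
    exact_mod_cast Nat.div_add_mod W.card N
  obtain ⟨a, hae⟩ : ∃ a, a = W.card / N := ⟨_, rfl⟩
  obtain ⟨r, hre⟩ : ∃ r, r = W.card % N := ⟨_, rfl⟩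
  rw [← hae] at ha hdm ⊢
  rw [← hre] at hb c6 hdm ⊢
  obtain ⟨b, hbe⟩ : ∃ b : ℝ, b = r / N := ⟨_, rfl⟩
  have hrb : (r : ℝ) = b * N := by rw [hbe, div_mul_cancel₀ _ hNp'.ne']
  have b0 : 0 ≤ b := by rw [hbe]; positivity
  have b1 : b ≤ 1 := by
    rw [hbe, div_le_one hNp']
    exact_mod_cast hb.le
  have hWe : 1 / (N : ℝ) * W.card = a + b := by
    rw [← hdm, hrb]; field_simp
  obtain ⟨a1, a2, p1, p2, p3, hP⟩ := prodP f hc b0 b1
  have hP := hP V G (1 / N) e0 W hν h0.le hD'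
  have hS : mS (1 / N) W (fun x => (1 / (N : ℝ)) ^ (j + 3) *
      (((emb H G W).filter fun φ => φ c = x).card : ℝ)) =
      (1 / (N : ℝ)) ^ (j + 4) * (emb H G W).card := by
    have h2 : (emb H G W).card = ∑ x ∈ W, ((emb H G W).filter fun φ => φ c = x).card :=
      card_eq_sum_card_fiberwise fun φ hφ => (mem_emb.1 hφ).1 c
    rw [mS, ← mul_sum, h2]
    push_cast
    ring
  have key := lb_real (j := j) (a := a) (b := b)
    (S := (1 / (N : ℝ)) ^ (j + 4) * (emb H G W).card) (T := mS (1 / N) W (tN G (1 / N) W))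
    (M := mS (1 / N) W fun x => max (tN G (1 / N) W x - b ^ 2) 0)
    (E := mS (1 / N) W (eN G (1 / N) W b)) h0 h1 (by exact_mod_cast ha) b0 b1 p1 p2 p3
    (by
      rw [← hS, ← hWe, ← mS_const]
      exact mS_le hν.le fun x hx => ((hP x hx (ht x hx)).trans (min_le_left _ _)).trans (ht x hx))
    (by
      rw [← hS, ← mS_mul, ← mS_mul, ← mS_mul, ← mS_add, ← mS_add]
      exact mS_le hν.le fun x hx => (hP x hx (ht x hx)).trans (min_le_right _ _))
    (by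
      rw [← hWe, ← mS_const, ← mS_add]
      exact mS_le hν.le fun x _ => by linarith [le_max_left (tN G (1 / N) W x - b ^ 2) 0])
    (ineqM hν hD' a W b b0 b1 hWe.le)
    (fun h => ineqE hν hD' ha h0.le h1 h b1 hWe.le ht)
  rw [← hκ] at key
  have p3 : (0 : ℝ) < (N : ℝ) ^ (j + 3) := by positivity
  have k1 := mul_le_mul_of_nonneg_left key (pow_pos hNp' (j + 4)).le
  rw [← mul_assoc, ← mul_pow, mul_one_div_cancel hNp'.ne', one_pow, one_mul] at k1
  have k2 : (((j + 3 : ℕ) : ℝ) + 1) ^ 2 * m * (N : ℝ) ^ (j + 3) ≤ κ * (N : ℝ) ^ (j + 4) := by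
    have m1 := mul_le_mul_of_nonneg_right hw (Nat.cast_nonneg (α := ℝ) m)
    have m2 : ((j : ℝ) + 4) ^ 2 * m ≤ κ * N := by rw [hNr]; linarith
    have m3 := mul_le_mul_of_nonneg_right m2 p3.le
    rw [pow_succ (N : ℝ) (j + 3)]
    push_cast
    linarith
  have a0 : (0 : ℝ) ≤ a := Nat.cast_nonneg _
  have k3 := mul_le_mul_of_nonneg_left (show (N : ℝ) ^ (j + 4) - κ * (N : ℝ) ^ (j + 4) ≤ gg H w N by
    linarith) a0
  have k4 : (r : ℝ) ^ (j + 3 + 1) = (N : ℝ) ^ (j + 4) * b ^ (j + 4) := by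
    rw [hrb, mul_pow, mul_comm]
  linarith

end Pool.Agent.GL3
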