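import Pool.Agent.P.MP_dfe42f_co.HgA
import Pool.Agent.P.MP_dfe42f_co.HfJ

/-! Edge penalty, Turán bound and sharp second differences for links without isolated vertex. -/

namespace Pool.Agent.GL3
open Finset Pool.Agent.GLT Pool.Agent.GL2 Function

set_option linter.unusedSectionVars false

variable {α V : Type} [Fintype α] [DecidableEq α]
variable {H : SimpleGraph α} {G : SimpleGraph V} [DecidableEq V] {j : ℕ} {c : α} {s : α → α}

theorem Lnk.sv (f : Lnk H c s) {v : α} (hv : v ≠ c) : v ≠ s v := (f.adj v hv).ne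

theorem Lnk.edges (f : Lnk H c s) (hc : Fintype.card α = j + 4) : 3 * (j + 3) ≤ (eH H).card := by
  classical
  have h1 : (eH H).card = ∑ v, (univ.filter fun u => H.Adj v u).card := by
    rw [eH, card_filter, ← univ_product_univ, sum_product]
    simp only [card_filter]
  have h2 : (univ.erase c).card = j + 3 := by rw [card_erase_of_mem (mem_univ _), card_univ, hc]; rfl
  have h3 : j + 3 ≤ (univ.filter fun u => H.Adj c u).card := by
    rw [← h2]
    exact card_le_card fun u hu => mem_filter.2 ⟨mem_univ _, f.dom u (ne_of_mem_erase hu)⟩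
  have h4 := card_nsmul_le_sum (univ.erase c) (fun v => (univ.filter fun u => H.Adj v u).card) 2
    fun v hv => by
      have hv := ne_of_mem_erase hv
      refine le_trans (card_pair (f.sc v hv).symm).ge
        (card_le_card fun u hu => mem_filter.2 ⟨mem_univ _, ?_⟩)
      simp only [mem_insert, mem_singleton] at hu
      rcases hu with rfl | rfl
      exacts [(f.dom v hv).symm, f.adj v hv]
  rw [h1, ← add_sum_erase _ _ (mem_univ c)]
  rw [h2, smul_eq_mul] at h4
  omega

/-- the edge penalty -/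
theorem lemCk (hc : Fintype.card α = j + 4) (hE : 3 * (j + 3) ≤ (eH H).card) {w : ℕ} (hw : 0 < w)
    {S : Finset V} {a : ℝ} (a0 : 0 ≤ a) (hq : ∀ K ⊆ S, G.IsClique (K : Set V) → K.card ≤ w)
    (ha : ∀ y ∈ S, ((S \ nb G S y).card : ℝ) ≤ a) (hs : 100 * (j + 4) ^ 2 * a ≤ S.card) :
    MT w S.card ≤ Mx G S ∧ ((emb H G S).card : ℝ) +
      1.44 * (j + 3) * (S.card : ℝ) ^ (j + 2) * (Mx G S - MT w S.card) ≤ gg H w S.card := by
  obtain ⟨col, c1, c2, c3⟩ := erd a0 w S hq ha
  have hj : (0 : ℝ) ≤ j := Nat.cast_nonneg _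
  have s0 : (0 : ℝ) ≤ S.card := Nat.cast_nonneg _
  have hE' : 3 * ((j : ℝ) + 3) ≤ (eH H).card := by exact_mod_cast hE
  have ja := mul_nonneg hj a0
  have jja := mul_nonneg hj ja
  have P0 : (0 : ℝ) ≤ (S.card : ℝ) ^ (j + 2) := by positivity
  have l1 := pow_lo s0 (ε := 0.02) (by norm_num) (y := (j + 4) * (2 * a)) (by nlinarith) (j + 2)
    (by push_cast; nlinarith)
  have l2 := pow_lo s0 (ε := 0.01) (by norm_num) (y := (j + 4) * a) (by nlinarith) (j + 2)
    (by push_cast; nlinarith)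
  obtain ⟨b1, b2⟩ := balance (H := H) (j := j + 1) hc hw (S := S) a0
    (β := 2.88 * (j + 3) * (S.card : ℝ) ^ (j + 2)) (by push_cast; nlinarith) (by
      have k1 := mul_le_mul hE' l2 (by positivity) (Nat.cast_nonneg _)
      have k2 := mul_le_mul_of_nonneg_right hs
        (show (0 : ℝ) ≤ (j + 4) * (S.card : ℝ) ^ (j + 1) by positivity)
      push_cast
      rw [show (j : ℝ) + 1 + 3 = j + 4 by ring]
      rw [pow_succ (S.card : ℝ) (j + 1)] at *
      nlinarith [mul_nonneg hj P0]) _ col c1 c2 rfl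
  have g1 := gain_le (H := H) (G := G) (j := j + 2) hc col S
  have g2 := loss_ge (H := H) (G := G) (j := j + 2) hc col a0 ha c2 (by push_cast; nlinarith)
  have g3 := card_diff (emb H G S) (emb H (Kc col) S)
  have g4 := Mx_diff (G := G) col S
  have g5 : 2 * ((ins G col S).card : ℝ) ≤ (mis G col S).card := by exact_mod_cast c3
  have g6 : (0 : ℝ) ≤ (ins G col S).card := Nat.cast_nonneg _
  push_cast at g2
  rw [show (j : ℝ) + 2 + 2 = j + 4 by ring] at g2
  refine ⟨by linarith, ?_⟩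
  have g7 := mul_le_mul_of_nonneg_left l1
    (show (0 : ℝ) ≤ (eH H).card * (mis G col S).card by positivity)
  have g8 := mul_le_mul_of_nonneg_right hE' (mul_nonneg P0
    (show (0 : ℝ) ≤ 0.98 * (mis G col S).card - (ins G col S).card by linarith))
  have g9 := mul_nonneg (mul_nonneg (show (0 : ℝ) ≤ j + 3 by linarith) P0)
    (show (0 : ℝ) ≤ (mis G col S).card - 2 * (ins G col S).card by linarith)
  rw [show Mx G S = Mx (Kc col) S + (mis G col S).card - (ins G col S).card by linarith]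
  linarith

theorem hit_deg3 (f : Lnk H c s) (hc : Fintype.card α = j + 4) (S : Finset V) (u : V) :
    ((hit H G S {u}).card : ℝ) ≤ (j + 4) * ((nb G S u).card * (S.card : ℝ) ^ (j + 2)) := by
  obtain ⟨v0, hv0⟩ : ∃ v, v ≠ c := by
    have : Nontrivial α := Fintype.one_lt_card_iff_nontrivial.1 (by omega)
    exact exists_ne c
  have := cover (T := univ) (U := hit H G S {u}) (fun v φ => φ v = u)
    (fun _ => (nb G S u).card * (S.card : ℝ) ^ (j + 2))
    (fun φ hφ => by simpa using (mem_hit.1 hφ).2) fun v _ => by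
      obtain ⟨v', hv'⟩ : ∃ v', H.Adj v v' := by
        by_cases h : v = c
        · exact ⟨v0, h ▸ f.dom v0 hv0⟩
        · exact ⟨_, f.adj v h⟩
      simpa using ub2 (j := j + 2) (F := (hit H G S {u}).filter fun φ => φ v = u) hc hv'.ne {u}
        (nb G S u) le_rfl (fun φ hφ => by
          obtain ⟨a, b⟩ := mem_filter.1 hφ
          obtain ⟨a1, -, a3⟩ := mem_emb.1 (mem_hit.1 a).1
          exact ⟨mem_singleton.2 b, mem_nb.2 ⟨a1 _, b ▸ a3 _ _ hv'⟩⟩)
        fun φ hφ i _ _ => (mem_emb.1 (mem_hit.1 (mem_filter.1 hφ).1).1).1 i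
  simpa [hc] using this

/-- the Turán graph maximises the number of copies -/
theorem zyk3 (f : Lnk H c s) (hc : Fintype.card α = j + 4) {w : ℕ} (hw : 300 * (j + 4) ^ 4 ≤ w)
    (S : Finset V) (G : SimpleGraph V) (hG : G.CliqueFree (w + 1)) :
    ((emb H G S).card : ℝ) ≤ gg H w S.card := by
  classical
  have w0 : 0 < w := lt_of_lt_of_le (by positivity) hw
  rcases le_or_gt S.card w with hn | hn
  · obtain ⟨φ, h1, h2⟩ := S.finite_toSet.exists_injOn_of_encard_le
      (t := ((range S.card : Finset ℕ) : Set ℕ)) (by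
        rw [Set.encard_coe_eq_coe_finsetCard, Set.encard_coe_eq_coe_finsetCard, card_range])
    have h3 : ∀ x ∈ S, φ x < S.card := fun x hx => mem_range.1 (mem_coe.1 (h1 hx))
    refine Nat.cast_le.2 (emb_map φ h2 (fun x hx => mem_range.2 (h3 x hx)) fun x hx y hy h => ?_)
    rw [Kc_adj, Nat.mod_eq_of_lt ((h3 x hx).trans_le hn), Nat.mod_eq_of_lt ((h3 y hy).trans_le hn)]
    exact fun e => h.ne (h2 hx hy e)
  obtain ⟨G0, hG0, hmax⟩ : ∃ G0 : SimpleGraph V, G0.CliqueFree (w + 1) ∧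
      ∀ G' : SimpleGraph V, G'.CliqueFree (w + 1) → (emb H G' S).card ≤ (emb H G0 S).card := by
    have hb : BddAbove {k | ∃ G' : SimpleGraph V, G'.CliqueFree (w + 1) ∧
        (emb H G' S).card = k} := ⟨(Fintype.piFinset fun _ : α => S).card, by
      rintro k ⟨G', -, rfl⟩
      exact card_le_card fun φ hφ => Fintype.mem_piFinset.2 (mem_emb.1 hφ).1⟩
    obtain ⟨G0, a, b⟩ := Nat.sSup_mem (by exact ⟨_, G, hG, rfl⟩) hb
    exact ⟨G0, a, fun G' h => b ▸ le_csSup hb ⟨G', h, rfl⟩⟩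
  refine (Nat.cast_le.2 (hmax G hG)).trans ?_
  by_contra hcon
  rw [not_le] at hcon
  set n : ℝ := (S.card : ℝ) with hnd
  set t : ℝ := j + 4 with ht
  have hj : (0 : ℝ) ≤ j := Nat.cast_nonneg _
  have t4 : 4 ≤ t := by linarith
  have w1 : (0 : ℝ) < w := by exact_mod_cast w0
  have wn : (w : ℝ) ≤ n := by rw [hnd]; exact_mod_cast hn.le
  have n0 : 0 < n := w1.trans_le wn
  have hw' : 300 * t ^ 4 ≤ w := by rw [ht]; exact_mod_cast hw
  set y : ℝ := n / w with hy
  have y1 : 1 ≤ y := (one_le_div w1).2 wn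
  have g1 := gg_ge (H := H) (j := j + 3) hc w0 (m := S.card / w + 1) (i := S.card)
    (Nat.lt_mul_div_succ _ w0).le le_rfl
  have g2 : ((S.card / w : ℕ) : ℝ) ≤ y := Nat.cast_div_le
  obtain ⟨v, hv, hvm⟩ := S.exists_max_image (fun v => (hit H G0 S {v}).card)
    (card_pos.1 (by omega))
  have g3 := (sum_hit (H := H) (G := G0) S).trans (sum_le_card_nsmul _ _
    ((hit H G0 S {v}).card : ℝ) fun u hu => Nat.cast_le.2 (hvm u hu))
  rw [hc, nsmul_eq_mul] at g3
  push_cast at g1 g3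
  rw [show (j : ℝ) + 3 + 1 = t by rw [ht]; ring, ← hnd] at g1
  rw [← hnd, ← ht] at g3
  have P0 : 0 < n ^ (j + 2) := by positivity
  have g4 : t * (n - 2 * t ^ 2 * y) * n ^ (j + 2) ≤ (hit H G0 S {v}).card := by
    refine le_of_mul_le_mul_left (le_trans ?_ g3) n0
    have k1 := mul_le_mul_of_nonneg_left (g1.trans hcon.le) (show 0 ≤ t by linarith)
    have k2 := mul_le_mul_of_nonneg_right
      (show ((S.card / w : ℕ) : ℝ) + 1 ≤ 2 * y by linarith)
      (show 0 ≤ t ^ 3 * n ^ (j + 3) by positivity)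
    rw [pow_succ n (j + 3), pow_succ n (j + 2)] at *
    linarith
  have g5 : ∀ u ∈ S, ((S \ nb G0 S u).card : ℝ) ≤ 3 * t ^ 2 * y := by
    intro u hu
    have k0 : 0 ≤ t ^ 2 * n ^ (j + 2) := by positivity
    have k1 : ((hit H G0 S {v}).card : ℝ) ≤ (hit H G0 S {u}).card + t ^ 2 * n ^ (j + 2) := by
      by_cases h : v = u
      · rw [h]; linarith
      have a1 := clone (H := H) (G := G0) hu h
      have a2 := hmax _ (hG0.replaceVertex v u)
      have a3 := th2_le (H := H) (G := G0) (j := j + 2) hc S le_rfl h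
      have a4 : ((hit H G0 S {v}).card : ℝ) ≤ (hit H G0 S {u}).card + (th2 H G0 S v u).card := by
        exact_mod_cast (by omega : (hit H G0 S {v}).card ≤ _ + _)
      push_cast at a3
      rw [show (j : ℝ) + 2 + 2 = t by rw [ht]; ring] at a3
      linarith
    have k2 := hit_deg3 (G := G0) f hc S u
    have k3 : (n - 2 * t ^ 2 * y - t) * (t * n ^ (j + 2)) ≤
        (nb G0 S u).card * (t * n ^ (j + 2)) := by
      rw [← ht, ← hnd] at k2
      linarith
    have k4 := le_of_mul_le_mul_right k3 (by positivity)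
    have k5 := card_nn (G := G0) S u
    nlinarith
  obtain ⟨c1, c2⟩ := lemCk hc (f.edges hc) w0 (by positivity)
    (fun K _ hK => clq_of_free hG0 K hK) g5 (by
      rw [← ht, ← hnd]
      have : n = w * y := by rw [hy]; field_simp
      nlinarith)
  have := mul_nonneg (show 0 ≤ 1.44 * (j + 3) * (S.card : ℝ) ^ (j + 2) by positivity)
    (sub_nonneg.2 c1)
  linarith

section
variable {g : ℕ → ℝ} {N w t0 : ℕ} {D : ℝ}

theorem cv_gap3 (h1 : ∀ t, g (t + 1) - g t ≤ g (t + 2) - g (t + 1)) (D0 : 0 ≤ D)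
    (h2 : ∀ t, t0 ≤ t → t + 2 ≤ N → ¬ w ∣ t + 1 →
      g (t + 1) - g t + D ≤ g (t + 2) - g (t + 1)) (hN : w ∣ N) {a : ℕ} (ha : t0 ≤ a) (v : ℕ) :
    ∀ y, a + v + 1 + y = N → g (a + 1) - g a + (v + (y / w : ℕ) - ((v + y) / w : ℕ)) * D ≤
      g (a + v + 1) - g (a + v) := by
  induction v with
  | zero => simp
  | succ v ih =>
    intro y hy
    have a1 := ih (y + 1) (by omega)
    rw [Nat.succ_div, show v + (y + 1) = v + 1 + y by ring] at a1
    rw [show a + (v + 1) + 1 = a + v + 2 by ring, ← add_assoc]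
    by_cases hd : w ∣ a + v + 1
    · rw [if_pos ((Nat.dvd_add_right hd).1 (by rwa [show a + v + 1 + (y + 1) = N by omega]))] at a1
      push_cast at a1 ⊢
      linarith [h1 (a + v)]
    · have a2 := h2 (a + v) (by omega) (by omega) hd
      have a3 : (0 : ℝ) ≤ ((if w ∣ y + 1 then 1 else 0 : ℕ) : ℝ) * D := by positivity
      rw [Nat.cast_add (y / w)] at a1
      rw [Nat.cast_add v 1, Nat.cast_one]
      linarith

theorem cv_pair3 (h1 : ∀ t, g (t + 1) - g t ≤ g (t + 2) - g (t + 1)) (hw : 200 ≤ w) (D0 : 0 ≤ D)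
    (h2 : ∀ t, t0 ≤ t → t + 2 ≤ N → ¬ w ∣ t + 1 →
      g (t + 1) - g t + D ≤ g (t + 2) - g (t + 1)) (hN : w ∣ N) {t u v : ℕ} (ht : t0 ≤ t)
    (uv : u ≤ v) (e : t + v + u = N) :
    g (t + u) - g t + u * v * (0.99 * D) ≤ g N - g (t + v) := by
  have key : ∀ i, i ≤ u →
      g (t + i) - g t + i * v * (0.99 * D) ≤ g (t + v + i) - g (t + v) := by
    intro i
    induction i with
    | zero => simp
    | succ i ih =>
      intro h
      have a1 := ih (by omega)
      have a2 := cv_gap3 h1 D0 h2 hN (a := t + i) (by omega) v (u - (i + 1)) (by omega)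
      have a3 : 200 * ((v + (u - (i + 1))) / w) ≤ 2 * v :=
        (Nat.mul_le_mul_right _ hw).trans ((Nat.mul_div_le _ _).trans (by omega))
      have a4 : (200 : ℝ) * ((v + (u - (i + 1))) / w : ℕ) ≤ 2 * v := by exact_mod_cast a3
      have a5 := mul_le_mul_of_nonneg_right a4 D0
      have a6 : (0 : ℝ) ≤ ((u - (i + 1)) / w : ℕ) * D := by positivity
      rw [show t + i + v = t + v + i by ring] at a2
      rw [← add_assoc, ← add_assoc, Nat.cast_add i 1, Nat.cast_one]
      linarith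
  rw [← e]
  exact key u le_rfl

theorem cv_many3 {ι : Type} [DecidableEq ι]
    (h1 : ∀ t, g (t + 1) - g t ≤ g (t + 2) - g (t + 1)) (hw : 200 ≤ w) (D0 : 0 ≤ D)
    (h2 : ∀ t, t0 ≤ t → t + 2 ≤ N → ¬ w ∣ t + 1 →
      g (t + 1) - g t + D ≤ g (t + 2) - g (t + 1)) (hN : w ∣ N) (κ : ι → ℕ) {v : ℕ}
    (hv : t0 + 2 * v ≤ N) (A : Finset ι) : (∀ i ∈ A, κ i ≤ v) → v + ∑ i ∈ A, κ i ≤ N →
    ∑ i ∈ A, g (N - κ i) + g (N - v) + v * (∑ i ∈ A, κ i : ℕ) * (0.99 * D) ≤
      A.card * g N + g (N - (v + ∑ i ∈ A, κ i)) := by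
  induction A using Finset.induction_on with
  | empty => simp
  | insert x A hx ih =>
    intro a b
    rw [sum_insert hx] at b
    have a1 := ih (fun i hi => a i (mem_insert_of_mem hi)) (by omega)
    have a3 := a x (mem_insert_self _ _)
    have a4 := cv_pair3 h1 hw D0 h2 hN (t := N - κ x - v) (by omega) a3 (by omega)
    have a5 := cv_block h1 (N - (v + (κ x + ∑ i ∈ A, κ i))) (∑ i ∈ A, κ i) (κ x)
    rw [show N - κ x - v + κ x = N - v by omega, show N - κ x - v + v = N - κ x by omega] at a4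
    rw [show N - (v + (κ x + ∑ i ∈ A, κ i)) + κ x = N - (v + ∑ i ∈ A, κ i) by omega,
      show N - (v + (κ x + ∑ i ∈ A, κ i)) + ∑ i ∈ A, κ i + κ x = N - v by omega,
      show N - (v + (κ x + ∑ i ∈ A, κ i)) + ∑ i ∈ A, κ i = N - κ x - v by omega] at a5
    rw [sum_insert hx, sum_insert hx, card_insert_of_notMem hx]
    push_cast at *
    linarith

end

end Pool.Agent.GL3
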