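import Pool.Agent.P.MP_dfe42f_co.HgC

/-! Vertices in many copies and their neighbourhoods. -/

namespace Pool.Agent.GL3
open Finset Pool.Agent.GLT Pool.Agent.GL2 Function

set_option linter.unusedSectionVars false

variable {α V : Type} [Fintype α] [DecidableEq α] [DecidableEq V]
variable {H : SimpleGraph α} {G : SimpleGraph V} {j : ℕ} {c : α} {s : α → α}
  {N δ : ℝ} {W X Y : Finset V}

theorem emb_c3 (f : Lnk H c s) {φ : α → V} (hφ : φ ∈ emb H G W) {i : α} (hi : i ≠ c) :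
    φ i ∈ nb G W (φ c) :=
  mem_nb.2 ⟨(mem_emb.1 hφ).1 i, (mem_emb.1 hφ).2.2 _ _ (f.dom i hi)⟩

/-- the centre and two other positions are prescribed -/
theorem cnt3 (f : Lnk H c s) (hc : Fintype.card α = j + 4)
    (hD : ∀ B v, ((nb G B v).card : ℝ) ≤ N) {F : Finset (α → V)} (hF : F ⊆ emb H G W) {v : α}
    (hv : v ≠ c) (x : V) (A1 A2 : Finset V)
    (h : ∀ φ ∈ F, φ c = x ∧ φ v ∈ A1 ∧ φ (s v) ∈ A2) :
    (F.card : ℝ) ≤ A1.card * A2.card * N ^ (j + 1) := by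
  simpa using ub3 (j := j + 1) (F := F) hc hv.symm (f.sc v hv).symm (f.sv hv)
    {x} A1 A2 (hD W x) (fun φ hφ => by simpa using h φ hφ)
    fun φ hφ i hi _ _ => (h φ hφ).1 ▸ emb_c3 f (hF hφ) hi

theorem cnt_a (f : Lnk H c s) (hc : Fintype.card α = j + 4)
    (hD : ∀ B v, ((nb G B v).card : ℝ) ≤ N) {F : Finset (α → V)} (hF : F ⊆ emb H G W) {v : α}
    (hv : v ≠ c) (z : V) (A : Finset V) (h : ∀ φ ∈ F, φ v = z ∧ φ c ∈ A ∧ φ (s v) ∈ A) :
    (F.card : ℝ) ≤ ((nb G A z).card : ℝ) ^ 2 * N ^ (j + 1) := by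
  have k : ∀ φ ∈ F, φ c ∈ nb G A z ∧ φ (s v) ∈ nb G A z := by
    intro φ hφ
    obtain ⟨h1, h2, h3⟩ := h φ hφ
    have a := (mem_emb.1 (hF hφ)).2.2
    exact ⟨mem_nb.2 ⟨h2, h1 ▸ a _ _ (f.dom v hv).symm⟩, mem_nb.2 ⟨h3, h1 ▸ a _ _ (f.adj v hv)⟩⟩
  have := cover (T := nb G A z) (U := F) (fun x φ => φ c = x)
    (fun _ => (nb G A z).card * N ^ (j + 1)) (fun φ hφ => ⟨_, (k φ hφ).1, rfl⟩)
    fun x _ => by
      simpa using cnt3 f hc hD ((filter_subset (fun φ => φ c = x) F).trans hF) hv x {z}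
        (nb G A z) fun φ hφ => ⟨(mem_filter.1 hφ).2,
          mem_singleton.2 (h φ (mem_filter.1 hφ).1).1, (k φ (mem_filter.1 hφ).1).2⟩
  rw [sum_const, nsmul_eq_mul] at this
  linarith

theorem cnt_b (f : Lnk H c s) (hc : Fintype.card α = j + 4)
    (hD : ∀ B v, ((nb G B v).card : ℝ) ≤ N) {F : Finset (α → V)} (hF : F ⊆ emb H G W) {v : α}
    (hv : v ≠ c) (z : V) (A : Finset V) (h : ∀ φ ∈ F, φ c = z ∧ φ v ∈ A ∧ φ (s v) ∈ A) :
    (F.card : ℝ) ≤ ((nb G A z).card : ℝ) ^ 2 * N ^ (j + 1) := by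
  have := cnt3 f hc hD hF hv z (nb G A z) (nb G A z) fun φ hφ => by
    obtain ⟨h1, h2, h3⟩ := h φ hφ
    have a := (mem_emb.1 (hF hφ)).2.2
    exact ⟨h1, mem_nb.2 ⟨h2, h1 ▸ a _ _ (f.dom v hv)⟩,
      mem_nb.2 ⟨h3, h1 ▸ a _ _ (f.dom _ (f.sc v hv))⟩⟩
  linarith

/-- ordered adjacent pairs in the neighbourhood of `z` -/
noncomputable def tt (G : SimpleGraph V) (W : Finset V) (z : V) : ℝ :=
  ∑ x ∈ nb G W z, ((nb G (nb G W z) x).card : ℝ)

theorem q_le (f : Lnk H c s) (hc : Fintype.card α = j + 4)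
    (hD : ∀ B v, ((nb G B v).card : ℝ) ≤ N) (z : V) :
    ((hit H G W {z}).card : ℝ) ≤ (j + 4) * (tt G W z * N ^ (j + 1)) := by
  classical
  obtain ⟨v0, hv0⟩ := Fac.ex hc c
  have := cover (T := univ) (U := hit H G W {z}) (fun v φ => φ v = z)
    (fun _ => tt G W z * N ^ (j + 1)) (fun φ hφ => by simpa using (mem_hit.1 hφ).2) fun v _ => by
      set F := (hit H G W {z}).filter fun φ => φ v = z with hF
      have hs : F ⊆ emb H G W := fun φ hφ => (mem_hit.1 (mem_filter.1 hφ).1).1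
      have hz : ∀ φ ∈ F, φ v = z := fun φ hφ => (mem_filter.1 hφ).2
      rw [tt, sum_mul]
      by_cases h : v = c
      · subst h
        refine cover (fun x φ => φ v0 = x) _
          (fun φ hφ => ⟨_, hz φ hφ ▸ emb_c3 f (hs hφ) hv0, rfl⟩) fun x _ => ?_
        simpa using cnt3 f hc hD ((filter_subset (fun φ => φ v0 = x) F).trans hs) hv0 z {x}
          (nb G (nb G W z) x) fun φ hφ => by
            obtain ⟨a, b⟩ := mem_filter.1 hφ
            exact ⟨hz φ a, mem_singleton.2 b, mem_nb.2 ⟨hz φ a ▸ emb_c3 f (hs a) (f.sc _ hv0),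
              b ▸ (mem_emb.1 (hs a)).2.2 _ _ (f.adj _ hv0)⟩⟩
      · refine cover (fun x φ => φ c = x) _ (fun φ hφ => ⟨_, mem_nb.2 ⟨(mem_emb.1 (hs hφ)).1 c,
          hz φ hφ ▸ (mem_emb.1 (hs hφ)).2.2 _ _ (f.dom v h).symm⟩, rfl⟩) fun x _ => ?_
        simpa using cnt3 f hc hD ((filter_subset (fun φ => φ c = x) F).trans hs) h x {z}
          (nb G (nb G W z) x) fun φ hφ => by
            obtain ⟨a, b⟩ := mem_filter.1 hφ
            obtain ⟨a1, -, a3⟩ := mem_emb.1 (hs a)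
            exact ⟨b, mem_singleton.2 (hz φ a), mem_nb.2 ⟨mem_nb.2 ⟨a1 _,
              hz φ a ▸ a3 _ _ (f.adj v h)⟩, b ▸ a3 _ _ (f.dom _ (f.sc v h))⟩⟩
  simpa [hc] using this

theorem high_tt (f : Lnk H c s) (hc : Fintype.card α = j + 4)
    (hD : ∀ B v, ((nb G B v).card : ℝ) ≤ N) (hN : 0 < N) {e : ℝ} {z : V}
    (hq : (1 - e) * ((j + 4) * N ^ (j + 3)) < (hit H G W {z}).card) :
    (1 - e) * N ^ 2 < tt G W z := by
  refine lt_of_mul_lt_mul_right (a := (j + 4) * N ^ (j + 1)) ?_ (by positivity)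
  have := q_le (W := W) f hc hD z
  rw [show N ^ (j + 3) = N ^ 2 * N ^ (j + 1) by ring] at hq
  linarith

theorem high_spot3 (f : Lnk H c s) (hc : Fintype.card α = j + 4)
    (hD : ∀ B v, ((nb G B v).card : ℝ) ≤ N) (hN : 0 < N) {e : ℝ} (e0 : 0 ≤ e) {z : V}
    (hq : (1 - e) * ((j + 4) * N ^ (j + 3)) < (hit H G W {z}).card) :
    Spot G N ((j + 4) * e) (nb G W z) := by
  have h1 := high_tt f hc hD hN hq
  set X := nb G W z with hX
  have X0 : (0 : ℝ) ≤ X.card := Nat.cast_nonneg _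
  have XN : (X.card : ℝ) ≤ N := hD W z
  have h4 : tt G W z = (X.card : ℝ) ^ 2 - Mx G X := by
    rw [tt, ← hX, Mx, eq_sub_iff_add_eq, ← sum_add_distrib,
      sum_congr rfl fun x _ => (add_comm _ _).trans (card_nn (G := G) X x)]
    simp [sq]
  have h5 : e * N ^ 2 ≤ (j + 4) * e * N ^ 2 := by
    have : 0 ≤ (j + 3 : ℝ) * (e * N ^ 2) := by positivity
    linarith
  have h6 := Mx_nonneg (G := G) X
  have h7 := mul_le_mul_of_nonneg_left XN X0
  have h8 := mul_le_mul_of_nonneg_left XN hN.le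
  exact ⟨le_of_mul_le_mul_right (by nlinarith) hN, XN, by nlinarith⟩

theorem tt_le (hD : ∀ B v, ((nb G B v).card : ℝ) ≤ N) (hY : Y ⊆ W) (z : V) :
    tt G W z ≤ ((nb G Y z).card : ℝ) ^ 2 + (N - (nb G Y z).card) ^ 2 +
      2 * ∑ y ∈ Y, ((nb G (W \ Y) y).card : ℝ) := by
  set P := nb G Y z with hP
  set Q := nb G (W \ Y) z with hQ
  have a1 : nb G W z = P ∪ Q := by
    ext u
    simp only [hP, hQ, mem_nb, mem_union, mem_sdiff]
    exact ⟨fun h => by tauto, fun h => h.elim (fun h => ⟨hY h.1, h.2⟩) fun h => ⟨h.1.1, h.2⟩⟩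
  have a2 : ∀ x, ((nb G (P ∪ Q) x).card : ℝ) ≤ (nb G P x).card + (nb G Q x).card := fun x => by
    have : nb G (P ∪ Q) x ⊆ nb G P x ∪ nb G Q x := fun u hu => by
      simp only [mem_nb, mem_union] at hu ⊢
      tauto
    exact_mod_cast (card_le_card this).trans (card_union_le _ _)
  have a3 : ∀ (A : Finset V) x, ((nb G A x).card : ℝ) ≤ A.card := fun A x =>
    Nat.cast_le.2 (card_le_card (nb_subset _ _))
  have a4 : ∑ x ∈ P, ((nb G Q x).card : ℝ) ≤ ∑ y ∈ Y, ((nb G (W \ Y) y).card : ℝ) :=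
    (sum_le_sum fun x _ => Nat.cast_le.2 (card_le_card (nb_mono (nb_subset _ _) x))).trans
      (sum_le_sum_of_subset_of_nonneg (nb_subset _ _) fun _ _ _ => Nat.cast_nonneg _)
  have a5 : ∑ x ∈ Q, ((nb G P x).card : ℝ) = ∑ x ∈ P, ((nb G Q x).card : ℝ) := by
    simpa using (nb_symm (G := G) P Q fun _ => 1).symm
  have a6 := sum_le_sum fun x (_ : x ∈ P) => (a2 x).trans (add_le_add_left (a3 P x) _)
  have a7 := sum_le_sum fun x (_ : x ∈ Q) => (a2 x).trans (add_le_add_right (a3 Q x) _)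
  have a8 : (Q.card : ℝ) ^ 2 ≤ (N - P.card) ^ 2 := pow_le_pow_left₀ (Nat.cast_nonneg _)
    (by linarith [nb_split (G := G) hY z, hD W z]) 2
  rw [sum_add_distrib, sum_const, nsmul_eq_mul] at a6 a7
  rw [tt, a1, sum_union (disjoint_sdiff.mono (nb_subset _ _) (nb_subset _ _))]
  linarith

variable {w m : ℕ} {e η τ η0 : ℝ}

theorem high_out0 (f : Lnk H c s) (hc : Fintype.card α = j + 4) (p : Pr j w m N δ e η τ η0)
    (hD : ∀ B v, ((nb G B v).card : ℝ) ≤ N) (k : Cl G N δ (η0 / 10) W Y) {z : V} (hz : z ∈ W \ Y)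
    (hq : (1 - e) * ((j + 4) * N ^ (j + 3)) < (hit H G W {z}).card) :
    ((nb G Y z).card : ℝ) ≤ 0.52 * e * N := by
  have hN := p.N0
  have a1 := high_out p (k.mono hN.le (by linarith [p.zn, p.z0])) hz
    (high_spot3 f hc hD hN p.e0.le hq)
  have a2 := (high_tt f hc hD hN hq).trans_le (tt_le hD k.sub z)
  have a3 := k.few
  have a4 := mul_le_mul_of_nonneg_right p.t1 hN.le
  have a5 := mul_le_mul_of_nonneg_right p.ze (sq_nonneg N)
  have a6 := mul_le_mul_of_nonneg_left (show 0.99 * N ≤ N - (nb G Y z).card by linarith)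
    (Nat.cast_nonneg (α := ℝ) (nb G Y z).card)
  have a7 := mul_pos p.e0 (pow_pos hN 2)
  refine le_of_mul_le_mul_right ?_ hN
  nlinarith

theorem vlow (f : Lnk H c s) (hc : Fintype.card α = j + 4) (p : Pr j w m N δ e η τ η0)
    (hD : ∀ B v, ((nb G B v).card : ℝ) ≤ N) {𝒴 : Finset (Finset V)}
    (h1 : ∀ A ∈ 𝒴, Cl G N δ η W A) (h2 : ((W \ 𝒴.biUnion id).card : ℝ) ≤ η * N) {z : V}
    (hz : z ∈ W \ 𝒴.biUnion id) :
    ((hit H G W {z}).card : ℝ) ≤ (1 - δ / 2) * ((j + 4) * N ^ (j + 3)) := by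
  have hN := p.N0
  have d0 := p.d0
  have a0 : tt G W z ≤ (1 - δ / 2) * N ^ 2 := by
    have b1 := mul_le_mul_of_nonneg_right p.nd (sq_nonneg N)
    have b2 := mul_le_mul_of_nonneg_right p.d3 (mul_pos d0 (pow_pos hN 2)).le
    have b3 := mul_le_mul_of_nonneg_right p.d3 (sq_nonneg N)
    have b4 := mul_pos d0 (pow_pos hN 2)
    by_cases h : ∃ A ∈ 𝒴, δ / 2 * N ≤ (nb G A z).card
    · obtain ⟨A, hA, h⟩ := h
      have a1 := tt_le hD (h1 A hA).sub z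
      have a2 := (h1 A hA).out z (mem_sdiff.2 ⟨(mem_sdiff.1 hz).1, fun h =>
        (mem_sdiff.1 hz).2 (mem_biUnion.2 ⟨A, hA, h⟩)⟩)
      have a3 := mul_nonneg (sub_nonneg.2 h) (sub_nonneg.2 a2)
      have a4 := (h1 A hA).few
      nlinarith
    push Not at h
    have a1 : ∀ x ∈ nb G W z ∩ 𝒴.biUnion id, ((nb G (nb G W z) x).card : ℝ) ≤ 2.5 * δ * N := by
      intro x hx
      obtain ⟨A, hA, hx⟩ := mem_biUnion.1 (mem_inter.1 hx).2
      have c1 : nb G (nb G W z) x ⊆ nb G A z ∪ nb G (W \ A) x := fun u hu => by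
        simp only [mem_nb, mem_union, mem_sdiff] at hu ⊢
        tauto
      have c2 : ((nb G (nb G W z) x).card : ℝ) ≤ (nb G A z).card + (nb G (W \ A) x).card := by
        exact_mod_cast (card_le_card c1).trans (card_union_le _ _)
      linarith [h A hA, nb_split (G := G) (h1 A hA).sub x, hD W x, (h1 A hA).inn x hx]
    have a2 := sum_le_card_nsmul _ _ _ a1
    have a3 := sum_le_card_nsmul _ _ _ fun x (_ : x ∈ nb G W z \ 𝒴.biUnion id) =>
      hD (nb G W z) x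
    have a4 : ((nb G W z ∩ 𝒴.biUnion id).card : ℝ) ≤ N :=
      (Nat.cast_le.2 (card_le_card inter_subset_left)).trans (hD W z)
    have a5 : ((nb G W z \ 𝒴.biUnion id).card : ℝ) ≤ η * N :=
      (Nat.cast_le.2 (card_le_card (sdiff_subset_sdiff (nb_subset _ _) Subset.rfl))).trans h2
    have a6 := mul_le_mul_of_nonneg_right a4 (show 0 ≤ 2.5 * δ * N by positivity)
    have a7 := mul_le_mul_of_nonneg_right a5 hN.le
    rw [nsmul_eq_mul] at a2 a3
    rw [tt, ← sum_inter_add_sum_sdiff _ (𝒴.biUnion id)]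
    nlinarith
  have a1 := mul_le_mul_of_nonneg_right a0 (show 0 ≤ (j + 4 : ℝ) * N ^ (j + 1) by positivity)
  have a2 := q_le (W := W) f hc hD z
  rw [show N ^ (j + 3) = N ^ 2 * N ^ (j + 1) by ring]
  linarith

/-- a maximal family of disjoint clusters covers all vertices in many copies -/
theorem family3 (f : Lnk H c s) (hc : Fintype.card α = j + 4) (p : Pr j w m N δ e η τ η0)
    (hD : ∀ B v, ((nb G B v).card : ℝ) ≤ N) (k : Cl G N δ η W Y) :
    ∃ 𝒴 : Finset (Finset V), Y ∈ 𝒴 ∧ (∀ A ∈ 𝒴, Cl G N δ η W A) ∧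
      (∀ A ∈ 𝒴, ∀ B ∈ 𝒴, A ≠ B → Disjoint A B) ∧ ∀ z ∈ W, (∀ A ∈ 𝒴, z ∉ A) →
        ((hit H G W {z}).card : ℝ) ≤ (1 - e) * ((j + 4) * N ^ (j + 3)) := by
  classical
  obtain ⟨𝒴, h1, h2⟩ := exists_max_image (W.powerset.powerset.filter fun 𝒴 =>
    Y ∈ 𝒴 ∧ (∀ A ∈ 𝒴, Cl G N δ η W A) ∧ ∀ A ∈ 𝒴, ∀ B ∈ 𝒴, A ≠ B → Disjoint A B) card
    ⟨{Y}, mem_filter.2 ⟨by simpa using k.sub, by simpa using k⟩⟩
  obtain ⟨a0, a1, a2, a3⟩ := mem_filter.1 h1
  refine ⟨𝒴, a1, a2, a3, fun z hz hz' => not_lt.1 fun hq => ?_⟩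
  have hs := high_spot3 f hc hD p.N0 p.e0.le hq
  obtain ⟨Y', k', b⟩ := spot_cl hD p.N0 p.d0 (by linarith [p.d3]) (nb_subset W z) (η' := η)
    (by have := p.e0; positivity) p.ed (by linarith [p.hη]) hs
  have b1 : z ∈ Y' := (b z hz).2 (by
    have e1 : nb G (nb G W z) z = nb G W z := by ext u; simp
    have : 4 * ((j + 4) * e) ≤ δ := by nlinarith [p.ed, p.d3, p.d0]
    have := hs.1
    rw [e1]
    nlinarith [p.N0, p.d0])
  have b2 : ∀ A ∈ 𝒴, Disjoint Y' A := fun A hA => cl_disj p hD (a2 A hA)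
    (high_out p (a2 A hA) (mem_sdiff.2 ⟨hz, hz' A hA⟩) hs) fun y hy => (b y (k'.sub hy)).1 hy
  have b3 := h2 (insert Y' 𝒴) (mem_filter.2 ⟨mem_powerset.2 (insert_subset
    (mem_powerset.2 k'.sub) (mem_powerset.1 a0)), mem_insert_of_mem a1, fun A hA => ?_,
    fun A hA B hB hAB => ?_⟩)
  · rw [card_insert_of_notMem fun h => hz' _ h b1] at b3
    omega
  · rcases mem_insert.1 hA with rfl | hA
    exacts [k', a2 A hA]
  · rcases mem_insert.1 hA with rfl | hA' <;> rcases mem_insert.1 hB with rfl | hB'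
    exacts [absurd rfl hAB, b2 B hB', (b2 A hA').symm, a3 A hA' B hB' hAB]

end Pool.Agent.GL3
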