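import Pool.Agent.P.MP_dfe42f_co.HgD

/-! Copies that meet a cluster. -/

namespace Pool.Agent.GL3
open Finset Pool.Agent.GLT Pool.Agent.GL2 Function

set_option linter.unusedSectionVars false

variable {α V : Type} [Fintype α] [DecidableEq α] [DecidableEq V]

open Classical in
/-- copies in which `z` lies next to the part inside `Y` -/
noncomputable def cw (H : SimpleGraph α) (G : SimpleGraph V) (c : α) (s : α → α)
    (W Y : Finset V) (z : V) : Finset (α → V) :=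
  (emb H G W).filter fun φ =>
    (∃ v, v ≠ c ∧ φ v = z ∧ φ c ∈ Y ∧ φ (s v) ∈ Y) ∨
      (φ c = z ∧ (∃ v, v ≠ c ∧ φ v ∈ Y) ∧ ∀ v, v ≠ c → φ v ∈ Y → φ (s v) ∈ Y)

open Classical in
/-- the same, with the outside part also closed when `z` is the centre -/
noncomputable def ct (H : SimpleGraph α) (G : SimpleGraph V) (c : α) (s : α → α)
    (W Y : Finset V) (z : V) : Finset (α → V) :=
  (cw H G c s W Y z).filter fun φ => φ c = z → ∀ v, v ≠ c → φ (s v) ∈ Y → φ v ∈ Y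

variable {H : SimpleGraph α} {G : SimpleGraph V} {j : ℕ} {c : α} {s : α → α}
  {N δ : ℝ} {W Y Z : Finset V}

theorem mem_cw {z : V} {φ : α → V} : φ ∈ cw H G c s W Y z ↔ φ ∈ emb H G W ∧
    ((∃ v, v ≠ c ∧ φ v = z ∧ φ c ∈ Y ∧ φ (s v) ∈ Y) ∨
      (φ c = z ∧ (∃ v, v ≠ c ∧ φ v ∈ Y) ∧ ∀ v, v ≠ c → φ v ∈ Y → φ (s v) ∈ Y)) := by
  classical
  rw [cw, mem_filter]

theorem mem_ct {z : V} {φ : α → V} : φ ∈ ct H G c s W Y z ↔ φ ∈ cw H G c s W Y z ∧
    (φ c = z → ∀ v, v ≠ c → φ (s v) ∈ Y → φ v ∈ Y) := by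
  classical
  rw [ct, mem_filter]

theorem decomp3 (f : Lnk H c s) : ((hit H G W (Y ∪ Z)).card : ℝ) ≤ (emb H G Y).card +
    ∑ z ∈ W \ Y, ((ct H G c s W Y z).card : ℝ) + (js H G c W Y).card +
      ∑ z ∈ Z, ((rs H G W Y z).card : ℝ) := by
  classical
  have h1 : hit H G W (Y ∪ Z) ⊆ emb H G Y ∪ (W \ Y).biUnion (ct H G c s W Y) ∪ js H G c W Y ∪
      Z.biUnion (rs H G W Y) := by
    intro φ hφ
    obtain ⟨a, i0, hi⟩ := mem_hit.1 hφ
    have aW := (mem_emb.1 a).1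
    simp only [mem_union, mem_biUnion]
    by_cases h1 : ∀ i, φ i ∈ Y
    · exact Or.inl (Or.inl (Or.inl (mem_emb.2 ⟨h1, (mem_emb.1 a).2⟩)))
    by_cases h2 : ∀ i, φ i ∉ Y
    · exact Or.inr ⟨φ i0, (mem_union.1 hi).resolve_left (h2 _), mem_rs.2 ⟨a, ⟨_, rfl⟩, h2⟩⟩
    refine Or.inl ?_
    by_cases hJ : φ ∈ js H G c W Y
    · exact Or.inr hJ
    refine Or.inl (Or.inr ?_)
    rw [mem_js, not_and] at hJ
    have hJ := not_or.1 (hJ a)
    push Not at h1 h2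
    obtain ⟨v, hv⟩ := h1
    obtain ⟨u, hu⟩ := h2
    by_cases hc : φ c ∈ Y
    · have hvc : v ≠ c := fun h => hv (h ▸ hc)
      refine ⟨φ v, mem_sdiff.2 ⟨aW _, hv⟩, mem_ct.2 ⟨mem_cw.2 ⟨a, Or.inl ⟨v, hvc, rfl, hc, ?_⟩⟩,
        fun h => absurd (h ▸ hc) hv⟩⟩
      exact by_contra fun h => hJ.1 ⟨hc, v, _, f.sv hvc, hv, h⟩
    · refine ⟨φ c, mem_sdiff.2 ⟨aW _, hc⟩, mem_ct.2 ⟨mem_cw.2 ⟨a, Or.inr ⟨rfl,
        ⟨u, fun h => hc (h ▸ hu), hu⟩, fun x hx h => ?_⟩⟩, fun _ x hx h => ?_⟩⟩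
      · exact by_contra fun h' => hJ.2 ⟨hc, x, _, f.sc x hx, f.adj x hx, h, h'⟩
      · exact by_contra fun h' => hJ.2 ⟨hc, _, x, hx, (f.adj x hx).symm, h, h'⟩
  have h2 := (card_le_card h1).trans ((card_union_le _ _).trans (Nat.add_le_add
    ((card_union_le _ _).trans (Nat.add_le_add_right ((card_union_le _ _).trans
      (Nat.add_le_add_left card_biUnion_le _)) _)) card_biUnion_le))
  exact_mod_cast h2

theorem cr_disj {z : V} : Disjoint (ct H G c s W Y z) (rs H G W Y z) :=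
  disjoint_left.2 fun _ a b => by
    rcases (mem_cw.1 (mem_ct.1 a).1).2 with ⟨v, -, -, h, -⟩ | ⟨-, ⟨v, -, h⟩, -⟩
    exacts [(mem_rs.1 b).2.2 _ h, (mem_rs.1 b).2.2 _ h]

theorem cr_le_q3 {z : V} : ((ct H G c s W Y z).card : ℝ) + (rs H G W Y z).card ≤
    (hit H G W {z}).card := by
  classical
  have h2 : ct H G c s W Y z ∪ rs H G W Y z ⊆ hit H G W {z} := union_subset
    (fun φ a => mem_hit.2 ⟨(mem_cw.1 (mem_ct.1 a).1).1, by
      rcases (mem_cw.1 (mem_ct.1 a).1).2 with ⟨v, -, h, -⟩ | ⟨h, -⟩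
      exacts [⟨v, mem_singleton.2 h⟩, ⟨c, mem_singleton.2 h⟩]⟩)
    fun φ b => mem_hit.2 ⟨(mem_rs.1 b).1, by simpa using (mem_rs.1 b).2.1⟩
  have := card_le_card h2
  rw [card_union_of_disjoint cr_disj] at this
  exact_mod_cast this

theorem cw_le (f : Lnk H c s) (hc : Fintype.card α = j + 4)
    (hD : ∀ B v, ((nb G B v).card : ℝ) ≤ N) (z : V) :
    ((cw H G c s W Y z).card : ℝ) ≤ 1.5 * (j + 3) * (((nb G Y z).card : ℝ) ^ 2 * N ^ (j + 1)) ∧
      ((cw H G c s W Y z).card : ℝ) ≤ (j + 4) * N ^ (j + 2) * (nb G Y z).card := by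
  classical
  set P : (α → V) → Prop := fun φ => ∃ v, v ≠ c ∧ φ v = z ∧ φ c ∈ Y ∧ φ (s v) ∈ Y with hP
  have hs : cw H G c s W Y z ⊆ emb H G W := fun φ h => (mem_cw.1 h).1
  have h0 := card_filter_add_card_filter_not (s := cw H G c s W Y z) P
  have h1 := cover (T := univ.erase c) (U := (cw H G c s W Y z).filter P)
    (fun v φ => φ v = z ∧ φ c ∈ Y ∧ φ (s v) ∈ Y)
    (fun _ => ((nb G Y z).card : ℝ) ^ 2 * N ^ (j + 1)) (fun φ hφ => by
      obtain ⟨v, a, b⟩ := (mem_filter.1 hφ).2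
      exact ⟨v, by simpa using a, b⟩) fun v hv =>
      cnt_a f hc hD (((filter_subset _ _).trans (filter_subset _ _)).trans hs)
        (ne_of_mem_erase hv) z Y fun φ hφ => (mem_filter.1 hφ).2
  have h2 := dc_ge (T := univ.erase c) (U := (cw H G c s W Y z).filter fun φ => ¬ P φ)
    (fun v φ => φ c = z ∧ φ v ∈ Y ∧ φ (s v) ∈ Y) 2
    (fun _ => ((nb G Y z).card : ℝ) ^ 2 * N ^ (j + 1)) (fun φ hφ => by
      obtain ⟨a, b⟩ := mem_filter.1 hφ
      obtain ⟨a1, ⟨v, hv, a2⟩, a3⟩ := (mem_cw.1 a).2.resolve_left b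
      refine le_trans (card_pair (f.sv hv)).ge (card_le_card fun u hu => ?_)
      simp only [mem_insert, mem_singleton] at hu
      have : u ≠ c ∧ φ u ∈ Y := by
        rcases hu with rfl | rfl
        exacts [⟨hv, a2⟩, ⟨f.sc v hv, a3 v hv a2⟩]
      exact mem_filter.2 ⟨by simpa using this.1, a1, this.2, a3 u this.1 this.2⟩) fun v hv =>
      cnt_b f hc hD (((filter_subset _ _).trans (filter_subset _ _)).trans hs)
        (ne_of_mem_erase hv) z Y fun φ hφ => (mem_filter.1 hφ).2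
  have h3 := ub1 (j := j + 3) (F := (cw H G c s W Y z).filter fun φ => ¬ P φ) hc c {z} (hD W z)
    (fun φ hφ => mem_singleton.2
      ((mem_cw.1 (mem_filter.1 hφ).1).2.resolve_left (mem_filter.1 hφ).2).1) fun φ hφ i hi =>
    ((mem_cw.1 (mem_filter.1 hφ).1).2.resolve_left (mem_filter.1 hφ).2).1 ▸
      emb_c3 f (hs (mem_filter.1 hφ).1) hi
  rw [sum_const, nsmul_eq_mul, card_er hc] at h1 h2
  rw [card_singleton, Nat.cast_one, one_mul] at h3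
  rw [← h0]
  push_cast at h2 ⊢
  refine ⟨by linarith, ?_⟩
  have hj : (0 : ℝ) ≤ j := Nat.cast_nonneg _
  have E1 := hD Y z
  set E : ℝ := ((nb G Y z).card : ℝ)
  have E0 : 0 ≤ E := Nat.cast_nonneg _
  have P0 : 0 ≤ N ^ (j + 1) := pow_nonneg (E0.trans E1) _
  rw [show N ^ (j + 3) = N ^ 2 * N ^ (j + 1) by ring] at h3
  rw [pow_succ' N (j + 1)]
  rcases le_total (3 * E) (2 * N) with h | h
  · have := mul_le_mul_of_nonneg_right h (show 0 ≤ (j + 3) * E * N ^ (j + 1) by positivity)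
    have : 0 ≤ N * N ^ (j + 1) * E := mul_nonneg (mul_nonneg (E0.trans E1) P0) E0
    linarith
  · have := mul_nonneg (mul_nonneg (sub_nonneg.2 E1) P0)
      (show 0 ≤ (j + 3) * E - N by nlinarith)
    linarith

theorem ct_le {z : V} : ((ct H G c s W Y z).card : ℝ) ≤ (cw H G c s W Y z).card :=
  Nat.cast_le.2 (card_le_card fun _ h => (mem_ct.1 h).1)

theorem cr_le3 (f : Lnk H c s) (hc : Fintype.card α = j + 4)
    (hD : ∀ B v, ((nb G B v).card : ℝ) ≤ N) {z : V} :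
    ((ct H G c s W Y z).card : ℝ) + (rs H G W Y z).card ≤ (j + 4) *
      ((((nb G Y z).card : ℝ) ^ 2 + ((nb G (W \ Y) z).card : ℝ) ^ 2) * N ^ (j + 1)) := by
  classical
  obtain ⟨v0, hv0⟩ := Fac.ex hc c
  have hs : ct H G c s W Y z ∪ rs H G W Y z ⊆ emb H G W :=
    union_subset (fun φ h => (mem_cw.1 (mem_ct.1 h).1).1) fun φ h => (mem_rs.1 h).1
  set A : Bool → Finset V := fun b => if b then Y else W \ Y with hA
  have h2 := cover (T := (univ : Finset (α × Bool))) (U := ct H G c s W Y z ∪ rs H G W Y z)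
    (fun t φ => φ t.1 = z ∧ if t.1 = c then φ v0 ∈ A t.2 ∧ φ (s v0) ∈ A t.2 else
      φ c ∈ A t.2 ∧ φ (s t.1) ∈ A t.2)
    (fun t => ((nb G (A t.2) z).card : ℝ) ^ 2 * N ^ (j + 1)) (fun φ hφ => ?_) fun t _ => ?_
  · rw [card_union_of_disjoint cr_disj, Fintype.sum_prod_type] at h2
    simp only [Fintype.sum_bool, hA, if_true, sum_const, card_univ, hc, nsmul_eq_mul,
      Bool.false_eq_true, if_false] at h2
    push_cast at h2
    linarith
  · have aW := (mem_emb.1 (hs hφ)).1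
    rcases mem_union.1 hφ with a | a
    · rcases (mem_cw.1 (mem_ct.1 a).1).2 with ⟨v, hv, b1, b2⟩ | ⟨b1, -, b3⟩
      · exact ⟨(v, true), mem_univ _, b1, by simpa [hv, hA] using b2⟩
      · have k1 := b3 v0 hv0
        have k2 := (mem_ct.1 a).2 b1 v0 hv0
        by_cases h : φ v0 ∈ Y
        · exact ⟨(c, true), mem_univ _, b1, by simpa [hA] using ⟨h, k1 h⟩⟩
        · exact ⟨(c, false), mem_univ _, b1, by simpa [hA, aW] using ⟨h, fun h' => h (k2 h')⟩⟩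
    · obtain ⟨-, ⟨v, b1⟩, b2⟩ := mem_rs.1 a
      exact ⟨(v, false), mem_univ _, b1, by simp [hA, aW, b2]⟩
  · by_cases h : t.1 = c
    · exact cnt_b f hc hD ((filter_subset _ _).trans hs) hv0 z _ fun φ hφ => by
        simpa [h] using (mem_filter.1 hφ).2
    · exact cnt_a f hc hD ((filter_subset _ _).trans hs) h z _ fun φ hφ => by
        simpa [h] using (mem_filter.1 hφ).2

theorem js_le3 (f : Lnk H c s) (hc : Fintype.card α = j + 4)
    (hD : ∀ B v, ((nb G B v).card : ℝ) ≤ N) (N0 : 0 ≤ N) : ((js H G c W Y).card : ℝ) ≤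
      2 * (j + 4) ^ 2 * ((∑ y ∈ Y, ((nb G (W \ Y) y).card : ℝ) ^ 2) * N ^ (j + 1)) := by
  classical
  have hs : js H G c W Y ⊆ emb H G W := fun φ h => (mem_js.1 h).1
  have h2 := cover (T := (univ : Finset (Bool × α × α)) ×ˢ Y) (U := js H G c W Y)
    (fun t φ => if t.1.1 then
      φ c = t.2 ∧ t.1.2.1 ≠ t.1.2.2 ∧ φ t.1.2.1 ∉ Y ∧ φ t.1.2.2 ∉ Y else
      φ t.1.2.1 = t.2 ∧ φ c ∉ Y ∧ t.1.2.2 ≠ c ∧ H.Adj t.1.2.1 t.1.2.2 ∧ φ t.1.2.2 ∉ Y)
    (fun t => ((nb G (W \ Y) t.2).card : ℝ) ^ 2 * N ^ (j + 1)) (fun φ hφ => ?_) fun t ht => ?_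
  · rw [sum_product] at h2
    simp only [sum_const, card_univ, Fintype.card_prod, Fintype.card_bool, hc, nsmul_eq_mul,
      ← sum_mul] at h2
    push_cast at h2
    linarith
  · rcases (mem_js.1 hφ).2 with ⟨a1, a, b, a2⟩ | ⟨a1, a, b, a2, a3, a4, a5⟩
    · exact ⟨((true, a, b), φ c), mem_product.2 ⟨mem_univ _, a1⟩, by simpa using a2⟩
    · exact ⟨((false, a, b), φ a), mem_product.2 ⟨mem_univ _, a4⟩, by
        simpa using ⟨a1, a2, a3, a5⟩⟩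
  obtain ⟨⟨β, a, b⟩, y⟩ := t
  have hy : y ∈ Y := (mem_product.1 ht).2
  dsimp only
  set F := (js H G c W Y).filter fun φ => if β then φ c = y ∧ a ≠ b ∧ φ a ∉ Y ∧ φ b ∉ Y else
    φ a = y ∧ φ c ∉ Y ∧ b ≠ c ∧ H.Adj a b ∧ φ b ∉ Y with hF
  have hF' : F ⊆ emb H G W := (filter_subset _ _).trans hs
  rcases F.eq_empty_or_nonempty with h | ⟨ψ, hψ⟩
  · rw [h, card_empty, Nat.cast_zero]; positivity
  cases β
  · have k : ∀ φ ∈ F, φ a = y ∧ φ c ∉ Y ∧ b ≠ c ∧ H.Adj a b ∧ φ b ∉ Y := fun φ hφ => by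
      simpa using (mem_filter.1 hφ).2
    obtain ⟨p1, p2, p3, p4, -⟩ := k ψ hψ
    have ac : a ≠ c := fun h => p2 (h ▸ p1 ▸ hy)
    have := cover (T := nb G (W \ Y) y) (U := F) (fun x φ => φ c = x)
      (fun _ => (nb G (W \ Y) y).card * N ^ (j + 1)) (fun φ hφ => ⟨_, mem_nb.2
        ⟨mem_sdiff.2 ⟨(mem_emb.1 (hF' hφ)).1 _, (k φ hφ).2.1⟩,
          (k φ hφ).1 ▸ (mem_emb.1 (hF' hφ)).2.2 _ _ (f.dom a ac).symm⟩, rfl⟩) fun x _ => by
        simpa using ub3 (j := j + 1) (F := F.filter fun φ => φ c = x) hc ac.symm p3.symm p4.ne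
          {x} {y} (nb G (W \ Y) y) (hD W x) (fun φ hφ => by
            obtain ⟨q1, q2⟩ := mem_filter.1 hφ
            exact ⟨mem_singleton.2 q2, mem_singleton.2 (k φ q1).1, mem_nb.2
              ⟨mem_sdiff.2 ⟨(mem_emb.1 (hF' q1)).1 _, (k φ q1).2.2.2.2⟩,
                (k φ q1).1 ▸ (mem_emb.1 (hF' q1)).2.2 _ _ p4⟩⟩)
          fun φ hφ i hi _ _ => (mem_filter.1 hφ).2 ▸ emb_c3 f (hF' (mem_filter.1 hφ).1) hi
    rw [sum_const, nsmul_eq_mul] at this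
    linarith
  · have k : ∀ φ ∈ F, φ c = y ∧ a ≠ b ∧ φ a ∉ Y ∧ φ b ∉ Y := fun φ hφ => by
      simpa using (mem_filter.1 hφ).2
    obtain ⟨p1, p2, p3, p4⟩ := k ψ hψ
    have ac : a ≠ c := fun h => p3 (h ▸ p1 ▸ hy)
    have bc : b ≠ c := fun h => p4 (h ▸ p1 ▸ hy)
    have := ub3 (j := j + 1) (F := F) hc ac.symm bc.symm p2 {y} (nb G (W \ Y) y) (nb G (W \ Y) y)
      (hD W y) (fun φ hφ => by
        obtain ⟨q1, -, q3, q4⟩ := k φ hφ
        obtain ⟨r1, -, r3⟩ := mem_emb.1 (hF' hφ)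
        exact ⟨mem_singleton.2 q1, mem_nb.2 ⟨mem_sdiff.2 ⟨r1 _, q3⟩, q1 ▸ r3 _ _ (f.dom a ac)⟩,
          mem_nb.2 ⟨mem_sdiff.2 ⟨r1 _, q4⟩, q1 ▸ r3 _ _ (f.dom b bc)⟩⟩)
      fun φ hφ i hi _ _ => (k φ hφ).1 ▸ emb_c3 f (hF' hφ) hi
    rw [card_singleton, Nat.cast_one, one_mul] at this
    linarith

variable {w m : ℕ} {e η τ η0 : ℝ}

theorem pen3 (f : Lnk H c s) (hc : Fintype.card α = j + 4) (p : Pr j w m N δ e η τ η0)
    (q : Gd G w (N - m)) (k : Cl G N δ η W Y) : 0 ≤ XP G w Y ∧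
    ∑ y ∈ Y, xx G w Y y ≤ XP G w Y + |N - Y.card| ∧
    ((emb H G Y).card : ℝ) + 1.42 * (j + 3) * N ^ (j + 2) * XP G w Y ≤ gg H w Y.card := by
  have hN := p.N0
  have hj : (0 : ℝ) ≤ j := Nat.cast_nonneg _
  have a1 := mul_le_mul_of_nonneg_right p.nd hN.le
  have a2 := mul_le_mul_of_nonneg_right p.d3 hN.le
  obtain ⟨c1, c2⟩ := lemCk hc (f.edges hc) p.wp (a := 3 * δ * N) (by have := p.d0; positivity)
    (fun K _ hK => q.clq K hK) (fun y hy => k.nn p hy) (by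
      have := mul_le_mul_of_nonneg_right p.d1 hN.le
      have := k.lo
      linarith)
  have c3 := MT_le (m := m) p.wp Y.card
  rw [← p.hN] at c3
  refine ⟨sub_nonneg.2 c1, by rw [sum_xx, XP]; linarith, ?_⟩
  have b1 := pow_lo hN.le (ε := 0.01) (by norm_num) (y := η * N) (by linarith) (j + 2) (by
    have := mul_le_mul_of_nonneg_right p.tn1 hN.le
    have := mul_pos p.n0 hN
    push_cast
    linarith)
  have b2 : (N - η * N) ^ (j + 2) ≤ (Y.card : ℝ) ^ (j + 2) :=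
    pow_le_pow_left₀ (by linarith) (by linarith [k.lo]) _
  have b3 := mul_le_mul_of_nonneg_right (b1.trans b2)
    (mul_nonneg (show (0 : ℝ) ≤ j + 3 by linarith) (sub_nonneg.2 c1))
  have b4 := mul_nonneg (pow_nonneg hN.le (j + 2))
    (mul_nonneg (show (0 : ℝ) ≤ j + 3 by linarith) (sub_nonneg.2 c1))
  rw [XP]
  linarith

end Pool.Agent.GL3
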