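import Pool.Agent.P.MP_dfe42f_co.HgE

/-! A large cluster, and a cluster padded by vertices in few copies. -/

namespace Pool.Agent.GL3
open Finset Pool.Agent.GLT Pool.Agent.GL2 Function

set_option linter.unusedSectionVars false

variable {α V : Type} [Fintype α] [DecidableEq α] [DecidableEq V]
variable {H : SimpleGraph α} {G : SimpleGraph V} {j : ℕ} {c : α} {s : α → α}
  {N δ : ℝ} {W Y Z : Finset V} {w m : ℕ} {e η τ η0 : ℝ}

theorem big3 (f : Lnk H c s) (hc : Fintype.card α = j + 4) (p : Pr j w m N δ e η τ η0)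
    (q : Gd G w (N - m)) (k : Cl G N δ η W Y) (hb : w * m ≤ Y.card) :
    ((hit H G W Y).card : ℝ) ≤ gg H w (w * m) := by
  have hN := p.N0
  have hD := p.deg q
  have hj : (0 : ℝ) ≤ j := Nat.cast_nonneg _
  obtain ⟨u, hu⟩ := Nat.exists_eq_add_of_le hb
  have u0 : (0 : ℝ) ≤ u := Nat.cast_nonneg _
  have su : (Y.card : ℝ) = N + u := by rw [hu, Nat.cast_add, p.Nc]
  have w1 : (300 : ℝ) ≤ w := by
    exact_mod_cast le_trans (Nat.le_mul_of_pos_right 300 (by positivity)) p.w2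
  have uw : (u : ℝ) / w ≤ 0.01 * u := by rw [div_le_iff₀ (by linarith)]; nlinarith
  have d1 := decomp3 (G := G) (W := W) (Y := Y) (Z := ∅) f
  rw [union_empty, sum_empty, add_zero] at d1
  obtain ⟨p1, p2, p3⟩ := pen3 f hc p q k
  have p4 := gg_add_le (H := H) (j := j + 3) hc w (w * m) u (L := (1 + η) * N)
    (by rw [p.Nc, ← su]; exact k.up)
  have p5 : ((1 + η) * N) ^ (j + 3) ≤ 1.01 * N ^ (j + 3) := by
    have a := pow_up p.n0.le (j + 3) (by push_cast; linarith [p.tn1, p.d3, p.n0])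
    rw [mul_pow]
    refine mul_le_mul_of_nonneg_right (a.trans ?_) (by positivity)
    push_cast
    linarith [p.tn1, p.d3, p.n0]
  have c1 := sum_le_sum fun z (_ : z ∈ W \ Y) =>
    ct_le.trans (cw_le (W := W) (Y := Y) f hc hD z).2
  rw [← mul_sum, sum_in] at c1
  have c2 := sum_out p q k.sub
  have c3 : 0 ≤ ∑ y ∈ Y, ((nb G (W \ Y) y).card : ℝ) := sum_nonneg fun _ _ => Nat.cast_nonneg _
  have e1 : N - Y.card - (N - Y.card) / w = u / w - u := by rw [su]; ring
  have c4 := sq_out p q k le_rfl (by rw [e1]; linarith)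
  have c5 := js_le3 (W := W) (Y := Y) f hc hD hN.le
  rw [e1] at c2
  rw [show N - Y.card = -u by rw [su]; ring, abs_neg, abs_of_nonneg u0] at p2
  rw [← hu] at p4
  set X := ∑ y ∈ Y, xx G w Y y
  set P := N ^ (j + 2) with hP
  have P0 : 0 < P := by positivity
  have c6 : (Y.card : ℝ) * (u / w - u) ≤ -(0.99 * (u * N)) := by rw [su]; nlinarith
  have c7 : (u : ℝ) ≤ 0.001 * (u * N) := by nlinarith [p.N1, p.m0]
  have X0 : 0 ≤ X := by nlinarith
  have c8 : ((js H G c W Y).card : ℝ) ≤ 0.012 * (X * P) := by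
    refine c5.trans ?_
    have a1 := mul_le_mul_of_nonneg_right c4
      (show 0 ≤ 2 * ((j : ℝ) + 4) ^ 2 * N ^ (j + 1) by positivity)
    have a2 := mul_le_mul_of_nonneg_right p.d1 (mul_nonneg X0 P0.le)
    rw [hP, pow_succ N (j + 1)] at *
    linarith
  have c9 := mul_le_mul_of_nonneg_left p5 (show 0 ≤ (u : ℝ) * (j + 4) by positivity)
  have c10 := mul_le_mul_of_nonneg_left (show ∑ y ∈ Y, ((nb G (W \ Y) y).card : ℝ) ≤
    X - 0.99 * (u * N) by linarith) (show 0 ≤ ((j : ℝ) + 4) * P by positivity)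
  have c11 := mul_le_mul_of_nonneg_left (show X - 0.001 * (u * N) ≤ XP G w Y by linarith)
    (show 0 ≤ ((j : ℝ) + 3) * P by positivity)
  have c12 := mul_le_mul_of_nonneg_left (show 0.99 * (u * N) ≤ X by linarith) P0.le
  have c13 := mul_nonneg hj (mul_nonneg X0 P0.le)
  have c14 := mul_le_mul_of_nonneg_left c12 hj
  have c15 := mul_nonneg X0 P0.le
  rw [show N ^ (j + 3) = N * P by rw [hP]; ring] at c9
  push_cast at p4
  rw [show (j : ℝ) + 3 + 1 = j + 4 by ring] at p4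
  linarith

theorem pad_one3 (f : Lnk H c s) (hc : Fintype.card α = j + 4) (p : Pr j w m N δ e η τ η0)
    (q : Gd G w (N - m)) (k : Cl G N δ η W Y) {z : V} (hz : z ∈ W \ Y)
    (hq : ((hit H G W {z}).card : ℝ) ≤ (1 - e) * ((j + 4) * N ^ (j + 3))) {ψ : ℝ}
    (hψ : ψ ≤ 1.5 * (j + 3) * (max ((nb G Y z).card : ℝ) (0.52 * e * N) * N ^ (j + 1))) :
    ((ct H G c s W Y z).card : ℝ) + (rs H G W Y z).card + ψ * (N - (nb G Y z).card) ≤
        (1 - e / 5) * ((j + 4) * N ^ (j + 3)) := by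
  have hN := p.N0
  have hD := p.deg q
  have e0 := p.e0
  have hj : (0 : ℝ) ≤ j := Nat.cast_nonneg _
  set E : ℝ := ((nb G Y z).card : ℝ) with hE
  have E0 : 0 ≤ E := Nat.cast_nonneg _
  have E1 : E ≤ N := hD Y z
  have P0 : 0 < N ^ (j + 1) := by positivity
  have a0 : ψ * (N - E) ≤ (j + 4) * N ^ (j + 1) * (1.5 * (max E (0.52 * e * N) * (N - E))) := by
    have b1 := mul_le_mul_of_nonneg_right hψ (sub_nonneg.2 E1)
    have b2 := mul_nonneg (mul_nonneg (E0.trans (le_max_left E (0.52 * e * N))) P0.le)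
      (sub_nonneg.2 E1)
    linarith
  rw [show N ^ (j + 3) = N ^ (j + 1) * N ^ 2 by ring] at *
  have t0 : 0 ≤ ((j : ℝ) + 4) * N ^ (j + 1) := by positivity
  have b5 := mul_pos e0 (pow_pos hN 2)
  rcases le_total E (0.52 * e * N) with h | h
  · rw [max_eq_right h] at a0
    have a1 := cr_le_q3 (H := H) (G := G) (c := c) (s := s) (W := W) (Y := Y) (z := z)
    have a2 : 1.5 * (0.52 * e * N * (N - E)) ≤ 0.8 * (e * N ^ 2) := by
      have : 0 ≤ e * N * E := by positivity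
      nlinarith
    have := mul_le_mul_of_nonneg_left a2 t0
    linarith
  · rw [max_eq_left h] at a0
    have a1 := cr_le3 (W := W) (Y := Y) (z := z) f hc hD
    have a2 := nb_split (G := G) k.sub z
    have a3 : ((nb G (W \ Y) z).card : ℝ) ^ 2 ≤ (N - E) ^ 2 :=
      pow_le_pow_left₀ (Nat.cast_nonneg _) (by linarith [hD W z]) 2
    have a4 : 0.4 * (e * N ^ 2) ≤ E * (N - E) := by
      rcases le_total E (0.2 * N) with h' | h'
      · have := mul_le_mul h (show 0.8 * N ≤ N - E by linarith) (by positivity) E0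
        linarith
      · have b1 := mul_le_mul h' (show δ / 2 * N ≤ N - E by linarith [k.out z hz])
          (by have := p.d0; positivity) E0
        have b2 := mul_le_mul_of_nonneg_right (show 4 * e ≤ δ by linarith [p.en1, p.nd, p.n0])
          (sq_nonneg N)
        linarith
    have := mul_le_mul_of_nonneg_left a4 t0
    have := mul_le_mul_of_nonneg_left a3 t0
    linarith

theorem caseI3 (f : Lnk H c s) (hc : Fintype.card α = j + 4) (p : Pr j w m N δ e η τ η0)
    (q : Gd G w (N - m)) (k0 : Cl G N δ (η0 / 10) W Y) {u : ℕ} (u1 : 1 ≤ u) (hu : Y.card + u = w * m)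
    {L : Finset V} (hL : L ⊆ W \ Y) (hLu : u ≤ L.card)
    (h1 : ∀ z ∈ L, ((hit H G W {z}).card : ℝ) ≤ (1 - e) * ((j + 4) * N ^ (j + 3)))
    (h2 : ∀ z ∈ (W \ Y) \ L, ((nb G Y z).card : ℝ) ≤ 0.52 * e * N) :
    ∃ S ⊆ W, S.card = w * m ∧ ((hit H G W S).card : ℝ) ≤ gg H w (w * m) := by
  have hN := p.N0
  have hD := p.deg q
  have hj : (0 : ℝ) ≤ j := Nat.cast_nonneg _
  have zn : η0 / 10 ≤ η := by linarith [p.zn, p.z0]
  have k := k0.mono hN.le zn
  obtain ⟨Z, z1, z2, z3⟩ := exists_top L (fun z => ((nb G Y z).card : ℝ)) u hLu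
  have z4 := z1.trans hL
  refine ⟨Y ∪ Z, union_subset k.sub (z4.trans sdiff_subset), by
    rw [card_union_of_disjoint (disjoint_sdiff.mono_right z4), z2, hu], ?_⟩
  obtain ⟨z0, hz0, hmin⟩ := Z.exists_min_image (fun z => ((nb G Y z).card : ℝ))
    (card_pos.1 (by omega))
  set μ := max ((nb G Y z0).card : ℝ) (0.52 * e * N) with hμ
  have μ0 : 0 ≤ μ := le_max_of_le_left (Nat.cast_nonneg _)
  set ψ := min (1.5 * (j + 3) * (μ * N ^ (j + 1))) ((j + 4) * N ^ (j + 2)) with hψ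
  have ψ0 : 0 ≤ ψ := le_min (by positivity) (by positivity)
  have u0 : (0 : ℝ) ≤ u := Nat.cast_nonneg _
  have su : N - Y.card = u := by rw [← p.Nc, ← hu]; push_cast; ring
  have uz : (u : ℝ) ≤ η0 / 10 * N := by linarith [k0.lo]
  have uw : 0 ≤ (u : ℝ) / w := by positivity
  have d1 := decomp3 (G := G) (W := W) (Y := Y) (Z := Z) f
  obtain ⟨p1, p2, p3⟩ := pen3 f hc p q k
  have p4 := fill (H := H) hc p (by linarith [p.z0]) zn k0.lo hu.le
  have c0 : ∀ z ∈ (W \ Y) \ Z,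
      ((ct H G c s W Y z).card : ℝ) ≤ ψ * (nb G Y z).card := fun z hz => by
    have a1 : ((nb G Y z).card : ℝ) ≤ μ := by
      by_cases h : z ∈ L
      · exact le_max_of_le_left (z3 z0 hz0 z (mem_sdiff.2 ⟨h, (mem_sdiff.1 hz).2⟩))
      · exact le_max_of_le_right (h2 z (mem_sdiff.2 ⟨(mem_sdiff.1 hz).1, h⟩))
    obtain ⟨a2, a3⟩ := cw_le (W := W) (Y := Y) f hc hD z
    have a4 := mul_le_mul_of_nonneg_right a1
      (show 0 ≤ ((j : ℝ) + 3) * N ^ (j + 1) * (nb G Y z).card by positivity)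
    rw [hψ, min_mul_of_nonneg _ _ (Nat.cast_nonneg _)]
    exact ct_le.trans (le_min (by linarith) a3)
  have c1 := sum_le_sum c0
  have c2 := sum_le_sum fun z (hz : z ∈ Z) => pad_one3 f hc p q k (z4 hz) (h1 z (z1 hz)) (ψ := ψ)
    ((min_le_left _ _).trans (mul_le_mul_of_nonneg_left (mul_le_mul_of_nonneg_right
      (max_le_max_right _ (hmin z hz)) (by positivity)) (by positivity)))
  rw [← mul_sum] at c1
  rw [sum_add_distrib, sum_add_distrib, ← mul_sum, sum_sub_distrib, sum_const, sum_const, z2,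
    nsmul_eq_mul, nsmul_eq_mul] at c2
  have c3 := sum_out p q k.sub
  have c4 := sq_out p q k u0 (by rw [su]; linarith)
  have c5 := js_le3 (W := W) (Y := Y) f hc hD hN.le
  rw [← sum_in, ← sum_sdiff z4, su] at c3
  rw [← sum_sdiff z4] at d1
  rw [su, abs_of_nonneg u0] at p2
  rw [hu] at p4
  have X0 := xx_nonneg q p.wp Y
  set X := ∑ y ∈ Y, xx G w Y y
  set P := N ^ (j + 2) with hP
  have P0 : 0 < P := by positivity
  have Y0 : (0 : ℝ) ≤ Y.card := Nat.cast_nonneg _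
  have c6 : (Y.card : ℝ) * (u - u / w) ≤ u * N := by nlinarith
  have c7 : 1600 * (u : ℝ) ≤ e * (u * N) := by nlinarith [p.eN, p.m0]
  have c8 : ((js H G c W Y).card : ℝ) ≤ 0.012 * (X * P) + 0.02 * ((j + 4) * (e * (u * N) * P)) := by
    refine c5.trans ?_
    have a0 : 2 * (Y.card : ℝ) * u ^ 2 ≤ 2 * N * (u * (η0 / 10 * N)) :=
      mul_le_mul (by linarith) (by nlinarith) (by positivity) (by linarith)
    have a1 := mul_le_mul_of_nonneg_right (c4.trans (add_le_add_right a0 _))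
      (show 0 ≤ 2 * ((j : ℝ) + 4) ^ 2 * N ^ (j + 1) by positivity)
    have a2 := mul_le_mul_of_nonneg_right p.d1 (mul_nonneg X0 P0.le)
    rw [← p.h0]
    rw [hP, pow_succ N (j + 1)] at *
    linarith
  have c9 := mul_le_mul_of_nonneg_left (show ∑ z ∈ (W \ Y) \ Z, ((nb G Y z).card : ℝ) ≤
    X + (u * N - ∑ z ∈ Z, ((nb G Y z).card : ℝ)) by linarith)
    ψ0
  have c11 := mul_le_mul_of_nonneg_right (show ψ ≤ (j + 4) * P from min_le_right _ _) X0
  have c12 := mul_le_mul_of_nonneg_left (show X - u ≤ XP G w Y by linarith)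
    (show 0 ≤ ((j : ℝ) + 3) * P by positivity)
  have c13 := mul_nonneg hj (mul_nonneg X0 P0.le)
  have c14 := mul_le_mul_of_nonneg_left c7 (show 0 ≤ ((j : ℝ) + 3) * P by positivity)
  have c15 : 0 ≤ e * (u * N) * P := by have := p.e0; positivity
  have c16 := mul_nonneg hj c15
  have c17 := mul_nonneg X0 P0.le
  rw [show ((j : ℝ) + 4) * (η0 / 10) = e / 200 by linarith [p.h0]] at p4
  rw [show N ^ (j + 3) = N * P by rw [hP]; ring] at p4 c2
  linarith

end Pool.Agent.GL3
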