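import Pool.Agent.P.MP_dfe42f_co.HgF

/-! Global accounting when almost all vertices lie in clusters. -/

namespace Pool.Agent.GL3
open Finset Pool.Agent.GLT Pool.Agent.GL2 Function

set_option linter.unusedSectionVars false

variable {α V : Type} [Fintype α] [DecidableEq α] [DecidableEq V]
variable {H : SimpleGraph α} {G : SimpleGraph V} {j : ℕ} {c : α} {s : α → α}
  {N δ : ℝ} {W Y : Finset V} {w m : ℕ} {e η τ η0 : ℝ} {𝒴 : Finset (Finset V)}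

theorem cross3 (f : Lnk H c s) (hc : Fintype.card α = j + 4)
    (hD : ∀ B v, ((nb G B v).card : ℝ) ≤ N)
    (h2 : ∀ A ∈ 𝒴, ∀ B ∈ 𝒴, A ≠ B → Disjoint A B) :
    ((emb H G (𝒴.biUnion id)).card : ℝ) ≤ ∑ A ∈ 𝒴, ((emb H G A).card : ℝ) +
      1.5 * (j + 3) * N ^ (j + 1) *
        ∑ A ∈ 𝒴, ∑ x ∈ A, ((nb G (𝒴.biUnion id \ A) x).card : ℝ) ^ 2 := by
  classical
  set U := 𝒴.biUnion id with hU
  have u1 : ∀ x ∈ U, ∃ A ∈ 𝒴, x ∈ A := fun x hx => by simpa [hU] using hx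
  choose! cl c1 c2 using u1
  have c3 : ∀ A ∈ 𝒴, ∀ x ∈ A, x ∈ U ∧ cl x = A := fun A hA x hx => by
    have hx' : x ∈ U := mem_biUnion.2 ⟨A, hA, hx⟩
    exact ⟨hx', by_contra fun h => disjoint_left.1 (h2 _ (c1 x hx') A hA h) (c2 x hx') hx⟩
  have a1 : ∑ A ∈ 𝒴, ∑ x ∈ A, ((nb G (U \ A) x).card : ℝ) ^ 2 =
      ∑ x ∈ U, ((nb G (U \ cl x) x).card : ℝ) ^ 2 := by
    conv_rhs => rw [hU, sum_biUnion (t := id) fun A hA B hB h => h2 A hA B hB h]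
    exact sum_congr rfl fun A hA => sum_congr rfl fun x hx => by rw [(c3 A hA x hx).2]
  have m0 := card_filter_add_card_filter_not (s := emb H G U) fun φ => ∀ i, φ i ∈ cl (φ c)
  have m1 := cover (T := 𝒴) (U := (emb H G U).filter fun φ => ∀ i, φ i ∈ cl (φ c))
    (fun A φ => φ ∈ emb H G A) (fun A => ((emb H G A).card : ℝ)) (fun φ hφ => by
      obtain ⟨a, b⟩ := mem_filter.1 hφ
      obtain ⟨a1, a2⟩ := mem_emb.1 a
      exact ⟨_, c1 _ (a1 c), mem_emb.2 ⟨b, a2⟩⟩)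
    fun A _ => Nat.cast_le.2 (card_le_card fun φ hφ => (mem_filter.1 hφ).2)
  have m2 := cover (T := U) (U := (emb H G U).filter fun φ => ¬ ∀ i, φ i ∈ cl (φ c))
    (fun z φ => φ ∈ cw H G c s U (U \ cl z) z)
    (fun z => 1.5 * (j + 3) * N ^ (j + 1) * ((nb G (U \ cl z) z).card : ℝ) ^ 2) (fun φ hφ => by
      obtain ⟨a, b⟩ := mem_filter.1 hφ
      have a1 := (mem_emb.1 a).1
      push Not at b
      have k : ∀ v, φ v ∉ cl (φ c) → v ≠ c := fun v hv h => hv (by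
        rw [h]; exact c2 _ (a1 c))
      by_cases h : ∃ v, φ v ∉ cl (φ c) ∧ φ (s v) ∈ cl (φ c)
      · obtain ⟨v, b1, b2⟩ := h
        have k2 : ∀ y ∈ cl (φ c), y ∈ U \ cl (φ v) := fun y hy =>
          mem_sdiff.2 ⟨(c3 _ (c1 _ (a1 c)) y hy).1, fun h => b1 (by
            rw [← (c3 _ (c1 _ (a1 c)) y hy).2, (c3 _ (c1 _ (a1 v)) y h).2]
            exact c2 _ (a1 v))⟩
        exact ⟨φ v, a1 v, mem_cw.2 ⟨a, Or.inl ⟨v, k v b1, rfl, k2 _ (c2 _ (a1 c)), k2 _ b2⟩⟩⟩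
      · obtain ⟨v, hv⟩ := b
        exact ⟨φ c, a1 c, mem_cw.2 ⟨a, Or.inr ⟨rfl, ⟨v, k v hv, mem_sdiff.2 ⟨a1 v, hv⟩⟩,
          fun u _ hu => mem_sdiff.2 ⟨a1 _, fun h' => h ⟨u, (mem_sdiff.1 hu).2, h'⟩⟩⟩⟩⟩)
    fun z _ => (Nat.cast_le.2 (card_le_card fun φ hφ => (mem_filter.1 hφ).2)).trans
      ((cw_le f hc hD z).1.trans (le_of_eq (by ring)))
  rw [← mul_sum] at m2
  rw [← m0, a1]
  push_cast
  linarith

theorem star_le (h2 : ∀ A ∈ 𝒴, ∀ B ∈ 𝒴, A ≠ B → Disjoint A B) {r : Finset V} (hr : r ∈ 𝒴) :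
    ∑ x ∈ r, ((nb G (𝒴.biUnion id \ r) x).card : ℝ) ≤
      ∑ A ∈ 𝒴.erase r, ∑ x ∈ A, ((nb G (𝒴.biUnion id \ A) x).card : ℝ) := by
  rw [← sum_in]
  have a1 : 𝒴.biUnion id \ r ⊆ (𝒴.erase r).biUnion id := fun x hx => by
    obtain ⟨A, hA, h⟩ := mem_biUnion.1 (mem_sdiff.1 hx).1
    exact mem_biUnion.2 ⟨A, mem_erase.2 ⟨fun e => (mem_sdiff.1 hx).2 (e ▸ h), hA⟩, h⟩
  refine (sum_le_sum_of_subset_of_nonneg a1 fun _ _ _ => Nat.cast_nonneg _).trans ?_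
  rw [sum_biUnion (t := id) fun A hA B hB h =>
    h2 A (mem_of_mem_erase hA) B (mem_of_mem_erase hB) h]
  refine sum_le_sum fun A hA => sum_le_sum fun x _ => Nat.cast_le.2 (card_le_card (nb_mono ?_ x))
  exact subset_sdiff.2 ⟨subset_biUnion_of_mem id hr,
    h2 r hr A (mem_of_mem_erase hA) (ne_of_mem_erase hA).symm⟩

theorem glob3 (f : Lnk H c s) (hc : Fintype.card α = j + 4) (p : Pr j w m N δ e η τ η0)
    (q : Gd G w (N - m)) (h1 : ∀ A ∈ 𝒴, Cl G N δ η W A)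
    (h2 : ∀ A ∈ 𝒴, ∀ B ∈ 𝒴, A ≠ B → Disjoint A B) (h3 : ∀ A ∈ 𝒴, (A.card : ℝ) ≤ N)
    (h4 : ((W \ 𝒴.biUnion id).card : ℝ) ≤ η * N) {r : Finset V} (hr : r ∈ 𝒴) {v ρ : ℝ}
    (v0 : 0 ≤ v) (v1 : v ≤ η * N) (r0 : 0 ≤ ρ)
    (hv : ∀ A ∈ 𝒴, N - A.card ≤ v + if A = Y then ρ else 0) :
    ((emb H G W).card : ℝ) ≤ (W \ 𝒴.biUnion id).card * ((1 - δ / 2) * ((j + 4) * N ^ (j + 3))) +
      ∑ A ∈ 𝒴, gg H w A.card + 0.01 * N ^ (j + 2) * ∑ A ∈ 𝒴, (N - A.card) +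
        3.3 * (j + 3) * N ^ (j + 2) * (v * ∑ A ∈ 𝒴.erase r, (N - A.card) + η * N * ρ) := by
  classical
  have hN := p.N0
  have hD := p.deg q
  have hj : (0 : ℝ) ≤ j := Nat.cast_nonneg _
  have UW : 𝒴.biUnion id ⊆ W := biUnion_subset.2 fun A hA => (h1 A hA).sub
  have a1 := cross3 f hc hD h2
  set o : Finset V → V → ℝ := fun A x => ((nb G (𝒴.biUnion id \ A) x).card : ℝ) with ho
  have o0 : ∀ A x, 0 ≤ o A x := fun A x => Nat.cast_nonneg _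
  have o1 : ∀ A x, o A x ≤ (nb G (W \ A) x).card := fun A x =>
    Nat.cast_le.2 (card_le_card (nb_mono (sdiff_subset_sdiff UW Subset.rfl) x))
  have s1 : ∀ A ∈ 𝒴, ∑ x ∈ A, o A x ≤ ∑ y ∈ A, xx G w A y + N * (N - A.card) := fun A hA => by
    have b1 := sum_out p q (h1 A hA).sub
    have b2 := sub_nonneg.2 (h3 A hA)
    have b3 : 0 ≤ (A.card : ℝ) * ((N - A.card) / w) := by positivity
    have b4 := sum_le_sum fun x (_ : x ∈ A) => o1 A x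
    nlinarith
  have s2 : ∀ A ∈ 𝒴, ∑ x ∈ A, o A x ^ 2 ≤ 1.1 * (v * ∑ x ∈ A, o A x) +
      (if A = Y then 2.2 * (η * N ^ 2 * ρ) else 0) + 9.1 * δ * N * ∑ y ∈ A, xx G w A y := by
    intro A hA
    have b1 := lemV q p.wp (a := 3 * δ * N) (by have := p.d0; positivity)
      fun y hy => (h1 A hA).nn p hy
    have b2 : ∑ x ∈ A, o A x ^ 2 ≤
        ∑ x ∈ A, (1.1 * (N - A.card) * o A x + 3.025 * max (xx G w A x) 0 ^ 2) :=
      sum_le_sum fun x _ => by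
        have c1 := (o1 A x).trans (out_le p q (h1 A hA).sub x)
        have c2 := le_max_left (xx G w A x) 0
        have c3 : 0 ≤ (N - A.card) / w := div_nonneg (sub_nonneg.2 (h3 A hA)) (Nat.cast_nonneg _)
        have c4 := mul_le_mul_of_nonneg_left
          (show o A x ≤ max (xx G w A x) 0 + (N - A.card) by linarith) (o0 A x)
        nlinarith [sq_nonneg (o A x - 5.5 * max (xx G w A x) 0)]
    have b3 : 0 ≤ ∑ x ∈ A, o A x := sum_nonneg fun x _ => o0 A x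
    have b4 := mul_le_mul_of_nonneg_right (hv A hA) b3
    have b5 := mul_le_mul_of_nonneg_left
      ((sum_le_sum fun x (_ : x ∈ A) => o1 A x).trans (h1 A hA).few) r0
    have b6 := mul_nonneg (mul_pos p.d0 hN).le (xx_nonneg q p.wp A)
    rw [sum_add_distrib, ← mul_sum, ← mul_sum] at b2
    split_ifs at b4 ⊢ <;> linarith
  have s3 := sum_le_sum s2
  have s4 := star_le (G := G) h2 hr
  have s5 := sum_le_sum fun A (hA : A ∈ 𝒴.erase r) => s1 A (mem_of_mem_erase hA)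
  have s6 : ∑ A ∈ 𝒴.erase r, ∑ y ∈ A, xx G w A y ≤ ∑ A ∈ 𝒴, ∑ y ∈ A, xx G w A y :=
    sum_le_sum_of_subset_of_nonneg (erase_subset _ _) fun A _ _ => xx_nonneg q p.wp A
  have s7 := add_sum_erase 𝒴 (fun A => ∑ x ∈ A, o A x) hr
  have s8 : ∑ A ∈ 𝒴, (if A = Y then 2.2 * (η * N ^ 2 * ρ) else 0) ≤ 2.2 * (η * N ^ 2 * ρ) := by
    rw [sum_ite_eq']
    have := p.n0
    split_ifs
    · exact le_rfl
    · positivity
  rw [sum_add_distrib, sum_add_distrib, ← mul_sum, ← mul_sum, ← mul_sum] at s3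
  rw [sum_add_distrib, ← mul_sum] at s5
  have a2 := cover (T := W \ 𝒴.biUnion id) (U := hit H G W (W \ 𝒴.biUnion id))
    (fun z φ => φ ∈ hit H G W {z}) (fun _ => (1 - δ / 2) * ((j + 4) * N ^ (j + 3))) (fun φ hφ => by
      obtain ⟨a, i, hi⟩ := mem_hit.1 hφ
      exact ⟨_, hi, mem_hit.2 ⟨a, i, mem_singleton_self _⟩⟩) fun z hz =>
    le_trans (Nat.cast_le.2 (card_le_card fun φ hφ => (mem_filter.1 hφ).2))
      (vlow f hc p hD h1 h4 hz)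
  have a3 := sum_le_sum fun A hA => (pen3 f hc p q (h1 A hA)).2.2
  have a4 := sum_le_sum fun A (hA : A ∈ 𝒴) => (pen3 f hc p q (h1 A hA)).2.1.trans
    (le_of_eq (by rw [abs_of_nonneg (sub_nonneg.2 (h3 A hA))]))
  have a5 : 0 ≤ ∑ A ∈ 𝒴, XP G w A := sum_nonneg fun A hA => (pen3 f hc p q (h1 A hA)).1
  have a6 : 0 ≤ ∑ A ∈ 𝒴, ∑ y ∈ A, xx G w A y := sum_nonneg fun A _ => xx_nonneg q p.wp A
  rw [sum_add_distrib] at a3 a4
  rw [← mul_sum] at a3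
  rw [sum_const, nsmul_eq_mul] at a2
  set X := ∑ A ∈ 𝒴, ∑ y ∈ A, xx G w A y
  set T := ∑ A ∈ 𝒴.erase r, (N - A.card)
  have a7 : ∑ A ∈ 𝒴, ∑ x ∈ A, o A x ^ 2 ≤ 2.2 * (N * (v * T + η * N * ρ)) + 10 * δ * N * X := by
    have b1 := mul_le_mul_of_nonneg_left
      (show ∑ A ∈ 𝒴, ∑ x ∈ A, o A x ≤ 2 * (X + N * T) by simp only [ho] at *; linarith) v0
    have b2 := mul_le_mul_of_nonneg_right v1 a6
    have b3 := mul_le_mul_of_nonneg_right p.nd (mul_nonneg hN.le a6)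
    have b4 := mul_nonneg (mul_pos p.d0 hN).le a6
    linarith
  have a8 := mul_le_mul_of_nonneg_left a7 (show 0 ≤ 1.5 * (j + 3) * N ^ (j + 1) by positivity)
  have a9 := mul_le_mul_of_nonneg_left a4 (pow_nonneg hN.le (j + 2))
  have a10 := mul_nonneg (pow_nonneg hN.le (j + 2)) a5
  have a11 := mul_nonneg hj a10
  have a12 := mul_le_mul_of_nonneg_right (show ((j : ℝ) + 3) * δ ≤ 1 / 4000 by
    linarith [p.td, p.d0]) (mul_nonneg (pow_nonneg hN.le (j + 2)) a6)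
  have a13 := mul_nonneg (pow_nonneg hN.le (j + 2)) a6
  rw [emb_split W (W \ 𝒴.biUnion id), Finset.sdiff_sdiff_eq_self UW]
  rw [pow_succ N (j + 1)] at *
  push_cast
  linarith

end Pool.Agent.GL3
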