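import Pool.Agent.P.MP_dfe42f_co.Base

namespace GTur
open Finset SimpleGraph

/-- A graph on `Fin n` read off from a table of bit masks. -/
def tabG (n : ℕ) (t : List ℕ) : SimpleGraph (Fin n) where
  Adj u v := u ≠ v ∧ (t.getD u 0).testBit v = true ∧ (t.getD v 0).testBit u = true
  symm := ⟨fun _ _ h => ⟨h.1.symm, h.2.2, h.2.1⟩⟩
  loopless := ⟨fun _ h => h.1 rfl⟩

instance (n : ℕ) (t : List ℕ) : DecidableRel (tabG n t).Adj := fun u v => by
  unfold tabG; infer_instance

theorem free4 {V : Type} (G : SimpleGraph V)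
    (h : ∀ a b, G.Adj a b → ∀ c, G.Adj a c → G.Adj b c → ∀ d, G.Adj a d → G.Adj b d → ¬ G.Adj c d) :
    G.CliqueFree 4 := by
  classical
  intro s hs
  obtain ⟨a, t, hat, rfl, ht⟩ := card_eq_succ.1 hs.2
  obtain ⟨b, c, d, hbc, hbd, hcd, rfl⟩ := card_eq_three.1 ht
  simp only [mem_insert, mem_singleton, not_or] at hat
  have k := hs.1
  exact h a b (k (by simp) (by simp) hat.1) c (k (by simp) (by simp) hat.2.1)
    (k (by simp) (by simp) hbc) d (k (by simp) (by simp) hat.2.2) (k (by simp) (by simp) hbd)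
    (k (by simp) (by simp) hcd)

theorem free5 {V : Type} (G : SimpleGraph V)
    (h : ∀ e a, G.Adj e a → ∀ b, G.Adj e b → G.Adj a b → ∀ c, G.Adj e c → G.Adj a c → G.Adj b c →
      ∀ d, G.Adj e d → G.Adj a d → G.Adj b d → ¬ G.Adj c d) :
    G.CliqueFree 5 := by
  classical
  intro s hs
  obtain ⟨e, r, her, rfl, hr⟩ := card_eq_succ.1 hs.2
  obtain ⟨a, t, hat, rfl, ht⟩ := card_eq_succ.1 hr
  obtain ⟨b, c, d, hbc, hbd, hcd, rfl⟩ := card_eq_three.1 ht
  simp only [mem_insert, mem_singleton, not_or] at hat her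
  have k := hs.1
  exact h e a (k (by simp) (by simp) her.1) b (k (by simp) (by simp) her.2.1)
    (k (by simp) (by simp) hat.1) c (k (by simp) (by simp) her.2.2.1)
    (k (by simp) (by simp) hat.2.1)
    (k (by simp) (by simp) hbc) d (k (by simp) (by simp) her.2.2.2)
    (k (by simp) (by simp) hat.2.2) (k (by simp) (by simp) hbd)
    (k (by simp) (by simp) hcd)

/-- The icosahedron. -/
def ico : SimpleGraph (Fin 12) :=
  tabG 12 [62, 229, 395, 789, 1577, 1107, 3234, 2374, 2700, 3352, 2672, 1984]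

/-- The complement of the circulant graph on 13 points with steps 1 and 5. -/
def cir : SimpleGraph (Fin 13) :=
  tabG 13 [3804, 7608, 7025, 5859, 3527, 7054, 5917, 3643, 7286, 6381, 4571, 951, 1902]

instance : DecidableRel ico.Adj := fun u v => by unfold ico; infer_instance
instance : DecidableRel cir.Adj := fun u v => by unfold cir; infer_instance

theorem good_ico : Good 12 5 3 120 := by
  refine ⟨_, inferInstance, ico, by simp, free4 _ (by decide +kernel), fun v => ?_, ?_⟩
  · rw [ncard_nbr]; revert v; decide +kernel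
  · rw [ord_dec]; decide +kernel

theorem good_cir : Good 13 8 4 468 := by
  refine ⟨_, inferInstance, cir, by simp, free5 _ (by decide +kernel), fun v => ?_, ?_⟩
  · rw [ncard_nbr]; revert v; decide +kernel
  · rw [ord_dec]; decide +kernel

theorem Good.mono {n d d' w o : ℕ} (h : Good n d w o) (hd : d ≤ d') : Good n d' w o := by
  obtain ⟨V, _, G, h1, h2, h3, h4⟩ := h
  exact ⟨V, inferInstance, G, h1, h2, fun v => (h3 v).trans hd, h4⟩

theorem Good.pad {n y m o : ℕ} (h : Good n ((y + 1) * m) (y + 2) o) (a : ℕ) :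
    Good (a * ((y + 2) * m) + n) ((y + 1) * m) (y + 2)
      (a * (m ^ 3 * ((y + 2) * (y + 1) * y)) + o) := by
  induction a with
  | zero => simpa using h
  | succ a ih =>
    have := (((good_top y).blow m).mono (le_of_eq (mul_comm _ _))).add ih
    convert this using 1 <;> ring

theorem of_base {N d y o s m β : ℕ} (h : Good N d (y + 2) o) (h1 : s * d ≤ (y + 1) * m)
    (h2 : N * s = (y + 2) * (m + β))
    (h3 : (m ^ 3 + β ^ 3) * ((y + 2) * (y + 1) * y) + 6 ≤ s ^ 3 * o) (a k : ℕ) :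
    ∃ G : SimpleGraph (Fin ((a + 1) * ((y + 2) * (m * k)) + (y + 2) * (β * k))),
      G.CliqueFree (y + 2 + 1) ∧ (∀ v, (G.neighborSet v).ncard ≤ (y + 1) * (m * k)) ∧
      (a + 1) * ((turanGraph ((y + 2) * (m * k)) (y + 2)).cliqueSet 3).ncard +
        ((turanGraph ((y + 2) * (β * k)) (y + 2)).cliqueSet 3).ncard + k ^ 3 ≤
          (G.cliqueSet 3).ncard := by
  have g := ((h.blow (s * k)).mono (d' := (y + 1) * (m * k)) (by
    have := Nat.mul_le_mul_right k h1
    nlinarith)).pad a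
  have e : a * ((y + 2) * (m * k)) + N * (s * k) =
      (a + 1) * ((y + 2) * (m * k)) + (y + 2) * (β * k) := by
    rw [← mul_assoc N, h2]; ring
  rw [e] at g
  obtain ⟨G, g1, g2, g3⟩ := g.toFin
  refine ⟨G, g1, g2, ?_⟩
  have t1 := turan_count y (m * k)
  have t2 := turan_count y (β * k)
  have h4 : k ^ 3 * ((m ^ 3 + β ^ 3) * ((y + 2) * (y + 1) * y)) + k ^ 3 * 6 ≤
      k ^ 3 * (s ^ 3 * o) := by
    rw [← mul_add]; exact Nat.mul_le_mul_left _ h3
  have h5 : 6 * ((a + 1) * ((turanGraph ((y + 2) * (m * k)) (y + 2)).cliqueSet 3).ncard +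
      ((turanGraph ((y + 2) * (β * k)) (y + 2)).cliqueSet 3).ncard) =
      a * ((m * k) ^ 3 * ((y + 2) * (y + 1) * y)) +
        k ^ 3 * ((m ^ 3 + β ^ 3) * ((y + 2) * (y + 1) * y)) := by
    rw [mul_add, mul_left_comm, t1, t2]; ring
  have h6 : (s * k) ^ 3 * o = k ^ 3 * (s ^ 3 * o) := by ring
  omega

end GTur
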