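import Pool.Agent.P.MP_dfe42f_co.HfY
import Pool.Agent.P.MP_dfe42f_co.Small

/-! The converse: the formula fails for a graph with a leaf and for the triangle. -/

namespace Pool.Agent.GL3.CV
open Finset Pool.Agent.GLT Pool.Agent.GL2 Function

theorem pow_up {u : ℝ} (hu : -1 ≤ u) (k : ℕ) (hk : k * u ≤ 1) :
    (1 + u) ^ k ≤ 1 + k * u + k ^ 2 * u ^ 2 := by
  induction k with
  | zero => simp
  | succ k ih =>
    have k0 : (0 : ℝ) ≤ k := Nat.cast_nonneg _
    push_cast at hk ⊢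
    have h1 : k * u ≤ 1 := by
      rcases le_total 0 u with h | h
      · linarith
      · linarith [mul_nonpos_of_nonneg_of_nonpos k0 h]
    have h2 := mul_le_mul_of_nonneg_right (ih h1) (show 0 ≤ 1 + u by linarith)
    have h3 := mul_le_mul_of_nonneg_left h1 (show 0 ≤ k * u ^ 2 by positivity)
    rw [pow_succ]
    nlinarith [sq_nonneg u]

theorem num (h : ℕ) {x : ℝ} (h1 : 1 ≤ x) (hx : 4 * (h : ℝ) ^ 2 ≤ x) :
    x * (((x + 1) * x) ^ h + ((x - 1) * x) ^ h) < 2 * (x + 1) * (x * x - h) ^ h := by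
  have x0 : 0 < x := by linarith
  have h0 : (0 : ℝ) ≤ h := Nat.cast_nonneg _
  have hh : (h : ℝ) ≤ (h : ℝ) ^ 2 := by exact_mod_cast Nat.le_self_pow two_ne_zero h
  obtain ⟨u, hu⟩ : ∃ u : ℝ, u = 1 / x := ⟨_, rfl⟩
  have u0 : 0 < u := by rw [hu]; positivity
  have ux : u * x = 1 := by rw [hu]; field_simp
  have u1 : u ≤ 1 := by nlinarith
  have a1 : (h : ℝ) ^ 2 * u ≤ 1 / 4 := by nlinarith
  have a2 : (h : ℝ) * u ≤ 1 / 4 := by nlinarith
  have e1 : (x + 1) * x = x * x * (1 + u) := by linear_combination (-x) * ux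
  have e2 : (x - 1) * x = x * x * (1 + -u) := by linear_combination x * ux
  have e3 : x * x - h = x * x * (1 + -(h * u ^ 2)) := by
    linear_combination (h * (u * x + 1)) * ux
  have b1 := pow_up (u := u) (by linarith) h (by linarith)
  have b2 := pow_up (u := -u) (by linarith) h (by nlinarith)
  have b3 := one_add_mul_le_pow (a := -(h * u ^ 2)) (by nlinarith) h
  have P0 : 0 < (x * x) ^ h := by positivity
  rw [e1, e2, e3, mul_pow (x * x), mul_pow (x * x), mul_pow (x * x)]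
  have c1 : x * ((1 + u) ^ h + (1 + -u) ^ h) ≤ x * (2 + 2 * (h ^ 2 * u ^ 2)) :=
    mul_le_mul_of_nonneg_left (by linarith) x0.le
  have c2 := mul_le_mul_of_nonneg_left b3 (show 0 ≤ 2 * (x + 1) by linarith)
  have c3 : x * (h ^ 2 * u ^ 2) = h ^ 2 * u := by linear_combination (h ^ 2 * u) * ux
  have c4 : (h : ℝ) ^ 2 * u ^ 2 ≤ h ^ 2 * u := by
    nlinarith [mul_le_mul_of_nonneg_left u1 (show 0 ≤ (h : ℝ) ^ 2 * u by positivity)]
  have c5 : x * ((1 + u) ^ h + (1 + -u) ^ h) < 2 * (x + 1) * (1 + -(h * u ^ 2)) ^ h := by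
    nlinarith
  nlinarith [mul_lt_mul_of_pos_left c5 P0]

theorem num2 (h : ℕ) {x y : ℝ} (h1 : 1 ≤ x) (hx : 4 * (h : ℝ) ^ 2 ≤ x) (hy : x ≤ y) :
    x * (((x + 1) * y) ^ h + ((x - 1) * y) ^ h) < 2 * (x + 1) * (x * y - h) ^ h := by
  have x0 : 0 < x := by linarith
  have h0 : (0 : ℝ) ≤ h := Nat.cast_nonneg _
  have hh : (h : ℝ) ≤ (h : ℝ) ^ 2 := by exact_mod_cast Nat.le_self_pow two_ne_zero h
  obtain ⟨r, rfl⟩ : ∃ r, y = x * r := ⟨y / x, by field_simp⟩
  have r1 : 1 ≤ r := le_of_mul_le_mul_left (by linarith) x0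
  have a1 := mul_lt_mul_of_pos_right (num h h1 hx) (show 0 < r ^ h by positivity)
  have a2 : ((x * x - h) * r) ^ h ≤ (x * (x * r) - h) ^ h :=
    pow_le_pow_left₀ (mul_nonneg (by nlinarith) (by linarith)) (by nlinarith) h
  have a3 := mul_le_mul_of_nonneg_left a2 (show 0 ≤ 2 * (x + 1) by linarith)
  rw [← mul_assoc (x + 1), ← mul_assoc (x - 1), mul_pow _ r, mul_pow _ r]
  rw [mul_pow _ r] at a3
  linarith

variable {α : Type} [Fintype α] [DecidableEq α] {H : SimpleGraph α}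

open Classical in
/-- proper colourings -/
noncomputable def col (H : SimpleGraph α) (w : ℕ) : Finset (α → Fin w) :=
  univ.filter fun ψ => ∀ i j, H.Adj i j → ψ i ≠ ψ j

open Classical in
/-- colourings that are proper away from `v` -/
noncomputable def colv (H : SimpleGraph α) (v : α) (w : ℕ) : Finset (α → Fin w) :=
  univ.filter fun ψ => ∀ i j, i ≠ v → j ≠ v → H.Adj i j → ψ i ≠ ψ j

theorem mem_col {w : ℕ} {ψ : α → Fin w} : ψ ∈ col H w ↔ ∀ i j, H.Adj i j → ψ i ≠ ψ j := by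
  simp [col]

theorem mem_colv {w : ℕ} {v : α} {ψ : α → Fin w} :
    ψ ∈ colv H v w ↔ ∀ i j, i ≠ v → j ≠ v → H.Adj i j → ψ i ≠ ψ j := by
  simp [colv]

theorem gg_col {w : ℕ} (hw : 0 < w) (q : ℕ) :
    gg H w (w * q) ≤ ((col H w).card : ℝ) * (q : ℝ) ^ Fintype.card α := by
  have h : (emb H (Kc fun x => x % w) (range (w * q))).card ≤
      (col H w ×ˢ Fintype.piFinset fun _ : α => range q).card := by
    refine card_le_card_of_injOn
      (fun φ => (fun i => ⟨φ i % w, Nat.mod_lt _ hw⟩, fun i => φ i / w)) (fun φ hφ => ?_)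
      fun φ _ ψ _ h => funext fun i => ?_
    · obtain ⟨p0, -, p2⟩ := mem_emb.1 (mem_coe.1 hφ)
      refine mem_coe.2 (mem_product.2 ⟨mem_col.2 fun i j h e => ?_,
        Fintype.mem_piFinset.2 fun i => mem_range.2 (Nat.div_lt_of_lt_mul (mem_range.1 (p0 i)))⟩)
      exact p2 i j h (congrArg Fin.val e)
    · have h1 : φ i % w = ψ i % w := congrArg Fin.val (congrFun (congrArg Prod.fst h) i)
      have h2 : φ i / w = ψ i / w := congrFun (congrArg Prod.snd h) i
      rw [← Nat.div_add_mod (φ i) w, h1, h2, Nat.div_add_mod]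
  rw [card_product, Fintype.card_piFinset] at h
  simp only [card_range, prod_const, card_univ] at h
  unfold gg
  exact_mod_cast h

theorem col_le {c v : α} (hcv : H.Adj c v) (x : ℕ) :
    (x + 1) * (col H (x + 1)).card ≤ x * (colv H v (x + 1)).card := by
  classical
  have hv : c ≠ v := hcv.ne
  set B := (colv H v (x + 1)).filter fun ψ => ψ v = ψ c with hB
  have h1 : (col H (x + 1)).card ≤ x * B.card := by
    refine card_le_mul_card_image_of_maps_to (f := fun ψ => update ψ v (ψ c)) (fun ψ hψ => ?_) x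
      fun b _ => ?_
    · refine mem_filter.2 ⟨mem_colv.2 fun i j hi hj h => ?_, ?_⟩
      · rw [update_of_ne hi, update_of_ne hj]
        exact mem_col.1 hψ i j h
      · rw [update_self, update_of_ne hv]
    · have : (univ.erase (b c)).card = x := by simp
      refine le_trans (card_le_card_of_injOn (fun ψ => ψ v) (fun ψ hψ => ?_)
        fun φ hφ ψ hψ h => ?_) this.le
      · obtain ⟨p1, p2⟩ := mem_filter.1 (mem_coe.1 hψ)
        refine mem_coe.2 (mem_erase.2 ⟨?_, mem_univ _⟩)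
        rw [← p2, update_of_ne hv]
        exact (mem_col.1 p1 c v hcv).symm
      · have e := (mem_filter.1 (mem_coe.1 hφ)).2.trans (mem_filter.1 (mem_coe.1 hψ)).2.symm
        funext i
        by_cases hi : i = v
        · rw [hi]; exact h
        · have := congrFun e i
          rwa [update_of_ne hi, update_of_ne hi] at this
  have h2 : (col H (x + 1)).card + B.card ≤ (colv H v (x + 1)).card := by
    rw [← card_union_of_disjoint (disjoint_left.2 fun ψ p q =>
      mem_col.1 p c v hcv (mem_filter.1 q).2.symm)]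
    exact card_le_card (union_subset (fun ψ p => mem_colv.2 fun i j _ _ h => mem_col.1 p i j h)
      (filter_subset _ _))
  nlinarith

theorem colv_pos (v : α) {w : ℕ} (hw : Fintype.card α ≤ w) : 0 < (colv H v w).card := by
  obtain ⟨f⟩ : Nonempty (α ↪ Fin w) := Function.Embedding.nonempty_of_card_le (by simpa using hw)
  exact card_pos.2 ⟨f, mem_colv.2 fun i j _ _ h e => h.ne (f.injective e)⟩

/-- blow-up of the prism over a complete graph -/
def pr (w s : ℕ) : SimpleGraph (Bool × Fin w × Fin s) where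
  Adj a b := (a.1 = b.1 ∧ a.2.1 ≠ b.2.1) ∨ (a.1 ≠ b.1 ∧ a.2.1 = b.2.1)
  symm := ⟨fun _ _ h => h.imp (fun h => ⟨h.1.symm, h.2.symm⟩) fun h => ⟨h.1.symm, h.2.symm⟩⟩
  loopless := ⟨fun _ h => h.elim (fun h => h.2 rfl) fun h => h.1 rfl⟩

theorem pr_free (z s : ℕ) : (pr (z + 2) s).CliqueFree (z + 2 + 1) := by
  have hc : (pr (z + 2) s).Colorable (z + 2) := by
    refine ⟨SimpleGraph.Coloring.mk (fun a => if a.1 then a.2.1 + 1 else a.2.1) ?_⟩
    rintro ⟨e, a, t⟩ ⟨e', a', t'⟩ (⟨h1, h2⟩ | ⟨h1, h2⟩)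
    · cases e <;> cases e' <;> simp_all
    · cases e <;> cases e' <;> simp_all
  exact hc.cliqueFree (Nat.lt_succ_self _)

theorem pr_deg (w s : ℕ) (a) : ((pr w s).neighborSet a).ncard ≤ w * s := by
  have : (Set.univ : Set (Fin w × Fin s)).ncard = w * s := by simp [Set.ncard_univ]
  rw [← this]
  refine Set.ncard_le_ncard_of_injOn Prod.snd (fun _ _ => trivial) (fun b hb d hd h => ?_)
    (Set.toFinite _)
  refine Prod.ext ?_ h
  have h' : b.2.1 = d.2.1 := congrArg Prod.fst h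
  rcases hb with hb | hb <;> rcases hd with hd | hd
  · exact hb.1.symm.trans hd.1
  · exact absurd (hd.2.trans h'.symm) hb.2
  · exact absurd (hb.2.trans h') hd.2
  · have p := hb.1
    have q := hd.1
    revert p q
    cases a.1 <;> cases b.1 <;> cases d.1 <;> simp

theorem pr_emb {c v : α} (hv : v ≠ c) (hl : ∀ u, H.Adj v u → u = c) (w s : ℕ) :
    2 * ((colv H v w).card * s.descFactorial (Fintype.card α)) ≤ (emb H (pr w s) univ).card := by
  classical
  have e : ((univ : Finset Bool) ×ˢ colv H v w ×ˢ (univ : Finset (α ↪ Fin s))).card =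
      2 * ((colv H v w).card * s.descFactorial (Fintype.card α)) := by
    simp [card_product]
  rw [← e]
  refine card_le_card_of_injOn (fun p i =>
    (if i = v ∧ p.2.1 v = p.2.1 c then !p.1 else p.1, p.2.1 i, p.2.2 i)) ?_ ?_
  · rintro ⟨b, ψ, t⟩ hp
    have hψ := mem_colv.1 (mem_product.1 (mem_product.1 (mem_coe.1 hp)).2).1
    have key : (pr w s).Adj (if v = v ∧ ψ v = ψ c then !b else b, ψ v, t v)
        (if c = v ∧ ψ v = ψ c then !b else b, ψ c, t c) := by
      by_cases h : ψ v = ψ c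
      · exact Or.inr ⟨by simp [h, hv.symm], h⟩
      · exact Or.inl ⟨by simp [h], h⟩
    refine mem_coe.2 (mem_emb.2 ⟨fun _ => mem_univ _,
      fun i j h => t.injective (congrArg (fun a => a.2.2) h), fun i j h => ?_⟩)
    by_cases hi : i = v
    · subst hi
      obtain rfl := hl j h
      exact key
    by_cases hj : j = v
    · subst hj
      obtain rfl := hl i h.symm
      exact key.symm
    exact Or.inl ⟨by simp [hi, hj], hψ i j hi hj h⟩
  · rintro ⟨b, ψ, t⟩ - ⟨b', ψ', t'⟩ - h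
    have h1 := congrArg Prod.fst (congrFun h c)
    simp only [hv.symm, false_and, if_false] at h1
    refine Prod.ext h1 (Prod.ext (funext fun i => congrArg (fun a => a.2.1) (congrFun h i))
      (Function.Embedding.ext fun i => congrArg (fun a => a.2.2) (congrFun h i)))

theorem to_fin {V : Type} [Fintype V] [DecidableEq V] (G : SimpleGraph V) {n k d : ℕ}
    (hn : Fintype.card V = n) (h1 : G.CliqueFree k) (h2 : ∀ a, (G.neighborSet a).ncard ≤ d) :
    ∃ G' : SimpleGraph (Fin n), G'.CliqueFree k ∧ (∀ a, (G'.neighborSet a).ncard ≤ d) ∧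
      (emb H G univ).card ≤ (emb H G' univ).card := by
  let e : V ≃ Fin n := Fintype.equivFinOfCardEq hn
  refine ⟨G.comap e.symm, GTur.cliqueFree_comap _ _ h1, fun a => le_trans ?_ (h2 (e.symm a)),
    emb_map e e.injective.injOn (fun _ _ => mem_univ _) fun x _ y _ h => by simpa using h⟩
  exact Set.ncard_le_ncard_of_injOn e.symm (fun _ h => h) e.symm.injective.injOn (Set.toFinite _)

theorem FF_one {w m q : ℕ} (hw : 0 < w) (hq : q < m) :
    FF H w m (w * m + w * q) = gg H w (w * m) + gg H w (w * q) := by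
  have h1 : w * q < w * m := Nat.mul_lt_mul_of_pos_left hq hw
  unfold FF
  rw [Nat.add_div_left _ (by omega), Nat.add_mod_left, Nat.div_eq_of_lt h1, Nat.mod_eq_of_lt h1]
  simp

theorem emb_tri (hc : Fintype.card α = 3) (hH : ∀ u v, u ≠ v → H.Adj u v) {V : Type} [Fintype V]
    [DecidableEq V] (G : SimpleGraph V) :
    (emb H G univ).card = 6 * (G.cliqueSet 3).ncard := by
  classical
  rw [← GTur.ord_eq]
  have h1 : GTur.ord G = ((univ : Finset (V × V × V)).filter
      (fun t => G.Adj t.1 t.2.1 ∧ G.Adj t.1 t.2.2 ∧ G.Adj t.2.1 t.2.2)).card := by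
    rw [card_filter, GTur.ord]
    simp only [Fintype.sum_prod_type]
  let e : α ≃ Fin 3 := Fintype.equivFinOfCardEq hc
  have ne : ∀ {i j : Fin 3}, i ≠ j → H.Adj (e.symm i) (e.symm j) := fun h =>
    hH _ _ fun h' => h (e.symm.injective h')
  rw [h1]
  refine card_bij (fun φ _ => (φ (e.symm 0), φ (e.symm 1), φ (e.symm 2))) (fun φ hφ => ?_)
    (fun φ _ ψ _ h => funext fun i => ?_) ?_
  · obtain ⟨-, -, p⟩ := mem_emb.1 hφ
    exact mem_filter.2 ⟨mem_univ _, p _ _ (ne (by decide)), p _ _ (ne (by decide)),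
      p _ _ (ne (by decide))⟩
  · obtain ⟨k, rfl⟩ := e.symm.surjective i
    simp only [Prod.mk.injEq] at h
    fin_cases k
    exacts [h.1, h.2.1, h.2.2]
  · rintro ⟨a, b, d⟩ ht
    obtain ⟨p, q, r⟩ := (mem_filter.1 ht).2
    refine ⟨fun i => ![a, b, d] (e i), emb_of_adj (fun _ => mem_univ _) fun i j h => ?_, by simp⟩
    have h' : e i ≠ e j := fun h' => h (e.injective h')
    revert h'
    generalize e i = k
    generalize e j = l
    fin_cases k <;> fin_cases l <;> simp [p, q, r, p.symm, q.symm, r.symm]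

end Pool.Agent.GL3.CV

namespace Pool.Agent.GL3
open Finset Pool.Agent.GLT Pool.Agent.GL2

/-- section F of the paper, `v` is a leaf hanging at `c` -/
theorem leafFails {α : Type} [Fintype α] [DecidableEq α] {H : SimpleGraph α} {c v : α}
    (hc : ∀ u, u ≠ c → H.Adj c u) (hv : v ≠ c) (hl : ∀ u, H.Adj v u → u = c) :
    ∃ w0, ∀ w ≥ w0, ∀ m0, ∃ m ≥ m0, ∃ n, ∃ G : SimpleGraph (Fin n), G.CliqueFree (w + 1) ∧
      (∀ x, (G.neighborSet x).ncard ≤ (w - 1) * m) ∧
      FF H w m n < ((emb H G univ).card : ℝ) := by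
  obtain ⟨h, hh⟩ : ∃ h, h = Fintype.card α := ⟨_, rfl⟩
  refine ⟨4 * h ^ 2 + h + 2, fun w hw m0 => ?_⟩
  obtain ⟨z, rfl⟩ : ∃ z, w = z + 2 := ⟨w - 2, by omega⟩
  obtain ⟨y, hy⟩ : ∃ y, y = z + 1 + m0 := ⟨_, rfl⟩
  obtain ⟨G, g1, g2, g3⟩ := CV.to_fin (H := H) (CV.pr (z + 2) ((z + 1) * y))
    (n := (z + 2) * ((z + 2) * y) + (z + 2) * (z * y)) (by simp; ring)
    (CV.pr_free _ _) (CV.pr_deg _ _)
  refine ⟨(z + 2) * y, by nlinarith [show m0 ≤ y by omega], _, G, g1,
    fun x => (g2 x).trans (le_of_eq (by rw [show z + 2 - 1 = z + 1 from rfl]; ring)), ?_⟩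
  rw [CV.FF_one (by omega) (Nat.mul_lt_mul_of_pos_right (by omega) (by omega))]
  have a1 := CV.gg_col (H := H) (w := z + 2) (by omega) ((z + 2) * y)
  have a2 := CV.gg_col (H := H) (w := z + 2) (by omega) (z * y)
  have a3 := (Nat.cast_le (α := ℝ)).2 (CV.col_le (hc v hv) (z + 1))
  have a4 := (Nat.cast_lt (α := ℝ)).2 (CV.colv_pos (H := H) v (w := z + 2) (by omega))
  have a5 := (Nat.cast_le (α := ℝ)).2 ((CV.pr_emb hv hl (z + 2) ((z + 1) * y)).trans g3)
  have a6 := CV.num2 h (x := (z : ℝ) + 1) (y := y) (by linarith [Nat.cast_nonneg (α := ℝ) z]) (by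
    have : 4 * h ^ 2 ≤ z + 1 := by omega
    exact_mod_cast this) (by exact_mod_cast (by omega : z + 1 ≤ y))
  have a7 : (((z : ℝ) + 1) * y - h) ^ h ≤ (((z + 1) * y).descFactorial h : ℕ) := by
    have b1 : h ≤ (z + 1) * y := by nlinarith [show h ≤ y by omega]
    have b2 := (Nat.pow_le_pow_left (show (z + 1) * y - h ≤ (z + 1) * y + 1 - h by
      omega) h).trans (Nat.pow_sub_le_descFactorial ((z + 1) * y) h)
    have b3 := (Nat.cast_le (α := ℝ)).2 b2
    rw [Nat.cast_pow, Nat.cast_sub b1] at b3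
    push_cast at b3 ⊢
    exact b3
  rw [← hh] at a1 a2 a5
  push_cast at a1 a2 a3 a4 a5
  rw [show (z : ℝ) + 1 + 1 = z + 2 by ring] at a3 a6
  rw [add_sub_cancel_right] at a6
  have z0 : (0 : ℝ) ≤ z := Nat.cast_nonneg _
  set A : ℝ := ((CV.col H (z + 1 + 1)).card : ℝ)
  set B : ℝ := ((CV.colv H v (z + 1 + 1)).card : ℝ)
  set S : ℝ := (((z : ℝ) + 2) * y) ^ h + ((z : ℝ) * y) ^ h with hS
  have S0 : 0 ≤ S := by positivity
  have c1 := mul_le_mul_of_nonneg_right a3 S0
  have c2 := mul_lt_mul_of_pos_left a6 a4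
  have c3 := mul_le_mul_of_nonneg_left a7 (show 0 ≤ B * (2 * ((z : ℝ) + 2)) by positivity)
  have c4 : A * S < 2 * (B * (((z + 1) * y).descFactorial h : ℕ)) :=
    lt_of_mul_lt_mul_left (a := (z : ℝ) + 2) (by linarith) (by linarith)
  rw [hS] at c4
  linarith

/-- the triangle -/
theorem triFails {α : Type} [Fintype α] [DecidableEq α] {H : SimpleGraph α}
    (hc : Fintype.card α = 3) (hH : ∀ u v, u ≠ v → H.Adj u v) :
    ∃ w0, ∀ w ≥ w0, ∀ m0, ∃ m ≥ m0, ∃ n, ∃ G : SimpleGraph (Fin n), G.CliqueFree (w + 1) ∧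
      (∀ x, (G.neighborSet x).ncard ≤ (w - 1) * m) ∧
      FF H w m n < ((emb H G univ).card : ℝ) := by
  refine ⟨5, fun w hw m0 => ?_⟩
  obtain ⟨w0, rfl⟩ : ∃ w0, w = w0 + 3 + 2 := ⟨w - 5, by omega⟩
  obtain ⟨G, g1, g2, g3⟩ := GTur.of_base (y := w0 + 3) (s := (w0 + 4) * (w0 + 5))
    (m := (3 * w0 + 10) * (w0 + 5)) (β := w0 ^ 2 + 7 * w0 + 14) (GTur.good_U (w0 + 2))
    (le_of_eq (by ring)) (by ring) (by
      have e : ((w0 + 4) * (w0 + 5)) ^ 3 * (16 * ((w0 + 2 + 2) * (w0 + 2 + 1) * (w0 + 2)) +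
          12 * ((w0 + 2 + 2) * (w0 + 2 + 2) * (w0 + 2 + 1))) =
          (((3 * w0 + 10) * (w0 + 5)) ^ 3 + (w0 ^ 2 + 7 * w0 + 14) ^ 3) *
            ((w0 + 3 + 2) * (w0 + 3 + 1) * (w0 + 3)) +
            16 * ((w0 + 1) * (w0 + 3) * (w0 + 4) ^ 3 * (w0 + 5)) := by ring
      have : 0 < (w0 + 1) * (w0 + 3) * (w0 + 4) ^ 3 * (w0 + 5) := by positivity
      rw [e]
      omega) 0 (m0 + 1)
  refine ⟨(3 * w0 + 10) * (w0 + 5) * (m0 + 1),
    (Nat.le_succ m0).trans (Nat.le_mul_of_pos_left _ (by positivity)), _, G, g1, g2, ?_⟩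
  have e := CV.FF_one (H := H) (w := w0 + 3 + 2) (m := (3 * w0 + 10) * (w0 + 5) * (m0 + 1))
    (q := (w0 ^ 2 + 7 * w0 + 14) * (m0 + 1)) (by omega)
    (Nat.mul_lt_mul_of_pos_right (by nlinarith) (by omega))
  have k0 : 0 < (m0 + 1) ^ 3 := by positivity
  rw [CV.emb_tri hc hH, congrArg (FF H _ _) (congrArg (· + _) (Nat.one_mul _)), e, gg_turan,
    gg_turan, CV.emb_tri hc hH, CV.emb_tri hc hH]
  exact_mod_cast (by omega : 6 * _ + 6 * _ < 6 * (G.cliqueSet 3).ncard)

end Pool.Agent.GL3
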