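import Pool.Agent.P.MP_dfe42f_co.HgM
import Pool.Agent.P.MP_dfe42f_co.HgB9
import Pool.Agent.P.MP_dfe42f_co.HgX

/-! The classification. -/

namespace Pool.Agent.GL3
open Finset Pool.Agent.GLT Pool.Agent.GL2

variable {α : Type} [Fintype α] [DecidableEq α] {H : SimpleGraph α}

theorem fails {c : α} (h2 : 2 ≤ Fintype.card α) (hc : ∀ v, v ≠ c → H.Adj c v)
    (h : ¬ (4 ≤ Fintype.card α ∧ ∀ v, 2 ≤ (H.neighborSet v).ncard)) :
    ∃ w0, ∀ w ≥ w0, ∀ m0, ∃ m ≥ m0, ∃ n, ∃ G : SimpleGraph (Fin n), G.CliqueFree (w + 1) ∧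
      (∀ x, (G.neighborSet x).ncard ≤ (w - 1) * m) ∧
      FF H w m n < ((emb H G univ).card : ℝ) := by
  by_cases hl : ∃ v, v ≠ c ∧ ∀ u, H.Adj v u → u = c
  · obtain ⟨v, hv, hl⟩ := hl
    exact leafFails hc hv hl
  push Not at hl
  have two : ∀ v a b, a ≠ b → H.Adj v a → H.Adj v b → 2 ≤ (H.neighborSet v).ncard :=
    fun v a b hab ha hb => (Set.one_lt_ncard (Set.toFinite _)).2 ⟨a, ha, b, hb, hab⟩
  obtain ⟨x, hx⟩ := Fintype.exists_ne_of_one_lt_card h2 c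
  obtain ⟨y, xy, hy⟩ := hl x hx
  have hd : ∀ v, 2 ≤ (H.neighborSet v).ncard := fun v => by
    by_cases hv : v = c
    · exact hv ▸ two c x y xy.ne (hc x hx) (hc y hy)
    · obtain ⟨u, h1, h3⟩ := hl v hv
      exact two v u c h3 h1 (hc v hv).symm
  have h3 : ({c, x, y} : Finset α).card = 3 := card_eq_three.2 ⟨c, x, y, hx.symm, hy.symm, xy.ne, rfl⟩
  have h4 := card_le_univ ({c, x, y} : Finset α)
  have h5 : ¬ 4 ≤ Fintype.card α := fun h4 => h ⟨h4, hd⟩
  have h6 : ∀ u, u ∈ ({c, x, y} : Finset α) := fun u => by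
    rw [eq_univ_of_card _ (by omega : ({c, x, y} : Finset α).card = Fintype.card α)]
    exact mem_univ u
  refine triFails (by omega) fun u v huv => ?_
  have hu := h6 u
  have hv := h6 v
  simp only [mem_insert, mem_singleton] at hu hv
  rcases hu with rfl | rfl | rfl <;> rcases hv with rfl | rfl | rfl <;>
    first
    | exact absurd rfl huv
    | exact hc _ huv.symm
    | exact (hc _ huv).symm
    | exact xy
    | exact xy.symm

theorem classification {c : α} (h2 : 2 ≤ Fintype.card α) (hc : ∀ v, v ≠ c → H.Adj c v) :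
    ∃ w0 : ℕ, ∀ w ≥ w0, ∀ m0 ≥ 1, ((∀ m ≥ m0, ∀ n : ℕ,
      IsGreatest {k | ∃ G : SimpleGraph (Fin n), G.CliqueFree (w + 1) ∧
          (∀ v, (G.neighborSet v).ncard ≤ (w - 1) * m) ∧ G.copyCount H = k}
        (n / (w * m) * (SimpleGraph.turanGraph (w * m) w).copyCount H +
          (SimpleGraph.turanGraph (n % (w * m)) w).copyCount H)) ↔
      4 ≤ Fintype.card α ∧ ∀ v, 2 ≤ (H.neighborSet v).ncard) := by
  by_cases hn : 4 ≤ Fintype.card α ∧ ∀ v, 2 ≤ (H.neighborSet v).ncard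
  · obtain ⟨w0, h⟩ := main_of hn.1 hc hn.2 fun s j f hj e0 a b => lemB f hj a b
    exact ⟨w0, fun w hw m0 hm => iff_of_true (fun m h1 n => h w hw m (hm.trans h1) n) hn⟩
  · obtain ⟨w0, h0⟩ := fails h2 hc hn
    refine ⟨w0, fun w hw m0 _ => iff_of_false (fun h => ?_) hn⟩
    obtain ⟨m, a2, n, G, a3, a4, a5⟩ := h0 w hw m0
    have a6 := (h m a2 n).2 ⟨G, a3, a4, rfl⟩
    rw [FF, gg_turan, gg_turan, emb_copy, emb_copy, emb_copy] at a5
    have a7 := Nat.mul_le_mul_right (Nat.card (H ≃g H)) a6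
    rw [add_mul, mul_assoc] at a7
    exact absurd a7 (not_le.2 (by exact_mod_cast a5))

end Pool.Agent.GL3
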