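import Mathlib

open Finset
namespace Pool.Agent.TFD

/-- degree of the one exceptional vertex of an extremal graph of odd order `n > 2 Δ` -/
def apexDeg (Δ n : ℕ) : ℕ :=
  if n < 5 * ((Δ + 1) / 2) then min (n + 1 - 2 * Δ) (Δ - Δ % 2) else Δ - Δ % 2

end Pool.Agent.TFD
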