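import Pool.Agent.P.MP_dfe42f_co.Tf0

open Finset SimpleGraph
namespace Pool.Agent.TFD

/-- the largest value of the sum of `(deg v).choose s` -/
def starSum (s Δ n : ℕ) : ℕ :=
  if n ≤ 2 * Δ then (Icc (n - Δ) Δ).sup fun a => a * (n - a).choose s + (n - a) * a.choose s
  else if n % 2 = 0 then n * Δ.choose s
  else (n - 1) * Δ.choose s + (apexDeg Δ n).choose s

variable {V : Type} [Fintype V] [DecidableEq V]

/-- triangle-free with all degrees at most `Δ` -/
structure TF (G : SimpleGraph V) [DecidableRel G.Adj] (Δ : ℕ) : Prop where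
  tri : ∀ ⦃x y z⦄, G.Adj x y → G.Adj x z → ¬ G.Adj y z
  deg : ∀ v, G.degree v ≤ Δ

/-- total deficiency -/
def dfc (G : SimpleGraph V) [DecidableRel G.Adj] (Δ : ℕ) : ℕ := ∑ v, (Δ - G.degree v)

/-- a five-cycle of vertices of full degree -/
structure C5 (G : SimpleGraph V) [DecidableRel G.Adj] (Δ : ℕ) (v : ZMod 5 → V) : Prop where
  full : ∀ i, G.degree (v i) = Δ
  adj : ∀ i, G.Adj (v i) (v (i + 1))

/-- neighbouring classes -/
def Nb (i j : ZMod 5) : Prop := j = i + 1 ∨ i = j + 1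

/-- classes around a five-cycle, with an exceptional set -/
structure Cl (G : SimpleGraph V) [DecidableRel G.Adj] (Δ : ℕ) (v : ZMod 5 → V) (W : V → ZMod 5)
    (R : Finset V) : Prop where
  card : R.card ≤ 3
  vW : ∀ i, W (v i) = i
  vR : ∀ i, v i ∉ R
  out : ∀ u ∉ R, G.Adj u (v (W u + 1)) ∧ G.Adj u (v (W u - 1))
  inn : ∀ u ∈ R, ∀ y ∉ R, G.degree y = Δ → G.Adj u y → Nb (W u) (W y)

/-- a triangle-free graph with one vertex of degree `d` and all others of degree `Δ` -/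
def Re (V : Type) (Δ d : ℕ) : Prop :=
  ∃ G : SimpleGraph V, G.CliqueFree 3 ∧ ∃ v₀, (G.neighborSet v₀).ncard = d ∧
    ∀ v ≠ v₀, (G.neighborSet v).ncard = Δ

end Pool.Agent.TFD
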