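import Pool.Agent.P.MP_dfe42f_co.TfConA

open Finset SimpleGraph
namespace Pool.Agent.TFD

/-- as `Re`, with clique number at most `ω` -/
def ReW (ω : ℕ) (V : Type) (Δ d : ℕ) : Prop :=
  ∃ G : SimpleGraph V, G.CliqueFree (ω + 1) ∧ ∃ v₀, (G.neighborSet v₀).ncard = d ∧
    ∀ v ≠ v₀, (G.neighborSet v).ncard = Δ

end Pool.Agent.TFD
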