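import Pool.Agent.P.MP_dfe42f_co.Tf1

open Finset SimpleGraph
namespace Pool.Agent.TFD

variable {V : Type} [Fintype V] [DecidableEq V] {G : SimpleGraph V} [DecidableRel G.Adj] {Δ k : ℕ}

theorem tferd_aux (ω : ℕ) : ∀ A : Finset V, (∀ S ⊆ A, ¬ G.IsNClique (ω + 1) S) →
    ∃ W : V → ℕ, ∀ v ∈ A, W v < ω ∧
      (G.neighborFinset v ∩ A).card + (A.filter fun u => W u = W v).card ≤ A.card := by
  induction ω with
  | zero =>
    intro A hA
    refine ⟨fun _ => 0, fun v hv => ?_⟩
    exact absurd (isNClique_one.2 ⟨v, rfl⟩) (hA {v} (singleton_subset_iff.2 hv))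
  | succ ω ih =>
    intro A hA
    rcases A.eq_empty_or_nonempty with rfl | hne
    · exact ⟨fun _ => 0, fun v hv => absurd hv (notMem_empty v)⟩
    obtain ⟨x, hxA, hx⟩ := A.exists_max_image (fun x => (G.neighborFinset x ∩ A).card) hne
    set B := G.neighborFinset x ∩ A with hB
    have hBA : B ⊆ A := inter_subset_right
    have hBc : ∀ S ⊆ B, ¬ G.IsNClique (ω + 1) S := by
      intro S hS hc
      refine hA (insert x S) (insert_subset hxA (hS.trans hBA)) (hc.insert fun b hb => ?_)
      have := hS hb
      rw [hB, mem_inter, mem_neighborFinset] at this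
      exact this.1
    obtain ⟨W, hW⟩ := ih B hBc
    have hsd : (A \ B).card + B.card = A.card := card_sdiff_add_card_eq_card hBA
    refine ⟨fun u => if u ∈ B then W u else ω, fun v hv => ?_⟩
    by_cases hvB : v ∈ B
    · obtain ⟨h1, h2⟩ := hW v hvB
      simp only [if_pos hvB]
      refine ⟨by omega, ?_⟩
      have e1 : (A.filter fun u => (if u ∈ B then W u else ω) = W v) ⊆
          B.filter fun u => W u = W v := by
        intro u hu
        rw [mem_filter] at hu ⊢
        by_cases huB : u ∈ B
        · rw [if_pos huB] at hu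
          exact ⟨huB, hu.2⟩
        · rw [if_neg huB] at hu
          omega
      have e2 : G.neighborFinset v ∩ A ⊆ (G.neighborFinset v ∩ B) ∪ (A \ B) := by
        intro u hu
        rw [mem_inter] at hu
        rw [mem_union, mem_inter, mem_sdiff]
        by_cases huB : u ∈ B
        · exact Or.inl ⟨hu.1, huB⟩
        · exact Or.inr ⟨hu.2, huB⟩
      have c1 := card_le_card e1
      have c2 := (card_le_card e2).trans (card_union_le _ _)
      omega
    · simp only [if_neg hvB]
      refine ⟨by omega, ?_⟩
      have e1 : (A.filter fun u => (if u ∈ B then W u else ω) = ω) ⊆ A \ B := by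
        intro u hu
        rw [mem_filter] at hu
        rw [mem_sdiff]
        refine ⟨hu.1, fun huB => ?_⟩
        rw [if_pos huB] at hu
        have := (hW u huB).1
        omega
      have c1 := card_le_card e1
      have c2 := hx v hv
      omega

/-- degree majorisation by a complete multipartite graph -/
theorem erdos_maj {ω : ℕ} (h0 : 0 < ω) (h : G.CliqueFree (ω + 1)) :
    ∃ W : V → Fin ω, ∀ v, G.degree v + (univ.filter fun u => W u = W v).card ≤ Fintype.card V := by
  have _ := h0
  obtain ⟨W, hW⟩ := tferd_aux (G := G) ω univ fun S _ => h S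
  refine ⟨fun v => ⟨W v, (hW v (mem_univ v)).1⟩, fun v => ?_⟩
  have := (hW v (mem_univ v)).2
  rw [inter_univ, card_neighborFinset_eq_degree, card_univ] at this
  simpa only [Fin.mk.injEq] using this

theorem erdos_sum {ω : ℕ} (h0 : 0 < ω) (h : G.CliqueFree (ω + 1)) (hd : ∀ v, G.degree v ≤ Δ)
    (s : ℕ) : ∃ a : Fin ω → ℕ, ∑ i, a i = Fintype.card V ∧
      ∑ v, (G.degree v).choose s ≤ ∑ i, a i * (min Δ (Fintype.card V - a i)).choose s := by
  obtain ⟨W, hW⟩ := erdos_maj h0 h
  refine ⟨fun i => (univ.filter fun u => W u = i).card, ?_, ?_⟩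
  · rw [← card_univ]
    exact (card_eq_sum_card_fiberwise fun v _ => mem_coe.2 (mem_univ (W v))).symm
  · rw [← sum_fiberwise (s := univ) (g := W)]
    refine sum_le_sum fun i _ => ?_
    rw [← smul_eq_mul, ← sum_const]
    refine sum_le_sum fun v hv => Nat.choose_le_choose s ?_
    have e : W v = i := (mem_filter.1 hv).2
    have h1 := hW v
    rw [e] at h1
    have h2 := hd v
    beta_reduce
    omega

end Pool.Agent.TFD
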