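import Pool.Agent.P.MP_dfe42f_co.TfMul

open Finset SimpleGraph
namespace Pool.Agent.TFD

/-- adjacency table of a regular bipartite graph with an apex -/
def tfg1A (Δ N : ℕ) : Option (Bool × Fin N) → Option (Bool × Fin N) → Bool
  | none, none => false
  | none, some (_, j) => decide (j.val < Δ / 2)
  | some (_, i), none => decide (i.val < Δ / 2)
  | some (e, i), some (e', j) =>
      (e != e') && decide ((i.val + j.val) % N < Δ ∧ i.val + j.val + 1 ≠ Δ / 2)

/-- a regular bipartite graph with an apex -/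
def tfg1G (Δ N : ℕ) : SimpleGraph (Option (Bool × Fin N)) where
  Adj x y := tfg1A Δ N x y = true
  symm := ⟨by
    rintro (_ | ⟨e, x⟩) (_ | ⟨e', y⟩) <;> simp only [tfg1A] <;>
      first
      | exact id
      | (cases e <;> cases e' <;> simp [add_comm])⟩
  loopless := ⟨by
    rintro (_ | ⟨e, x⟩) <;> simp [tfg1A]⟩

theorem tfg1_free (Δ N : ℕ) : (tfg1G Δ N).CliqueFree (3 + 1) := by
  have h : (tfg1G Δ N).Colorable (Fintype.card (Option Bool)) :=
    Coloring.colorable (Coloring.mk (fun x => x.map Prod.fst) (by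
      rintro (_ | ⟨e, x⟩) (_ | ⟨e', y⟩) h
      · simp [tfg1G, tfg1A] at h
      · simp
      · simp
      · have h1 : tfg1A Δ N (some (e, x)) (some (e', y)) = true := h
        simp only [tfg1A, Bool.and_eq_true, bne_iff_ne] at h1
        simpa using h1.1))
  exact h.cliqueFree (by simp)

theorem tfg1_ncard (Δ N : ℕ) (x : Option (Bool × Fin N)) :
    ((tfg1G Δ N).neighborSet x).ncard = ∑ y, if tfg1A Δ N x y = true then 1 else 0 := by
  have e : (tfg1G Δ N).neighborSet x =
      ((univ.filter fun y => tfg1A Δ N x y = true : Finset _) : Set _) := by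
    ext y
    simp only [mem_neighborSet, coe_filter, mem_univ, true_and]
    rfl
  rw [e, Set.ncard_coe_finset, card_filter]

theorem tfg1_count {m r : ℕ} (hr : r ≤ m) (i : Fin m) :
    (∑ j : Fin m, if (i.val + j.val) % m < r then 1 else 0) = r := by
  have : NeZero m := ⟨i.pos.ne'⟩
  have e : (∑ j : Fin m, if (i.val + j.val) % m < r then 1 else 0) =
      ∑ j : Fin m, if j.val < r then 1 else 0 :=
    Fintype.sum_equiv (Equiv.addLeft i) _ _ fun j => by
      rw [Equiv.coe_addLeft]
      simp only [Fin.val_add]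
  rw [e, ← card_filter, Fin.card_filter_val_lt, min_eq_right hr]

theorem tfg1_one {m q : ℕ} (hq : q ≤ m) (i : Fin m) :
    (∑ j : Fin m, if i.val + j.val + 1 = q then 1 else 0) = if i.val < q then 1 else 0 := by
  split_ifs with h
  · rw [sum_eq_single (⟨q - 1 - i.val, by omega⟩ : Fin m) ?_ (by simp), if_pos (by
      change i.val + (q - 1 - i.val) + 1 = q
      omega)]
    intro j _ hj
    refine if_neg fun h1 => hj (Fin.ext ?_)
    change j.val = q - 1 - i.val
    omega
  · exact sum_eq_zero fun j _ => if_neg (by omega)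

theorem tfg1_deg {Δ N : ℕ} (h : Δ ≤ N) (i : Fin N) : (if i.val < Δ / 2 then 1 else 0) +
    (∑ j : Fin N, if (i.val + j.val) % N < Δ ∧ i.val + j.val + 1 ≠ Δ / 2 then 1 else 0) = Δ := by
  rw [← tfg1_one (by omega) i, ← sum_add_distrib]
  refine Eq.trans (sum_congr rfl fun j _ => ?_) (tfg1_count h i)
  by_cases h1 : i.val + j.val + 1 = Δ / 2
  · rw [if_pos h1, if_neg fun h2 => h2.2 h1, if_pos (by rw [Nat.mod_eq_of_lt (by omega)]; omega)]
  · simp [h1]

theorem rew_apex {Δ N : ℕ} (h : Δ ≤ N) : ReW 3 (Fin (2 * N + 1)) Δ (Δ - Δ % 2) := by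
  refine ReW.fin (V := Option (Bool × Fin N)) ⟨tfg1G Δ N, tfg1_free Δ N, none, ?_, ?_⟩ (by simp)
  · have e : (∑ j : Fin N, if j.val < Δ / 2 then 1 else 0) = Δ / 2 := by
      rw [← card_filter, Fin.card_filter_val_lt, min_eq_right (by omega)]
    rw [tfg1_ncard]
    simp only [Fintype.sum_option, Fintype.sum_prod_type, tfg1A, Fintype.sum_bool,
      Bool.false_eq_true, if_false, decide_eq_true_eq, e]
    omega
  · rintro (_ | ⟨e, i⟩) hv
    · exact (hv rfl).elim
    · have hx := tfg1_deg h i
      rw [tfg1_ncard]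
      cases e <;>
        simp only [Fintype.sum_option, Fintype.sum_prod_type, tfg1A, Fintype.sum_bool,
          Bool.false_eq_true, if_false, sum_const_zero, bne_self_eq_false, Bool.false_and,
          Bool.bne_true, Bool.bne_false, Bool.not_false, Bool.true_and, decide_eq_true_eq] <;>
        omega

end Pool.Agent.TFD
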