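import Pool.Agent.P.MP_dfe42f_co.TfMul

open Finset SimpleGraph
namespace Pool.Agent.TFD

/-- adjacency table of the three-coloured graph -/
def tfg2A (P c : ℕ) [NeZero c] : Fin P ⊕ Fin c ⊕ Fin c → Fin P ⊕ Fin c ⊕ Fin c → Bool
  | .inl _, .inl _ => false
  | .inl i, .inr (.inl j) => decide (¬ (i.val = j.val ∧ j.val < (P + 1) / 2))
  | .inl i, .inr (.inr j) => decide (¬ (i.val = P / 2 + j.val ∧ j.val < (P + 1) / 2))
  | .inr (.inl j), .inl i => decide (¬ (i.val = j.val ∧ j.val < (P + 1) / 2))
  | .inr (.inr j), .inl i => decide (¬ (i.val = P / 2 + j.val ∧ j.val < (P + 1) / 2))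
  | .inr (.inl _), .inr (.inl _) => false
  | .inr (.inl i), .inr (.inr j) =>
      decide ((j - i).val < 2 * c - P ∧ ¬ (j = i ∧ (P + 1) / 2 ≤ i.val))
  | .inr (.inr j), .inr (.inl i) =>
      decide ((j - i).val < 2 * c - P ∧ ¬ (j = i ∧ (P + 1) / 2 ≤ i.val))
  | .inr (.inr _), .inr (.inr _) => false

/-- the three-coloured graph -/
def tfg2G (P c : ℕ) [NeZero c] : SimpleGraph (Fin P ⊕ Fin c ⊕ Fin c) where
  Adj x y := tfg2A P c x y = true
  symm := ⟨by
    rintro (x | x | x) (y | y | y) <;> simp only [tfg2A] <;> exact id⟩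
  loopless := ⟨by
    rintro (x | x | x) <;> simp [tfg2A]⟩

theorem tfg2_free (P c : ℕ) [NeZero c] : (tfg2G P c).CliqueFree (3 + 1) := by
  have hc : (tfg2G P c).Colorable 3 := by
    refine ⟨Coloring.mk (Sum.elim (fun _ => (0 : Fin 3)) (Sum.elim (fun _ => 1) fun _ => 2)) ?_⟩
    intro x y hxy
    change tfg2A P c x y = true at hxy
    rcases x with x | x | x <;> rcases y with y | y | y <;>
      first
      | (simp only [tfg2A, Bool.false_eq_true] at hxy; done)
      | (simp only [Sum.elim_inl, Sum.elim_inr]; decide)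
  exact hc.cliqueFree (by omega)

theorem tfg2_ncard (P c : ℕ) [NeZero c] (x : Fin P ⊕ Fin c ⊕ Fin c) :
    ((tfg2G P c).neighborSet x).ncard = ∑ y, if tfg2A P c x y = true then 1 else 0 := by
  have e : (tfg2G P c).neighborSet x =
      ((univ.filter fun y => tfg2A P c x y = true : Finset _) : Set _) := by
    ext y
    simp only [mem_neighborSet, coe_filter, mem_univ, true_and]
    rfl
  rw [e, Set.ncard_coe_finset, card_filter]

theorem tfg2_one {n a : ℕ} (r : Fin n → Prop) [DecidablePred r] (C : Prop) [Decidable C]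
    (h : ∀ j, r j ↔ j.val = a ∧ C) (ha : C → a < n) :
    (∑ j, if r j then 1 else 0) = if C then 1 else 0 := by
  by_cases hC : C
  · rw [if_pos hC, sum_eq_single (⟨a, ha hC⟩ : Fin n)]
    · rw [if_pos ((h _).2 ⟨rfl, hC⟩)]
    · intro j _ hj
      exact if_neg fun hr => hj (Fin.ext ((h j).1 hr).1)
    · intro hh
      exact absurd (mem_univ _) hh
  · rw [if_neg hC]
    exact sum_eq_zero fun j _ => if_neg fun hr => hC ((h j).1 hr).2

theorem tfg2_drop {n : ℕ} (p r : Fin n → Prop) [DecidablePred p] [DecidablePred r]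
    (h : ∀ j, r j → p j) :
    (∑ j, if p j ∧ ¬ r j then 1 else 0) + (∑ j, if r j then 1 else 0) =
      ∑ j, if p j then 1 else 0 := by
  rw [← sum_add_distrib]
  refine sum_congr rfl fun j _ => ?_
  by_cases hr : r j
  · simp [hr, h j hr]
  · simp [hr]

theorem tfg2_not {n a : ℕ} (r : Fin n → Prop) [DecidablePred r] (C : Prop) [Decidable C]
    (h : ∀ j, r j ↔ j.val = a ∧ C) (ha : C → a < n) :
    (∑ j, if ¬ r j then 1 else 0) + (if C then 1 else 0) = n := by
  have h1 := tfg2_drop (fun _ => True) r (fun _ _ => trivial)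
  rw [tfg2_one r C h ha] at h1
  simpa using h1

theorem tfg2_lt {c g : ℕ} (hg : g ≤ c) (e : Fin c ≃ Fin c) :
    (∑ j, if (e j).val < g then 1 else 0) = g := by
  rw [Fintype.sum_equiv e (fun j => if (e j).val < g then 1 else 0)
    (fun j => if j.val < g then 1 else 0) fun j => rfl, ← card_filter, Fin.card_filter_val_lt,
    min_eq_right hg]

theorem rew_tri {P c : ℕ} (h1 : c ≤ P) (h2 : P + 1 ≤ 2 * c) :
    ReW 3 (Fin (P + 2 * c)) (2 * c - 1) (2 * c - 1 - P % 2) := by
  have : NeZero c := ⟨by omega⟩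
  refine ReW.fin (V := Fin P ⊕ Fin c ⊕ Fin c) ?_ (by
    simp only [Fintype.card_sum, Fintype.card_fin]
    ring)
  have hU : ∀ i : Fin P, ((tfg2G P c).neighborSet (.inl i)).ncard +
      (if i.val < (P + 1) / 2 then 1 else 0) + (if P / 2 ≤ i.val then 1 else 0) = 2 * c := by
    intro i
    have hi := i.2
    have a1 := tfg2_not (n := c) (a := i.val) (fun j => i.val = j.val ∧ j.val < (P + 1) / 2)
      (i.val < (P + 1) / 2) (fun j => by omega) (by omega)
    have a2 := tfg2_not (n := c) (a := i.val - P / 2)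
      (fun j => i.val = P / 2 + j.val ∧ j.val < (P + 1) / 2)
      (P / 2 ≤ i.val) (fun j => by omega) (by omega)
    rw [tfg2_ncard]
    simp only [Fintype.sum_sum_type, tfg2A, Bool.false_eq_true, if_false, sum_const_zero,
      decide_eq_true_eq]
    omega
  refine ⟨tfg2G P c, tfg2_free P c, .inl ⟨(P + 1) / 2 - 1, by omega⟩, ?_, ?_⟩
  · have := hU ⟨(P + 1) / 2 - 1, by omega⟩
    simp only at this
    split_ifs at this <;> omega
  · rintro (i | i | j) hv
    · have := hU i
      have hi := i.2
      have hne : i.val ≠ (P + 1) / 2 - 1 := fun hh => hv (by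
        congr 1
        exact Fin.ext hh)
      split_ifs at this <;> omega
    · have hi := i.2
      have a1 := tfg2_not (n := P) (a := i.val) (fun u => u.val = i.val ∧ i.val < (P + 1) / 2)
        (i.val < (P + 1) / 2) (fun j => Iff.rfl) (by omega)
      have a2 := tfg2_drop (n := c) (fun j => (j - i).val < 2 * c - P)
        (fun j => j = i ∧ (P + 1) / 2 ≤ i.val) (fun j hj => by
          rw [hj.1, sub_self, Fin.val_zero]; omega)
      have a3 := tfg2_one (n := c) (a := i.val) (fun j => j = i ∧ (P + 1) / 2 ≤ i.val)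
        ((P + 1) / 2 ≤ i.val) (fun j => by rw [Fin.ext_iff]) (fun _ => hi)
      have a4 := tfg2_lt (c := c) (g := 2 * c - P) (by omega) (Equiv.subRight i)
      simp only [Equiv.subRight_apply] at a4
      rw [a3, a4] at a2
      rw [tfg2_ncard]
      simp only [Fintype.sum_sum_type, tfg2A, Bool.false_eq_true, if_false, sum_const_zero,
        decide_eq_true_eq]
      split_ifs at a1 a2 <;> omega
    · have hj := j.2
      have a1 := tfg2_not (n := P) (a := P / 2 + j.val)
        (fun u => u.val = P / 2 + j.val ∧ j.val < (P + 1) / 2)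
        (j.val < (P + 1) / 2) (fun j => Iff.rfl) (by omega)
      have a2 := tfg2_drop (n := c) (fun i => (j - i).val < 2 * c - P)
        (fun i => j = i ∧ (P + 1) / 2 ≤ i.val) (fun i hi => by
          rw [hi.1, sub_self, Fin.val_zero]; omega)
      have a3 := tfg2_one (n := c) (a := j.val) (fun i => j = i ∧ (P + 1) / 2 ≤ i.val)
        ((P + 1) / 2 ≤ j.val) (fun i => by rw [Fin.ext_iff]; omega) (fun _ => hj)
      have a4 := tfg2_lt (c := c) (g := 2 * c - P) (by omega) (Equiv.subLeft j)
      simp only [Equiv.subLeft_apply] at a4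
      rw [a3, a4] at a2
      rw [tfg2_ncard]
      simp only [Fintype.sum_sum_type, tfg2A, Bool.false_eq_true, if_false, sum_const_zero,
        decide_eq_true_eq]
      split_ifs at a1 a2 <;> omega

end Pool.Agent.TFD
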