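import Pool.Agent.P.MP_dfe42f_co.Tf0

open Finset
namespace Pool.Agent.TFD

/-- degree of the one exceptional vertex of an extremal graph when `ω (n - Δ) > n` -/
def exDeg (ω Δ n : ℕ) : ℕ := if ω = 2 ∧ n % 2 = 1 then apexDeg Δ n else Δ - n * Δ % 2

/-- the largest value of the sum of `(deg v).choose s` -/
def starVal (s ω Δ n : ℕ) : ℕ :=
  if ω * (n - Δ) ≤ n then
    ((Finset.Nat.antidiagonalTuple ω n).filter fun a => ∀ i, n - Δ ≤ a i).sup
      fun a => ∑ i, a i * (n - a i).choose s
  else (n - 1) * Δ.choose s + (exDeg ω Δ n).choose s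

end Pool.Agent.TFD
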