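import Pool.Agent.P.MP_dfe42f_co.Tf1

open Finset SimpleGraph
namespace Pool.Agent.TFD

theorem tfshift_upd {ω : ℕ} (g : ℕ → ℕ) (a : Fin ω → ℕ) (i : Fin ω) (x : ℕ) :
    ∑ k, g (Function.update a i x k) + g (a i) = ∑ k, g (a k) + g x := by
  rw [← Finset.add_sum_erase _ _ (mem_univ i), ← Finset.add_sum_erase _ (fun k => g (a k))
    (mem_univ i), Function.update_self,
    Finset.sum_congr rfl fun k hk => by rw [Function.update_of_ne (Finset.ne_of_mem_erase hk)]]
  omega

theorem tfshift_upd2 {ω : ℕ} (g : ℕ → ℕ) (a : Fin ω → ℕ) {i j : Fin ω} (h : j ≠ i) (x y : ℕ) :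
    ∑ k, g (Function.update (Function.update a i x) j y k) + g (a i) + g (a j) =
      ∑ k, g (a k) + g x + g y := by
  have h1 := tfshift_upd g a i x
  have h2 := tfshift_upd g (Function.update a i x) j y
  rw [Function.update_of_ne h] at h2
  omega

theorem shift {ω n Δ : ℕ} (hω : ω * (n - Δ) ≤ n) (hn : Δ ≤ n) (s : ℕ) (a : Fin ω → ℕ)
    (ha : ∑ i, a i = n) : ∃ b : Fin ω → ℕ, ∑ i, b i = n ∧ (∀ i, n - Δ ≤ b i) ∧
      ∑ i, a i * (min Δ (n - a i)).choose s ≤ ∑ i, b i * (n - b i).choose s := by
  induction hm : ∑ i, (n - Δ - a i) using Nat.strong_induction_on generalizing a with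
  | _ m ih =>
    by_cases h : ∀ i, n - Δ ≤ a i
    · refine ⟨a, ha, h, le_of_eq (Finset.sum_congr rfl fun i _ => ?_)⟩
      have := h i
      rw [min_eq_right (by omega)]
    · obtain ⟨i, hi⟩ := not_forall.1 h
      have hj : ∃ j, n - Δ < a j := by
        by_contra hc
        have h1 : ∑ k, a k < ∑ _k : Fin ω, (n - Δ) :=
          Finset.sum_lt_sum (fun k _ => not_lt.1 fun hk => hc ⟨k, hk⟩)
            ⟨i, mem_univ _, not_le.1 hi⟩
        rw [Finset.sum_const, Finset.card_univ, Fintype.card_fin, smul_eq_mul] at h1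
        omega
      obtain ⟨j, hj⟩ := hj
      have hji : j ≠ i := by
        rintro rfl
        omega
      have e1 := tfshift_upd2 (fun x => x) a hji (a i + 1) (a j - 1)
      have e2 := tfshift_upd2 (fun x => n - Δ - x) a hji (a i + 1) (a j - 1)
      have e3 := tfshift_upd2 (fun x => x * (min Δ (n - x)).choose s) a hji (a i + 1) (a j - 1)
      obtain ⟨b, b1, b2, b3⟩ := ih _ (by omega) (Function.update (Function.update a i (a i + 1)) j
        (a j - 1)) (by omega) rfl
      refine ⟨b, b1, b2, le_trans ?_ b3⟩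
      have m1 : min Δ (n - a i) = Δ := min_eq_left (by omega)
      have m2 : min Δ (n - (a i + 1)) = Δ := min_eq_left (by omega)
      have c1 : (min Δ (n - a j)).choose s ≤ Δ.choose s :=
        Nat.choose_le_choose s (min_le_left _ _)
      have c2 : (min Δ (n - a j)).choose s ≤ (min Δ (n - (a j - 1))).choose s :=
        Nat.choose_le_choose s (min_le_min le_rfl (by omega))
      have c3 := Nat.mul_le_mul_left (a j - 1) c2
      have c4 : a j * (min Δ (n - a j)).choose s =
          (a j - 1) * (min Δ (n - a j)).choose s + (min Δ (n - a j)).choose s := by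
        rw [← Nat.succ_mul]
        congr 1
        omega
      rw [m1, m2, add_mul, one_mul] at e3
      omega

theorem tfshift_conv (r x y s : ℕ) :
    (r + x).choose s + (r + y).choose s ≤ (r + x + y).choose s + r.choose s := by
  induction y with
  | zero => simp
  | succ y ih =>
    rcases s with _ | t
    · simp
    · have h1 : (r + y).choose t ≤ (r + x + y).choose t := Nat.choose_le_choose t (by omega)
      rw [← add_assoc, ← add_assoc, Nat.choose_succ_succ', Nat.choose_succ_succ']
      omega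

theorem tfshift_two {Δ p q : ℕ} (hp : p ≤ Δ) (hq : q ≤ Δ) (s : ℕ) :
    p.choose s + q.choose s ≤ Δ.choose s + (p + q - Δ).choose s := by
  by_cases h : Δ ≤ p + q
  · have h1 := tfshift_conv (p + q - Δ) (Δ - q) (Δ - p) s
    rwa [show p + q - Δ + (Δ - q) = p by omega, show p + q - Δ + (Δ - p) = q by omega,
      show p + (Δ - p) = Δ by omega] at h1
  · have h1 := tfshift_conv 0 p q s
    have h2 : (p + q).choose s ≤ Δ.choose s := Nat.choose_le_choose s (by omega)
    rw [show p + q - Δ = 0 by omega]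
    simp only [zero_add] at h1
    omega

theorem tfshift_set {V : Type} {Δ : ℕ} (f : V → ℕ) (hf : ∀ v, f v ≤ Δ) (s : ℕ) (S : Finset V) (hS : S.Nonempty) :
    ∑ v ∈ S, (f v).choose s ≤
      (S.card - 1) * Δ.choose s + (Δ - ∑ v ∈ S, (Δ - f v)).choose s := by
  induction hS using Finset.Nonempty.cons_induction with
  | singleton a =>
    have := hf a
    simp [show Δ - (Δ - f a) = f a by omega]
  | cons a S ha hS ih =>
    rw [Finset.sum_cons, Finset.sum_cons, Finset.card_cons]
    have h1 := tfshift_two (hf a) (Nat.sub_le Δ (∑ v ∈ S, (Δ - f v))) s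
    have h0 := hf a
    have h2 : (f a + (Δ - ∑ v ∈ S, (Δ - f v)) - Δ).choose s =
        (Δ - (Δ - f a + ∑ v ∈ S, (Δ - f v))).choose s := by
      congr 1
      omega
    have h3 : S.card + 1 - 1 = S.card - 1 + 1 := by
      have := hS.card_pos
      omega
    rw [h3, add_mul, one_mul, ← h2]
    omega

theorem conc {V : Type} [Fintype V] [Nonempty V] {Δ d : ℕ} (f : V → ℕ) (hf : ∀ v, f v ≤ Δ)
    (hd : d ≤ Δ) (ht : Δ - d ≤ ∑ v, (Δ - f v)) (s : ℕ) :
    ∑ v, (f v).choose s ≤ (Fintype.card V - 1) * Δ.choose s + d.choose s := by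
  refine (tfshift_set f hf s _ Finset.univ_nonempty).trans ?_
  rw [Finset.card_univ]
  refine Nat.add_le_add_left (Nat.choose_le_choose s ?_) _
  omega

end Pool.Agent.TFD
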