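import Pool.Agent.P.MP_dfe42f_co.TfEnd
import Pool.Agent.P.MP_dfe42f_co.TfS
import Pool.Agent.P.MP_dfe42f_co.TfErd
import Pool.Agent.P.MP_dfe42f_co.TfShift
import Pool.Agent.P.MP_dfe42f_co.TfG1
import Pool.Agent.P.MP_dfe42f_co.TfG2

open Finset SimpleGraph
namespace Pool.Agent.TFD

theorem rew_bip {ω Δ n : ℕ} (hω : 3 ≤ ω) (h : 2 * Δ ≤ n) (h0 : 0 < n) :
    ReW ω (Fin n) Δ (Δ - n * Δ % 2) := by
  rcases Nat.even_or_odd' n with ⟨N, rfl | rfl⟩
  · rw [mul_assoc, Nat.mul_mod_right]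
    exact ReW.mono (ω := 2) (re_even (by omega) (by omega)) (by omega)
  · rw [Nat.mul_mod, show (2 * N + 1) % 2 = 1 by omega, one_mul, Nat.mod_mod]
    exact (rew_apex (by omega)).mono hω

theorem rew_par (a D : ℕ) : (a + (D + a)) * (D + a) % 2 = (D + a) * D % 2 := by
  rw [show (a + (D + a)) * (D + a) = (D + a) * D + 2 * (a * (D + a)) by ring, Nat.add_mul_mod_self_left]

theorem rew_all (j : ℕ) : ∀ a Δ : ℕ, 0 < a → a + Δ ≤ (j + 3) * a → a + Δ + 1 ≠ (j + 3) * a →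
    ReW (j + 3) (Fin (a + Δ)) Δ (Δ - (a + Δ) * Δ % 2) := by
  induction j with
  | zero =>
    intro a Δ h0 h1 h2
    by_cases h : Δ ≤ a
    · exact rew_bip le_rfl (by omega) (by omega)
    rcases Nat.even_or_odd' Δ with ⟨N, e | e⟩
    · obtain ⟨D, rfl⟩ : ∃ D, Δ = D + a := ⟨Δ - a, by omega⟩
      have h3 : ReW 2 (Fin (D + a)) D D := by
        rw [e]
        exact re_even (by omega) (by omega)
      have h4 : (a + (D + a)) * (D + a) % 2 = 0 := by
        rw [e, ← mul_assoc, mul_comm _ 2, mul_assoc, Nat.mul_mod_right]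
      rw [h4]
      exact h3.join
    · subst e
      have := rew_tri (P := a - 1) (c := N + 1) (by omega) (by omega)
      rwa [show a - 1 + 2 * (N + 1) = a + (2 * N + 1) by omega,
        show 2 * (N + 1) - 1 = 2 * N + 1 by omega,
        show (a - 1) % 2 = (a + (2 * N + 1)) * (2 * N + 1) % 2 by
          rw [Nat.mul_mod, show (2 * N + 1) % 2 = 1 by omega, mul_one]; omega] at this
  | succ j ih =>
    intro a Δ h0 h1 h2
    by_cases h : Δ ≤ a
    · exact rew_bip (by omega) (by omega) (by omega)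
    obtain ⟨D, rfl⟩ : ∃ D, Δ = D + a := ⟨Δ - a, by omega⟩
    have e : (j + 1 + 3) * a = (j + 3) * a + a := by ring
    have := ih a D h0 (by omega) (by omega)
    rw [add_comm a D] at this
    have h5 : (D + a) * D % 2 ≤ D := by omega
    rw [rew_par, show D + a - (D + a) * D % 2 = D - (D + a) * D % 2 + a by omega]
    exact this.join

theorem exDeg_le (ω Δ n : ℕ) : exDeg ω Δ n ≤ Δ := by
  unfold exDeg apexDeg
  split_ifs <;> omega

theorem rew_ex {ω Δ n : ℕ} (hω : 2 ≤ ω) (hΔ : ω ≤ Δ) (hd : ω - 1 ∣ Δ) (hn : Δ < n)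
    (h : n < ω * (n - Δ)) : ReW ω (Fin n) Δ (exDeg ω Δ n) := by
  unfold exDeg
  rcases hω.eq_or_lt with rfl | h3
  · rcases Nat.even_or_odd' n with ⟨N, rfl | rfl⟩
    · rw [if_neg (by omega), mul_assoc, Nat.mul_mod_right]
      exact re_even (by omega) (by omega)
    · rw [if_pos (by omega)]
      exact re_odd hΔ (by omega) (by omega)
  · rw [if_neg (by omega)]
    obtain ⟨j, rfl⟩ : ∃ j, ω = j + 3 := ⟨ω - 3, by omega⟩
    obtain ⟨a, rfl⟩ : ∃ a, n = a + Δ := ⟨n - Δ, by omega⟩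
    rw [Nat.add_sub_cancel] at h
    refine rew_all j a Δ (by omega) h.le fun e => ?_
    have h1 : j + 2 ∣ Δ + 1 := ⟨a, by rw [show (j + 3) * a = (j + 2) * a + a by ring] at e; omega⟩
    have := Nat.le_of_dvd one_pos ((Nat.dvd_add_right hd).1 h1)
    omega

theorem lower_all {ω Δ n : ℕ} (hω : 2 ≤ ω) (hΔ : ω ≤ Δ) (hd : ω - 1 ∣ Δ) (hn : Δ < n) (s : ℕ) :
    ∃ G : SimpleGraph (Fin n), G.CliqueFree (ω + 1) ∧ (∀ v, (G.neighborSet v).ncard ≤ Δ) ∧
      ∑ v, ((G.neighborSet v).ncard).choose s = starVal s ω Δ n := by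
  unfold starVal
  split_ifs with h1
  · obtain ⟨b, b1, b2, -⟩ := shift h1 hn.le s (Pi.single (⟨0, by omega⟩ : Fin ω) n) (by simp)
    obtain ⟨a, ha, e⟩ := exists_mem_eq_sup
      ((Finset.Nat.antidiagonalTuple ω n).filter fun a => ∀ i, n - Δ ≤ a i)
      ⟨b, mem_filter.2 ⟨Finset.Nat.mem_antidiagonalTuple.2 b1, b2⟩⟩
      fun a => ∑ i, a i * (n - a i).choose s
    rw [e]
    exact con_multi a (Finset.Nat.mem_antidiagonalTuple.1 (mem_filter.1 ha).1) (mem_filter.1 ha).2 s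
  · obtain ⟨G, h1, v₀, h2, h3⟩ := rew_ex hω hΔ hd hn (not_le.1 h1)
    refine ⟨G, h1, fun v => ?_, ?_⟩
    · by_cases e : v = v₀
      · rw [e, h2]; exact exDeg_le _ _ _
      · exact (h3 v e).le
    · rw [← sum_erase_add _ _ (mem_univ v₀), h2,
        sum_congr rfl fun v hv => by rw [h3 v (ne_of_mem_erase hv)], sum_const, smul_eq_mul,
        card_erase_of_mem (mem_univ _), card_univ, Fintype.card_fin]

theorem upper_all {V : Type} [Fintype V] [DecidableEq V] {G : SimpleGraph V} [DecidableRel G.Adj]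
    {ω Δ : ℕ} (hω : 2 ≤ ω) (h : G.CliqueFree (ω + 1)) (hd : ∀ v, G.degree v ≤ Δ)
    (hn : Δ < Fintype.card V) (s : ℕ) :
    ∑ v, (G.degree v).choose s ≤ starVal s ω Δ (Fintype.card V) := by
  unfold starVal
  split_ifs with h1
  · obtain ⟨a, a1, a2⟩ := erdos_sum (by omega) h hd s
    obtain ⟨b, b1, b2, b3⟩ := shift h1 hn.le s a a1
    exact (a2.trans b3).trans (le_sup (f := fun a : Fin ω → ℕ =>
      ∑ i, a i * (Fintype.card V - a i).choose s)
      (mem_filter.2 ⟨Finset.Nat.mem_antidiagonalTuple.2 b1, b2⟩))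
  · have : Nonempty V := Fintype.card_pos_iff.1 (by omega)
    refine conc _ hd (exDeg_le _ _ _) ?_ s
    unfold exDeg
    split_ifs with h2
    · obtain ⟨rfl, h2⟩ := h2
      exact dfc_main ⟨fun x y z a b c => h _ (is3Clique_triple_iff.2 ⟨a, b, c⟩), hd⟩ (by omega) h2
    · have e : ∑ v, (Δ - G.degree v) + ∑ v, G.degree v = Fintype.card V * Δ := by
        rw [← sum_add_distrib, sum_congr rfl fun v _ => Nat.sub_add_cancel (hd v), sum_const,
          smul_eq_mul, card_univ]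
      rw [sum_degrees_eq_twice_card_edges] at e
      omega

open Classical in
theorem main_all {s ω Δ n : ℕ} (hω : 2 ≤ ω) (hΔ : ω ≤ Δ) (hd : ω - 1 ∣ Δ) (hn : Δ < n)
    (H : SimpleGraph (Fin (s + 1))) (hH : H.CliqueFree 3) (hc : ∃ c, ∀ w ≠ c, H.Adj c w) :
    IsGreatest {N | ∃ G : SimpleGraph (Fin n), G.CliqueFree (ω + 1) ∧
        (∀ v, (G.neighborSet v).ncard ≤ Δ) ∧ G.copyCount H = N}
      (starVal s ω Δ n / (if s = 1 then 2 else 1)) := by
  obtain ⟨c, hc⟩ := hc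
  have h0 : 0 < (if s = 1 then 2 else 1) := by split_ifs <;> norm_num
  obtain ⟨G₀, g1, g2, g3⟩ := lower_all hω hΔ hd hn s
  refine ⟨⟨G₀, g1, g2, ?_⟩, ?_⟩
  · simp only [deg_eq] at g3
    rw [← g3, ← count_star H hH hc, Nat.mul_div_cancel _ h0]
  · rintro _ ⟨G, k1, k2, rfl⟩
    simp only [deg_eq] at k2
    have := upper_all hω k1 k2 (by rwa [Fintype.card_fin]) s
    rw [Fintype.card_fin, ← count_star H hH hc] at this
    exact (Nat.le_div_iff_mul_le h0).2 this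

end Pool.Agent.TFD
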