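import Pool.Agent.P.MP_dfe42f_co.TfCod

open Finset SimpleGraph
namespace Pool.Agent.TFD

variable {V : Type} [Fintype V] [DecidableEq V] {G : SimpleGraph V} [DecidableRel G.Adj] {Δ k : ℕ}

theorem tfbip_big (h : TF G Δ) (hk : Fintype.card V + k = 3 * Δ) (ht : dfc G Δ + 2 ≤ k)
    (hn : 2 * Δ < Fintype.card V) (X : Finset V) (hX : 2 * Xᶜ.card + 1 ≤ Fintype.card V)
    (he : ∀ x ∈ X, ∀ y ∈ X, G.Adj x y → G.degree y ≠ Δ) : False := by
  have hc := card_add_card_compl X
  by_cases hE : ∃ x ∈ X, ∃ y ∈ X, G.Adj x y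
  · obtain ⟨s, hs, s', hs', hss⟩ := hE
    have hne := hss.ne
    have h1 := dfc_ge h {s, s'} ((univ.filter fun v => G.degree v ≠ Δ) \ {s, s'}) disjoint_sdiff
      fun v hv => (mem_filter.1 (mem_sdiff.1 hv).1).2
    rw [sum_pair hne] at h1
    have h2 : Disjoint (G.neighborFinset s) (G.neighborFinset s') := by
      rw [Finset.disjoint_left]
      intro z a b
      exact h.tri hss ((G.mem_neighborFinset _ _).1 a) ((G.mem_neighborFinset _ _).1 b)
    have h3 : G.neighborFinset s ∪ G.neighborFinset s' ⊆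
        Xᶜ ∪ ({s, s'} ∪ (univ.filter fun v => G.degree v ≠ Δ) \ {s, s'}) := by
      intro z hz
      by_cases hzX : z ∈ X
      · refine mem_union_right _ ?_
        rw [union_sdiff_self_eq_union]
        refine mem_union_right _ (mem_filter.2 ⟨mem_univ _, ?_⟩)
        rcases mem_union.1 hz with a | a
        · exact he s hs z hzX ((G.mem_neighborFinset _ _).1 a)
        · exact he s' hs' z hzX ((G.mem_neighborFinset _ _).1 a)
      · exact mem_union_left _ (mem_compl.2 hzX)
    have h4 := (card_le_card h3).trans ((card_union_le _ _).trans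
      (Nat.add_le_add_left (card_union_le _ _) _))
    rw [card_union_of_disjoint h2, card_neighborFinset_eq_degree, card_neighborFinset_eq_degree,
      card_pair hne] at h4
    have d1 := h.deg s
    have d2 := h.deg s'
    omega
  · push Not at hE
    have h1 : ∑ x ∈ X, G.degree x ≤ Xᶜ.card * Δ := by
      calc ∑ x ∈ X, G.degree x = ∑ x ∈ X, (Xᶜ.bipartiteAbove G.Adj x).card := by
            refine sum_congr rfl fun x hx => ?_
            rw [← card_neighborFinset_eq_degree]
            congr 1
            ext y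
            rw [mem_bipartiteAbove, mem_neighborFinset, mem_compl]
            exact ⟨fun a => ⟨fun hy => hE x hx y hy a, a⟩, fun a => a.2⟩
        _ = ∑ y ∈ Xᶜ, (X.bipartiteBelow G.Adj y).card :=
            sum_card_bipartiteAbove_eq_sum_card_bipartiteBelow _
        _ ≤ ∑ y ∈ Xᶜ, Δ := by
            refine sum_le_sum fun y _ => le_trans (card_le_card fun x hx => ?_) (h.deg y)
            exact (G.mem_neighborFinset _ _).2 ((mem_bipartiteBelow _).1 hx).2.symm
        _ = _ := by rw [sum_const, smul_eq_mul]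
    have h2 := dfc_ge h X ∅ (disjoint_empty_right _) (by simp)
    have h3 : ∑ x ∈ X, (Δ - G.degree x) + ∑ x ∈ X, G.degree x = X.card * Δ := by
      rw [← sum_add_distrib, ← smul_eq_mul, ← sum_const]
      exact sum_congr rfl fun x _ => Nat.sub_add_cancel (h.deg x)
    have h4 : (Xᶜ.card + 1) * Δ ≤ X.card * Δ := Nat.mul_le_mul_right _ (by omega)
    rw [add_mul] at h4
    omega

theorem no_bip (h : TF G Δ) (hk : Fintype.card V + k = 3 * Δ) (ht : dfc G Δ + 2 ≤ k)
    (hn : 2 * Δ < Fintype.card V) (ho : Fintype.card V % 2 = 1) (χ : V → Bool)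
    (hχ : ∀ x y, G.degree x = Δ → G.degree y = Δ → G.Adj x y → χ x ≠ χ y) : False := by
  classical
  let ψ : V → Bool := fun s => if G.degree s = Δ then χ s else
    if ∃ x, G.Adj s x ∧ G.degree x = Δ ∧ χ x = true then false else true
  have key : ∀ s y, G.Adj s y → ψ s = ψ y → G.degree y ≠ Δ := by
    intro s y a e hy
    have e2 : ψ y = χ y := if_pos hy
    by_cases hs : G.degree s = Δ
    · exact hχ s y hs hy a (((if_pos hs : ψ s = χ s).symm.trans e).trans e2)
    by_cases hx : ∃ x, G.Adj s x ∧ G.degree x = Δ ∧ χ x = true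
    · have e3 : ψ s = false := (if_neg hs).trans (if_pos hx)
      obtain ⟨x, x1, x2, x3⟩ := hx
      have e4 : χ y = false := by rw [← e2, ← e, e3]
      have c1 := codeg h hk ht x2 hy x1 a
      have c2 := dfc_ge h ∅ (G.neighborFinset x ∩ G.neighborFinset y) (disjoint_empty_left _) (by
        intro w hw hd
        obtain ⟨w1, w2⟩ := mem_inter.1 hw
        have b1 := hχ x w x2 hd ((G.mem_neighborFinset _ _).1 w1)
        have b2 := hχ y w hy hd ((G.mem_neighborFinset _ _).1 w2)
        rw [x3] at b1
        rw [e4] at b2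
        cases hw' : χ w
        · exact b2 hw'.symm
        · exact b1 hw'.symm)
      omega
    · have e3 : ψ s = true := (if_neg hs).trans (if_neg hx)
      exact hx ⟨y, a, hy, by rw [← e2, ← e, e3]⟩
  have hc := card_add_card_compl (univ.filter fun v => ψ v = true)
  by_cases hl : 2 * (univ.filter fun v => ψ v = true)ᶜ.card + 1 ≤ Fintype.card V
  · exact tfbip_big h hk ht hn _ hl fun x hx y hy a =>
      key x y a ((mem_filter.1 hx).2.trans (mem_filter.1 hy).2.symm)
  · refine tfbip_big h hk ht hn (univ.filter fun v => ψ v = true)ᶜ (by rw [compl_compl]; omega)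
      fun x hx y hy a => key x y a ?_
    have a1 : ψ x ≠ true := fun e => mem_compl.1 hx (mem_filter.2 ⟨mem_univ _, e⟩)
    have a2 : ψ y ≠ true := fun e => mem_compl.1 hy (mem_filter.2 ⟨mem_univ _, e⟩)
    rw [Bool.eq_false_iff.2 a1, Bool.eq_false_iff.2 a2]

end Pool.Agent.TFD
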