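import Pool.Agent.P.MP_dfe42f_co.TfCod

open Finset SimpleGraph
namespace Pool.Agent.TFD

theorem tfcla_two : ∀ S : Finset (ZMod 5), (∀ i ∈ S, i + 1 ∉ S) → S.card ≤ 2 := by
  decide +kernel

theorem tfcla_ex : ∀ S : Finset (ZMod 5), (∀ i ∈ S, i + 1 ∉ S) → 2 ≤ S.card →
    ∃ i, i + 1 ∈ S ∧ i - 1 ∈ S := by
  decide +kernel

theorem tfcla_uniq : ∀ S : Finset (ZMod 5), (∀ i ∈ S, i + 1 ∉ S) → ∀ i j : ZMod 5,
    i + 1 ∈ S → i - 1 ∈ S → j + 1 ∈ S → j - 1 ∈ S → i = j := by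
  decide +kernel

theorem tfcla_ge : ∀ S : Finset (ZMod 5), ∀ i : ZMod 5, i + 1 ∈ S → i - 1 ∈ S → 2 ≤ S.card := by
  decide +kernel

theorem tfcla_nb : ∀ i j : ZMod 5,
    (j = i + 1 ∨ i = j + 1) ∨ i + 1 = j + 1 ∨ i + 1 = j - 1 ∨ i - 1 = j + 1 := by
  decide +kernel

theorem tfcla_not : ∀ i j : ZMod 5,
    (j = i + 1 ∨ i = j + 1) → (j + 1 = i + 1 ∨ i = j + 1 + 1) → False := by
  decide +kernel

theorem tfcla_all : ∀ T : Finset (ZMod 5), (∀ j ∈ T, j + 1 ∉ T) →
    ∃ i, ∀ j ∈ T, (j = i + 1 ∨ i = j + 1) := by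
  decide +kernel

variable {V : Type} [Fintype V] [DecidableEq V] {G : SimpleGraph V} [DecidableRel G.Adj] {Δ k : ℕ}

theorem exists_cl (h : TF G Δ) (hk : Fintype.card V + k = 3 * Δ) (ht : dfc G Δ + 2 ≤ k)
    (h4 : 4 ≤ k) (hr : Δ ≤ 2 * k + 3) {v : ZMod 5 → V} (hv : C5 G Δ v) :
    ∃ W R, Cl G Δ v W R := by
  classical
  let A : V → Finset (ZMod 5) := fun u => univ.filter fun i => G.Adj u (v i)
  have hA : ∀ u i, i ∈ A u ↔ G.Adj u (v i) := fun u i => by simp [A]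
  have hind : ∀ u, ∀ i ∈ A u, i + 1 ∉ A u := by
    intro u i hi hj
    exact h.tri ((hA u i).1 hi) ((hA u _).1 hj) (hv.adj i)
  have hsum : ∑ u, (A u).card = 5 * Δ := by
    have e1 : ∀ u, (A u).card = ∑ i : ZMod 5, if G.Adj u (v i) then 1 else 0 := fun u => by
      simp only [A, Finset.card_filter]
    simp only [e1]
    rw [Finset.sum_comm]
    have e2 : ∀ i : ZMod 5, (∑ u, if G.Adj u (v i) then 1 else 0) = Δ := by
      intro i
      rw [← hv.full i, ← Finset.card_filter, ← card_neighborFinset_eq_degree]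
      congr 1
      ext u
      simp [G.adj_comm]
    simp only [e2]
    simp
  let R : Finset V := univ.filter fun u => (A u).card < 2
  have hR : ∀ u, u ∈ R ↔ (A u).card < 2 := fun u => by simp [R]
  have hRc : R.card ≤ 3 := by
    have e1 : ∑ u, (A u).card + R.card ≤ ∑ _u : V, 2 := by
      rw [Finset.card_filter, ← Finset.sum_add_distrib]
      refine Finset.sum_le_sum fun u _ => ?_
      have := tfcla_two _ (hind u)
      split_ifs <;> omega
    rw [hsum] at e1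
    simp only [sum_const, card_univ, smul_eq_mul] at e1
    omega
  have hex : ∀ u, ∃ i : ZMod 5, u ∉ R → i + 1 ∈ A u ∧ i - 1 ∈ A u := by
    intro u
    by_cases hu : u ∈ R
    · exact ⟨0, fun h' => absurd hu h'⟩
    · obtain ⟨i, hi⟩ := tfcla_ex _ (hind u) (by rw [hR] at hu; omega)
      exact ⟨i, fun _ => hi⟩
  choose W0 hW0 using hex
  have hvA : ∀ i : ZMod 5, i + 1 ∈ A (v i) ∧ i - 1 ∈ A (v i) := by
    intro i
    refine ⟨(hA _ _).2 (hv.adj i), (hA _ _).2 ?_⟩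
    have := hv.adj (i - 1)
    rw [sub_add_cancel] at this
    exact this.symm
  have hvR : ∀ i, v i ∉ R := by
    intro i
    have := tfcla_ge _ i (hvA i).1 (hvA i).2
    rw [hR]; omega
  have hvW : ∀ i, W0 (v i) = i := fun i =>
    tfcla_uniq _ (hind (v i)) _ _ (hW0 _ (hvR i)).1 (hW0 _ (hvR i)).2 (hvA i).1 (hvA i).2
  have hedge : ∀ x ∉ R, ∀ y ∉ R, G.Adj x y → Nb (W0 x) (W0 y) := by
    intro x hx y hy hxy
    have x1 := (hA _ _).1 (hW0 x hx).1
    have x2 := (hA _ _).1 (hW0 x hx).2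
    have y1 := (hA _ _).1 (hW0 y hy).1
    have y2 := (hA _ _).1 (hW0 y hy).2
    rcases tfcla_nb (W0 x) (W0 y) with e | e | e | e
    · exact e
    · rw [e] at x1; exact absurd y1 (h.tri hxy x1)
    · rw [e] at x1; exact absurd y2 (h.tri hxy x1)
    · rw [e] at x2; exact absurd y1 (h.tri hxy x2)
  have hin : ∀ u, ∃ i : ZMod 5, ∀ y ∉ R, G.degree y = Δ → G.Adj u y → Nb i (W0 y) := by
    intro u
    let T : Finset (ZMod 5) :=
      (univ.filter fun y => y ∉ R ∧ G.degree y = Δ ∧ G.Adj u y).image W0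
    have hT : ∀ j ∈ T, j + 1 ∉ T := by
      intro j hj hj'
      simp only [T, mem_image, mem_filter, mem_univ, true_and] at hj hj'
      obtain ⟨y, ⟨y1, y2, y3⟩, ey⟩ := hj
      obtain ⟨z, ⟨z1, z2, z3⟩, ez⟩ := hj'
      have hc := codeg h hk ht y2 z2 y3 z3
      have hsub : G.neighborFinset y ∩ G.neighborFinset z ⊆ R := by
        intro w hw
        rw [mem_inter, mem_neighborFinset, mem_neighborFinset] at hw
        by_contra hwR
        have a1 := hedge w hwR y y1 hw.1.symm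
        have a2 := hedge w hwR z z1 hw.2.symm
        rw [ey] at a1
        rw [ez] at a2
        exact tfcla_not _ _ a1 a2
      have := card_le_card hsub
      omega
    obtain ⟨i, hi⟩ := tfcla_all T hT
    refine ⟨i, fun y y1 y2 y3 => hi _ ?_⟩
    simp only [T, mem_image, mem_filter, mem_univ, true_and]
    exact ⟨y, ⟨y1, y2, y3⟩, rfl⟩
  choose W1 hW1 using hin
  refine ⟨fun u => if u ∈ R then W1 u else W0 u, R, hRc, ?_, hvR, ?_, ?_⟩
  · intro i
    simp only [if_neg (hvR i), hvW]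
  · intro u hu
    simp only [if_neg hu]
    exact ⟨(hA _ _).1 (hW0 u hu).1, (hA _ _).1 (hW0 u hu).2⟩
  · intro u hu y hy hd huy
    simp only [if_pos hu, if_neg hy]
    exact hW1 u y hy hd huy

end Pool.Agent.TFD
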