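import Pool.Agent.P.MP_dfe42f_co.TfCod

open Finset SimpleGraph
namespace Pool.Agent.TFD

variable {V : Type} [Fintype V] [DecidableEq V] {G : SimpleGraph V} [DecidableRel G.Adj] {Δ k : ℕ}

theorem tfclb_tri (a b : ZMod 5) (hn : ¬ Nb a b) :
    a + 1 = b + 1 ∨ a + 1 = b - 1 ∨ a - 1 = b + 1 := by
  revert a b; unfold Nb; decide

theorem cl_out (h : TF G Δ) {v : ZMod 5 → V} {W : V → ZMod 5} {R : Finset V} (hc : Cl G Δ v W R)
    {x y : V} (hx : x ∉ R) (hy : y ∉ R) (hxy : G.Adj x y) : Nb (W x) (W y) := by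
  by_contra hn
  obtain ⟨hx1, hx2⟩ := hc.out x hx
  obtain ⟨hy1, hy2⟩ := hc.out y hy
  rcases tfclb_tri _ _ hn with e | e | e
  · exact h.tri hxy hx1 (by rw [e]; exact hy1)
  · exact h.tri hxy hx1 (by rw [e]; exact hy2)
  · exact h.tri hxy hx2 (by rw [e]; exact hy1)

/-- the vertices whose class is a neighbour of `j` -/
def tfclbS (W : V → ZMod 5) (j : ZMod 5) : Finset V :=
  univ.filter fun u => j = W u + 1 ∨ W u = j + 1

theorem tfclb_memS {W : V → ZMod 5} {j : ZMod 5} {u : V} : u ∈ tfclbS W j ↔ Nb (W u) j := by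
  simp [tfclbS, Nb]

theorem tfclb_bad (h : TF G Δ) {v : ZMod 5 → V} {W : V → ZMod 5} {R : Finset V}
    (hc : Cl G Δ v W R) {x w : V} (hxw : G.Adj x w) (hn : ¬ Nb (W x) (W w)) (hw : w ∉ R) :
    G.degree w ≠ Δ := by
  intro hd
  by_cases hx : x ∈ R
  · exact hn (hc.inn x hx w hw hd hxw)
  · exact hn (cl_out h hc hx hw hxw)

theorem tfclb_nv (h : TF G Δ) {v : ZMod 5 → V} (hv : C5 G Δ v) {W : V → ZMod 5} {R : Finset V}
    (hc : Cl G Δ v W R) (j : ZMod 5) : G.neighborFinset (v j) ⊆ tfclbS W j := by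
  intro u hu
  rw [mem_neighborFinset] at hu
  rw [tfclb_memS]
  by_contra hn
  refine tfclb_bad h hc hu.symm ?_ (hc.vR j) (hv.full j)
  rwa [hc.vW]

theorem tfclb_sumS (W : V → ZMod 5) : ∑ j, (tfclbS W j).card = 2 * Fintype.card V := by
  have h2 : ∀ a : ZMod 5, (∑ j : ZMod 5, if j = a + 1 ∨ a = j + 1 then 1 else 0) = 2 := by decide
  simp only [tfclbS, card_filter]
  rw [sum_comm]
  simp only [h2]
  simp [mul_comm]

theorem tfclb_Sle (h : TF G Δ) {v : ZMod 5 → V} (hv : C5 G Δ v) {W : V → ZMod 5} {R : Finset V}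
    (hc : Cl G Δ v W R) (j : ZMod 5) : (tfclbS W j).card + 4 * Δ ≤ 2 * Fintype.card V := by
  have h1 : ∀ i, Δ ≤ (tfclbS W i).card := fun i => by
    have := card_le_card (tfclb_nv h hv hc i)
    rwa [card_neighborFinset_eq_degree, hv.full] at this
  rw [← tfclb_sumS W, ← add_sum_erase univ _ (mem_univ j)]
  have h3 : (univ.erase j).card • Δ ≤ ∑ i ∈ univ.erase j, (tfclbS W i).card :=
    card_nsmul_le_sum _ _ _ fun i _ => h1 i
  rw [card_erase_of_mem (mem_univ j), card_univ, ZMod.card] at h3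
  simp only [smul_eq_mul] at h3
  omega

theorem tfclb_union (h : TF G Δ) {x y : V} (hxy : G.Adj x y) :
    (G.neighborFinset x ∪ G.neighborFinset y).card = G.degree x + G.degree y := by
  rw [card_union_of_disjoint, card_neighborFinset_eq_degree, card_neighborFinset_eq_degree]
  rw [Finset.disjoint_left]
  intro w hx hy
  rw [mem_neighborFinset] at hx hy
  exact h.tri hxy hx hy

theorem tfclb_dfc (h : TF G Δ) {x y : V} (hxy : G.Adj x y) (B : Finset V) (hx : x ∉ B)
    (hy : y ∉ B) (hB : ∀ w ∈ B, G.degree w ≠ Δ) :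
    2 * Δ + B.card ≤ dfc G Δ + G.degree x + G.degree y := by
  have hd : Disjoint ({x, y} : Finset V) B := by
    rw [Finset.disjoint_left]
    intro w hw hwB
    rcases mem_insert.1 hw with rfl | hw
    · exact hx hwB
    · rw [mem_singleton] at hw
      exact hy (hw ▸ hwB)
  have := dfc_ge h {x, y} B hd hB
  rw [sum_pair hxy.ne] at this
  have h1 := h.deg x
  have h2 := h.deg y
  omega

theorem tfclb_same (h : TF G Δ) (hk : Fintype.card V + k = 3 * Δ) (ht : dfc G Δ + 3 ≤ k)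
    (h4 : 4 ≤ k) (hr : 2 * k < Δ) (hr' : Δ ≤ 2 * k + 3) {v : ZMod 5 → V} (hv : C5 G Δ v)
    {W : V → ZMod 5} {R : Finset V} (hc : Cl G Δ v W R) {x y : V} (hxy : G.Adj x y)
    (hx : x ∈ R) : W x ≠ W y := by
  intro e
  set U := G.neighborFinset x ∪ G.neighborFinset y with hU
  set B := ((U \ tfclbS W (W x)) \ R).erase y with hB
  have hsym : ∀ a b : ZMod 5, Nb a b → Nb b a := fun a b hab => hab.symm
  have hBd : ∀ w ∈ B, G.degree w ≠ Δ := by
    intro w hw
    simp only [hB, hU, mem_erase, mem_sdiff, mem_union, mem_neighborFinset, tfclb_memS] at hw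
    obtain ⟨-, ⟨hw1, hw2⟩, hw3⟩ := hw
    rcases hw1 with hw1 | hw1
    · exact tfclb_bad h hc hw1 (fun hn => hw2 (hsym _ _ hn)) hw3
    · exact tfclb_bad h hc hw1 (fun hn => hw2 (hsym _ _ (e ▸ hn))) hw3
  have h1 := tfclb_dfc h hxy B (by simp [hB, hx]) (by simp [hB]) hBd
  have h2 := tfclb_union h hxy
  have h3 := tfclb_Sle h hv hc (W x)
  have h5 := hc.card
  have h6 : U.card ≤ (U \ tfclbS W (W x)).card + (tfclbS W (W x)).card := card_le_card_sdiff_add_card
  have h7 : (U \ tfclbS W (W x)).card ≤ ((U \ tfclbS W (W x)) \ R).card + R.card :=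
    card_le_card_sdiff_add_card
  have h8 : ((U \ tfclbS W (W x)) \ R).card - 1 ≤ B.card := pred_card_le_card_erase
  rw [← hU] at h2
  omega

theorem cl_same (h : TF G Δ) (hk : Fintype.card V + k = 3 * Δ) (ht : dfc G Δ + 3 ≤ k)
    (h4 : 4 ≤ k) (hr : 2 * k < Δ) (hr' : Δ ≤ 2 * k + 3) {v : ZMod 5 → V} (hv : C5 G Δ v)
    {W : V → ZMod 5} {R : Finset V} (hc : Cl G Δ v W R) {x y : V} (hxy : G.Adj x y) :
    W x ≠ W y := by
  by_cases hx : x ∈ R
  · exact tfclb_same h hk ht h4 hr hr' hv hc hxy hx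
  · by_cases hy : y ∈ R
    · exact (tfclb_same h hk ht h4 hr hr' hv hc hxy.symm hy).symm
    · intro e
      have := cl_out h hc hx hy hxy
      rw [e] at this
      revert this
      generalize W y = a
      revert a
      unfold Nb
      decide

theorem tfclb_nn (j a b : ZMod 5) (ha : Nb a j) (hb : Nb b j) : ¬ Nb a b := by
  revert j a b; unfold Nb; decide

theorem tfclb_basic (h : TF G Δ) (X : Finset V) {x y : V} (hxy : G.Adj x y) :
    G.degree x + G.degree y + X.card ≤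
      Fintype.card V + ((G.neighborFinset x ∪ G.neighborFinset y) ∩ X).card := by
  rw [← tfclb_union h hxy, ← card_union_add_card_inter]
  exact Nat.add_le_add_right (card_le_univ _) _

theorem tfclb_Tbad (h : TF G Δ) {v : ZMod 5 → V} {W : V → ZMod 5} {R : Finset V}
    (hc : Cl G Δ v W R) {j : ZMod 5} {x y : V} (hx : Nb (W x) j) (hy : Nb (W y) j) {w : V}
    (hw : w ∈ ((G.neighborFinset x ∪ G.neighborFinset y) ∩ tfclbS W j) \ R) :
    G.degree w ≠ Δ := by
  simp only [mem_sdiff, mem_inter, mem_union, mem_neighborFinset, tfclb_memS] at hw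
  obtain ⟨⟨hw1, hw2⟩, hw3⟩ := hw
  rcases hw1 with hw1 | hw1
  · exact tfclb_bad h hc hw1 (tfclb_nn j _ _ hx hw2) hw3
  · exact tfclb_bad h hc hw1 (tfclb_nn j _ _ hy hw2) hw3

theorem tfclb_RR (h : TF G Δ) (hk : Fintype.card V + k = 3 * Δ) (ht : dfc G Δ + 3 ≤ k)
    {v : ZMod 5 → V} (hv : C5 G Δ v) {W : V → ZMod 5} {R : Finset V} (hc : Cl G Δ v W R)
    {j : ZMod 5} {x y : V} (hxy : G.Adj x y) (hx : Nb (W x) j) (hy : Nb (W y) j)
    (hxR : x ∈ R) (hyR : y ∈ R) : False := by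
  set T := (G.neighborFinset x ∪ G.neighborFinset y) ∩ tfclbS W j with hT
  have h1 := tfclb_dfc h hxy (T \ R) (by simp [hxR]) (by simp [hyR])
    fun w hw => tfclb_Tbad h hc hx hy hw
  have h2 := tfclb_basic h (tfclbS W j) hxy
  rw [← hT] at h2
  have h3 : T.card ≤ (T \ R).card + R.card := card_le_card_sdiff_add_card
  have h5 := hc.card
  have h6 : (G.neighborFinset (v j)).card < (tfclbS W j).card := by
    refine card_lt_card ((ssubset_iff_of_subset (tfclb_nv h hv hc j)).2 ?_)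
    by_cases hxv : G.Adj (v j) x
    · exact ⟨y, tfclb_memS.2 hy, fun hyv => h.tri hxv ((mem_neighborFinset _ _ _).1 hyv) hxy⟩
    · exact ⟨x, tfclb_memS.2 hx, fun hyv => hxv ((mem_neighborFinset _ _ _).1 hyv)⟩
  rw [card_neighborFinset_eq_degree, hv.full] at h6
  omega

theorem tfclb_RN (h : TF G Δ) (hk : Fintype.card V + k = 3 * Δ) (ht : dfc G Δ + 3 ≤ k)
    {v : ZMod 5 → V} (hv : C5 G Δ v) {W : V → ZMod 5} {R : Finset V} (hc : Cl G Δ v W R)
    {j : ZMod 5} {p q : V} (hpq : G.Adj p q) (hp : Nb (W p) j) (hq : Nb (W q) j)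
    (hpR : p ∈ R) (hqR : q ∉ R) : False := by
  set T := (G.neighborFinset p ∪ G.neighborFinset q) ∩ tfclbS W j with hT
  have hqv : G.Adj q (v j) := by
    obtain ⟨h1, h2⟩ := hc.out q hqR
    rcases hq with e | e
    · rw [e]; exact h1
    · have e' : j = W q - 1 := by rw [e]; ring
      rw [e']; exact h2
  have h1 := tfclb_dfc h hpq ((T \ R).erase q) (by simp [hpR]) (by simp)
    fun w hw => tfclb_Tbad h hc hp hq (mem_of_mem_erase hw)
  have h2 := tfclb_basic h (tfclbS W j) hpq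
  rw [← hT] at h2
  have h3 : (T \ R).card + (T ∩ R).card = T.card := card_sdiff_add_card_inter T R
  have h8 : (T \ R).card - 1 ≤ ((T \ R).erase q).card := pred_card_le_card_erase
  have h5 : T ∩ R ⊆ tfclbS W j \ G.neighborFinset (v j) := by
    intro w hw
    simp only [hT, mem_inter, mem_union, mem_neighborFinset] at hw
    obtain ⟨⟨hw1, hw2⟩, hw3⟩ := hw
    rw [mem_sdiff, mem_neighborFinset]
    refine ⟨hw2, fun hwv => ?_⟩
    rcases hw1 with hw1 | hw1
    · exact tfclb_RR h hk ht hv hc hw1 hp (tfclb_memS.1 hw2) hpR hw3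
    · exact h.tri hqv hw1 hwv
  have h6 := card_le_card h5
  have h7 := card_sdiff_add_card_eq_card (tfclb_nv h hv hc j)
  rw [card_neighborFinset_eq_degree, hv.full] at h7
  omega

theorem cl_two (h : TF G Δ) (hk : Fintype.card V + k = 3 * Δ) (ht : dfc G Δ + 3 ≤ k)
    (h4 : 4 ≤ k) (hr : 2 * k < Δ) (hr' : Δ ≤ 2 * k + 3) {v : ZMod 5 → V} (hv : C5 G Δ v)
    {W : V → ZMod 5} {R : Finset V} (hc : Cl G Δ v W R) {x y : V} (hxy : G.Adj x y) :
    W y ≠ W x + 2 := by
  intro e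
  have hx : Nb (W x) (W x + 1) := Or.inl rfl
  have hy : Nb (W y) (W x + 1) := Or.inr (by rw [e]; ring)
  by_cases hxR : x ∈ R
  · by_cases hyR : y ∈ R
    · exact tfclb_RR h hk ht hv hc hxy hx hy hxR hyR
    · exact tfclb_RN h hk ht hv hc hxy hx hy hxR hyR
  · by_cases hyR : y ∈ R
    · exact tfclb_RN h hk ht hv hc hxy.symm hy hx hyR hxR
    · exact tfclb_nn _ _ _ hx hy (cl_out h hc hxR hyR hxy)

end Pool.Agent.TFD
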