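import Pool.Agent.P.MP_dfe42f_co.Tf1

open Finset SimpleGraph
namespace Pool.Agent.TFD

variable {V : Type} [Fintype V] [DecidableEq V] {G : SimpleGraph V} [DecidableRel G.Adj] {Δ k : ℕ}

/-- the star with centre `v` and leaves `S` as a subgraph -/
def tfcnt_star (G : SimpleGraph V) (v : V) (S : Finset V) : G.Subgraph where
  verts := {x | x = v ∨ x ∈ S}
  Adj a b := G.Adj a b ∧ ((a = v ∧ b ∈ S) ∨ (b = v ∧ a ∈ S))
  adj_sub h := h.1
  edge_vert h := h.2.elim (fun h => Or.inl h.1) (fun h => Or.inr h.2)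
  symm := ⟨fun _ _ h => ⟨h.1.symm, h.2.symm⟩⟩

theorem tfcnt_adj {W : Type} [DecidableEq W] {H : SimpleGraph W} (hH : H.CliqueFree 3) {c : W}
    (hc : ∀ w ≠ c, H.Adj c w) {a b : W} (h : H.Adj a b) : a = c ∨ b = c := by
  by_contra hn
  rw [not_or] at hn
  exact hH {c, a, b} (is3Clique_triple_iff.2 ⟨hc a hn.1, hc b hn.2, h⟩)

theorem tfcnt_iso {s : ℕ} {H : SimpleGraph (Fin (s + 1))} (hH : H.CliqueFree 3) {c : Fin (s + 1)}
    (hc : ∀ w ≠ c, H.Adj c w) {v : V} {S : Finset V} (hS : ∀ x ∈ S, G.Adj v x) (hcard : #S = s) :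
    Nonempty (H ≃g (tfcnt_star G v S).coe) := by
  have h1 : #((univ : Finset (Fin (s + 1))).erase c) = #S := by
    rw [card_erase_of_mem (mem_univ c), card_univ, Fintype.card_fin, hcard]; rfl
  let g := Finset.equivOfCardEq h1
  let f : Fin (s + 1) → V := fun w =>
    if h : w = c then v else (g ⟨w, mem_erase.2 ⟨h, mem_univ w⟩⟩).1
  have fc : f c = v := dif_pos rfl
  have fw : ∀ w (h : w ≠ c), f w = (g ⟨w, mem_erase.2 ⟨h, mem_univ w⟩⟩).1 := fun w h => dif_neg h
  have fS : ∀ w, w ≠ c → f w ∈ S := fun w h => by rw [fw w h]; exact (g _).2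
  have fne : ∀ w, w ≠ c → f w ≠ v := fun w h => (hS _ (fS w h)).ne'
  have fv : ∀ w, f w = v → w = c := fun w h => by_contra fun hn => fne w hn h
  have finj : Function.Injective f := by
    intro a b hab
    by_cases ha : a = c
    · rw [ha, fc] at hab
      rw [ha, fv b hab.symm]
    · by_cases hb : b = c
      · rw [hb, fc] at hab
        exact absurd hab (fne a ha)
      · rw [fw a ha, fw b hb] at hab
        exact congrArg Subtype.val (g.injective (Subtype.ext hab))
  have fmem : ∀ w, f w ∈ (tfcnt_star G v S).verts := fun w => by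
    by_cases h : w = c
    · exact Or.inl (by rw [h, fc])
    · exact Or.inr (fS w h)
  have fbij : Function.Bijective fun w => (⟨f w, fmem w⟩ : (tfcnt_star G v S).verts) := by
    refine ⟨fun a b h => finj (congrArg Subtype.val h), ?_⟩
    rintro ⟨x, hx | hx⟩
    · exact ⟨c, Subtype.ext (fc.trans hx.symm)⟩
    · obtain ⟨⟨w, hw⟩, e⟩ := g.surjective ⟨x, hx⟩
      exact ⟨w, Subtype.ext ((fw w (mem_erase.1 hw).1).trans (congrArg Subtype.val e))⟩
  refine ⟨⟨Equiv.ofBijective _ fbij, ?_⟩⟩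
  intro a b
  change (G.Adj (f a) (f b) ∧ ((f a = v ∧ f b ∈ S) ∨ (f b = v ∧ f a ∈ S))) ↔ H.Adj a b
  constructor
  · rintro ⟨h, h' | h'⟩
    · have ha := fv a h'.1
      have hb : b ≠ c := fun hb => h.ne (by rw [ha, hb])
      rw [ha]; exact hc b hb
    · have hb := fv b h'.1
      have ha : a ≠ c := fun ha => h.ne (by rw [ha, hb])
      rw [hb]; exact (hc a ha).symm
  · intro h
    rcases tfcnt_adj hH hc h with ha | hb
    · have hb : b ≠ c := fun hb => h.ne (by rw [ha, hb])
      rw [ha, fc]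
      exact ⟨hS _ (fS b hb), Or.inl ⟨rfl, fS b hb⟩⟩
    · have ha : a ≠ c := fun ha => h.ne (by rw [ha, hb])
      rw [hb, fc]
      exact ⟨(hS _ (fS a ha)).symm, Or.inr ⟨rfl, fS a ha⟩⟩

theorem tfcnt_centres {s : ℕ} {H : SimpleGraph (Fin (s + 1))} [DecidableRel H.Adj]
    (hH : H.CliqueFree 3) {c : Fin (s + 1)} (hc : ∀ w ≠ c, H.Adj c w) :
    #{d : Fin (s + 1) | ∀ w ≠ d, H.Adj d w} = if s = 1 then 2 else 1 := by
  split_ifs with hs
  · subst hs
    have : ({d : Fin (1 + 1) | ∀ w ≠ d, H.Adj d w} : Finset (Fin (1 + 1))) = univ := by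
      refine filter_eq_self.2 ?_
      intro d _ w hw
      by_cases hd : d = c
      · rw [hd] at hw ⊢; exact hc w hw
      · have hwc : w = c := by omega
        rw [hwc]; exact (hc d hd).symm
    rw [this, card_univ, Fintype.card_fin]
  · rw [card_eq_one]
    refine ⟨c, eq_singleton_iff_unique_mem.2 ⟨mem_filter.2 ⟨mem_univ c, hc⟩, ?_⟩⟩
    intro d hd
    have hd' := (mem_filter.1 hd).2
    by_contra hne
    have h2 : 2 < #(univ : Finset (Fin (s + 1))) := by
      rw [card_univ, Fintype.card_fin]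
      have h1 := d.2
      have h2 := c.2
      have h3 : d.1 ≠ c.1 := fun h => hne (Fin.ext h)
      omega
    obtain ⟨w, _, hw⟩ := exists_mem_notMem_of_card_lt_card (s := {c, d}) (t := univ)
      (card_le_two.trans_lt h2)
    rw [mem_insert, mem_singleton, not_or] at hw
    rcases tfcnt_adj hH hc (hd' w hw.2) with h | h
    · exact hne h
    · exact hw.1 h

theorem tfcnt_fibre {s : ℕ} {H : SimpleGraph (Fin (s + 1))} [DecidableRel H.Adj]
    [DecidableEq G.Subgraph] (hH : H.CliqueFree 3) {G' : G.Subgraph} (e : H ≃g G'.coe) :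
    #{d : Fin (s + 1) | ∀ w ≠ d, H.Adj d w} =
      #{p ∈ (univ : Finset V).sigma fun v => powersetCard s (G.neighborFinset v) |
        tfcnt_star G p.1 p.2 = G'} := by
  have einj : Function.Injective fun w => (e w).1 := fun a b h => e.injective (Subtype.ext h)
  have eadj : ∀ a b, G'.Adj (e a).1 (e b).1 ↔ H.Adj a b := fun a b => e.map_rel_iff
  have esur : ∀ x ∈ G'.verts, ∃ w, (e w).1 = x := fun x hx => by
    obtain ⟨w, hw⟩ := e.surjective ⟨x, hx⟩
    exact ⟨w, congrArg Subtype.val hw⟩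
  have mim : ∀ d w, (e w).1 ∈ (univ.erase d).image (fun w => (e w).1) ↔ w ≠ d := fun d w => by
    rw [einj.mem_finset_image, mem_erase]
    exact ⟨fun h => h.1, fun h => ⟨h, mem_univ w⟩⟩
  refine card_bij (fun d _ => ⟨(e d).1, (univ.erase d).image fun w => (e w).1⟩) ?_ ?_ ?_
  · intro d hd
    have hd' := (mem_filter.1 hd).2
    refine mem_filter.2 ⟨mem_sigma.2 ⟨mem_univ _, mem_powersetCard.2 ⟨?_, ?_⟩⟩, ?_⟩
    · intro x hx
      obtain ⟨w, hw, rfl⟩ := mem_image.1 hx
      exact (mem_neighborFinset _ _ _).2 (G'.adj_sub ((eadj d w).2 (hd' w (mem_erase.1 hw).1)))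
    · rw [card_image_of_injective _ einj, card_erase_of_mem (mem_univ d), card_univ,
        Fintype.card_fin]; rfl
    · refine Subgraph.ext ?_ ?_
      · ext x
        constructor
        · rintro (h | h)
          · rw [h]; exact (e d).2
          · obtain ⟨w, _, rfl⟩ := mem_image.1 h
            exact (e w).2
        · intro hx
          obtain ⟨w, rfl⟩ := esur x hx
          by_cases h : w = d
          · exact Or.inl (by rw [h])
          · exact Or.inr ((mim d w).2 h)
      · ext a b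
        constructor
        · rintro ⟨_, ⟨rfl, h⟩ | ⟨rfl, h⟩⟩
          · obtain ⟨w, hw, rfl⟩ := mem_image.1 h
            exact (eadj d w).2 (hd' w (mem_erase.1 hw).1)
          · obtain ⟨w, hw, rfl⟩ := mem_image.1 h
            exact (eadj w d).2 (hd' w (mem_erase.1 hw).1).symm
        · intro h
          obtain ⟨a', rfl⟩ := esur a (G'.edge_vert h)
          obtain ⟨b', rfl⟩ := esur b (G'.edge_vert h.symm)
          have h' := (eadj a' b').1 h
          refine ⟨G'.adj_sub h, ?_⟩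
          rcases tfcnt_adj hH hd' h' with ha | hb
          · exact Or.inl ⟨by rw [ha], (mim d b').2 fun hb => h'.ne (by rw [ha, hb])⟩
          · exact Or.inr ⟨by rw [hb], (mim d a').2 fun ha => h'.ne (by rw [ha, hb])⟩
  · intro a _ b _ h
    exact einj (congrArg Sigma.fst h)
  · rintro ⟨v, S⟩ hp
    obtain ⟨h1, h2⟩ := mem_filter.1 hp
    have hS : ∀ x ∈ S, G.Adj v x := fun x hx =>
      (mem_neighborFinset _ _ _).1 ((mem_powersetCard.1 (mem_sigma.1 h1).2).1 hx)
    have hv : ∀ x, x ∈ G'.verts ↔ x = v ∨ x ∈ S := fun x => by rw [← h2]; rfl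
    have ha : ∀ x ∈ S, G'.Adj v x := fun x hx => by
      rw [← h2]; exact ⟨hS x hx, Or.inl ⟨rfl, hx⟩⟩
    obtain ⟨d, rfl⟩ := esur v ((hv v).2 (Or.inl rfl))
    have hw : ∀ w ≠ d, (e w).1 ∈ S := fun w hw =>
      ((hv _).1 (e w).2).resolve_left fun h => hw (einj h)
    refine ⟨d, mem_filter.2 ⟨mem_univ d, fun w h => (eadj d w).1 (ha _ (hw w h))⟩, ?_⟩
    congr 1
    ext x
    constructor
    · intro hx
      obtain ⟨w, hw', rfl⟩ := mem_image.1 hx
      exact hw w (mem_erase.1 hw').1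
    · intro hx
      obtain ⟨w, rfl⟩ := esur x ((hv x).2 (Or.inr hx))
      exact (mim d w).2 fun h => (hS _ hx).ne (by rw [h])

theorem count_star {s : ℕ} (H : SimpleGraph (Fin (s + 1))) (hH : H.CliqueFree 3) {c : Fin (s + 1)}
    (hc : ∀ w ≠ c, H.Adj c w) :
    G.copyCount H * (if s = 1 then 2 else 1) = ∑ v, (G.degree v).choose s := by
  classical
  obtain ⟨T, hT, mT⟩ : ∃ T : Finset G.Subgraph, G.copyCount H = #T ∧
      ∀ G', G' ∈ T ↔ Nonempty (H ≃g G'.coe) := by
    unfold copyCount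
    exact ⟨_, rfl, fun G' => by simp only [mem_filter, mem_univ, true_and]⟩
  have h1 := card_eq_sum_card_fiberwise
    (f := fun p : (Σ _ : V, Finset V) => tfcnt_star G p.1 p.2)
    (s := (univ : Finset V).sigma fun v => powersetCard s (G.neighborFinset v)) (t := T) (by
      rintro ⟨v, S⟩ hp
      have h2 := mem_powersetCard.1 (mem_sigma.1 (mem_coe.1 hp)).2
      exact mem_coe.2 ((mT _).2
        (tfcnt_iso hH hc (fun x hx => (mem_neighborFinset _ _ _).1 (h2.1 hx)) h2.2)))
  rw [card_sigma] at h1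
  simp only [card_powersetCard, card_neighborFinset_eq_degree] at h1
  rw [h1, hT, ← smul_eq_mul, ← sum_const]
  refine sum_congr rfl fun G' hG' => ?_
  obtain ⟨e⟩ := (mT _).1 hG'
  rw [← tfcnt_fibre hH e, tfcnt_centres hH hc]

theorem count_zero {W : Type} [Fintype W] (H : SimpleGraph W) (hH : ¬ H.CliqueFree 3)
    (hG : G.CliqueFree 3) : G.copyCount H = 0 := by
  exact copyCount_eq_zero.2 fun h => hH (hG.comap h)

end Pool.Agent.TFD
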