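import Pool.Agent.P.MP_dfe42f_co.Tf1

open Finset SimpleGraph
namespace Pool.Agent.TFD

variable {V : Type} [Fintype V] [DecidableEq V] {G : SimpleGraph V} [DecidableRel G.Adj] {Δ k : ℕ}

/-- deficiency of `A` plus the number of further deficient vertices -/
theorem dfc_ge (h : TF G Δ) (A B : Finset V) (hAB : Disjoint A B)
    (hB : ∀ v ∈ B, G.degree v ≠ Δ) : ∑ v ∈ A, (Δ - G.degree v) + B.card ≤ dfc G Δ := by
  have h1 : B.card ≤ ∑ v ∈ B, (Δ - G.degree v) := by
    rw [card_eq_sum_ones]
    refine sum_le_sum fun v hv => ?_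
    have := hB v hv
    have := h.deg v
    omega
  have h2 : ∑ v ∈ A ∪ B, (Δ - G.degree v) ≤ dfc G Δ :=
    sum_le_sum_of_subset (subset_univ _)
  rw [sum_union hAB] at h2
  omega

theorem dfc_add (h : TF G Δ) : dfc G Δ + ∑ v, G.degree v = Fintype.card V * Δ := by
  unfold dfc
  rw [← sum_add_distrib, sum_congr rfl (fun v _ => Nat.sub_add_cancel (h.deg v))]
  simp

theorem dfc_parity (h : TF G Δ) : dfc G Δ % 2 = Fintype.card V * Δ % 2 := by
  have h1 := dfc_add h
  rw [sum_degrees_eq_twice_card_edges] at h1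
  omega

theorem tfcod_def (h : TF G Δ) {x y s : V} (hsx : G.Adj x s) (hsy : G.Adj y s) :
    (G.neighborFinset x ∪ G.neighborFinset y).card + G.degree s ≤ Fintype.card V := by
  have hd : Disjoint (G.neighborFinset x ∪ G.neighborFinset y) (G.neighborFinset s) := by
    rw [Finset.disjoint_left]
    intro z hz hzs
    rw [mem_neighborFinset] at hzs
    rcases mem_union.1 hz with hz | hz
    · exact h.tri hsx ((mem_neighborFinset _ _ _).1 hz) hzs
    · exact h.tri hsy ((mem_neighborFinset _ _ _).1 hz) hzs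
  rw [← card_neighborFinset_eq_degree, ← card_union_of_disjoint hd]
  exact card_le_univ _

theorem codeg (h : TF G Δ) (hk : Fintype.card V + k = 3 * Δ) (ht : dfc G Δ + 2 ≤ k) {x y s : V}
    (hx : G.degree x = Δ) (hy : G.degree y = Δ) (hsx : G.Adj s x) (hsy : G.Adj s y) :
    k ≤ (G.neighborFinset x ∩ G.neighborFinset y).card := by
  by_contra hlt
  have hlt := not_le.1 hlt
  have hu := card_union_add_card_inter (G.neighborFinset x) (G.neighborFinset y)
  rw [card_neighborFinset_eq_degree, card_neighborFinset_eq_degree, hx, hy] at hu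
  have h1 : 1 ≤ (G.neighborFinset x ∩ G.neighborFinset y).card :=
    card_pos.2 ⟨s, mem_inter.2 ⟨(mem_neighborFinset _ _ _).2 hsx.symm,
      (mem_neighborFinset _ _ _).2 hsy.symm⟩⟩
  have h2 : (G.neighborFinset x ∩ G.neighborFinset y).card *
      (k - (G.neighborFinset x ∩ G.neighborFinset y).card) ≤
      ∑ v ∈ G.neighborFinset x ∩ G.neighborFinset y, (Δ - G.degree v) := by
    rw [← smul_eq_mul]
    refine card_nsmul_le_sum _ _ _ fun v hv => ?_
    have h3 := tfcod_def h ((mem_neighborFinset _ _ _).1 (mem_inter.1 hv).1)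
      ((mem_neighborFinset _ _ _).1 (mem_inter.1 hv).2)
    omega
  have h3 : ∑ v ∈ G.neighborFinset x ∩ G.neighborFinset y, (Δ - G.degree v) ≤ dfc G Δ :=
    sum_le_sum_of_subset (subset_univ _)
  generalize (G.neighborFinset x ∩ G.neighborFinset y).card = c at hlt h1 h2
  obtain ⟨a, rfl⟩ := Nat.exists_eq_add_of_le h1
  obtain ⟨b, rfl⟩ := Nat.exists_eq_add_of_lt hlt
  have e : 1 + a + b + 1 - (1 + a) = b + 1 := by omega
  rw [e] at h2
  nlinarith [Nat.zero_le (a * b)]

end Pool.Agent.TFD
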