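import Pool.Agent.P.MP_dfe42f_co.Tf1

open Finset SimpleGraph
namespace Pool.Agent.TFD

theorem tfcona_free {V : Type} (G : SimpleGraph V)
    (h : ∀ x y z, G.Adj x y → G.Adj x z → ¬ G.Adj y z) : G.CliqueFree 3 := by
  classical
  intro s hs
  obtain ⟨x, y, z, h1, h2, h3, -⟩ := is3Clique_iff.1 hs
  exact h x y z h1 h2 h3

theorem tfcona_lt {N Δ : ℕ} (h : Δ ≤ N) : ({d : Fin N | d.val < Δ} : Set (Fin N)).ncard = Δ := by
  have e : ({d : Fin N | d.val < Δ} : Set (Fin N)) = ((univ.filter fun d : Fin N => d.val < Δ : Finset (Fin N)) : Set (Fin N)) := by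
    ext d; simp
  rw [e, Set.ncard_coe_finset, Fin.card_filter_val_lt, min_eq_right h]

theorem tfcona_ge (a b : ℕ) : ({d : Fin (a + b) | ¬ d.val < a} : Set (Fin (a + b))).ncard = b := by
  have h1 := tfcona_lt (Nat.le_add_right a b)
  have h2 := Set.ncard_add_ncard_compl ({d : Fin (a + b) | d.val < a} : Set (Fin (a + b)))
  rw [h1, Nat.card_eq_fintype_card, Fintype.card_fin] at h2
  have e : ({d : Fin (a + b) | ¬ d.val < a} : Set (Fin (a + b))) = {d : Fin (a + b) | d.val < a}ᶜ := rfl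
  rw [e]
  omega

theorem Re.fin {V : Type} [Fintype V] {Δ d n : ℕ} (h : Re V Δ d) (hn : Fintype.card V = n) :
    Re (Fin n) Δ d := by
  obtain ⟨G, hG, v₀, h0, h1⟩ := h
  let e : V ≃ Fin n := Fintype.equivFinOfCardEq hn
  have key : ∀ v : Fin n, ((G.comap e.symm).neighborSet v).ncard =
      (G.neighborSet (e.symm v)).ncard := by
    intro v
    have e1 : (G.comap e.symm).neighborSet v = e '' G.neighborSet (e.symm v) := by
      ext w
      simp only [mem_neighborSet, comap_adj, Set.mem_image]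
      constructor
      · intro hw
        exact ⟨e.symm w, hw, e.apply_symm_apply w⟩
      · rintro ⟨u, hu, rfl⟩
        rwa [e.symm_apply_apply]
    rw [e1, Set.ncard_image_of_injective _ e.injective]
  refine ⟨G.comap e.symm, ?_, e v₀, ?_, ?_⟩
  · exact hG.comap (Embedding.comap e.symm.toEmbedding G).isContained
  · rw [key, e.symm_apply_apply, h0]
  · intro v hv
    rw [key]
    refine h1 _ fun hh => hv ?_
    rw [← hh, e.apply_symm_apply]

/-- a regular bipartite graph -/
def tfcona_even (Δ N : ℕ) [NeZero N] : SimpleGraph (Bool × Fin N) where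
  Adj p q := (p.1 = false ∧ q.1 = true ∧ (q.2 - p.2).val < Δ) ∨
    (p.1 = true ∧ q.1 = false ∧ (p.2 - q.2).val < Δ)
  symm := ⟨fun p q h => by tauto⟩
  loopless := ⟨fun p h => by
    rcases h with ⟨h1, h2, -⟩ | ⟨h1, h2, -⟩ <;> simp [h1] at h2⟩

theorem tfcona_even_deg {Δ N : ℕ} [NeZero N] (h : Δ ≤ N) (p : Bool × Fin N) :
    ((tfcona_even Δ N).neighborSet p).ncard = Δ := by
  obtain ⟨b, i⟩ := p
  cases b
  · have e : (tfcona_even Δ N).neighborSet (false, i) =
        (fun d : Fin N => (true, i + d)) '' {d : Fin N | d.val < Δ} := by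
      ext ⟨c, j⟩
      simp only [mem_neighborSet, tfcona_even, Set.mem_image, Set.mem_ofPred_eq, Prod.mk.injEq]
      constructor
      · rintro (⟨-, h2, h3⟩ | ⟨h1, -⟩)
        · exact ⟨j - i, h3, h2.symm, by abel⟩
        · simp at h1
      · rintro ⟨d, hd, h2, rfl⟩
        exact Or.inl ⟨trivial, h2.symm, by simpa using hd⟩
    rw [e, Set.ncard_image_of_injective _ ?_, tfcona_lt h]
    intro d d' hh
    simpa using hh
  · have e : (tfcona_even Δ N).neighborSet (true, i) =
        (fun d : Fin N => (false, i - d)) '' {d : Fin N | d.val < Δ} := by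
      ext ⟨c, j⟩
      simp only [mem_neighborSet, tfcona_even, Set.mem_image, Set.mem_ofPred_eq, Prod.mk.injEq]
      constructor
      · rintro (⟨h1, -⟩ | ⟨-, h2, h3⟩)
        · simp at h1
        · exact ⟨i - j, h3, h2.symm, by abel⟩
      · rintro ⟨d, hd, h2, rfl⟩
        exact Or.inr ⟨trivial, h2.symm, by simpa using hd⟩
    rw [e, Set.ncard_image_of_injective _ ?_, tfcona_lt h]
    intro d d' hh
    simpa using hh

theorem re_even {Δ N : ℕ} (h : Δ ≤ N) (h0 : 0 < N) : Re (Fin (2 * N)) Δ Δ := by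
  have : NeZero N := ⟨h0.ne'⟩
  refine Re.fin (V := Bool × Fin N) ⟨tfcona_even Δ N, tfcona_free _ ?_, (false, 0),
    tfcona_even_deg h _, fun v _ => tfcona_even_deg h v⟩ (by simp)
  rintro x y z (⟨h1, h2, -⟩ | ⟨h1, h2, -⟩) (⟨h3, h4, -⟩ | ⟨h3, h4, -⟩)
    (⟨h5, h6, -⟩ | ⟨h5, h6, -⟩) <;> simp_all

/-- the edge list of the graph on nine vertices -/
def tfcona_E : List (Fin 9 × Fin 9) :=
  [(0, 1), (1, 2), (2, 3), (3, 4), (4, 0), (0, 5), (1, 6), (2, 7), (3, 8), (5, 7), (6, 8), (8, 5),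
    (4, 6)]

/-- the graph on nine vertices -/
def tfcona_nine : SimpleGraph (Fin 9) where
  Adj i j := (i, j) ∈ tfcona_E ∨ (j, i) ∈ tfcona_E
  symm := ⟨fun i j h => h.symm⟩
  loopless := ⟨by decide⟩

instance tfcona_dec : DecidableRel tfcona_nine.Adj := fun i j =>
  inferInstanceAs (Decidable ((i, j) ∈ tfcona_E ∨ (j, i) ∈ tfcona_E))

theorem tfcona_ncard (v : Fin 9) : (tfcona_nine.neighborSet v).ncard =
    (univ.filter fun w => tfcona_nine.Adj v w).card := by
  rw [← Set.ncard_coe_finset]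
  congr 1
  ext w
  simp

theorem re_nine : Re (Fin 9) 3 2 := by
  refine ⟨tfcona_nine, tfcona_free _ (by decide), 7, ?_, ?_⟩
  · rw [tfcona_ncard]
    decide
  · intro v
    rw [tfcona_ncard]
    revert v
    decide

/-- the complete bipartite graph -/
def tfcona_bip (a b : ℕ) : SimpleGraph (Fin (a + b)) where
  Adj i j := (i.val < a ∧ ¬ j.val < a) ∨ (¬ i.val < a ∧ j.val < a)
  symm := ⟨fun i j h => by tauto⟩
  loopless := ⟨fun i h => by tauto⟩

theorem tfcona_bip_lt {a b : ℕ} (v : Fin (a + b)) (h : v.val < a) :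
    ((tfcona_bip a b).neighborSet v).ncard = b := by
  refine Eq.trans ?_ (tfcona_ge a b)
  congr 1
  ext w
  simp only [mem_neighborSet, tfcona_bip, Set.mem_ofPred_eq]
  tauto

theorem tfcona_bip_ge {a b : ℕ} (v : Fin (a + b)) (h : ¬ v.val < a) :
    ((tfcona_bip a b).neighborSet v).ncard = a := by
  refine Eq.trans ?_ (tfcona_lt (Nat.le_add_right a b))
  congr 1
  ext w
  simp only [mem_neighborSet, tfcona_bip, Set.mem_ofPred_eq]
  tauto

theorem con_bip (a b s : ℕ) : ∃ G : SimpleGraph (Fin (a + b)), G.CliqueFree 3 ∧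
    (∀ v, (G.neighborSet v).ncard ≤ max a b) ∧
    ∑ v, ((G.neighborSet v).ncard).choose s = a * b.choose s + b * a.choose s := by
  refine ⟨tfcona_bip a b, tfcona_free _ ?_, ?_, ?_⟩
  · intro x y z h1 h2 h3
    simp only [tfcona_bip] at h1 h2 h3
    tauto
  · intro v
    by_cases h : v.val < a
    · rw [tfcona_bip_lt v h]; exact le_max_right _ _
    · rw [tfcona_bip_ge v h]; exact le_max_left _ _
  · rw [Fin.sum_univ_add]
    have h1 : ∀ i : Fin a, ((tfcona_bip a b).neighborSet (Fin.castAdd b i)).ncard = b :=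
      fun i => tfcona_bip_lt _ (by simp)
    have h2 : ∀ i : Fin b, ((tfcona_bip a b).neighborSet (Fin.natAdd a i)).ncard = a :=
      fun i => tfcona_bip_ge _ (by simp)
    simp only [h1, h2, sum_const, card_univ, Fintype.card_fin, smul_eq_mul]

end Pool.Agent.TFD
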