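import Pool.Agent.P.MP_dfe42f_co.TfConA

open Finset SimpleGraph
namespace Pool.Agent.TFD

/-- `b` lies an admissible odd number of steps after `a` -/
def tfconbR (Δ n a b : ℕ) : Prop :=
  (a < b ∧ (b - a) % 2 = 1 ∧ 1 + 2 * (Δ % 2) ≤ b - a ∧ b - a ≤ Δ) ∨
    (b < a ∧ (b + n - a) % 2 = 1 ∧ 1 + 2 * (Δ % 2) ≤ b + n - a ∧ b + n - a ≤ Δ)

/-- the graph -/
def tfconbG (Δ n : ℕ) : SimpleGraph (Fin n) where
  Adj a b := tfconbR Δ n a b ∨ tfconbR Δ n b a ∨ (Δ % 2 = 1 ∧ a.val ≠ b.val ∧ a.val / 2 = b.val / 2)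
  symm := ⟨fun a b h => by
    rcases h with h | h | h
    · exact Or.inr (Or.inl h)
    · exact Or.inl h
    · exact Or.inr (Or.inr ⟨h.1, h.2.1.symm, h.2.2.symm⟩)⟩
  loopless := ⟨fun a h => by
    unfold tfconbR at h
    omega⟩

theorem tfconb_tri {Δ n : ℕ} (ho : n % 2 = 1) (h : 3 * (Δ - 1 + Δ % 2) < n) :
    (tfconbG Δ n).CliqueFree 3 := by
  intro s hs
  obtain ⟨a, b, c, h1, h2, h3, -⟩ := is3Clique_iff.1 hs
  have := a.2
  have := b.2
  have := c.2
  simp only [tfconbG, tfconbR] at h1 h2 h3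
  rcases Nat.mod_two_eq_zero_or_one Δ with h0 | h0 <;>
  rcases h1 with (h1 | h1) | (h1 | h1) | h1 <;> rcases h2 with (h2 | h2) | (h2 | h2) | h2 <;>
    rcases h3 with (h3 | h3) | (h3 | h3) | h3 <;> omega

theorem tfconb_deg {Δ n : ℕ} (ho : n % 2 = 1) (h : 3 * (Δ - 1 + Δ % 2) < n) (a : Fin n) :
    ((tfconbG Δ n).neighborSet a).ncard =
      2 * (Δ / 2) + if Δ % 2 = 1 ∧ a.val + 1 ≠ n then 1 else 0 := by
  have ha := a.2
  set f : ℕ → ℕ := fun k => if a.val + (1 + 2 * (Δ % 2) + 2 * k) < n then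
    a.val + (1 + 2 * (Δ % 2) + 2 * k) else a.val + (1 + 2 * (Δ % 2) + 2 * k) - n with hf
  set g : ℕ → ℕ := fun k => if 1 + 2 * (Δ % 2) + 2 * k ≤ a.val then
    a.val - (1 + 2 * (Δ % 2) + 2 * k) else a.val + n - (1 + 2 * (Δ % 2) + 2 * k) with hg
  set M : Finset ℕ := if Δ % 2 = 1 ∧ a.val + 1 ≠ n then {2 * (a.val / 2) + 1 - a.val % 2} else ∅
    with hM
  have mM : ∀ b, b ∈ M ↔ Δ % 2 = 1 ∧ a.val + 1 ≠ n ∧ b = 2 * (a.val / 2) + 1 - a.val % 2 := by
    intro b
    rw [hM]
    split_ifs with h1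
    · rw [mem_singleton]; tauto
    · simp only [notMem_empty, false_iff]; tauto
  have e : Fin.val '' ((tfconbG Δ n).neighborSet a) =
      ↑((range (Δ / 2)).image f ∪ (range (Δ / 2)).image g ∪ M) := by
    ext b
    simp only [Set.mem_image, mem_neighborSet, mem_coe, mem_union, mem_image, mem_range, mM]
    constructor
    · rintro ⟨x, hx, rfl⟩
      have := x.2
      simp only [tfconbG, tfconbR] at hx
      rcases hx with (hx | hx) | (hx | hx) | hx
      · refine Or.inl (Or.inl ⟨(x.val - a.val) / 2 - Δ % 2, by omega, ?_⟩)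
        simp only [hf]; split_ifs <;> omega
      · refine Or.inl (Or.inl ⟨(x.val + n - a.val) / 2 - Δ % 2, by omega, ?_⟩)
        simp only [hf]; split_ifs <;> omega
      · refine Or.inl (Or.inr ⟨(a.val - x.val) / 2 - Δ % 2, by omega, ?_⟩)
        simp only [hg]; split_ifs <;> omega
      · refine Or.inl (Or.inr ⟨(a.val + n - x.val) / 2 - Δ % 2, by omega, ?_⟩)
        simp only [hg]; split_ifs <;> omega
      · exact Or.inr (by omega)
    · intro hb
      have b1 : b < n := by
        rcases hb with (⟨k, h1, rfl⟩ | ⟨k, h1, rfl⟩) | hb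
        · simp only [hf]; split_ifs <;> omega
        · simp only [hg]; split_ifs <;> omega
        · omega
      refine ⟨⟨b, b1⟩, ?_, rfl⟩
      simp only [tfconbG, tfconbR]
      rcases hb with (⟨k, h1, h2⟩ | ⟨k, h1, h2⟩) | hb
      · simp only [hf] at h2
        split_ifs at h2
        · exact Or.inl (Or.inl (by omega))
        · exact Or.inl (Or.inr (by omega))
      · simp only [hg] at h2
        split_ifs at h2
        · exact Or.inr (Or.inl (Or.inl (by omega)))
        · exact Or.inr (Or.inl (Or.inr (by omega)))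
      · exact Or.inr (Or.inr (by omega))
  rw [← Set.ncard_image_of_injective _ Fin.val_injective, e, Set.ncard_coe_finset,
    card_union_of_disjoint, card_union_of_disjoint, card_image_of_injOn, card_image_of_injOn,
    card_range]
  · rw [hM]
    split_ifs
    · rw [card_singleton]; omega
    · rw [card_empty]; omega
  · intro x hx y hy hxy
    simp only [coe_range, Set.mem_Iio, hg] at hx hy hxy
    split_ifs at hxy <;> omega
  · intro x hx y hy hxy
    simp only [coe_range, Set.mem_Iio, hf] at hx hy hxy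
    split_ifs at hxy <;> omega
  · rw [Finset.disjoint_left]
    intro b h1 h2
    obtain ⟨x, hx, rfl⟩ := mem_image.1 h1
    obtain ⟨y, hy, h3⟩ := mem_image.1 h2
    simp only [mem_range, hf, hg] at hx hy h3
    split_ifs at h3 <;> omega
  · rw [Finset.disjoint_left]
    intro b h1 h2
    rw [mM] at h2
    rcases mem_union.1 h1 with h1 | h1
    · obtain ⟨x, hx, h3⟩ := mem_image.1 h1
      simp only [mem_range, hf] at hx h3
      split_ifs at h3 <;> omega
    · obtain ⟨x, hx, h3⟩ := mem_image.1 h1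
      simp only [mem_range, hg] at hx h3
      split_ifs at h3 <;> omega

/-- circulant graph with odd distances, with a near-perfect matching if `Δ` is odd -/
theorem re_circ {Δ n : ℕ} (ho : n % 2 = 1) (h : 3 * (Δ - 1 + Δ % 2) < n) :
    Re (Fin n) Δ (Δ - Δ % 2) := by
  refine ⟨tfconbG Δ n, tfconb_tri ho h, ⟨n - 1, by omega⟩, ?_, fun v hv => ?_⟩
  · rw [tfconb_deg ho h, if_neg (by simp only; omega)]
    omega
  · have h1 : v.val ≠ n - 1 := fun h0 => hv (Fin.ext h0)
    rw [tfconb_deg ho h]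
    split_ifs <;> omega

end Pool.Agent.TFD
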