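import Pool.Agent.P.MP_dfe42f_co.TfConA

open Finset SimpleGraph
namespace Pool.Agent.TFD

/-- adjacency table of the blown up five-cycle -/
def tfconcA (c h m r : ℕ) :
    Fin c ⊕ Bool × (Fin h ⊕ Fin m) → Fin c ⊕ Bool × (Fin h ⊕ Fin m) → Bool
  | .inl _, .inl _ => false
  | .inl _, .inr (_, .inl _) => true
  | .inl _, .inr (_, .inr _) => false
  | .inr (_, .inl _), .inl _ => true
  | .inr (_, .inr _), .inl _ => false
  | .inr (_, .inl _), .inr (_, .inl _) => false
  | .inr (e, .inl _), .inr (e', .inr _) => e != e'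
  | .inr (e, .inr _), .inr (e', .inl _) => e != e'
  | .inr (e, .inr i), .inr (e', .inr j) => (e != e') && decide ((i.val + j.val) % m < r)

/-- the blown up five-cycle -/
def tfconcG (c h m r : ℕ) : SimpleGraph (Fin c ⊕ Bool × (Fin h ⊕ Fin m)) where
  Adj x y := tfconcA c h m r x y = true
  symm := ⟨by
    rintro (x | ⟨e, x | x⟩) (y | ⟨e', y | y⟩) <;> simp only [tfconcA] <;>
      first
      | exact id
      | (cases e <;> cases e' <;> simp [add_comm])⟩
  loopless := ⟨by
    rintro (x | ⟨e, x | x⟩) <;> simp [tfconcA]⟩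

theorem tfconc_free (c h m r : ℕ) : (tfconcG c h m r).CliqueFree 3 := by
  intro s hs
  obtain ⟨x, y, z, hxy, hxz, hyz, -⟩ := is3Clique_iff.1 hs
  change tfconcA c h m r x y = true at hxy
  change tfconcA c h m r x z = true at hxz
  change tfconcA c h m r y z = true at hyz
  rcases x with x | ⟨e, x | x⟩ <;> rcases y with y | ⟨e', y | y⟩ <;>
    rcases z with z | ⟨e'', z | z⟩ <;>
    simp only [tfconcA, Bool.false_eq_true, Bool.and_eq_true, bne_iff_ne] at hxy hxz hyz <;>
    revert hxy hxz hyz <;> cases e <;> cases e' <;> cases e'' <;> simp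

theorem tfconc_ncard (c h m r : ℕ) (x : Fin c ⊕ Bool × (Fin h ⊕ Fin m)) :
    ((tfconcG c h m r).neighborSet x).ncard =
      ∑ y, if tfconcA c h m r x y = true then 1 else 0 := by
  have e : (tfconcG c h m r).neighborSet x =
      ((univ.filter fun y => tfconcA c h m r x y = true : Finset _) : Set _) := by
    ext y
    simp only [mem_neighborSet, coe_filter, mem_univ, true_and]
    rfl
  rw [e, Set.ncard_coe_finset, card_filter]

theorem tfconc_count {m r : ℕ} (hr : r ≤ m) (i : Fin m) :
    (∑ j : Fin m, if (i.val + j.val) % m < r then 1 else 0) = r := by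
  have : NeZero m := ⟨i.pos.ne'⟩
  have e : (∑ j : Fin m, if (i.val + j.val) % m < r then 1 else 0) =
      ∑ j : Fin m, if j.val < r then 1 else 0 :=
    Fintype.sum_equiv (Equiv.addLeft i) _ _ fun j => by
      rw [Equiv.coe_addLeft]
      simp only [Fin.val_add]
  rw [e, ← card_filter, Fin.card_filter_val_lt, min_eq_right hr]

/-- classes of sizes `c, h, m, m, h` around a five-cycle; the first class has degree `2 h` -/
theorem re_blow {c h m : ℕ} (h0 : 0 < c) (hc : c ≤ h) (hm : h ≤ c + m)
    (h1 : c = 1 ∨ 2 * h = c + m) : Re (Fin (c + 2 * h + 2 * m)) (c + m) (2 * h) := by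
  refine Re.fin (V := Fin c ⊕ Bool × (Fin h ⊕ Fin m)) ?_ (by
    simp only [Fintype.card_sum, Fintype.card_prod, Fintype.card_fin, Fintype.card_bool]
    ring)
  have hU : ∀ u : Fin c, ((tfconcG c h m (c + m - h)).neighborSet (.inl u)).ncard = 2 * h := by
    intro u
    rw [tfconc_ncard]
    simp [Fintype.sum_sum_type, Fintype.sum_prod_type, tfconcA]
  refine ⟨tfconcG c h m (c + m - h), tfconc_free _ _ _ _, .inl ⟨0, h0⟩, hU _, ?_⟩
  rintro (u | ⟨e, x | x⟩) hv
  · rw [hU]
    rcases h1 with h1 | h1
    · exfalso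
      apply hv
      have := u.2
      congr 1
      apply Fin.ext
      change u.val = 0
      omega
    · exact h1
  · rw [tfconc_ncard]
    cases e <;> simp [Fintype.sum_sum_type, Fintype.sum_prod_type, tfconcA]
  · rw [tfconc_ncard]
    have hx := tfconc_count (r := c + m - h) (by omega) x
    cases e <;>
      simp only [Fintype.sum_sum_type, Fintype.sum_prod_type, tfconcA, Fintype.sum_bool,
        Bool.false_eq_true, if_false, sum_const_zero, bne_self_eq_false, Bool.false_and,
        Bool.bne_true, Bool.bne_false, Bool.not_false, Bool.true_and, if_true, decide_eq_true_eq,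
        sum_const, card_univ, Fintype.card_fin, smul_eq_mul, mul_one, hx] <;>
      omega

end Pool.Agent.TFD
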