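import Pool.Agent.P.MP_dfe42f_co.TfConA

open Finset SimpleGraph
namespace Pool.Agent.TFD

/-- oriented edges of the regular graph -/
def tfcondR (e h m p q : ℕ) : Prop :=
  (p < 2 * e + 1 ∧ 2 * e + 1 ≤ q ∧ q < 2 * e + 1 + 2 * h) ∨
  (2 * e + 1 ≤ p ∧ p < 2 * e + 1 + h ∧ 2 * e + 1 + 2 * h + m ≤ q) ∨
  (2 * e + 1 + h ≤ p ∧ p < 2 * e + 1 + 2 * h ∧ 2 * e + 1 + 2 * h ≤ q ∧ q < 2 * e + 1 + 2 * h + m) ∨
  (2 * e + 1 + 2 * h ≤ p ∧ p < 2 * e + 1 + 2 * h + m ∧ 2 * e + 1 + 2 * h + m ≤ q ∧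
    ((p + m ≤ q ∧ q < p + m + h) ∨ q < p + h))

/-- oriented edges that are removed -/
def tfcondM (e h m p q : ℕ) : Prop :=
  (p ≤ e ∧ q = 2 * e + 1 + p) ∨
  (e ≤ p ∧ p < 2 * e + 1 ∧ q = e + 1 + h + p) ∨
  (2 * e + 1 + e < p ∧ p < 2 * e + 1 + h ∧ q = p + 2 * h + m) ∨
  (2 * e + 1 + h + e < p ∧ p < 2 * e + 1 + 2 * h ∧ q = p + h) ∨
  (2 * e + 1 + 2 * h ≤ p ∧ p < 2 * e + 1 + 2 * h + m ∧
    (p ≤ 2 * e + 1 + 2 * h + e ∨ 2 * e + 1 + 3 * h ≤ p) ∧ q = p + m)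

/-- the remaining edges -/
def tfcondA (e h m p q : ℕ) : Prop :=
  (tfcondR e h m p q ∨ tfcondR e h m q p) ∧ ¬ (tfcondM e h m p q ∨ tfcondM e h m q p)

/-- the graph -/
def tfcondG (e h m n : ℕ) : SimpleGraph (Fin n) where
  Adj p q := tfcondA e h m p q
  symm := ⟨fun p q hpq => ⟨Or.symm hpq.1, fun h => hpq.2 (Or.symm h)⟩⟩
  loopless := ⟨fun p hp => by
    rcases hp with ⟨hp | hp, -⟩ <;> (unfold tfcondR at hp; omega)⟩

/-- the class of a vertex -/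
def tfcondK (e h m p : ℕ) : ℕ :=
  if p < 2 * e + 1 then 0 else if p < 2 * e + 1 + h then 1 else if p < 2 * e + 1 + 2 * h then 4
  else if p < 2 * e + 1 + 2 * h + m then 3 else 2

theorem tfcond_lt (e h m p : ℕ) : tfcondK e h m p < 5 := by
  unfold tfcondK; split_ifs <;> omega

theorem tfcond_R {e h m p q : ℕ} (hR : tfcondR e h m p q) :
    tfcondK e h m q = (tfcondK e h m p + 1) % 5 ∨ tfcondK e h m p = (tfcondK e h m q + 1) % 5 := by
  unfold tfcondR at hR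
  unfold tfcondK
  split_ifs <;> omega

theorem tfcond_A {e h m p q : ℕ} (hA : tfcondA e h m p q) :
    tfcondK e h m q = (tfcondK e h m p + 1) % 5 ∨ tfcondK e h m p = (tfcondK e h m q + 1) % 5 := by
  rcases hA with ⟨h1 | h1, -⟩
  · exact tfcond_R h1
  · exact (tfcond_R h1).symm

theorem tfcond_free (e h m n : ℕ) : (tfcondG e h m n).CliqueFree 3 := by
  intro s hs
  obtain ⟨a, b, c, hab, hac, hbc, -⟩ := is3Clique_iff.1 hs
  have h1 := tfcond_A hab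
  have h2 := tfcond_A hac
  have h3 := tfcond_A hbc
  have k1 := tfcond_lt e h m a
  have k2 := tfcond_lt e h m b
  have k3 := tfcond_lt e h m c
  omega

theorem tfcond_cnt {e h m n : ℕ} (p : Fin n) (T : Finset ℕ)
    (hT : ∀ q, q ∈ T ↔ q < n ∧ tfcondA e h m p q) :
    ((tfcondG e h m n).neighborSet p).ncard = T.card := by
  rw [← Set.ncard_image_of_injective _ Fin.val_injective, ← Set.ncard_coe_finset]
  congr 1
  ext q
  rw [Finset.mem_coe, hT]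
  constructor
  · rintro ⟨x, hx, rfl⟩
    exact ⟨x.2, hx⟩
  · rintro ⟨h1, h2⟩
    exact ⟨⟨q, h1⟩, h2, rfl⟩

theorem tfcond_card {a1 b1 a2 b2 a3 b3 : ℕ} (h12 : b1 ≤ a2) (h13 : b1 ≤ a3) (h23 : b2 ≤ a3) :
    (Ico a1 b1 ∪ Ico a2 b2 ∪ Ico a3 b3).card = (b1 - a1) + (b2 - a2) + (b3 - a3) := by
  rw [card_union_of_disjoint, card_union_of_disjoint, Nat.card_Ico, Nat.card_Ico, Nat.card_Ico]
  · rw [Finset.disjoint_left]
    intro x
    simp only [mem_Ico]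
    omega
  · rw [Finset.disjoint_left]
    intro x
    simp only [mem_union, mem_Ico]
    omega

theorem tfcond_one {e h m n : ℕ} (p : Fin n) (a1 b1 a2 b2 a3 b3 μ : ℕ) (h12 : b1 ≤ a2)
    (h13 : b1 ≤ a3) (h23 : b2 ≤ a3) (hs : (b1 - a1) + (b2 - a2) + (b3 - a3) = 2 * h)
    (hμ : (a1 ≤ μ ∧ μ < b1) ∨ (a2 ≤ μ ∧ μ < b2) ∨ (a3 ≤ μ ∧ μ < b3))
    (hT : ∀ q, ((a1 ≤ q ∧ q < b1) ∨ (a2 ≤ q ∧ q < b2) ∨ (a3 ≤ q ∧ q < b3)) ↔
      q < n ∧ (tfcondR e h m p q ∨ tfcondR e h m q p))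
    (hM : ∀ q, (tfcondM e h m p q ∨ tfcondM e h m q p) ↔ q = μ) :
    ((tfcondG e h m n).neighborSet p).ncard = 2 * h - 1 := by
  rw [tfcond_cnt p ((Ico a1 b1 ∪ Ico a2 b2 ∪ Ico a3 b3).erase μ), card_erase_of_mem,
    tfcond_card h12 h13 h23, hs]
  · simpa only [mem_union, mem_Ico, or_assoc] using hμ
  · intro q
    simp only [mem_erase, mem_union, mem_Ico, or_assoc, tfcondA]
    rw [hT, hM]
    tauto

theorem tfcond_RU {e h m c p : ℕ} (hc : 2 * e + 1 ≤ h) (hm : 2 * e + 1 + m = 2 * h)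
    (hcd : c = 2 * e + 1) (hp : p < c) (q : ℕ) :
    ((c ≤ q ∧ q < c + 2 * h) ∨ (c + 2 * h ≤ q ∧ q < c + 2 * h) ∨
      (c + 2 * h ≤ q ∧ q < c + 2 * h)) ↔
      q < 2 * e + 1 + 2 * h + 2 * m ∧ (tfcondR e h m p q ∨ tfcondR e h m q p) := by
  unfold tfcondR
  constructor
  · intro h1
    exact ⟨by omega, Or.inl (Or.inl (by omega))⟩
  · rintro ⟨h0, (h1 | h1 | h1 | h1) | (h1 | h1 | h1 | h1)⟩ <;> omega

theorem tfcond_RA {e h m c p : ℕ} (hc : 2 * e + 1 ≤ h) (hm : 2 * e + 1 + m = 2 * h)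
    (hcd : c = 2 * e + 1) (hp : c ≤ p) (hp' : p < c + h) (q : ℕ) :
    ((0 ≤ q ∧ q < c) ∨ (c ≤ q ∧ q < c) ∨ (c + 2 * h + m ≤ q ∧ q < c + 2 * h + 2 * m)) ↔
      q < 2 * e + 1 + 2 * h + 2 * m ∧ (tfcondR e h m p q ∨ tfcondR e h m q p) := by
  unfold tfcondR
  constructor
  · rintro (h1 | h1 | h1)
    · exact ⟨by omega, Or.inr (Or.inl (by omega))⟩
    · omega
    · exact ⟨by omega, Or.inl (Or.inr (Or.inl (by omega)))⟩
  · rintro ⟨h0, (h1 | h1 | h1 | h1) | (h1 | h1 | h1 | h1)⟩ <;> omega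

theorem tfcond_RB {e h m c p : ℕ} (hc : 2 * e + 1 ≤ h) (hm : 2 * e + 1 + m = 2 * h)
    (hcd : c = 2 * e + 1) (hp : c + h ≤ p) (hp' : p < c + 2 * h) (q : ℕ) :
    ((0 ≤ q ∧ q < c) ∨ (c ≤ q ∧ q < c) ∨ (c + 2 * h ≤ q ∧ q < c + 2 * h + m)) ↔
      q < 2 * e + 1 + 2 * h + 2 * m ∧ (tfcondR e h m p q ∨ tfcondR e h m q p) := by
  unfold tfcondR
  constructor
  · rintro (h1 | h1 | h1)
    · exact ⟨by omega, Or.inr (Or.inl (by omega))⟩
    · omega
    · exact ⟨by omega, Or.inl (Or.inr (Or.inr (Or.inl (by omega))))⟩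
  · rintro ⟨h0, (h1 | h1 | h1 | h1) | (h1 | h1 | h1 | h1)⟩ <;> omega

theorem tfcond_RX {e h m c p : ℕ} (hc : 2 * e + 1 ≤ h) (hm : 2 * e + 1 + m = 2 * h)
    (hcd : c = 2 * e + 1) (hp : c + 2 * h ≤ p) (hp' : p < c + 2 * h + m) (q : ℕ) :
    ((c + h ≤ q ∧ q < c + 2 * h) ∨ (c + 2 * h + m ≤ q ∧ q < p + h) ∨
      (p + m ≤ q ∧ q < min (p + m + h) (c + 2 * h + 2 * m))) ↔
      q < 2 * e + 1 + 2 * h + 2 * m ∧ (tfcondR e h m p q ∨ tfcondR e h m q p) := by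
  unfold tfcondR
  constructor
  · rintro (h1 | h1 | h1)
    · exact ⟨by omega, Or.inr (Or.inr (Or.inr (Or.inl (by omega))))⟩
    · exact ⟨by omega, Or.inl (Or.inr (Or.inr (Or.inr (by omega))))⟩
    · exact ⟨by omega, Or.inl (Or.inr (Or.inr (Or.inr (by omega))))⟩
  · rintro ⟨h0, (h1 | h1 | h1 | h1) | (h1 | h1 | h1 | h1)⟩ <;> omega

theorem tfcond_RY {e h m c p : ℕ} (hc : 2 * e + 1 ≤ h) (hm : 2 * e + 1 + m = 2 * h)
    (hcd : c = 2 * e + 1) (hp : c + 2 * h + m ≤ p) (hp' : p < c + 2 * h + 2 * m) (q : ℕ) :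
    ((c ≤ q ∧ q < c + h) ∨ (max (c + 2 * h) (p + 1 - m - h) ≤ q ∧ q < p + 1 - m) ∨
      (p + 1 - h ≤ q ∧ q < c + 2 * h + m)) ↔
      q < 2 * e + 1 + 2 * h + 2 * m ∧ (tfcondR e h m p q ∨ tfcondR e h m q p) := by
  unfold tfcondR
  constructor
  · rintro (h1 | h1 | h1)
    · exact ⟨by omega, Or.inr (Or.inr (Or.inl (by omega)))⟩
    · exact ⟨by omega, Or.inr (Or.inr (Or.inr (Or.inr (by omega))))⟩
    · exact ⟨by omega, Or.inr (Or.inr (Or.inr (Or.inr (by omega))))⟩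
  · rintro ⟨h0, (h1 | h1 | h1 | h1) | (h1 | h1 | h1 | h1)⟩ <;> omega

theorem tfcond_M {e h m p μ : ℕ} (h1 : tfcondM e h m p μ ∨ tfcondM e h m μ p)
    (h2 : ∀ q, tfcondM e h m p q → q = μ) (h3 : ∀ q, tfcondM e h m q p → q = μ) (q : ℕ) :
    (tfcondM e h m p q ∨ tfcondM e h m q p) ↔ q = μ :=
  ⟨fun h => h.elim (h2 q) (h3 q), fun h => h ▸ h1⟩

/-- the same with `c = 2 e + 1`, `c + m = 2 h`, and a spanning set of edges removed -/
theorem re_rem {e h m : ℕ} (hc : 2 * e + 1 ≤ h) (hm : 2 * e + 1 + m = 2 * h) :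
    Re (Fin (2 * e + 1 + 2 * h + 2 * m)) (2 * h - 1) (2 * h - 2) := by
  refine ⟨tfcondG e h m _, tfcond_free _ _ _ _, ⟨e, by omega⟩, ?_, ?_⟩
  · rw [tfcond_cnt _ (((Ico (2 * e + 1) (2 * e + 1 + 2 * h)).erase (2 * e + 1 + e)).erase
      (e + 1 + h + e)), card_erase_of_mem, card_erase_of_mem, Nat.card_Ico]
    · omega
    · rw [mem_Ico]; omega
    · rw [mem_erase, mem_Ico]; omega
    · intro q
      have h1 := tfcond_RU hc hm rfl (by omega : e < 2 * e + 1) q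
      have h2 : (tfcondM e h m e q ∨ tfcondM e h m q e) ↔
          (q = e + 1 + h + e ∨ q = 2 * e + 1 + e) := by
        unfold tfcondM
        constructor
        · rintro ((h1 | h1 | h1 | h1 | h1) | (h1 | h1 | h1 | h1 | h1)) <;> omega
        · rintro (h1 | h1)
          · exact Or.inl (Or.inr (Or.inl (by omega)))
          · exact Or.inl (Or.inl (by omega))
      simp only [mem_erase, mem_Ico, tfcondA]
      rw [← and_assoc (a := q < 2 * e + 1 + 2 * h + 2 * m), ← h1, h2]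
      omega
  · rintro ⟨p, hp⟩ hne
    have hpe : p ≠ e := fun h => hne (Fin.ext h)
    obtain ⟨c, hcd⟩ : ∃ c, c = 2 * e + 1 := ⟨_, rfl⟩
    by_cases h1 : p < e
    · refine tfcond_one _ _ _ _ _ _ _ (c + p) ?_ ?_ ?_ ?_ ?_
        (tfcond_RU (p := p) hc hm hcd (by omega))
        (tfcond_M (p := p) (Or.inl (Or.inl (by omega))) ?_ ?_)
      iterate 5 omega
      all_goals (rintro q (g | g | g | g | g) <;> omega)
    by_cases h2 : p < c
    · refine tfcond_one _ _ _ _ _ _ _ (e + 1 + h + p) ?_ ?_ ?_ ?_ ?_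
        (tfcond_RU (p := p) hc hm hcd (by omega))
        (tfcond_M (p := p) (Or.inl (Or.inr (Or.inl (by omega)))) ?_ ?_)
      iterate 5 omega
      all_goals (rintro q (g | g | g | g | g) <;> omega)
    by_cases h3 : p ≤ c + e
    · refine tfcond_one _ _ _ _ _ _ _ (p - c) ?_ ?_ ?_ ?_ ?_
        (tfcond_RA (p := p) hc hm hcd (by omega) (by omega))
        (tfcond_M (p := p) (Or.inr (Or.inl (by omega))) ?_ ?_)
      iterate 5 omega
      all_goals (rintro q (g | g | g | g | g) <;> omega)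
    by_cases h4 : p < c + h
    · refine tfcond_one _ _ _ _ _ _ _ (p + 2 * h + m) ?_ ?_ ?_ ?_ ?_
        (tfcond_RA (p := p) hc hm hcd (by omega) (by omega))
        (tfcond_M (p := p) (Or.inl (Or.inr (Or.inr (Or.inl (by omega))))) ?_ ?_)
      iterate 5 omega
      all_goals (rintro q (g | g | g | g | g) <;> omega)
    by_cases h5 : p ≤ c + h + e
    · refine tfcond_one _ _ _ _ _ _ _ (p - (e + 1 + h)) ?_ ?_ ?_ ?_ ?_
        (tfcond_RB (p := p) hc hm hcd (by omega) (by omega))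
        (tfcond_M (p := p) (Or.inr (Or.inr (Or.inl (by omega)))) ?_ ?_)
      iterate 5 omega
      all_goals (rintro q (g | g | g | g | g) <;> omega)
    by_cases h6 : p < c + 2 * h
    · refine tfcond_one _ _ _ _ _ _ _ (p + h) ?_ ?_ ?_ ?_ ?_
        (tfcond_RB (p := p) hc hm hcd (by omega) (by omega))
        (tfcond_M (p := p) (Or.inl (Or.inr (Or.inr (Or.inr (Or.inl (by omega)))))) ?_ ?_)
      iterate 5 omega
      all_goals (rintro q (g | g | g | g | g) <;> omega)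
    by_cases h7 : p ≤ c + 2 * h + e
    · refine tfcond_one _ _ _ _ _ _ _ (p + m) ?_ ?_ ?_ ?_ ?_
        (tfcond_RX (p := p) hc hm hcd (by omega) (by omega))
        (tfcond_M (p := p) (Or.inl (Or.inr (Or.inr (Or.inr (Or.inr (by omega)))))) ?_ ?_)
      iterate 5 omega
      all_goals (rintro q (g | g | g | g | g) <;> omega)
    by_cases h8 : p < c + 3 * h
    · refine tfcond_one _ _ _ _ _ _ _ (p - h) ?_ ?_ ?_ ?_ ?_
        (tfcond_RX (p := p) hc hm hcd (by omega) (by omega))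
        (tfcond_M (p := p) (Or.inr (Or.inr (Or.inr (Or.inr (Or.inl (by omega)))))) ?_ ?_)
      iterate 5 omega
      all_goals (rintro q (g | g | g | g | g) <;> omega)
    by_cases h9 : p < c + 2 * h + m
    · refine tfcond_one _ _ _ _ _ _ _ (p + m) ?_ ?_ ?_ ?_ ?_
        (tfcond_RX (p := p) hc hm hcd (by omega) (by omega))
        (tfcond_M (p := p) (Or.inl (Or.inr (Or.inr (Or.inr (Or.inr (by omega)))))) ?_ ?_)
      iterate 5 omega
      all_goals (rintro q (g | g | g | g | g) <;> omega)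
    by_cases h10 : p ≤ c + 2 * h + m + e
    · refine tfcond_one _ _ _ _ _ _ _ (p - m) ?_ ?_ ?_ ?_ ?_
        (tfcond_RY (p := p) hc hm hcd (by omega) (by omega))
        (tfcond_M (p := p) (Or.inr (Or.inr (Or.inr (Or.inr (Or.inr (by omega)))))) ?_ ?_)
      iterate 5 omega
      all_goals (rintro q (g | g | g | g | g) <;> omega)
    by_cases h11 : p < c + 3 * h + m
    · refine tfcond_one _ _ _ _ _ _ _ (p - 2 * h - m) ?_ ?_ ?_ ?_ ?_
        (tfcond_RY (p := p) hc hm hcd (by omega) (by omega))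
        (tfcond_M (p := p) (Or.inr (Or.inr (Or.inr (Or.inl (by omega))))) ?_ ?_)
      iterate 5 omega
      all_goals (rintro q (g | g | g | g | g) <;> omega)
    · refine tfcond_one _ _ _ _ _ _ _ (p - m) ?_ ?_ ?_ ?_ ?_
        (tfcond_RY (p := p) hc hm hcd (by omega) (by omega))
        (tfcond_M (p := p) (Or.inr (Or.inr (Or.inr (Or.inr (Or.inr (by omega)))))) ?_ ?_)
      iterate 5 omega
      all_goals (rintro q (g | g | g | g | g) <;> omega)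

end Pool.Agent.TFD
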