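import Pool.Agent.P.MP_dfe42f_co.TfCod

open Finset SimpleGraph
namespace Pool.Agent.TFD

variable {V : Type} [Fintype V] [DecidableEq V] {G : SimpleGraph V} [DecidableRel G.Adj] {Δ k : ℕ}

theorem tfhom_case {k t r e0 e1 e2 e3 e4 : ℤ} (hk : 0 ≤ k) (hr : r = 1 ∨ r = 3) (h0 : 0 ≤ e0)
    (h1 : 0 ≤ e1) (h2 : 0 ≤ e2) (h3 : 0 ≤ e3) (h4 : 0 ≤ e4) (hs : e0 + e1 + e2 + e3 + e4 = r)
    {c0 c1 c2 c3 c4 : ℤ} (d0 : c0 = e0 * (k + r - e2 - e3)) (d1 : c1 = e1 * (k + r - e3 - e4))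
    (d2 : c2 = e2 * (k + r - e4 - e0)) (d3 : c3 = e3 * (k + r - e0 - e1))
    (d4 : c4 = e4 * (k + r - e1 - e2))
    (i0 : c2 + c4 - c0 - c1 - c3 ≤ t) (i1 : c3 + c0 - c1 - c2 - c4 ≤ t)
    (i2 : c4 + c1 - c2 - c3 - c0 ≤ t) (i3 : c0 + c2 - c3 - c4 - c1 ≤ t)
    (i4 : c1 + c3 - c4 - c0 - c2 ≤ t) : k + 1 ≤ t := by
  have u0 : e0 ≤ 3 := by omega
  have u1 : e1 ≤ 3 := by omega
  have u2 : e2 ≤ 3 := by omega
  have u3 : e3 ≤ 3 := by omega
  have u4 : e4 ≤ 3 := by omega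
  rcases hr with rfl | rfl <;> interval_cases e0 <;> interval_cases e1 <;>
    first
    | omega
    | (interval_cases e2 <;> interval_cases e3 <;> first | omega | (interval_cases e4 <;> omega))

theorem tfhom_int {k Δ b0 b1 b2 b3 b4 x0 x1 x2 x3 x4 D0 D1 D2 D3 D4 : ℤ} (hk : 0 ≤ k)
    (hr : Δ = 2 * k + 1 ∨ Δ = 2 * k + 3) (hb : b0 + b1 + b2 + b3 + b4 + k = 3 * Δ)
    (p0 : 0 ≤ D0) (p1 : 0 ≤ D1) (p2 : 0 ≤ D2) (p3 : 0 ≤ D3) (p4 : 0 ≤ D4)
    (q0 : D0 + (x0 + x4) = b0 * Δ) (q1 : D1 + (x1 + x0) = b1 * Δ) (q2 : D2 + (x2 + x1) = b2 * Δ)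
    (q3 : D3 + (x3 + x2) = b3 * Δ) (q4 : D4 + (x4 + x3) = b4 * Δ)
    (a0 : x0 ≤ b0 * b1) (a1 : x1 ≤ b1 * b2) (a2 : x2 ≤ b2 * b3) (a3 : x3 ≤ b3 * b4)
    (a4 : x4 ≤ b4 * b0) (n0 : Δ ≤ b1 + b4) (n1 : Δ ≤ b2 + b0) (n2 : Δ ≤ b3 + b1)
    (n3 : Δ ≤ b4 + b2) (n4 : Δ ≤ b0 + b3) : k + 1 ≤ D0 + D1 + D2 + D3 + D4 := by
  refine tfhom_case (r := Δ - 2 * k) (e0 := b1 + b4 - Δ) (e1 := b2 + b0 - Δ) (e2 := b3 + b1 - Δ)
    (e3 := b4 + b2 - Δ) (e4 := b0 + b3 - Δ) (c0 := (b1 + b4 - Δ) * b0) (c1 := (b2 + b0 - Δ) * b1)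
    (c2 := (b3 + b1 - Δ) * b2) (c3 := (b4 + b2 - Δ) * b3) (c4 := (b0 + b3 - Δ) * b4) hk
    (by omega) (by omega) (by omega) (by omega) (by omega) (by omega) (by omega)
    (congrArg _ (by omega)) (congrArg _ (by omega)) (congrArg _ (by omega))
    (congrArg _ (by omega)) (congrArg _ (by omega)) ?_ ?_ ?_ ?_ ?_ <;> linarith

/-- number of adjacent pairs between two classes -/
def tfhomE (G : SimpleGraph V) [DecidableRel G.Adj] (W : V → ZMod 5) (i j : ZMod 5) : ℕ :=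
  ∑ p with W p = i, ∑ q with W q = j, if G.Adj p q then 1 else 0

theorem tfhom_symm (W : V → ZMod 5) (i j : ZMod 5) : tfhomE G W i j = tfhomE G W j i := by
  unfold tfhomE
  rw [sum_comm]
  exact sum_congr rfl fun p _ => sum_congr rfl fun q _ => if_congr (G.adj_comm _ _) rfl rfl

theorem tfhom_le (W : V → ZMod 5) (i j : ZMod 5) :
    tfhomE G W i j ≤ (univ.filter fun p => W p = i).card * (univ.filter fun p => W p = j).card := by
  refine sum_le_card_nsmul _ _ _ fun p _ => ?_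
  rw [← card_filter]
  exact card_filter_le _ _

theorem tfhom_deg {W : V → ZMod 5} (hom : ∀ x y, G.Adj x y → Nb (W x) (W y)) (p : V) :
    G.degree p = (∑ q with W q = W p + 1, if G.Adj p q then 1 else 0) +
      ∑ q with W q = W p - 1, if G.Adj p q then 1 else 0 := by
  have ne : ∀ i : ZMod 5, i + 1 ≠ i - 1 := by decide
  rw [← card_neighborFinset_eq_degree, neighborFinset_eq_filter, card_filter, sum_filter,
    sum_filter, ← sum_add_distrib]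
  refine sum_congr rfl fun q _ => ?_
  by_cases h : G.Adj p q
  · rcases hom p q h with e | e
    · rw [if_pos h, if_pos e, if_neg fun e' => ne _ (e.symm.trans e'), add_zero]
    · have e' : W q = W p - 1 := eq_sub_of_add_eq e.symm
      rw [if_pos h, if_pos e', if_neg fun e'' => ne _ (e''.symm.trans e')]
  · simp only [if_neg h, ite_self]

theorem hom_bound (h : TF G Δ) (hk : Fintype.card V + k = 3 * Δ)
    (hr : Δ = 2 * k + 1 ∨ Δ = 2 * k + 3) {v : ZMod 5 → V} (hv : C5 G Δ v) {W : V → ZMod 5}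
    (hW : ∀ i, W (v i) = i) (hom : ∀ x y, G.Adj x y → Nb (W x) (W y)) : k + 1 ≤ dfc G Δ := by
  let b : ZMod 5 → ℕ := fun i => (univ.filter fun p => W p = i).card
  let D : ZMod 5 → ℕ := fun i => ∑ p with W p = i, (Δ - G.degree p)
  let x : ZMod 5 → ℕ := fun i => tfhomE G W i (i + 1)
  have five : ∀ f : ZMod 5 → ℕ, ∑ i, f i = f 0 + f 1 + f 2 + f 3 + f 4 := fun f =>
    Fin.sum_univ_five f
  have hb : b 0 + b 1 + b 2 + b 3 + b 4 = Fintype.card V := by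
    rw [← five b, ← card_univ]
    exact (card_eq_sum_card_fiberwise fun _ _ => mem_univ _).symm
  have hD : D 0 + D 1 + D 2 + D 3 + D 4 = dfc G Δ := by
    rw [← five D]
    exact sum_fiberwise univ W fun p => Δ - G.degree p
  have hq : ∀ i j, j + 1 = i → (D i : ℤ) + (x i + x j) = b i * Δ := by
    rintro _ j rfl
    have e : x j = tfhomE G W (j + 1) (j + 1 - 1) := by
      rw [add_sub_cancel_right]
      exact tfhom_symm W _ _
    have e2 : D (j + 1) + (x (j + 1) + x j) = b (j + 1) * Δ := by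
      rw [e]
      simp only [D, x, b, tfhomE]
      rw [← sum_add_distrib, ← sum_add_distrib, ← smul_eq_mul, ← sum_const]
      refine sum_congr rfl fun p hp => ?_
      rw [← (mem_filter.1 hp).2, ← tfhom_deg hom p]
      exact Nat.sub_add_cancel (h.deg p)
    exact_mod_cast e2
  have ha : ∀ i j, i + 1 = j → (x i : ℤ) ≤ b i * b j := by
    rintro i _ rfl
    exact_mod_cast tfhom_le W i (i + 1)
  have hn : ∀ i j l, i + 1 = j → i - 1 = l → (Δ : ℤ) ≤ b j + b l := by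
    rintro i _ _ rfl rfl
    have e := tfhom_deg hom (v i)
    rw [hv.full, hW, ← card_filter, ← card_filter] at e
    exact_mod_cast e.le.trans (add_le_add (card_filter_le _ _) (card_filter_le _ _))
  have := tfhom_int (k := k) (Δ := Δ) (Int.natCast_nonneg k) (by omega) (by omega)
    (Int.natCast_nonneg (D 0)) (Int.natCast_nonneg (D 1)) (Int.natCast_nonneg (D 2))
    (Int.natCast_nonneg (D 3)) (Int.natCast_nonneg (D 4))
    (hq 0 4 rfl) (hq 1 0 rfl) (hq 2 1 rfl) (hq 3 2 rfl) (hq 4 3 rfl)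
    (ha 0 1 rfl) (ha 1 2 rfl) (ha 2 3 rfl) (ha 3 4 rfl) (ha 4 0 rfl)
    (hn 0 1 4 rfl rfl) (hn 1 2 0 rfl rfl) (hn 2 3 1 rfl rfl) (hn 3 4 2 rfl rfl)
    (hn 4 0 3 rfl rfl)
  omega

end Pool.Agent.TFD
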