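import Pool.Agent.P.MP_dfe42f_co.TfCod

open Finset SimpleGraph
namespace Pool.Agent.TFD

variable {V : Type} [Fintype V] [DecidableEq V] {G : SimpleGraph V} [DecidableRel G.Adj] {Δ k : ℕ}

theorem tfmix_disj (h : TF G Δ) {x y : V} (hxy : G.Adj x y) :
    Disjoint (G.neighborFinset x) (G.neighborFinset y) := by
  rw [Finset.disjoint_left]
  intro z hx hy
  rw [mem_neighborFinset] at hx hy
  exact h.tri hxy hx hy

theorem tfmix_star (h : TF G Δ) (hk : Fintype.card V + k = 3 * Δ) (hk2 : 2 ≤ k) {w w' z : V}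
    (hw : G.degree w = Δ) (hw' : G.degree w' = Δ) (hz : G.degree z = Δ) (hww : G.Adj w w')
    (h1 : Disjoint (G.neighborFinset w) (G.neighborFinset z))
    (h2 : Disjoint (G.neighborFinset w') (G.neighborFinset z)) : False := by
  have h3 := tfmix_disj h hww
  have h4 : Disjoint (G.neighborFinset w ∪ G.neighborFinset w') (G.neighborFinset z) :=
    Finset.disjoint_union_left.2 ⟨h1, h2⟩
  have h5 := Finset.card_le_univ ((G.neighborFinset w ∪ G.neighborFinset w') ∪ G.neighborFinset z)
  rw [Finset.card_union_of_disjoint h4, Finset.card_union_of_disjoint h3,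
    card_neighborFinset_eq_degree, card_neighborFinset_eq_degree,
    card_neighborFinset_eq_degree, hw, hw', hz] at h5
  omega

theorem tfmix_common (h : TF G Δ) (hk : Fintype.card V + k = 3 * Δ) (ht : dfc G Δ + 2 ≤ k)
    {w z : V} (hw : G.degree w = Δ) (hz : G.degree z = Δ)
    (h1 : ¬ Disjoint (G.neighborFinset w) (G.neighborFinset z)) :
    k ≤ (G.neighborFinset w ∩ G.neighborFinset z).card ∧
      ∃ a, G.degree a = Δ ∧ G.Adj w a ∧ G.Adj z a := by
  obtain ⟨s, hs1, hs2⟩ := Finset.not_disjoint_iff.1 h1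
  rw [mem_neighborFinset] at hs1 hs2
  have h2 := codeg h hk ht hw hz hs1.symm hs2.symm
  refine ⟨h2, ?_⟩
  by_contra hh
  have h3 := dfc_ge h ∅ (G.neighborFinset w ∩ G.neighborFinset z) (Finset.disjoint_empty_left _)
    (fun v hv hd => by
      rw [Finset.mem_inter, mem_neighborFinset, mem_neighborFinset] at hv
      exact hh ⟨v, hd, hv.1, hv.2⟩)
  rw [Finset.sum_empty] at h3
  omega

theorem tfmix_c5 (h : TF G Δ) (hk : Fintype.card V + k = 3 * Δ) (ht : dfc G Δ + 2 ≤ k)
    {x y w : V} (hx : G.degree x = Δ) (hy : G.degree y = Δ) (hw : G.degree w = Δ)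
    (hxy : G.Adj x y) (h1 : ¬ Disjoint (G.neighborFinset w) (G.neighborFinset x))
    (h2 : ¬ Disjoint (G.neighborFinset w) (G.neighborFinset y)) :
    2 * k ≤ Δ ∧ ∃ v, C5 G Δ v := by
  obtain ⟨c1, a, ha, hwa, hxa⟩ := tfmix_common h hk ht hw hx h1
  obtain ⟨c2, b, hb, hwb, hyb⟩ := tfmix_common h hk ht hw hy h2
  constructor
  · have h3 : Disjoint (G.neighborFinset w ∩ G.neighborFinset x)
        (G.neighborFinset w ∩ G.neighborFinset y) :=
      (tfmix_disj h hxy).mono Finset.inter_subset_right Finset.inter_subset_right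
    have h4 : (G.neighborFinset w ∩ G.neighborFinset x) ∪
        (G.neighborFinset w ∩ G.neighborFinset y) ⊆ G.neighborFinset w :=
      Finset.union_subset Finset.inter_subset_left Finset.inter_subset_left
    have h5 := Finset.card_le_card h4
    rw [Finset.card_union_of_disjoint h3, card_neighborFinset_eq_degree, hw] at h5
    omega
  · refine ⟨(![x, y, b, w, a] : Fin 5 → V), ?_, ?_⟩
    · intro i
      fin_cases i
      · exact hx
      · exact hy
      · exact hb
      · exact hw
      · exact ha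
    · intro i
      fin_cases i
      · exact hxy
      · exact hyb
      · exact hwb.symm
      · exact hwa
      · exact hxa.symm

theorem bip_or_c5 (h : TF G Δ) (hk : Fintype.card V + k = 3 * Δ) (ht : dfc G Δ + 2 ≤ k) :
    (∃ χ : V → Bool, ∀ x y, G.degree x = Δ → G.degree y = Δ → G.Adj x y → χ x ≠ χ y) ∨
      (2 * k ≤ Δ ∧ ∃ v, C5 G Δ v) := by
  have hk2 : 2 ≤ k := by omega
  by_cases h0 : ∃ x y, G.degree x = Δ ∧ G.degree y = Δ ∧ G.Adj x y
  · obtain ⟨x, y, hx, hy, hxy⟩ := h0
    by_cases h1 : ∀ w w', G.degree w = Δ → G.degree w' = Δ → G.Adj w w' →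
        decide (Disjoint (G.neighborFinset w) (G.neighborFinset y)) ≠
          decide (Disjoint (G.neighborFinset w') (G.neighborFinset y))
    · exact Or.inl ⟨fun w => decide (Disjoint (G.neighborFinset w) (G.neighborFinset y)), h1⟩
    · right
      simp only [not_forall, not_not, ne_eq, decide_eq_decide] at h1
      obtain ⟨w, w', hw, hw', hww, he⟩ := h1
      have a1 : ¬ Disjoint (G.neighborFinset w) (G.neighborFinset y) := fun hd =>
        tfmix_star h hk hk2 hw hw' hy hww hd (he.1 hd)
      have a2 : ¬ Disjoint (G.neighborFinset w') (G.neighborFinset y) := fun hd => a1 (he.2 hd)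
      by_cases b1 : Disjoint (G.neighborFinset w) (G.neighborFinset x)
      · have b2 : ¬ Disjoint (G.neighborFinset w') (G.neighborFinset x) := fun hd =>
          tfmix_star h hk hk2 hw hw' hx hww b1 hd
        exact tfmix_c5 h hk ht hx hy hw' hxy b2 a2
      · exact tfmix_c5 h hk ht hx hy hw hxy b1 a1
  · exact Or.inl ⟨fun _ => true, fun x y hx hy hxy => absurd ⟨x, y, hx, hy, hxy⟩ h0⟩

end Pool.Agent.TFD
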