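import Pool.Agent.P.MP_dfe42f_co.TfCod

open Finset SimpleGraph
namespace Pool.Agent.TFD

variable {V : Type} [Fintype V] [DecidableEq V] {G : SimpleGraph V} [DecidableRel G.Adj] {Δ k : ℕ}

theorem tfup_split (f : V → ℕ) (A : Finset V) (x y : ℕ) (h1 : ∀ v ∈ A, f v ≤ x)
    (h2 : ∀ v ∉ A, f v ≤ y) : ∑ v, f v ≤ A.card * x + (Fintype.card V - A.card) * y := by
  rw [← Finset.sum_add_sum_compl A f, ← Finset.card_compl]
  exact add_le_add (Finset.sum_le_card_nsmul _ _ _ h1)
    (Finset.sum_le_card_nsmul _ _ _ fun v hv => h2 v (Finset.mem_compl.1 hv))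

theorem up_small (h : TF G Δ) (hn : Fintype.card V ≤ 2 * Δ) (hn' : Δ < Fintype.card V) (s : ℕ) :
    ∑ v, (G.degree v).choose s ≤ starSum s Δ (Fintype.card V) := by
  have : Nonempty V := Fintype.card_pos_iff.1 (by omega)
  obtain ⟨v, -, hv⟩ := Finset.exists_max_image Finset.univ (fun v => G.degree v)
    Finset.univ_nonempty
  have key : ∃ A : Finset V, A.card ∈ Icc (Fintype.card V - Δ) Δ ∧
      (∀ w ∈ A, G.degree w ≤ Fintype.card V - A.card) ∧ ∀ w ∉ A, G.degree w ≤ A.card := by
    by_cases hc : Fintype.card V - G.degree v ≤ Δ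
    · have h0 := h.deg v
      refine ⟨G.neighborFinset v, ?_, fun w hw => ?_, fun w _ => hv w (mem_univ _)⟩
      · rw [card_neighborFinset_eq_degree, mem_Icc]
        omega
      · have hd : Disjoint (G.neighborFinset w) (G.neighborFinset v) :=
          Finset.disjoint_left.2 fun z h1 h2 =>
            h.tri ((mem_neighborFinset _ _ _).1 hw) ((mem_neighborFinset _ _ _).1 h2)
              ((mem_neighborFinset _ _ _).1 h1)
        have h3 := Finset.card_le_univ (G.neighborFinset w ∪ G.neighborFinset v)
        rw [Finset.card_union_of_disjoint hd, card_neighborFinset_eq_degree] at h3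
        omega
    · obtain ⟨A, -, hA⟩ := Finset.exists_subset_card_eq (s := (Finset.univ : Finset V))
        (n := Fintype.card V - Δ) (by rw [Finset.card_univ]; omega)
      refine ⟨A, ?_, fun w _ => ?_, fun w _ => ?_⟩
      · rw [hA, mem_Icc]
        omega
      · have := h.deg w
        omega
      · have := hv w (mem_univ _)
        omega
  obtain ⟨A, a1, a2, a3⟩ := key
  rw [starSum, if_pos hn]
  refine (tfup_split _ A _ _ (fun w hw => Nat.choose_le_choose s (a2 w hw))
    fun w hw => Nat.choose_le_choose s (a3 w hw)).trans ?_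
  exact Finset.le_sup (f := fun a => a * (Fintype.card V - a).choose s +
    (Fintype.card V - a) * a.choose s) a1

theorem tfup_conv (r x y s : ℕ) :
    (r + x).choose s + (r + y).choose s ≤ (r + x + y).choose s + r.choose s := by
  induction y with
  | zero => simp
  | succ y ih =>
    rcases s with _ | t
    · simp
    · have h1 : (r + y).choose t ≤ (r + x + y).choose t := Nat.choose_le_choose t (by omega)
      rw [← add_assoc, ← add_assoc, Nat.choose_succ_succ', Nat.choose_succ_succ']
      omega

theorem tfup_two {p q : ℕ} (hp : p ≤ Δ) (hq : q ≤ Δ) (s : ℕ) :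
    p.choose s + q.choose s ≤ Δ.choose s + (p + q - Δ).choose s := by
  by_cases h : Δ ≤ p + q
  · have h1 := tfup_conv (p + q - Δ) (Δ - q) (Δ - p) s
    rwa [show p + q - Δ + (Δ - q) = p by omega, show p + q - Δ + (Δ - p) = q by omega,
      show p + (Δ - p) = Δ by omega] at h1
  · have h1 := tfup_conv 0 p q s
    have h2 : (p + q).choose s ≤ Δ.choose s := Nat.choose_le_choose s (by omega)
    rw [show p + q - Δ = 0 by omega]
    simp only [zero_add] at h1
    omega

theorem tfup_set (f : V → ℕ) (hf : ∀ v, f v ≤ Δ) (s : ℕ) (S : Finset V) (hS : S.Nonempty) :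
    ∑ v ∈ S, (f v).choose s ≤
      (S.card - 1) * Δ.choose s + (Δ - ∑ v ∈ S, (Δ - f v)).choose s := by
  induction hS using Finset.Nonempty.cons_induction with
  | singleton a =>
    have := hf a
    simp [show Δ - (Δ - f a) = f a by omega]
  | cons a S ha hS ih =>
    rw [Finset.sum_cons, Finset.sum_cons, Finset.card_cons]
    have h1 := tfup_two (hf a) (Nat.sub_le Δ (∑ v ∈ S, (Δ - f v))) s
    have h0 := hf a
    have h2 : (f a + (Δ - ∑ v ∈ S, (Δ - f v)) - Δ).choose s =
        (Δ - (Δ - f a + ∑ v ∈ S, (Δ - f v))).choose s := by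
      congr 1
      omega
    have h3 : S.card + 1 - 1 = S.card - 1 + 1 := by
      have := hS.card_pos
      omega
    rw [h3, add_mul, one_mul, ← h2]
    omega

theorem up_conc (h : TF G Δ) [Nonempty V] {d : ℕ} (hd : d ≤ Δ) (ht : Δ - d ≤ dfc G Δ) (s : ℕ) :
    ∑ v, (G.degree v).choose s ≤ (Fintype.card V - 1) * Δ.choose s + d.choose s := by
  refine (tfup_set (fun v => G.degree v) h.deg s _ Finset.univ_nonempty).trans ?_
  rw [Finset.card_univ]
  refine Nat.add_le_add_left (Nat.choose_le_choose s ?_) _
  unfold dfc at ht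
  omega

end Pool.Agent.TFD
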