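import Pool.Agent.P.MP_dfe42f_co.TfBip
import Pool.Agent.P.MP_dfe42f_co.TfMix
import Pool.Agent.P.MP_dfe42f_co.TfClA
import Pool.Agent.P.MP_dfe42f_co.TfClB
import Pool.Agent.P.MP_dfe42f_co.TfHom
import Pool.Agent.P.MP_dfe42f_co.TfUp
import Pool.Agent.P.MP_dfe42f_co.TfConB
import Pool.Agent.P.MP_dfe42f_co.TfConC
import Pool.Agent.P.MP_dfe42f_co.TfConD
import Pool.Agent.P.MP_dfe42f_co.TfCnt

open Finset SimpleGraph
namespace Pool.Agent.TFD

variable {V : Type} [Fintype V] [DecidableEq V] {G : SimpleGraph V} [DecidableRel G.Adj] {Δ : ℕ}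

theorem dfc_main (h : TF G Δ) (hn : 2 * Δ < Fintype.card V) (ho : Fintype.card V % 2 = 1) :
    Δ - apexDeg Δ (Fintype.card V) ≤ dfc G Δ := by
  have hp := dfc_parity h
  rw [Nat.mul_mod, ho, one_mul, Nat.mod_mod] at hp
  unfold apexDeg
  split_ifs with h5
  swap
  · omega
  by_contra hlt
  obtain ⟨k, hk⟩ : ∃ k, Fintype.card V + k = 3 * Δ := ⟨3 * Δ - Fintype.card V, by omega⟩
  have ht : dfc G Δ + 2 ≤ k := by omega
  rcases bip_or_c5 h hk ht with ⟨χ, hχ⟩ | ⟨h2, v, hv⟩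
  · exact no_bip h hk ht hn ho χ hχ
  have ht3 : dfc G Δ + 3 ≤ k := by omega
  have h4 : 4 ≤ k := by omega
  obtain ⟨W, R, hc⟩ := exists_cl h hk ht h4 (by omega) hv
  have := hom_bound h hk (by omega) hv hc.vW fun x y hxy => by
    have a1 := cl_same h hk ht3 h4 (by omega) (by omega) hv hc hxy
    have a2 := cl_two h hk ht3 h4 (by omega) (by omega) hv hc hxy
    have a3 := cl_two h hk ht3 h4 (by omega) (by omega) hv hc hxy.symm
    revert a1 a2 a3
    unfold Nb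
    generalize W x = i
    generalize W y = j
    revert i j
    decide
  omega

theorem upper (h : TF G Δ) (hn : Δ < Fintype.card V) (s : ℕ) :
    ∑ v, (G.degree v).choose s ≤ starSum s Δ (Fintype.card V) := by
  by_cases h1 : Fintype.card V ≤ 2 * Δ
  · exact up_small h h1 hn s
  have : Nonempty V := Fintype.card_pos_iff.1 (by omega)
  rw [starSum, if_neg h1]
  split_ifs with h2
  · refine (up_conc h le_rfl (by omega) s).trans_eq ?_
    rw [← Nat.succ_mul, Nat.succ_eq_add_one, Nat.sub_add_cancel (by omega)]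
  · refine up_conc h ?_ (dfc_main h (by omega) (by omega)) s
    unfold apexDeg
    split_ifs <;> omega

theorem re_odd {Δ n : ℕ} (hΔ : 2 ≤ Δ) (hn : 2 * Δ < n) (ho : n % 2 = 1) :
    Re (Fin n) Δ (apexDeg Δ n) := by
  unfold apexDeg
  split_ifs with h5
  · by_cases h1 : n + 1 - 2 * Δ ≤ Δ - Δ % 2
    · have := re_blow (c := 1) (h := (n + 1 - 2 * Δ) / 2) (m := Δ - 1) one_pos (by omega)
        (by omega) (Or.inl rfl)
      rwa [show 1 + 2 * ((n + 1 - 2 * Δ) / 2) + 2 * (Δ - 1) = n by omega,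
        show 1 + (Δ - 1) = Δ by omega,
        show 2 * ((n + 1 - 2 * Δ) / 2) = min (n + 1 - 2 * Δ) (Δ - Δ % 2) by omega] at this
    · obtain ⟨rfl, rfl⟩ : Δ = 3 ∧ n = 9 := by omega
      exact re_nine
  · by_cases h1 : 3 * (Δ - 1 + Δ % 2) < n
    · exact re_circ ho h1
    rcases Nat.mod_two_eq_zero_or_one Δ with h2 | h2
    · have := re_blow (c := 3 * Δ - n) (h := Δ / 2) (m := n - 2 * Δ) (by omega) (by omega)
        (by omega) (Or.inr (by omega))
      rwa [show 3 * Δ - n + 2 * (Δ / 2) + 2 * (n - 2 * Δ) = n by omega,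
        show 3 * Δ - n + (n - 2 * Δ) = Δ by omega, show 2 * (Δ / 2) = Δ - Δ % 2 by omega] at this
    · have := re_rem (e := (3 * Δ + 2 - n) / 2) (h := (Δ + 1) / 2) (m := n - 2 * Δ - 2) (by omega)
        (by omega)
      rwa [show 2 * ((3 * Δ + 2 - n) / 2) + 1 + 2 * ((Δ + 1) / 2) + 2 * (n - 2 * Δ - 2) = n by omega,
        show 2 * ((Δ + 1) / 2) - 1 = Δ by omega,
        show 2 * ((Δ + 1) / 2) - 2 = Δ - Δ % 2 by omega] at this

theorem re_sum {n Δ d : ℕ} (h : Re (Fin n) Δ d) (hd : d ≤ Δ) (s : ℕ) :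
    ∃ G : SimpleGraph (Fin n), G.CliqueFree 3 ∧ (∀ v, (G.neighborSet v).ncard ≤ Δ) ∧
      ∑ v, ((G.neighborSet v).ncard).choose s = (n - 1) * Δ.choose s + d.choose s := by
  obtain ⟨G, h1, v₀, h2, h3⟩ := h
  refine ⟨G, h1, fun v => ?_, ?_⟩
  · by_cases e : v = v₀
    · rw [e, h2]; exact hd
    · exact (h3 v e).le
  · rw [← sum_erase_add _ _ (mem_univ v₀), h2,
      sum_congr rfl fun v hv => by rw [h3 v (ne_of_mem_erase hv)], sum_const, smul_eq_mul,
      card_erase_of_mem (mem_univ _), card_univ, Fintype.card_fin]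

theorem lower {Δ n : ℕ} (hΔ : 2 ≤ Δ) (hn : Δ < n) (s : ℕ) :
    ∃ G : SimpleGraph (Fin n), G.CliqueFree 3 ∧ (∀ v, (G.neighborSet v).ncard ≤ Δ) ∧
      ∑ v, ((G.neighborSet v).ncard).choose s = starSum s Δ n := by
  unfold starSum
  split_ifs with h1 h2
  · obtain ⟨a, ha, e⟩ := exists_mem_eq_sup (Icc (n - Δ) Δ) (nonempty_Icc.2 (by omega))
      fun a => a * (n - a).choose s + (n - a) * a.choose s
    rw [e]
    rw [mem_Icc] at ha
    obtain ⟨b, rfl⟩ : ∃ b, n = a + b := ⟨n - a, by omega⟩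
    obtain ⟨G, g1, g2, g3⟩ := con_bip a b s
    exact ⟨G, g1, fun v => (g2 v).trans (by omega), by rw [g3, Nat.add_sub_cancel_left]⟩
  · obtain ⟨N, rfl⟩ : ∃ N, n = 2 * N := ⟨n / 2, by omega⟩
    obtain ⟨G, g1, g2, g3⟩ := re_sum (re_even (Δ := Δ) (N := N) (by omega) (by omega)) le_rfl s
    exact ⟨G, g1, g2, by
      rw [g3, ← Nat.succ_mul, Nat.succ_eq_add_one, Nat.sub_add_cancel (by omega)]⟩
  · refine re_sum (re_odd hΔ (by omega) (by omega)) ?_ s
    unfold apexDeg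
    split_ifs <;> omega

theorem deg_eq (v : V) : (G.neighborSet v).ncard = G.degree v := by
  rw [← card_neighborFinset_eq_degree, ← Set.ncard_coe_finset, coe_neighborFinset]

open Classical in
theorem main {s Δ n : ℕ} (hΔ : 2 ≤ Δ) (hn : Δ < n) (H : SimpleGraph (Fin (s + 1)))
    (hd : ∃ c, ∀ w ≠ c, H.Adj c w) :
    IsGreatest {N | ∃ G : SimpleGraph (Fin n), G.CliqueFree 3 ∧
        (∀ v, (G.neighborSet v).ncard ≤ Δ) ∧ G.copyCount H = N}
      (if H.CliqueFree 3 then starSum s Δ n / (if s = 1 then 2 else 1) else 0) := by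
  obtain ⟨c, hc⟩ := hd
  have h0 : 0 < (if s = 1 then 2 else 1) := by split_ifs <;> norm_num
  obtain ⟨G₀, g1, g2, g3⟩ := lower hΔ hn s
  by_cases hH : H.CliqueFree 3
  · rw [if_pos hH]
    refine ⟨⟨G₀, g1, g2, ?_⟩, ?_⟩
    · simp only [deg_eq] at g3
      rw [← g3, ← count_star H hH hc, Nat.mul_div_cancel _ h0]
    · rintro _ ⟨G, k1, k2, rfl⟩
      simp only [deg_eq] at k2
      have hT : TF G Δ := ⟨fun x y z a b c => k1 _ (is3Clique_triple_iff.2 ⟨a, b, c⟩), k2⟩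
      have := upper hT (by rwa [Fintype.card_fin]) s
      rw [Fintype.card_fin, ← count_star H hH hc] at this
      exact (Nat.le_div_iff_mul_le h0).2 this
  · rw [if_neg hH]
    refine ⟨⟨G₀, g1, g2, count_zero H hH g1⟩, ?_⟩
    rintro _ ⟨G, k1, -, rfl⟩
    exact (count_zero H hH k1).le

end Pool.Agent.TFD
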