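import Pool.Agent.P.MP_dfe42f_co.Tf2

open Finset SimpleGraph
namespace Pool.Agent.TFD

theorem tfmul_key {V W : Type} (G : SimpleGraph V) (e : V ≃ W) (v : W) :
    ((G.comap e.symm).neighborSet v).ncard = (G.neighborSet (e.symm v)).ncard := by
  have e1 : (G.comap e.symm).neighborSet v = e '' G.neighborSet (e.symm v) := by
    ext w
    simp only [mem_neighborSet, comap_adj, Set.mem_image]
    constructor
    · intro hw
      exact ⟨e.symm w, hw, e.apply_symm_apply w⟩
    · rintro ⟨u, hu, rfl⟩
      rwa [e.symm_apply_apply]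
  rw [e1, Set.ncard_image_of_injective _ e.injective]

theorem ReW.fin {ω : ℕ} {V : Type} [Fintype V] {Δ d n : ℕ} (h : ReW ω V Δ d)
    (hn : Fintype.card V = n) : ReW ω (Fin n) Δ d := by
  obtain ⟨G, hG, v₀, h0, h1⟩ := h
  let e : V ≃ Fin n := Fintype.equivFinOfCardEq hn
  refine ⟨G.comap e.symm, ?_, e v₀, ?_, ?_⟩
  · exact hG.comap (Embedding.comap e.symm.toEmbedding G).isContained
  · rw [tfmul_key, e.symm_apply_apply, h0]
  · intro v hv
    rw [tfmul_key]
    refine h1 _ fun hh => hv ?_
    rw [← hh, e.apply_symm_apply]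

theorem ReW.mono {ω ω' : ℕ} {V : Type} {Δ d : ℕ} (h : ReW ω V Δ d) (hω : ω ≤ ω') :
    ReW ω' V Δ d := by
  obtain ⟨G, hG, r⟩ := h
  exact ⟨G, hG.mono (by omega), r⟩

/-- the join of an independent set with a graph -/
def tfmul_join (A : Type) {B : Type} (G : SimpleGraph B) : SimpleGraph (A ⊕ B) where
  Adj p q := match p, q with
    | .inl _, .inl _ => False
    | .inl _, .inr _ => True
    | .inr _, .inl _ => True
    | .inr x, .inr y => G.Adj x y
  symm := ⟨fun p q h => by
    cases p <;> cases q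
    · exact h
    · trivial
    · trivial
    · exact G.adj_symm h⟩
  loopless := ⟨fun p h => by
    cases p
    · exact h
    · exact G.irrefl h⟩

theorem tfmul_inl {A B : Type} [Fintype B] (G : SimpleGraph B) (x : A) :
    ((tfmul_join A G).neighborSet (.inl x)).ncard = Fintype.card B := by
  have e : (tfmul_join A G).neighborSet (.inl x) = Sum.inr '' Set.univ := by
    ext w
    cases w <;> simp [tfmul_join]
  rw [e, Set.ncard_image_of_injective _ Sum.inr_injective, Set.ncard_univ, Nat.card_eq_fintype_card]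

theorem tfmul_inr {A B : Type} [Fintype A] [Fintype B] (G : SimpleGraph B) (x : B) :
    ((tfmul_join A G).neighborSet (.inr x)).ncard = (G.neighborSet x).ncard + Fintype.card A := by
  have e : (tfmul_join A G).neighborSet (.inr x) =
      Sum.inr '' G.neighborSet x ∪ Sum.inl '' Set.univ := by
    ext w
    cases w <;> simp [tfmul_join]
  have hd : Disjoint (Sum.inr '' G.neighborSet x : Set (A ⊕ B)) (Sum.inl '' Set.univ) := by
    rw [Set.disjoint_left]
    rintro _ ⟨u, -, rfl⟩ ⟨w, -, hw⟩
    cases hw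
  rw [e, Set.ncard_union_eq hd, Set.ncard_image_of_injective _ Sum.inr_injective,
    Set.ncard_image_of_injective _ Sum.inl_injective, Set.ncard_univ, Nat.card_eq_fintype_card]

theorem tfmul_free {A B : Type} {G : SimpleGraph B} {k : ℕ} (hG : G.CliqueFree k) :
    (tfmul_join A G).CliqueFree (k + 1) := by
  classical
  intro s hs
  have h1 : s.toLeft.card ≤ 1 := by
    rw [card_le_one]
    intro x hx y hy
    by_contra hne
    exact hs.1 (mem_coe.2 (mem_toLeft.1 hx)) (mem_coe.2 (mem_toLeft.1 hy))
      fun e => hne (Sum.inl_injective e)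
  have h2 : G.IsClique (s.toRight : Set B) := by
    intro x hx y hy hne
    exact hs.1 (mem_coe.2 (mem_toRight.1 hx)) (mem_coe.2 (mem_toRight.1 hy))
      fun e => hne (Sum.inr_injective e)
  have h3 := card_toLeft_add_card_toRight (u := s)
  rw [hs.2] at h3
  exact hG.mono (by omega : k ≤ s.toRight.card) _ ⟨h2, rfl⟩

/-- join with an independent set of size `a` -/
theorem ReW.join {ω a D d : ℕ} (h : ReW ω (Fin (D + a)) D d) :
    ReW (ω + 1) (Fin (a + (D + a))) (D + a) (d + a) := by
  obtain ⟨G, hG, v₀, h0, h1⟩ := h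
  refine ReW.fin (V := Fin a ⊕ Fin (D + a)) ⟨tfmul_join _ G, tfmul_free hG, .inr v₀, ?_, ?_⟩
    (by simp)
  · rw [tfmul_inr, h0, Fintype.card_fin]
  · rintro (x | x) hx
    · rw [tfmul_inl, Fintype.card_fin]
    · rw [tfmul_inr, h1 x fun e => hx (by rw [e]), Fintype.card_fin]

theorem con_multi {ω n : ℕ} (a : Fin ω → ℕ) (ha : ∑ i, a i = n) {Δ : ℕ} (hd : ∀ i, n - Δ ≤ a i)
    (s : ℕ) : ∃ G : SimpleGraph (Fin n), G.CliqueFree (ω + 1) ∧
      (∀ v, (G.neighborSet v).ncard ≤ Δ) ∧
      ∑ v, ((G.neighborSet v).ncard).choose s = ∑ i, a i * (n - a i).choose s := by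
  classical
  let V := Σ i : Fin ω, Fin (a i)
  let H : SimpleGraph V := (⊤ : SimpleGraph (Fin ω)).comap Sigma.fst
  have hV : Fintype.card V = n := by
    simp only [V, Fintype.card_sigma, Fintype.card_fin, ha]
  have hdeg : ∀ v : V, (H.neighborSet v).ncard = n - a v.1 := by
    intro v
    have e1 : (H.neighborSet v)ᶜ = Sigma.mk v.1 '' Set.univ := by
      ext w
      simp only [H, Set.mem_compl_iff, mem_neighborSet, comap_adj, top_adj, not_not,
        Set.mem_image, Set.mem_univ, true_and]
      constructor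
      · intro hw
        obtain ⟨i, x⟩ := v
        obtain ⟨j, y⟩ := w
        cases hw
        exact ⟨y, rfl⟩
      · rintro ⟨y, rfl⟩
        rfl
    have e2 := Set.ncard_add_ncard_compl (H.neighborSet v)
    rw [e1, Set.ncard_image_of_injective _ sigma_mk_injective, Set.ncard_univ,
      Nat.card_eq_fintype_card, Nat.card_eq_fintype_card, Fintype.card_fin, hV] at e2
    omega
  have hfree : H.CliqueFree (ω + 1) := by
    have hc : H.Colorable ω := ⟨Coloring.mk Sigma.fst fun h => h⟩
    exact hc.cliqueFree (Nat.lt_succ_self ω)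
  let e : V ≃ Fin n := Fintype.equivFinOfCardEq hV
  refine ⟨H.comap e.symm, hfree.comap (Embedding.comap e.symm.toEmbedding H).isContained,
    fun v => ?_, ?_⟩
  · rw [tfmul_key, hdeg]
    have := hd (e.symm v).1
    omega
  · simp only [tfmul_key, hdeg]
    rw [Equiv.sum_comp e.symm fun v : V => (n - a v.1).choose s, Fintype.sum_sigma]
    simp

end Pool.Agent.TFD
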