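import Pool.Agent.P.MP_dfe42f_co.HfM

open SimpleGraph in
/-- `u = 1`, `H` has a dominating vertex `c` and `H - c` is non-empty with a 2-factor `F`,
`ω` large in terms of `H`, `Δ = (ω - 1) m`, `L = T_ω(ω m)`: for every `n` the maximum number of
copies of `H` is attained by `⌊n / |L|⌋` copies of `L` together with the Turán graph `T_ω` on the
remaining vertices. -/
theorem Pool.Agent.P.MP_dfe42f_co.VariantTwoFactor.result (h : ℕ) (H F : SimpleGraph (Fin h))
    (c : Fin h) (hc : ∀ v, v ≠ c → H.Adj c v) (hn : ∃ v, v ≠ c) (hF : F ≤ H)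
    (h0 : ∀ v, ¬ F.Adj c v) (h2 : ∀ v, v ≠ c → (F.neighborSet v).ncard = 2) :
    ∃ ω₀ : ℕ, ∀ ω ≥ ω₀, ∀ m ≥ 1, ∀ n : ℕ,
      IsGreatest {k | ∃ G : SimpleGraph (Fin n), G.CliqueFree (ω + 1) ∧
          (∀ v, (G.neighborSet v).ncard ≤ (ω - 1) * m) ∧ G.copyCount H = k}
        (n / (ω * m) * (turanGraph (ω * m) ω).copyCount H +
          (turanGraph (n % (ω * m)) ω).copyCount H) :=
  Pool.Agent.GL2.main hc hn hF h0 h2
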